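import Pool.Agent.P.MP_e09f5c_gt.A3Defs

/-! Pointwise bounds for the radius function when `q` is small. -/

namespace Pool.Agent.Ped

variable {q co si r : ℝ}

theorem rbd_le {x y : ℝ} (hy : 0 ≤ y) (h : x ^ 2 ≤ y ^ 2) : x ≤ y :=
  (abs_le_of_sq_le_sq' h hy).2

theorem rbd_sq_le_abs (h : co ^ 2 + si ^ 2 = 1) : si ^ 2 ≤ |si| := by
  have h0 : 0 ≤ |si| := abs_nonneg si
  have h1 : |si| ≤ 1 := by
    apply rbd_le zero_le_one
    rw [sq_abs]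
    linarith only [h, sq_nonneg co]
  have h3 : |si| * |si| ≤ |si| * 1 := mul_le_mul_of_nonneg_left h1 h0
  have h4 : si ^ 2 = |si| * |si| := by rw [← sq_abs]; ring
  linarith only [h3, h4]

theorem rbd_sqrt_pos (hq : 0 < q) {β : ℝ} (hβ : 0 ≤ β) (co : ℝ) :
    0 < Real.sqrt (q + β * co ^ 2) :=
  Real.sqrt_pos.2 (by positivity)

theorem rbd_sqrt_sq (hq : 0 < q) {β : ℝ} (hβ : 0 ≤ β) (co : ℝ) :
    Real.sqrt (q + β * co ^ 2) ^ 2 = q + β * co ^ 2 :=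
  Real.sq_sqrt (by positivity)

theorem Jf_nonneg {q : ℝ} (hq : 0 ≤ q) (β co si : ℝ) : 0 ≤ Jf q β co si := by
  unfold Jf
  exact div_nonneg (mul_nonneg hq (abs_nonneg si)) (Real.sqrt_nonneg _)

theorem rb_a (hq : 0 ≤ q) (h : co ^ 2 + si ^ 2 = 1) (hr : 0 ≤ r)
    (h2 : r ^ 2 = (1 - q) * co ^ 2 + q * si ^ 2) : (r - |co|) * (co ^ 2 - si ^ 2) ≤ 0 := by
  have hg : 0 ≤ |co| := abs_nonneg co
  have hc : |co| ^ 2 = co ^ 2 := sq_abs co
  rcases (add_nonneg hr hg).eq_or_lt with h0 | h0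
  · have hr0 : r = 0 := by linarith only [h0, hr, hg]
    have hg0 : |co| = 0 := by linarith only [h0, hr, hg]
    rw [hr0, hg0]
    simp
  · have key : (r - |co|) * (co ^ 2 - si ^ 2) * (r + |co|) = -(q * (co ^ 2 - si ^ 2) ^ 2) := by
      linear_combination (co ^ 2 - si ^ 2) * h2 - (co ^ 2 - si ^ 2) * hc
    have h3 : (r - |co|) * (co ^ 2 - si ^ 2) * (r + |co|) ≤ 0 * (r + |co|) := by
      rw [key, zero_mul]
      exact neg_nonpos.2 (mul_nonneg hq (sq_nonneg _))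
    exact le_of_mul_le_mul_right h3 h0

theorem rb_b (hq : 0 < q) (hq1 : q ≤ 1 / 2) (h : co ^ 2 + si ^ 2 = 1) (hr : 0 < r)
    (h2 : r ^ 2 = (1 - q) * co ^ 2 + q * si ^ 2) : (1 - q) * co ^ 2 / r ≤ (1 - q / 2) * |co| := by
  have hg : 0 ≤ |co| := abs_nonneg co
  have hc : |co| ^ 2 = co ^ 2 := sq_abs co
  have hp : 0 ≤ 1 - q := by linarith only [hq1]
  have hp2 : 0 ≤ 1 - q / 2 := by linarith only [hq1]
  have h3 : (1 - q) * co ^ 2 ≤ r ^ 2 := by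
    have := mul_nonneg hq.le (sq_nonneg si)
    linarith only [this, h2]
  have h4 : (1 - q) * |co| ≤ (1 - q / 2) * r := by
    apply rbd_le (mul_nonneg hp2 hr.le)
    have a1 : (1 - q) * ((1 - q) * co ^ 2) ≤ (1 - q) * r ^ 2 := mul_le_mul_of_nonneg_left h3 hp
    have a2 : 0 ≤ q ^ 2 * r ^ 2 := by positivity
    rw [mul_pow, mul_pow, hc]
    linarith only [a1, a2]
  rw [div_le_iff₀ hr, ← hc]
  have a3 := mul_le_mul_of_nonneg_left h4 hg
  linarith only [a3]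

theorem rb_c (hq : 0 < q) (hq1 : q ≤ 3 / 100) (h : co ^ 2 + si ^ 2 = 1) (hr : 0 < r)
    (h2 : r ^ 2 = (1 - q) * co ^ 2 + q * si ^ 2) : q * si ^ 2 / r ≤ Jf q (47 / 50) co si := by
  unfold Jf
  have hR := rbd_sqrt_pos hq (β := 47 / 50) (by norm_num) co
  have hR2 := rbd_sqrt_sq hq (β := 47 / 50) (by norm_num) co
  have h3 : Real.sqrt (q + 47 / 50 * co ^ 2) ≤ r := by
    apply rbd_le hr.le
    rw [hR2]
    have a1 : 0 ≤ (3 / 100 - q) * co ^ 2 := mul_nonneg (by linarith only [hq1]) (sq_nonneg co)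
    have a2 : r ^ 2 = q + (1 - 2 * q) * co ^ 2 := by linear_combination h2 + q * h
    linarith only [a1, a2]
  have h4 : q * si ^ 2 ≤ q * |si| := mul_le_mul_of_nonneg_left (rbd_sq_le_abs h) hq.le
  exact div_le_div₀ (mul_nonneg hq.le (abs_nonneg si)) h4 hR h3

theorem rb_d (hq : 0 < q) (hq1 : q ≤ 3 / 100) (h : co ^ 2 + si ^ 2 = 1) (hr : 0 < r)
    (h2 : r ^ 2 = (1 - q) * co ^ 2 + q * si ^ 2) :
      r ≤ |co| + Jf q (77 / 20) co si := by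
  unfold Jf
  have hg : 0 ≤ |co| := abs_nonneg co
  have hc : |co| ^ 2 = co ^ 2 := sq_abs co
  have hR := rbd_sqrt_pos hq (β := 77 / 20) (by norm_num) co
  have hR2 := rbd_sqrt_sq hq (β := 77 / 20) (by norm_num) co
  have a1 : 0 ≤ (3 / 100 - q) * co ^ 2 := mul_nonneg (by linarith only [hq1]) (sq_nonneg co)
  have a2 : r ^ 2 = q + (1 - 2 * q) * co ^ 2 := by linear_combination h2 + q * h
  have a3 : 24 / 25 * |co| ≤ r := by
    apply rbd_le hr.le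
    rw [mul_pow, hc]
    linarith only [a1, a2, hq, sq_nonneg co]
  have a4 : |co| * (24 / 25 * |co|) ≤ |co| * r := mul_le_mul_of_nonneg_left a3 hg
  have hs : 0 < r + |co| := by linarith only [hr, hg]
  have h3 : Real.sqrt (q + 77 / 20 * co ^ 2) ≤ r + |co| := by
    apply rbd_le hs.le
    rw [hR2]
    linarith only [a1, a2, a4, hc, sq_nonneg co]
  have h4 : q * si ^ 2 ≤ q * |si| := mul_le_mul_of_nonneg_left (rbd_sq_le_abs h) hq.le
  have h5 : r - |co| ≤ q * |si| / (r + |co|) := by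
    rw [le_div_iff₀ hs]
    have a5 : 0 ≤ q * co ^ 2 := mul_nonneg hq.le (sq_nonneg co)
    linarith only [a5, h4, h2, hc]
  have h6 : q * |si| / (r + |co|) ≤ q * |si| / Real.sqrt (q + 77 / 20 * co ^ 2) :=
    div_le_div_of_nonneg_left (mul_nonneg hq.le (abs_nonneg si)) hR h3
  linarith only [h5, h6]

theorem rb_e (hq : 0 < q) (hq1 : q ≤ 1 / 2) (h : co ^ 2 + si ^ 2 = 1) (hr : 0 < r)
    (h2 : r ^ 2 = (1 - q) * co ^ 2 + q * si ^ 2) :
    ((2 * q - 1) * (si * co) / r ^ 2) ^ 2 * co ^ 2 * r ≤ si ^ 2 * |co| := by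
  have hg : 0 ≤ |co| := abs_nonneg co
  have hc : |co| ^ 2 = co ^ 2 := sq_abs co
  have hp : 0 ≤ 1 - q := by linarith only [hq1]
  have h3 : (1 - q) * |co| ≤ r := by
    apply rbd_le hr.le
    rw [mul_pow, hc]
    have a1 := mul_nonneg hq.le (sq_nonneg si)
    have a2 : 0 ≤ q * (1 - q) * co ^ 2 := mul_nonneg (mul_nonneg hq.le hp) (sq_nonneg co)
    linarith only [a1, a2, h2]
  have h4 : ((1 - q) * |co|) ^ 3 ≤ r ^ 3 := pow_le_pow_left₀ (mul_nonneg hp hg) h3 3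
  have h5 : (2 * q - 1) ^ 2 ≤ (1 - q) ^ 3 := by
    have a1 : q * q ≤ q * (1 / 2) := mul_le_mul_of_nonneg_left hq1 hq.le
    have a2 : 0 ≤ q * (1 - q - q * q) := mul_nonneg hq.le (by linarith only [a1, hq1])
    linarith only [a2]
  have h6 : (2 * q - 1) ^ 2 * |co| ^ 3 ≤ r ^ 3 := by
    have a1 := mul_le_mul_of_nonneg_right h5 (pow_nonneg hg 3)
    rw [mul_pow] at h4
    linarith only [a1, h4]
  have h7 : ((2 * q - 1) * (si * co) / r ^ 2) ^ 2 * co ^ 2 * r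
      = si ^ 2 * |co| * ((2 * q - 1) ^ 2 * |co| ^ 3) / r ^ 3 := by
    have a1 : |co| * |co| ^ 3 = co ^ 2 * co ^ 2 := by rw [← hc]; ring
    have a2 : si ^ 2 * |co| * ((2 * q - 1) ^ 2 * |co| ^ 3)
        = si ^ 2 * (2 * q - 1) ^ 2 * (co ^ 2 * co ^ 2) := by rw [← a1]; ring
    rw [a2]
    field_simp
  rw [h7, div_le_iff₀ (pow_pos hr 3)]
  exact mul_le_mul_of_nonneg_left h6 (mul_nonneg (sq_nonneg si) hg)

theorem rb_f (hq : 0 < q) (hq1 : q ≤ 3 / 100) (h : co ^ 2 + si ^ 2 = 1) (hr : 0 < r)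
    (h2 : r ^ 2 = (1 - q) * co ^ 2 + q * si ^ 2) :
    q * ((2 * q - 1) * (si * co) / r ^ 2) ^ 2 * si ^ 2 * r ≤ Jf q (47 / 50) co si := by
  refine le_trans ?_ (rb_c hq hq1 h hr h2)
  have h3 : (2 * q - 1) ^ 2 * co ^ 2 ≤ r ^ 2 := by
    have a1 := mul_nonneg hq.le (sq_nonneg si)
    have a2 : 0 ≤ q * (3 - 4 * q) * co ^ 2 :=
      mul_nonneg (mul_nonneg hq.le (by linarith only [hq1])) (sq_nonneg co)
    linarith only [a1, a2, h2]
  have h4 : si ^ 2 * ((2 * q - 1) ^ 2 * co ^ 2) ≤ r ^ 2 := by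
    have a1 : si ^ 2 ≤ 1 := by linarith only [h, sq_nonneg co]
    have a2 : si ^ 2 * ((2 * q - 1) ^ 2 * co ^ 2) ≤ 1 * ((2 * q - 1) ^ 2 * co ^ 2) :=
      mul_le_mul_of_nonneg_right a1 (by positivity)
    linarith only [a2, h3]
  have h7 : q * ((2 * q - 1) * (si * co) / r ^ 2) ^ 2 * si ^ 2 * r
      = q * si ^ 2 / r * (si ^ 2 * ((2 * q - 1) ^ 2 * co ^ 2) / r ^ 2) := by
    field_simp
  rw [h7]
  exact mul_le_of_le_one_right (by positivity) ((div_le_one (pow_pos hr 2)).2 h4)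

/-- The cubic remainder, multiplied by any lower bound of the root of `r^2 + 4 c`. -/
theorem rbd_cube {R : ℝ} (hr : 0 ≤ r) (h2 : r ^ 2 = (1 - q) * co ^ 2 + q * si ^ 2)
    (hR : 0 ≤ R) (hR2 : R ^ 2 ≤ r ^ 2 + 4 * co ^ 2) :
    (r ^ 3 - |co| ^ 3 - 3 / 2 * q * |co| * (si ^ 2 - co ^ 2)) * R
      ≤ q ^ 2 * (si ^ 2 - co ^ 2) ^ 2 := by
  have hg : 0 ≤ |co| := abs_nonneg co
  have hc : |co| ^ 2 = co ^ 2 := sq_abs co
  have e1 : q * (si ^ 2 - co ^ 2) = r ^ 2 - |co| ^ 2 := by linear_combination hc - h2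
  have e2 : r ^ 3 - |co| ^ 3 - 3 / 2 * q * |co| * (si ^ 2 - co ^ 2)
      = (r - |co|) ^ 2 * (r + |co| / 2) := by
    linear_combination (-(3 / 2) * |co|) * e1
  have e3 : q ^ 2 * (si ^ 2 - co ^ 2) ^ 2 = (r - |co|) ^ 2 * (r + |co|) ^ 2 := by
    rw [← mul_pow, e1]; ring
  have h3 : (r + |co| / 2) * R ≤ (r + |co|) ^ 2 := by
    apply rbd_le (sq_nonneg _)
    have a1 : (r + |co| / 2) ^ 2 * R ^ 2 ≤ (r + |co| / 2) ^ 2 * (r ^ 2 + 4 * |co| ^ 2) := by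
      rw [hc]
      exact mul_le_mul_of_nonneg_left hR2 (sq_nonneg _)
    have a2 : 0 ≤ r ^ 3 * |co| := by positivity
    have a3 : 0 ≤ r ^ 2 * |co| ^ 2 := by positivity
    rw [mul_pow]
    linarith only [a1, a2, a3]
  rw [e2, e3, mul_assoc]
  exact mul_le_mul_of_nonneg_left h3 (sq_nonneg _)

theorem rb_g (hq : 0 < q) (hq1 : q ≤ 3 / 100) (h : co ^ 2 + si ^ 2 = 1) (hr : 0 < r)
    (h2 : r ^ 2 = (1 - q) * co ^ 2 + q * si ^ 2) :
    r ^ 3 ≤ |co| ^ 3 + 3 / 2 * q * |co| * (si ^ 2 - co ^ 2) + 5 / 11 * q ^ 2 * |co| ^ 3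
      + q * si ^ 2 * Jf q (49 / 10) co si := by
  unfold Jf
  have hg : 0 ≤ |co| := abs_nonneg co
  have hc : |co| ^ 2 = co ^ 2 := sq_abs co
  have hR := rbd_sqrt_pos hq (β := 49 / 10) (by norm_num) co
  have hR2 := rbd_sqrt_sq hq (β := 49 / 10) (by norm_num) co
  generalize Real.sqrt (q + 49 / 10 * co ^ 2) = R at hR hR2 ⊢
  have a1 : 0 ≤ (3 / 100 - q) * co ^ 2 := mul_nonneg (by linarith only [hq1]) (sq_nonneg co)
  have a2 : r ^ 2 = q + (1 - 2 * q) * co ^ 2 := by linear_combination h2 + q * h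
  have h3 := rbd_cube (R := R) hr.le h2 hR.le (by linarith only [a1, a2, hR2, sq_nonneg co])
  have h4 : |co| ≤ 5 / 11 * R := by
    apply rbd_le (by positivity)
    rw [mul_pow, hR2, hc]
    linarith only [hq, sq_nonneg co]
  have h5 : q ^ 2 * |co| ^ 3 * |co| ≤ q ^ 2 * |co| ^ 3 * (5 / 11 * R) :=
    mul_le_mul_of_nonneg_left h4 (by positivity)
  have h6 : q ^ 2 * si ^ 2 * si ^ 2 ≤ q ^ 2 * si ^ 2 * |si| :=
    mul_le_mul_of_nonneg_left (rbd_sq_le_abs h) (by positivity)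
  have h7 : 0 ≤ q ^ 2 * (si ^ 2 * co ^ 2) := by positivity
  have h8 : q ^ 2 * |co| ^ 3 * |co| = q ^ 2 * (co ^ 2 * co ^ 2) := by rw [← hc]; ring
  have h9 : r ^ 3 - |co| ^ 3 - 3 / 2 * q * |co| * (si ^ 2 - co ^ 2) - 5 / 11 * q ^ 2 * |co| ^ 3
      ≤ q * si ^ 2 * (q * |si|) / R := by
    rw [le_div_iff₀ hR]
    linarith only [h3, h5, h6, h7, h8]
  rw [mul_div_assoc] at h9
  linarith only [h9]

theorem rb_h (h : co ^ 2 + si ^ 2 = 1) (h2 : r ^ 2 = (1 - q) * co ^ 2 + q * si ^ 2) :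
    co ^ 2 * r ≤ |co| ^ 3 + q * |co| * (si ^ 2 - co ^ 2) / 2 := by
  have hg : 0 ≤ |co| := abs_nonneg co
  have hc : |co| ^ 2 = co ^ 2 := sq_abs co
  have e1 : q * (si ^ 2 - co ^ 2) = r ^ 2 - |co| ^ 2 := by linear_combination hc - h2
  have a1 : 0 ≤ |co| * (r - |co|) ^ 2 := mul_nonneg hg (sq_nonneg _)
  have e2 : |co| ^ 3 + q * |co| * (si ^ 2 - co ^ 2) / 2 - co ^ 2 * r
      = |co| * (r - |co|) ^ 2 / 2 := by
    linear_combination (|co| / 2) * e1 + r * hc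
  linarith only [a1, e2]

end Pool.Agent.Ped
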