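import Pool.Agent.P.MP_e09f5c_gt.A3Poly
import Pool.Agent.P.MP_e09f5c_gt.RBound

/-! Pointwise bounds for the model value when `n = 3`. -/

namespace Pool.Agent.Ped

namespace T3

section Mono

variable {P P' s z : ℝ}

theorem a3p_LamL_nonneg (hP : 0 ≤ P) (hs : 0 ≤ s) : 0 ≤ LamL P s := by
  unfold LamL BlL e2L; positivity

theorem a3p_LamG_nonneg (hP : 0 ≤ P) (hs : 0 ≤ s) : 0 ≤ LamG P s := by
  unfold LamG BlG e2G; positivity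

theorem a3p_LamH_mono (hP : 0 ≤ P) (hs : 0 ≤ s) (h : P ≤ P') :
    LamL P s + LamG P s ≤ LamL P' s + LamG P' s := by
  unfold LamL LamG BlL BlG e2L e2G
  gcongr

theorem a3p_ep3_nonneg (hP : 0 ≤ P) (hs : 0 ≤ s) : 0 ≤ ep3 P s := by
  unfold ep3 BeG; positivity

theorem a3p_ep3_mono (hP : 0 ≤ P) (hs : 0 ≤ s) (h : P ≤ P') : ep3 P s ≤ ep3 P' s := by
  unfold ep3 BeG
  gcongr

theorem a3p_phG_nonneg (hP : 0 ≤ P) (hs : 0 ≤ s) : 0 ≤ phG P s := by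
  unfold phG; positivity

theorem a3p_phH_le (hP : 0 ≤ P) (hs : 0 ≤ s) : phH P s ≤ 1 := by
  unfold phH
  have h1 : 0 ≤ (5 / 9 * P + 1 / 9 * s) / 2 := by positivity
  have h2 : 0 ≤ (35 / 99 * P ^ 2 + 6 * (5 / 99) * P * s + 1 / 33 * s ^ 2) / 8 := by positivity
  linarith

theorem a3p_sq_le (hs : 0 ≤ s) (hs1 : s ≤ 1) : 0 ≤ 1 - s ^ 2 := by
  have := pow_le_one₀ (n := 2) hs hs1
  linarith

theorem a3p_Ca_nonneg (hs : 0 ≤ s) (hs1 : s ≤ 1) (hz : 0 ≤ z) : 0 ≤ Ca s z := by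
  have := a3p_sq_le hs hs1
  unfold Ca; positivity

theorem a3p_Ca_le (hs : 0 ≤ s) (hs1 : s ≤ 1) (hz : 0 ≤ z) (hz1 : z ≤ 1) : Ca s z ≤ Ca s 1 := by
  have := a3p_sq_le hs hs1
  unfold Ca
  gcongr

theorem a3p_fb_nonneg (hs : 0 ≤ s) (hs1 : s ≤ 1) : 0 ≤ fb s := by
  have : 0 ≤ 19 / 100 - s / 10 := by linarith
  unfold fb; positivity

theorem a3p_kk_nonneg (s : ℝ) : 0 ≤ kk s := by
  unfold kk; positivity

theorem a3p_ph_nonneg (hs : 0 ≤ s) (hs1 : s ≤ 1) (hz : 0 ≤ z) : 0 ≤ ph s z := by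
  have : 0 ≤ 1 - s := by linarith
  unfold ph; positivity

theorem a3p_ph_le (hs : 0 ≤ s) (hs1 : s ≤ 1) (hz1 : z ≤ 1) : ph s z ≤ ph s 1 := by
  have : 0 ≤ 1 - s := by linarith
  unfold ph
  gcongr

theorem a3p_G1H_nonneg (hs : 0 ≤ s) (hs1 : s ≤ 1) (hz : 0 ≤ z) : 0 ≤ G1H s z := by
  have : 0 ≤ 1 - s := by linarith
  unfold G1H BeL BeG WrL WrG e1L e1G
  positivity

theorem a3p_G1H_le (hs : 0 ≤ s) (hs1 : s ≤ 1) (hz : 0 ≤ z) (hz1 : z ≤ 1) :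
    G1H s z ≤ G1H s 1 := by
  have : 0 ≤ 1 - s := by linarith
  unfold G1H BeL BeG WrL WrG e1L e1G
  gcongr

theorem a3p_zphH (hs : 0 ≤ s) (hs1 : s ≤ 1) (hz : 0 ≤ z) (hz1 : z ≤ 1) :
    z * phH ((1 - s) * z) s ≤ phH (1 - s) s := by
  have := a3p_zphi hz hz1 hs hs1
  unfold phH
  linarith

theorem a3p_phL_nonneg (hs : 0 ≤ s) (hs1 : s ≤ 1) (hz : 0 ≤ z) (hz1 : z ≤ 1) :
    0 ≤ phH ((1 - s) * z) s - phG ((1 - s) * z) s := by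
  have := a3p_phL hz hz1 hs hs1
  unfold phH phG
  linarith

end Mono

end T3

/-- A number between `L` and `L + G`, multiplied by `1 - 2 z`. -/
theorem a3p_sign {L G Λ z : ℝ} (h1 : L ≤ Λ) (h2 : Λ ≤ L + G) :
    Λ * (1 - 2 * z) ≤ L * (1 - 2 * z) + G * (1 - z) ^ 2 := by
  have a1 : (Λ - L) * (1 - 2 * z) ≤ (Λ - L) * (1 - z) ^ 2 :=
    mul_le_mul_of_nonneg_left (by linarith [sq_nonneg z]) (by linarith)
  have a2 : (Λ - L) * (1 - z) ^ 2 ≤ G * (1 - z) ^ 2 :=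
    mul_le_mul_of_nonneg_right (by linarith) (sq_nonneg _)
  linarith

/-- The scalar inequality for the coefficient of `X2 * q`. -/
theorem a3p_X {q z γ r w v u Λ L G Ca Ca1 fb kk ph ph1 ε J1 J2 : ℝ} (hq : 0 ≤ q)
    (hz : 0 ≤ z) (hz1 : z ≤ 1) (hγ : 0 ≤ γ) (hr : 0 ≤ r) (hu : 0 ≤ u)
    (hL : 0 ≤ L) (h1 : L ≤ Λ) (h2 : Λ ≤ L + G) (hCa : 0 ≤ Ca) (hCa1 : Ca ≤ Ca1) (hfb : 0 ≤ fb)
    (hkk : 0 ≤ kk) (hph : 0 ≤ ph) (hph1 : ph ≤ ph1) (hε : 0 ≤ ε) (hJ1 : 0 ≤ J1) (hJ2 : 0 ≤ J2)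
    (ha : (r - γ) * (1 - 2 * z) ≤ 0) (hb : v ≤ (1 - q / 2) * γ) (hc : w ≤ J1)
    (hd : r ≤ γ + J2) (he : u ≤ z * γ) :
    Λ * (1 - 2 * z) * r + Ca * w + 3 * (Ca + fb) * v + 3 * (1 - q) * kk * z * r + 3 * ph * z * r
        + 6 * ε * (1 - q) * u
      ≤ γ * (L * (1 - 2 * z) + G * (1 - z) ^ 2 + 3 * (1 - q / 2) * (Ca + fb) + 3 * kk * z
          + 3 * ph * z + 6 * ε * z) + Ca1 * J1 + 3 * (kk + ph1) * J2 := by
  have x1 : Λ * ((r - γ) * (1 - 2 * z)) ≤ 0 := mul_nonpos_of_nonneg_of_nonpos (hL.trans h1) ha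
  have x1' : γ * (Λ * (1 - 2 * z)) ≤ γ * (L * (1 - 2 * z) + G * (1 - z) ^ 2) :=
    mul_le_mul_of_nonneg_left (a3p_sign h1 h2) hγ
  have x2 : Ca * w ≤ Ca1 * J1 :=
    (mul_le_mul_of_nonneg_left hc hCa).trans (mul_le_mul_of_nonneg_right hCa1 hJ1)
  have x3 : (Ca + fb) * v ≤ (Ca + fb) * ((1 - q / 2) * γ) :=
    mul_le_mul_of_nonneg_left hb (add_nonneg hCa hfb)
  have y0 : z * r ≤ z * (γ + J2) := mul_le_mul_of_nonneg_left hd hz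
  have y1 : z * J2 ≤ 1 * J2 := mul_le_mul_of_nonneg_right hz1 hJ2
  have y2 : z * r ≤ z * γ + J2 := by linarith
  have x4 : kk * (z * r) ≤ kk * (z * γ + J2) := mul_le_mul_of_nonneg_left y2 hkk
  have x4' : 0 ≤ q * (kk * (z * r)) := by positivity
  have x5 : ph * (z * r) ≤ ph * (z * γ + J2) := mul_le_mul_of_nonneg_left y2 hph
  have x5' : ph * J2 ≤ ph1 * J2 := mul_le_mul_of_nonneg_right hph1 hJ2
  have x6 : ε * u ≤ ε * (z * γ) := mul_le_mul_of_nonneg_left he hε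
  have x6' : 0 ≤ q * (ε * u) := by positivity
  linarith only [x1, x1', x2, x3, x4, x4', x5, x5', x6, x6']

/-- The scalar inequality for the coefficient of `q1`. -/
theorem a3p_Y {q z γ r R w v u k Λ H H1 G GH GH1 Ca Ca1 fb ph ε ε1 J1 J2 J3 : ℝ} (hq : 0 ≤ q)
    (hq1 : q ≤ 1) (hz : 0 ≤ z) (hz1 : z ≤ 1) (hγ : 0 ≤ γ) (hr : 0 ≤ r) (hR0 : 0 ≤ R)
    (hw : 0 ≤ w) (hu : 0 ≤ u)
    (hH : 0 ≤ H) (h2 : Λ ≤ H) (hH1 : H ≤ H1) (hG : G ≤ GH) (hGH : 0 ≤ GH) (hGH1 : GH ≤ GH1)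
    (hCa : 0 ≤ Ca) (hCa1 : Ca ≤ Ca1) (hfb : 0 ≤ fb) (hph : 0 ≤ ph) (hε : 0 ≤ ε) (hε1 : ε ≤ ε1)
    (hJ1 : 0 ≤ J1) (hJ2 : 0 ≤ J2) (hJ3 : 0 ≤ J3)
    (hb : v ≤ (1 - q / 2) * γ) (hc : w ≤ J1) (hd : r ≤ γ + J2) (hf : u ≤ J1)
    (hg : R ≤ γ * (1 - z) + 3 / 2 * q * γ * (2 * z - 1) + 5 / 11 * q ^ 2 * (γ * (1 - z))
      + q * z * J3)
    (hh : k ≤ γ * (1 - z) + q * γ * (2 * z - 1) / 2) :
    Λ * z * r + G * R + Ca * (1 - q) * v + 3 * (1 - q) * (Ca + fb) * w + 3 * q * ph * k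
        + 6 * ε * (1 - q) * u
      ≤ γ * (H * z + GH * ((1 - z) + 3 / 2 * q * (2 * z - 1) + 5 / 11 * q ^ 2 * (1 - z))
          + (1 - 3 / 2 * q + q ^ 2 / 2) * Ca + 3 * q * ph * ((1 - z) + q * z / 2))
        + (3 * (Ca1 + fb) + 6 * ε1) * J1 + H1 * J2 + q * GH1 * J3 := by
  have y0 : z * r ≤ z * (γ + J2) := mul_le_mul_of_nonneg_left hd hz
  have y1 : z * J2 ≤ 1 * J2 := mul_le_mul_of_nonneg_right hz1 hJ2
  have y2 : z * r ≤ z * γ + J2 := by linarith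
  have x1 : Λ * (z * r) ≤ H * (z * r) := mul_le_mul_of_nonneg_right h2 (mul_nonneg hz hr)
  have x1' : H * (z * r) ≤ H * (z * γ + J2) := mul_le_mul_of_nonneg_left y2 hH
  have x1'' : H * J2 ≤ H1 * J2 := mul_le_mul_of_nonneg_right hH1 hJ2
  have x2 : G * R ≤ GH * R := mul_le_mul_of_nonneg_right hG hR0
  have x2' := mul_le_mul_of_nonneg_left hg hGH
  have y3 : GH * z ≤ GH1 := (mul_le_mul_of_nonneg_left hz1 hGH).trans (by linarith)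
  have x2'' : GH * z * (q * J3) ≤ GH1 * (q * J3) :=
    mul_le_mul_of_nonneg_right y3 (mul_nonneg hq hJ3)
  have x3 : Ca * (1 - q) * v ≤ Ca * (1 - q) * ((1 - q / 2) * γ) :=
    mul_le_mul_of_nonneg_left hb (mul_nonneg hCa (by linarith))
  have x4 : (Ca + fb) * w ≤ (Ca1 + fb) * J1 :=
    (mul_le_mul_of_nonneg_left hc (add_nonneg hCa hfb)).trans
      (mul_le_mul_of_nonneg_right (by linarith) hJ1)
  have x4' : 0 ≤ q * ((Ca + fb) * w) := by positivity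
  have x5 := mul_le_mul_of_nonneg_left hh (mul_nonneg hq hph)
  have x5' : 0 ≤ q * ph * (q * γ * (1 - z)) :=
    mul_nonneg (mul_nonneg hq hph) (mul_nonneg (mul_nonneg hq hγ) (by linarith))
  have x6 : ε * u ≤ ε1 * J1 :=
    (mul_le_mul_of_nonneg_left hf hε).trans (mul_le_mul_of_nonneg_right hε1 hJ1)
  have x6' : 0 ≤ q * (ε * u) := by positivity
  linarith only [x1, x1', x1'', x2, x2', x2'', x3, x4, x4', x5, x5', x6, x6']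

theorem a3p_cube {co si : ℝ} (h : co ^ 2 + si ^ 2 = 1) : |co| ^ 3 = |co| * (1 - si ^ 2) := by
  have h1 : |co| ^ 2 = 1 - si ^ 2 := by rw [sq_abs]; linarith
  rw [← h1]; ring

theorem a3_model {F : Fr} (hF : F.Ok) (hq : F.q ≤ 3 / 100) {co si s t1 t2 φ : ℝ} {m : Mo}
    (h : co ^ 2 + si ^ 2 = 1) (hs0 : 0 ≤ s) (hs1 : s ≤ 1) (hX : F.X2 = (1 - s) * (1 - F.q1))
    (hs : F.s ^ 2 = s * (1 - F.q1)) (B : T3.Box ((1 - s) * si ^ 2) s m t1 t2 φ)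
    (hφ : φ = (1 - (1 - s) * si ^ 2) * m.Wr + (1 - s) * m.Be + (3 : ℕ) * m.Bl
      - 2 * ((1 - s) * si ^ 2) * (s * t1)) (ε4 x x' : ℝ) :
    Real.sqrt (F.gb co si) ^ 3 * (ModelE 3 F m ⟨T3.Ca s (si ^ 2), T3.Cz s (si ^ 2), T3.fb s, T3.kk s,
        T3.ph s (si ^ 2), T3.pz s (si ^ 2)⟩
        (auxA 3 F co si s t1 t2 (T3.ep3 ((1 - s) * si ^ 2) s) ε4 x x') co si - (1 - F.q1) * φ)
      ≤ F.X2 * F.q * T3.BX s F.q co si + F.q1 * T3.BY s F.q co si := by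
  rw [modelE_sub (by norm_num) hF h hX hs hφ]
  have hg := hF.gb_pos h
  have hq0 := hF.q_pos
  have hqh := hF.q_le
  obtain ⟨r, hr, hrg, hsq⟩ : ∃ r : ℝ, 0 < r ∧ F.gb co si = r ^ 2 ∧ Real.sqrt (F.gb co si) = r :=
    ⟨_, Real.sqrt_pos.2 hg, (Real.sq_sqrt hg.le).symm, rfl⟩
  have h2 : r ^ 2 = (1 - F.q) * co ^ 2 + F.q * si ^ 2 := hrg.symm
  have hka : F.ka co si = (2 * F.q - 1) * (si * co) / r ^ 2 := by rw [← hrg]; rfl
  have hz : 0 ≤ si ^ 2 := sq_nonneg si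
  have hz1 : si ^ 2 ≤ 1 := by linarith [sq_nonneg co]
  have hc : co ^ 2 = 1 - si ^ 2 := by linarith
  have hs' : 0 ≤ 1 - s := by linarith
  have hP : 0 ≤ (1 - s) * si ^ 2 := mul_nonneg hs' hz
  have hP1 : (1 - s) * si ^ 2 ≤ 1 - s := by
    have := mul_le_mul_of_nonneg_left hz1 hs'
    linarith
  have ha := rb_a hq0.le h hr.le h2
  have hb := rb_b hq0 hqh h hr h2
  have hcc := rb_c hq0 hq h hr h2
  have hd := rb_d hq0 hq h hr h2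
  have he := rb_e hq0 hqh h hr h2
  have hf := rb_f hq0 hq h hr h2
  have hgg := rb_g hq0 hq h hr h2
  have hh := rb_h h h2
  rw [← hka] at he hf
  have hcz : co ^ 2 - si ^ 2 = 1 - 2 * si ^ 2 := by linarith
  have hzc : si ^ 2 - co ^ 2 = 2 * si ^ 2 - 1 := by linarith
  rw [hcz] at ha
  rw [a3p_cube h, hzc] at hgg hh
  have l1 : T3.LamL ((1 - s) * si ^ 2) s ≤ 3 * m.Bl + s * t2 := by
    have := mul_le_mul_of_nonneg_left B.e2_lo hs0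
    unfold T3.LamL
    linarith [B.Bl_lo]
  have l2 : 3 * m.Bl + s * t2 ≤ T3.LamL ((1 - s) * si ^ 2) s + T3.LamG ((1 - s) * si ^ 2) s := by
    have := mul_le_mul_of_nonneg_left B.e2_hi hs0
    unfold T3.LamL T3.LamG
    linarith [B.Bl_hi]
  have l3 : si ^ 2 * m.Wr + m.Be + si ^ 2 * (s * t1) ≤ T3.G1H s (si ^ 2) := by
    have a1 := mul_le_mul_of_nonneg_left (mul_le_mul_of_nonneg_left B.e1_hi hs0) hz
    have a2 := mul_le_mul_of_nonneg_left B.Wr_hi hz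
    unfold T3.G1H
    linarith [B.Be_hi]
  have hL := T3.a3p_LamL_nonneg hP hs0
  have hG := T3.a3p_LamG_nonneg hP hs0
  have hCa := T3.a3p_Ca_nonneg hs0 hs1 hz
  have hCa1 := T3.a3p_Ca_le hs0 hs1 hz hz1
  have hfb := T3.a3p_fb_nonneg hs0 hs1
  have hph := T3.a3p_ph_nonneg hs0 hs1 hz
  have hε := T3.a3p_ep3_nonneg hP hs0
  have hJ := fun β => Jf_nonneg hq0.le β co si
  have kX := a3p_X hq0.le hz hz1 (abs_nonneg co) hr.le (by positivity) hL l1 l2 hCa hCa1 hfb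
    (T3.a3p_kk_nonneg s) hph (T3.a3p_ph_le hs0 hs1 hz1) hε (hJ _) (hJ _) ha hb hcc hd he
  have kY := a3p_Y hq0.le (by linarith) hz hz1 (abs_nonneg co) hr.le (by positivity)
    (by positivity) (by positivity) (add_nonneg hL hG) l2 (T3.a3p_LamH_mono hP hs0 hP1) l3
    (T3.a3p_G1H_nonneg hs0 hs1 hz) (T3.a3p_G1H_le hs0 hs1 hz hz1) hCa hCa1 hfb hph hε
    (T3.a3p_ep3_mono hP hs0 hP1) (hJ _) (hJ _) (hJ _) hb hcc hd hf hgg hh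
  have fX := mul_le_mul_of_nonneg_left kX (mul_nonneg hF.X2_nonneg hq0.le)
  have fY := mul_le_mul_of_nonneg_left kY hF.q1_nonneg
  refine le_trans (le_of_eq ?_) (add_le_add fX fY)
  rw [hsq, hrg, hcz]
  unfold Fr.dl
  have hr' := hr.ne'
  push_cast
  field_simp
  ring

theorem a3_phi {F : Fr} (hF : F.Ok) (hq : F.q ≤ 3 / 100) {co si s t1 t2 φ : ℝ} {m : Mo}
    (h : co ^ 2 + si ^ 2 = 1) (hs0 : 0 ≤ s) (hs1 : s ≤ 1)
    (B : T3.Box ((1 - s) * si ^ 2) s m t1 t2 φ) :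
    (Real.sqrt (F.gb co si) ^ 3 - |co| ^ 3) * φ ≤ F.q * T3.BF s F.q co si := by
  have hg := hF.gb_pos h
  have hq0 := hF.q_pos
  obtain ⟨r, hr, hrg, hsq⟩ : ∃ r : ℝ, 0 < r ∧ F.gb co si = r ^ 2 ∧ Real.sqrt (F.gb co si) = r :=
    ⟨_, Real.sqrt_pos.2 hg, (Real.sq_sqrt hg.le).symm, rfl⟩
  have h2 : r ^ 2 = (1 - F.q) * co ^ 2 + F.q * si ^ 2 := hrg.symm
  have hz : 0 ≤ si ^ 2 := sq_nonneg si
  have hz1 : si ^ 2 ≤ 1 := by linarith [sq_nonneg co]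
  have hs' : 0 ≤ 1 - s := by linarith
  have hP : 0 ≤ (1 - s) * si ^ 2 := mul_nonneg hs' hz
  have hgg := rb_g hq0 hq h hr h2
  have hzc : si ^ 2 - co ^ 2 = 2 * si ^ 2 - 1 := by linarith
  rw [hsq, a3p_cube h]
  rw [a3p_cube h, hzc] at hgg
  have hJ := Jf_nonneg hq0.le (49 / 10) co si
  have hγ := abs_nonneg co
  have φ0 : 0 ≤ φ := (T3.a3p_phL_nonneg hs0 hs1 hz hz1).trans B.ph_lo
  have φ1 : φ ≤ 1 := B.ph_hi.trans (T3.a3p_phH_le hP hs0)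
  have a1 : si ^ 2 * φ ≤ T3.phH (1 - s) s :=
    (mul_le_mul_of_nonneg_left B.ph_hi hz).trans (T3.a3p_zphH hs0 hs1 hz hz1)
  have a2 := a3p_sign (L := -T3.phH ((1 - s) * si ^ 2) s) (G := T3.phG ((1 - s) * si ^ 2) s)
    (Λ := -φ) (z := si ^ 2) (by linarith [B.ph_hi]) (by linarith [B.ph_lo])
  unfold T3.BF T3.PF
  generalize T3.phH ((1 - s) * si ^ 2) s = A at a2
  generalize T3.phG ((1 - s) * si ^ 2) s = G at a2
  generalize T3.phH (1 - s) s = A1 at a1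
  generalize Jf F.q (49 / 10) co si = J at hJ hgg
  generalize |co| = γ at hγ hgg
  generalize si ^ 2 = z at hz hz1 hgg a1 a2
  generalize F.q = q at hq0 hgg
  have b1 := mul_le_mul_of_nonneg_right hgg φ0
  have b2 := mul_le_mul_of_nonneg_left a2 (mul_nonneg hq0.le hγ)
  have b3 := mul_le_mul_of_nonneg_left a1 (mul_nonneg hq0.le hJ)
  have b4 := mul_le_mul_of_nonneg_left φ1
    (mul_nonneg (mul_nonneg (sq_nonneg q) hγ) (sub_nonneg.2 hz1))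
  linarith only [b1, b2, b3, b4]

end Pool.Agent.Ped
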