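import Pool.Agent.P.MP_e09f5c_gt.Glue

/-! Explicit polynomials for `n = 3`. -/

namespace Pool.Agent.Ped

/-- The elementary singular term. -/
noncomputable def Jf (q β co si : ℝ) : ℝ := q * |si| / Real.sqrt (q + β * co ^ 2)

namespace T3

noncomputable def WrL (P s : ℝ) : ℝ :=
  5 / 9 + 35 / 198 * P + 5 / 198 * s + 35 / 572 * P * s + 105 / 1144 * P ^ 2
    + 5 / 1144 * s ^ 2
noncomputable def WrG (P s : ℝ) : ℝ :=
  2693 / 50000 * P * s ^ 2 + 136 / 625 * P ^ 2 * s + 24969 / 100000 * P ^ 3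
    + 41 / 20000 * s ^ 3
noncomputable def BeL (P s : ℝ) : ℝ :=
  1 / 9 + 5 / 198 * P + 1 / 66 * s + 15 / 572 * P * s + 35 / 3432 * P ^ 2 + 5 / 1144 * s ^ 2
noncomputable def BeG (P s : ℝ) : ℝ :=
  6037 / 100000 * P * s ^ 2 + 7759 / 50000 * P ^ 2 * s + 1451 / 100000 * P ^ 3
    + 9 / 2500 * s ^ 3
noncomputable def BlL (P s : ℝ) : ℝ :=
  1 / 9 + 5 / 198 * P + 1 / 198 * s + 5 / 572 * P * s + 35 / 3432 * P ^ 2 + 1 / 1144 * s ^ 2
noncomputable def BlG (P s : ℝ) : ℝ :=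
  759 / 100000 * P * s ^ 2 + 2169 / 100000 * P ^ 2 * s + 1451 / 100000 * P ^ 3
    + 41 / 100000 * s ^ 3
noncomputable def mupL (P s : ℝ) : ℝ :=
  5 / 27 + 5 / 198 * P + 5 / 594 * s + 5 / 572 * P * s + 25 / 3432 * P ^ 2 + 5 / 3432 * s ^ 2
noncomputable def mupG (P s : ℝ) : ℝ :=
  147 / 20000 * P * s ^ 2 + 253 / 20000 * P ^ 2 * s + 599 / 100000 * P ^ 3
    + 69 / 100000 * s ^ 3
noncomputable def m22L (P s : ℝ) : ℝ :=
  1 / 27 + 1 / 198 * P + 1 / 198 * s + 3 / 572 * P * s + 5 / 3432 * P ^ 2 + 5 / 3432 * s ^ 2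
noncomputable def m22G (P s : ℝ) : ℝ :=
  1133 / 100000 * P * s ^ 2 + 1133 / 100000 * P ^ 2 * s + 3 / 2500 * P ^ 3 + 3 / 2500 * s ^ 3
noncomputable def m40L (P s : ℝ) : ℝ :=
  1 / 9 + 1 / 66 * P + 5 / 198 * s + 15 / 572 * P * s + 5 / 1144 * P ^ 2 + 35 / 3432 * s ^ 2
noncomputable def m40G (P s : ℝ) : ℝ :=
  7759 / 50000 * P * s ^ 2 + 6037 / 100000 * P ^ 2 * s + 9 / 2500 * P ^ 3
    + 1451 / 100000 * s ^ 3
noncomputable def e1L (P s : ℝ) : ℝ :=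
  5 / 99 + 35 / 858 * P + 5 / 286 * s
noncomputable def e1G (P s : ℝ) : ℝ :=
  10917 / 100000 * P * s + 3543 / 20000 * P ^ 2 + 1591 / 100000 * s ^ 2
noncomputable def e2L (P s : ℝ) : ℝ :=
  1 / 33 + 5 / 286 * P + 3 / 286 * s
noncomputable def e2G (P s : ℝ) : ℝ :=
  4229 / 100000 * P * s + 131 / 4000 * P ^ 2 + 191 / 20000 * s ^ 2
noncomputable def phH (P s : ℝ) : ℝ :=
  1 - (5 / 9 * P + 1 / 9 * s) / 2 - (35 / 99 * P ^ 2 + 6 * (5 / 99) * P * s + 1 / 33 * s ^ 2) / 8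
noncomputable def phG (P s : ℝ) : ℝ :=
  3 / 8 * (35 / 143 * P ^ 3 + 15 * (35 / 1287) * P ^ 2 * s + 15 * (5 / 429) * P * s ^ 2
    + 5 / 429 * s ^ 3)

/-- Two sided bounds for the moments. -/
structure Box (P s : ℝ) (m : Mo) (t1 t2 φ : ℝ) : Prop where
  Wr_lo : WrL P s ≤ m.Wr
  Wr_hi : m.Wr ≤ WrL P s + WrG P s
  Be_lo : BeL P s ≤ m.Be
  Be_hi : m.Be ≤ BeL P s + BeG P s
  Bl_lo : BlL P s ≤ m.Bl
  Bl_hi : m.Bl ≤ BlL P s + BlG P s
  mup_lo : mupL P s ≤ m.mup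
  mup_hi : m.mup ≤ mupL P s + mupG P s
  m22_lo : m22L P s ≤ m.m22
  m22_hi : m.m22 ≤ m22L P s + m22G P s
  m40_lo : m40L P s ≤ m.m40
  m40_hi : m.m40 ≤ m40L P s + m40G P s
  e1_lo : e1L P s ≤ t1
  e1_hi : t1 ≤ e1L P s + e1G P s
  e2_lo : e2L P s ≤ t2
  e2_hi : t2 ≤ e2L P s + e2G P s
  ph_lo : phH P s - phG P s ≤ φ
  ph_hi : φ ≤ phH P s

noncomputable def Ca (s z : ℝ) : ℝ :=
  1117 / 5000 + 2 / 625 * s ^ 3 + (1 - s ^ 2) * (51 / 1000 * z + 7 / 100 * z ^ 2)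
noncomputable def Cz (s z : ℝ) : ℝ := (1 - s ^ 2) * (51 / 1000 + 7 / 50 * z)
noncomputable def fb (s : ℝ) : ℝ := s * (7 / 200 + s * (19 / 100 - s / 10)) + 1 / 1000
noncomputable def kk (s : ℝ) : ℝ := 7 / 10 * s ^ 2
noncomputable def ph (s z : ℝ) : ℝ := 2 * s * (81 / 1000 + 27 / 500 * s + 34 / 125 * (1 - s) * z)
noncomputable def pz (s _z : ℝ) : ℝ := 2 * s * (34 / 125 * (1 - s))
noncomputable def ep3 (P s : ℝ) : ℝ := 5 / 429 * P * s + BeG P s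
noncomputable def ep4 (P : ℝ) : ℝ := 1451 / 100000 * P ^ 3
noncomputable def LamL (P s : ℝ) : ℝ := 3 * BlL P s + s * e2L P s
noncomputable def LamG (P s : ℝ) : ℝ := 3 * BlG P s + s * e2G P s
noncomputable def G1H (s z : ℝ) : ℝ := BeL ((1 - s) * z) s + BeG ((1 - s) * z) s
  + z * (WrL ((1 - s) * z) s + WrG ((1 - s) * z) s
    + s * (e1L ((1 - s) * z) s + e1G ((1 - s) * z) s))

/-- Polynomial part of the bound for the coefficient of `X2 * q`. -/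
noncomputable def PX (s q z : ℝ) : ℝ :=
  LamL ((1 - s) * z) s * (1 - 2 * z) + LamG ((1 - s) * z) s * (1 - z) ^ 2
    + 3 * (1 - q / 2) * (Ca s z + fb s) + 3 * kk s * z + 3 * ph s z * z
    + 6 * ep3 ((1 - s) * z) s * z

/-- Polynomial part of the bound for the coefficient of `q1`. -/
noncomputable def PY (s q z : ℝ) : ℝ :=
  (LamL ((1 - s) * z) s + LamG ((1 - s) * z) s) * z
    + G1H s z * ((1 - z) + 3 / 2 * q * (2 * z - 1) + 5 / 11 * q ^ 2 * (1 - z))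
    + (1 - 3 / 2 * q + q ^ 2 / 2) * Ca s z + 3 * q * ph s z * ((1 - z) + q * z / 2)

/-- Polynomial part of the bound for the main term. -/
noncomputable def PF (s q z : ℝ) : ℝ :=
  3 / 2 * ((2 * z - 1) * phH ((1 - s) * z) s + (1 - z) ^ 2 * phG ((1 - s) * z) s)
    + 5 / 11 * q * (1 - z)

noncomputable def BX (s q co si : ℝ) : ℝ :=
  |co| * PX s q (si ^ 2) + Ca s 1 * Jf q (47 / 50) co si
    + 3 * (kk s + ph s 1) * Jf q (77 / 20) co si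

noncomputable def BY (s q co si : ℝ) : ℝ :=
  |co| * PY s q (si ^ 2) + (3 * (Ca s 1 + fb s) + 6 * ep3 (1 - s) s) * Jf q (47 / 50) co si
    + (LamL (1 - s) s + LamG (1 - s) s) * Jf q (77 / 20) co si
    + q * G1H s 1 * Jf q (49 / 10) co si

noncomputable def BF (s q co si : ℝ) : ℝ :=
  |co| * PF s q (si ^ 2) + phH (1 - s) s * Jf q (49 / 10) co si

end T3

end Pool.Agent.Ped
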