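import Pool.Agent.P.MP_e09f5c_gt.A3Poly
import Pool.Agent.P.MP_e09f5c_gt.A3Defs

/-! The conditions at one angle for `n = 3`. -/

namespace Pool.Agent.Ped

namespace T3

noncomputable def s3Al (s z : ℝ) : ℝ := BlL ((1 - s) * z) s + s * e2L ((1 - s) * z) s / 3
noncomputable def s3e2H (s z : ℝ) : ℝ := e2L ((1 - s) * z) s + e2G ((1 - s) * z) s
noncomputable def s3tH (s z : ℝ) : ℝ :=
  e1L ((1 - s) * z) s + e1G ((1 - s) * z) s + s3e2H s z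
noncomputable def s3m22 (s z : ℝ) : ℝ := m22L ((1 - s) * z) s + m22G ((1 - s) * z) s
noncomputable def s3ig (z : ℝ) : ℝ := 1 + (1 - 3 / 100) * z + ((1 - 3 / 100) * z) ^ 2
noncomputable def s3a1 (s z : ℝ) : ℝ :=
  WrL ((1 - s) * z) s - s * s3e2H s z - 5 * Ca s z - 2 * z * Cz s z - 4 * fb s
    + (1 - z) * (s3Al s z + Ca s z + fb s)
    + z * ((s3Al s z + Ca s z + fb s) / 3 - (1 + 1 / 4) * fb s) * s3ig z
    + BeL ((1 - s) * z) s + Ca s z + s * (e1L ((1 - s) * z) s + e2L ((1 - s) * z) s) - ph s z * z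
noncomputable def s3a2 (s z : ℝ) : ℝ :=
  BeL ((1 - s) * z) s + Ca s z - fb s * 4
    + ph s z * (z - 5 * (1 - z) + ((1 - z) + z * s3ig z / 3) * (1 - z)) - 2 * z * (1 - z) * pz s z
noncomputable def s3a3 (s z : ℝ) : ℝ := WrL ((1 - s) * z) s + 3 * BlL ((1 - s) * z) s
noncomputable def s3a4 (s z : ℝ) : ℝ :=
  s * s3tH s z * (1 + z) - s * e2L ((1 - s) * z) s * z
    + kk s * ((4 - (1 - z)) * z * (1 - z + 3 / 100) + z * z * (2 / 3) + 2 * z * (1 - z))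
noncomputable def s3W (s z g : ℝ) : ℝ :=
  g * (WrL ((1 - s) * z) s - s * s3e2H s z - 5 * Ca s z + 2 * (1 - z) * (s3Al s z + Ca s z))
    - 2 * z * (1 - z) * Cz s z + z * (4 / 3) * (s3Al s z + Ca s z)

section Poly

variable {z s : ℝ}

theorem s3_he3 : BeL ((1 - s) * z) s + BeG ((1 - s) * z) s - s3Al s z = ep3 ((1 - s) * z) s := by
  unfold s3Al ep3 BeL BlL e2L
  ring

variable (h1 : 0 ≤ z) (h2 : z ≤ 1) (h3 : 0 ≤ s) (h4 : s ≤ 1)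

include h1 h2 h3 h4

theorem s3_he4 : 0 ≤ ep4 ((1 - s) * z)
    - (BlL ((1 - s) * z) s + BlG ((1 - s) * z) s - BeL ((1 - s) * z) s) :=
  (a3s_he4 h1 h2 h3 h4).trans_eq (by unfold ep4 BlL BlG BeL; ring)

theorem s3_Ca1 : 0 ≤ Ca s z - (mupL ((1 - s) * z) s + mupG ((1 - s) * z) s
    + (1 - s / 2) * s3m22 s z + ep4 ((1 - s) * z) + 2 * ep3 ((1 - s) * z) s) :=
  (a3s_Ca1 h1 h2 h3 h4).trans_eq (by unfold Ca s3m22 ep4 ep3 mupL mupG m22L m22G BeG; ring)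

theorem s3_Ca2 : 0 ≤ Ca s z - (9 / 2 * s3m22 s z + 2 * ep3 ((1 - s) * z) s) :=
  (a3s_Ca2 h1 h2 h3 h4).trans_eq (by unfold Ca s3m22 ep3 m22L m22G BeG; ring)

theorem s3_Cb1 : 0 ≤ (Ca s z + fb s - (m40L ((1 - s) * z) s + m40G ((1 - s) * z) s
    + 2 * s3m22 s z + ep3 ((1 - s) * z) s)) * (1 - s / 2) - s3m22 s z :=
  (a3s_Cb1 h1 h2 h3 h4).trans_eq (by unfold Ca fb s3m22 ep3 m40L m40G m22L m22G BeG; ring)

theorem s3_Cb2 : 0 ≤ Ca s z + fb s - (mupL ((1 - s) * z) s + mupG ((1 - s) * z) s) - s3m22 s z :=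
  (a3s_Cb2 h1 h2 h3 h4).trans_eq (by unfold Ca fb s3m22 mupL mupG m22L m22G; ring)

theorem s3_Cb3 : 0 ≤ Ca s z + fb s - 3 * s3m22 s z :=
  (a3s_Cb3 h1 h2 h3 h4).trans_eq (by unfold Ca fb s3m22 m22L m22G; ring)

theorem s3_hph : 0 ≤ ph s z - 2 * s * s3tH s z :=
  (a3s_hph h1 h2 h3 h4).trans_eq (by unfold ph s3tH s3e2H e1L e1G e2L e2G; ring)

theorem s3_W0 : 0 ≤ 7 / 10 * s3W s z (1 - z) - s3tH s z * s3tH s z :=
  (a3s_W0 h1 h2 h3 h4).trans_eq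
    (by unfold s3W s3tH s3Al s3e2H Ca Cz WrL BlL e1L e1G e2L e2G; ring)

theorem s3_W1 : 0 ≤ 7 / 10 * s3W s z (1 - z + 3 / 100 * (2 * z - 1)) - s3tH s z * s3tH s z :=
  (a3s_W1 h1 h2 h3 h4).trans_eq
    (by unfold s3W s3tH s3Al s3e2H Ca Cz WrL BlL e1L e1G e2L e2G; ring)

theorem s3_H : 0 ≤ (s3Al s z + Ca s z + fb s) / 3 - (1 + 1 / 4) * fb s :=
  (a3s_H h1 h2 h3 h4).trans_eq (by unfold s3Al Ca fb BlL e2L; ring)

theorem s3_K1 : 0 ≤ (1 - s) * ((1 - z) * s3a1 s z + z * s3a2 s z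
    - z * (1 - z) * (s3a2 s z - s3a1 s z) / 2 - s3a4 s z) + s * s3a3 s z :=
  (a3s_K1 h1 h2 h3 h4).trans_eq (by
    unfold s3a1 s3a2 s3a3 s3a4 s3tH s3Al s3e2H s3ig Ca Cz fb kk ph pz WrL BlL BeL e1L e1G e2L e2G
    ring)

theorem s3_K2 : 0 ≤ (1 - s) * ((1 - z) * s3a1 s z + z * s3a2 s z
    + z * (1 - z) * (s3a2 s z - s3a1 s z) / 2 - s3a4 s z) + s * s3a3 s z :=
  (a3s_K2 h1 h2 h3 h4).trans_eq (by
    unfold s3a1 s3a2 s3a3 s3a4 s3tH s3Al s3e2H s3ig Ca Cz fb kk ph pz WrL BlL BeL e1L e1G e2L e2G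
    ring)

theorem s3_K3 : 0 ≤ 19 * ((1 - s) * ((1 - z) * s3a1 s z + z * s3a2 s z
    - z * (1 - z) * (s3a2 s z - s3a1 s z) / 2 - s3a4 s z) + s * s3a3 s z)
    + (z * s3a1 s z + (1 - z) * s3a2 s z - 2 * (s3a2 s z - s3a1 s z)) :=
  (a3s_K3 h1 h2 h3 h4).trans_eq (by
    unfold s3a1 s3a2 s3a3 s3a4 s3tH s3Al s3e2H s3ig Ca Cz fb kk ph pz WrL BlL BeL e1L e1G e2L e2G
    ring)

theorem s3_K4 : 0 ≤ 19 * ((1 - s) * ((1 - z) * s3a1 s z + z * s3a2 s z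
    + z * (1 - z) * (s3a2 s z - s3a1 s z) / 2 - s3a4 s z) + s * s3a3 s z)
    + (z * s3a1 s z + (1 - z) * s3a2 s z + 2 * (s3a2 s z - s3a1 s z)) :=
  (a3s_K4 h1 h2 h3 h4).trans_eq (by
    unfold s3a1 s3a2 s3a3 s3a4 s3tH s3Al s3e2H s3ig Ca Cz fb kk ph pz WrL BlL BeL e1L e1G e2L e2G
    ring)

end Poly

theorem s3_Wq {s z t1 t2 φ g : ℝ} {m : Mo} (hs0 : 0 ≤ s) (hz0 : 0 ≤ z) (hz1 : z ≤ 1)
    (B : Box ((1 - s) * z) s m t1 t2 φ) (hg : 0 ≤ g) :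
    s3W s z g ≤ Wq 3 s z m ⟨Ca s z, Cz s z, fb s, kk s, ph s z, pz s z⟩ t2 g := by
  have a1 : 0 ≤ s * (t2 - e2L ((1 - s) * z) s) := mul_nonneg hs0 (sub_nonneg.2 B.e2_lo)
  have hAl : 0 ≤ m.Bl + s * t2 / 3 - s3Al s z := by
    unfold s3Al
    linarith only [a1, B.Bl_lo]
  have a2 : 0 ≤ s * (s3e2H s z - t2) := mul_nonneg hs0 (sub_nonneg.2 B.e2_hi)
  have a3 := mul_nonneg (sub_nonneg.2 hz1) hAl
  have a4 : 0 ≤ (m.Wr - WrL ((1 - s) * z) s) + s * (s3e2H s z - t2)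
      + 2 * ((1 - z) * (m.Bl + s * t2 / 3 - s3Al s z)) := by linarith only [a2, a3, B.Wr_lo]
  have a5 := mul_nonneg hg a4
  have a6 := mul_nonneg hz0 hAl
  unfold s3W Wq
  simp only [Nat.cast_ofNat]
  linarith only [a5, a6]

theorem s3_hW {s t1 t2 T W W' : ℝ} (h0 : 0 ≤ t1 + t2) (h1 : t1 + t2 ≤ T)
    (h2 : 0 ≤ 7 / 10 * W - T * T) (h3 : W ≤ W') :
    0 ≤ W' ∧ (s * t1 + s * t2) ^ 2 ≤ kk s * W' := by
  have a1 : (t1 + t2) * (t1 + t2) ≤ T * T := mul_self_le_mul_self h0 h1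
  have a2 : 0 ≤ (t1 + t2) * (t1 + t2) := mul_self_nonneg _
  have a3 : (t1 + t2) * (t1 + t2) ≤ 7 / 10 * W' := by linarith only [a1, h2, h3]
  have a4 := mul_le_mul_of_nonneg_left a3 (sq_nonneg s)
  refine ⟨by linarith only [a2, a3], ?_⟩
  unfold kk
  linarith only [a4]

end T3

open T3 in
theorem sa3 {s z t1 t2 φ : ℝ} {m : Mo} (hs0 : 0 ≤ s) (hs1 : s ≤ 1) (hz0 : 0 ≤ z) (hz1 : z ≤ 1)
    (B : T3.Box ((1 - s) * z) s m t1 t2 φ) : ∃ α1 α2 α3 α4 : ℝ,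
    SA 3 (3 / 100) s z m ⟨T3.Ca s z, T3.Cz s z, T3.fb s, T3.kk s, T3.ph s z, T3.pz s z⟩ t1 t2
      (T3.ep3 ((1 - s) * z) s) (T3.ep4 ((1 - s) * z)) (1 - s / 2) (1 / 2) (1 / 4) α1 α2 α3 α4 := by
  have hP : 0 ≤ (1 - s) * z := mul_nonneg (sub_nonneg.2 hs1) hz0
  have ht1 : 0 ≤ t1 := le_trans (by unfold e1L; positivity) B.e1_lo
  have ht2 : 0 ≤ t2 := le_trans (by unfold e2L; positivity) B.e2_lo
  have hx : 0 < 1 - s / 2 := by linarith only [hs1]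
  have hm : m.m22 ≤ s3m22 s z := B.m22_hi
  have htH : t1 + t2 ≤ s3tH s z := add_le_add B.e1_hi B.e2_hi
  have b1 : 0 ≤ s * (t1 - e1L ((1 - s) * z) s) := mul_nonneg hs0 (sub_nonneg.2 B.e1_lo)
  have b2 : 0 ≤ s * (t2 - e2L ((1 - s) * z) s) := mul_nonneg hs0 (sub_nonneg.2 B.e2_lo)
  have b3 : 0 ≤ s * (s3e2H s z - t2) := mul_nonneg hs0 (sub_nonneg.2 B.e2_hi)
  have b4 : 0 ≤ s * (s3tH s z - (t1 + t2)) := mul_nonneg hs0 (sub_nonneg.2 htH)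
  have hAl : 0 ≤ m.Bl + s * t2 / 3 - s3Al s z := by
    unfold s3Al
    linarith only [b2, B.Bl_lo]
  have hig : 0 ≤ s3ig z := by unfold s3ig; positivity
  have w0 := s3_hW (s := s) (add_nonneg ht1 ht2) htH (s3_W0 hz0 hz1 hs0 hs1)
    (s3_Wq hs0 hz0 hz1 B (sub_nonneg.2 hz1))
  have w1 := s3_hW (s := s) (add_nonneg ht1 ht2) htH (s3_W1 hz0 hz1 hs0 hs1)
    (s3_Wq hs0 hz0 hz1 B (by linarith only [hz1]))
  refine ⟨s3a1 s z, s3a2 s z, s3a3 s z, s3a4 s z,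
    { t1_nonneg := ht1
      t2_nonneg := ht2
      Bl_nonneg := le_trans (by unfold BlL; positivity) B.Bl_lo
      m22_nonneg := le_trans (by unfold m22L; positivity) B.m22_lo
      ε3_nonneg := by unfold ep3 BeG; positivity
      hε3 := ?_
      ε4_nonneg := by unfold ep4; positivity
      hε4 := by linarith only [s3_he4 hz0 hz1 hs0 hs1, B.Bl_hi, B.Be_lo]
      x_pos := hx
      x'_pos := by norm_num
      Ca1 := ?_
      Ca2 := ?_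
      fb_nonneg := ?_
      Cb1 := ?_
      Cb2 := ?_
      Cb3 := ?_
      hph := ?_
      kk_nonneg := ?_
      Cz_nonneg := ?_
      W0 := w0.1
      W1 := w1.1
      hW0 := w0.2
      hW1 := w1.2
      η_pos := by norm_num
      hH := ?_
      h1 := ?_
      h2 := ?_
      h3 := ?_
      h4 := ?_
      K1 := s3_K1 hz0 hz1 hs0 hs1
      K2 := s3_K2 hz0 hz1 hs0 hs1
      K3 := s3_K3 hz0 hz1 hs0 hs1
      K4 := s3_K4 hz0 hz1 hs0 hs1 }⟩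
  · simp only [Nat.cast_ofNat]
    linarith only [s3_he3 (z := z) (s := s), hAl, B.Be_hi]
  · have a := mul_le_mul_of_nonneg_left hm hx.le
    dsimp only
    linarith only [a, s3_Ca1 hz0 hz1 hs0 hs1, B.mup_hi]
  · simp only [Nat.cast_ofNat]
    linarith only [hm, s3_Ca2 hz0 hz1 hs0 hs1]
  · have a : 0 ≤ 19 / 100 - s / 10 := by linarith only [hs1]
    dsimp only
    unfold fb
    positivity
  · have a : m.m22 / (1 - s / 2) ≤ Ca s z + fb s - (m40L ((1 - s) * z) s + m40G ((1 - s) * z) s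
        + 2 * s3m22 s z + ep3 ((1 - s) * z) s) := by
      rw [div_le_iff₀ hx]
      linarith only [hm, s3_Cb1 hz0 hz1 hs0 hs1]
    simp only [Nat.cast_ofNat]
    linarith only [a, hm, B.m40_hi]
  · dsimp only
    linarith only [hm, s3_Cb2 hz0 hz1 hs0 hs1, B.mup_hi]
  · have e : (1 : ℝ) + 1 / (1 / 2) = 3 := by norm_num
    dsimp only
    rw [e]
    linarith only [hm, s3_Cb3 hz0 hz1 hs0 hs1]
  · dsimp only
    linarith only [b4, s3_hph hz0 hz1 hs0 hs1]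
  · dsimp only
    unfold kk
    positivity
  · have a : 0 ≤ 1 - s ^ 2 := sub_nonneg.2 (pow_le_one₀ hs0 hs1)
    dsimp only
    unfold Cz
    positivity
  · simp only [Nat.cast_ofNat]
    linarith only [hAl, s3_H hz0 hz1 hs0 hs1]
  · have a1 := mul_nonneg (sub_nonneg.2 hz1) hAl
    have a2 := mul_nonneg (mul_nonneg hz0 hAl) hig
    unfold s3a1
    unfold s3ig at a2 ⊢
    simp only [Nat.cast_ofNat]
    linarith only [a1, a2, b1, b2, b3, B.Wr_lo, B.Be_lo]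
  · unfold s3a2 s3ig
    simp only [Nat.cast_ofNat]
    linarith only [B.Be_lo]
  · unfold s3a3
    simp only [Nat.cast_ofNat]
    linarith only [B.Wr_lo, B.Bl_lo]
  · have a1 := mul_nonneg b4 (by linarith only [hz0] : 0 ≤ 1 + z)
    have a2 := mul_nonneg b2 hz0
    unfold s3a4
    simp only [Nat.cast_ofNat]
    linarith only [a1, a2]

end Pool.Agent.Ped
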