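import Pool.Agent.P.MP_e09f5c_gt.Polar

/-! Exact moments for `n = 3` and a unit reference direction. -/

open MeasureTheory Metric Set Matrix
open scoped InnerProductSpace ENNReal

namespace Pool.Agent.Ped

/-- The unit of the exact moments. -/
noncomputable def vk : ℝ := 105 * Real.pi / 1536

/-- half line Gaussian moments -/
noncomputable def topR (p : ℕ) : ℝ := ∫ r in Ioi (0 : ℝ), r ^ p * Real.exp (-r ^ 2 / 2)

/-- Gaussian moments -/
noncomputable def topA (p : ℕ) : ℝ := ∫ r : ℝ, r ^ p * Real.exp (-r ^ 2 / 2)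

theorem topR_eq (p : ℕ) : topR p =
    (1 / 2 : ℝ) ^ (-((p : ℝ) + 1) / 2) * (1 / 2) * Real.Gamma (((p : ℝ) + 1) / 2) := by
  rw [← integral_rpow_mul_exp_neg_mul_rpow two_pos
    (by have := Nat.cast_nonneg (α := ℝ) p; linarith) (by norm_num)]
  refine setIntegral_congr_fun measurableSet_Ioi fun x _ => ?_
  simp only [Real.rpow_natCast, Real.rpow_two]
  congr 2
  ring

theorem topR_pos (p : ℕ) : 0 < topR p := by
  rw [topR_eq]
  have : 0 < Real.Gamma (((p : ℝ) + 1) / 2) := Real.Gamma_pos_of_pos (by positivity)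
  positivity

theorem topR_add_two (p : ℕ) : topR (p + 2) = (p + 1) * topR p := by
  rw [topR_eq, topR_eq]
  push_cast
  rw [show ((p : ℝ) + 2 + 1) / 2 = (p + 1) / 2 + 1 by ring, Real.Gamma_add_one (by positivity),
    show -((p : ℝ) + 2 + 1) / 2 = -(p + 1) / 2 - 1 by ring, Real.rpow_sub_one (by norm_num)]
  ring

theorem topR_one : topR 1 = 1 := by
  rw [topR_eq]
  norm_num [Real.rpow_neg_one]

theorem topR_zero_sq : topR 0 ^ 2 = Real.pi / 2 := by
  have h : topR 0 = Real.sqrt (Real.pi / (1 / 2)) / 2 := by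
    rw [← integral_gaussian_Ioi]
    refine setIntegral_congr_fun measurableSet_Ioi fun x _ => ?_
    simp only [pow_zero, one_mul]
    congr 1
    ring
  rw [h, div_pow, Real.sq_sqrt (by positivity)]
  ring

theorem topA_even {p : ℕ} (hp : Even p) : topA p = 2 * topR p := by
  rw [topR, ← integral_comp_abs (f := fun r => r ^ p * Real.exp (-r ^ 2 / 2))]
  simp only [hp.pow_abs, sq_abs, topA]

theorem topA_odd {p : ℕ} (hp : Odd p) : topA p = 0 := by
  have h := integral_neg_eq_self (fun r : ℝ => r ^ p * Real.exp (-r ^ 2 / 2)) volume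
  simp only [hp.neg_pow, neg_sq, neg_mul, integral_neg] at h
  rw [topA]
  linarith

/-- Euclidean space -/
abbrev topV (m : ℕ) := EuclideanSpace ℝ (Fin m)

/-- all coordinates but the first -/
noncomputable def topT {m : ℕ} (Y : topV (m + 1)) : topV m := WithLp.toLp 2 fun j => Y j.succ

theorem top_norm {m : ℕ} (Y : topV (m + 1)) : ‖Y‖ ^ 2 = Y 0 ^ 2 + ‖topT Y‖ ^ 2 := by
  simp [EuclideanSpace.norm_sq_eq, Fin.sum_univ_succ, topT]

theorem top_split {m : ℕ} (f : ℝ → ℝ) (F : topV m → ℝ) :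
    ∫ Y : topV (m + 1), f (Y 0) * F (topT Y) = (∫ x, f x) * ∫ z, F z := by
  rw [← (PiLp.volume_preserving_toLp (Fin (m + 1))).integral_comp
    (MeasurableEquiv.toLp 2 _).measurableEmbedding,
    ← (PiLp.volume_preserving_toLp (Fin m)).integral_comp
    (MeasurableEquiv.toLp 2 _).measurableEmbedding, ← integral_prod_mul,
    ← Measure.volume_eq_prod,
    ← (volume_preserving_piFinSuccAbove (fun _ : Fin (m + 1) => ℝ) 0).integral_comp']
  rfl

theorem top_radial {m p : ℕ} {h : topV (m + 1) → ℝ}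
    (hh : ∀ (r : ℝ) z, 0 < r → h (r • z) = r ^ p * h z) (g : ℝ → ℝ) :
    ∫ z, h z * g ‖z‖ = (∫ θ, h θ ∂(volume : Measure (topV (m + 1))).toSphere) *
      ∫ r in Ioi (0 : ℝ), r ^ (m + p) * g r := by
  have e := (volume : Measure (topV (m + 1))).measurePreserving_homeomorphUnitSphereProd.integral_comp
    (Homeomorph.measurableEmbedding _) (fun x => h x.1 * ((x.2 : ℝ) ^ p * g x.2))
  rw [integral_prod_mul (fun θ : sphere (0 : topV (m + 1)) 1 => h θ)
    (fun r : Ioi (0 : ℝ) => (r : ℝ) ^ p * g r)] at e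
  conv_lhs => rw [← restrict_compl_singleton (μ := volume) 0,
    ← integral_subtype_comap (measurableSet_singleton _).compl]
  refine Eq.trans (integral_congr_ae (Filter.Eventually.of_forall fun x => ?_)) (e.trans ?_)
  · have hx : 0 < ‖x.1‖ := norm_pos_iff.2 x.2
    simp only [homeomorphUnitSphereProd_apply_snd_coe, homeomorphUnitSphereProd_apply_fst_coe]
    rw [hh _ _ (inv_pos.2 hx), inv_pow]
    field_simp
  · congr 1
    simp only [Measure.volumeIoiPow, ENNReal.ofReal, finrank_euclideanSpace, Fintype.card_fin,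
      Nat.add_sub_cancel]
    rw [integral_withDensity_eq_integral_smul (measurable_subtype_coe.pow_const _).real_toNNReal,
      integral_subtype_comap measurableSet_Ioi
        fun a => Real.toNNReal (a ^ m) • (a ^ p * g a)]
    refine setIntegral_congr_fun measurableSet_Ioi fun x hx => ?_
    simp only [NNReal.smul_def, Real.coe_toNNReal _ (pow_nonneg (le_of_lt hx) _), smul_eq_mul,
      pow_add, mul_assoc]

theorem top_three (k : ℕ) : ∫ x : topV 3, (‖x‖ ^ 2) ^ k * Real.exp (-‖x‖ ^ 2 / 2) =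
    4 * Real.pi * topR (2 * k + 2) := by
  rw [integral_fun_norm_addHaar volume fun r => (r ^ 2) ^ k * Real.exp (-r ^ 2 / 2)]
  have h1 : (volume : Measure (topV 3)).real (ball 0 1) = Real.pi * 4 / 3 := by
    rw [Measure.real, EuclideanSpace.volume_ball_fin_three]
    simp [ENNReal.toReal_ofReal (show 0 ≤ Real.pi * 4 / 3 by positivity)]
  have h2 : ∫ y in Ioi (0 : ℝ), y ^ 2 * ((y ^ 2) ^ k * Real.exp (-y ^ 2 / 2)) = topR (2 * k + 2) :=
    setIntegral_congr_fun measurableSet_Ioi fun x _ => by ring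
  simp only [finrank_euclideanSpace, Fintype.card_fin, h1, smul_eq_mul, nsmul_eq_mul,
    Nat.add_one_sub_one, h2]
  push_cast
  ring

theorem top_four (j k : ℕ) :
    ∫ z : topV 4, z 0 ^ j * (‖topT z‖ ^ 2) ^ k * Real.exp (-‖z‖ ^ 2 / 2) =
      topA j * (4 * Real.pi * topR (2 * k + 2)) := by
  rw [← top_three, topA, ← top_split]
  refine integral_congr_ae (Filter.Eventually.of_forall fun z => ?_)
  dsimp only
  rw [top_norm z, neg_add, add_div, Real.exp_add]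
  ring

theorem topT_smul {m : ℕ} (r : ℝ) (z : topV (m + 1)) : topT (r • z) = r • topT z := rfl

theorem top_four' (j k : ℕ) :
    ∫ z : topV 4, z 0 ^ j * (‖topT z‖ ^ 2) ^ k * (Real.exp (-‖z‖ ^ 2 / 2) / ‖z‖) =
      topA j * (4 * Real.pi * topR (2 * k + 2)) * topR (j + 2 * k + 2) / topR (j + 2 * k + 3) := by
  have hh : ∀ (r : ℝ) (z : topV 4), 0 < r → (r • z) 0 ^ j * (‖topT (r • z)‖ ^ 2) ^ k =
      r ^ (j + 2 * k) * (z 0 ^ j * (‖topT z‖ ^ 2) ^ k) := by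
    intro r z hr
    rw [topT_smul, norm_smul, Real.norm_of_nonneg hr.le, PiLp.smul_apply, smul_eq_mul]
    ring
  have h1 := top_radial (m := 3) (h := fun z => z 0 ^ j * (‖topT z‖ ^ 2) ^ k) hh
    fun r => Real.exp (-r ^ 2 / 2)
  have h2 := top_radial (m := 3) (h := fun z => z 0 ^ j * (‖topT z‖ ^ 2) ^ k) hh
    fun r => Real.exp (-r ^ 2 / 2) / r
  have h3 : ∫ r in Ioi (0 : ℝ), r ^ (3 + (j + 2 * k)) * (Real.exp (-r ^ 2 / 2) / r) =
      topR (j + 2 * k + 2) := by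
    refine setIntegral_congr_fun measurableSet_Ioi fun x hx => ?_
    have : x ≠ 0 := ne_of_gt hx
    field_simp
    ring
  have h4 : ∫ r in Ioi (0 : ℝ), r ^ (3 + (j + 2 * k)) * Real.exp (-r ^ 2 / 2) =
      topR (j + 2 * k + 3) := by rw [add_comm 3, topR]
  rw [h2, h3, ← top_four, h1, eq_div_iff (topR_pos _).ne', h4]
  ring

theorem top_lam (Y : E 3) : lam2 Y = ‖topT (topT Y)‖ ^ 2 := by
  simp [EuclideanSpace.norm_sq_eq, topT, lam2, tail]

theorem top_norm' (Y : E 3) : ‖Y‖ ^ 2 = Y 0 ^ 2 + Y 1 ^ 2 + lam2 Y := by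
  rw [top_norm Y, top_norm (topT Y), top_lam]
  exact (add_assoc _ _ _).symm

/-- the basic integrals -/
noncomputable def topI (i j k : ℕ) : ℝ :=
  Gi fun Y : E 3 => Y 0 ^ i * Y 1 ^ j * lam2 Y ^ k / Real.sqrt (Y 1 ^ 2 + lam2 Y)

theorem topI_eq (i j k : ℕ) : topI i j k = topA i * (topA j * (4 * Real.pi * topR (2 * k + 2)) *
    topR (j + 2 * k + 2) / topR (j + 2 * k + 3)) := by
  rw [← top_four', topA, ← top_split, topI, Gi]
  refine integral_congr_ae (Filter.Eventually.of_forall fun Y => ?_)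
  dsimp only
  have h : Y 1 ^ 2 + lam2 Y = ‖topT Y‖ ^ 2 := by rw [top_norm (topT Y), top_lam]; rfl
  rw [h, Real.sqrt_sq (norm_nonneg _), top_norm Y, neg_add, add_div, Real.exp_add, top_lam]
  change _ = _ * (Y 1 ^ j * _ * _)
  ring

theorem top_U0 : U0 3 = 3072 / 35 * Real.pi ^ 2 := by
  have hh : ∀ (r : ℝ) (z : topV 5), 0 < r → (r • z) 0 ^ 4 = r ^ 4 * z 0 ^ 4 := by
    intro r z _
    rw [PiLp.smul_apply, smul_eq_mul, mul_pow]
  have h1 := top_radial (m := 4) (h := fun z => z 0 ^ 4) hh fun r => Real.exp (-r ^ 2 / 2)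
  have h2 := top_radial (m := 4) (h := fun z => z 0 ^ 4) hh fun r => r * Real.exp (-r ^ 2 / 2)
  have h3 : ∫ r in Ioi (0 : ℝ), r ^ (4 + 4) * (r * Real.exp (-r ^ 2 / 2)) = topR 9 :=
    setIntegral_congr_fun measurableSet_Ioi fun x _ => by ring
  have h4 : U0 3 = ∫ z : topV 5, z 0 ^ 4 * (‖z‖ * Real.exp (-‖z‖ ^ 2 / 2)) := by
    refine integral_congr_ae (Filter.Eventually.of_forall fun Y => ?_)
    simp only [den, zero_mul, add_zero, ne_eq, OfNat.ofNat_ne_zero, not_false_eq_true, zero_pow,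
      sub_zero, Real.sqrt_sq (norm_nonneg _), Even.pow_abs (show Even (3 + 1) by decide)]
    ring
  have h5 : ∫ z : topV 5, z 0 ^ 4 * Real.exp (-‖z‖ ^ 2 / 2) =
      topA 4 * (topA 0 * (4 * Real.pi * topR (2 * 0 + 2))) := by
    rw [← top_four, topA, ← top_split]
    refine integral_congr_ae (Filter.Eventually.of_forall fun z => ?_)
    dsimp only
    rw [top_norm z, neg_add, add_div, Real.exp_add]
    ring
  have h6 : ∫ r in Ioi (0 : ℝ), r ^ (4 + 4) * Real.exp (-r ^ 2 / 2) = topR 8 := rfl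
  rw [h5, h6, topA_even (by decide), topA_even (by decide)] at h1
  rw [h4, h2, h3]
  have h0 := topR_pos 0
  have hs := topR_zero_sq
  simp only [topR_add_two, topR_one] at h1 ⊢
  refine mul_right_cancel₀ h0.ne' ?_
  push_cast at h1 ⊢
  linear_combination (-128 / 35) * h1 + (6144 / 35 * Real.pi * topR 0) * hs

theorem top_integrable (i j k : ℕ) : Integrable fun Y : E 3 =>
    Y 0 ^ i * Y 1 ^ j * lam2 Y ^ k / Real.sqrt (Y 1 ^ 2 + lam2 Y) * Real.exp (-‖Y‖ ^ 2 / 2) := by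
  have hl : Continuous fun Y : E 3 => lam2 Y := by unfold lam2 tail; fun_prop
  have hm : Measurable fun Y : E 3 => Y 0 ^ i * Y 1 ^ j * lam2 Y ^ k *
      (Real.sqrt (lam2 Y) / Real.sqrt (Y 1 ^ 2 + lam2 Y)) :=
    Measurable.mul (Continuous.measurable (by fun_prop))
      (Measurable.div (Continuous.measurable (by fun_prop)) (Continuous.measurable (by fun_prop)))
  refine (integrable_div_lam (j := 1) (by norm_num) hm 1 (i + j + 2 * k) fun Y => ?_).congr ?_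
  · have h0 : 0 ≤ lam2 Y := Finset.sum_nonneg fun _ _ => sq_nonneg _
    have h1 : |Y 0| ≤ 1 + ‖Y‖ := (by simpa using PiLp.norm_apply_le Y 0 : |Y 0| ≤ ‖Y‖).trans
      (by linarith)
    have h2 : |Y 1| ≤ 1 + ‖Y‖ := (by simpa using PiLp.norm_apply_le Y 1 : |Y 1| ≤ ‖Y‖).trans
      (by linarith)
    have h3 : lam2 Y ≤ (1 + ‖Y‖) ^ 2 := by
      nlinarith [top_norm' Y, sq_nonneg (Y 0), sq_nonneg (Y 1), norm_nonneg Y]
    have h4 : Real.sqrt (lam2 Y) / Real.sqrt (Y 1 ^ 2 + lam2 Y) ≤ 1 :=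
      div_le_one_of_le₀ (Real.sqrt_le_sqrt (by nlinarith [sq_nonneg (Y 1)])) (Real.sqrt_nonneg _)
    rw [abs_mul, abs_mul, abs_mul, abs_pow, abs_pow, abs_pow, abs_of_nonneg h0,
      abs_of_nonneg (by positivity : 0 ≤ Real.sqrt (lam2 Y) / _), one_mul, pow_add, pow_add,
      pow_mul, ← mul_one (_ * ((1 + ‖Y‖) ^ 2) ^ k)]
    gcongr
  · filter_upwards [ae_lam2_pos (n := 3) (by norm_num)] with Y hY
    have := (Real.sqrt_pos.2 hY).ne'
    field_simp

theorem top_mom {a b : ℝ} (hab : a ^ 2 + b ^ 2 = 1) (p k : ℕ) (f : E 3 → ℝ) (c : List ℝ)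
    (hf : ∀ Y Z : E 3, Z 0 = a * Y 0 - b * Y 1 → Z 1 = b * Y 0 + a * Y 1 → lam2 Z = lam2 Y →
      Z 0 ^ 2 * f Z = ∑ j ∈ Finset.range (p + 1),
        c.getD j 0 * (Y 0 ^ (p - j) * Y 1 ^ j * lam2 Y ^ k)) :
    mom a b f = ∑ j ∈ Finset.range (p + 1), c.getD j 0 * topI (p - j) j k := by
  have hn : ∀ s t : ℝ, s ^ 2 + t ^ 2 = 1 → ‖(stVec s t 0 : E 3)‖ = 1 := fun s t h => by
    refine (pow_left_inj₀ (norm_nonneg _) zero_le_one two_ne_zero).1 ?_
    rw [st_norm_sq, st_vec_zero, st_vec_one, st_tail_vec, dotProduct_zero]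
    linarith
  obtain ⟨B, h0, h1⟩ := exists_basis_star (x := (stVec a (-b) 0 : E 3)) (v := stVec b a 0)
    (hn _ _ (by linarith)) (hn _ _ (by linarith))
    (by rw [st_inner_vec, st_vec_zero, st_vec_one, zero_dotProduct]; ring)
  have r0 : ∀ Y, B.repr Y 0 = a * Y 0 - b * Y 1 := fun Y => by
    rw [B.repr_apply_apply, h0, st_inner_vec, zero_dotProduct]; ring
  have r1 : ∀ Y, B.repr Y 1 = b * Y 0 + a * Y 1 := fun Y => by
    rw [B.repr_apply_apply, h1, st_inner_vec, zero_dotProduct]; ring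
  have r2 : ∀ Y, lam2 (B.repr Y) = lam2 Y := fun Y => by
    have e1 := top_norm' (B.repr Y)
    rw [B.repr.norm_map, top_norm' Y, r0, r1] at e1
    linear_combination -e1 - (Y 0 ^ 2 + Y 1 ^ 2) * hab
  have r3 : ∀ Y, den a b (B.repr Y) = Real.sqrt (Y 1 ^ 2 + lam2 Y) := fun Y => by
    rw [den, B.repr.norm_map, top_norm' Y, r0, r1]
    congr 1
    linear_combination (-(Y 0 ^ 2) * (a ^ 2 + b ^ 2 + 1)) * hab
  rw [mom, ← Gi_comp B.repr, Gi]
  simp only [topI, Gi, ← integral_const_mul]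
  rw [← integral_finsetSum _ fun j _ => (top_integrable _ _ _).const_mul _]
  refine integral_congr_ae (Filter.Eventually.of_forall fun Y => ?_)
  dsimp only
  rw [r3, sq_abs, hf Y _ (r0 Y) (r1 Y) (r2 Y), Finset.sum_div, Finset.sum_mul]
  exact Finset.sum_congr rfl fun _ _ => by ring

theorem top_val (i j k : ℕ) (hi : Even i) (hj : Even j) (x : ℝ)
    (h : 16 * topR i * topR j * topR (2 * k + 2) * topR (j + 2 * k + 2) =
      24 * x * topR 0 ^ 4 * topR (j + 2 * k + 3)) : topI i j k = x * (vk * U0 3) := by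
  have := topR_pos (j + 2 * k + 3)
  rw [topI_eq, topA_even hi, topA_even hj, top_U0, vk]
  rw [show topR 0 ^ 4 = (topR 0 ^ 2) ^ 2 by ring, topR_zero_sq] at h
  field_simp
  linear_combination (53760 : ℝ) * h

theorem top_odd (i j k : ℕ) (hj : Odd j) : topI i j k = 0 := by
  simp [topI_eq, topA_odd hj]

theorem top_mo {a b : ℝ} (hab : a ^ 2 + b ^ 2 = 1) :
    (nmo 3 a b).Wr = vk * (5 * a ^ 6 + 45 / 4 * a ^ 4 * b ^ 2 + 75 / 8 * a ^ 2 * b ^ 4
      + 175 / 64 * b ^ 6) ∧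
    (nmo 3 a b).Be = vk * (3 / 4 * a ^ 6 + 11 / 4 * a ^ 4 * b ^ 2 + 143 / 64 * a ^ 2 * b ^ 4
      + 5 / 8 * b ^ 6) ∧
    (nmo 3 a b).Bl = vk * (3 / 4 * a ^ 4 + 5 / 4 * a ^ 2 * b ^ 2 + 35 / 64 * b ^ 4) ∧
    (nmo 3 a b).mup = vk * (25 / 24 * a ^ 2 + 175 / 192 * b ^ 2) ∧
    (nmo 3 a b).m22 = vk * (5 / 24 * a ^ 4 + 89 / 192 * a ^ 2 * b ^ 2 + 5 / 24 * b ^ 4) ∧
    (nmo 3 a b).m40 = vk * (5 / 8 * a ^ 6 + 143 / 64 * a ^ 4 * b ^ 2 + 11 / 4 * a ^ 2 * b ^ 4
      + 3 / 4 * b ^ 6) ∧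
    (nmo 3 a b).e1 = vk * (a * b * (5 / 4 * a ^ 4 + 5 / 4 * a ^ 2 * b ^ 2 + 25 / 64 * b ^ 4)) ∧
    (nmo 3 a b).e2 = vk * (a * b * (3 / 8 * a ^ 2 + 15 / 64 * b ^ 2)) := by
  have hWr := top_mom hab 6 0 (fun Y => Y 0 ^ 4)
    [a ^ 6, -(6 * a ^ 5 * b ^ 1), 15 * a ^ 4 * b ^ 2, -(20 * a ^ 3 * b ^ 3), 15 * a ^ 2 * b ^ 4,
      -(6 * a ^ 1 * b ^ 5), b ^ 6]
    (fun Y Z h0 h1 h2 => by simp [Finset.sum_range_succ, h0, h1, h2]; ring)
  have hBe := top_mom hab 6 0 (fun Y => Y 0 ^ 2 * Y 1 ^ 2)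
    [a ^ 4 * b ^ 2, 2 * a ^ 5 * b ^ 1 - 4 * a ^ 3 * b ^ 3, a ^ 6 - 8 * a ^ 4 * b ^ 2 + 6 * a ^ 2
      * b ^ 4, -(4 * a ^ 5 * b ^ 1) + 12 * a ^ 3 * b ^ 3 - 4 * a ^ 1 * b ^ 5, 6 * a ^ 4 * b ^ 2
      - 8 * a ^ 2 * b ^ 4 + b ^ 6, -(4 * a ^ 3 * b ^ 3) + 2 * a ^ 1 * b ^ 5, a ^ 2 * b ^ 4]
    (fun Y Z h0 h1 h2 => by simp [Finset.sum_range_succ, h0, h1, h2]; ring)
  have hBl := top_mom hab 4 1 (fun Y => Y 0 ^ 2 * lam2 Y)
    [a ^ 4, -(4 * a ^ 3 * b ^ 1), 6 * a ^ 2 * b ^ 2, -(4 * a ^ 1 * b ^ 3), b ^ 4]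
    (fun Y Z h0 h1 h2 => by simp [Finset.sum_range_succ, h0, h1, h2]; ring)
  have hmup := top_mom hab 2 2 (fun Y => lam2 Y ^ 2)
    [a ^ 2, -(2 * a ^ 1 * b ^ 1), b ^ 2]
    (fun Y Z h0 h1 h2 => by simp [Finset.sum_range_succ, h0, h1, h2]; ring)
  have hm22 := top_mom hab 4 1 (fun Y => Y 1 ^ 2 * lam2 Y)
    [a ^ 2 * b ^ 2, 2 * a ^ 3 * b ^ 1 - 2 * a ^ 1 * b ^ 3, a ^ 4 - 4 * a ^ 2 * b ^ 2 + b ^ 4,
      -(2 * a ^ 3 * b ^ 1) + 2 * a ^ 1 * b ^ 3, a ^ 2 * b ^ 2]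
    (fun Y Z h0 h1 h2 => by simp [Finset.sum_range_succ, h0, h1, h2]; ring)
  have hm40 := top_mom hab 6 0 (fun Y => Y 1 ^ 4)
    [a ^ 2 * b ^ 4, 4 * a ^ 3 * b ^ 3 - 2 * a ^ 1 * b ^ 5, 6 * a ^ 4 * b ^ 2 - 8 * a ^ 2 * b ^ 4
      + b ^ 6, 4 * a ^ 5 * b ^ 1 - 12 * a ^ 3 * b ^ 3 + 4 * a ^ 1 * b ^ 5, a ^ 6 - 8 * a ^ 4 * b
      ^ 2 + 6 * a ^ 2 * b ^ 4, -(2 * a ^ 5 * b ^ 1) + 4 * a ^ 3 * b ^ 3, a ^ 4 * b ^ 2]
    (fun Y Z h0 h1 h2 => by simp [Finset.sum_range_succ, h0, h1, h2]; ring)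
  have he1 := top_mom hab 6 0 (fun Y => Y 0 ^ 3 * Y 1)
    [a ^ 5 * b ^ 1, a ^ 6 - 5 * a ^ 4 * b ^ 2, -(5 * a ^ 5 * b ^ 1) + 10 * a ^ 3 * b ^ 3, 10 * a
      ^ 4 * b ^ 2 - 10 * a ^ 2 * b ^ 4, -(10 * a ^ 3 * b ^ 3) + 5 * a ^ 1 * b ^ 5, 5 * a ^ 2 * b
      ^ 4 - b ^ 6, -(a ^ 1 * b ^ 5)]
    (fun Y Z h0 h1 h2 => by simp [Finset.sum_range_succ, h0, h1, h2]; ring)
  have he2 := top_mom hab 4 1 (fun Y => Y 0 * Y 1 * lam2 Y)
    [a ^ 3 * b ^ 1, a ^ 4 - 3 * a ^ 2 * b ^ 2, -(3 * a ^ 3 * b ^ 1) + 3 * a ^ 1 * b ^ 3, 3 * a ^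
      2 * b ^ 2 - b ^ 4, -(a ^ 1 * b ^ 3)]
    (fun Y Z h0 h1 h2 => by simp [Finset.sum_range_succ, h0, h1, h2]; ring)
  have t600 := top_val 6 0 0 (by decide) (by decide) (5 / 1)
    (by simp only [topR_add_two, topR_one]; push_cast; ring)
  have t420 := top_val 4 2 0 (by decide) (by decide) (3 / 4)
    (by simp only [topR_add_two, topR_one]; push_cast; ring)
  have t240 := top_val 2 4 0 (by decide) (by decide) (5 / 8)
    (by simp only [topR_add_two, topR_one]; push_cast; ring)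
  have t060 := top_val 0 6 0 (by decide) (by decide) (175 / 64)
    (by simp only [topR_add_two, topR_one]; push_cast; ring)
  have t401 := top_val 4 0 1 (by decide) (by decide) (9 / 4)
    (by simp only [topR_add_two, topR_one]; push_cast; ring)
  have t221 := top_val 2 2 1 (by decide) (by decide) (5 / 8)
    (by simp only [topR_add_two, topR_one]; push_cast; ring)
  have t041 := top_val 0 4 1 (by decide) (by decide) (105 / 64)
    (by simp only [topR_add_two, topR_one]; push_cast; ring)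
  have t202 := top_val 2 0 2 (by decide) (by decide) (25 / 8)
    (by simp only [topR_add_two, topR_one]; push_cast; ring)
  have t022 := top_val 0 2 2 (by decide) (by decide) (175 / 64)
    (by simp only [topR_add_two, topR_one]; push_cast; ring)
  have hU := (U0_pos 3).ne'
  simp only [Finset.sum_range_succ, Finset.range_zero, Finset.sum_empty, List.getD_cons_succ,
    List.getD_cons_zero, Nat.reduceSub, Nat.sub_zero, top_odd _ 1 _ (by decide),
    top_odd _ 3 _ (by decide), top_odd _ 5 _ (by decide), t600, t420, t240, t060, t401, t221, t041, t202, t022]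
    at hWr hBe hBl hmup hm22 hm40 he1 he2
  simp only [nmo, mo, hWr, hBe, hBl, hmup, hm22, hm40, he1, he2]
  refine ⟨?_, ?_, ?_, ?_, ?_, ?_, ?_, ?_⟩ <;> (push_cast; field_simp; ring)

theorem top_cos : ∫ θ in (-Real.pi)..Real.pi, |Real.cos θ| ^ 3 = 8 / 3 := by
  have hc : ∀ s t : ℝ, IntervalIntegrable (fun θ => |Real.cos θ| ^ 3) volume s t :=
    fun s t => Continuous.intervalIntegrable (by fun_prop) s t
  have hp := Real.pi_pos
  have h1 : ∫ θ in (-(Real.pi / 2))..(Real.pi / 2), |Real.cos θ| ^ 3 = 4 / 3 := by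
    rw [intervalIntegral.integral_congr (g := fun θ => Real.cos θ ^ 3), integral_cos_pow_three]
    · norm_num
    · intro θ hθ
      rw [uIcc_of_le (by linarith)] at hθ
      simp only [abs_of_nonneg (Real.cos_nonneg_of_mem_Icc hθ)]
  have h2 : ∫ θ in (Real.pi / 2)..Real.pi, |Real.cos θ| ^ 3 = 2 / 3 := by
    rw [intervalIntegral.integral_congr (g := fun θ => -Real.cos θ ^ 3),
      intervalIntegral.integral_neg, integral_cos_pow_three]
    · norm_num
    · intro θ hθ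
      rw [uIcc_of_le (by linarith)] at hθ
      simp only [abs_of_nonpos (Real.cos_nonpos_of_pi_div_two_le_of_le hθ.1 (by linarith [hθ.2]))]
      ring
  have h3 : ∫ θ in (-Real.pi)..(-(Real.pi / 2)), |Real.cos θ| ^ 3 = 2 / 3 := by
    rw [← h2, ← intervalIntegral.integral_comp_neg]
    simp only [Real.cos_neg]
  rw [← intervalIntegral.integral_add_adjacent_intervals (hc _ (Real.pi / 2)) (hc _ _),
    ← intervalIntegral.integral_add_adjacent_intervals (hc _ (-(Real.pi / 2))) (hc _ _), h1, h2, h3]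
  norm_num

theorem kh_three : kh 3 = 11025 / 27648 * Real.pi := by
  have h := star_identity 3 (a := 0) (b := 1) (by norm_num)
  obtain ⟨h1, -, h2, -⟩ := top_mo (a := 0) (b := 1) (by norm_num)
  have h3 : nphi 3 0 1 = (nmo 3 0 1).Wr + 3 * (nmo 3 0 1).Bl := by
    rw [nphi, phi_eq (by norm_num) (by norm_num)]
    simp only [nmo]
    push_cast
    ring
  simp only [zero_mul, intervalIntegral.integral_mul_const, top_cos, h3, h1, h2, vk] at h
  linear_combination (-1 / 2) * h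

end Pool.Agent.Ped
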