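import Pool.Agent.P.MP_e09f5c_gt.Dir

/-! Pointwise bounds for the weight and integrals of powers of a linear form. -/

open MeasureTheory Set

namespace Pool.Agent.Ped

variable {n : ℕ}

/-- The weight as a function of the square of the linear form. -/
noncomputable def ww (x : ℝ) : ℝ := (Real.sqrt (1 - x))⁻¹

theorem wt_eq (a b : ℝ) (p : ℝ × ℝ) : wt a b p = ww ((a * p.1 + b * p.2) ^ 2) := rfl

theorem lin_sq_le {a b : ℝ} (hab : a ^ 2 + b ^ 2 ≤ 1) (p : ℝ × ℝ) :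
    (a * p.1 + b * p.2) ^ 2 ≤ 1 - lm p := by
  have h1 : (a * p.1 + b * p.2) ^ 2 ≤ (a ^ 2 + b ^ 2) * (p.1 ^ 2 + p.2 ^ 2) := by
    have := sq_nonneg (a * p.2 - b * p.1)
    linarith only [this, show (a ^ 2 + b ^ 2) * (p.1 ^ 2 + p.2 ^ 2)
      = (a * p.1 + b * p.2) ^ 2 + (a * p.2 - b * p.1) ^ 2 by ring]
  have h2 := mul_le_mul_of_nonneg_right hab (by positivity : 0 ≤ p.1 ^ 2 + p.2 ^ 2)
  simp only [lm]
  linarith only [h1, h2]

/-- The substitution `x = 1 - y ^ 2`. -/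
theorem wb_subst {x : ℝ} (h0 : 0 ≤ x) (h1 : x ≤ 1) :
    ∃ y : ℝ, Real.sqrt (1 - x) = y ∧ 0 ≤ y ∧ y ≤ 1 ∧ x = 1 - y ^ 2 := by
  refine ⟨_, rfl, Real.sqrt_nonneg _, Real.sqrt_le_one.2 (by linarith), ?_⟩
  rw [Real.sq_sqrt (by linarith)]
  ring

theorem wb_subst' {x : ℝ} (h0 : 0 ≤ x) (h1 : x < 1) :
    ∃ y : ℝ, Real.sqrt (1 - x) = y ∧ 0 < y ∧ y ≤ 1 ∧ x = 1 - y ^ 2 := by
  obtain ⟨y, hy, -, h2, h3⟩ := wb_subst h0 h1.le
  exact ⟨y, hy, hy ▸ Real.sqrt_pos.2 (by linarith), h2, h3⟩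

theorem wb_deriv {x : ℝ} (h1 : x < 1) :
    HasDerivAt ww (1 / (2 * Real.sqrt (1 - x) ^ 3)) x := by
  have hp : 0 < 1 - x := by linarith
  have hs : 0 < Real.sqrt (1 - x) := Real.sqrt_pos.2 hp
  have h2 : HasDerivAt (fun x : ℝ => 1 - x) (-1) x := (hasDerivAt_id x).const_sub 1
  have h3 := (h2.sqrt hp.ne').inv hs.ne'
  refine h3.congr_deriv ?_
  field_simp

/-- Monotonicity from a nonnegative derivative on a convex set. -/
theorem wb_mono {D : Set ℝ} (hD : Convex ℝ D) {f f' : ℝ → ℝ}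
    (hf : ∀ x ∈ D, HasDerivAt f (f' x) x) (h0 : ∀ x ∈ D, 0 ≤ f' x) : MonotoneOn f D := by
  refine monotoneOn_of_deriv_nonneg hD (fun x hx => (hf x hx).continuousAt.continuousWithinAt)
    (fun x hx => (hf x (interior_subset hx)).differentiableAt.differentiableWithinAt)
    fun x hx => ?_
  rw [(hf x (interior_subset hx)).deriv]
  exact h0 x (interior_subset hx)

/-- The quotient of the remainder of the derivative by `x ^ 2`. -/
noncomputable def wbK (y : ℝ) : ℝ :=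
  3 / (4 * y ^ 2) + 1 / (4 * y ^ 3 * (1 + y)) + 1 / (4 * y ^ 3 * (1 + y) ^ 2)

theorem wbK_nonneg {y : ℝ} (hy : 0 < y) : 0 ≤ wbK y := by
  unfold wbK
  positivity

theorem wbK_anti {y y' : ℝ} (hy : 0 < y) (h : y ≤ y') : wbK y' ≤ wbK y := by
  have hy' : 0 < y' := hy.trans_le h
  unfold wbK
  gcongr

theorem wbK_eq {x : ℝ} (h0 : 0 ≤ x) (h1 : x < 1) :
    1 / (2 * Real.sqrt (1 - x) ^ 3) = 1 / 2 + 3 / 4 * x + x ^ 2 * wbK (Real.sqrt (1 - x)) := by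
  obtain ⟨y, hy, hy0, -, hx⟩ := wb_subst' h0 h1
  rw [hy, hx, wbK]
  field_simp
  ring

theorem ww_lo {x : ℝ} (h0 : 0 ≤ x) (h1 : x < 1) : 1 + x / 2 + 3 / 8 * x ^ 2 ≤ ww x := by
  obtain ⟨y, hy, hy0, hy1, hx⟩ := wb_subst' h0 h1
  rw [ww, hy, hx, ← one_div, le_div_iff₀ hy0]
  have h2 : 0 ≤ (1 - y) ^ 3 * (3 * y ^ 2 + 9 * y + 8) :=
    mul_nonneg (pow_nonneg (by linarith) 3) (by positivity)
  linarith only [h2, show (1 + (1 - y ^ 2) / 2 + 3 / 8 * (1 - y ^ 2) ^ 2) * y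
    = 1 - (1 - y) ^ 3 * (3 * y ^ 2 + 9 * y + 8) / 8 by ring]

theorem ww_hi {x l : ℝ} (h0 : 0 ≤ x) (hl : 0 < l) (h1 : x ≤ 1 - l) :
    ww x ≤ 1 + x / 2 + 3 / 8 * x ^ 2 * l⁻¹ := by
  obtain ⟨y, hy, hy0, hy1, hx⟩ := wb_subst' h0 (by linarith)
  have h2 : (y ^ 2)⁻¹ ≤ l⁻¹ := inv_anti₀ hl (by linarith)
  have h3 := mul_le_mul_of_nonneg_left h2 (by positivity : 0 ≤ 3 / 8 * x ^ 2)
  refine le_trans ?_ (add_le_add_right h3 _)
  rw [ww, hy, hx]
  have h4 : 0 ≤ (1 - y) ^ 3 * (y + 3) / (8 * y ^ 2) :=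
    div_nonneg (mul_nonneg (pow_nonneg (by linarith) 3) (by positivity)) (by positivity)
  have h5 : 1 + (1 - y ^ 2) / 2 + 3 / 8 * (1 - y ^ 2) ^ 2 * (y ^ 2)⁻¹
      = y⁻¹ + (1 - y) ^ 3 * (y + 3) / (8 * y ^ 2) := by
    field_simp
    ring
  linarith only [h4, h5]

theorem ww_lo_mono : MonotoneOn (fun x => ww x - (x / 2 + 3 / 8 * x ^ 2)) (Ico 0 1) := by
  refine wb_mono (convex_Ico 0 1)
    (f' := fun x => 1 / (2 * Real.sqrt (1 - x) ^ 3) - (1 / 2 + 3 / 8 * (2 * x)))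
    (fun x hx => ?_) fun x hx => ?_
  · refine (wb_deriv hx.2).sub (((hasDerivAt_id x).div_const 2).add ?_)
    simpa using (hasDerivAt_pow 2 x).const_mul (3 / 8 : ℝ)
  · have h2 := mul_nonneg (sq_nonneg x)
      (wbK_nonneg (Real.sqrt_pos.2 (show 0 < 1 - x by linarith [hx.2])))
    have h3 := wbK_eq hx.1 hx.2
    linarith only [h2, h3]

theorem ww_mono : MonotoneOn ww (Ico 0 1) := by
  refine wb_mono (convex_Ico 0 1) (fun x hx => wb_deriv hx.2) fun x _ => ?_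
  positivity

/-- The majorant built from the weight of the unit direction dominates, with a monotone gap. -/
theorem ww_top_mono {v : ℝ} (h0 : 0 ≤ v) (h1 : v ≤ 1) : MonotoneOn (fun t =>
    1 - v ^ 3 + (1 - v ^ 2) * (v * t) / 2 + 3 / 8 * (1 - v) * (v * t) ^ 2 + v ^ 3 * ww t
      - ww (v * t)) (Ico 0 1) := by
  have hv : ∀ t ∈ Ico (0 : ℝ) 1, v * t ≤ t := fun t ht => mul_le_of_le_one_left ht.1 h1
  refine wb_mono (convex_Ico 0 1)
    (f' := fun t => (1 - v ^ 2) * v / 2 + 3 / 8 * (1 - v) * (2 * (v * t) * v)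
      + v ^ 3 * (1 / (2 * Real.sqrt (1 - t) ^ 3)) - 1 / (2 * Real.sqrt (1 - v * t) ^ 3) * v)
    (fun t ht => ?_) fun t ht => ?_
  · have hl : HasDerivAt (fun t : ℝ => v * t) v t := by
      simpa using (hasDerivAt_id t).const_mul v
    have hq : HasDerivAt (fun t : ℝ => (v * t) ^ 2) (2 * (v * t) * v) t := by
      simpa using hl.fun_pow 2
    have hw : HasDerivAt (fun t : ℝ => ww (v * t)) (1 / (2 * Real.sqrt (1 - v * t) ^ 3) * v) t :=
      (wb_deriv ((hv t ht).trans_lt ht.2)).comp t hl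
    exact (((((hl.const_mul (1 - v ^ 2)).div_const 2).const_add (1 - v ^ 3)).add
      (hq.const_mul (3 / 8 * (1 - v)))).add ((wb_deriv ht.2).const_mul (v ^ 3))).sub hw
  · have h2 := wbK_eq ht.1 ht.2
    have h3 := wbK_eq (mul_nonneg h0 ht.1) ((hv t ht).trans_lt ht.2)
    have h4 : wbK (Real.sqrt (1 - v * t)) ≤ wbK (Real.sqrt (1 - t)) :=
      wbK_anti (Real.sqrt_pos.2 (by linarith [ht.2])) (Real.sqrt_le_sqrt (by linarith [hv t ht]))
    have h5 := mul_nonneg (mul_nonneg (pow_nonneg h0 3) (sq_nonneg t)) (sub_nonneg.2 h4)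
    rw [h2, h3]
    refine h5.trans_eq ?_
    ring

theorem ww_top {v t : ℝ} (h0 : 0 ≤ v) (h1 : v ≤ 1) (ht0 : 0 ≤ t) (ht1 : t < 1) :
    ww (v * t) ≤ 1 - v ^ 3 + (1 - v ^ 2) * (v * t) / 2 + 3 / 8 * (1 - v) * (v * t) ^ 2
      + v ^ 3 * ww t := by
  have h2 := ww_top_mono h0 h1 (⟨le_rfl, one_pos⟩ : (0 : ℝ) ∈ Ico (0 : ℝ) 1) ⟨ht0, ht1⟩ ht0
  have h3 : ww 0 = 1 := by simp [ww]
  simp only [mul_zero, h3] at h2
  linarith only [h2]

theorem ww_hi_mono {l : ℝ} (hl : 0 < l) (hl1 : l ≤ 1) : MonotoneOn (fun x =>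
    x / 2 + 3 / 8 * x ^ 2 + 5 / 16 * x ^ 3 + 35 / 128 * x ^ 4 * (2 * l⁻¹ + l⁻¹ ^ 2 / 8) - ww x)
    (Icc 0 (1 - l)) := by
  refine wb_mono (convex_Icc 0 (1 - l))
    (f' := fun x => 1 / 2 + 3 / 8 * (2 * x) + 5 / 16 * (3 * x ^ 2)
      + 35 / 128 * (4 * x ^ 3) * (2 * l⁻¹ + l⁻¹ ^ 2 / 8) - 1 / (2 * Real.sqrt (1 - x) ^ 3))
    (fun x hx => ?_) fun x hx => ?_
  · have h2 : HasDerivAt (fun x : ℝ => x ^ 2) (2 * x) x := by simpa using hasDerivAt_pow 2 x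
    have h3 : HasDerivAt (fun x : ℝ => x ^ 3) (3 * x ^ 2) x := by simpa using hasDerivAt_pow 3 x
    have h4 : HasDerivAt (fun x : ℝ => x ^ 4) (4 * x ^ 3) x := by simpa using hasDerivAt_pow 4 x
    exact (((((hasDerivAt_id x).div_const 2).add (h2.const_mul (3 / 8))).add
      (h3.const_mul (5 / 16))).add ((h4.const_mul (35 / 128)).mul_const _)).sub
      (wb_deriv (by linarith [hx.2]))
  · obtain ⟨y, hy, hy0, hy1, hxy⟩ := wb_subst' hx.1 (show x < 1 by linarith [hx.2])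
    have h2 : (y ^ 2)⁻¹ ≤ l⁻¹ := inv_anti₀ hl (by linarith [hx.2])
    have h3 : 2 * (y ^ 2)⁻¹ + (y ^ 2)⁻¹ ^ 2 / 8 ≤ 2 * l⁻¹ + l⁻¹ ^ 2 / 8 := by gcongr
    have h4 : 1 / y ^ 3 ≤ 2 * (y ^ 2)⁻¹ + (y ^ 2)⁻¹ ^ 2 / 8 := by
      have h5 : 2 * (y ^ 2)⁻¹ + (y ^ 2)⁻¹ ^ 2 / 8 = 1 / y ^ 3 + 2 * (y - 1 / 4) ^ 2 / y ^ 4 := by
        field_simp
        ring
      have h6 : 0 ≤ 2 * (y - 1 / 4) ^ 2 / y ^ 4 := by positivity
      linarith only [h5, h6]
    have hx0 := hx.1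
    have h5 := mul_le_mul_of_nonneg_left (h4.trans h3)
      (by positivity : 0 ≤ 35 / 128 * (4 * x ^ 3))
    have h6 : 1 / 2 + 3 / 8 * (2 * x) + 5 / 16 * (3 * x ^ 2) + 35 / 128 * (4 * x ^ 3) * (1 / y ^ 3)
        - 1 / (2 * y ^ 3)
        = (1 - y) ^ 4 * (19 + 76 * y + 85 * y ^ 2 + 30 * y ^ 3) / (32 * y ^ 3) := by
      rw [hxy]
      field_simp
      ring
    have h7 : 0 ≤ (1 - y) ^ 4 * (19 + 76 * y + 85 * y ^ 2 + 30 * y ^ 3) / (32 * y ^ 3) := by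
      positivity
    rw [hy]
    linarith only [h5, h6, h7]

theorem sqrt_hi {x : ℝ} (h0 : 0 ≤ x) (h1 : x ≤ 1) : Real.sqrt (1 - x) ≤ 1 - x / 2 - x ^ 2 / 8 := by
  obtain ⟨y, hy, hy0, hy1, hx⟩ := wb_subst h0 h1
  rw [hy, hx]
  have h2 : 0 ≤ (1 - y) ^ 3 * (3 + y) := mul_nonneg (pow_nonneg (by linarith) 3) (by positivity)
  linarith only [h2, show 1 - (1 - y ^ 2) / 2 - (1 - y ^ 2) ^ 2 / 8
    = y + (1 - y) ^ 3 * (3 + y) / 8 by ring]

theorem sqrt_lo {x : ℝ} (h0 : 0 ≤ x) (h1 : x ≤ 1) :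
    1 - x / 2 - x ^ 2 / 8 - 3 / 8 * x ^ 3 ≤ Real.sqrt (1 - x) := by
  obtain ⟨y, hy, hy0, hy1, hx⟩ := wb_subst h0 h1
  rw [hy, hx]
  have h2 : 0 ≤ (1 - y) ^ 3 * (8 * y + 9 * y ^ 2 + 3 * y ^ 3) :=
    mul_nonneg (pow_nonneg (by linarith) 3) (by positivity)
  linarith only [h2, show 1 - (1 - y ^ 2) / 2 - (1 - y ^ 2) ^ 2 / 8 - 3 / 8 * (1 - y ^ 2) ^ 3
    = y - (1 - y) ^ 3 * (8 * y + 9 * y ^ 2 + 3 * y ^ 3) / 8 by ring]

theorem wb_emb : MeasurableEmbedding fun p : ℝ × ℝ => (p.1, -p.2) :=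
  ((Homeomorph.refl ℝ).prodCongr (Homeomorph.neg ℝ)).measurableEmbedding

theorem wb_flip (f : ℝ × ℝ → ℝ) : ∫ p, f (p.1, -p.2) ∂mu n = ∫ p, f p ∂mu n :=
  (mu_flip2 n).integral_comp wb_emb f

theorem wb_lm_flip (p : ℝ × ℝ) : lm (p.1, -p.2) = lm p := by
  simp only [lm, neg_sq]

theorem wb_odd_zero {f : ℝ × ℝ → ℝ} (hf : ∀ p : ℝ × ℝ, f (p.1, -p.2) = -f p) :
    ∫ p, f p ∂mu n = 0 := by
  have h := wb_flip (n := n) f
  simp only [hf, integral_neg] at h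
  linarith only [h]

theorem wb_sum_split (f : ℕ → ℝ) (r : ℕ) : ∑ m ∈ Finset.range (2 * r + 1), f m
    = ∑ l ∈ Finset.range (r + 1), f (2 * l) + ∑ l ∈ Finset.range r, f (2 * l + 1) := by
  induction r with
  | zero => simp
  | succ r ih =>
    rw [show 2 * (r + 1) + 1 = 2 * r + 1 + 1 + 1 by ring, Finset.sum_range_succ,
      Finset.sum_range_succ, ih, Finset.sum_range_succ _ (r + 1),
      Finset.sum_range_succ (fun l => f (2 * l + 1)) r, show 2 * r + 1 + 1 = 2 * (r + 1) by ring]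
    ring

/-- The part of the binomial expansion that is even in the second coordinate. -/
noncomputable def wbE (a b : ℝ) (r : ℕ) (p : ℝ × ℝ) : ℝ :=
  ∑ l ∈ Finset.range (r + 1), ((2 * r).choose (2 * l) : ℝ) * (a ^ 2) ^ (r - l) * (b ^ 2) ^ l
    * ((p.1 ^ 2) ^ (r - l) * (p.2 ^ 2) ^ l)

/-- The odd part of the binomial expansion, divided by `a b x y`. -/
noncomputable def wbO (a b : ℝ) (r : ℕ) (p : ℝ × ℝ) : ℝ :=
  ∑ l ∈ Finset.range r, ((2 * r).choose (2 * l + 1) : ℝ) * (a ^ 2) ^ (r - 1 - l) * (b ^ 2) ^ l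
    * ((p.1 ^ 2) ^ (r - 1 - l) * (p.2 ^ 2) ^ l)

theorem wb_binom (a b : ℝ) (r : ℕ) (p : ℝ × ℝ) : ((a * p.1 + b * p.2) ^ 2) ^ r
    = wbE a b r p + a * b * (p.1 * p.2) * wbO a b r p := by
  rw [← pow_mul, add_comm (a * p.1), add_pow, wb_sum_split, wbE, wbO, Finset.mul_sum]
  congr 1
  · refine Finset.sum_congr rfl fun l hl => ?_
    have hl' := Finset.mem_range.1 hl
    rw [show 2 * r - 2 * l = 2 * (r - l) by omega]
    simp only [pow_mul, mul_pow]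
    ring
  · refine Finset.sum_congr rfl fun l hl => ?_
    have hl' := Finset.mem_range.1 hl
    rw [show 2 * r - (2 * l + 1) = 2 * (r - 1 - l) + 1 by omega]
    simp only [pow_succ _ (2 * _), pow_mul, mul_pow]
    ring

theorem wbE_cont (a b : ℝ) (r : ℕ) : Continuous (wbE a b r) := by
  unfold wbE
  fun_prop

theorem wbO_cont (a b : ℝ) (r : ℕ) : Continuous (wbO a b r) := by
  unfold wbO
  fun_prop

theorem wbE_flip (a b : ℝ) (r : ℕ) (p : ℝ × ℝ) : wbE a b r (p.1, -p.2) = wbE a b r p := by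
  simp only [wbE, neg_sq]

theorem wbO_flip (a b : ℝ) (r : ℕ) (p : ℝ × ℝ) : wbO a b r (p.1, -p.2) = wbO a b r p := by
  simp only [wbO, neg_sq]

/-- Integral of a finite combination of monomials. -/
theorem wb_int_sum (hn : 1 ≤ n) {k : ℤ} (hk : 0 < (n : ℤ) + 2 * k) (s : Finset ℕ) (c : ℕ → ℝ)
    (u w : ℕ → ℕ) :
    ∫ p, ∑ l ∈ s, c l * ((p.1 ^ 2) ^ u l * (p.2 ^ 2) ^ w l * lm p ^ k) ∂mu n
      = ∑ l ∈ s, c l * mono n (u l) (w l) k := by
  rw [integral_finsetSum s fun l _ => (integrable_cont_lm hn hk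
    (g := fun p => (p.1 ^ 2) ^ u l * (p.2 ^ 2) ^ w l) (by fun_prop)).const_mul (c l)]
  simp only [integral_const_mul, mono]

/-- Correlation lemma: a gap that is monotone in the square of the linear form has a nonnegative
integral against `x y h` with `h` nonnegative and even in `y`. -/
theorem corr_nonneg (hn : 1 ≤ n) {a b : ℝ} (ha : 0 ≤ a) (hb : 0 ≤ b) (hab : a ^ 2 + b ^ 2 ≤ 1)
    {h : ℝ × ℝ → ℝ} {G : ℝ → ℝ → ℝ} (h0 : ∀ p, 0 < lm p → 0 ≤ h p)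
    (he : ∀ p : ℝ × ℝ, h (p.1, -p.2) = h p)
    (hG : ∀ l, 0 < l → l ≤ 1 → MonotoneOn (G l) (Icc 0 (1 - l)))
    (hi : Integrable (fun p => p.1 * p.2 * h p * G (lm p) ((a * p.1 + b * p.2) ^ 2)) (mu n)) :
    0 ≤ ∫ p, p.1 * p.2 * h p * G (lm p) ((a * p.1 + b * p.2) ^ 2) ∂mu n := by
  have hi2 := ((mu_flip2 n).integrable_comp_emb wb_emb).2 hi
  have h1 := wb_flip (n := n)
    fun p => p.1 * p.2 * h p * G (lm p) ((a * p.1 + b * p.2) ^ 2)
  have h2 := integral_add hi hi2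
  simp only [Function.comp_def] at h2
  have h3 : 0 ≤ ∫ p, (p.1 * p.2 * h p * G (lm p) ((a * p.1 + b * p.2) ^ 2)
      + p.1 * -p.2 * h (p.1, -p.2) * G (lm (p.1, -p.2)) ((a * p.1 + b * -p.2) ^ 2)) ∂mu n := by
    refine integral_nonneg_of_ae ?_
    filter_upwards [mu_ae hn] with p hp
    have hl1 : lm p ≤ 1 := by
      simp only [lm]
      linarith only [sq_nonneg p.1, sq_nonneg p.2]
    have hm := hG _ hp hl1
    have hA : (a * p.1 + b * p.2) ^ 2 ∈ Icc 0 (1 - lm p) := ⟨sq_nonneg _, lin_sq_le hab p⟩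
    have hB : (a * p.1 + b * -p.2) ^ 2 ∈ Icc 0 (1 - lm p) := by
      have := lin_sq_le hab (p.1, -p.2)
      rw [wb_lm_flip] at this
      exact ⟨sq_nonneg _, this⟩
    have hd : (a * p.1 + b * p.2) ^ 2 - (a * p.1 + b * -p.2) ^ 2 = 4 * (a * b) * (p.1 * p.2) := by
      ring
    have hab0 : 0 ≤ 4 * (a * b) := by positivity
    have e : p.1 * p.2 * h p * G (lm p) ((a * p.1 + b * p.2) ^ 2)
        + p.1 * -p.2 * h p * G (lm p) ((a * p.1 + b * -p.2) ^ 2)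
        = h p * (p.1 * p.2 * (G (lm p) ((a * p.1 + b * p.2) ^ 2)
          - G (lm p) ((a * p.1 + b * -p.2) ^ 2))) := by ring
    simp only [Pi.zero_apply]
    rw [he, wb_lm_flip, e]
    refine mul_nonneg (h0 p hp) ?_
    rcases le_total 0 (p.1 * p.2) with hs | hs
    · have := mul_nonneg hab0 hs
      exact mul_nonneg hs (sub_nonneg.2 (hm hB hA (by linarith only [this, hd])))
    · have := mul_nonpos_of_nonneg_of_nonpos hab0 hs
      exact mul_nonneg_of_nonpos_of_nonpos hs (sub_nonpos.2 (hm hA hB (by linarith only [this, hd])))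
  simp only at h1
  linarith only [h1, h2, h3]

/-- Even monomials against even powers of the linear form. -/
theorem int_even (hn : 1 ≤ n) (a b : ℝ) (i j r : ℕ) {k : ℤ} (hk : 0 < (n : ℤ) + 2 * k) :
    ∫ p, (p.1 ^ 2) ^ i * (p.2 ^ 2) ^ j * lm p ^ k * ((a * p.1 + b * p.2) ^ 2) ^ r ∂mu n
      = ∑ l ∈ Finset.range (r + 1), ((2 * r).choose (2 * l) : ℝ) * (a ^ 2) ^ (r - l) * (b ^ 2) ^ l
          * mono n (i + (r - l)) (j + l) k := by
  have hE := wbE_cont a b r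
  have hO := wbO_cont a b r
  have h1 := integrable_cont_lm hn hk
    (g := fun p => (p.1 ^ 2) ^ i * (p.2 ^ 2) ^ j * wbE a b r p) (by fun_prop)
  have h2 := integrable_cont_lm hn hk
    (g := fun p => (p.1 ^ 2) ^ i * (p.2 ^ 2) ^ j * (a * b * (p.1 * p.2) * wbO a b r p))
    (by fun_prop)
  have h3 : ∫ p, (p.1 ^ 2) ^ i * (p.2 ^ 2) ^ j * (a * b * (p.1 * p.2) * wbO a b r p) * lm p ^ k
      ∂mu n = 0 := by
    refine wb_odd_zero fun p => ?_
    simp only [wbO_flip, wb_lm_flip, neg_sq]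
    ring
  have h4 := integral_add h1 h2
  rw [h3, add_zero] at h4
  rw [← wb_int_sum hn hk (Finset.range (r + 1))
    (fun l => ((2 * r).choose (2 * l) : ℝ) * (a ^ 2) ^ (r - l) * (b ^ 2) ^ l)
    (fun l => i + (r - l)) fun l => j + l]
  refine Eq.trans ?_ (h4.trans ?_)
  · refine integral_congr_ae (ae_of_all _ fun p => ?_)
    simp only [wb_binom]
    ring
  · refine integral_congr_ae (ae_of_all _ fun p => ?_)
    simp only [wbE, Finset.mul_sum, Finset.sum_mul]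
    refine Finset.sum_congr rfl fun l _ => ?_
    simp only [pow_add]
    ring

/-- Odd monomials against even powers of the linear form. -/
theorem int_odd (hn : 1 ≤ n) (a b : ℝ) (i j r : ℕ) {k : ℤ} (hk : 0 < (n : ℤ) + 2 * k) :
    ∫ p, p.1 * p.2 * ((p.1 ^ 2) ^ i * (p.2 ^ 2) ^ j * lm p ^ k)
        * ((a * p.1 + b * p.2) ^ 2) ^ r ∂mu n
      = a * b * ∑ l ∈ Finset.range r, ((2 * r).choose (2 * l + 1) : ℝ) * (a ^ 2) ^ (r - 1 - l)
          * (b ^ 2) ^ l * mono n (i + (r - l)) (j + l + 1) k := by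
  have hE := wbE_cont a b r
  have hO := wbO_cont a b r
  have h1 := integrable_cont_lm hn hk
    (g := fun p => p.1 * p.2 * ((p.1 ^ 2) ^ i * (p.2 ^ 2) ^ j) * wbE a b r p) (by fun_prop)
  have h2 := integrable_cont_lm hn hk
    (g := fun p => p.1 * p.2 * ((p.1 ^ 2) ^ i * (p.2 ^ 2) ^ j)
      * (a * b * (p.1 * p.2) * wbO a b r p)) (by fun_prop)
  have h3 : ∫ p, p.1 * p.2 * ((p.1 ^ 2) ^ i * (p.2 ^ 2) ^ j) * wbE a b r p * lm p ^ k
      ∂mu n = 0 := by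
    refine wb_odd_zero fun p => ?_
    simp only [wbE_flip, wb_lm_flip, neg_sq]
    ring
  have h4 := integral_add h1 h2
  rw [h3, zero_add] at h4
  rw [← wb_int_sum hn hk (Finset.range r)
    (fun l => ((2 * r).choose (2 * l + 1) : ℝ) * (a ^ 2) ^ (r - 1 - l) * (b ^ 2) ^ l)
    (fun l => i + (r - l)) fun l => j + l + 1, ← integral_const_mul]
  refine Eq.trans ?_ (h4.trans ?_)
  · refine integral_congr_ae (ae_of_all _ fun p => ?_)
    simp only [wb_binom]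
    ring
  · refine integral_congr_ae (ae_of_all _ fun p => ?_)
    simp only [wbO, Finset.mul_sum, Finset.sum_mul]
    refine Finset.sum_congr rfl fun l hl => ?_
    have hl' := Finset.mem_range.1 hl
    obtain ⟨d, hd⟩ : ∃ d, r - l = d + 1 := ⟨r - 1 - l, by omega⟩
    rw [hd, show r - 1 - l = d by omega]
    simp only [pow_add]
    ring

/-- Closed form of the monomial integrals through a single recursion step in each index. -/
theorem mono_pred3 (hn : 1 ≤ n) (i j : ℕ) {k : ℤ} (hk : 0 < (n : ℤ) + 2 * (k - 1)) :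
    mono n i j (k - 1) = mono n i j k * (2 * n + 1 + 2 * (i + j + (k - 1))) / (n + 2 * (k - 1)) := by
  have h := mono_succ3 hn i j hk
  have hk' : (0 : ℝ) < n + 2 * (k - 1) := by exact_mod_cast hk
  have hq : (0 : ℝ) < 2 * n + 1 + 2 * (i + j + (k - 1)) := by
    linarith [(Nat.cast_nonneg i : (0 : ℝ) ≤ i), (Nat.cast_nonneg j : (0 : ℝ) ≤ j),
      (Nat.cast_nonneg n : (0 : ℝ) ≤ n)]
  rw [sub_add_cancel] at h
  push_cast at h
  rw [eq_div_iff hq.ne'] at h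
  rw [eq_div_iff hk'.ne', h]

theorem mono_zero (hn : 1 ≤ n) : mono n 0 0 0 = (2 * n + 1) / n := by
  have hn' : (0 : ℝ) < n := by exact_mod_cast hn
  have h := mono_succ1 hn 0 0 (k := 0) (by omega)
  rw [zero_add, mono_one hn] at h
  simp only [Nat.cast_zero, Int.cast_zero, mul_zero, add_zero] at h
  rw [eq_div_iff (by positivity), one_mul] at h
  rw [eq_div_iff hn'.ne', h]

end Pool.Agent.Ped
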