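import Pool.Agent.P.MP_e09f5c_gt.A3Defs
import Pool.Agent.P.MP_e09f5c_gt.WBound
import Pool.Agent.P.MP_e09f5c_gt.Top

/-! Two sided bounds for the moments when `n = 3`. -/

open MeasureTheory

namespace Pool.Agent.Ped

/-- Closed form of the monomial integrals for `n = 3`. -/
noncomputable def mom3m (i j k : ℕ) : ℝ :=
  7 / 3 * ((∏ t ∈ Finset.range i, (3 + 2 * (t : ℝ))) * (∏ t ∈ Finset.range j, (1 + 2 * (t : ℝ)))
    * ∏ t ∈ Finset.range k, (3 + 2 * (t : ℝ))) / ∏ t ∈ Finset.range (i + j + k), (7 + 2 * (t : ℝ))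

theorem mom3_prod_ne (m : ℕ) : (∏ t ∈ Finset.range m, (7 + 2 * (t : ℝ))) ≠ 0 :=
  Finset.prod_ne_zero_iff.2 fun t _ => by positivity

theorem mom3_mono (i j k : ℕ) : mono 3 i j (k : ℤ) = mom3m i j k := by
  have hk : ∀ k : ℕ, 0 < ((3 : ℕ) : ℤ) + 2 * (k : ℤ) := fun k => by positivity
  induction i with
  | zero =>
    induction j with
    | zero =>
      induction k with
      | zero =>
        rw [Nat.cast_zero, mono_zero (by norm_num)]
        norm_num [mom3m]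
      | succ k ih =>
        rw [Nat.cast_succ, mono_succ3 (by norm_num) 0 0 (hk k), ih]
        have := mom3_prod_ne k
        simp only [mom3m, zero_add, Finset.prod_range_succ, Finset.range_zero, Finset.prod_empty]
        push_cast
        field_simp
        ring
    | succ j ih =>
      rw [mono_succ2 (by norm_num) 0 j (hk k), ih]
      have := mom3_prod_ne (j + k)
      simp only [mom3m, zero_add, show j + 1 + k = j + k + 1 by ring, Finset.prod_range_succ,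
        Finset.range_zero, Finset.prod_empty]
      push_cast
      field_simp
      ring
  | succ i ih =>
    rw [mono_succ1 (by norm_num) i j (hk k), ih]
    have := mom3_prod_ne (i + j + k)
    simp only [mom3m, show i + 1 + j + k = i + j + k + 1 by ring, Finset.prod_range_succ]
    push_cast
    field_simp
    ring

/-- The even monomials. -/
noncomputable def mom3f (i j k : ℕ) (p : ℝ × ℝ) : ℝ := (p.1 ^ 2) ^ i * (p.2 ^ 2) ^ j * lm p ^ k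

theorem mom3_cont (i j k : ℕ) : Continuous (mom3f i j k) := by
  have := mu_cont_lm
  unfold mom3f
  fun_prop

theorem mom3_nonneg (i j k : ℕ) {p : ℝ × ℝ} (hp : 0 < lm p) : 0 ≤ mom3f i j k p := by
  unfold mom3f
  positivity

theorem mom3_even (a b : ℝ) (i j k r : ℕ) :
    ∫ p, mom3f i j k p * ((a * p.1 + b * p.2) ^ 2) ^ r ∂mu 3
      = ∑ l ∈ Finset.range (r + 1), ((2 * r).choose (2 * l) : ℝ) * (a ^ 2) ^ (r - l) * (b ^ 2) ^ l
          * mom3m (i + (r - l)) (j + l) k := by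
  have h := int_even (n := 3) (by norm_num) a b i j r (k := (k : ℤ)) (by positivity)
  simpa only [zpow_natCast, mom3_mono, mom3f] using h

theorem mom3_odd (a b : ℝ) (i j k r : ℕ) :
    ∫ p, p.1 * p.2 * mom3f i j k p * ((a * p.1 + b * p.2) ^ 2) ^ r ∂mu 3
      = a * b * ∑ l ∈ Finset.range r, ((2 * r).choose (2 * l + 1) : ℝ) * (a ^ 2) ^ (r - 1 - l)
          * (b ^ 2) ^ l * mom3m (i + (r - l)) (j + l + 1) k := by
  have h := int_odd (n := 3) (by norm_num) a b i j r (k := (k : ℤ)) (by positivity)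
  simpa only [zpow_natCast, mom3_mono, mom3f] using h

/-- First even moment. -/
noncomputable def mom3E1 (i j k : ℕ) (P s : ℝ) : ℝ :=
  P * mom3m (i + 1) j k + s * mom3m i (j + 1) k

/-- Second even moment. -/
noncomputable def mom3E2 (i j k : ℕ) (P s : ℝ) : ℝ :=
  P ^ 2 * mom3m (i + 2) j k + 6 * P * s * mom3m (i + 1) (j + 1) k + s ^ 2 * mom3m i (j + 2) k

/-- Third even moment. -/
noncomputable def mom3E3 (i j k : ℕ) (P s : ℝ) : ℝ :=
  P ^ 3 * mom3m (i + 3) j k + 15 * P ^ 2 * s * mom3m (i + 2) (j + 1) k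
    + 15 * P * s ^ 2 * mom3m (i + 1) (j + 2) k + s ^ 3 * mom3m i (j + 3) k

/-- First odd moment. -/
noncomputable def mom3O1 (i j k : ℕ) : ℝ := 2 * mom3m (i + 1) (j + 1) k

/-- Second odd moment. -/
noncomputable def mom3O2 (i j k : ℕ) (P s : ℝ) : ℝ :=
  4 * P * mom3m (i + 2) (j + 1) k + 4 * s * mom3m (i + 1) (j + 2) k

/-- Integral of a continuous function against a cubic polynomial in the squared linear form. -/
theorem mom3_lin {g : ℝ × ℝ → ℝ} (hg : Continuous g) (a b c0 c1 c2 c3 : ℝ) :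
    ∫ p, g p * (c0 + c1 * (a * p.1 + b * p.2) ^ 2 + c2 * ((a * p.1 + b * p.2) ^ 2) ^ 2
        + c3 * ((a * p.1 + b * p.2) ^ 2) ^ 3) ∂mu 3
      = c0 * (∫ p, g p * ((a * p.1 + b * p.2) ^ 2) ^ 0 ∂mu 3)
        + c1 * (∫ p, g p * ((a * p.1 + b * p.2) ^ 2) ^ 1 ∂mu 3)
        + c2 * (∫ p, g p * ((a * p.1 + b * p.2) ^ 2) ^ 2 ∂mu 3)
        + c3 * ∫ p, g p * ((a * p.1 + b * p.2) ^ 2) ^ 3 ∂mu 3 := by
  have hi : ∀ (c : ℝ) (r : ℕ),
      Integrable (fun p : ℝ × ℝ => c * (g p * ((a * p.1 + b * p.2) ^ 2) ^ r)) (mu 3) :=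
    fun c r => integrable_cont (by norm_num) (by fun_prop)
  have h01 : Integrable (fun p : ℝ × ℝ => c0 * (g p * ((a * p.1 + b * p.2) ^ 2) ^ 0)
      + c1 * (g p * ((a * p.1 + b * p.2) ^ 2) ^ 1)) (mu 3) := (hi c0 0).add (hi c1 1)
  have h012 : Integrable (fun p : ℝ × ℝ => c0 * (g p * ((a * p.1 + b * p.2) ^ 2) ^ 0)
      + c1 * (g p * ((a * p.1 + b * p.2) ^ 2) ^ 1)
      + c2 * (g p * ((a * p.1 + b * p.2) ^ 2) ^ 2)) (mu 3) := h01.add (hi c2 2)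
  rw [← integral_const_mul, ← integral_const_mul, ← integral_const_mul, ← integral_const_mul,
    ← integral_add (hi c0 0) (hi c1 1), ← integral_add h01 (hi c2 2),
    ← integral_add h012 (hi c3 3)]
  refine integral_congr_ae (Filter.Eventually.of_forall fun p => ?_)
  dsimp only
  ring

theorem mom3_even_poly (a b c0 c1 c2 c3 : ℝ) (i j k : ℕ) :
    ∫ p, mom3f i j k p * (c0 + c1 * (a * p.1 + b * p.2) ^ 2 + c2 * ((a * p.1 + b * p.2) ^ 2) ^ 2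
        + c3 * ((a * p.1 + b * p.2) ^ 2) ^ 3) ∂mu 3
      = c0 * mom3m i j k + c1 * mom3E1 i j k (a ^ 2) (b ^ 2) + c2 * mom3E2 i j k (a ^ 2) (b ^ 2)
        + c3 * mom3E3 i j k (a ^ 2) (b ^ 2) := by
  rw [mom3_lin (mom3_cont i j k), mom3_even, mom3_even, mom3_even, mom3_even]
  simp only [Finset.sum_range_succ, Finset.range_zero, Finset.sum_empty, mom3E1, mom3E2, mom3E3]
  norm_num [Nat.choose]

theorem mom3_odd_poly (a b c0 c1 c2 : ℝ) (i j k : ℕ) :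
    ∫ p, p.1 * p.2 * mom3f i j k p * (c0 + c1 * (a * p.1 + b * p.2) ^ 2
        + c2 * ((a * p.1 + b * p.2) ^ 2) ^ 2) ∂mu 3
      = a * b * (c1 * mom3O1 i j k + c2 * mom3O2 i j k (a ^ 2) (b ^ 2)) := by
  have hc := mom3_cont i j k
  have h := mom3_lin (g := fun p => p.1 * p.2 * mom3f i j k p) (by fun_prop) a b c0 c1 c2 0
  simp only [zero_mul, add_zero] at h
  rw [h, mom3_odd, mom3_odd, mom3_odd]
  simp only [Finset.sum_range_succ, Finset.range_zero, Finset.sum_empty, mom3O1, mom3O2]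
  norm_num [Nat.choose]
  ring

theorem mom3_lt {a b : ℝ} (hab : a ^ 2 + b ^ 2 ≤ 1) {p : ℝ × ℝ} (hp : 0 < lm p) :
    (a * p.1 + b * p.2) ^ 2 < 1 := by
  have := lin_sq_le hab p
  linarith

theorem mom3_even_lo {a b : ℝ} (hab : a ^ 2 + b ^ 2 ≤ 1) (i j k : ℕ) :
    mom3m i j k + 1 / 2 * mom3E1 i j k (a ^ 2) (b ^ 2) + 3 / 8 * mom3E2 i j k (a ^ 2) (b ^ 2)
      ≤ ∫ p, mom3f i j k p * wt a b p ∂mu 3 := by
  have hc := mom3_cont i j k
  have h := mom3_even_poly a b 1 (1 / 2) (3 / 8) 0 i j k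
  simp only [zero_mul, add_zero, one_mul] at h
  rw [← h]
  refine integral_mono_ae (integrable_cont (by norm_num) (by fun_prop))
    (integrable_cont_wt (by norm_num) hab hc) ?_
  filter_upwards [mu_ae (n := 3) (by norm_num)] with p hp
  refine mul_le_mul_of_nonneg_left ?_ (mom3_nonneg i j k hp)
  have := ww_lo (sq_nonneg _) (mom3_lt hab hp)
  rw [wt_eq]
  linarith

theorem mom3_scale (w a b : ℝ) (p : ℝ × ℝ) :
    (w * a * p.1 + w * b * p.2) ^ 2 = w ^ 2 * (a * p.1 + b * p.2) ^ 2 := by ring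

theorem mom3_even_hi {w a b : ℝ} (hw : w ^ 2 ≤ 1) (hab : a ^ 2 + b ^ 2 = 1) (i j k : ℕ) :
    ∫ p, mom3f i j k p * wt (w * a) (w * b) p ∂mu 3
      ≤ (1 - (w ^ 2) ^ 3) * mom3m i j k
        + (1 - (w ^ 2) ^ 2) / 2 * mom3E1 i j k ((w * a) ^ 2) ((w * b) ^ 2)
        + 3 / 8 * (1 - w ^ 2) * mom3E2 i j k ((w * a) ^ 2) ((w * b) ^ 2)
        + (w ^ 2) ^ 3 * ∫ p, mom3f i j k p * wt a b p ∂mu 3 := by
  have hc := mom3_cont i j k
  have hab' : (w * a) ^ 2 + (w * b) ^ 2 ≤ 1 := by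
    rw [show (w * a) ^ 2 + (w * b) ^ 2 = w ^ 2 * (a ^ 2 + b ^ 2) by ring, hab, mul_one]
    exact hw
  have h := mom3_even_poly (w * a) (w * b) (1 - (w ^ 2) ^ 3) ((1 - (w ^ 2) ^ 2) / 2)
    (3 / 8 * (1 - w ^ 2)) 0 i j k
  simp only [zero_mul, add_zero] at h
  have i1 : Integrable (fun p : ℝ × ℝ => mom3f i j k p * (1 - (w ^ 2) ^ 3
      + (1 - (w ^ 2) ^ 2) / 2 * (w * a * p.1 + w * b * p.2) ^ 2
      + 3 / 8 * (1 - w ^ 2) * ((w * a * p.1 + w * b * p.2) ^ 2) ^ 2)) (mu 3) :=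
    integrable_cont (by norm_num) (by fun_prop)
  have i2 : Integrable (fun p : ℝ × ℝ => (w ^ 2) ^ 3 * (mom3f i j k p * wt a b p)) (mu 3) :=
    (integrable_cont_wt (by norm_num) hab.le hc).const_mul _
  rw [← h, ← integral_const_mul, ← integral_add i1 i2]
  refine integral_mono_ae (integrable_cont_wt (by norm_num) hab' hc) (i1.add i2) ?_
  filter_upwards [mu_ae (n := 3) (by norm_num)] with p hp
  have h1 := ww_top (sq_nonneg w) hw (sq_nonneg _) (mom3_lt hab.le hp)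
  have h2 := mul_le_mul_of_nonneg_left h1 (mom3_nonneg i j k hp)
  rw [wt_eq, wt_eq, mom3_scale]
  linarith

theorem mom3_sub {l : ℝ} (hl : 0 < l) : Set.Icc (0 : ℝ) (1 - l) ⊆ Set.Ico 0 1 :=
  fun _ hx => ⟨hx.1, by linarith [hx.2]⟩

theorem mom3_flip (i j k : ℕ) (p : ℝ × ℝ) : mom3f i j k (p.1, -p.2) = mom3f i j k p := by
  simp only [mom3f, lm, neg_sq]

theorem mom3_odd_lo {a b : ℝ} (ha : 0 ≤ a) (hb : 0 ≤ b) (hab : a ^ 2 + b ^ 2 ≤ 1) (i j k : ℕ) :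
    a * b * (1 / 2 * mom3O1 i j k + 3 / 8 * mom3O2 i j k (a ^ 2) (b ^ 2))
      ≤ ∫ p, p.1 * p.2 * mom3f i j k p * wt a b p ∂mu 3 := by
  have hc := mom3_cont i j k
  have i1 : Integrable (fun p : ℝ × ℝ => p.1 * p.2 * mom3f i j k p * wt a b p) (mu 3) :=
    integrable_cont_wt (g := fun p => p.1 * p.2 * mom3f i j k p) (by norm_num) hab (by fun_prop)
  have i2 : Integrable (fun p : ℝ × ℝ => p.1 * p.2 * mom3f i j k p * (0
      + 1 / 2 * (a * p.1 + b * p.2) ^ 2 + 3 / 8 * ((a * p.1 + b * p.2) ^ 2) ^ 2)) (mu 3) :=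
    integrable_cont (by norm_num) (by fun_prop)
  have e : (fun p : ℝ × ℝ => p.1 * p.2 * mom3f i j k p * (ww ((a * p.1 + b * p.2) ^ 2)
      - ((a * p.1 + b * p.2) ^ 2 / 2 + 3 / 8 * ((a * p.1 + b * p.2) ^ 2) ^ 2)))
      = fun p => p.1 * p.2 * mom3f i j k p * wt a b p - p.1 * p.2 * mom3f i j k p * (0
        + 1 / 2 * (a * p.1 + b * p.2) ^ 2 + 3 / 8 * ((a * p.1 + b * p.2) ^ 2) ^ 2) := by
    funext p
    rw [wt_eq]
    ring
  have h := corr_nonneg (n := 3) (by norm_num) ha hb hab (h := mom3f i j k)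
    (G := fun _ x => ww x - (x / 2 + 3 / 8 * x ^ 2)) (fun p hp => mom3_nonneg i j k hp)
    (mom3_flip i j k) (fun l hl _ => ww_lo_mono.mono (mom3_sub hl))
    (by rw [e]; exact i1.sub i2)
  rw [e, integral_sub i1 i2, mom3_odd_poly] at h
  linarith

theorem mom3_odd_hi {w a b : ℝ} (hw : w ^ 2 ≤ 1) (ha : 0 ≤ a) (hb : 0 ≤ b)
    (hab : a ^ 2 + b ^ 2 = 1) (i j k : ℕ) :
    ∫ p, p.1 * p.2 * mom3f i j k p * wt (w * a) (w * b) p ∂mu 3
      ≤ w * a * (w * b) * ((1 - (w ^ 2) ^ 2) / 2 * mom3O1 i j k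
        + 3 / 8 * (1 - w ^ 2) * mom3O2 i j k ((w * a) ^ 2) ((w * b) ^ 2))
        + (w ^ 2) ^ 3 * ∫ p, p.1 * p.2 * mom3f i j k p * wt a b p ∂mu 3 := by
  have hc := mom3_cont i j k
  have hab' : (w * a) ^ 2 + (w * b) ^ 2 ≤ 1 := by
    rw [show (w * a) ^ 2 + (w * b) ^ 2 = w ^ 2 * (a ^ 2 + b ^ 2) by ring, hab, mul_one]
    exact hw
  have i0 : Integrable (fun p : ℝ × ℝ => p.1 * p.2 * mom3f i j k p * wt (w * a) (w * b) p)
      (mu 3) :=
    integrable_cont_wt (g := fun p => p.1 * p.2 * mom3f i j k p) (by norm_num) hab' (by fun_prop)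
  have i1 : Integrable (fun p : ℝ × ℝ => p.1 * p.2 * mom3f i j k p * (1 - (w ^ 2) ^ 3
      + (1 - (w ^ 2) ^ 2) / 2 * (w * a * p.1 + w * b * p.2) ^ 2
      + 3 / 8 * (1 - w ^ 2) * ((w * a * p.1 + w * b * p.2) ^ 2) ^ 2)) (mu 3) :=
    integrable_cont (by norm_num) (by fun_prop)
  have i2 : Integrable (fun p : ℝ × ℝ => (w ^ 2) ^ 3 * (p.1 * p.2 * mom3f i j k p * wt a b p))
      (mu 3) :=
    (integrable_cont_wt (g := fun p => p.1 * p.2 * mom3f i j k p) (by norm_num) hab.le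
      (by fun_prop)).const_mul _
  have i12 : Integrable (fun p : ℝ × ℝ => p.1 * p.2 * mom3f i j k p * (1 - (w ^ 2) ^ 3
      + (1 - (w ^ 2) ^ 2) / 2 * (w * a * p.1 + w * b * p.2) ^ 2
      + 3 / 8 * (1 - w ^ 2) * ((w * a * p.1 + w * b * p.2) ^ 2) ^ 2)
      + (w ^ 2) ^ 3 * (p.1 * p.2 * mom3f i j k p * wt a b p)) (mu 3) := i1.add i2
  have e : (fun p : ℝ × ℝ => p.1 * p.2 * mom3f i j k p * (1 - (w ^ 2) ^ 3
      + (1 - (w ^ 2) ^ 2) * (w ^ 2 * (a * p.1 + b * p.2) ^ 2) / 2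
      + 3 / 8 * (1 - w ^ 2) * (w ^ 2 * (a * p.1 + b * p.2) ^ 2) ^ 2
      + (w ^ 2) ^ 3 * ww ((a * p.1 + b * p.2) ^ 2) - ww (w ^ 2 * (a * p.1 + b * p.2) ^ 2)))
      = fun p => p.1 * p.2 * mom3f i j k p * (1 - (w ^ 2) ^ 3
        + (1 - (w ^ 2) ^ 2) / 2 * (w * a * p.1 + w * b * p.2) ^ 2
        + 3 / 8 * (1 - w ^ 2) * ((w * a * p.1 + w * b * p.2) ^ 2) ^ 2)
        + (w ^ 2) ^ 3 * (p.1 * p.2 * mom3f i j k p * wt a b p)
        - p.1 * p.2 * mom3f i j k p * wt (w * a) (w * b) p := by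
    funext p
    rw [wt_eq, wt_eq, mom3_scale]
    ring
  have h := corr_nonneg (n := 3) (by norm_num) ha hb hab.le (h := mom3f i j k)
    (G := fun _ t => 1 - (w ^ 2) ^ 3 + (1 - (w ^ 2) ^ 2) * (w ^ 2 * t) / 2
      + 3 / 8 * (1 - w ^ 2) * (w ^ 2 * t) ^ 2 + (w ^ 2) ^ 3 * ww t - ww (w ^ 2 * t))
    (fun p hp => mom3_nonneg i j k hp)
    (mom3_flip i j k) (fun l hl _ => (ww_top_mono (sq_nonneg w) hw).mono (mom3_sub hl))
    (by rw [e]; exact i12.sub i0)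
  rw [e, integral_sub i12 i0, integral_add i1 i2, integral_const_mul, mom3_odd_poly] at h
  linarith

theorem mom3_phi {a b : ℝ} (hab : a ^ 2 + b ^ 2 ≤ 1) :
    T3.phH (a ^ 2) (b ^ 2) - T3.phG (a ^ 2) (b ^ 2) ≤ nphi 3 a b ∧
      nphi 3 a b ≤ T3.phH (a ^ 2) (b ^ 2) := by
  have hc := mom3_cont 1 0 0
  have e : nphi 3 a b
      = ∫ p, mom3f 1 0 0 p * Real.sqrt (1 - (a * p.1 + b * p.2) ^ 2) ∂mu 3 := by
    rw [nphi_mu (by norm_num)]
    simp only [mom3f, pow_zero, pow_one, mul_one]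
  have i0 : Integrable (fun p : ℝ × ℝ =>
      mom3f 1 0 0 p * Real.sqrt (1 - (a * p.1 + b * p.2) ^ 2)) (mu 3) :=
    integrable_cont (by norm_num) (by fun_prop)
  have h1 := mom3_even_poly a b 1 (-1 / 2) (-1 / 8) (-3 / 8) 1 0 0
  have h2 := mom3_even_poly a b 1 (-1 / 2) (-1 / 8) 0 1 0 0
  have e1 : T3.phH (a ^ 2) (b ^ 2) - T3.phG (a ^ 2) (b ^ 2) = 1 * mom3m 1 0 0
      + -1 / 2 * mom3E1 1 0 0 (a ^ 2) (b ^ 2) + -1 / 8 * mom3E2 1 0 0 (a ^ 2) (b ^ 2)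
      + -3 / 8 * mom3E3 1 0 0 (a ^ 2) (b ^ 2) := by
    simp only [T3.phH, T3.phG, mom3E1, mom3E2, mom3E3, mom3m, Finset.prod_range_succ,
      Finset.range_zero, Finset.prod_empty]
    push_cast
    ring
  have e2 : T3.phH (a ^ 2) (b ^ 2) = 1 * mom3m 1 0 0
      + -1 / 2 * mom3E1 1 0 0 (a ^ 2) (b ^ 2) + -1 / 8 * mom3E2 1 0 0 (a ^ 2) (b ^ 2)
      + 0 * mom3E3 1 0 0 (a ^ 2) (b ^ 2) := by
    simp only [T3.phH, mom3E1, mom3E2, mom3m, Finset.prod_range_succ,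
      Finset.range_zero, Finset.prod_empty]
    push_cast
    ring
  constructor
  · rw [e1, ← h1, e]
    refine integral_mono_ae (integrable_cont (by norm_num) (by fun_prop)) i0 ?_
    filter_upwards [mu_ae (n := 3) (by norm_num)] with p hp
    refine mul_le_mul_of_nonneg_left ?_ (mom3_nonneg 1 0 0 hp)
    have := sqrt_lo (sq_nonneg _) (mom3_lt hab hp).le
    linarith
  · rw [e2, ← h2, e]
    refine integral_mono_ae i0 (integrable_cont (by norm_num) (by fun_prop)) ?_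
    filter_upwards [mu_ae (n := 3) (by norm_num)] with p hp
    refine mul_le_mul_of_nonneg_left ?_ (mom3_nonneg 1 0 0 hp)
    have := sqrt_hi (sq_nonneg _) (mom3_lt hab hp).le
    linarith

theorem mom3_polar {a b : ℝ} (ha : 0 ≤ a) (hb : 0 ≤ b) (hab : a ^ 2 + b ^ 2 ≤ 1) :
    ∃ w a' b' : ℝ, w ^ 2 ≤ 1 ∧ 0 ≤ a' ∧ 0 ≤ b' ∧ a' ^ 2 + b' ^ 2 = 1 ∧ a = w * a' ∧ b = w * b' := by
  rcases eq_or_lt_of_le (add_nonneg (sq_nonneg a) (sq_nonneg b)) with h | h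
  · have h1 : a = 0 := pow_eq_zero_iff (two_ne_zero) |>.1 (by nlinarith [sq_nonneg a, sq_nonneg b])
    have h2 : b = 0 := pow_eq_zero_iff (two_ne_zero) |>.1 (by nlinarith [sq_nonneg a, sq_nonneg b])
    exact ⟨0, 1, 0, by norm_num, by norm_num, by norm_num, by norm_num, by simp [h1], by simp [h2]⟩
  · have hw : 0 < Real.sqrt (a ^ 2 + b ^ 2) := Real.sqrt_pos.2 h
    have hs : Real.sqrt (a ^ 2 + b ^ 2) ^ 2 = a ^ 2 + b ^ 2 := Real.sq_sqrt h.le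
    refine ⟨Real.sqrt (a ^ 2 + b ^ 2), a / Real.sqrt (a ^ 2 + b ^ 2), b / Real.sqrt (a ^ 2 + b ^ 2),
      hs ▸ hab, by positivity, by positivity, ?_, by field_simp, by field_simp⟩
    rw [div_pow, div_pow, hs, ← add_div, div_self h.ne']

theorem mom3_exists {c e L H : ℝ} (hc : 0 ≤ c) (h1 : c * L ≤ e) (h2 : e ≤ c * H) (h : L ≤ H) :
    ∃ t, e = c * t ∧ L ≤ t ∧ t ≤ H := by
  rcases eq_or_lt_of_le hc with h0 | h0
  · subst h0
    exact ⟨L, by linarith, le_rfl, h⟩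
  · refine ⟨e / c, by field_simp, ?_, ?_⟩
    · rw [le_div_iff₀ h0]
      linarith
    · rw [div_le_iff₀ h0]
      linarith

theorem mom3_vk : vk ≤ 105 * (3141593 / 1000000) / 1536 := by
  have := Real.pi_lt_d6
  unfold vk
  norm_num at this ⊢
  linarith

theorem mom3_forms (a b : ℝ) :
    (nmo 3 a b).Wr = ∫ p, mom3f 2 0 0 p * wt a b p ∂mu 3 ∧
    (nmo 3 a b).Be = ∫ p, mom3f 1 1 0 p * wt a b p ∂mu 3 ∧
    3 * (nmo 3 a b).Bl = ∫ p, mom3f 1 0 1 p * wt a b p ∂mu 3 ∧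
    3 * (nmo 3 a b).mup = ∫ p, mom3f 0 0 2 p * wt a b p ∂mu 3 ∧
    3 * (nmo 3 a b).m22 = ∫ p, mom3f 0 1 1 p * wt a b p ∂mu 3 ∧
    (nmo 3 a b).m40 = ∫ p, mom3f 0 2 0 p * wt a b p ∂mu 3 ∧
    (nmo 3 a b).e1 = ∫ p, p.1 * p.2 * mom3f 1 0 0 p * wt a b p ∂mu 3 ∧
    (nmo 3 a b).e2 = ∫ p, p.1 * p.2 * mom3f 0 0 1 p * wt a b p ∂mu 3 := by
  obtain ⟨h1, h2, h3, h4, h5, h6, h7, h8⟩ := nmo_mu (n := 3) (by norm_num) a b
  have key : ∀ x : ℝ, 3 * (x / ((3 : ℕ) : ℝ)) = x := fun x => by push_cast; ring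
  rw [h1, h2, h3, h4, h5, h6, h7, h8, key, key, key]
  refine ⟨?_, ?_, ?_, ?_, ?_, ?_, ?_, ?_⟩ <;>
  · refine integral_congr_ae (Filter.Eventually.of_forall fun p => ?_)
    simp only [mom3f]
    ring

theorem mom3_WrL (P s : ℝ) : 1 * T3.WrL P s
    = mom3m 2 0 0 + 1 / 2 * mom3E1 2 0 0 P s + 3 / 8 * mom3E2 2 0 0 P s := by
  simp only [T3.WrL, mom3E1, mom3E2, mom3m, Finset.prod_range_succ, Finset.range_zero,
    Finset.prod_empty]
  push_cast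
  ring

theorem mom3_WrH {P s : ℝ} (hP : 0 ≤ P) (hs : 0 ≤ s) :
    (1 - (P + s) ^ 3) * mom3m 2 0 0 + (1 - (P + s) ^ 2) / 2 * mom3E1 2 0 0 P s
      + 3 / 8 * (1 - (P + s)) * mom3E2 2 0 0 P s
      + 1 * (vk * (5 * P ^ 3 + 45 / 4 * P ^ 2 * s + 75 / 8 * P * s ^ 2 + 175 / 64 * s ^ 3))
      ≤ 1 * (T3.WrL P s + T3.WrG P s) := by
  have h := mul_le_mul_of_nonneg_right mom3_vk
    (show 0 ≤ 5 * P ^ 3 + 45 / 4 * P ^ 2 * s + 75 / 8 * P * s ^ 2 + 175 / 64 * s ^ 3 by positivity)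
  have h1 : 0 ≤ P ^ 3 := by positivity
  have h2 : 0 ≤ P ^ 2 * s := by positivity
  have h3 : 0 ≤ P * s ^ 2 := by positivity
  have h4 : 0 ≤ s ^ 3 := by positivity
  simp only [T3.WrL, T3.WrG, mom3E1, mom3E2, mom3m, Finset.prod_range_succ, Finset.range_zero,
    Finset.prod_empty]
  push_cast
  linarith

theorem mom3_BeL (P s : ℝ) : 1 * T3.BeL P s
    = mom3m 1 1 0 + 1 / 2 * mom3E1 1 1 0 P s + 3 / 8 * mom3E2 1 1 0 P s := by
  simp only [T3.BeL, mom3E1, mom3E2, mom3m, Finset.prod_range_succ, Finset.range_zero,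
    Finset.prod_empty]
  push_cast
  ring

theorem mom3_BeH {P s : ℝ} (hP : 0 ≤ P) (hs : 0 ≤ s) :
    (1 - (P + s) ^ 3) * mom3m 1 1 0 + (1 - (P + s) ^ 2) / 2 * mom3E1 1 1 0 P s
      + 3 / 8 * (1 - (P + s)) * mom3E2 1 1 0 P s
      + 1 * (vk * (3 / 4 * P ^ 3 + 11 / 4 * P ^ 2 * s + 143 / 64 * P * s ^ 2 + 5 / 8 * s ^ 3))
      ≤ 1 * (T3.BeL P s + T3.BeG P s) := by
  have h := mul_le_mul_of_nonneg_right mom3_vk
    (show 0 ≤ 3 / 4 * P ^ 3 + 11 / 4 * P ^ 2 * s + 143 / 64 * P * s ^ 2 + 5 / 8 * s ^ 3 by positivity)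
  have h1 : 0 ≤ P ^ 3 := by positivity
  have h2 : 0 ≤ P ^ 2 * s := by positivity
  have h3 : 0 ≤ P * s ^ 2 := by positivity
  have h4 : 0 ≤ s ^ 3 := by positivity
  simp only [T3.BeL, T3.BeG, mom3E1, mom3E2, mom3m, Finset.prod_range_succ, Finset.range_zero,
    Finset.prod_empty]
  push_cast
  linarith

theorem mom3_BlL (P s : ℝ) : 3 * T3.BlL P s
    = mom3m 1 0 1 + 1 / 2 * mom3E1 1 0 1 P s + 3 / 8 * mom3E2 1 0 1 P s := by
  simp only [T3.BlL, mom3E1, mom3E2, mom3m, Finset.prod_range_succ, Finset.range_zero,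
    Finset.prod_empty]
  push_cast
  ring

theorem mom3_BlH {P s : ℝ} (hP : 0 ≤ P) (hs : 0 ≤ s) :
    (1 - (P + s) ^ 3) * mom3m 1 0 1 + (1 - (P + s) ^ 2) / 2 * mom3E1 1 0 1 P s
      + 3 / 8 * (1 - (P + s)) * mom3E2 1 0 1 P s
      + 3 * (vk * ((P + s) * (3 / 4 * P ^ 2 + 5 / 4 * P * s + 35 / 64 * s ^ 2)))
      ≤ 3 * (T3.BlL P s + T3.BlG P s) := by
  have h := mul_le_mul_of_nonneg_right mom3_vk
    (show 0 ≤ (P + s) * (3 / 4 * P ^ 2 + 5 / 4 * P * s + 35 / 64 * s ^ 2) by positivity)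
  have h1 : 0 ≤ P ^ 3 := by positivity
  have h2 : 0 ≤ P ^ 2 * s := by positivity
  have h3 : 0 ≤ P * s ^ 2 := by positivity
  have h4 : 0 ≤ s ^ 3 := by positivity
  simp only [T3.BlL, T3.BlG, mom3E1, mom3E2, mom3m, Finset.prod_range_succ, Finset.range_zero,
    Finset.prod_empty]
  push_cast
  linarith

theorem mom3_mupL (P s : ℝ) : 3 * T3.mupL P s
    = mom3m 0 0 2 + 1 / 2 * mom3E1 0 0 2 P s + 3 / 8 * mom3E2 0 0 2 P s := by
  simp only [T3.mupL, mom3E1, mom3E2, mom3m, Finset.prod_range_succ, Finset.range_zero,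
    Finset.prod_empty]
  push_cast
  ring

theorem mom3_mupH {P s : ℝ} (hP : 0 ≤ P) (hs : 0 ≤ s) :
    (1 - (P + s) ^ 3) * mom3m 0 0 2 + (1 - (P + s) ^ 2) / 2 * mom3E1 0 0 2 P s
      + 3 / 8 * (1 - (P + s)) * mom3E2 0 0 2 P s
      + 3 * (vk * ((P + s) ^ 2 * (25 / 24 * P + 175 / 192 * s)))
      ≤ 3 * (T3.mupL P s + T3.mupG P s) := by
  have h := mul_le_mul_of_nonneg_right mom3_vk
    (show 0 ≤ (P + s) ^ 2 * (25 / 24 * P + 175 / 192 * s) by positivity)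
  have h1 : 0 ≤ P ^ 3 := by positivity
  have h2 : 0 ≤ P ^ 2 * s := by positivity
  have h3 : 0 ≤ P * s ^ 2 := by positivity
  have h4 : 0 ≤ s ^ 3 := by positivity
  simp only [T3.mupL, T3.mupG, mom3E1, mom3E2, mom3m, Finset.prod_range_succ, Finset.range_zero,
    Finset.prod_empty]
  push_cast
  linarith

theorem mom3_m22L (P s : ℝ) : 3 * T3.m22L P s
    = mom3m 0 1 1 + 1 / 2 * mom3E1 0 1 1 P s + 3 / 8 * mom3E2 0 1 1 P s := by
  simp only [T3.m22L, mom3E1, mom3E2, mom3m, Finset.prod_range_succ, Finset.range_zero,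
    Finset.prod_empty]
  push_cast
  ring

theorem mom3_m22H {P s : ℝ} (hP : 0 ≤ P) (hs : 0 ≤ s) :
    (1 - (P + s) ^ 3) * mom3m 0 1 1 + (1 - (P + s) ^ 2) / 2 * mom3E1 0 1 1 P s
      + 3 / 8 * (1 - (P + s)) * mom3E2 0 1 1 P s
      + 3 * (vk * ((P + s) * (5 / 24 * P ^ 2 + 89 / 192 * P * s + 5 / 24 * s ^ 2)))
      ≤ 3 * (T3.m22L P s + T3.m22G P s) := by
  have h := mul_le_mul_of_nonneg_right mom3_vk
    (show 0 ≤ (P + s) * (5 / 24 * P ^ 2 + 89 / 192 * P * s + 5 / 24 * s ^ 2) by positivity)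
  have h1 : 0 ≤ P ^ 3 := by positivity
  have h2 : 0 ≤ P ^ 2 * s := by positivity
  have h3 : 0 ≤ P * s ^ 2 := by positivity
  have h4 : 0 ≤ s ^ 3 := by positivity
  simp only [T3.m22L, T3.m22G, mom3E1, mom3E2, mom3m, Finset.prod_range_succ, Finset.range_zero,
    Finset.prod_empty]
  push_cast
  linarith

theorem mom3_m40L (P s : ℝ) : 1 * T3.m40L P s
    = mom3m 0 2 0 + 1 / 2 * mom3E1 0 2 0 P s + 3 / 8 * mom3E2 0 2 0 P s := by
  simp only [T3.m40L, mom3E1, mom3E2, mom3m, Finset.prod_range_succ, Finset.range_zero,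
    Finset.prod_empty]
  push_cast
  ring

theorem mom3_m40H {P s : ℝ} (hP : 0 ≤ P) (hs : 0 ≤ s) :
    (1 - (P + s) ^ 3) * mom3m 0 2 0 + (1 - (P + s) ^ 2) / 2 * mom3E1 0 2 0 P s
      + 3 / 8 * (1 - (P + s)) * mom3E2 0 2 0 P s
      + 1 * (vk * (5 / 8 * P ^ 3 + 143 / 64 * P ^ 2 * s + 11 / 4 * P * s ^ 2 + 3 / 4 * s ^ 3))
      ≤ 1 * (T3.m40L P s + T3.m40G P s) := by
  have h := mul_le_mul_of_nonneg_right mom3_vk
    (show 0 ≤ 5 / 8 * P ^ 3 + 143 / 64 * P ^ 2 * s + 11 / 4 * P * s ^ 2 + 3 / 4 * s ^ 3 by positivity)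
  have h1 : 0 ≤ P ^ 3 := by positivity
  have h2 : 0 ≤ P ^ 2 * s := by positivity
  have h3 : 0 ≤ P * s ^ 2 := by positivity
  have h4 : 0 ≤ s ^ 3 := by positivity
  simp only [T3.m40L, T3.m40G, mom3E1, mom3E2, mom3m, Finset.prod_range_succ, Finset.range_zero,
    Finset.prod_empty]
  push_cast
  linarith

theorem mom3_e1L (P s : ℝ) : T3.e1L P s
    = 1 / 2 * mom3O1 1 0 0 + 3 / 8 * mom3O2 1 0 0 P s := by
  simp only [T3.e1L, mom3O1, mom3O2, mom3m, Finset.prod_range_succ, Finset.range_zero,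
    Finset.prod_empty]
  push_cast
  ring

theorem mom3_e1H {P s : ℝ} (hP : 0 ≤ P) (hs : 0 ≤ s) :
    (1 - (P + s) ^ 2) / 2 * mom3O1 1 0 0 + 3 / 8 * (1 - (P + s)) * mom3O2 1 0 0 P s
      + vk * (5 / 4 * P ^ 2 + 5 / 4 * P * s + 25 / 64 * s ^ 2)
      ≤ T3.e1L P s + T3.e1G P s := by
  have h := mul_le_mul_of_nonneg_right mom3_vk
    (show 0 ≤ 5 / 4 * P ^ 2 + 5 / 4 * P * s + 25 / 64 * s ^ 2 by positivity)
  have h1 : 0 ≤ P ^ 2 := by positivity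
  have h2 : 0 ≤ P * s := by positivity
  have h3 : 0 ≤ s ^ 2 := by positivity
  simp only [T3.e1L, T3.e1G, mom3O1, mom3O2, mom3m, Finset.prod_range_succ, Finset.range_zero,
    Finset.prod_empty]
  push_cast
  linarith

theorem mom3_e2L (P s : ℝ) : T3.e2L P s
    = 1 / 2 * mom3O1 0 0 1 + 3 / 8 * mom3O2 0 0 1 P s := by
  simp only [T3.e2L, mom3O1, mom3O2, mom3m, Finset.prod_range_succ, Finset.range_zero,
    Finset.prod_empty]
  push_cast
  ring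

theorem mom3_e2H {P s : ℝ} (hP : 0 ≤ P) (hs : 0 ≤ s) :
    (1 - (P + s) ^ 2) / 2 * mom3O1 0 0 1 + 3 / 8 * (1 - (P + s)) * mom3O2 0 0 1 P s
      + vk * ((P + s) * (3 / 8 * P + 15 / 64 * s))
      ≤ T3.e2L P s + T3.e2G P s := by
  have h := mul_le_mul_of_nonneg_right mom3_vk
    (show 0 ≤ (P + s) * (3 / 8 * P + 15 / 64 * s) by positivity)
  have h1 : 0 ≤ P ^ 2 := by positivity
  have h2 : 0 ≤ P * s := by positivity
  have h3 : 0 ≤ s ^ 2 := by positivity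
  simp only [T3.e2L, T3.e2G, mom3O1, mom3O2, mom3m, Finset.prod_range_succ, Finset.range_zero,
    Finset.prod_empty]
  push_cast
  linarith

theorem box3 {a b : ℝ} (ha : 0 ≤ a) (hb : 0 ≤ b) (hab : a ^ 2 + b ^ 2 ≤ 1) :
    ∃ t1 t2 : ℝ, (nmo 3 a b).e1 = a * b * t1 ∧ (nmo 3 a b).e2 = a * b * t2 ∧
      T3.Box (a ^ 2) (b ^ 2) (nmo 3 a b) t1 t2 (nphi 3 a b) := by
  have hc : 0 ≤ a * b := mul_nonneg ha hb
  have hph := mom3_phi hab
  have hP := sq_nonneg a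
  have hs := sq_nonneg b
  obtain ⟨fWr, fBe, fBl, fmup, fm22, fm40, fe1, fe2⟩ := mom3_forms a b
  have lWr : T3.WrL (a ^ 2) (b ^ 2) ≤ (nmo 3 a b).Wr := by
    have h1 := mom3_even_lo hab 2 0 0
    rw [← fWr, ← mom3_WrL] at h1
    linarith only [h1]
  have lBe : T3.BeL (a ^ 2) (b ^ 2) ≤ (nmo 3 a b).Be := by
    have h1 := mom3_even_lo hab 1 1 0
    rw [← fBe, ← mom3_BeL] at h1
    linarith only [h1]
  have lBl : T3.BlL (a ^ 2) (b ^ 2) ≤ (nmo 3 a b).Bl := by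
    have h1 := mom3_even_lo hab 1 0 1
    rw [← fBl, ← mom3_BlL] at h1
    linarith only [h1]
  have lmup : T3.mupL (a ^ 2) (b ^ 2) ≤ (nmo 3 a b).mup := by
    have h1 := mom3_even_lo hab 0 0 2
    rw [← fmup, ← mom3_mupL] at h1
    linarith only [h1]
  have lm22 : T3.m22L (a ^ 2) (b ^ 2) ≤ (nmo 3 a b).m22 := by
    have h1 := mom3_even_lo hab 0 1 1
    rw [← fm22, ← mom3_m22L] at h1
    linarith only [h1]
  have lm40 : T3.m40L (a ^ 2) (b ^ 2) ≤ (nmo 3 a b).m40 := by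
    have h1 := mom3_even_lo hab 0 2 0
    rw [← fm40, ← mom3_m40L] at h1
    linarith only [h1]
  have le1 : a * b * T3.e1L (a ^ 2) (b ^ 2) ≤ (nmo 3 a b).e1 := by
    have h1 := mom3_odd_lo ha hb hab 1 0 0
    rwa [← fe1, ← mom3_e1L] at h1
  have le2 : a * b * T3.e2L (a ^ 2) (b ^ 2) ≤ (nmo 3 a b).e2 := by
    have h1 := mom3_odd_lo ha hb hab 0 0 1
    rwa [← fe2, ← mom3_e2L] at h1
  obtain ⟨w, a', b', hw, ha', hb', hu, rfl, rfl⟩ := mom3_polar ha hb hab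
  have hv : w ^ 2 = (w * a') ^ 2 + (w * b') ^ 2 := by linear_combination (-w ^ 2) * hu
  obtain ⟨gWr, gBe, gBl, gmup, gm22, gm40, ge1, ge2⟩ := mom3_forms a' b'
  obtain ⟨tWr, tBe, tBl, tmup, tm22, tm40, te1, te2⟩ := top_mo hu
  have uWr : (nmo 3 (w * a') (w * b')).Wr ≤ T3.WrL ((w * a') ^ 2) ((w * b') ^ 2)
      + T3.WrG ((w * a') ^ 2) ((w * b') ^ 2) := by
    have h1 := mom3_even_hi hw hu 2 0 0
    have h2 := mom3_WrH hP hs
    rw [← fWr, ← gWr, tWr] at h1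
    rw [← hv] at h2
    linarith only [h1, h2]
  have uBe : (nmo 3 (w * a') (w * b')).Be ≤ T3.BeL ((w * a') ^ 2) ((w * b') ^ 2)
      + T3.BeG ((w * a') ^ 2) ((w * b') ^ 2) := by
    have h1 := mom3_even_hi hw hu 1 1 0
    have h2 := mom3_BeH hP hs
    rw [← fBe, ← gBe, tBe] at h1
    rw [← hv] at h2
    linarith only [h1, h2]
  have uBl : (nmo 3 (w * a') (w * b')).Bl ≤ T3.BlL ((w * a') ^ 2) ((w * b') ^ 2)
      + T3.BlG ((w * a') ^ 2) ((w * b') ^ 2) := by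
    have h1 := mom3_even_hi hw hu 1 0 1
    have h2 := mom3_BlH hP hs
    rw [← fBl, ← gBl, tBl] at h1
    rw [← hv] at h2
    linarith only [h1, h2]
  have umup : (nmo 3 (w * a') (w * b')).mup ≤ T3.mupL ((w * a') ^ 2) ((w * b') ^ 2)
      + T3.mupG ((w * a') ^ 2) ((w * b') ^ 2) := by
    have h1 := mom3_even_hi hw hu 0 0 2
    have h2 := mom3_mupH hP hs
    rw [← fmup, ← gmup, tmup] at h1
    rw [← hv] at h2
    linarith only [h1, h2]
  have um22 : (nmo 3 (w * a') (w * b')).m22 ≤ T3.m22L ((w * a') ^ 2) ((w * b') ^ 2)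
      + T3.m22G ((w * a') ^ 2) ((w * b') ^ 2) := by
    have h1 := mom3_even_hi hw hu 0 1 1
    have h2 := mom3_m22H hP hs
    rw [← fm22, ← gm22, tm22] at h1
    rw [← hv] at h2
    linarith only [h1, h2]
  have um40 : (nmo 3 (w * a') (w * b')).m40 ≤ T3.m40L ((w * a') ^ 2) ((w * b') ^ 2)
      + T3.m40G ((w * a') ^ 2) ((w * b') ^ 2) := by
    have h1 := mom3_even_hi hw hu 0 2 0
    have h2 := mom3_m40H hP hs
    rw [← fm40, ← gm40, tm40] at h1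
    rw [← hv] at h2
    linarith only [h1, h2]
  have ue1 : (nmo 3 (w * a') (w * b')).e1 ≤ w * a' * (w * b') *
      (T3.e1L ((w * a') ^ 2) ((w * b') ^ 2) + T3.e1G ((w * a') ^ 2) ((w * b') ^ 2)) := by
    have h1 := mom3_odd_hi hw ha' hb' hu 1 0 0
    have h2 := mom3_e1H hP hs
    rw [← fe1, ← ge1, te1] at h1
    rw [← hv] at h2
    have h3 := mul_le_mul_of_nonneg_left h2 hc
    linarith only [h1, h3]
  have ue2 : (nmo 3 (w * a') (w * b')).e2 ≤ w * a' * (w * b') *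
      (T3.e2L ((w * a') ^ 2) ((w * b') ^ 2) + T3.e2G ((w * a') ^ 2) ((w * b') ^ 2)) := by
    have h1 := mom3_odd_hi hw ha' hb' hu 0 0 1
    have h2 := mom3_e2H hP hs
    rw [← fe2, ← ge2, te2] at h1
    rw [← hv] at h2
    have h3 := mul_le_mul_of_nonneg_left h2 hc
    linarith only [h1, h3]
  obtain ⟨t1, h1, h1l, h1u⟩ := mom3_exists hc le1 ue1
    (le_add_of_nonneg_right (by unfold T3.e1G; positivity))
  obtain ⟨t2, h2, h2l, h2u⟩ := mom3_exists hc le2 ue2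
    (le_add_of_nonneg_right (by unfold T3.e2G; positivity))
  exact ⟨t1, t2, h1, h2, lWr, uWr, lBe, uBe, lBl, uBl, lmup, umup, lm22, um22, lm40, um40,
    h1l, h1u, h2l, h2u, hph.1, hph.2⟩

end Pool.Agent.Ped
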