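import Pool.Agent.P.MP_e09f5c_gt.A3Defs

/-! Elementary integrals over the angle. -/

open MeasureTheory Real

namespace Pool.Agent.Ped

theorem th_cos_gen (f F : ℝ → ℝ) (hf : Continuous f) (hF : ∀ x, HasDerivAt F (f x) x) :
    ∫ θ in (-π)..π, |cos θ| * f (sin θ) = 2 * (F 1 - F (-1)) := by
  have hc : Continuous fun θ : ℝ => |cos θ| * f (sin θ) := by fun_prop
  have hc2 : Continuous fun θ : ℝ => cos θ * f (sin θ) := by fun_prop
  have hd : ∀ θ : ℝ, HasDerivAt (fun θ => F (sin θ)) (cos θ * f (sin θ)) θ := fun θ => by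
    have := (hF (sin θ)).comp θ (hasDerivAt_sin θ)
    rw [mul_comm] at this
    exact this
  have hI : ∀ a b : ℝ, ∫ θ in a..b, cos θ * f (sin θ) = F (sin b) - F (sin a) := fun a b =>
    intervalIntegral.integral_eq_sub_of_hasDerivAt (fun x _ => hd x) (hc2.intervalIntegrable _ _)
  have hpi := pi_pos
  have e1 : ∫ θ in (-π)..(-(π / 2)), |cos θ| * f (sin θ) = F 0 - F (-1) := by
    have : ∫ θ in (-π)..(-(π / 2)), |cos θ| * f (sin θ)
        = ∫ θ in (-π)..(-(π / 2)), -(cos θ * f (sin θ)) := by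
      apply intervalIntegral.integral_congr
      intro x hx
      rw [Set.uIcc_of_le (by linarith)] at hx
      have : cos x ≤ 0 := by
        rw [← cos_neg]
        exact cos_nonpos_of_pi_div_two_le_of_le (by linarith [hx.2]) (by linarith [hx.1])
      simp only [abs_of_nonpos this]
      ring
    rw [this, intervalIntegral.integral_neg, hI]
    simp
  have e2 : ∫ θ in (-(π / 2))..(π / 2), |cos θ| * f (sin θ) = F 1 - F (-1) := by
    have : ∫ θ in (-(π / 2))..(π / 2), |cos θ| * f (sin θ)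
        = ∫ θ in (-(π / 2))..(π / 2), cos θ * f (sin θ) := by
      apply intervalIntegral.integral_congr
      intro x hx
      rw [Set.uIcc_of_le (by linarith)] at hx
      have : 0 ≤ cos x := cos_nonneg_of_mem_Icc hx
      simp only [abs_of_nonneg this]
    rw [this, hI]
    simp
  have e3 : ∫ θ in (π / 2)..π, |cos θ| * f (sin θ) = F 1 - F 0 := by
    have : ∫ θ in (π / 2)..π, |cos θ| * f (sin θ)
        = ∫ θ in (π / 2)..π, -(cos θ * f (sin θ)) := by
      apply intervalIntegral.integral_congr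
      intro x hx
      rw [Set.uIcc_of_le (by linarith)] at hx
      have : cos x ≤ 0 :=
        cos_nonpos_of_pi_div_two_le_of_le hx.1 (by linarith [hx.2])
      simp only [abs_of_nonpos this]
      ring
    rw [this, intervalIntegral.integral_neg, hI]
    simp
  rw [← intervalIntegral.integral_add_adjacent_intervals (b := -(π / 2))
      (hc.intervalIntegrable _ _) (hc.intervalIntegrable _ _),
    ← intervalIntegral.integral_add_adjacent_intervals (a := -(π / 2)) (b := π / 2)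
      (hc.intervalIntegrable _ _) (hc.intervalIntegrable _ _), e1, e2, e3]
  ring

theorem th_sin_gen (f F : ℝ → ℝ) (hf : Continuous f) (hF : ∀ x, HasDerivAt F (f x) x) :
    ∫ θ in (-π)..π, |sin θ| * f (cos θ) = 2 * (F 1 - F (-1)) := by
  have hc : Continuous fun θ : ℝ => |sin θ| * f (cos θ) := by fun_prop
  have hc2 : Continuous fun θ : ℝ => -(sin θ * f (cos θ)) := by fun_prop
  have hd : ∀ θ : ℝ, HasDerivAt (fun θ => F (cos θ)) (-(sin θ * f (cos θ))) θ := fun θ => by
    have := (hF (cos θ)).comp θ (hasDerivAt_cos θ)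
    have e : f (cos θ) * -sin θ = -(sin θ * f (cos θ)) := by ring
    rw [e] at this
    exact this
  have hI : ∀ a b : ℝ, ∫ θ in a..b, -(sin θ * f (cos θ)) = F (cos b) - F (cos a) := fun a b =>
    intervalIntegral.integral_eq_sub_of_hasDerivAt (fun x _ => hd x) (hc2.intervalIntegrable _ _)
  have hpi := pi_pos
  have e1 : ∫ θ in (-π)..0, |sin θ| * f (cos θ) = F 1 - F (-1) := by
    have : ∫ θ in (-π)..0, |sin θ| * f (cos θ) = ∫ θ in (-π)..0, -(sin θ * f (cos θ)) := by
      apply intervalIntegral.integral_congr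
      intro x hx
      rw [Set.uIcc_of_le (by linarith)] at hx
      have : sin x ≤ 0 := sin_nonpos_of_nonpos_of_neg_pi_le hx.2 hx.1
      simp only [abs_of_nonpos this]
      ring
    rw [this, hI]
    simp
  have e2 : ∫ θ in (0 : ℝ)..π, |sin θ| * f (cos θ) = F 1 - F (-1) := by
    have : ∫ θ in (0 : ℝ)..π, |sin θ| * f (cos θ)
        = ∫ θ in (0 : ℝ)..π, -(-(sin θ * f (cos θ))) := by
      apply intervalIntegral.integral_congr
      intro x hx
      rw [Set.uIcc_of_le (by linarith)] at hx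
      have : 0 ≤ sin x := sin_nonneg_of_nonneg_of_le_pi hx.1 hx.2
      simp only [abs_of_nonneg this]
      ring
    rw [this, intervalIntegral.integral_neg, hI]
    simp
  rw [← intervalIntegral.integral_add_adjacent_intervals (b := 0)
      (hc.intervalIntegrable _ _) (hc.intervalIntegrable _ _), e1, e2]
  ring

theorem int_cos_sin (k : ℕ) :
    ∫ θ in (-π)..π, |cos θ| * (sin θ ^ 2) ^ k = 4 / (2 * k + 1) := by
  have hk : (2 * (k : ℝ) + 1) ≠ 0 := by positivity
  have h := th_cos_gen (fun x => (x ^ 2) ^ k) (fun x => x ^ (2 * k + 1) / (2 * k + 1))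
    (by fun_prop) (fun x => by
      have := (hasDerivAt_pow (2 * k + 1) x).div_const (2 * (k : ℝ) + 1)
      have e : ((2 * k + 1 : ℕ) : ℝ) * x ^ (2 * k + 1 - 1) / (2 * (k : ℝ) + 1) = (x ^ 2) ^ k := by
        rw [Nat.add_sub_cancel, pow_mul]
        push_cast
        field_simp
      rw [e] at this
      exact this)
  rw [h]
  have e : (-1 : ℝ) ^ (2 * k + 1) = -1 := by
    rw [pow_succ, pow_mul]; simp
  simp only [e, one_pow]
  field_simp
  ring

theorem int_cos_poly (a0 a1 a2 a3 a4 a5 : ℝ) :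
    ∫ θ in (-π)..π, |cos θ| * (a0 + a1 * sin θ ^ 2 + a2 * (sin θ ^ 2) ^ 2 + a3 * (sin θ ^ 2) ^ 3
      + a4 * (sin θ ^ 2) ^ 4 + a5 * (sin θ ^ 2) ^ 5)
      = 4 * (a0 + a1 / 3 + a2 / 5 + a3 / 7 + a4 / 9 + a5 / 11) := by
  have h := th_cos_gen
    (fun x => a0 + a1 * x ^ 2 + a2 * (x ^ 2) ^ 2 + a3 * (x ^ 2) ^ 3 + a4 * (x ^ 2) ^ 4
      + a5 * (x ^ 2) ^ 5)
    (fun x => a0 * x + a1 / 3 * x ^ 3 + a2 / 5 * x ^ 5 + a3 / 7 * x ^ 7 + a4 / 9 * x ^ 9
      + a5 / 11 * x ^ 11)
    (by fun_prop) (fun x => by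
      have := ((((((hasDerivAt_id' x).const_mul a0).add
        ((hasDerivAt_pow 3 x).const_mul (a1 / 3))).add
        ((hasDerivAt_pow 5 x).const_mul (a2 / 5))).add
        ((hasDerivAt_pow 7 x).const_mul (a3 / 7))).add
        ((hasDerivAt_pow 9 x).const_mul (a4 / 9))).add
        ((hasDerivAt_pow 11 x).const_mul (a5 / 11))
      refine HasDerivAt.congr_deriv this ?_
      norm_num
      ring)
  rw [h]
  ring

theorem continuous_Jf {q β : ℝ} (hq : 0 < q) (hβ : 0 ≤ β) :
    Continuous fun θ : ℝ => Jf q β (cos θ) (sin θ) := by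
  unfold Jf
  refine Continuous.div (by fun_prop) (by fun_prop) fun θ => ?_
  exact (Real.sqrt_pos.2 (by positivity)).ne'

theorem int_Jf {q β : ℝ} (hq : 0 < q) (hβ : 0 < β) :
    ∫ θ in (-π)..π, Jf q β (cos θ) (sin θ) = 4 * q / √β * arsinh (√β / √q) := by
  have hsq : 0 < √q := Real.sqrt_pos.2 hq
  have hsb : 0 < √β := Real.sqrt_pos.2 hβ
  have h := th_sin_gen (fun x => q / √(q + β * x ^ 2))
    (fun x => q / √β * arsinh (√β / √q * x))
    (Continuous.div (by fun_prop) (by fun_prop) fun x =>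
      (Real.sqrt_pos.2 (by positivity)).ne')
    (fun x => by
      have := ((hasDerivAt_arsinh (√β / √q * x)).comp x
        ((hasDerivAt_id' x).const_mul (√β / √q))).const_mul (q / √β)
      refine HasDerivAt.congr_deriv this ?_
      have e : √(q + β * x ^ 2) = √q * √(1 + (√β / √q * x) ^ 2) := by
        rw [← Real.sqrt_mul hq.le]
        congr 1
        rw [mul_pow, div_pow, Real.sq_sqrt hq.le, Real.sq_sqrt hβ.le]
        field_simp
      have hp : 0 < √(1 + (√β / √q * x) ^ 2) := Real.sqrt_pos.2 (by positivity)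
      rw [e]
      field_simp)
  have e : ∀ θ : ℝ, Jf q β (cos θ) (sin θ) = |sin θ| * (q / √(q + β * cos θ ^ 2)) := fun θ => by
    unfold Jf
    ring
  simp only [e]
  rw [h]
  simp only [mul_one, mul_neg, arsinh_neg]
  ring

theorem th_arsinh_le {x : ℝ} (hx : 0 < x) : arsinh x ≤ log (2 * x) + 1 / (4 * x ^ 2) := by
  have h1 : √(1 + x ^ 2) ≤ x + 1 / (2 * x) := by
    rw [Real.sqrt_le_left (by positivity)]
    have e : (x + 1 / (2 * x)) ^ 2 = 1 + x ^ 2 + (1 / (2 * x)) ^ 2 := by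
      field_simp
      ring
    rw [e]
    linarith [sq_nonneg (1 / (2 * x))]
  have h2 : x + √(1 + x ^ 2) ≤ 2 * x * (1 + 1 / (4 * x ^ 2)) := by
    have e : 2 * x * (1 + 1 / (4 * x ^ 2)) = x + (x + 1 / (2 * x)) := by
      field_simp
      ring
    rw [e]
    linarith
  have h3 : log (1 + 1 / (4 * x ^ 2)) ≤ 1 / (4 * x ^ 2) := by
    have := log_le_sub_one_of_pos (show 0 < 1 + 1 / (4 * x ^ 2) by positivity)
    linarith
  have h4 : arsinh x ≤ log (2 * x * (1 + 1 / (4 * x ^ 2))) := by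
    unfold arsinh
    exact log_le_log (by positivity) h2
  rw [log_mul (by positivity) (by positivity)] at h4
  linarith

theorem th_bound {q β s : ℝ} (k : ℕ) (hq : 0 < q) (h1 : q ≤ 3 / 100) (hβ : 0 < β)
    (hs : 0 < s) (hsb : s ^ 2 ≤ β) :
    ∫ θ in (-π)..π, Jf q β (cos θ) (sin θ)
      ≤ 4 / s * (2 * β / 4 ^ k + q * (k * 0.6931471808 - 1 / 2 + 3 / 100 / (4 * β))) := by
  rw [int_Jf hq hβ]
  have hsq : 0 < √q := Real.sqrt_pos.2 hq
  have hsβ : 0 < √β := Real.sqrt_pos.2 hβ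
  have hs2 : s ≤ √β := Real.le_sqrt_of_sq_le hsb
  have hx : 0 < √β / √q := by positivity
  have ha := th_arsinh_le hx
  have e1 : (√β / √q) ^ 2 = β / q := by
    rw [div_pow, Real.sq_sqrt hq.le, Real.sq_sqrt hβ.le]
  have e2 : 2 * log (2 * (√β / √q)) = 2 * (k * log 2) + log (4 * β / 4 ^ k / q) := by
    have a1 : 2 * log (2 * (√β / √q)) = log ((2 * (√β / √q)) ^ 2) := by
      rw [log_pow]; norm_num
    have a2 : 2 * (k * log 2) = log (((2 : ℝ) ^ k) ^ 2) := by
      rw [log_pow, log_pow]; norm_num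
    rw [a1, a2, ← log_mul (by positivity) (by positivity), mul_pow, e1]
    congr 1
    have a3 : ((2 : ℝ) ^ k) ^ 2 = 4 ^ k := by
      rw [← pow_mul, mul_comm, pow_mul]; norm_num
    rw [a3]
    field_simp
    norm_num
  have e3 : log (4 * β / 4 ^ k / q) ≤ 4 * β / 4 ^ k / q - 1 :=
    log_le_sub_one_of_pos (by positivity)
  have l2 : (k : ℝ) * log 2 ≤ k * 0.6931471808 :=
    mul_le_mul_of_nonneg_left log_two_lt_d9.le (Nat.cast_nonneg k)
  have e4 : 1 / (4 * (√β / √q) ^ 2) ≤ 3 / 100 / (4 * β) := by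
    rw [e1]
    have : 1 / (4 * (β / q)) = q / (4 * β) := by field_simp
    rw [this]
    gcongr
  have hb : arsinh (√β / √q)
      ≤ 2 * β / 4 ^ k / q + (k * 0.6931471808 - 1 / 2 + 3 / 100 / (4 * β)) := by
    have : 4 * β / 4 ^ k / q = 2 * (2 * β / 4 ^ k / q) := by ring
    linarith
  have h0 : 0 ≤ arsinh (√β / √q) := arsinh_nonneg_iff.2 hx.le
  have hc : 4 * q / √β ≤ 4 * q / s := by gcongr
  calc 4 * q / √β * arsinh (√β / √q)
      ≤ 4 * q / s * arsinh (√β / √q) := mul_le_mul_of_nonneg_right hc h0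
    _ ≤ 4 * q / s * (2 * β / 4 ^ k / q + (k * 0.6931471808 - 1 / 2 + 3 / 100 / (4 * β))) :=
        mul_le_mul_of_nonneg_left hb (by positivity)
    _ = _ := by field_simp

theorem int_J1 {q : ℝ} (hq : 0 < q) (h1 : q ≤ 3 / 100) :
    ∫ θ in (-π)..π, Jf q (47 / 50) (cos θ) (sin θ) ≤ 303 / 10000 + 9409 / 1000 * q := by
  refine (th_bound (s := 96953 / 100000) 4 hq h1 (by norm_num) (by norm_num)
    (by norm_num)).trans ?_
  norm_num
  linarith

theorem int_J2 {q : ℝ} (hq : 0 < q) (h1 : q ≤ 3 / 100) :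
    ∫ θ in (-π)..π, Jf q (77 / 20) (cos θ) (sin θ) ≤ 77 / 5000 + 121 / 20 * q := by
  refine (th_bound (s := 196214 / 100000) 5 hq h1 (by norm_num) (by norm_num)
    (by norm_num)).trans ?_
  norm_num
  linarith

theorem int_J3 {q : ℝ} (hq : 0 < q) (h1 : q ≤ 3 / 100) :
    ∫ θ in (-π)..π, Jf q (49 / 10) (cos θ) (sin θ) ≤ 173 / 10000 + 2681 / 500 * q := by
  refine (th_bound (s := 221359 / 100000) 5 hq h1 (by norm_num) (by norm_num)
    (by norm_num)).trans ?_
  norm_num
  linarith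

end Pool.Agent.Ped
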