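import Pool.Agent.P.MP_e09f5c_gt.A3Poly
import Pool.Agent.P.MP_e09f5c_gt.Mom3
import Pool.Agent.P.MP_e09f5c_gt.A3S
import Pool.Agent.P.MP_e09f5c_gt.A3P
import Pool.Agent.P.MP_e09f5c_gt.Theta

/-! The case `n = 3` with `q` and `q1` small. -/

open MeasureTheory Real

namespace Pool.Agent.Ped

noncomputable def a3i_PX0 (s q : ℝ) : ℝ :=
  7549 / 7500 - 1683 / 5000 * q + 331 / 2200 * s - 21 / 400 * q * s
    + 16677 / 28600 * s ^ 2 - 57 / 200 * q * s ^ 2 - 13981 / 50000 * s ^ 3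
    + 363 / 2500 * q * s ^ 3

noncomputable def a3i_PX1 (s q : ℝ) : ℝ :=
  -4817 / 11000 - 153 / 2000 * q + 19468 / 53625 * s + 16202829 / 7150000 * s ^ 2
    + 153 / 2000 * q * s ^ 2 - 3251 / 50000 * s ^ 3

noncomputable def a3i_PX2 (s q : ℝ) : ℝ :=
  7643 / 85800 - 21 / 200 * q + 38667139 / 21450000 * s - 1142351 / 650000 * s ^ 2
    + 21 / 200 * q * s ^ 2 - 247 / 2000 * s ^ 3

noncomputable def a3i_PX3 (s _q : ℝ) : ℝ :=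
  -252521 / 14300000 + 2079871 / 2860000 * s - 19110789 / 14300000 * s ^ 2
    + 12537 / 20000 * s ^ 3

noncomputable def a3i_PX4 (s _q : ℝ) : ℝ :=
  4891 / 50000 * s - 4891 / 25000 * s ^ 2 + 4891 / 50000 * s ^ 3

noncomputable def a3i_PX5 (s _q : ℝ) : ℝ :=
  4353 / 100000 - 13059 / 100000 * s + 13059 / 100000 * s ^ 2 - 4353 / 100000 * s ^ 3

noncomputable def a3i_PY0 (s q : ℝ) : ℝ :=
  15053 / 45000 - 15053 / 30000 * q + 1 / 66 * s + 637 / 1375 * q * s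
    + 160583 / 990000 * q ^ 2 + 5 / 1144 * s ^ 2 + 90789 / 286000 * q * s ^ 2
    + 5 / 726 * q ^ 2 * s + 17 / 2500 * s ^ 3 - 51 / 5000 * q * s ^ 3
    + 25 / 12584 * q ^ 2 * s ^ 2 + 89 / 27500 * q ^ 2 * s ^ 3

noncomputable def a3i_PY1 (s q : ℝ) : ℝ :=
  28183 / 33000 - 40549 / 66000 * q + 551 / 5148 * s + 461759 / 429000 * q * s
    + 173513 / 726000 * q ^ 2 + 196491 / 14300000 * s ^ 2 - 55781073 / 28600000 * q * s ^ 2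
    + 3836401 / 14157000 * q ^ 2 * s - 3523 / 100000 * s ^ 3 + 14883 / 200000 * q * s ^ 3
    + 5032581 / 31460000 * q ^ 2 * s ^ 2 - 4601 / 220000 * q ^ 2 * s ^ 3

noncomputable def a3i_PY2 (s q : ℝ) : ℝ :=
  -63857 / 257400 + 77619 / 57200 * q - 1046389 / 21450000 * s
    - 63998633 / 42900000 * q * s - 50972 / 353925 * q ^ 2 - 614469 / 1787500 * s ^ 2
    + 64740903 / 28600000 * q * s ^ 2 + 38148151 / 47190000 * q ^ 2 * s - 61 / 2000 * s ^ 3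
    - 23091 / 200000 * q * s ^ 3 - 3099257 / 3146000 * q ^ 2 * s ^ 2
    + 108 / 6875 * q ^ 2 * s ^ 3

noncomputable def a3i_PY3 (s q : ℝ) : ℝ :=
  -6445063 / 128700000 + 34445063 / 85800000 * q + 844081 / 5850000 * s
    - 3066841 / 42900000 * q * s - 10382563 / 283140000 * q ^ 2 - 1036963 / 1787500 * s ^ 2
    + 7548699 / 28600000 * q * s ^ 2 + 266449 / 5445000 * q ^ 2 * s + 48591 / 100000 * s ^ 3
    - 59391 / 100000 * q * s ^ 3 - 185486 / 983125 * q ^ 2 * s ^ 2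
    + 38809 / 220000 * q ^ 2 * s ^ 3

noncomputable def a3i_PY4 (s q : ℝ) : ℝ :=
  2673053 / 14300000 - 1591743 / 28600000 * q - 1872073 / 1787500 * s
    + 46519779 / 28600000 * q * s + 1025287 / 15730000 * q ^ 2 + 21934009 / 14300000 * s ^ 2
    - 88264329 / 28600000 * q * s ^ 2 - 13109147 / 31460000 * q ^ 2 * s
    - 33673 / 50000 * s ^ 3 + 303051 / 200000 * q * s ^ 3
    + 5016643 / 7865000 * q ^ 2 * s ^ 2 - 62993 / 220000 * q ^ 2 * s ^ 3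

noncomputable def a3i_PY5 (s q : ℝ) : ℝ :=
  -24969 / 100000 + 74907 / 100000 * q + 74907 / 100000 * s - 224721 / 100000 * q * s
    - 24969 / 220000 * q ^ 2 - 74907 / 100000 * s ^ 2 + 224721 / 100000 * q * s ^ 2
    + 74907 / 220000 * q ^ 2 * s + 24969 / 100000 * s ^ 3 - 74907 / 100000 * q * s ^ 3
    - 74907 / 220000 * q ^ 2 * s ^ 2 + 24969 / 220000 * q ^ 2 * s ^ 3

noncomputable def a3i_PF0 (s q : ℝ) : ℝ :=
  -3 / 2 + 5 / 11 * q + 1 / 12 * s + 1 / 176 * s ^ 2 + 15 / 2288 * s ^ 3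

noncomputable def a3i_PF1 (s q : ℝ) : ℝ :=
  41 / 12 - 5 / 11 * q - 139 / 264 * s + 69 / 2288 * s ^ 2 - 255 / 2288 * s ^ 3

noncomputable def a3i_PF2 (s _q : ℝ) : ℝ :=
  -135 / 176 + 5605 / 6864 * s - 3265 / 6864 * s ^ 2 + 45 / 104 * s ^ 3

noncomputable def a3i_PF3 (s _q : ℝ) : ℝ :=
  35 / 6864 - 4165 / 6864 * s + 2225 / 1716 * s ^ 2 - 795 / 1144 * s ^ 3

noncomputable def a3i_PF4 (s _q : ℝ) : ℝ :=
  -315 / 1144 + 2415 / 2288 * s - 735 / 572 * s ^ 2 + 105 / 208 * s ^ 3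

noncomputable def a3i_PF5 (s _q : ℝ) : ℝ :=
  315 / 2288 - 945 / 2288 * s + 945 / 2288 * s ^ 2 - 315 / 2288 * s ^ 3

theorem a3i_PX (s q z : ℝ) : T3.PX s q z = a3i_PX0 s q + a3i_PX1 s q * z
    + a3i_PX2 s q * z ^ 2 + a3i_PX3 s q * z ^ 3 + a3i_PX4 s q * z ^ 4 + a3i_PX5 s q * z ^ 5 := by
  simp only [T3.PX, T3.LamL, T3.LamG, T3.BlL, T3.BlG, T3.e2L, T3.e2G, T3.Ca, T3.fb, T3.kk, T3.ph,
    T3.ep3, T3.BeG,
    a3i_PX0, a3i_PX1, a3i_PX2, a3i_PX3, a3i_PX4, a3i_PX5]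
  ring

theorem a3i_PY (s q z : ℝ) : T3.PY s q z = a3i_PY0 s q + a3i_PY1 s q * z
    + a3i_PY2 s q * z ^ 2 + a3i_PY3 s q * z ^ 3 + a3i_PY4 s q * z ^ 4 + a3i_PY5 s q * z ^ 5 := by
  simp only [T3.PY, T3.LamL, T3.LamG, T3.BlL, T3.BlG, T3.e2L, T3.e2G, T3.Ca, T3.ph, T3.G1H, T3.BeL,
    T3.BeG, T3.WrL, T3.WrG, T3.e1L, T3.e1G,
    a3i_PY0, a3i_PY1, a3i_PY2, a3i_PY3, a3i_PY4, a3i_PY5]
  ring

theorem a3i_PF (s q z : ℝ) : T3.PF s q z = a3i_PF0 s q + a3i_PF1 s q * z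
    + a3i_PF2 s q * z ^ 2 + a3i_PF3 s q * z ^ 3 + a3i_PF4 s q * z ^ 4 + a3i_PF5 s q * z ^ 5 := by
  simp only [T3.PF, T3.phH, T3.phG,
    a3i_PF0, a3i_PF1, a3i_PF2, a3i_PF3, a3i_PF4, a3i_PF5]
  ring

/-- Upper bound for the integral of a function of the standard shape. -/
noncomputable def a3i_up (q a0 a1 a2 a3 a4 a5 c1 c2 c3 : ℝ) : ℝ :=
  4 * (a0 + a1 / 3 + a2 / 5 + a3 / 7 + a4 / 9 + a5 / 11) + c1 * (303 / 10000 + 9409 / 1000 * q)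
    + c2 * (77 / 5000 + 121 / 20 * q) + c3 * (173 / 10000 + 2681 / 500 * q)

theorem a3i_gen {P B : ℝ → ℝ} {q a0 a1 a2 a3 a4 a5 c1 c2 c3 : ℝ} (hq0 : 0 < q) (hq : q ≤ 3 / 100)
    (hP : ∀ z, P z = a0 + a1 * z + a2 * z ^ 2 + a3 * z ^ 3 + a4 * z ^ 4 + a5 * z ^ 5)
    (h1 : 0 ≤ c1) (h2 : 0 ≤ c2) (h3 : 0 ≤ c3)
    (hB : ∀ θ, B θ = |cos θ| * P (sin θ ^ 2) + c1 * Jf q (47 / 50) (cos θ) (sin θ)
      + c2 * Jf q (77 / 20) (cos θ) (sin θ) + c3 * Jf q (49 / 10) (cos θ) (sin θ)) :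
    Continuous B ∧ ∫ θ in (-π)..π, B θ ≤ a3i_up q a0 a1 a2 a3 a4 a5 c1 c2 c3 := by
  have k0 : Continuous fun θ : ℝ => |cos θ| * (a0 + a1 * sin θ ^ 2 + a2 * (sin θ ^ 2) ^ 2
      + a3 * (sin θ ^ 2) ^ 3 + a4 * (sin θ ^ 2) ^ 4 + a5 * (sin θ ^ 2) ^ 5) := by fun_prop
  have k1 := (continuous_Jf hq0 (by norm_num : (0 : ℝ) ≤ 47 / 50)).const_mul c1
  have k2 := (continuous_Jf hq0 (by norm_num : (0 : ℝ) ≤ 77 / 20)).const_mul c2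
  have k3 := (continuous_Jf hq0 (by norm_num : (0 : ℝ) ≤ 49 / 10)).const_mul c3
  have e : B = fun θ => |cos θ| * (a0 + a1 * sin θ ^ 2 + a2 * (sin θ ^ 2) ^ 2
      + a3 * (sin θ ^ 2) ^ 3 + a4 * (sin θ ^ 2) ^ 4 + a5 * (sin θ ^ 2) ^ 5)
      + c1 * Jf q (47 / 50) (cos θ) (sin θ)
      + c2 * Jf q (77 / 20) (cos θ) (sin θ) + c3 * Jf q (49 / 10) (cos θ) (sin θ) := by
    funext θ
    rw [hB, hP]
  subst e
  have k01 := k0.fun_add k1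
  have k012 := k01.fun_add k2
  refine ⟨k012.fun_add k3, ?_⟩
  beta_reduce
  rw [intervalIntegral.integral_add (k012.intervalIntegrable _ _) (k3.intervalIntegrable _ _),
    intervalIntegral.integral_add (k01.intervalIntegrable _ _) (k2.intervalIntegrable _ _),
    intervalIntegral.integral_add (k0.intervalIntegrable _ _) (k1.intervalIntegrable _ _),
    int_cos_poly, intervalIntegral.integral_const_mul, intervalIntegral.integral_const_mul,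
    intervalIntegral.integral_const_mul, a3i_up]
  have j1 := mul_le_mul_of_nonneg_left (int_J1 hq0 hq) h1
  have j2 := mul_le_mul_of_nonneg_left (int_J2 hq0 hq) h2
  have j3 := mul_le_mul_of_nonneg_left (int_J3 hq0 hq) h3
  linarith only [j1, j2, j3]

theorem a3i_Ca {s : ℝ} (hs0 : 0 ≤ s) (hs1 : s ≤ 1) : 0 ≤ T3.Ca s 1 := by
  have : 0 ≤ 1 - s ^ 2 := by nlinarith
  unfold T3.Ca
  positivity

theorem a3i_fb {s : ℝ} (hs0 : 0 ≤ s) (hs1 : s ≤ 1) : 0 ≤ T3.fb s := by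
  have : 0 ≤ 19 / 100 - s / 10 := by linarith
  unfold T3.fb
  positivity

theorem a3i_phH {s : ℝ} (hs0 : 0 ≤ s) (hs1 : s ≤ 1) : 0 ≤ T3.phH (1 - s) s := by
  have h1 : (1 - s) ^ 2 ≤ 1 := by nlinarith
  have h2 : (1 - s) * s ≤ 1 := by nlinarith
  have h3 : s ^ 2 ≤ 1 := by nlinarith
  unfold T3.phH
  nlinarith

/-- Upper bound for the integral of `BX`. -/
noncomputable def a3i_IX (s q : ℝ) : ℝ :=
  a3i_up q (a3i_PX0 s q) (a3i_PX1 s q) (a3i_PX2 s q) (a3i_PX3 s q) (a3i_PX4 s q) (a3i_PX5 s q)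
    (T3.Ca s 1) (3 * (T3.kk s + T3.ph s 1)) 0

/-- Upper bound for the integral of `BY`. -/
noncomputable def a3i_IY (s q : ℝ) : ℝ :=
  a3i_up q (a3i_PY0 s q) (a3i_PY1 s q) (a3i_PY2 s q) (a3i_PY3 s q) (a3i_PY4 s q) (a3i_PY5 s q)
    (3 * (T3.Ca s 1 + T3.fb s) + 6 * T3.ep3 (1 - s) s) (T3.LamL (1 - s) s + T3.LamG (1 - s) s)
    (q * T3.G1H s 1)

/-- Upper bound for the integral of `BF`. -/
noncomputable def a3i_IF (s q : ℝ) : ℝ :=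
  a3i_up q (a3i_PF0 s q) (a3i_PF1 s q) (a3i_PF2 s q) (a3i_PF3 s q) (a3i_PF4 s q) (a3i_PF5 s q)
    0 0 (T3.phH (1 - s) s)

theorem a3i_BX {s q : ℝ} (hs0 : 0 ≤ s) (hs1 : s ≤ 1) (hq0 : 0 < q) (hq : q ≤ 3 / 100) :
    Continuous (fun θ : ℝ => T3.BX s q (cos θ) (sin θ)) ∧
      ∫ θ in (-π)..π, T3.BX s q (cos θ) (sin θ) ≤ a3i_IX s q := by
  have hp : 0 ≤ 1 - s := by linarith
  refine a3i_gen (P := T3.PX s q) hq0 hq (a3i_PX s q) (a3i_Ca hs0 hs1) ?_ le_rfl fun θ => ?_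
  · unfold T3.kk T3.ph
    positivity
  · simp only [T3.BX, zero_mul, add_zero]

theorem a3i_BY {s q : ℝ} (hs0 : 0 ≤ s) (hs1 : s ≤ 1) (hq0 : 0 < q) (hq : q ≤ 3 / 100) :
    Continuous (fun θ : ℝ => T3.BY s q (cos θ) (sin θ)) ∧
      ∫ θ in (-π)..π, T3.BY s q (cos θ) (sin θ) ≤ a3i_IY s q := by
  have hp : 0 ≤ 1 - s := by linarith
  refine a3i_gen (P := T3.PY s q) hq0 hq (a3i_PY s q) ?_ ?_ ?_ fun θ => ?_
  · have h1 := a3i_Ca hs0 hs1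
    have h2 := a3i_fb hs0 hs1
    have h3 : 0 ≤ T3.ep3 (1 - s) s := by
      unfold T3.ep3 T3.BeG
      positivity
    positivity
  · unfold T3.LamL T3.LamG T3.BlL T3.BlG T3.e2L T3.e2G
    positivity
  · unfold T3.G1H T3.BeL T3.BeG T3.WrL T3.WrG T3.e1L T3.e1G
    positivity
  · simp only [T3.BY]

theorem a3i_BF {s q : ℝ} (hs0 : 0 ≤ s) (hs1 : s ≤ 1) (hq0 : 0 < q) (hq : q ≤ 3 / 100) :
    Continuous (fun θ : ℝ => T3.BF s q (cos θ) (sin θ)) ∧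
      ∫ θ in (-π)..π, T3.BF s q (cos θ) (sin θ) ≤ a3i_IF s q := by
  refine a3i_gen (P := T3.PF s q) hq0 hq (a3i_PF s q) le_rfl le_rfl (a3i_phH hs0 hs1) fun θ => ?_
  simp only [T3.BF, zero_mul, add_zero]

theorem a3i_mX {s q : ℝ} (hs0 : 0 ≤ s) (hs1 : s ≤ 1) (hq0 : 0 ≤ q) (hq : q ≤ 3 / 100) :
    0 ≤ -((1 - s) * a3i_IX s q + 2 * a3i_IF s q) := by
  refine (a3f_mX hq0 hq hs0 hs1).trans_eq ?_
  simp only [a3i_IX, a3i_IF, a3i_up, a3i_PX0, a3i_PX1, a3i_PX2, a3i_PX3, a3i_PX4, a3i_PX5,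
    a3i_PF0, a3i_PF1, a3i_PF2, a3i_PF3, a3i_PF4, a3i_PF5, T3.Ca, T3.kk, T3.ph, T3.phH]
  ring

theorem a3i_tot {s q : ℝ} (hs0 : 0 ≤ s) (hs1 : s ≤ 1) (hq0 : 0 ≤ q) (hq : q ≤ 3 / 100) :
    0 ≤ (2 * (11025 / 27648) * 3.141592 - a3i_IY s q - q * a3i_IF s q)
      + 19 * q * -((1 - s) * a3i_IX s q + 2 * a3i_IF s q) := by
  refine (a3f_tot hq0 hq hs0 hs1).trans_eq ?_
  simp only [a3i_IX, a3i_IY, a3i_IF, a3i_up, a3i_PX0, a3i_PX1, a3i_PX2, a3i_PX3, a3i_PX4, a3i_PX5,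
    a3i_PY0, a3i_PY1, a3i_PY2, a3i_PY3, a3i_PY4, a3i_PY5,
    a3i_PF0, a3i_PF1, a3i_PF2, a3i_PF3, a3i_PF4, a3i_PF5, T3.Ca, T3.kk, T3.ph, T3.phH, T3.fb,
    T3.ep3, T3.BeG, T3.BeL, T3.LamL, T3.LamG, T3.BlL, T3.BlG, T3.e2L, T3.e2G, T3.G1H, T3.WrL,
    T3.WrG, T3.e1L, T3.e1G]
  ring

theorem a3_final {s q q1 : ℝ} (hs0 : 0 ≤ s) (hs1 : s ≤ 1) (hq0 : 0 < q) (hq : q ≤ 3 / 100)
    (h0 : 0 ≤ q1) (h1 : q1 ≤ 1 / 20) :
    (2 - q1) * (∫ θ in (-π)..π, q * T3.BF s q (cos θ) (sin θ))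
      + ∫ θ in (-π)..π, ((1 - s) * (1 - q1) * q * T3.BX s q (cos θ) (sin θ)
        + q1 * T3.BY s q (cos θ) (sin θ)) ≤ 2 * kh 3 * q1 := by
  obtain ⟨cX, iX⟩ := a3i_BX hs0 hs1 hq0 hq
  obtain ⟨cY, iY⟩ := a3i_BY hs0 hs1 hq0 hq
  obtain ⟨-, iF⟩ := a3i_BF hs0 hs1 hq0 hq
  have mX := a3i_mX hs0 hs1 hq0.le hq
  have mT := a3i_tot hs0 hs1 hq0.le hq
  rw [intervalIntegral.integral_add ((cX.const_mul _).intervalIntegrable _ _)
      ((cY.const_mul _).intervalIntegrable _ _), intervalIntegral.integral_const_mul,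
    intervalIntegral.integral_const_mul, intervalIntegral.integral_const_mul, kh_three]
  generalize (∫ θ in (-π)..π, T3.BX s q (cos θ) (sin θ)) = x at iX ⊢
  generalize (∫ θ in (-π)..π, T3.BY s q (cos θ) (sin θ)) = y at iY ⊢
  generalize (∫ θ in (-π)..π, T3.BF s q (cos θ) (sin θ)) = f at iF ⊢
  generalize a3i_IX s q = X at *
  generalize a3i_IY s q = Y at *
  generalize a3i_IF s q = F at *
  have hp : 0 ≤ 1 - s := by linarith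
  have hp1 : 0 ≤ 1 - q1 := by linarith
  have hp2 : 0 ≤ 2 - q1 := by linarith
  have e1 := mul_le_mul_of_nonneg_left iX (mul_nonneg (mul_nonneg hp hp1) hq0.le)
  have e2 := mul_le_mul_of_nonneg_left iY h0
  have e3 := mul_le_mul_of_nonneg_left iF (mul_nonneg hp2 hq0.le)
  have e4 := mul_nonneg h0 mT
  have e5 := mul_nonneg (mul_nonneg (by linarith : 0 ≤ 1 - 20 * q1) hq0.le) mX
  have e6 := mul_le_mul_of_nonneg_left Real.pi_gt_d6.le h0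
  linarith only [e1, e2, e3, e4, e5, e6]

theorem a3i_dCa (s z : ℝ) : HasDerivAt (T3.Ca s) (T3.Cz s z) z := by
  have h : HasDerivAt (fun z : ℝ => 1117 / 5000 + 2 / 625 * s ^ 3
      + (1 - s ^ 2) * (51 / 1000 * z + 7 / 100 * z ^ 2))
      ((1 - s ^ 2) * (51 / 1000 * 1 + 7 / 100 * (((2 : ℕ) : ℝ) * z ^ (2 - 1)))) z :=
    ((((hasDerivAt_id z).const_mul _).add ((hasDerivAt_pow 2 z).const_mul _)).const_mul _).const_add _
  refine h.congr_deriv ?_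
  unfold T3.Cz
  norm_num
  ring_nf
  simp

theorem a3i_dph (s z : ℝ) : HasDerivAt (T3.ph s) (T3.pz s z) z := by
  have h : HasDerivAt (fun z : ℝ => 2 * s * (81 / 1000 + 27 / 500 * s + 34 / 125 * (1 - s) * z))
      (2 * s * (34 / 125 * (1 - s) * 1)) z :=
    (((hasDerivAt_id z).const_mul _).const_add _).const_mul _
  refine h.congr_deriv ?_
  unfold T3.pz
  ring

theorem caseA3 {X V : Mat 3} {F : Fr} (h : NF X V F) (hq : F.q ≤ 3 / 100) (hq1 : F.q1 ≤ 1 / 20) :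
    gauss (crof X V (ez 3 F.s)) ≤ kap (3 + 1) := by
  obtain ⟨σ, hσ0, hσ1, hX, hs⟩ := exists_sigma h.ok hq1
  have hq0 := h.ok.q_pos
  obtain ⟨cX, -⟩ := a3i_BX hσ0 hσ1 hq0 hq
  obtain ⟨cY, -⟩ := a3i_BY hσ0 hσ1 hq0 hq
  obtain ⟨cF, -⟩ := a3i_BF hσ0 hσ1 hq0 hq
  refine glueA (n := 3) (by norm_num) h hq (by norm_num) hq1 hσ0 hσ1 hX hs
    (Ca := T3.Ca σ) (Cz := T3.Cz σ) (ph := T3.ph σ) (pz := T3.pz σ) (T3.fb σ) (T3.kk σ)
    (a3i_dCa σ) ?_ (a3i_dph σ) ?_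
    (B1 := fun θ => (1 - σ) * (1 - F.q1) * F.q * T3.BX σ F.q (cos θ) (sin θ)
      + F.q1 * T3.BY σ F.q (cos θ) (sin θ))
    (B2 := fun θ => F.q * T3.BF σ F.q (cos θ) (sin θ))
    (((cX.const_mul _).add (cY.const_mul _)).intervalIntegrable _ _)
    ((cF.const_mul _).intervalIntegrable _ _) ?_
    (a3_final hσ0 hσ1 hq0 hq h.ok.q1_nonneg hq1)
  · unfold T3.Cz
    fun_prop
  · unfold T3.pz
    fun_prop
  · intro θ a b ha hb ha2 hb2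
    have hz0 : 0 ≤ sin θ ^ 2 := sq_nonneg _
    have hz1 : sin θ ^ 2 ≤ 1 := sin_sq_le_one θ
    have hab : a ^ 2 + b ^ 2 ≤ 1 := by
      have := mul_le_mul_of_nonneg_left hz1 (sub_nonneg.2 hσ1)
      rw [ha2, hb2]
      linarith
    obtain ⟨t1, t2, he1, he2, B⟩ := box3 ha hb hab
    have hφ := nphi_eq (n := 3) (by norm_num) hab he1
    rw [ha2, hb2] at B hφ
    obtain ⟨α1, α2, α3, α4, hS⟩ := sa3 hσ0 hσ1 hz0 hz1 B
    refine ⟨t1, t2, _, _, _, _, _, α1, α2, α3, α4, he1, he2, hS, ?_, ?_⟩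
    · have := a3_model h.ok hq (cos_sq_add_sin_sq θ) hσ0 hσ1 hX hs B hφ
        (T3.ep4 ((1 - σ) * sin θ ^ 2)) (1 - σ / 2) (1 / 2)
      rw [← hX]
      exact this
    · exact a3_phi h.ok hq (cos_sq_add_sin_sq θ) hσ0 hσ1 B

end Pool.Agent.Ped
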