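import Mathlib

/-! Polynomial inequalities on boxes. -/

namespace Pool.Agent.Ped

theorem bern_mon {a : ℝ} (h0 : 0 ≤ a) (h1 : a ≤ 1) (i j : ℕ) : 0 ≤ a ^ i * (1 - a) ^ j :=
  mul_nonneg (pow_nonneg h0 i) (pow_nonneg (sub_nonneg.2 h1) j)

theorem a3s_he4 {z s : ℝ} (h1 : 0 ≤ z) (h2 : z ≤ 1) (h3 : 0 ≤ s) (h4 : s ≤ 1) :
    0 ≤ 1 / 99 * s
      + 5 / 286 * s * z
      + 1 / 286 * s ^ 2
      - 2169 / 100000 * s * z ^ 2
      - 358537 / 14300000 * s ^ 2 * z
      - 41 / 100000 * s ^ 3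
      + 2169 / 50000 * s ^ 2 * z ^ 2
      + 759 / 100000 * s ^ 3 * z
      - 2169 / 100000 * s ^ 3 * z ^ 2 := by
  obtain ⟨u, rfl⟩ : ∃ u, z = 0 + 1 * u := ⟨(z - 0) / (1), by ring⟩
  obtain ⟨v, rfl⟩ : ∃ v, s = 0 + 1 * v := ⟨(s - 0) / (1), by ring⟩
  have hu := bern_mon (a := u) (by linarith) (by linarith)
  have hv := bern_mon (a := v) (by linarith) (by linarith)
  have key := (add_nonneg (mul_nonneg (hu 0 2)
      (add_nonneg (mul_nonneg (by norm_num : (0 : ℝ) ≤ 1300000) (hv 1 2))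
      (add_nonneg (mul_nonneg (by norm_num : (0 : ℝ) ≤ 3050000) (hv 2 1))
      (mul_nonneg (by norm_num : (0 : ℝ) ≤ 1697233) (hv 3 0)))))
    (add_nonneg (mul_nonneg (hu 1 1)
      (add_nonneg (mul_nonneg (by norm_num : (0 : ℝ) ≤ 4850000) (hv 1 2))
      (add_nonneg (mul_nonneg (by norm_num : (0 : ℝ) ≤ 7373167) (hv 2 1))
      (mul_nonneg (by norm_num : (0 : ℝ) ≤ 3394466) (hv 3 0)))))
    (mul_nonneg (hu 2 0)
      (add_nonneg (mul_nonneg (by norm_num : (0 : ℝ) ≤ 758497) (hv 1 2))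
      (add_nonneg (mul_nonneg (by norm_num : (0 : ℝ) ≤ 4323167) (hv 2 1))
      (mul_nonneg (by norm_num : (0 : ℝ) ≤ 1697233) (hv 3 0)))))))
  refine (mul_nonneg (by norm_num : (0 : ℝ) ≤ 1 / 128700000) key).trans_eq ?_
  ring

theorem a3s_Ca1 {z s : ℝ} (h1 : 0 ≤ z) (h2 : z ≤ 1) (h3 : 0 ≤ s) (h4 : s ≤ 1) :
    0 ≤ 53 / 45000
      + 1 / 198 * s
      + 683 / 33000 * z
      - 23 / 5148 * s * z
      - 1 / 2574 * s ^ 2
      + 219 / 3575 * z ^ 2
      - 847621 / 2681250 * s * z ^ 2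
      - 895207 / 5850000 * s ^ 2 * z
      - 221431 / 42900000 * s ^ 3
      - 317 / 6250 * z ^ 3
      + 3819 / 25000 * s * z ^ 3
      + 50977801 / 85800000 * s ^ 2 * z ^ 2
      + 4074431 / 28600000 * s ^ 3 * z
      + 3 / 5000 * s ^ 4
      - 3849 / 25000 * s ^ 2 * z ^ 3
      - 14797993 / 42900000 * s ^ 3 * z ^ 2
      - 1133 / 200000 * s ^ 4 * z
      + 1313 / 25000 * s ^ 3 * z ^ 3
      + 1133 / 200000 * s ^ 4 * z ^ 2
      - 3 / 5000 * s ^ 4 * z ^ 3 := by
  rcases le_total z (1 / 2) with h | h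
  · rcases le_total s (1 / 2) with h | h
    · obtain ⟨u, rfl⟩ : ∃ u, z = 0 + 1 / 2 * u := ⟨(z - 0) / (1 / 2), by ring⟩
      obtain ⟨v, rfl⟩ : ∃ v, s = 0 + 1 / 2 * v := ⟨(s - 0) / (1 / 2), by ring⟩
      have hu := bern_mon (a := u) (by linarith) (by linarith)
      have hv := bern_mon (a := v) (by linarith) (by linarith)
      have key := (add_nonneg (add_nonneg (mul_nonneg (hu 0 3)
          (add_nonneg (add_nonneg (mul_nonneg (by norm_num : (0 : ℝ) ≤ 19402240) (hv 0 4))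
          (mul_nonneg (by norm_num : (0 : ℝ) ≤ 119208960) (hv 1 3)))
          (add_nonneg (mul_nonneg (by norm_num : (0 : ℝ) ≤ 239613440) (hv 2 2))
          (add_nonneg (mul_nonneg (by norm_num : (0 : ℝ) ≤ 188580272) (hv 3 1))
          (mul_nonneg (by norm_num : (0 : ℝ) ≤ 49391312) (hv 4 0))))))
        (mul_nonneg (hu 1 2)
          (add_nonneg (add_nonneg (mul_nonneg (by norm_num : (0 : ℝ) ≤ 228683520) (hv 0 4))
          (mul_nonneg (by norm_num : (0 : ℝ) ≤ 1021134080) (hv 1 3)))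
          (add_nonneg (mul_nonneg (by norm_num : (0 : ℝ) ≤ 1371388256) (hv 2 2))
          (add_nonneg (mul_nonneg (by norm_num : (0 : ℝ) ≤ 708901804) (hv 3 1))
          (mul_nonneg (by norm_num : (0 : ℝ) ≤ 128901046) (hv 4 0)))))))
        (add_nonneg (mul_nonneg (hu 2 1)
          (add_nonneg (add_nonneg (mul_nonneg (by norm_num : (0 : ℝ) ≤ 651448320) (hv 0 4))
          (mul_nonneg (by norm_num : (0 : ℝ) ≤ 2042820352) (hv 1 3)))
          (add_nonneg (mul_nonneg (by norm_num : (0 : ℝ) ≤ 2196479020) (hv 2 2))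
          (add_nonneg (mul_nonneg (by norm_num : (0 : ℝ) ≤ 954187316) (hv 3 1))
          (mul_nonneg (by norm_num : (0 : ℝ) ≤ 146559095) (hv 4 0))))))
        (mul_nonneg (hu 3 0)
          (add_nonneg (add_nonneg (mul_nonneg (by norm_num : (0 : ℝ) ≤ 337724416) (hv 0 4))
          (mul_nonneg (by norm_num : (0 : ℝ) ≤ 880406432) (hv 1 3)))
          (add_nonneg (mul_nonneg (by norm_num : (0 : ℝ) ≤ 830634940) (hv 2 2))
          (add_nonneg (mul_nonneg (by norm_num : (0 : ℝ) ≤ 342941808) (hv 3 1))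
          (mul_nonneg (by norm_num : (0 : ℝ) ≤ 54071253) (hv 4 0))))))))
      refine (mul_nonneg (by norm_num : (0 : ℝ) ≤ 1 / 16473600000) key).trans_eq ?_
      ring
    · obtain ⟨u, rfl⟩ : ∃ u, z = 0 + 1 / 2 * u := ⟨(z - 0) / (1 / 2), by ring⟩
      obtain ⟨v, rfl⟩ : ∃ v, s = 1 / 2 + 1 / 2 * v := ⟨(s - 1 / 2) / (1 / 2), by ring⟩
      have hu := bern_mon (a := u) (by linarith) (by linarith)
      have hv := bern_mon (a := v) (by linarith) (by linarith)
      have key := (add_nonneg (add_nonneg (mul_nonneg (hu 0 4)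
          (add_nonneg (add_nonneg (mul_nonneg (by norm_num : (0 : ℝ) ≤ 49391312) (hv 0 4))
          (mul_nonneg (by norm_num : (0 : ℝ) ≤ 206550224) (hv 1 3)))
          (add_nonneg (mul_nonneg (by norm_num : (0 : ℝ) ≤ 293523296) (hv 2 2))
          (add_nonneg (mul_nonneg (by norm_num : (0 : ℝ) ≤ 156803520) (hv 3 1))
          (mul_nonneg (by norm_num : (0 : ℝ) ≤ 21056896) (hv 4 0))))))
        (mul_nonneg (hu 1 3)
          (add_nonneg (add_nonneg (mul_nonneg (by norm_num : (0 : ℝ) ≤ 178292358) (hv 0 4))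
          (mul_nonneg (by norm_num : (0 : ℝ) ≤ 528856788) (hv 1 3)))
          (add_nonneg (mul_nonneg (by norm_num : (0 : ℝ) ≤ 505125832) (hv 2 2))
          (add_nonneg (mul_nonneg (by norm_num : (0 : ℝ) ≤ 239234288) (hv 3 1))
          (mul_nonneg (by norm_num : (0 : ℝ) ≤ 84227584) (hv 4 0)))))))
        (add_nonneg (mul_nonneg (hu 2 2)
          (add_nonneg (add_nonneg (mul_nonneg (by norm_num : (0 : ℝ) ≤ 275460141) (hv 0 4))
          (mul_nonneg (by norm_num : (0 : ℝ) ≤ 540592008) (hv 1 3)))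
          (add_nonneg (mul_nonneg (by norm_num : (0 : ℝ) ≤ 200375940) (hv 2 2))
          (add_nonneg (mul_nonneg (by norm_num : (0 : ℝ) ≤ 65169744) (hv 3 1))
          (mul_nonneg (by norm_num : (0 : ℝ) ≤ 126341376) (hv 4 0))))))
        (add_nonneg (mul_nonneg (hu 3 1)
          (add_nonneg (add_nonneg (mul_nonneg (by norm_num : (0 : ℝ) ≤ 200630348) (hv 0 4))
          (mul_nonneg (by norm_num : (0 : ℝ) ≤ 307913660) (hv 1 3)))
          (add_nonneg (mul_nonneg (by norm_num : (0 : ℝ) ≤ 59467568) (hv 2 2))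
          (add_nonneg (mul_nonneg (by norm_num : (0 : ℝ) ≤ 39850704) (hv 3 1))
          (mul_nonneg (by norm_num : (0 : ℝ) ≤ 84227584) (hv 4 0))))))
        (mul_nonneg (hu 4 0)
          (add_nonneg (add_nonneg (mul_nonneg (by norm_num : (0 : ℝ) ≤ 54071253) (hv 0 4))
          (mul_nonneg (by norm_num : (0 : ℝ) ≤ 89628216) (hv 1 3)))
          (add_nonneg (mul_nonneg (by norm_num : (0 : ℝ) ≤ 70694164) (hv 2 2))
          (add_nonneg (mul_nonneg (by norm_num : (0 : ℝ) ≤ 57111728) (hv 3 1))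
          (mul_nonneg (by norm_num : (0 : ℝ) ≤ 21056896) (hv 4 0)))))))))
      refine (mul_nonneg (by norm_num : (0 : ℝ) ≤ 1 / 16473600000) key).trans_eq ?_
      ring
  · rcases le_total s (1 / 2) with h | h
    · obtain ⟨u, rfl⟩ : ∃ u, z = 1 / 2 + 1 / 2 * u := ⟨(z - 1 / 2) / (1 / 2), by ring⟩
      obtain ⟨v, rfl⟩ : ∃ v, s = 0 + 1 / 2 * v := ⟨(s - 0) / (1 / 2), by ring⟩
      have hu := bern_mon (a := u) (by linarith) (by linarith)
      have hv := bern_mon (a := v) (by linarith) (by linarith)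
      have key := (add_nonneg (add_nonneg (mul_nonneg (hu 0 3)
          (add_nonneg (add_nonneg (mul_nonneg (by norm_num : (0 : ℝ) ≤ 337724416) (hv 0 4))
          (mul_nonneg (by norm_num : (0 : ℝ) ≤ 880406432) (hv 1 3)))
          (add_nonneg (mul_nonneg (by norm_num : (0 : ℝ) ≤ 830634940) (hv 2 2))
          (add_nonneg (mul_nonneg (by norm_num : (0 : ℝ) ≤ 342941808) (hv 3 1))
          (mul_nonneg (by norm_num : (0 : ℝ) ≤ 54071253) (hv 4 0))))))
        (mul_nonneg (hu 1 2)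
          (add_nonneg (add_nonneg (mul_nonneg (by norm_num : (0 : ℝ) ≤ 1374898176) (hv 0 4))
          (mul_nonneg (by norm_num : (0 : ℝ) ≤ 3239618240) (hv 1 3)))
          (add_nonneg (mul_nonneg (by norm_num : (0 : ℝ) ≤ 2787330620) (hv 2 2))
          (add_nonneg (mul_nonneg (by norm_num : (0 : ℝ) ≤ 1103463532) (hv 3 1))
          (mul_nonneg (by norm_num : (0 : ℝ) ≤ 177868423) (hv 4 0)))))))
        (add_nonneg (mul_nonneg (hu 2 1)
          (add_nonneg (add_nonneg (mul_nonneg (by norm_num : (0 : ℝ) ≤ 1675583232) (hv 0 4))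
          (mul_nonneg (by norm_num : (0 : ℝ) ≤ 3414729856) (hv 1 3)))
          (add_nonneg (mul_nonneg (by norm_num : (0 : ℝ) ≤ 2553091456) (hv 2 2))
          (add_nonneg (mul_nonneg (by norm_num : (0 : ℝ) ≤ 1007454236) (hv 3 1))
          (mul_nonneg (by norm_num : (0 : ℝ) ≤ 191519702) (hv 4 0))))))
        (mul_nonneg (hu 3 0)
          (add_nonneg (add_nonneg (mul_nonneg (by norm_num : (0 : ℝ) ≤ 533966848) (hv 0 4))
          (mul_nonneg (by norm_num : (0 : ℝ) ≤ 795029248) (hv 1 3)))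
          (add_nonneg (mul_nonneg (by norm_num : (0 : ℝ) ≤ 362326512) (hv 2 2))
          (add_nonneg (mul_nonneg (by norm_num : (0 : ℝ) ≤ 156008536) (hv 3 1))
          (mul_nonneg (by norm_num : (0 : ℝ) ≤ 54744424) (hv 4 0))))))))
      refine (mul_nonneg (by norm_num : (0 : ℝ) ≤ 1 / 16473600000) key).trans_eq ?_
      ring
    · obtain ⟨u, rfl⟩ : ∃ u, z = 1 / 2 + 1 / 2 * u := ⟨(z - 1 / 2) / (1 / 2), by ring⟩
      obtain ⟨v, rfl⟩ : ∃ v, s = 1 / 2 + 1 / 2 * v := ⟨(s - 1 / 2) / (1 / 2), by ring⟩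
      have hu := bern_mon (a := u) (by linarith) (by linarith)
      have hv := bern_mon (a := v) (by linarith) (by linarith)
      have key := (add_nonneg (add_nonneg (mul_nonneg (hu 0 3)
          (add_nonneg (add_nonneg (mul_nonneg (by norm_num : (0 : ℝ) ≤ 54071253) (hv 0 4))
          (mul_nonneg (by norm_num : (0 : ℝ) ≤ 89628216) (hv 1 3)))
          (add_nonneg (mul_nonneg (by norm_num : (0 : ℝ) ≤ 70694164) (hv 2 2))
          (add_nonneg (mul_nonneg (by norm_num : (0 : ℝ) ≤ 57111728) (hv 3 1))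
          (mul_nonneg (by norm_num : (0 : ℝ) ≤ 21056896) (hv 4 0))))))
        (mul_nonneg (hu 1 2)
          (add_nonneg (add_nonneg (mul_nonneg (by norm_num : (0 : ℝ) ≤ 177868423) (hv 0 4))
          (mul_nonneg (by norm_num : (0 : ℝ) ≤ 319483852) (hv 1 3)))
          (add_nonneg (mul_nonneg (by norm_num : (0 : ℝ) ≤ 435391580) (hv 2 2))
          (add_nonneg (mul_nonneg (by norm_num : (0 : ℝ) ≤ 359931392) (hv 3 1))
          (mul_nonneg (by norm_num : (0 : ℝ) ≤ 63170688) (hv 4 0)))))))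
        (add_nonneg (mul_nonneg (hu 2 1)
          (add_nonneg (add_nonneg (mul_nonneg (by norm_num : (0 : ℝ) ≤ 191519702) (hv 0 4))
          (mul_nonneg (by norm_num : (0 : ℝ) ≤ 524703380) (hv 1 3)))
          (add_nonneg (mul_nonneg (by norm_num : (0 : ℝ) ≤ 1104838888) (hv 2 2))
          (add_nonneg (mul_nonneg (by norm_num : (0 : ℝ) ≤ 836815600) (hv 3 1))
          (mul_nonneg (by norm_num : (0 : ℝ) ≤ 63170688) (hv 4 0))))))
        (mul_nonneg (hu 3 0)
          (add_nonneg (add_nonneg (mul_nonneg (by norm_num : (0 : ℝ) ≤ 54744424) (hv 0 4))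
          (mul_nonneg (by norm_num : (0 : ℝ) ≤ 281946856) (hv 1 3)))
          (add_nonneg (mul_nonneg (by norm_num : (0 : ℝ) ≤ 740141472) (hv 2 2))
          (add_nonneg (mul_nonneg (by norm_num : (0 : ℝ) ≤ 533995936) (hv 3 1))
          (mul_nonneg (by norm_num : (0 : ℝ) ≤ 21056896) (hv 4 0))))))))
      refine (mul_nonneg (by norm_num : (0 : ℝ) ≤ 1 / 16473600000) key).trans_eq ?_
      ring

theorem a3s_Ca2 {z s : ℝ} (h1 : 0 ≤ z) (h2 : z ≤ 1) (h3 : 0 ≤ s) (h4 : s ≤ 1) :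
    0 ≤ 851 / 15000
      - 1 / 44 * s
      + 311 / 11000 * z
      - 83 / 3432 * s * z
      - 15 / 2288 * s ^ 2
      + 3629 / 57200 * z ^ 2
      - 9959467 / 28600000 * s * z ^ 2
      - 3016961 / 17160000 * s ^ 2 * z
      - 47 / 5000 * s ^ 3
      - 1721 / 50000 * z ^ 3
      + 5163 / 50000 * s * z ^ 3
      + 9239717 / 14300000 * s ^ 2 * z ^ 2
      + 6869 / 40000 * s ^ 3 * z
      - 5163 / 50000 * s ^ 2 * z ^ 3
      - 72269 / 200000 * s ^ 3 * z ^ 2
      + 1721 / 50000 * s ^ 3 * z ^ 3 := by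
  obtain ⟨u, rfl⟩ : ∃ u, z = 0 + 1 * u := ⟨(z - 0) / (1), by ring⟩
  obtain ⟨v, rfl⟩ : ∃ v, s = 0 + 1 * v := ⟨(s - 0) / (1), by ring⟩
  have hu := bern_mon (a := u) (by linarith) (by linarith)
  have hv := bern_mon (a := v) (by linarith) (by linarith)
  have key := (add_nonneg (add_nonneg (mul_nonneg (hu 0 3)
      (add_nonneg (add_nonneg (mul_nonneg (by norm_num : (0 : ℝ) ≤ 4867720) (hv 0 3))
      (mul_nonneg (by norm_num : (0 : ℝ) ≤ 12653160) (hv 1 2)))
      (add_nonneg (mul_nonneg (by norm_num : (0 : ℝ) ≤ 10140660) (hv 2 1))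
      (mul_nonneg (by norm_num : (0 : ℝ) ≤ 1548700) (hv 3 0)))))
    (mul_nonneg (hu 1 2)
      (add_nonneg (add_nonneg (mul_nonneg (by norm_num : (0 : ℝ) ≤ 17028960) (hv 0 3))
      (mul_nonneg (by norm_num : (0 : ℝ) ≤ 43161880) (hv 1 2)))
      (add_nonneg (mul_nonneg (by norm_num : (0 : ℝ) ≤ 18464575) (hv 2 1))
      (mul_nonneg (by norm_num : (0 : ℝ) ≤ 4646100) (hv 3 0))))))
    (add_nonneg (mul_nonneg (hu 2 1)
      (add_nonneg (add_nonneg (mul_nonneg (by norm_num : (0 : ℝ) ≤ 24898260) (hv 0 3))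
      (mul_nonneg (by norm_num : (0 : ℝ) ≤ 34816379) (hv 1 2)))
      (add_nonneg (mul_nonneg (by norm_num : (0 : ℝ) ≤ 18519170) (hv 2 1))
      (mul_nonneg (by norm_num : (0 : ℝ) ≤ 4646100) (hv 3 0)))))
    (mul_nonneg (hu 3 0)
      (add_nonneg (add_nonneg (mul_nonneg (by norm_num : (0 : ℝ) ≤ 9783784) (hv 0 3))
      (mul_nonneg (by norm_num : (0 : ℝ) ≤ 4307659) (hv 1 2)))
      (add_nonneg (mul_nonneg (by norm_num : (0 : ℝ) ≤ 10195255) (hv 2 1))
      (mul_nonneg (by norm_num : (0 : ℝ) ≤ 1548700) (hv 3 0)))))))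
  refine (mul_nonneg (by norm_num : (0 : ℝ) ≤ 1 / 85800000) key).trans_eq ?_
  ring

theorem a3s_Cb1 {z s : ℝ} (h1 : 0 ≤ z) (h2 : z ≤ 1) (h3 : 0 ≤ s) (h4 : s ≤ 1) :
    0 ≤ 49 / 22500
      - 18571 / 742500 * s
      + 683 / 33000 * z
      - 8467 / 234000 * s * z
      + 90403 / 514800 * s ^ 2
      + 219 / 3575 * z ^ 2
      - 2825129 / 10725000 * s * z ^ 2
      - 1376909 / 5850000 * s ^ 2 * z
      - 2959443 / 14300000 * s ^ 3
      - 2171 / 100000 * z ^ 3
      + 15077 / 200000 * s * z ^ 3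
      + 4150843 / 7800000 * s ^ 2 * z ^ 2
      + 31742641 / 85800000 * s ^ 3 * z
      + 11731 / 200000 * s ^ 4
      - 19179 / 200000 * s ^ 2 * z ^ 3
      - 770669 / 1716000 * s ^ 3 * z ^ 2
      - 23821 / 200000 * s ^ 4 * z
      + 2099 / 40000 * s ^ 3 * z ^ 3
      + 23821 / 200000 * s ^ 4 * z ^ 2
      - 2051 / 200000 * s ^ 4 * z ^ 3 := by
  rcases le_total z (1 / 2) with h | h
  · rcases le_total s (1 / 2) with h | h
    · obtain ⟨u, rfl⟩ : ∃ u, z = 0 + 1 / 2 * u := ⟨(z - 0) / (1 / 2), by ring⟩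
      obtain ⟨v, rfl⟩ : ∃ v, s = 0 + 1 / 2 * v := ⟨(s - 0) / (1 / 2), by ring⟩
      have hu := bern_mon (a := u) (by linarith) (by linarith)
      have hv := bern_mon (a := v) (by linarith) (by linarith)
      have key := (add_nonneg (add_nonneg (mul_nonneg (hu 0 5)
          (add_nonneg (add_nonneg (mul_nonneg (by norm_num : (0 : ℝ) ≤ 215255040) (hv 0 6))
          (add_nonneg (mul_nonneg (by norm_num : (0 : ℝ) ≤ 55444480) (hv 1 5))
          (mul_nonneg (by norm_num : (0 : ℝ) ≤ 1387740800) (hv 2 4))))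
          (add_nonneg (add_nonneg (mul_nonneg (by norm_num : (0 : ℝ) ≤ 6744660448) (hv 3 3))
          (mul_nonneg (by norm_num : (0 : ℝ) ≤ 9595502872) (hv 4 2)))
          (add_nonneg (mul_nonneg (by norm_num : (0 : ℝ) ≤ 5522295440) (hv 5 1))
          (mul_nonneg (by norm_num : (0 : ℝ) ≤ 1123901656) (hv 6 0))))))
        (add_nonneg (mul_nonneg (hu 1 4)
          (add_nonneg (add_nonneg (mul_nonneg (by norm_num : (0 : ℝ) ≤ 2099136000) (hv 0 6))
          (add_nonneg (mul_nonneg (by norm_num : (0 : ℝ) ≤ 5520272000) (hv 1 5))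
          (mul_nonneg (by norm_num : (0 : ℝ) ≤ 14903008192) (hv 2 4))))
          (add_nonneg (add_nonneg (mul_nonneg (by norm_num : (0 : ℝ) ≤ 35892709160) (hv 3 3))
          (mul_nonneg (by norm_num : (0 : ℝ) ≤ 43419602444) (hv 4 2)))
          (add_nonneg (mul_nonneg (by norm_num : (0 : ℝ) ≤ 23766566176) (hv 5 1))
          (mul_nonneg (by norm_num : (0 : ℝ) ≤ 4757800700) (hv 6 0))))))
        (mul_nonneg (hu 2 3)
          (add_nonneg (add_nonneg (mul_nonneg (by norm_num : (0 : ℝ) ≤ 7757721600) (hv 0 6))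
          (add_nonneg (mul_nonneg (by norm_num : (0 : ℝ) ≤ 27354462592) (hv 1 5))
          (mul_nonneg (by norm_num : (0 : ℝ) ≤ 55455269384) (hv 2 4))))
          (add_nonneg (add_nonneg (mul_nonneg (by norm_num : (0 : ℝ) ≤ 85615972504) (hv 3 3))
          (mul_nonneg (by norm_num : (0 : ℝ) ≤ 83630954074) (hv 4 2)))
          (add_nonneg (mul_nonneg (by norm_num : (0 : ℝ) ≤ 42009084812) (hv 5 1))
          (mul_nonneg (by norm_num : (0 : ℝ) ≤ 8135574850) (hv 6 0))))))))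
        (add_nonneg (mul_nonneg (hu 3 2)
          (add_nonneg (add_nonneg (mul_nonneg (by norm_num : (0 : ℝ) ≤ 12562667808) (hv 0 6))
          (add_nonneg (mul_nonneg (by norm_num : (0 : ℝ) ≤ 48352510600) (hv 1 5))
          (mul_nonneg (by norm_num : (0 : ℝ) ≤ 88833987524) (hv 2 4))))
          (add_nonneg (add_nonneg (mul_nonneg (by norm_num : (0 : ℝ) ≤ 107126863438) (hv 3 3))
          (mul_nonneg (by norm_num : (0 : ℝ) ≤ 85421794561) (hv 4 2)))
          (add_nonneg (mul_nonneg (by norm_num : (0 : ℝ) ≤ 38412402752) (hv 5 1))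
          (mul_nonneg (by norm_num : (0 : ℝ) ≤ 7073326897) (hv 6 0))))))
        (add_nonneg (mul_nonneg (hu 4 1)
          (add_nonneg (add_nonneg (mul_nonneg (by norm_num : (0 : ℝ) ≤ 9172439616) (hv 0 6))
          (add_nonneg (mul_nonneg (by norm_num : (0 : ℝ) ≤ 36445499024) (hv 1 5))
          (mul_nonneg (by norm_num : (0 : ℝ) ≤ 63975495664) (hv 2 4))))
          (add_nonneg (add_nonneg (mul_nonneg (by norm_num : (0 : ℝ) ≤ 67253343764) (hv 3 3))
          (mul_nonneg (by norm_num : (0 : ℝ) ≤ 45651622316) (hv 4 2)))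
          (add_nonneg (mul_nonneg (by norm_num : (0 : ℝ) ≤ 18252338572) (hv 5 1))
          (mul_nonneg (by norm_num : (0 : ℝ) ≤ 3151623764) (hv 6 0))))))
        (mul_nonneg (hu 5 0)
          (add_nonneg (add_nonneg (mul_nonneg (by norm_num : (0 : ℝ) ≤ 2483612448) (hv 0 6))
          (add_nonneg (mul_nonneg (by norm_num : (0 : ℝ) ≤ 9982623496) (hv 1 5))
          (mul_nonneg (by norm_num : (0 : ℝ) ≤ 17081510132) (hv 2 4))))
          (add_nonneg (add_nonneg (mul_nonneg (by norm_num : (0 : ℝ) ≤ 16594404118) (hv 3 3))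
          (mul_nonneg (by norm_num : (0 : ℝ) ≤ 10036682257) (hv 4 2)))
          (add_nonneg (mul_nonneg (by norm_num : (0 : ℝ) ≤ 3604749896) (hv 5 1))
          (mul_nonneg (by norm_num : (0 : ℝ) ≤ 579972673) (hv 6 0)))))))))
      refine (mul_nonneg (by norm_num : (0 : ℝ) ≤ 1 / 98841600000) key).trans_eq ?_
      ring
    · obtain ⟨u, rfl⟩ : ∃ u, z = 0 + 1 / 2 * u := ⟨(z - 0) / (1 / 2), by ring⟩
      obtain ⟨v, rfl⟩ : ∃ v, s = 1 / 2 + 1 / 2 * v := ⟨(s - 1 / 2) / (1 / 2), by ring⟩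
      have hu := bern_mon (a := u) (by linarith) (by linarith)
      have hv := bern_mon (a := v) (by linarith) (by linarith)
      have key := (add_nonneg (add_nonneg (mul_nonneg (hu 0 3)
          (add_nonneg (add_nonneg (mul_nonneg (by norm_num : (0 : ℝ) ≤ 1123901656) (hv 0 4))
          (mul_nonneg (by norm_num : (0 : ℝ) ≤ 5716721120) (hv 1 3)))
          (add_nonneg (mul_nonneg (by norm_num : (0 : ℝ) ≤ 9249303936) (hv 2 2))
          (add_nonneg (mul_nonneg (by norm_num : (0 : ℝ) ≤ 4736480896) (hv 3 1))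
          (mul_nonneg (by norm_num : (0 : ℝ) ≤ 442343552) (hv 4 0))))))
        (mul_nonneg (hu 1 2)
          (add_nonneg (add_nonneg (mul_nonneg (by norm_num : (0 : ℝ) ≤ 2509997388) (hv 0 4))
          (mul_nonneg (by norm_num : (0 : ℝ) ≤ 12377998584) (hv 1 3)))
          (add_nonneg (mul_nonneg (by norm_num : (0 : ℝ) ≤ 20342692464) (hv 2 2))
          (add_nonneg (mul_nonneg (by norm_num : (0 : ℝ) ≤ 11082572064) (hv 3 1))
          (mul_nonneg (by norm_num : (0 : ℝ) ≤ 1327030656) (hv 4 0)))))))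
        (add_nonneg (mul_nonneg (hu 2 1)
          (add_nonneg (add_nonneg (mul_nonneg (by norm_num : (0 : ℝ) ≤ 1991678418) (hv 0 4))
          (mul_nonneg (by norm_num : (0 : ℝ) ≤ 8873945400) (hv 1 3)))
          (add_nonneg (mul_nonneg (by norm_num : (0 : ℝ) ≤ 14911005864) (hv 2 2))
          (add_nonneg (mul_nonneg (by norm_num : (0 : ℝ) ≤ 8820565440) (hv 3 1))
          (mul_nonneg (by norm_num : (0 : ℝ) ≤ 1327030656) (hv 4 0))))))
        (mul_nonneg (hu 3 0)
          (add_nonneg (add_nonneg (mul_nonneg (by norm_num : (0 : ℝ) ≤ 579972673) (hv 0 4))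
          (mul_nonneg (by norm_num : (0 : ℝ) ≤ 2194976834) (hv 1 3)))
          (add_nonneg (mul_nonneg (by norm_num : (0 : ℝ) ≤ 3817617336) (hv 2 2))
          (add_nonneg (mul_nonneg (by norm_num : (0 : ℝ) ≤ 2474474272) (hv 3 1))
          (mul_nonneg (by norm_num : (0 : ℝ) ≤ 442343552) (hv 4 0))))))))
      refine (mul_nonneg (by norm_num : (0 : ℝ) ≤ 1 / 98841600000) key).trans_eq ?_
      ring
  · obtain ⟨u, rfl⟩ : ∃ u, z = 1 / 2 + 1 / 2 * u := ⟨(z - 1 / 2) / (1 / 2), by ring⟩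
    obtain ⟨v, rfl⟩ : ∃ v, s = 0 + 1 * v := ⟨(s - 0) / (1), by ring⟩
    have hu := bern_mon (a := u) (by linarith) (by linarith)
    have hv := bern_mon (a := v) (by linarith) (by linarith)
    have key := (add_nonneg (add_nonneg (mul_nonneg (hu 0 3)
        (add_nonneg (add_nonneg (mul_nonneg (by norm_num : (0 : ℝ) ≤ 155225778) (hv 0 4))
        (mul_nonneg (by norm_num : (0 : ℝ) ≤ 6021713) (hv 1 3)))
        (add_nonneg (mul_nonneg (by norm_num : (0 : ℝ) ≤ 192355314) (hv 2 2))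
        (add_nonneg (mul_nonneg (by norm_num : (0 : ℝ) ≤ 198723396) (hv 3 1))
        (mul_nonneg (by norm_num : (0 : ℝ) ≤ 27646472) (hv 4 0))))))
      (mul_nonneg (hu 1 2)
        (add_nonneg (add_nonneg (mul_nonneg (by norm_num : (0 : ℝ) ≤ 668528748) (hv 0 4))
        (mul_nonneg (by norm_num : (0 : ℝ) ≤ 78706134) (hv 1 3)))
        (add_nonneg (mul_nonneg (by norm_num : (0 : ℝ) ≤ 236455962) (hv 2 2))
        (add_nonneg (mul_nonneg (by norm_num : (0 : ℝ) ≤ 421527360) (hv 3 1))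
        (mul_nonneg (by norm_num : (0 : ℝ) ≤ 82939416) (hv 4 0)))))))
      (add_nonneg (mul_nonneg (hu 2 1)
        (add_nonneg (add_nonneg (mul_nonneg (by norm_num : (0 : ℝ) ≤ 915694776) (hv 0 4))
        (mul_nonneg (by norm_num : (0 : ℝ) ≤ 84423900) (hv 1 3)))
        (add_nonneg (mul_nonneg (by norm_num : (0 : ℝ) ≤ 64905168) (hv 2 2))
        (add_nonneg (mul_nonneg (by norm_num : (0 : ℝ) ≤ 354992532) (hv 3 1))
        (mul_nonneg (by norm_num : (0 : ℝ) ≤ 82939416) (hv 4 0))))))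
      (mul_nonneg (hu 3 0)
        (add_nonneg (add_nonneg (mul_nonneg (by norm_num : (0 : ℝ) ≤ 385627344) (hv 0 4))
        (mul_nonneg (by norm_num : (0 : ℝ) ≤ 2893928) (hv 1 3)))
        (add_nonneg (mul_nonneg (by norm_num : (0 : ℝ) ≤ 20804520) (hv 2 2))
        (add_nonneg (mul_nonneg (by norm_num : (0 : ℝ) ≤ 132188568) (hv 3 1))
        (mul_nonneg (by norm_num : (0 : ℝ) ≤ 27646472) (hv 4 0))))))))
    refine (mul_nonneg (by norm_num : (0 : ℝ) ≤ 1 / 6177600000) key).trans_eq ?_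
    ring

theorem a3s_Cb2 {z s : ℝ} (h1 : 0 ≤ z) (h2 : z ≤ 1) (h3 : 0 ≤ s) (h4 : s ≤ 1) :
    0 ≤ 49 / 22500
      + 1279 / 59400 * s
      + 683 / 33000 * z
      + 7 / 429 * s * z
      + 4013 / 21450 * s ^ 2
      + 219 / 3575 * z ^ 2
      - 46457 / 7150000 * s * z ^ 2
      - 99553 / 1787500 * s ^ 2 * z
      - 9869 / 100000 * s ^ 3
      - 719 / 100000 * z ^ 3
      + 2157 / 100000 * s * z ^ 3
      - 110043 / 3575000 * s ^ 2 * z ^ 2
      + 467 / 25000 * s ^ 3 * z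
      - 2157 / 100000 * s ^ 2 * z ^ 3
      - 1199 / 50000 * s ^ 3 * z ^ 2
      + 719 / 100000 * s ^ 3 * z ^ 3 := by
  obtain ⟨u, rfl⟩ : ∃ u, z = 0 + 1 * u := ⟨(z - 0) / (1), by ring⟩
  obtain ⟨v, rfl⟩ : ∃ v, s = 0 + 1 * v := ⟨(s - 0) / (1), by ring⟩
  have hu := bern_mon (a := u) (by linarith) (by linarith)
  have hv := bern_mon (a := v) (by linarith) (by linarith)
  have key := (add_nonneg (add_nonneg (mul_nonneg (hu 0 3)
      (add_nonneg (add_nonneg (mul_nonneg (by norm_num : (0 : ℝ) ≤ 840840) (hv 0 3))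
      (mul_nonneg (by norm_num : (0 : ℝ) ≤ 10836020) (hv 1 2)))
      (add_nonneg (mul_nonneg (by norm_num : (0 : ℝ) ≤ 91383520) (hv 2 1))
      (mul_nonneg (by norm_num : (0 : ℝ) ≤ 43284131) (hv 3 0)))))
    (mul_nonneg (hu 1 2)
      (add_nonneg (add_nonneg (mul_nonneg (by norm_num : (0 : ℝ) ≤ 10513620) (hv 0 3))
      (mul_nonneg (by norm_num : (0 : ℝ) ≤ 62781360) (hv 1 2)))
      (add_nonneg (mul_nonneg (by norm_num : (0 : ℝ) ≤ 289220412) (hv 2 1))
      (mul_nonneg (by norm_num : (0 : ℝ) ≤ 129852393) (hv 3 0))))))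
    (add_nonneg (mul_nonneg (hu 2 1)
      (add_nonneg (add_nonneg (mul_nonneg (by norm_num : (0 : ℝ) ≤ 42156720) (hv 0 3))
      (mul_nonneg (by norm_num : (0 : ℝ) ≤ 161501982) (hv 1 2)))
      (add_nonneg (mul_nonneg (by norm_num : (0 : ℝ) ≤ 358344264) (hv 2 1))
      (mul_nonneg (by norm_num : (0 : ℝ) ≤ 129852393) (hv 3 0)))))
    (mul_nonneg (hu 3 0)
      (add_nonneg (add_nonneg (mul_nonneg (by norm_num : (0 : ℝ) ≤ 29707881) (hv 0 3))
      (mul_nonneg (by norm_num : (0 : ℝ) ≤ 109556642) (hv 1 2)))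
      (add_nonneg (mul_nonneg (by norm_num : (0 : ℝ) ≤ 160507372) (hv 2 1))
      (mul_nonneg (by norm_num : (0 : ℝ) ≤ 43284131) (hv 3 0)))))))
  refine (mul_nonneg (by norm_num : (0 : ℝ) ≤ 1 / 386100000) key).trans_eq ?_
  ring

theorem a3s_Cb3 {z s : ℝ} (h1 : 0 ≤ z) (h2 : z ≤ 1) (h3 : 0 ≤ s) (h4 : s ≤ 1) :
    0 ≤ 2549 / 22500
      + 131 / 6600 * s
      + 1183 / 33000 * z
      - 1 / 1716 * s * z
      + 5309 / 28600 * s ^ 2
      + 1877 / 28600 * z ^ 2
      - 361057 / 14300000 * s * z ^ 2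
      - 990357 / 14300000 * s ^ 2 * z
      - 251 / 2500 * s ^ 3
      - 9 / 2500 * z ^ 3
      + 27 / 2500 * s * z ^ 3
      - 45693 / 7150000 * s ^ 2 * z ^ 2
      + 3399 / 100000 * s ^ 3 * z
      - 27 / 2500 * s ^ 2 * z ^ 3
      - 3399 / 100000 * s ^ 3 * z ^ 2
      + 9 / 2500 * s ^ 3 * z ^ 3 := by
  obtain ⟨u, rfl⟩ : ∃ u, z = 0 + 1 * u := ⟨(z - 0) / (1), by ring⟩
  obtain ⟨v, rfl⟩ : ∃ v, s = 0 + 1 * v := ⟨(s - 0) / (1), by ring⟩
  have hu := bern_mon (a := u) (by linarith) (by linarith)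
  have hv := bern_mon (a := v) (by linarith) (by linarith)
  have key := (add_nonneg (add_nonneg (mul_nonneg (hu 0 3)
      (add_nonneg (add_nonneg (mul_nonneg (by norm_num : (0 : ℝ) ≤ 14580280) (hv 0 3))
      (mul_nonneg (by norm_num : (0 : ℝ) ≤ 46295340) (hv 1 2)))
      (add_nonneg (mul_nonneg (by norm_num : (0 : ℝ) ≤ 72740340) (hv 2 1))
      (mul_nonneg (by norm_num : (0 : ℝ) ≤ 28103800) (hv 3 0)))))
    (mul_nonneg (hu 1 2)
      (add_nonneg (add_nonneg (mul_nonneg (by norm_num : (0 : ℝ) ≤ 48354540) (hv 0 3))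
      (mul_nonneg (by norm_num : (0 : ℝ) ≤ 152652120) (hv 1 2)))
      (add_nonneg (mul_nonneg (by norm_num : (0 : ℝ) ≤ 222998907) (hv 2 1))
      (mul_nonneg (by norm_num : (0 : ℝ) ≤ 84311400) (hv 3 0))))))
    (add_nonneg (mul_nonneg (hu 2 1)
      (add_nonneg (add_nonneg (mul_nonneg (by norm_num : (0 : ℝ) ≤ 61414740) (hv 0 3))
      (mul_nonneg (by norm_num : (0 : ℝ) ≤ 188508207) (hv 1 2)))
      (add_nonneg (mul_nonneg (by norm_num : (0 : ℝ) ≤ 245794794) (hv 2 1))
      (mul_nonneg (by norm_num : (0 : ℝ) ≤ 84311400) (hv 3 0)))))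
    (mul_nonneg (hu 3 0)
      (add_nonneg (add_nonneg (mul_nonneg (by norm_num : (0 : ℝ) ≤ 27177160) (hv 0 3))
      (mul_nonneg (by norm_num : (0 : ℝ) ≤ 82151427) (hv 1 2)))
      (add_nonneg (mul_nonneg (by norm_num : (0 : ℝ) ≤ 95536227) (hv 2 1))
      (mul_nonneg (by norm_num : (0 : ℝ) ≤ 28103800) (hv 3 0)))))))
  refine (mul_nonneg (by norm_num : (0 : ℝ) ≤ 1 / 128700000) key).trans_eq ?_
  ring

theorem a3s_hph {z s : ℝ} (h1 : 0 ≤ z) (h2 : z ≤ 1) (h3 : 0 ≤ s) (h4 : s ≤ 1) :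
    0 ≤ 19 / 49500 * s
      + 22922 / 53625 * s * z
      + 1861 / 35750 * s ^ 2
      - 2099 / 5000 * s * z ^ 2
      - 7833217 / 10725000 * s ^ 2 * z
      - 1273 / 25000 * s ^ 3
      + 2099 / 2500 * s ^ 2 * z ^ 2
      + 7573 / 25000 * s ^ 3 * z
      - 2099 / 5000 * s ^ 3 * z ^ 2 := by
  obtain ⟨u, rfl⟩ : ∃ u, z = 0 + 1 * u := ⟨(z - 0) / (1), by ring⟩
  obtain ⟨v, rfl⟩ : ∃ v, s = 0 + 1 * v := ⟨(s - 0) / (1), by ring⟩
  have hu := bern_mon (a := u) (by linarith) (by linarith)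
  have hv := bern_mon (a := v) (by linarith) (by linarith)
  have key := (add_nonneg (mul_nonneg (hu 0 2)
      (add_nonneg (mul_nonneg (by norm_num : (0 : ℝ) ≤ 12350) (hv 1 2))
      (add_nonneg (mul_nonneg (by norm_num : (0 : ℝ) ≤ 1699600) (hv 2 1))
      (mul_nonneg (by norm_num : (0 : ℝ) ≤ 48899) (hv 3 0)))))
    (add_nonneg (mul_nonneg (hu 1 1)
      (add_nonneg (mul_nonneg (by norm_num : (0 : ℝ) ≤ 13777900) (hv 1 2))
      (add_nonneg (mul_nonneg (by norm_num : (0 : ℝ) ≤ 7405949) (hv 2 1))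
      (mul_nonneg (by norm_num : (0 : ℝ) ≤ 97798) (hv 3 0)))))
    (mul_nonneg (hu 2 0)
      (add_nonneg (mul_nonneg (by norm_num : (0 : ℝ) ≤ 258485) (hv 1 2))
      (add_nonneg (mul_nonneg (by norm_num : (0 : ℝ) ≤ 5706349) (hv 2 1))
      (mul_nonneg (by norm_num : (0 : ℝ) ≤ 48899) (hv 3 0)))))))
  refine (mul_nonneg (by norm_num : (0 : ℝ) ≤ 1 / 32175000) key).trans_eq ?_
  ring

theorem a3s_W0 {z s : ℝ} (h1 : 0 ≤ z) (h2 : z ≤ 1) (h3 : 0 ≤ s) (h4 : s ≤ 1) :
    0 ≤ 33702943 / 490050000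
      + 745 / 56628 * s
      - 92104349 / 353925000 * z
      - 2086583843 / 13803075000 * s * z
      - 28172237 / 9202050000 * s ^ 2
      + 2075244857 / 13803075000 * z ^ 2
      - 1921747 / 4416984000 * s * z ^ 2
      + 20305042357 / 184041000000 * s ^ 2 * z
      - 424119 / 28600000 * s ^ 3
      + 1327061 / 4290000 * z ^ 3
      + 59313318101 / 321750000000 * s * z ^ 3
      + 181294269321941 / 460102500000000 * s ^ 2 * z ^ 2
      + 24261545959 / 536250000000 * s ^ 3 * z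
      - 1620529 / 2500000000 * s ^ 4
      + 2926611371 / 42900000000 * z ^ 4
      + 1583838629 / 10725000000 * s * z ^ 4
      - 12106787323 / 29250000000 * s ^ 2 * z ^ 3
      - 5462703029 / 536250000000 * s ^ 3 * z ^ 2
      + 9640429 / 1250000000 * s ^ 4 * z
      - 7466115887 / 21450000000 * s ^ 2 * z ^ 4
      - 15375344399 / 107250000000 * s ^ 3 * z ^ 3
      - 84070599 / 2500000000 * s ^ 4 * z ^ 2
      + 4405801 / 25000000 * s ^ 3 * z ^ 4
      + 15895727 / 250000000 * s ^ 4 * z ^ 3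
      - 4405801 / 100000000 * s ^ 4 * z ^ 4 := by
  rcases le_total z (1 / 2) with h | h
  · rcases le_total s (1 / 2) with h | h
    · obtain ⟨u, rfl⟩ : ∃ u, z = 0 + 1 / 2 * u := ⟨(z - 0) / (1 / 2), by ring⟩
      obtain ⟨v, rfl⟩ : ∃ v, s = 0 + 1 / 2 * v := ⟨(s - 0) / (1 / 2), by ring⟩
      have hu := bern_mon (a := u) (by linarith) (by linarith)
      have hv := bern_mon (a := v) (by linarith) (by linarith)
      have key := (add_nonneg (add_nonneg (mul_nonneg (hu 0 6)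
          (add_nonneg (add_nonneg (mul_nonneg (by norm_num : (0 : ℝ) ≤ 72906206297600000) (hv 0 5))
          (add_nonneg (mul_nonneg (by norm_num : (0 : ℝ) ≤ 371504231488000000) (hv 1 4))
          (mul_nonneg (by norm_num : (0 : ℝ) ≤ 756143502550400000) (hv 2 3))))
          (add_nonneg (mul_nonneg (by norm_num : (0 : ℝ) ≤ 766502153548400000) (hv 3 2))
          (add_nonneg (mul_nonneg (by norm_num : (0 : ℝ) ≤ 386016746805612784) (hv 4 1))
          (mul_nonneg (by norm_num : (0 : ℝ) ≤ 77060070617212784) (hv 5 0))))))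
        (add_nonneg (mul_nonneg (hu 1 5)
          (add_nonneg (add_nonneg (mul_nonneg (by norm_num : (0 : ℝ) ≤ 299501764723200000) (hv 0 5))
          (add_nonneg (mul_nonneg (by norm_num : (0 : ℝ) ≤ 1499285613830400000) (hv 1 4))
          (mul_nonneg (by norm_num : (0 : ℝ) ≤ 3011876276033040000) (hv 2 3))))
          (add_nonneg (mul_nonneg (by norm_num : (0 : ℝ) ≤ 3026140185970246368) (hv 3 2))
          (add_nonneg (mul_nonneg (by norm_num : (0 : ℝ) ≤ 1516282982646926256) (hv 4 1))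
          (mul_nonneg (by norm_num : (0 : ℝ) ≤ 302235223602519888) (hv 5 0))))))
        (mul_nonneg (hu 2 4)
          (add_nonneg (add_nonneg (mul_nonneg (by norm_num : (0 : ℝ) ≤ 443760430406400000) (hv 0 5))
          (add_nonneg (mul_nonneg (by norm_num : (0 : ℝ) ≤ 2123030450694000000) (hv 1 4))
          (mul_nonneg (by norm_num : (0 : ℝ) ≤ 4141551619595559504) (hv 2 3))))
          (add_nonneg (mul_nonneg (by norm_num : (0 : ℝ) ≤ 4109251385113990848) (hv 3 2))
          (add_nonneg (mul_nonneg (by norm_num : (0 : ℝ) ≤ 2067243796508898900) (hv 4 1))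
          (mul_nonneg (by norm_num : (0 : ℝ) ≤ 420274010702867556) (hv 5 0))))))))
        (add_nonneg (add_nonneg (mul_nonneg (hu 3 3)
          (add_nonneg (add_nonneg (mul_nonneg (by norm_num : (0 : ℝ) ≤ 279138460513600000) (hv 0 5))
          (add_nonneg (mul_nonneg (by norm_num : (0 : ℝ) ≤ 1146515393535357920) (hv 1 4))
          (mul_nonneg (by norm_num : (0 : ℝ) ≤ 2015359901542732816) (hv 2 3))))
          (add_nonneg (mul_nonneg (by norm_num : (0 : ℝ) ≤ 1945322586841055032) (hv 3 2))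
          (add_nonneg (mul_nonneg (by norm_num : (0 : ℝ) ≤ 1034929248631151900) (hv 4 1))
          (mul_nonneg (by norm_num : (0 : ℝ) ≤ 237589630311071764) (hv 5 0))))))
        (mul_nonneg (hu 4 2)
          (add_nonneg (add_nonneg (mul_nonneg (by norm_num : (0 : ℝ) ≤ 80797210471772400) (hv 0 5))
          (add_nonneg (mul_nonneg (by norm_num : (0 : ℝ) ≤ 149147596190190960) (hv 1 4))
          (mul_nonneg (by norm_num : (0 : ℝ) ≤ 32382103484044824) (hv 2 3))))
          (add_nonneg (mul_nonneg (by norm_num : (0 : ℝ) ≤ 3044079248428488) (hv 3 2))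
          (add_nonneg (mul_nonneg (by norm_num : (0 : ℝ) ≤ 101512135270905075) (hv 4 1))
          (mul_nonneg (by norm_num : (0 : ℝ) ≤ 62499773788102851) (hv 5 0)))))))
        (add_nonneg (mul_nonneg (hu 5 1)
          (add_nonneg (add_nonneg (mul_nonneg (by norm_num : (0 : ℝ) ≤ 39149175197944800) (hv 0 5))
          (add_nonneg (mul_nonneg (by norm_num : (0 : ℝ) ≤ 83468134326308160) (hv 1 4))
          (mul_nonneg (by norm_num : (0 : ℝ) ≤ 62370615859329216) (hv 2 3))))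
          (add_nonneg (mul_nonneg (by norm_num : (0 : ℝ) ≤ 75437929868823432) (hv 3 2))
          (add_nonneg (mul_nonneg (by norm_num : (0 : ℝ) ≤ 101897278282995474) (hv 4 1))
          (mul_nonneg (by norm_num : (0 : ℝ) ≤ 44511005145137898) (hv 5 0))))))
        (mul_nonneg (hu 6 0)
          (add_nonneg (add_nonneg (mul_nonneg (by norm_num : (0 : ℝ) ≤ 20325553258972400) (hv 0 5))
          (add_nonneg (mul_nonneg (by norm_num : (0 : ℝ) ≤ 85586863319875120) (hv 1 4))
          (mul_nonneg (by norm_num : (0 : ℝ) ≤ 159529567805097704) (hv 2 3))))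
          (add_nonneg (mul_nonneg (by norm_num : (0 : ℝ) ≤ 168103084769305496) (hv 3 2))
          (add_nonneg (mul_nonneg (by norm_num : (0 : ℝ) ≤ 98336830975656871) (hv 4 1))
          (mul_nonneg (by norm_num : (0 : ℝ) ≤ 24502003950546359) (hv 5 0)))))))))
      refine (mul_nonneg (by norm_num : (0 : ℝ) ≤ 1 / 1060076160000000000) key).trans_eq ?_
      ring
    · obtain ⟨u, rfl⟩ : ∃ u, z = 0 + 1 / 2 * u := ⟨(z - 0) / (1 / 2), by ring⟩
      obtain ⟨v, rfl⟩ : ∃ v, s = 1 / 2 + 1 / 2 * v := ⟨(s - 1 / 2) / (1 / 2), by ring⟩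
      have hu := bern_mon (a := u) (by linarith) (by linarith)
      have hv := bern_mon (a := v) (by linarith) (by linarith)
      have key := (add_nonneg (add_nonneg (mul_nonneg (hu 0 5)
          (add_nonneg (add_nonneg (mul_nonneg (by norm_num : (0 : ℝ) ≤ 77060070617212784) (hv 0 4))
          (mul_nonneg (by norm_num : (0 : ℝ) ≤ 307523888749302272) (hv 1 3)))
          (add_nonneg (mul_nonneg (by norm_num : (0 : ℝ) ≤ 453247115042706816) (hv 2 2))
          (add_nonneg (mul_nonneg (by norm_num : (0 : ℝ) ≤ 290026029739609088) (hv 3 1))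
          (mul_nonneg (by norm_num : (0 : ℝ) ≤ 67199785725004544) (hv 4 0))))))
        (add_nonneg (mul_nonneg (hu 1 4)
          (add_nonneg (add_nonneg (mul_nonneg (by norm_num : (0 : ℝ) ≤ 225175152985307104) (hv 0 4))
          (mul_nonneg (by norm_num : (0 : ℝ) ≤ 896310141026450464) (hv 1 3)))
          (add_nonneg (mul_nonneg (by norm_num : (0 : ℝ) ≤ 1328204124077172288) (hv 2 2))
          (add_nonneg (mul_nonneg (by norm_num : (0 : ℝ) ≤ 861513875604310912) (hv 3 1))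
          (mul_nonneg (by norm_num : (0 : ℝ) ≤ 204485493772222720) (hv 4 0))))))
        (mul_nonneg (hu 2 3)
          (add_nonneg (add_nonneg (mul_nonneg (by norm_num : (0 : ℝ) ≤ 195098857717560452) (hv 0 4))
          (mul_nonneg (by norm_num : (0 : ℝ) ≤ 818912158790458640) (hv 1 3)))
          (add_nonneg (mul_nonneg (by norm_num : (0 : ℝ) ≤ 1338835017263420496) (hv 2 2))
          (add_nonneg (mul_nonneg (by norm_num : (0 : ℝ) ≤ 993473414159312768) (hv 3 1))
          (mul_nonneg (by norm_num : (0 : ℝ) ≤ 278487178088445440) (hv 4 0))))))))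
        (add_nonneg (mul_nonneg (hu 3 2)
          (add_nonneg (add_nonneg (mul_nonneg (by norm_num : (0 : ℝ) ≤ 42490772593511312) (hv 0 4))
          (mul_nonneg (by norm_num : (0 : ℝ) ≤ 284465265378035336) (hv 1 3)))
          (add_nonneg (mul_nonneg (by norm_num : (0 : ℝ) ≤ 727261368802795920) (hv 2 2))
          (add_nonneg (mul_nonneg (by norm_num : (0 : ℝ) ≤ 765874277016163712) (hv 3 1))
          (mul_nonneg (by norm_num : (0 : ℝ) ≤ 280546428882045440) (hv 4 0))))))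
        (add_nonneg (mul_nonneg (hu 4 1)
          (add_nonneg (add_nonneg (mul_nonneg (by norm_num : (0 : ℝ) ≤ 20009001194591539) (hv 0 4))
          (mul_nonneg (by norm_num : (0 : ℝ) ≤ 176520563443985248) (hv 1 3)))
          (add_nonneg (mul_nonneg (by norm_num : (0 : ℝ) ≤ 502690750980485424) (hv 2 2))
          (add_nonneg (mul_nonneg (by norm_num : (0 : ℝ) ≤ 553746631753587328) (hv 3 1))
          (mul_nonneg (by norm_num : (0 : ℝ) ≤ 207574369962622720) (hv 4 0))))))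
        (mul_nonneg (hu 5 0)
          (add_nonneg (add_nonneg (mul_nonneg (by norm_num : (0 : ℝ) ≤ 24502003950546359) (hv 0 4))
          (mul_nonneg (by norm_num : (0 : ℝ) ≤ 122181204579260360) (hv 1 3)))
          (add_nonneg (mul_nonneg (by norm_num : (0 : ℝ) ≤ 239307390406644528) (hv 2 2))
          (add_nonneg (mul_nonneg (by norm_num : (0 : ℝ) ≤ 209857923032034560) (hv 3 1))
          (mul_nonneg (by norm_num : (0 : ℝ) ≤ 68229411121804544) (hv 4 0)))))))))
      refine (mul_nonneg (by norm_num : (0 : ℝ) ≤ 1 / 1060076160000000000) key).trans_eq ?_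
      ring
  · obtain ⟨u, rfl⟩ : ∃ u, z = 1 / 2 + 1 / 2 * u := ⟨(z - 1 / 2) / (1 / 2), by ring⟩
    obtain ⟨v, rfl⟩ : ∃ v, s = 0 + 1 * v := ⟨(s - 0) / (1), by ring⟩
    have hu := bern_mon (a := u) (by linarith) (by linarith)
    have hv := bern_mon (a := v) (by linarith) (by linarith)
    have key := (add_nonneg (add_nonneg (mul_nonneg (hu 0 4)
        (add_nonneg (add_nonneg (mul_nonneg (by norm_num : (0 : ℝ) ≤ 1270347078685775) (hv 0 4))
        (mul_nonneg (by norm_num : (0 : ℝ) ≤ 3076275442869740) (hv 1 3)))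
        (add_nonneg (mul_nonneg (by norm_num : (0 : ℝ) ≤ 6716155635324876) (hv 2 2))
        (add_nonneg (mul_nonneg (by norm_num : (0 : ℝ) ≤ 9174887598553184) (hv 3 1))
        (mul_nonneg (by norm_num : (0 : ℝ) ≤ 4264338195112784) (hv 4 0))))))
      (mul_nonneg (hu 1 3)
        (add_nonneg (add_nonneg (mul_nonneg (by norm_num : (0 : ℝ) ≤ 10256647336986200) (hv 0 4))
        (mul_nonneg (by norm_num : (0 : ℝ) ≤ 35010178337138180) (hv 1 3)))
        (add_nonneg (mul_nonneg (by norm_num : (0 : ℝ) ≤ 64587311144414256) (hv 2 2))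
        (add_nonneg (mul_nonneg (by norm_num : (0 : ℝ) ≤ 65249251908435920) (hv 3 1))
        (mul_nonneg (by norm_num : (0 : ℝ) ≤ 25405645633351136) (hv 4 0)))))))
      (add_nonneg (mul_nonneg (hu 2 2)
        (add_nonneg (add_nonneg (mul_nonneg (by norm_num : (0 : ℝ) ≤ 35018774124258600) (hv 0 4))
        (mul_nonneg (by norm_num : (0 : ℝ) ≤ 142298629136305320) (hv 1 3)))
        (add_nonneg (mul_nonneg (by norm_num : (0 : ℝ) ≤ 237011596830908388) (hv 2 2))
        (add_nonneg (mul_nonneg (by norm_num : (0 : ℝ) ≤ 188746037611858656) (hv 3 1))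
        (mul_nonneg (by norm_num : (0 : ℝ) ≤ 58914848994976704) (hv 4 0))))))
      (add_nonneg (mul_nonneg (hu 3 1)
        (add_nonneg (add_nonneg (mul_nonneg (by norm_num : (0 : ℝ) ≤ 48040850463144800) (hv 0 4))
        (mul_nonneg (by norm_num : (0 : ℝ) ≤ 210612053862594800) (hv 1 3)))
        (add_nonneg (mul_nonneg (by norm_num : (0 : ℝ) ≤ 332002183343998512) (hv 2 2))
        (add_nonneg (mul_nonneg (by norm_num : (0 : ℝ) ≤ 228474976978622288) (hv 3 1))
        (mul_nonneg (by norm_num : (0 : ℝ) ≤ 58670113870351136) (hv 4 0))))))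
      (mul_nonneg (hu 4 0)
        (add_nonneg (add_nonneg (mul_nonneg (by norm_num : (0 : ℝ) ≤ 22290867759772400) (hv 0 4))
        (mul_nonneg (by norm_num : (0 : ℝ) ≤ 101988812365557920) (hv 1 3)))
        (add_nonneg (mul_nonneg (by norm_num : (0 : ℝ) ≤ 154949915609679504) (hv 2 2))
        (add_nonneg (mul_nonneg (by norm_num : (0 : ℝ) ≤ 96614924486646368) (hv 3 1))
        (mul_nonneg (by norm_num : (0 : ℝ) ≤ 20896572313612784) (hv 4 0)))))))))
    refine (mul_nonneg (by norm_num : (0 : ℝ) ≤ 1 / 66254760000000000) key).trans_eq ?_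
    ring

theorem a3s_W1 {z s : ℝ} (h1 : 0 ≤ z) (h2 : z ≤ 1) (h3 : 0 ≤ s) (h4 : s ≤ 1) :
    0 ≤ 3259585471 / 49005000000
      + 71497 / 5662800 * s
      - 17216958091 / 70785000000 * z
      - 8073587897 / 55212300000 * s * z
      - 114715973 / 36808200000 * s ^ 2
      + 360602350171 / 2760615000000 * z ^ 2
      - 7162696127 / 2208492000000 * s * z ^ 2
      + 2021274884569 / 18404100000000 * s ^ 2 * z
      - 41261751 / 2860000000 * s ^ 3
      + 16205093 / 53625000 * z ^ 3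
      + 3490750061 / 20109375000 * s * z ^ 3
      + 176844198997241 / 460102500000000 * s ^ 2 * z ^ 2
      + 46852147643 / 1072500000000 * s ^ 3 * z
      - 1620529 / 2500000000 * s ^ 4
      + 2637609371 / 42900000000 * z ^ 4
      + 1602213629 / 10725000000 * s * z ^ 4
      - 126971759303 / 321750000000 * s ^ 2 * z ^ 3
      - 8571129133 / 1072500000000 * s ^ 3 * z ^ 2
      + 9640429 / 1250000000 * s ^ 4 * z
      - 7358364887 / 21450000000 * s ^ 2 * z ^ 4
      - 7761433387 / 53625000000 * s ^ 3 * z ^ 3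
      - 84070599 / 2500000000 * s ^ 4 * z ^ 2
      + 4405801 / 25000000 * s ^ 3 * z ^ 4
      + 15895727 / 250000000 * s ^ 4 * z ^ 3
      - 4405801 / 100000000 * s ^ 4 * z ^ 4 := by
  rcases le_total z (1 / 2) with h | h
  · rcases le_total s (1 / 2) with h | h
    · obtain ⟨u, rfl⟩ : ∃ u, z = 0 + 1 / 2 * u := ⟨(z - 0) / (1 / 2), by ring⟩
      obtain ⟨v, rfl⟩ : ∃ v, s = 0 + 1 / 2 * v := ⟨(s - 0) / (1 / 2), by ring⟩
      have hu := bern_mon (a := u) (by linarith) (by linarith)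
      have hv := bern_mon (a := v) (by linarith) (by linarith)
      have key := (add_nonneg (add_nonneg (mul_nonneg (hu 0 6)
          (add_nonneg (add_nonneg (mul_nonneg (by norm_num : (0 : ℝ) ≤ 70511352908672000) (hv 0 5))
          (add_nonneg (mul_nonneg (by norm_num : (0 : ℝ) ≤ 359248883743360000) (hv 1 4))
          (mul_nonneg (by norm_num : (0 : ℝ) ≤ 731056050881120000) (hv 2 3))))
          (add_nonneg (mul_nonneg (by norm_num : (0 : ℝ) ≤ 740876639822588000) (hv 3 2))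
          (add_nonneg (mul_nonneg (by norm_num : (0 : ℝ) ≤ 372980950327908784) (hv 4 1))
          (mul_nonneg (by norm_num : (0 : ℝ) ≤ 74422830551752784) (hv 5 0))))))
        (add_nonneg (mul_nonneg (hu 1 5)
          (add_nonneg (add_nonneg (mul_nonneg (by norm_num : (0 : ℝ) ≤ 294147535266624000) (hv 0 5))
          (add_nonneg (mul_nonneg (by norm_num : (0 : ℝ) ≤ 1472137169627520000) (hv 1 4))
          (mul_nonneg (by norm_num : (0 : ℝ) ≤ 2956670774979136800) (hv 2 3))))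
          (add_nonneg (mul_nonneg (by norm_num : (0 : ℝ) ≤ 2970088561427332368) (hv 3 2))
          (add_nonneg (mul_nonneg (by norm_num : (0 : ℝ) ≤ 1487973607194167856) (hv 4 1))
          (mul_nonneg (by norm_num : (0 : ℝ) ≤ 296566186385076288) (hv 5 0))))))
        (mul_nonneg (hu 2 4)
          (add_nonneg (add_nonneg (mul_nonneg (by norm_num : (0 : ℝ) ≤ 447685208319456000) (hv 0 5))
          (add_nonneg (mul_nonneg (by norm_num : (0 : ℝ) ≤ 2144611958301660000) (hv 1 4))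
          (mul_nonneg (by norm_num : (0 : ℝ) ≤ 4187437885428166704) (hv 2 3))))
          (add_nonneg (mul_nonneg (by norm_num : (0 : ℝ) ≤ 4157024844286429848) (hv 3 2))
          (add_nonneg (mul_nonneg (by norm_num : (0 : ℝ) ≤ 2091834058221315300) (hv 4 1))
          (mul_nonneg (by norm_num : (0 : ℝ) ≤ 425320349380848156) (hv 5 0))))))))
        (add_nonneg (add_nonneg (mul_nonneg (hu 3 3)
          (add_nonneg (add_nonneg (mul_nonneg (by norm_num : (0 : ℝ) ≤ 299535971791744000) (hv 0 5))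
          (add_nonneg (mul_nonneg (by norm_num : (0 : ℝ) ≤ 1253772020873217920) (hv 1 4))
          (mul_nonneg (by norm_num : (0 : ℝ) ≤ 2237530303436973616) (hv 2 3))))
          (add_nonneg (mul_nonneg (by norm_num : (0 : ℝ) ≤ 2172570765079136032) (hv 3 2))
          (add_nonneg (mul_nonneg (by norm_num : (0 : ℝ) ≤ 1149953352385311500) (hv 4 1))
          (mul_nonneg (by norm_num : (0 : ℝ) ≤ 260676841661675164) (hv 5 0))))))
        (mul_nonneg (hu 4 2)
          (add_nonneg (add_nonneg (mul_nonneg (by norm_num : (0 : ℝ) ≤ 100375248407228400) (hv 0 5))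
          (add_nonneg (mul_nonneg (by norm_num : (0 : ℝ) ≤ 251599289954610960) (hv 1 4))
          (mul_nonneg (by norm_num : (0 : ℝ) ≤ 243679363905492024) (hv 2 3))))
          (add_nonneg (mul_nonneg (by norm_num : (0 : ℝ) ≤ 218141128664677488) (hv 3 2))
          (add_nonneg (mul_nonneg (by norm_num : (0 : ℝ) ≤ 209731038219461475) (hv 4 1))
          (mul_nonneg (by norm_num : (0 : ℝ) ≤ 84045231912893451) (hv 5 0)))))))
        (add_nonneg (mul_nonneg (hu 5 1)
          (add_nonneg (add_nonneg (mul_nonneg (by norm_num : (0 : ℝ) ≤ 45213855835960800) (hv 0 5))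
          (add_nonneg (mul_nonneg (by norm_num : (0 : ℝ) ≤ 115137804818768160) (hv 1 4))
          (mul_nonneg (by norm_num : (0 : ℝ) ≤ 127501789603766016) (hv 2 3))))
          (add_nonneg (mul_nonneg (by norm_num : (0 : ℝ) ≤ 141486371036532432) (hv 3 2))
          (add_nonneg (mul_nonneg (by norm_num : (0 : ℝ) ≤ 134955918164863074) (hv 4 1))
          (mul_nonneg (by norm_num : (0 : ℝ) ≤ 51047387749289298) (hv 5 0))))))
        (mul_nonneg (hu 6 0)
          (add_nonneg (add_nonneg (mul_nonneg (by norm_num : (0 : ℝ) ≤ 20325553258972400) (hv 0 5))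
          (add_nonneg (mul_nonneg (by norm_num : (0 : ℝ) ≤ 85586863319875120) (hv 1 4))
          (mul_nonneg (by norm_num : (0 : ℝ) ≤ 159529567805097704) (hv 2 3))))
          (add_nonneg (mul_nonneg (by norm_num : (0 : ℝ) ≤ 168103084769305496) (hv 3 2))
          (add_nonneg (mul_nonneg (by norm_num : (0 : ℝ) ≤ 98336830975656871) (hv 4 1))
          (mul_nonneg (by norm_num : (0 : ℝ) ≤ 24502003950546359) (hv 5 0)))))))))
      refine (mul_nonneg (by norm_num : (0 : ℝ) ≤ 1 / 1060076160000000000) key).trans_eq ?_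
      ring
    · obtain ⟨u, rfl⟩ : ∃ u, z = 0 + 1 / 2 * u := ⟨(z - 0) / (1 / 2), by ring⟩
      obtain ⟨v, rfl⟩ : ∃ v, s = 1 / 2 + 1 / 2 * v := ⟨(s - 1 / 2) / (1 / 2), by ring⟩
      have hu := bern_mon (a := u) (by linarith) (by linarith)
      have hv := bern_mon (a := v) (by linarith) (by linarith)
      have key := (add_nonneg (add_nonneg (mul_nonneg (hu 0 4)
          (add_nonneg (add_nonneg (mul_nonneg (by norm_num : (0 : ℝ) ≤ 74422830551752784) (hv 0 4))
          (mul_nonneg (by norm_num : (0 : ℝ) ≤ 296824524637866272) (hv 1 3)))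
          (add_nonneg (mul_nonneg (by norm_num : (0 : ℝ) ≤ 437117734631562816) (hv 2 2))
          (add_nonneg (mul_nonneg (by norm_num : (0 : ℝ) ≤ 279369689693257088) (hv 3 1))
          (mul_nonneg (by norm_num : (0 : ℝ) ≤ 64610702043820544) (hv 4 0))))))
        (mul_nonneg (hu 1 3)
          (add_nonneg (add_nonneg (mul_nonneg (by norm_num : (0 : ℝ) ≤ 147720525281570720) (hv 0 4))
          (mul_nonneg (by norm_num : (0 : ℝ) ≤ 587473020995786192) (hv 1 3)))
          (add_nonneg (mul_nonneg (by norm_num : (0 : ℝ) ≤ 873589619742396672) (hv 2 2))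
          (add_nonneg (mul_nonneg (by norm_num : (0 : ℝ) ≤ 571224463338895424) (hv 3 1))
          (mul_nonneg (by norm_num : (0 : ℝ) ≤ 137471040618642176) (hv 4 0)))))))
        (add_nonneg (mul_nonneg (hu 2 2)
          (add_nonneg (add_nonneg (mul_nonneg (by norm_num : (0 : ℝ) ≤ 55456468265953932) (hv 0 4))
          (mul_nonneg (by norm_num : (0 : ℝ) ≤ 264278519576879448) (hv 1 3)))
          (add_nonneg (mul_nonneg (by norm_num : (0 : ℝ) ≤ 514820293427159424) (hv 2 2))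
          (add_nonneg (mul_nonneg (by norm_num : (0 : ℝ) ≤ 455385849532134144) (hv 3 1))
          (mul_nonneg (by norm_num : (0 : ℝ) ≤ 149339386227627264) (hv 4 0))))))
        (add_nonneg (mul_nonneg (hu 3 1)
          (add_nonneg (add_nonneg (mul_nonneg (by norm_num : (0 : ℝ) ≤ 2043379848196580) (hv 0 4))
          (mul_nonneg (by norm_num : (0 : ℝ) ≤ 80108162420219888) (hv 1 3)))
          (add_nonneg (mul_nonneg (by norm_num : (0 : ℝ) ≤ 300649183297170096) (hv 2 2))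
          (add_nonneg (mul_nonneg (by norm_num : (0 : ℝ) ≤ 367285610427330368) (hv 3 1))
          (mul_nonneg (by norm_num : (0 : ℝ) ≤ 144708458774610176) (hv 4 0))))))
        (mul_nonneg (hu 4 0)
          (add_nonneg (add_nonneg (mul_nonneg (by norm_num : (0 : ℝ) ≤ 24502003950546359) (hv 0 4))
          (mul_nonneg (by norm_num : (0 : ℝ) ≤ 122181204579260360) (hv 1 3)))
          (add_nonneg (mul_nonneg (by norm_num : (0 : ℝ) ≤ 239307390406644528) (hv 2 2))
          (add_nonneg (mul_nonneg (by norm_num : (0 : ℝ) ≤ 209857923032034560) (hv 3 1))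
          (mul_nonneg (by norm_num : (0 : ℝ) ≤ 68229411121804544) (hv 4 0)))))))))
      refine (mul_nonneg (by norm_num : (0 : ℝ) ≤ 1 / 1060076160000000000) key).trans_eq ?_
      ring
  · obtain ⟨u, rfl⟩ : ∃ u, z = 1 / 2 + 1 / 2 * u := ⟨(z - 1 / 2) / (1 / 2), by ring⟩
    obtain ⟨v, rfl⟩ : ∃ v, s = 0 + 1 * v := ⟨(s - 0) / (1), by ring⟩
    have hu := bern_mon (a := u) (by linarith) (by linarith)
    have hv := bern_mon (a := v) (by linarith) (by linarith)
    have key := (add_nonneg (add_nonneg (mul_nonneg (hu 0 4)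
        (add_nonneg (add_nonneg (mul_nonneg (by norm_num : (0 : ℝ) ≤ 1270347078685775) (hv 0 4))
        (mul_nonneg (by norm_num : (0 : ℝ) ≤ 3076275442869740) (hv 1 3)))
        (add_nonneg (mul_nonneg (by norm_num : (0 : ℝ) ≤ 6716155635324876) (hv 2 2))
        (add_nonneg (mul_nonneg (by norm_num : (0 : ℝ) ≤ 9174887598553184) (hv 3 1))
        (mul_nonneg (by norm_num : (0 : ℝ) ≤ 4264338195112784) (hv 4 0))))))
      (mul_nonneg (hu 1 3)
        (add_nonneg (add_nonneg (mul_nonneg (by norm_num : (0 : ℝ) ≤ 9877604797110200) (hv 0 4))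
        (mul_nonneg (by norm_num : (0 : ℝ) ≤ 33325724764836680) (hv 1 3)))
        (add_nonneg (mul_nonneg (by norm_num : (0 : ℝ) ≤ 62033381128076556) (hv 2 2))
        (add_nonneg (mul_nonneg (by norm_num : (0 : ℝ) ≤ 63665514178661720) (hv 3 1))
        (mul_nonneg (by norm_num : (0 : ℝ) ≤ 25070426887489136) (hv 4 0)))))))
      (add_nonneg (mul_nonneg (hu 2 2)
        (add_nonneg (add_nonneg (mul_nonneg (by norm_num : (0 : ℝ) ≤ 33210061176216600) (hv 0 4))
        (mul_nonneg (by norm_num : (0 : ℝ) ≤ 134287698052649820) (hv 1 3)))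
        (add_nonneg (mul_nonneg (by norm_num : (0 : ℝ) ≤ 224950201138262088) (hv 2 2))
        (add_nonneg (mul_nonneg (by norm_num : (0 : ℝ) ≤ 181384167341303856) (hv 3 1))
        (mul_nonneg (by norm_num : (0 : ℝ) ≤ 57412156281454704) (hv 4 0))))))
      (add_nonneg (mul_nonneg (hu 3 1)
        (add_nonneg (add_nonneg (mul_nonneg (by norm_num : (0 : ℝ) ≤ 45389791816908800) (hv 0 4))
        (mul_nonneg (by norm_num : (0 : ℝ) ≤ 198899794980270800) (hv 1 3)))
        (add_nonneg (mul_nonneg (by norm_num : (0 : ℝ) ≤ 314577339931021512) (hv 2 2))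
        (add_nonneg (mul_nonneg (by norm_num : (0 : ℝ) ≤ 218111604612275288) (hv 3 1))
        (mul_nonneg (by norm_num : (0 : ℝ) ≤ 56670384680893136) (hv 4 0))))))
      (mul_nonneg (hu 4 0)
        (add_nonneg (add_nonneg (mul_nonneg (by norm_num : (0 : ℝ) ≤ 21041583603652400) (hv 0 4))
        (mul_nonneg (by norm_num : (0 : ℝ) ≤ 96498541909887920) (hv 1 3)))
        (add_nonneg (mul_nonneg (by norm_num : (0 : ℝ) ≤ 146907247457761104) (hv 2 2))
        (add_nonneg (mul_nonneg (by norm_num : (0 : ℝ) ≤ 91980987412479968) (hv 3 1))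
        (mul_nonneg (by norm_num : (0 : ℝ) ≤ 20064317091814784) (hv 4 0)))))))))
    refine (mul_nonneg (by norm_num : (0 : ℝ) ≤ 1 / 66254760000000000) key).trans_eq ?_
    ring

theorem a3s_H {z s : ℝ} (h1 : 0 ≤ z) (h2 : z ≤ 1) (h3 : 0 ≤ s) (h4 : s ≤ 1) :
    0 ≤ 59717 / 540000
      - 2141 / 79200 * s
      + 7549 / 297000 * z
      - 5 / 1404 * s * z
      - 9879 / 57200 * s ^ 2
      + 6881 / 257400 * z ^ 2
      - 35 / 5148 * s * z ^ 2
      - 28129 / 1287000 * s ^ 2 * z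
      + 1391 / 15000 * s ^ 3
      - 5131 / 257400 * s ^ 2 * z ^ 2 := by
  obtain ⟨u, rfl⟩ : ∃ u, z = 0 + 1 * u := ⟨(z - 0) / (1), by ring⟩
  obtain ⟨v, rfl⟩ : ∃ v, s = 0 + 1 * v := ⟨(s - 0) / (1), by ring⟩
  have hu := bern_mon (a := u) (by linarith) (by linarith)
  have hv := bern_mon (a := v) (by linarith) (by linarith)
  have key := (add_nonneg (mul_nonneg (hu 0 2)
      (add_nonneg (add_nonneg (mul_nonneg (by norm_num : (0 : ℝ) ≤ 8539531) (hv 0 3))
      (mul_nonneg (by norm_num : (0 : ℝ) ≤ 23531118) (hv 1 2)))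
      (add_nonneg (mul_nonneg (by norm_num : (0 : ℝ) ≤ 8106993) (hv 2 1))
      (mul_nonneg (by norm_num : (0 : ℝ) ≤ 276274) (hv 3 0)))))
    (add_nonneg (mul_nonneg (hu 1 1)
      (add_nonneg (add_nonneg (mul_nonneg (by norm_num : (0 : ℝ) ≤ 19041802) (hv 0 3))
      (mul_nonneg (by norm_num : (0 : ℝ) ≤ 52675456) (hv 1 2)))
      (add_nonneg (mul_nonneg (by norm_num : (0 : ℝ) ≤ 19864466) (hv 2 1))
      (mul_nonneg (by norm_num : (0 : ℝ) ≤ 552548) (hv 3 0)))))
    (mul_nonneg (hu 2 0)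
      (add_nonneg (add_nonneg (mul_nonneg (by norm_num : (0 : ℝ) ≤ 12566571) (hv 0 3))
      (mul_nonneg (by norm_num : (0 : ℝ) ≤ 34812238) (hv 1 2)))
      (add_nonneg (mul_nonneg (by norm_num : (0 : ℝ) ≤ 15361073) (hv 2 1))
      (mul_nonneg (by norm_num : (0 : ℝ) ≤ 276274) (hv 3 0)))))))
  refine (mul_nonneg (by norm_num : (0 : ℝ) ≤ 1 / 77220000) key).trans_eq ?_
  ring

theorem a3s_K1 {z s : ℝ} (h1 : 0 ≤ z) (h2 : z ≤ 1) (h3 : 0 ≤ s) (h4 : s ≤ 1) :
    0 ≤ 2353 / 22500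
      + 38751 / 55000 * s
      - 829727 / 5940000 * z
      - 16494497 / 38610000 * s * z
      - 9593 / 21450 * s ^ 2
      - 339517043 / 7722000000 * z ^ 2
      - 3101905597 / 1287000000 * s * z ^ 2
      - 603059 / 160875 * s ^ 2 * z
      + 11865577 / 14300000 * s ^ 3
      + 340142484829 / 772200000000 * z ^ 3
      + 161549202323 / 386100000000 * s * z ^ 3
      + 11964390649 / 1544400000 * s ^ 2 * z ^ 2
      + 135406969 / 28600000 * s ^ 3 * z
      - 25539 / 100000 * s ^ 4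
      + 328984585441 / 1544400000000 * z ^ 4
      + 1742036653627 / 772200000000 * s * z ^ 4
      - 2965624553 / 30888000000 * s ^ 2 * z ^ 3
      - 860484253 / 160875000 * s ^ 3 * z ^ 2
      - 251399 / 600000 * s ^ 4 * z
      - 57746158439 / 1544400000000 * z ^ 5
      + 5624470343 / 19800000000 * s * z ^ 5
      - 509629703059 / 102960000000 * s ^ 2 * z ^ 4
      - 132566812073 / 128700000000 * s ^ 3 * z ^ 3
      + 83963 / 1500000 * s ^ 4 * z ^ 2
      - 723926617 / 19305000000 * z ^ 6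
      - 2613135089 / 38610000000 * s * z ^ 6
      - 141362962649 / 308880000000 * s ^ 2 * z ^ 5
      + 619973362763 / 257400000000 * s ^ 3 * z ^ 4
      + 13357977 / 50000000 * s ^ 4 * z ^ 3
      - 64743329 / 5148000000 * z ^ 7
      - 596596463 / 8580000000 * s * z ^ 7
      + 24415579 / 118800000 * s ^ 2 * z ^ 6
      + 43079279653 / 257400000000 * s ^ 3 * z ^ 5
      + 21668119 / 300000000 * s ^ 4 * z ^ 4
      + 1516909571 / 8580000000 * s ^ 2 * z ^ 7
      - 322839571 / 3217500000 * s ^ 3 * z ^ 6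
      + 13087919 / 300000000 * s ^ 4 * z ^ 5
      - 2437222679 / 25740000000 * s ^ 3 * z ^ 7 := by
  obtain ⟨u, rfl⟩ : ∃ u, z = 0 + 1 * u := ⟨(z - 0) / (1), by ring⟩
  obtain ⟨v, rfl⟩ : ∃ v, s = 0 + 1 * v := ⟨(s - 0) / (1), by ring⟩
  have hu := bern_mon (a := u) (by linarith) (by linarith)
  have hv := bern_mon (a := v) (by linarith) (by linarith)
  have key := (add_nonneg (add_nonneg (add_nonneg (mul_nonneg (hu 0 9)
      (add_nonneg (add_nonneg (mul_nonneg (by norm_num : (0 : ℝ) ≤ 161509920000) (hv 0 6))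
      (add_nonneg (mul_nonneg (by norm_num : (0 : ℝ) ≤ 2057187600000) (hv 1 5))
      (mul_nonneg (by norm_num : (0 : ℝ) ≤ 7172593200000) (hv 2 4))))
      (add_nonneg (add_nonneg (mul_nonneg (by norm_num : (0 : ℝ) ≤ 12630177516000) (hv 3 3))
      (mul_nonneg (by norm_num : (0 : ℝ) ≤ 12609776232000) (hv 4 2)))
      (add_nonneg (mul_nonneg (by norm_num : (0 : ℝ) ≤ 6702514236000) (hv 5 1))
      (mul_nonneg (by norm_num : (0 : ℝ) ≤ 1446000000000) (hv 6 0))))))
    (mul_nonneg (hu 1 8)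
      (add_nonneg (add_nonneg (mul_nonneg (by norm_num : (0 : ℝ) ≤ 1237860260000) (hv 0 6))
      (add_nonneg (mul_nonneg (by norm_num : (0 : ℝ) ≤ 16560534400000) (hv 1 5))
      (mul_nonneg (by norm_num : (0 : ℝ) ≤ 52229137700000) (hv 2 4))))
      (add_nonneg (add_nonneg (mul_nonneg (by norm_num : (0 : ℝ) ≤ 86913729170000) (hv 3 3))
      (mul_nonneg (by norm_num : (0 : ℝ) ≤ 90206881540000) (hv 4 2)))
      (add_nonneg (mul_nonneg (by norm_num : (0 : ℝ) ≤ 53213615930000) (hv 5 1))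
      (mul_nonneg (by norm_num : (0 : ℝ) ≤ 13014000000000) (hv 6 0)))))))
    (add_nonneg (mul_nonneg (hu 2 7)
      (add_nonneg (add_nonneg (mul_nonneg (by norm_num : (0 : ℝ) ≤ 4020621551400) (hv 0 6))
      (add_nonneg (mul_nonneg (by norm_num : (0 : ℝ) ≤ 54295814432000) (hv 1 5))
      (mul_nonneg (by norm_num : (0 : ℝ) ≤ 151954152338000) (hv 2 4))))
      (add_nonneg (add_nonneg (mul_nonneg (by norm_num : (0 : ℝ) ≤ 241639421215200) (hv 3 3))
      (mul_nonneg (by norm_num : (0 : ℝ) ≤ 276552535387400) (hv 4 2)))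
      (add_nonneg (mul_nonneg (by norm_num : (0 : ℝ) ≤ 188648073629600) (hv 5 1))
      (mul_nonneg (by norm_num : (0 : ℝ) ≤ 52056000000000) (hv 6 0))))))
    (add_nonneg (mul_nonneg (hu 3 6)
      (add_nonneg (add_nonneg (mul_nonneg (by norm_num : (0 : ℝ) ≤ 7731381829458) (hv 0 6))
      (add_nonneg (mul_nonneg (by norm_num : (0 : ℝ) ≤ 93907402851240) (hv 1 5))
      (mul_nonneg (by norm_num : (0 : ℝ) ≤ 217048016929680) (hv 2 4))))
      (add_nonneg (add_nonneg (mul_nonneg (by norm_num : (0 : ℝ) ≤ 336710183921004) (hv 3 3))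
      (mul_nonneg (by norm_num : (0 : ℝ) ≤ 480713019310638) (hv 4 2)))
      (add_nonneg (mul_nonneg (by norm_num : (0 : ℝ) ≤ 396338831297532) (hv 5 1))
      (mul_nonneg (by norm_num : (0 : ℝ) ≤ 121464000000000) (hv 6 0))))))
    (mul_nonneg (hu 4 5)
      (add_nonneg (add_nonneg (mul_nonneg (by norm_num : (0 : ℝ) ≤ 11254147622789) (hv 0 6))
      (add_nonneg (mul_nonneg (by norm_num : (0 : ℝ) ≤ 96874583655340) (hv 1 5))
      (mul_nonneg (by norm_num : (0 : ℝ) ≤ 147046560252080) (hv 2 4))))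
      (add_nonneg (add_nonneg (mul_nonneg (by norm_num : (0 : ℝ) ≤ 236162207285222) (hv 3 3))
      (mul_nonneg (by norm_num : (0 : ℝ) ≤ 544608330321619) (hv 4 2)))
      (add_nonneg (mul_nonneg (by norm_num : (0 : ℝ) ≤ 552068247255926) (hv 5 1))
      (mul_nonneg (by norm_num : (0 : ℝ) ≤ 182196000000000) (hv 6 0)))))))))
    (add_nonneg (add_nonneg (mul_nonneg (hu 5 4)
      (add_nonneg (add_nonneg (mul_nonneg (by norm_num : (0 : ℝ) ≤ 14664050532636) (hv 0 6))
      (add_nonneg (mul_nonneg (by norm_num : (0 : ℝ) ≤ 76175841964220) (hv 1 5))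
      (mul_nonneg (by norm_num : (0 : ℝ) ≤ 46235519589140) (hv 2 4))))
      (add_nonneg (add_nonneg (mul_nonneg (by norm_num : (0 : ℝ) ≤ 95642725382748) (hv 3 3))
      (mul_nonneg (by norm_num : (0 : ℝ) ≤ 466158007191776) (hv 4 2)))
      (add_nonneg (mul_nonneg (by norm_num : (0 : ℝ) ≤ 537435009966584) (hv 5 1))
      (mul_nonneg (by norm_num : (0 : ℝ) ≤ 182196000000000) (hv 6 0))))))
    (mul_nonneg (hu 6 3)
      (add_nonneg (add_nonneg (mul_nonneg (by norm_num : (0 : ℝ) ≤ 15716035343454) (hv 0 6))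
      (add_nonneg (mul_nonneg (by norm_num : (0 : ℝ) ≤ 67886241028560) (hv 1 5))
      (mul_nonneg (by norm_num : (0 : ℝ) ≤ 58301428568160) (hv 2 4))))
      (add_nonneg (add_nonneg (mul_nonneg (by norm_num : (0 : ℝ) ≤ 102917797233972) (hv 3 3))
      (mul_nonneg (by norm_num : (0 : ℝ) ≤ 345360096160434) (hv 4 2)))
      (add_nonneg (mul_nonneg (by norm_num : (0 : ℝ) ≤ 370037521809516) (hv 5 1))
      (mul_nonneg (by norm_num : (0 : ℝ) ≤ 121464000000000) (hv 6 0)))))))
    (add_nonneg (mul_nonneg (hu 7 2)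
      (add_nonneg (add_nonneg (mul_nonneg (by norm_num : (0 : ℝ) ≤ 11302451041266) (hv 0 6))
      (add_nonneg (mul_nonneg (by norm_num : (0 : ℝ) ≤ 57090433201620) (hv 1 5))
      (mul_nonneg (by norm_num : (0 : ℝ) ≤ 98515977368820) (hv 2 4))))
      (add_nonneg (add_nonneg (mul_nonneg (by norm_num : (0 : ℝ) ≤ 140879780700768) (hv 3 3))
      (mul_nonneg (by norm_num : (0 : ℝ) ≤ 210117106895226) (hv 4 2)))
      (add_nonneg (mul_nonneg (by norm_num : (0 : ℝ) ≤ 174021321402924) (hv 5 1))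
      (mul_nonneg (by norm_num : (0 : ℝ) ≤ 52056000000000) (hv 6 0))))))
    (add_nonneg (mul_nonneg (hu 8 1)
      (add_nonneg (add_nonneg (mul_nonneg (by norm_num : (0 : ℝ) ≤ 4535492985717) (hv 0 6))
      (add_nonneg (mul_nonneg (by norm_num : (0 : ℝ) ≤ 28195895781180) (hv 1 5))
      (mul_nonneg (by norm_num : (0 : ℝ) ≤ 63725744141400) (hv 2 4))))
      (add_nonneg (add_nonneg (mul_nonneg (by norm_num : (0 : ℝ) ≤ 85189425540126) (hv 3 3))
      (mul_nonneg (by norm_num : (0 : ℝ) ≤ 82321736852187) (hv 4 2)))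
      (add_nonneg (mul_nonneg (by norm_num : (0 : ℝ) ≤ 50211652657998) (hv 5 1))
      (mul_nonneg (by norm_num : (0 : ℝ) ≤ 13014000000000) (hv 6 0))))))
    (mul_nonneg (hu 9 0)
      (add_nonneg (add_nonneg (mul_nonneg (by norm_num : (0 : ℝ) ≤ 752063760000) (hv 0 6))
      (add_nonneg (mul_nonneg (by norm_num : (0 : ℝ) ≤ 5575510080000) (hv 1 5))
      (mul_nonneg (by norm_num : (0 : ℝ) ≤ 14171826912000) (hv 2 4))))
      (add_nonneg (add_nonneg (mul_nonneg (by norm_num : (0 : ℝ) ≤ 18392609616000) (hv 3 3))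
      (mul_nonneg (by norm_num : (0 : ℝ) ≤ 14257460016000) (hv 4 2)))
      (add_nonneg (mul_nonneg (by norm_num : (0 : ℝ) ≤ 6659230992000) (hv 5 1))
      (mul_nonneg (by norm_num : (0 : ℝ) ≤ 1446000000000) (hv 6 0))))))))))
  refine (mul_nonneg (by norm_num : (0 : ℝ) ≤ 1 / 1544400000000) key).trans_eq ?_
  ring

theorem a3s_K2 {z s : ℝ} (h1 : 0 ≤ z) (h2 : z ≤ 1) (h3 : 0 ≤ s) (h4 : s ≤ 1) :
    0 ≤ 2353 / 22500
      + 38751 / 55000 * s
      + 512317 / 5940000 * z
      - 55098413 / 38610000 * s * z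
      - 9593 / 21450 * s ^ 2
      + 151873819 / 2574000000 * z ^ 2
      - 15353614291 / 3861000000 * s * z ^ 2
      - 932543 / 257400 * s ^ 2 * z
      + 11865577 / 14300000 * s ^ 3
      + 396266264129 / 772200000000 * z ^ 3
      + 2698299784423 / 386100000000 * s * z ^ 3
      + 859831201 / 61776000 * s ^ 2 * z ^ 2
      + 12111183 / 2200000 * s ^ 3 * z
      - 25539 / 100000 * s ^ 4
      - 407424163517 / 1544400000000 * z ^ 4
      - 865234516199 / 772200000000 * s * z ^ 4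
      - 472119446653 / 30888000000 * s ^ 2 * z ^ 3
      - 46849919 / 4500000 * s ^ 3 * z ^ 2
      - 324809 / 600000 * s ^ 4 * z
      - 2058485489 / 171600000000 * z ^ 5
      - 23850533747 / 70200000000 * s * z ^ 5
      + 28021665109 / 9360000000 * s ^ 2 * z ^ 4
      + 329925713609 / 42900000000 * s ^ 3 * z ^ 3
      + 615223 / 1500000 * s ^ 4 * z ^ 2
      - 123611659 / 9652500000 * z ^ 6
      - 1625120249 / 7722000000 * s * z ^ 6
      + 33843033413 / 61776000000 * s ^ 2 * z ^ 5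
      - 440606749751 / 257400000000 * s ^ 3 * z ^ 4
      + 4626877 / 50000000 * s ^ 4 * z ^ 3
      + 64743329 / 5148000000 * z ^ 7
      + 596596463 / 8580000000 * s * z ^ 7
      + 19369309103 / 38610000000 * s ^ 2 * z ^ 6
      - 39243519413 / 257400000000 * s ^ 3 * z ^ 5
      + 30683557 / 300000000 * s ^ 4 * z ^ 4
      - 1516909571 / 8580000000 * s ^ 2 * z ^ 7
      - 199060393 / 715000000 * s ^ 3 * z ^ 6
      - 13087919 / 300000000 * s ^ 4 * z ^ 5
      + 2437222679 / 25740000000 * s ^ 3 * z ^ 7 := by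
  obtain ⟨u, rfl⟩ : ∃ u, z = 0 + 1 * u := ⟨(z - 0) / (1), by ring⟩
  obtain ⟨v, rfl⟩ : ∃ v, s = 0 + 1 * v := ⟨(s - 0) / (1), by ring⟩
  have hu := bern_mon (a := u) (by linarith) (by linarith)
  have hv := bern_mon (a := v) (by linarith) (by linarith)
  have key := (add_nonneg (add_nonneg (add_nonneg (mul_nonneg (hu 0 7)
      (add_nonneg (add_nonneg (mul_nonneg (by norm_num : (0 : ℝ) ≤ 161509920000) (hv 0 5))
      (add_nonneg (mul_nonneg (by norm_num : (0 : ℝ) ≤ 1895677680000) (hv 1 4))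
      (mul_nonneg (by norm_num : (0 : ℝ) ≤ 5276915520000) (hv 2 3))))
      (add_nonneg (mul_nonneg (by norm_num : (0 : ℝ) ≤ 7353261996000) (hv 3 2))
      (add_nonneg (mul_nonneg (by norm_num : (0 : ℝ) ≤ 5256514236000) (hv 4 1))
      (mul_nonneg (by norm_num : (0 : ℝ) ≤ 1446000000000) (hv 5 0))))))
    (mul_nonneg (hu 1 6)
      (add_nonneg (add_nonneg (mul_nonneg (by norm_num : (0 : ℝ) ≤ 1263771860000) (hv 0 5))
      (add_nonneg (mul_nonneg (by norm_num : (0 : ℝ) ≤ 11731819340000) (hv 1 4))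
      (mul_nonneg (by norm_num : (0 : ℝ) ≤ 23859428760000) (hv 2 3))))
      (add_nonneg (mul_nonneg (by norm_num : (0 : ℝ) ≤ 31297515518000) (hv 3 2))
      (add_nonneg (mul_nonneg (by norm_num : (0 : ℝ) ≤ 28028134238000) (hv 4 1))
      (mul_nonneg (by norm_num : (0 : ℝ) ≤ 10122000000000) (hv 5 0)))))))
    (add_nonneg (mul_nonneg (hu 2 5)
      (add_nonneg (add_nonneg (mul_nonneg (by norm_num : (0 : ℝ) ≤ 4282047131400) (hv 0 5))
      (add_nonneg (mul_nonneg (by norm_num : (0 : ℝ) ≤ 24895860500600) (hv 1 4))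
      (mul_nonneg (by norm_num : (0 : ℝ) ≤ 30182586713400) (hv 2 3))))
      (add_nonneg (mul_nonneg (by norm_num : (0 : ℝ) ≤ 45837607681800) (hv 3 2))
      (add_nonneg (mul_nonneg (by norm_num : (0 : ℝ) ≤ 66634834337600) (hv 4 1))
      (mul_nonneg (by norm_num : (0 : ℝ) ≤ 30366000000000) (hv 5 0))))))
    (mul_nonneg (hu 3 4)
      (add_nonneg (add_nonneg (mul_nonneg (by norm_num : (0 : ℝ) ≤ 8899037485258) (hv 0 5))
      (add_nonneg (mul_nonneg (by norm_num : (0 : ℝ) ≤ 29606592981982) (hv 1 4))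
      (mul_nonneg (by norm_num : (0 : ℝ) ≤ 5205694867698) (hv 2 3))))
      (add_nonneg (mul_nonneg (by norm_num : (0 : ℝ) ≤ 30833404299706) (hv 3 2))
      (add_nonneg (mul_nonneg (by norm_num : (0 : ℝ) ≤ 96945264928732) (hv 4 1))
      (mul_nonneg (by norm_num : (0 : ℝ) ≤ 50610000000000) (hv 5 0))))))))
    (add_nonneg (add_nonneg (mul_nonneg (hu 4 3)
      (add_nonneg (add_nonneg (mul_nonneg (by norm_num : (0 : ℝ) ≤ 11990844463515) (hv 0 5))
      (add_nonneg (mul_nonneg (by norm_num : (0 : ℝ) ≤ 33987845071945) (hv 1 4))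
      (mul_nonneg (by norm_num : (0 : ℝ) ≤ 5120901315015) (hv 2 3))))
      (add_nonneg (mul_nonneg (by norm_num : (0 : ℝ) ≤ 30313708781715) (hv 3 2))
      (add_nonneg (mul_nonneg (by norm_num : (0 : ℝ) ≤ 97799808075130) (hv 4 1))
      (mul_nonneg (by norm_num : (0 : ℝ) ≤ 50610000000000) (hv 5 0))))))
    (mul_nonneg (hu 5 2)
      (add_nonneg (add_nonneg (mul_nonneg (by norm_num : (0 : ℝ) ≤ 9815383843596) (hv 0 5))
      (add_nonneg (mul_nonneg (by norm_num : (0 : ℝ) ≤ 36497179920504) (hv 1 4))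
      (mul_nonneg (by norm_num : (0 : ℝ) ≤ 37440161564436) (hv 2 3))))
      (add_nonneg (mul_nonneg (by norm_num : (0 : ℝ) ≤ 48241778751792) (hv 3 2))
      (add_nonneg (mul_nonneg (by norm_num : (0 : ℝ) ≤ 67849413264264) (hv 4 1))
      (mul_nonneg (by norm_num : (0 : ℝ) ≤ 30366000000000) (hv 5 0)))))))
    (add_nonneg (mul_nonneg (hu 6 1)
      (add_nonneg (add_nonneg (mul_nonneg (by norm_num : (0 : ℝ) ≤ 4276432435239) (hv 0 5))
      (add_nonneg (mul_nonneg (by norm_num : (0 : ℝ) ≤ 21675152953101) (hv 1 4))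
      (mul_nonneg (by norm_num : (0 : ℝ) ≤ 34922526518139) (hv 2 3))))
      (add_nonneg (mul_nonneg (by norm_num : (0 : ℝ) ≤ 35746692774543) (hv 3 2))
      (add_nonneg (mul_nonneg (by norm_num : (0 : ℝ) ≤ 28344886774266) (hv 4 1))
      (mul_nonneg (by norm_num : (0 : ℝ) ≤ 10122000000000) (hv 5 0))))))
    (mul_nonneg (hu 7 0)
      (add_nonneg (add_nonneg (mul_nonneg (by norm_num : (0 : ℝ) ≤ 752063760000) (hv 0 5))
      (add_nonneg (mul_nonneg (by norm_num : (0 : ℝ) ≤ 4823446320000) (hv 1 4))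
      (mul_nonneg (by norm_num : (0 : ℝ) ≤ 9348380592000) (hv 2 3))))
      (add_nonneg (mul_nonneg (by norm_num : (0 : ℝ) ≤ 9044229024000) (hv 3 2))
      (add_nonneg (mul_nonneg (by norm_num : (0 : ℝ) ≤ 5213230992000) (hv 4 1))
      (mul_nonneg (by norm_num : (0 : ℝ) ≤ 1446000000000) (hv 5 0)))))))))
  refine (mul_nonneg (by norm_num : (0 : ℝ) ≤ 1 / 1544400000000) key).trans_eq ?_
  ring

theorem a3s_K3 {z s : ℝ} (h1 : 0 ≤ z) (h2 : z ≤ 1) (h3 : 0 ≤ s) (h4 : s ≤ 1) :
    0 ≤ 83953 / 45000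
      + 2336677 / 165000 * s
      - 1370753 / 396000 * z
      - 52407077 / 9652500 * s * z
      - 3598657 / 429000 * s ^ 2
      - 14573396503 / 7722000000 * z ^ 2
      - 94173392767 / 1930500000 * s * z ^ 2
      - 4828862123 / 64350000 * s ^ 2 * z
      + 227712513 / 14300000 * s ^ 3
      + 569891446619 / 70200000000 * z ^ 3
      + 287330411663 / 96525000000 * s * z ^ 3
      + 229661677387 / 1544400000 * s ^ 2 * z ^ 2
      + 7747480487 / 85800000 * s ^ 3 * z
      - 485241 / 100000 * s ^ 4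
      + 2173624565459 / 514800000000 * z ^ 4
      + 16350087232799 / 386100000000 * s * z ^ 4
      + 450004812269 / 154440000000 * s ^ 2 * z ^ 3
      - 65174006797 / 643500000 * s ^ 3 * z ^ 2
      - 4776581 / 600000 * s ^ 4 * z
      - 942502754221 / 1544400000000 * z ^ 5
      + 332710179391 / 59400000000 * s * z ^ 5
      - 175408868131 / 1872000000 * s ^ 2 * z ^ 4
      - 2488948748783 / 128700000000 * s ^ 3 * z ^ 3
      + 1595297 / 1500000 * s ^ 4 * z ^ 2
      - 2041389347 / 2970000000 * z ^ 6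
      - 43309048589 / 38610000000 * s * z ^ 6
      - 2753674797443 / 308880000000 * s ^ 2 * z ^ 5
      + 11801952761501 / 257400000000 * s ^ 3 * z ^ 4
      + 253801563 / 50000000 * s ^ 4 * z ^ 3
      - 1230123251 / 5148000000 * z ^ 7
      - 11335332797 / 8580000000 * s * z ^ 7
      + 2241477067 / 603281250 * s ^ 2 * z ^ 6
      + 818506313407 / 257400000000 * s ^ 3 * z ^ 5
      + 411694261 / 300000000 * s ^ 4 * z ^ 4
      + 28821281849 / 8580000000 * s ^ 2 * z ^ 7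
      - 6133951849 / 3217500000 * s ^ 3 * z ^ 6
      + 248670461 / 300000000 * s ^ 4 * z ^ 5
      - 46307230901 / 25740000000 * s ^ 3 * z ^ 7 := by
  rcases le_total z (1 / 2) with h | h
  · obtain ⟨u, rfl⟩ : ∃ u, z = 0 + 1 / 2 * u := ⟨(z - 0) / (1 / 2), by ring⟩
    obtain ⟨v, rfl⟩ : ∃ v, s = 0 + 1 * v := ⟨(s - 0) / (1), by ring⟩
    have hu := bern_mon (a := u) (by linarith) (by linarith)
    have hv := bern_mon (a := v) (by linarith) (by linarith)
    have key := (add_nonneg (add_nonneg (add_nonneg (mul_nonneg (hu 0 7)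
        (add_nonneg (add_nonneg (mul_nonneg (by norm_num : (0 : ℝ) ≤ 92200542720000) (hv 0 5))
        (add_nonneg (mul_nonneg (by norm_num : (0 : ℝ) ≤ 1160884208640000) (hv 1 4))
        (mul_nonneg (by norm_num : (0 : ℝ) ≤ 3306966120960000) (hv 2 3))))
        (add_nonneg (mul_nonneg (by norm_num : (0 : ℝ) ≤ 4664572983168000) (hv 3 2))
        (add_nonneg (mul_nonneg (by norm_num : (0 : ℝ) ≤ 3350971740288000) (hv 4 1))
        (mul_nonneg (by norm_num : (0 : ℝ) ≤ 924681212160000) (hv 5 0))))))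
      (mul_nonneg (hu 1 6)
        (add_nonneg (add_nonneg (mul_nonneg (by norm_num : (0 : ℝ) ≤ 559868811840000) (hv 0 5))
        (add_nonneg (mul_nonneg (by norm_num : (0 : ℝ) ≤ 7564352407360000) (hv 1 4))
        (mul_nonneg (by norm_num : (0 : ℝ) ≤ 19902481451008000) (hv 2 3))))
        (add_nonneg (mul_nonneg (by norm_num : (0 : ℝ) ≤ 27660113522016000) (hv 3 2))
        (add_nonneg (mul_nonneg (by norm_num : (0 : ℝ) ≤ 21195459660448000) (hv 4 1))
        (mul_nonneg (by norm_num : (0 : ℝ) ≤ 6433343993920000) (hv 5 0)))))))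
      (add_nonneg (mul_nonneg (hu 2 5)
        (add_nonneg (add_nonneg (mul_nonneg (by norm_num : (0 : ℝ) ≤ 1399684039515200) (hv 0 5))
        (add_nonneg (mul_nonneg (by norm_num : (0 : ℝ) ≤ 20288249176987200) (hv 1 4))
        (mul_nonneg (by norm_num : (0 : ℝ) ≤ 49161880386100800) (hv 2 3))))
        (add_nonneg (mul_nonneg (by norm_num : (0 : ℝ) ≤ 68415755186052800) (hv 3 2))
        (add_nonneg (mul_nonneg (by norm_num : (0 : ℝ) ≤ 57297263928393600) (hv 4 1))
        (mul_nonneg (by norm_num : (0 : ℝ) ≤ 19154823990969600) (hv 5 0))))))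
      (mul_nonneg (hu 3 4)
        (add_nonneg (add_nonneg (mul_nonneg (by norm_num : (0 : ℝ) ≤ 1877557462478472) (hv 0 5))
        (add_nonneg (mul_nonneg (by norm_num : (0 : ℝ) ≤ 28876048459794792) (hv 1 4))
        (mul_nonneg (by norm_num : (0 : ℝ) ≤ 63609055649885208) (hv 2 3))))
        (add_nonneg (mul_nonneg (by norm_num : (0 : ℝ) ≤ 90983497899538008) (hv 3 2))
        (add_nonneg (mul_nonneg (by norm_num : (0 : ℝ) ≤ 86009163655526976) (hv 4 1))
        (mul_nonneg (by norm_num : (0 : ℝ) ≤ 31636230408557856) (hv 5 0))))))))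
      (add_nonneg (add_nonneg (mul_nonneg (hu 4 3)
        (add_nonneg (add_nonneg (mul_nonneg (by norm_num : (0 : ℝ) ≤ 1496788443754642) (hv 0 5))
        (add_nonneg (mul_nonneg (by norm_num : (0 : ℝ) ≤ 23473812348933330) (hv 1 4))
        (mul_nonneg (by norm_num : (0 : ℝ) ≤ 45487429158053790) (hv 2 3))))
        (add_nonneg (mul_nonneg (by norm_num : (0 : ℝ) ≤ 69907226964055486) (hv 3 2))
        (add_nonneg (mul_nonneg (by norm_num : (0 : ℝ) ≤ 77696820938604072) (hv 4 1))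
        (mul_nonneg (by norm_num : (0 : ℝ) ≤ 31299999227423688) (hv 5 0))))))
      (mul_nonneg (hu 5 2)
        (add_nonneg (add_nonneg (mul_nonneg (by norm_num : (0 : ℝ) ≤ 759097668310873) (hv 0 5))
        (add_nonneg (mul_nonneg (by norm_num : (0 : ℝ) ≤ 10964858279836299) (hv 1 4))
        (mul_nonneg (by norm_num : (0 : ℝ) ≤ 17347232668025361) (hv 2 3))))
        (add_nonneg (mul_nonneg (by norm_num : (0 : ℝ) ≤ 31038658848115993) (hv 3 2))
        (add_nonneg (mul_nonneg (by norm_num : (0 : ℝ) ≤ 42446318260132386) (hv 4 1))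
        (mul_nonneg (by norm_num : (0 : ℝ) ≤ 18549131468516328) (hv 5 0)))))))
      (add_nonneg (mul_nonneg (hu 6 1)
        (add_nonneg (add_nonneg (mul_nonneg (by norm_num : (0 : ℝ) ≤ 252917968465488) (hv 0 5))
        (add_nonneg (mul_nonneg (by norm_num : (0 : ℝ) ≤ 2827632463672896) (hv 1 4))
        (mul_nonneg (by norm_num : (0 : ℝ) ≤ 3119221144710624) (hv 2 3))))
        (add_nonneg (mul_nonneg (by norm_num : (0 : ℝ) ≤ 7516153147234200) (hv 3 2))
        (add_nonneg (mul_nonneg (by norm_num : (0 : ℝ) ≤ 13068008910276000) (hv 4 1))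
        (mul_nonneg (by norm_num : (0 : ℝ) ≤ 6096362412545016) (hv 5 0))))))
      (mul_nonneg (hu 7 0)
        (add_nonneg (add_nonneg (mul_nonneg (by norm_num : (0 : ℝ) ≤ 44974792582160) (hv 0 5))
        (add_nonneg (mul_nonneg (by norm_num : (0 : ℝ) ≤ 344347665047345) (hv 1 4))
        (mul_nonneg (by norm_num : (0 : ℝ) ≤ 215061046248140) (hv 2 3))))
        (add_nonneg (mul_nonneg (by norm_num : (0 : ℝ) ≤ 820651143133145) (hv 3 2))
        (add_nonneg (mul_nonneg (by norm_num : (0 : ℝ) ≤ 1762123941454310) (hv 4 1))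
        (mul_nonneg (by norm_num : (0 : ℝ) ≤ 857160972104120) (hv 5 0)))))))))
    refine (mul_nonneg (by norm_num : (0 : ℝ) ≤ 1 / 49420800000000) key).trans_eq ?_
    ring
  · obtain ⟨u, rfl⟩ : ∃ u, z = 1 / 2 + 1 / 2 * u := ⟨(z - 1 / 2) / (1 / 2), by ring⟩
    obtain ⟨v, rfl⟩ : ∃ v, s = 0 + 1 * v := ⟨(s - 0) / (1), by ring⟩
    have hu := bern_mon (a := u) (by linarith) (by linarith)
    have hv := bern_mon (a := v) (by linarith) (by linarith)
    have key := (add_nonneg (add_nonneg (add_nonneg (mul_nonneg (hu 0 9)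
        (add_nonneg (add_nonneg (mul_nonneg (by norm_num : (0 : ℝ) ≤ 44974792582160) (hv 0 6))
        (add_nonneg (mul_nonneg (by norm_num : (0 : ℝ) ≤ 389322457629505) (hv 1 5))
        (mul_nonneg (by norm_num : (0 : ℝ) ≤ 559408711295485) (hv 2 4))))
        (add_nonneg (add_nonneg (mul_nonneg (by norm_num : (0 : ℝ) ≤ 1035712189381285) (hv 3 3))
        (mul_nonneg (by norm_num : (0 : ℝ) ≤ 2582775084587455) (hv 4 2)))
        (add_nonneg (mul_nonneg (by norm_num : (0 : ℝ) ≤ 2619284913558430) (hv 5 1))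
        (mul_nonneg (by norm_num : (0 : ℝ) ≤ 857160972104120) (hv 6 0))))))
      (mul_nonneg (hu 1 8)
        (add_nonneg (add_nonneg (mul_nonneg (by norm_num : (0 : ℝ) ≤ 466678712849072) (hv 0 6))
        (add_nonneg (mul_nonneg (by norm_num : (0 : ℝ) ≤ 3148608889933696) (hv 1 5))
        (mul_nonneg (by norm_num : (0 : ℝ) ≤ 3003685772344240) (hv 2 4))))
        (add_nonneg (add_nonneg (mul_nonneg (by norm_num : (0 : ℝ) ≤ 5936020738155736) (hv 3 3))
        (mul_nonneg (by norm_num : (0 : ℝ) ≤ 20740239295889080) (hv 4 2)))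
        (add_nonneg (mul_nonneg (by norm_num : (0 : ℝ) ≤ 22744187294113864) (hv 5 1))
        (mul_nonneg (by norm_num : (0 : ℝ) ≤ 7618213141120904) (hv 6 0)))))))
      (add_nonneg (mul_nonneg (hu 2 7)
        (add_nonneg (add_nonneg (mul_nonneg (by norm_num : (0 : ℝ) ≤ 2300397671578121) (hv 0 6))
        (add_nonneg (mul_nonneg (by norm_num : (0 : ℝ) ≤ 12589687610343861) (hv 1 5))
        (mul_nonneg (by norm_num : (0 : ℝ) ≤ 8269324806882185) (hv 2 4))))
        (add_nonneg (add_nonneg (mul_nonneg (by norm_num : (0 : ℝ) ≤ 16526128828999023) (hv 3 3))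
        (mul_nonneg (by norm_num : (0 : ℝ) ≤ 77160292861487994) (hv 4 2)))
        (add_nonneg (mul_nonneg (by norm_num : (0 : ℝ) ≤ 88673446441257080) (hv 5 1))
        (mul_nonneg (by norm_num : (0 : ℝ) ≤ 30059247540651664) (hv 6 0))))))
      (add_nonneg (mul_nonneg (hu 3 6)
        (add_nonneg (add_nonneg (mul_nonneg (by norm_num : (0 : ℝ) ≤ 6892710429367274) (hv 0 6))
        (add_nonneg (mul_nonneg (by norm_num : (0 : ℝ) ≤ 33737059278146762) (hv 1 5))
        (mul_nonneg (by norm_num : (0 : ℝ) ≤ 23748117773267670) (hv 2 4))))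
        (add_nonneg (add_nonneg (mul_nonneg (by norm_num : (0 : ℝ) ≤ 39728258750430602) (hv 3 3))
        (mul_nonneg (by norm_num : (0 : ℝ) ≤ 177803991587358200) (hv 4 2)))
        (add_nonneg (mul_nonneg (by norm_num : (0 : ℝ) ≤ 204086644201965108) (hv 5 1))
        (mul_nonneg (by norm_num : (0 : ℝ) ≤ 69107142440549328) (hv 6 0))))))
      (mul_nonneg (hu 4 5)
        (add_nonneg (add_nonneg (mul_nonneg (by norm_num : (0 : ℝ) ≤ 13512234268893449) (hv 0 6))
        (add_nonneg (mul_nonneg (by norm_num : (0 : ℝ) ≤ 65432423633886928) (hv 1 5))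
        (mul_nonneg (by norm_num : (0 : ℝ) ≤ 66957071611146160) (hv 2 4))))
        (add_nonneg (add_nonneg (mul_nonneg (by norm_num : (0 : ℝ) ≤ 93653557580131582) (hv 3 3))
        (mul_nonneg (by norm_num : (0 : ℝ) ≤ 282621667181937943) (hv 4 2)))
        (add_nonneg (mul_nonneg (by norm_num : (0 : ℝ) ≤ 306022235511991834) (hv 5 1))
        (mul_nonneg (by norm_num : (0 : ℝ) ≤ 102017243664032792) (hv 6 0)))))))))
      (add_nonneg (add_nonneg (mul_nonneg (hu 5 4)
        (add_nonneg (add_nonneg (mul_nonneg (by norm_num : (0 : ℝ) ≤ 17677682860853624) (hv 0 6))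
        (add_nonneg (mul_nonneg (by norm_num : (0 : ℝ) ≤ 90353657129032380) (hv 1 5))
        (mul_nonneg (by norm_num : (0 : ℝ) ≤ 128120875270824800) (hv 2 4))))
        (add_nonneg (add_nonneg (mul_nonneg (by norm_num : (0 : ℝ) ≤ 165647044953013632) (hv 3 3))
        (mul_nonneg (by norm_num : (0 : ℝ) ≤ 320237917328138784) (hv 4 2)))
        (add_nonneg (mul_nonneg (by norm_num : (0 : ℝ) ≤ 310316012400495716) (hv 5 1))
        (mul_nonneg (by norm_num : (0 : ℝ) ≤ 100280239022724520) (hv 6 0))))))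
      (mul_nonneg (hu 6 3)
        (add_nonneg (add_nonneg (mul_nonneg (by norm_num : (0 : ℝ) ≤ 15283627603300848) (hv 0 6))
        (add_nonneg (mul_nonneg (by norm_num : (0 : ℝ) ≤ 84800026507144096) (hv 1 5))
        (mul_nonneg (by norm_num : (0 : ℝ) ≤ 149636958800130320) (hv 2 4))))
        (add_nonneg (add_nonneg (mul_nonneg (by norm_num : (0 : ℝ) ≤ 187594164576334384) (hv 3 3))
        (mul_nonneg (by norm_num : (0 : ℝ) ≤ 254695539349122976) (hv 4 2)))
        (add_nonneg (mul_nonneg (by norm_num : (0 : ℝ) ≤ 212858053253848688) (hv 5 1))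
        (mul_nonneg (by norm_num : (0 : ℝ) ≤ 65636118584773024) (hv 6 0)))))))
      (add_nonneg (mul_nonneg (hu 7 2)
        (add_nonneg (add_nonneg (mul_nonneg (by norm_num : (0 : ℝ) ≤ 8376819310286640) (hv 0 6))
        (add_nonneg (mul_nonneg (by norm_num : (0 : ℝ) ≤ 50783419642206816) (hv 1 5))
        (mul_nonneg (by norm_num : (0 : ℝ) ≤ 103223269832559840) (hv 2 4))))
        (add_nonneg (add_nonneg (mul_nonneg (by norm_num : (0 : ℝ) ≤ 127635229251757440) (hv 3 3))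
        (mul_nonneg (by norm_num : (0 : ℝ) ≤ 134434478071337328) (hv 4 2)))
        (add_nonneg (mul_nonneg (by norm_num : (0 : ℝ) ≤ 95200165368327456) (hv 5 1))
        (mul_nonneg (by norm_num : (0 : ℝ) ≤ 27584247048107904) (hv 6 0))))))
      (add_nonneg (mul_nonneg (hu 8 1)
        (add_nonneg (add_nonneg (mul_nonneg (by norm_num : (0 : ℝ) ≤ 2634451354327920) (hv 0 6))
        (add_nonneg (mul_nonneg (by norm_num : (0 : ℝ) ≤ 17398781506953792) (hv 1 5))
        (mul_nonneg (by norm_num : (0 : ℝ) ≤ 38832047060822400) (hv 2 4))))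
        (add_nonneg (add_nonneg (mul_nonneg (by norm_num : (0 : ℝ) ≤ 47661763586313120) (hv 3 3))
        (mul_nonneg (by norm_num : (0 : ℝ) ≤ 42004509597729936) (hv 4 2)))
        (add_nonneg (mul_nonneg (by norm_num : (0 : ℝ) ≤ 25164717271008672) (hv 5 1))
        (mul_nonneg (by norm_num : (0 : ℝ) ≤ 6754254351395328) (hv 6 0))))))
      (mul_nonneg (hu 9 0)
        (add_nonneg (add_nonneg (mul_nonneg (by norm_num : (0 : ℝ) ≤ 361794377325888) (hv 0 6))
        (add_nonneg (mul_nonneg (by norm_num : (0 : ℝ) ≤ 2587496776638528) (hv 1 5))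
        (mul_nonneg (by norm_num : (0 : ℝ) ≤ 6158862341280000) (hv 2 4))))
        (add_nonneg (add_nonneg (mul_nonneg (by norm_num : (0 : ℝ) ≤ 7524773067801984) (hv 3 3))
        (mul_nonneg (by norm_num : (0 : ℝ) ≤ 5848157792142912) (hv 4 2)))
        (add_nonneg (mul_nonneg (by norm_num : (0 : ℝ) ≤ 2990728126762560) (hv 5 1))
        (mul_nonneg (by norm_num : (0 : ℝ) ≤ 734183460454272) (hv 6 0))))))))))
    refine (mul_nonneg (by norm_num : (0 : ℝ) ≤ 1 / 49420800000000) key).trans_eq ?_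
    ring

theorem a3s_K4 {z s : ℝ} (h1 : 0 ≤ z) (h2 : z ≤ 1) (h3 : 0 ≤ s) (h4 : s ≤ 1) :
    0 ≤ 124621 / 45000
      + 1825897 / 165000 * s
      + 12752297 / 5940000 * z
      - 58574471 / 1755000 * s * z
      - 4711009 / 429000 * s ^ 2
      + 12938368969 / 7722000000 * z ^ 2
      - 58804476041 / 965250000 * s * z ^ 2
      - 3630169427 / 64350000 * s ^ 2 * z
      + 234710933 / 14300000 * s ^ 3
      + 7102753618793 / 772200000000 * z ^ 3
      + 1930789423267 / 14850000000 * s * z ^ 3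
      + 34822261433 / 140400000 * s ^ 2 * z ^ 2
      + 686469853 / 6600000 * s ^ 3 * z
      - 485241 / 100000 * s ^ 4
      - 1555764315821 / 308880000000 * z ^ 4
      - 707520601859 / 32175000000 * s * z ^ 4
      - 44364100583927 / 154440000000 * s ^ 2 * z ^ 3
      - 222405017 / 1125000 * s ^ 3 * z ^ 2
      - 6171371 / 600000 * s ^ 4 * z
      - 352710752099 / 1544400000000 * z ^ 5
      - 1778167731121 / 257400000000 * s * z ^ 5
      + 1179332084629 / 20592000000 * s ^ 2 * z ^ 4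
      + 2087852068701 / 14300000000 * s ^ 3 * z ^ 3
      + 11689237 / 1500000 * s ^ 4 * z ^ 2
      - 8423336149 / 38610000000 * z ^ 6
      - 11388146581 / 2970000000 * s * z ^ 6
      + 3381283044307 / 308880000000 * s ^ 2 * z ^ 5
      - 1669813875253 / 51480000000 * s ^ 3 * z ^ 4
      + 87910663 / 50000000 * s ^ 4 * z ^ 3
      + 1230123251 / 5148000000 * z ^ 7
      + 11335332797 / 8580000000 * s * z ^ 7
      + 9017630123 / 965250000 * s ^ 2 * z ^ 6
      - 745626868847 / 257400000000 * s ^ 3 * z ^ 5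
      + 582987583 / 300000000 * s ^ 4 * z ^ 4
      - 28821281849 / 8580000000 * s ^ 2 * z ^ 7
      - 3782147467 / 715000000 * s ^ 3 * z ^ 6
      - 248670461 / 300000000 * s ^ 4 * z ^ 5
      + 46307230901 / 25740000000 * s ^ 3 * z ^ 7 := by
  obtain ⟨u, rfl⟩ : ∃ u, z = 0 + 1 * u := ⟨(z - 0) / (1), by ring⟩
  obtain ⟨v, rfl⟩ : ∃ v, s = 0 + 1 * v := ⟨(s - 0) / (1), by ring⟩
  have hu := bern_mon (a := u) (by linarith) (by linarith)
  have hv := bern_mon (a := v) (by linarith) (by linarith)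
  have key := (add_nonneg (add_nonneg (add_nonneg (mul_nonneg (hu 0 7)
      (add_nonneg (add_nonneg (mul_nonneg (by norm_num : (0 : ℝ) ≤ 4276992720000) (hv 0 5))
      (add_nonneg (mul_nonneg (by norm_num : (0 : ℝ) ≤ 38475359520000) (hv 1 4))
      (mul_nonneg (by norm_num : (0 : ℝ) ≤ 94171878480000) (hv 2 3))))
      (add_nonneg (mul_nonneg (by norm_num : (0 : ℝ) ≤ 119782186284000) (hv 3 2))
      (add_nonneg (mul_nonneg (by norm_num : (0 : ℝ) ≤ 82071149604000) (hv 4 1))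
      (mul_nonneg (by norm_num : (0 : ℝ) ≤ 22262475000000) (hv 5 0))))))
    (mul_nonneg (hu 1 6)
      (add_nonneg (add_nonneg (mul_nonneg (by norm_num : (0 : ℝ) ≤ 33254546260000) (hv 0 5))
      (add_nonneg (mul_nonneg (by norm_num : (0 : ℝ) ≤ 234359968260000) (hv 1 4))
      (mul_nonneg (by norm_num : (0 : ℝ) ≤ 399052917392000) (hv 2 3))))
      (add_nonneg (mul_nonneg (by norm_num : (0 : ℝ) ≤ 461619816166000) (hv 3 2))
      (add_nonneg (mul_nonneg (by norm_num : (0 : ℝ) ≤ 428904478914000) (hv 4 1))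
      (mul_nonneg (by norm_num : (0 : ℝ) ≤ 165232158140000) (hv 5 0)))))))
    (add_nonneg (mul_nonneg (hu 2 5)
      (add_nonneg (add_nonneg (mul_nonneg (by norm_num : (0 : ℝ) ≤ 112298104233800) (hv 0 5))
      (add_nonneg (mul_nonneg (by norm_num : (0 : ℝ) ≤ 517028466943400) (hv 1 4))
      (mul_nonneg (by norm_num : (0 : ℝ) ≤ 449281023310600) (hv 2 3))))
      (add_nonneg (mul_nonneg (by norm_num : (0 : ℝ) ≤ 559463772927800) (hv 3 2))
      (add_nonneg (mul_nonneg (by norm_num : (0 : ℝ) ≤ 1037057105135600) (hv 4 1))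
      (mul_nonneg (by norm_num : (0 : ℝ) ≤ 522143992808800) (hv 5 0))))))
    (mul_nonneg (hu 3 4)
      (add_nonneg (add_nonneg (mul_nonneg (by norm_num : (0 : ℝ) ≤ 226572579706586) (hv 0 5))
      (add_nonneg (mul_nonneg (by norm_num : (0 : ℝ) ≤ 688210030224698) (hv 1 4))
      (mul_nonneg (by norm_num : (0 : ℝ) ≤ 58249569088662) (hv 2 3))))
      (add_nonneg (mul_nonneg (by norm_num : (0 : ℝ) ≤ 306830820485366) (hv 3 2))
      (add_nonneg (mul_nonneg (by norm_num : (0 : ℝ) ≤ 1621212928255352) (hv 4 1))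
      (mul_nonneg (by norm_num : (0 : ℝ) ≤ 910994226340536) (hv 5 0))))))))
    (add_nonneg (add_nonneg (mul_nonneg (hu 4 3)
      (add_nonneg (add_nonneg (mul_nonneg (by norm_num : (0 : ℝ) ≤ 290926634909239) (hv 0 5))
      (add_nonneg (mul_nonneg (by norm_num : (0 : ℝ) ≤ 850262136680035) (hv 1 4))
      (mul_nonneg (by norm_num : (0 : ℝ) ≤ 300048379287845) (hv 2 3))))
      (add_nonneg (mul_nonneg (by norm_num : (0 : ℝ) ≤ 606406509700957) (hv 3 2))
      (add_nonneg (mul_nonneg (by norm_num : (0 : ℝ) ≤ 1813304046956584) (hv 4 1))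
      (mul_nonneg (by norm_num : (0 : ℝ) ≤ 947610414772676) (hv 5 0))))))
    (mul_nonneg (hu 5 2)
      (add_nonneg (add_nonneg (mul_nonneg (by norm_num : (0 : ℝ) ≤ 226971411294102) (hv 0 5))
      (add_nonneg (mul_nonneg (by norm_num : (0 : ℝ) ≤ 871961363998696) (hv 1 4))
      (mul_nonneg (by norm_num : (0 : ℝ) ≤ 1005976925791204) (hv 2 3))))
      (add_nonneg (mul_nonneg (by norm_num : (0 : ℝ) ≤ 1142705343552852) (hv 3 2))
      (add_nonneg (mul_nonneg (by norm_num : (0 : ℝ) ≤ 1369184569065454) (hv 4 1))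
      (mul_nonneg (by norm_num : (0 : ℝ) ≤ 587466198599212) (hv 5 0)))))))
    (add_nonneg (mul_nonneg (hu 6 1)
      (add_nonneg (add_nonneg (mul_nonneg (by norm_num : (0 : ℝ) ≤ 95214110591871) (hv 0 5))
      (add_nonneg (mul_nonneg (by norm_num : (0 : ℝ) ≤ 490059893607159) (hv 1 4))
      (mul_nonneg (by norm_num : (0 : ℝ) ≤ 820887757361241) (hv 2 3))))
      (add_nonneg (mul_nonneg (by norm_num : (0 : ℝ) ≤ 823654002582657) (hv 3 2))
      (add_nonneg (mul_nonneg (by norm_num : (0 : ℝ) ≤ 598525746275244) (hv 4 1))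
      (mul_nonneg (by norm_num : (0 : ℝ) ≤ 200913718038540) (hv 5 0))))))
    (mul_nonneg (hu 7 0)
      (add_nonneg (add_nonneg (mul_nonneg (by norm_num : (0 : ℝ) ≤ 16286342169522) (hv 0 5))
      (add_nonneg (mul_nonneg (by norm_num : (0 : ℝ) ≤ 105180039047160) (hv 1 4))
      (mul_nonneg (by norm_num : (0 : ℝ) ≤ 207773604801840) (hv 2 3))))
      (add_nonneg (mul_nonneg (by norm_num : (0 : ℝ) ≤ 201297962120556) (hv 3 2))
      (add_nonneg (mul_nonneg (by norm_num : (0 : ℝ) ≤ 111656071736622) (hv 4 1))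
      (mul_nonneg (by norm_num : (0 : ℝ) ≤ 29238017540268) (hv 5 0)))))))))
  refine (mul_nonneg (by norm_num : (0 : ℝ) ≤ 1 / 1544400000000) key).trans_eq ?_
  ring

theorem a3f_mX {q s : ℝ} (h1 : 0 ≤ q) (h2 : q ≤ 3 / 100) (h3 : 0 ≤ s) (h4 : s ≤ 1) :
    0 ≤ 869359294729 / 1238737500000
      - 940788667 / 82500000 * q
      + 85626910247 / 2477475000000 * s
      - 380065611 / 27500000 * q * s
      - 61345709749 / 330330000000 * s ^ 2
      + 991298111 / 99000000 * q * s ^ 2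
      + 960192599363 / 235950000000 * s ^ 3
      + 10441011 / 5000000 * q * s ^ 3
      - 284015503 / 309375000 * s ^ 4
      + 190909 / 312500 * q * s ^ 4 := by
  obtain ⟨u, rfl⟩ : ∃ u, q = 0 + 3 / 100 * u := ⟨(q - 0) / (3 / 100), by ring⟩
  obtain ⟨v, rfl⟩ : ∃ v, s = 0 + 1 * v := ⟨(s - 0) / (1), by ring⟩
  have hu := bern_mon (a := u) (by linarith) (by linarith)
  have hv := bern_mon (a := v) (by linarith) (by linarith)
  have key := (add_nonneg (mul_nonneg (hu 0 1)
      (add_nonneg (add_nonneg (mul_nonneg (by norm_num : (0 : ℝ) ≤ 34774371789160) (hv 0 4))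
      (mul_nonneg (by norm_num : (0 : ℝ) ≤ 140810025361580) (hv 1 3)))
      (add_nonneg (mul_nonneg (by norm_num : (0 : ℝ) ≤ 204581988887430) (hv 2 2))
      (add_nonneg (mul_nonneg (by norm_num : (0 : ℝ) ≤ 327471834712990) (hv 3 1))
      (mul_nonneg (by norm_num : (0 : ℝ) ≤ 183437576437500) (hv 4 0))))))
    (mul_nonneg (hu 1 0)
      (add_nonneg (add_nonneg (mul_nonneg (by norm_num : (0 : ℝ) ≤ 17823241587154) (hv 0 4))
      (mul_nonneg (by norm_num : (0 : ℝ) ≤ 52461438016562) (hv 1 3)))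
      (add_nonneg (mul_nonneg (by norm_num : (0 : ℝ) ≤ 56127349201077) (hv 2 2))
      (add_nonneg (mul_nonneg (by norm_num : (0 : ℝ) ≤ 230907877814581) (hv 3 1))
      (mul_nonneg (by norm_num : (0 : ℝ) ≤ 164838908850000) (hv 4 0)))))))
  refine (mul_nonneg (by norm_num : (0 : ℝ) ≤ 1 / 49549500000000) key).trans_eq ?_
  ring

theorem a3f_tot {q s : ℝ} (h1 : 0 ≤ q) (h2 : q ≤ 3 / 100) (h3 : 0 ≤ s) (h4 : s ≤ 1) :
    0 ≤ 3201081907609 / 14414400000000
      + 7928381960027 / 2477475000000 * q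
      - 75302188283 / 965250000000 * s
      - 893744797112771 / 99099000000000 * q * s
      - 56722924237393 / 247747500000 * q ^ 2
      + 877300366783 / 4504500000000 * s ^ 2
      + 334949274714191 / 49549500000000 * q * s ^ 2
      - 3905770937203241 / 14864850000000 * q ^ 2 * s
      - 10888549711 / 346500000000 * s ^ 3
      + 828970720222093 / 11011000000000 * q * s ^ 3
      + 325454399407 / 1701562500 * q ^ 2 * s ^ 2
      - 5396294557 / 309375000 * q * s ^ 4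
      + 14946256266763 / 381150000000 * q ^ 2 * s ^ 3
      + 3627271 / 312500 * q ^ 2 * s ^ 4 := by
  rcases le_total s (1 / 2) with h | h
  · obtain ⟨u, rfl⟩ : ∃ u, q = 0 + 3 / 100 * u := ⟨(q - 0) / (3 / 100), by ring⟩
    obtain ⟨v, rfl⟩ : ∃ v, s = 0 + 1 / 2 * v := ⟨(s - 0) / (1 / 2), by ring⟩
    have hu := bern_mon (a := u) (by linarith) (by linarith)
    have hv := bern_mon (a := v) (by linarith) (by linarith)
    have key := (add_nonneg (mul_nonneg (hu 0 2)
        (add_nonneg (add_nonneg (mul_nonneg (by norm_num : (0 : ℝ) ≤ 264089257377742500) (hv 0 5))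
        (add_nonneg (mul_nonneg (by norm_num : (0 : ℝ) ≤ 1274060138906384500) (hv 1 4))
        (mul_nonneg (by norm_num : (0 : ℝ) ≤ 2513249806055791000) (hv 2 3))))
        (add_nonneg (mul_nonneg (by norm_num : (0 : ℝ) ≤ 2531609970680472000) (hv 3 2))
        (add_nonneg (mul_nonneg (by norm_num : (0 : ℝ) ≤ 1299264791930396500) (hv 4 1))
        (mul_nonneg (by norm_num : (0 : ℝ) ≤ 270933745777073500) (hv 5 0))))))
      (add_nonneg (mul_nonneg (hu 1 1)
        (add_nonneg (add_nonneg (mul_nonneg (by norm_num : (0 : ℝ) ≤ 642347214979873800) (hv 0 5))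
        (add_nonneg (mul_nonneg (by norm_num : (0 : ℝ) ≤ 2958089715454414220) (hv 1 4))
        (mul_nonneg (by norm_num : (0 : ℝ) ≤ 5584981229882829260) (hv 2 3))))
        (add_nonneg (mul_nonneg (by norm_num : (0 : ℝ) ≤ 5756268312758650125) (hv 3 2))
        (add_nonneg (mul_nonneg (by norm_num : (0 : ℝ) ≤ 3339323548655889950) (hv 4 1))
        (mul_nonneg (by norm_num : (0 : ℝ) ≤ 852293965305528665) (hv 5 0))))))
      (mul_nonneg (hu 2 0)
        (add_nonneg (add_nonneg (mul_nonneg (by norm_num : (0 : ℝ) ≤ 133214924896593540) (hv 0 5))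
        (add_nonneg (mul_nonneg (by norm_num : (0 : ℝ) ≤ 318206659281024244) (hv 1 4))
        (mul_nonneg (by norm_num : (0 : ℝ) ≤ 110047135212345892) (hv 2 3))))
        (add_nonneg (mul_nonneg (by norm_num : (0 : ℝ) ≤ 89358788730390090) (hv 3 2))
        (add_nonneg (mul_nonneg (by norm_num : (0 : ℝ) ≤ 417212441619932020) (hv 4 1))
        (mul_nonneg (by norm_num : (0 : ℝ) ≤ 252909053717457118) (hv 5 0))))))))
    refine (mul_nonneg (by norm_num : (0 : ℝ) ≤ 1 / 1189188000000000000) key).trans_eq ?_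
    ring
  · obtain ⟨u, rfl⟩ : ∃ u, q = 0 + 3 / 100 * u := ⟨(q - 0) / (3 / 100), by ring⟩
    obtain ⟨v, rfl⟩ : ∃ v, s = 1 / 2 + 1 / 2 * v := ⟨(s - 1 / 2) / (1 / 2), by ring⟩
    have hu := bern_mon (a := u) (by linarith) (by linarith)
    have hv := bern_mon (a := v) (by linarith) (by linarith)
    have key := (add_nonneg (mul_nonneg (hu 0 2)
        (add_nonneg (add_nonneg (mul_nonneg (by norm_num : (0 : ℝ) ≤ 270933745777073500) (hv 0 4))
        (mul_nonneg (by norm_num : (0 : ℝ) ≤ 1139138920063265000) (hv 1 3)))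
        (add_nonneg (mul_nonneg (by norm_num : (0 : ℝ) ≤ 1835702546256975000) (hv 2 2))
        (add_nonneg (mul_nonneg (by norm_num : (0 : ℝ) ≤ 1333052127606430000) (hv 3 1))
        (mul_nonneg (by norm_num : (0 : ℝ) ≤ 365554755635646500) (hv 4 0))))))
      (add_nonneg (mul_nonneg (hu 1 1)
        (add_nonneg (add_nonneg (mul_nonneg (by norm_num : (0 : ℝ) ≤ 852293965305528665) (hv 0 4))
        (mul_nonneg (by norm_num : (0 : ℝ) ≤ 4331322139093868035) (hv 1 3)))
        (add_nonneg (mul_nonneg (by norm_num : (0 : ℝ) ≤ 8802116396638809090) (hv 2 2))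
        (add_nonneg (mul_nonneg (by norm_num : (0 : ℝ) ≤ 8190264306731196800) (hv 3 1))
        (mul_nonneg (by norm_num : (0 : ℝ) ≤ 2828283909749516680) (hv 4 0))))))
      (mul_nonneg (hu 2 0)
        (add_nonneg (add_nonneg (mul_nonneg (by norm_num : (0 : ℝ) ≤ 252909053717457118) (hv 0 4))
        (mul_nonneg (by norm_num : (0 : ℝ) ≤ 1858969041837182042) (hv 1 3)))
        (add_nonneg (mul_nonneg (by norm_num : (0 : ℝ) ≤ 5009052362632036608) (hv 2 2))
        (add_nonneg (mul_nonneg (by norm_num : (0 : ℝ) ≤ 5636678933056159000) (hv 3 1))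
        (mul_nonneg (by norm_num : (0 : ℝ) ≤ 2195570815698907556) (hv 4 0))))))))
    refine (mul_nonneg (by norm_num : (0 : ℝ) ≤ 1 / 1189188000000000000) key).trans_eq ?_
    ring

theorem a3p_zphi {z s : ℝ} (h1 : 0 ≤ z) (h2 : z ≤ 1) (h3 : 0 ≤ s) (h4 : s ≤ 1) :
    0 ≤ 179 / 264
      + 3 / 11 * s
      - z
      + 1 / 18 * s * z
      - 1 / 99 * s ^ 2
      + 5 / 18 * z ^ 2
      - 95 / 396 * s * z ^ 2
      + 1 / 264 * s ^ 2 * z
      + 35 / 792 * z ^ 3
      - 35 / 396 * s * z ^ 3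
      - 5 / 132 * s ^ 2 * z ^ 2
      + 35 / 792 * s ^ 2 * z ^ 3 := by
  obtain ⟨u, rfl⟩ : ∃ u, z = 0 + 1 * u := ⟨(z - 0) / (1), by ring⟩
  obtain ⟨v, rfl⟩ : ∃ v, s = 0 + 1 * v := ⟨(s - 0) / (1), by ring⟩
  have hu := bern_mon (a := u) (by linarith) (by linarith)
  have hv := bern_mon (a := v) (by linarith) (by linarith)
  have key := (add_nonneg (mul_nonneg (hu 0 3)
      (add_nonneg (mul_nonneg (by norm_num : (0 : ℝ) ≤ 537) (hv 0 2))
      (add_nonneg (mul_nonneg (by norm_num : (0 : ℝ) ≤ 1290) (hv 1 1))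
      (mul_nonneg (by norm_num : (0 : ℝ) ≤ 745) (hv 2 0)))))
    (add_nonneg (mul_nonneg (hu 1 2)
      (add_nonneg (mul_nonneg (by norm_num : (0 : ℝ) ≤ 819) (hv 0 2))
      (add_nonneg (mul_nonneg (by norm_num : (0 : ℝ) ≤ 2330) (hv 1 1))
      (mul_nonneg (by norm_num : (0 : ℝ) ≤ 1490) (hv 2 0)))))
    (mul_nonneg (hu 2 1)
      (add_nonneg (mul_nonneg (by norm_num : (0 : ℝ) ≤ 247) (hv 0 2))
      (add_nonneg (mul_nonneg (by norm_num : (0 : ℝ) ≤ 1040) (hv 1 1))
      (mul_nonneg (by norm_num : (0 : ℝ) ≤ 745) (hv 2 0)))))))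
  refine (mul_nonneg (by norm_num : (0 : ℝ) ≤ 1 / 792) key).trans_eq ?_
  ring

theorem a3p_phL {z s : ℝ} (h1 : 0 ≤ z) (h2 : z ≤ 1) (h3 : 0 ≤ s) (h4 : s ≤ 1) :
    0 ≤ 1
      - 1 / 18 * s
      - 5 / 18 * z
      + 95 / 396 * s * z
      - 1 / 264 * s ^ 2
      - 35 / 792 * z ^ 2
      - 665 / 10296 * s * z ^ 2
      - 95 / 3432 * s ^ 2 * z
      - 5 / 1144 * s ^ 3
      - 105 / 1144 * z ^ 3
      + 315 / 1144 * s * z ^ 3
      + 245 / 936 * s ^ 2 * z ^ 2
      + 75 / 1144 * s ^ 3 * z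
      - 315 / 1144 * s ^ 2 * z ^ 3
      - 175 / 1144 * s ^ 3 * z ^ 2
      + 105 / 1144 * s ^ 3 * z ^ 3 := by
  obtain ⟨u, rfl⟩ : ∃ u, z = 0 + 1 * u := ⟨(z - 0) / (1), by ring⟩
  obtain ⟨v, rfl⟩ : ∃ v, s = 0 + 1 * v := ⟨(s - 0) / (1), by ring⟩
  have hu := bern_mon (a := u) (by linarith) (by linarith)
  have hv := bern_mon (a := v) (by linarith) (by linarith)
  have key := (add_nonneg (add_nonneg (mul_nonneg (hu 0 3)
      (add_nonneg (add_nonneg (mul_nonneg (by norm_num : (0 : ℝ) ≤ 10296) (hv 0 3))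
      (mul_nonneg (by norm_num : (0 : ℝ) ≤ 30316) (hv 1 2)))
      (add_nonneg (mul_nonneg (by norm_num : (0 : ℝ) ≤ 29705) (hv 2 1))
      (mul_nonneg (by norm_num : (0 : ℝ) ≤ 9640) (hv 3 0)))))
    (mul_nonneg (hu 1 2)
      (add_nonneg (add_nonneg (mul_nonneg (by norm_num : (0 : ℝ) ≤ 28028) (hv 0 3))
      (mul_nonneg (by norm_num : (0 : ℝ) ≤ 84838) (hv 1 2)))
      (add_nonneg (mul_nonneg (by norm_num : (0 : ℝ) ≤ 85190) (hv 2 1))
      (mul_nonneg (by norm_num : (0 : ℝ) ≤ 28920) (hv 3 0))))))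
    (add_nonneg (mul_nonneg (hu 2 1)
      (add_nonneg (add_nonneg (mul_nonneg (by norm_num : (0 : ℝ) ≤ 24713) (hv 0 3))
      (mul_nonneg (by norm_num : (0 : ℝ) ≤ 76698) (hv 1 2)))
      (add_nonneg (mul_nonneg (by norm_num : (0 : ℝ) ≤ 81265) (hv 2 1))
      (mul_nonneg (by norm_num : (0 : ℝ) ≤ 28920) (hv 3 0)))))
    (mul_nonneg (hu 3 0)
      (add_nonneg (add_nonneg (mul_nonneg (by norm_num : (0 : ℝ) ≤ 6036) (hv 0 3))
      (mul_nonneg (by norm_num : (0 : ℝ) ≤ 22176) (hv 1 2)))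
      (add_nonneg (mul_nonneg (by norm_num : (0 : ℝ) ≤ 25780) (hv 2 1))
      (mul_nonneg (by norm_num : (0 : ℝ) ≤ 9640) (hv 3 0)))))))
  refine (mul_nonneg (by norm_num : (0 : ℝ) ≤ 1 / 10296) key).trans_eq ?_
  ring

end Pool.Agent.Ped
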