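import Pool.Agent.P.MP_e09f5c_gt.A3Poly

/-! Polynomial inequalities on the unit square, for the large dimensions. -/

namespace Pool.Agent.Ped

theorem ans_Ca1 {z s : ℝ} (h1 : 0 ≤ z) (h2 : z ≤ 1) (h3 : 0 ≤ s) (h4 : s ≤ 1) :
    0 ≤ 67 / 150 * s
      + 9 / 100 * z
      - 9 / 100 * s * z
      - 59 / 200 * s ^ 2
      + 1 / 40 * z ^ 2
      - 1 / 20 * s * z ^ 2
      + 1 / 40 * s ^ 2 * z ^ 2 := by
  obtain ⟨u, rfl⟩ : ∃ u, z = 0 + 1 * u := ⟨(z - 0) / (1), by ring⟩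
  obtain ⟨v, rfl⟩ : ∃ v, s = 0 + 1 * v := ⟨(s - 0) / (1), by ring⟩
  have hu := bern_mon (a := u) (by linarith) (by linarith)
  have hv := bern_mon (a := v) (by linarith) (by linarith)
  have key := (add_nonneg (mul_nonneg (hu 0 2)
      (add_nonneg (mul_nonneg (by norm_num : (0 : ℝ) ≤ 268) (hv 1 1))
      (mul_nonneg (by norm_num : (0 : ℝ) ≤ 91) (hv 2 0))))
    (add_nonneg (mul_nonneg (hu 1 1)
      (add_nonneg (mul_nonneg (by norm_num : (0 : ℝ) ≤ 54) (hv 0 2))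
      (add_nonneg (mul_nonneg (by norm_num : (0 : ℝ) ≤ 590) (hv 1 1))
      (mul_nonneg (by norm_num : (0 : ℝ) ≤ 182) (hv 2 0)))))
    (mul_nonneg (hu 2 0)
      (add_nonneg (mul_nonneg (by norm_num : (0 : ℝ) ≤ 69) (hv 0 2))
      (add_nonneg (mul_nonneg (by norm_num : (0 : ℝ) ≤ 322) (hv 1 1))
      (mul_nonneg (by norm_num : (0 : ℝ) ≤ 91) (hv 2 0)))))))
  refine (mul_nonneg (by norm_num : (0 : ℝ) ≤ 1 / 600) key).trans_eq ?_
  ring

theorem ans_Ca2 {z s : ℝ} (h1 : 0 ≤ z) (h2 : z ≤ 1) (h3 : 0 ≤ s) (h4 : s ≤ 1) :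
    0 ≤ 1 / 10
      + 11 / 30 * s
      - 3 / 200 * z
      - 21 / 100 * s * z
      - 29 / 80 * s ^ 2
      + 53 / 200 * z ^ 2
      - 53 / 100 * s * z ^ 2
      + 9 / 40 * s ^ 2 * z
      + 53 / 200 * s ^ 2 * z ^ 2 := by
  obtain ⟨u, rfl⟩ : ∃ u, z = 0 + 1 * u := ⟨(z - 0) / (1), by ring⟩
  obtain ⟨v, rfl⟩ : ∃ v, s = 0 + 1 * v := ⟨(s - 0) / (1), by ring⟩
  have hu := bern_mon (a := u) (by linarith) (by linarith)
  have hv := bern_mon (a := v) (by linarith) (by linarith)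
  have key := (add_nonneg (mul_nonneg (hu 0 2)
      (add_nonneg (mul_nonneg (by norm_num : (0 : ℝ) ≤ 120) (hv 0 2))
      (add_nonneg (mul_nonneg (by norm_num : (0 : ℝ) ≤ 680) (hv 1 1))
      (mul_nonneg (by norm_num : (0 : ℝ) ≤ 125) (hv 2 0)))))
    (add_nonneg (mul_nonneg (hu 1 1)
      (add_nonneg (mul_nonneg (by norm_num : (0 : ℝ) ≤ 222) (hv 0 2))
      (add_nonneg (mul_nonneg (by norm_num : (0 : ℝ) ≤ 1072) (hv 1 1))
      (mul_nonneg (by norm_num : (0 : ℝ) ≤ 250) (hv 2 0)))))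
    (mul_nonneg (hu 2 0)
      (add_nonneg (mul_nonneg (by norm_num : (0 : ℝ) ≤ 420) (hv 0 2))
      (add_nonneg (mul_nonneg (by norm_num : (0 : ℝ) ≤ 392) (hv 1 1))
      (mul_nonneg (by norm_num : (0 : ℝ) ≤ 125) (hv 2 0)))))))
  refine (mul_nonneg (by norm_num : (0 : ℝ) ≤ 1 / 1200) key).trans_eq ?_
  ring

theorem ans_Cb1 {z s : ℝ} (h1 : 0 ≤ z) (h2 : z ≤ 1) (h3 : 0 ≤ s) (h4 : s ≤ 1) :
    0 ≤ 23 / 60 * s
      + 1 / 100 * z
      + 29 / 100 * s * z
      - 3 / 8 * s ^ 2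
      + 71 / 100 * z ^ 2
      - 71 / 50 * s * z ^ 2
      - 3 / 10 * s ^ 2 * z
      + 71 / 100 * s ^ 2 * z ^ 2 := by
  obtain ⟨u, rfl⟩ : ∃ u, z = 0 + 1 * u := ⟨(z - 0) / (1), by ring⟩
  obtain ⟨v, rfl⟩ : ∃ v, s = 0 + 1 * v := ⟨(s - 0) / (1), by ring⟩
  have hu := bern_mon (a := u) (by linarith) (by linarith)
  have hv := bern_mon (a := v) (by linarith) (by linarith)
  have key := (add_nonneg (mul_nonneg (hu 0 2)
      (add_nonneg (mul_nonneg (by norm_num : (0 : ℝ) ≤ 230) (hv 1 1))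
      (mul_nonneg (by norm_num : (0 : ℝ) ≤ 5) (hv 2 0))))
    (add_nonneg (mul_nonneg (hu 1 1)
      (add_nonneg (mul_nonneg (by norm_num : (0 : ℝ) ≤ 6) (hv 0 2))
      (add_nonneg (mul_nonneg (by norm_num : (0 : ℝ) ≤ 646) (hv 1 1))
      (mul_nonneg (by norm_num : (0 : ℝ) ≤ 10) (hv 2 0)))))
    (mul_nonneg (hu 2 0)
      (add_nonneg (mul_nonneg (by norm_num : (0 : ℝ) ≤ 432) (hv 0 2))
      (add_nonneg (mul_nonneg (by norm_num : (0 : ℝ) ≤ 416) (hv 1 1))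
      (mul_nonneg (by norm_num : (0 : ℝ) ≤ 5) (hv 2 0)))))))
  refine (mul_nonneg (by norm_num : (0 : ℝ) ≤ 1 / 600) key).trans_eq ?_
  ring

theorem ans_Cb3 {z s : ℝ} (h1 : 0 ≤ z) (h2 : z ≤ 1) (h3 : 0 ≤ s) (h4 : s ≤ 1) :
    0 ≤ 1
      + 59 / 100 * s
      + 21 / 100 * z
      + 207 / 100 * s * z
      - 9 / 200 * s ^ 2
      + 743 / 500 * z ^ 2
      - 743 / 250 * s * z ^ 2
      - 57 / 25 * s ^ 2 * z
      + 743 / 500 * s ^ 2 * z ^ 2 := by
  obtain ⟨u, rfl⟩ : ∃ u, z = 0 + 1 * u := ⟨(z - 0) / (1), by ring⟩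
  obtain ⟨v, rfl⟩ : ∃ v, s = 0 + 1 * v := ⟨(s - 0) / (1), by ring⟩
  have hu := bern_mon (a := u) (by linarith) (by linarith)
  have hv := bern_mon (a := v) (by linarith) (by linarith)
  have key := (add_nonneg (mul_nonneg (hu 0 2)
      (add_nonneg (mul_nonneg (by norm_num : (0 : ℝ) ≤ 1000) (hv 0 2))
      (add_nonneg (mul_nonneg (by norm_num : (0 : ℝ) ≤ 2590) (hv 1 1))
      (mul_nonneg (by norm_num : (0 : ℝ) ≤ 1545) (hv 2 0)))))
    (add_nonneg (mul_nonneg (hu 1 1)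
      (add_nonneg (mul_nonneg (by norm_num : (0 : ℝ) ≤ 2210) (hv 0 2))
      (add_nonneg (mul_nonneg (by norm_num : (0 : ℝ) ≤ 7670) (hv 1 1))
      (mul_nonneg (by norm_num : (0 : ℝ) ≤ 3090) (hv 2 0)))))
    (mul_nonneg (hu 2 0)
      (add_nonneg (mul_nonneg (by norm_num : (0 : ℝ) ≤ 2696) (hv 0 2))
      (add_nonneg (mul_nonneg (by norm_num : (0 : ℝ) ≤ 5080) (hv 1 1))
      (mul_nonneg (by norm_num : (0 : ℝ) ≤ 1545) (hv 2 0)))))))
  refine (mul_nonneg (by norm_num : (0 : ℝ) ≤ 1 / 1000) key).trans_eq ?_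
  ring

theorem ans_W0 {z s : ℝ} (h1 : 0 ≤ z) (h2 : z ≤ 1) (h3 : 0 ≤ s) (h4 : s ≤ 1) :
    0 ≤ 243 / 5
      - 89 / 5 * s
      - 9101 / 150 * z
      - 6217 / 60 * s * z
      - 81 / 100 * s ^ 2
      - 37533 / 2000 * z ^ 2
      + 53827 / 200 * s * z ^ 2
      + 42263 / 500 * s ^ 2 * z
      - 691 / 250 * s ^ 3
      + 9749 / 120 * z ^ 3
      - 1264897 / 15000 * s * z ^ 3
      - 1553037 / 10000 * s ^ 2 * z ^ 2
      - 14959 / 5000 * s ^ 3 * z
      - 6911 / 2500 * s ^ 4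
      + 386791 / 10000 * z ^ 4
      - 139943 / 1250 * s * z ^ 4
      - 130563 / 5000 * s ^ 2 * z ^ 3
      + 51227 / 5000 * s ^ 3 * z ^ 2
      + 58759 / 5000 * s ^ 4 * z
      - 3 / 10 * s ^ 5
      - 1927 / 250 * z ^ 5
      - 8323 / 50 * s * z ^ 5
      - 537037 / 5000 * s ^ 2 * z ^ 4
      - 612867 / 5000 * s ^ 3 * z ^ 3
      - 53232 / 625 * s ^ 4 * z ^ 2
      - 9181 / 500 * s ^ 5 * z
      - 25 / 16 * s ^ 6
      - 1681 / 25 * z ^ 6
      + 10086 / 25 * s * z ^ 6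
      + 26322 / 25 * s ^ 2 * z ^ 5
      + 2877539 / 2500 * s ^ 3 * z ^ 4
      + 890821 / 1250 * s ^ 4 * z ^ 3
      + 215889 / 1000 * s ^ 5 * z ^ 2
      + 87 / 4 * s ^ 6 * z
      - 5043 / 5 * s ^ 2 * z ^ 6
      - 58507 / 25 * s ^ 3 * z ^ 5
      - 21145569 / 10000 * s ^ 4 * z ^ 4
      - 427283 / 500 * s ^ 5 * z ^ 3
      - 5747 / 50 * s ^ 6 * z ^ 2
      + 6724 / 5 * s ^ 3 * z ^ 6
      + 124189 / 50 * s ^ 4 * z ^ 5
      + 766697 / 500 * s ^ 5 * z ^ 4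
      + 7342 / 25 * s ^ 6 * z ^ 3
      - 5043 / 5 * s ^ 4 * z ^ 6
      - 319923 / 250 * s ^ 5 * z ^ 5
      - 38917 / 100 * s ^ 6 * z ^ 4
      + 10086 / 25 * s ^ 5 * z ^ 6
      + 6437 / 25 * s ^ 6 * z ^ 5
      - 1681 / 25 * s ^ 6 * z ^ 6 := by
  obtain ⟨u, rfl⟩ : ∃ u, z = 0 + 1 * u := ⟨(z - 0) / (1), by ring⟩
  obtain ⟨v, rfl⟩ : ∃ v, s = 0 + 1 * v := ⟨(s - 0) / (1), by ring⟩
  have hu := bern_mon (a := u) (by linarith) (by linarith)
  have hv := bern_mon (a := v) (by linarith) (by linarith)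
  have key := (add_nonneg (add_nonneg (mul_nonneg (hu 0 6)
      (add_nonneg (add_nonneg (mul_nonneg (by norm_num : (0 : ℝ) ≤ 1458000) (hv 0 6))
      (add_nonneg (mul_nonneg (by norm_num : (0 : ℝ) ≤ 8214000) (hv 1 5))
      (mul_nonneg (by norm_num : (0 : ℝ) ≤ 19175700) (hv 2 4))))
      (add_nonneg (add_nonneg (mul_nonneg (by norm_num : (0 : ℝ) ≤ 23639880) (hv 3 3))
      (mul_nonneg (by norm_num : (0 : ℝ) ≤ 16052508) (hv 4 2)))
      (add_nonneg (mul_nonneg (by norm_num : (0 : ℝ) ≤ 5557176) (hv 5 1))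
      (mul_nonneg (by norm_num : (0 : ℝ) ≤ 677973) (hv 6 0))))))
    (add_nonneg (mul_nonneg (hu 1 5)
      (add_nonneg (add_nonneg (mul_nonneg (by norm_num : (0 : ℝ) ≤ 6927800) (hv 0 6))
      (add_nonneg (mul_nonneg (by norm_num : (0 : ℝ) ≤ 35254300) (hv 1 5))
      (mul_nonneg (by norm_num : (0 : ℝ) ≤ 74744480) (hv 2 4))))
      (add_nonneg (add_nonneg (mul_nonneg (by norm_num : (0 : ℝ) ≤ 84403646) (hv 3 3))
      (mul_nonneg (by norm_num : (0 : ℝ) ≤ 53225020) (hv 4 2)))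
      (add_nonneg (mul_nonneg (by norm_num : (0 : ℝ) ≤ 16907462) (hv 5 1))
      (mul_nonneg (by norm_num : (0 : ℝ) ≤ 2039358) (hv 6 0))))))
    (mul_nonneg (hu 2 4)
      (add_nonneg (add_nonneg (mul_nonneg (by norm_num : (0 : ℝ) ≤ 12206005) (hv 0 6))
      (add_nonneg (mul_nonneg (by norm_num : (0 : ℝ) ≤ 57757580) (hv 1 5))
      (mul_nonneg (by norm_num : (0 : ℝ) ≤ 113353114) (hv 2 4))))
      (add_nonneg (add_nonneg (mul_nonneg (by norm_num : (0 : ℝ) ≤ 118571548) (hv 3 3))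
      (mul_nonneg (by norm_num : (0 : ℝ) ≤ 68045339) (hv 4 2)))
      (add_nonneg (mul_nonneg (by norm_num : (0 : ℝ) ≤ 21823990) (hv 5 1))
      (mul_nonneg (by norm_num : (0 : ℝ) ≤ 3659835) (hv 6 0))))))))
    (add_nonneg (add_nonneg (mul_nonneg (hu 3 3)
      (add_nonneg (add_nonneg (mul_nonneg (by norm_num : (0 : ℝ) ≤ 11143270) (hv 0 6))
      (add_nonneg (mul_nonneg (by norm_num : (0 : ℝ) ≤ 54861026) (hv 1 5))
      (mul_nonneg (by norm_num : (0 : ℝ) ≤ 112608058) (hv 2 4))))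
      (add_nonneg (add_nonneg (mul_nonneg (by norm_num : (0 : ℝ) ≤ 119683678) (hv 3 3))
      (mul_nonneg (by norm_num : (0 : ℝ) ≤ 77889956) (hv 4 2)))
      (add_nonneg (mul_nonneg (by norm_num : (0 : ℝ) ≤ 34296700) (hv 5 1))
      (mul_nonneg (by norm_num : (0 : ℝ) ≤ 7805220) (hv 6 0))))))
    (mul_nonneg (hu 4 2)
      (add_nonneg (add_nonneg (mul_nonneg (by norm_num : (0 : ℝ) ≤ 8762153) (hv 0 6))
      (add_nonneg (mul_nonneg (by norm_num : (0 : ℝ) ≤ 50974204) (hv 1 5))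
      (mul_nonneg (by norm_num : (0 : ℝ) ≤ 114905003) (hv 2 4))))
      (add_nonneg (add_nonneg (mul_nonneg (by norm_num : (0 : ℝ) ≤ 148322726) (hv 3 3))
      (mul_nonneg (by norm_num : (0 : ℝ) ≤ 121501054) (hv 4 2)))
      (add_nonneg (mul_nonneg (by norm_num : (0 : ℝ) ≤ 57663140) (hv 5 1))
      (mul_nonneg (by norm_num : (0 : ℝ) ≤ 11680635) (hv 6 0)))))))
    (add_nonneg (mul_nonneg (hu 5 1)
      (add_nonneg (add_nonneg (mul_nonneg (by norm_num : (0 : ℝ) ≤ 6796276) (hv 0 6))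
      (add_nonneg (mul_nonneg (by norm_num : (0 : ℝ) ≤ 35026910) (hv 1 5))
      (mul_nonneg (by norm_num : (0 : ℝ) ≤ 89878888) (hv 2 4))))
      (add_nonneg (add_nonneg (mul_nonneg (by norm_num : (0 : ℝ) ≤ 133276060) (hv 3 3))
      (mul_nonneg (by norm_num : (0 : ℝ) ≤ 111703544) (hv 4 2)))
      (add_nonneg (mul_nonneg (by norm_num : (0 : ℝ) ≤ 48537886) (hv 5 1))
      (mul_nonneg (by norm_num : (0 : ℝ) ≤ 8455998) (hv 6 0))))))
    (mul_nonneg (hu 6 0)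
      (add_nonneg (add_nonneg (mul_nonneg (by norm_num : (0 : ℝ) ≤ 423988) (hv 0 6))
      (add_nonneg (mul_nonneg (by norm_num : (0 : ℝ) ≤ 8196452) (hv 1 5))
      (mul_nonneg (by norm_num : (0 : ℝ) ≤ 29797609) (hv 2 4))))
      (add_nonneg (add_nonneg (mul_nonneg (by norm_num : (0 : ℝ) ≤ 46829230) (hv 3 3))
      (mul_nonneg (by norm_num : (0 : ℝ) ≤ 37219619) (hv 4 2)))
      (add_nonneg (mul_nonneg (by norm_num : (0 : ℝ) ≤ 14697742) (hv 5 1))
      (mul_nonneg (by norm_num : (0 : ℝ) ≤ 2282133) (hv 6 0)))))))))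
  refine (mul_nonneg (by norm_num : (0 : ℝ) ≤ 1 / 30000) key).trans_eq ?_
  ring

theorem ans_W1 {z s : ℝ} (h1 : 0 ≤ z) (h2 : z ≤ 1) (h3 : 0 ≤ s) (h4 : s ≤ 1) :
    0 ≤ 6013 / 125
      - 4407 / 250 * s
      - 36861 / 625 * z
      - 257341 / 2500 * s * z
      - 2013 / 2500 * s ^ 2
      - 196001 / 10000 * z ^ 2
      + 6675003 / 25000 * s * z ^ 2
      + 1048999 / 12500 * s ^ 2 * z
      - 17263 / 6250 * s ^ 3
      + 1209089 / 15000 * z ^ 3
      - 6376237 / 75000 * s * z ^ 3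
      - 1543213 / 10000 * s ^ 2 * z ^ 2
      - 71427 / 25000 * s ^ 3 * z
      - 6861 / 2500 * s ^ 4
      + 376551 / 10000 * z ^ 4
      - 685651 / 6250 * s * z ^ 4
      - 615711 / 25000 * s ^ 2 * z ^ 3
      + 249923 / 25000 * s ^ 3 * z ^ 2
      + 58263 / 5000 * s ^ 4 * z
      - 3 / 10 * s ^ 5
      - 1927 / 250 * z ^ 5
      - 209387 / 1250 * s * z ^ 5
      - 2777697 / 25000 * s ^ 2 * z ^ 4
      - 621083 / 5000 * s ^ 3 * z ^ 3
      - 53349 / 625 * s ^ 4 * z ^ 2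
      - 9181 / 500 * s ^ 5 * z
      - 25 / 16 * s ^ 6
      - 1681 / 25 * z ^ 6
      + 10086 / 25 * s * z ^ 6
      + 660018 / 625 * s ^ 2 * z ^ 5
      + 14447023 / 12500 * s ^ 3 * z ^ 4
      + 892677 / 1250 * s ^ 4 * z ^ 3
      + 215889 / 1000 * s ^ 5 * z ^ 2
      + 87 / 4 * s ^ 6 * z
      - 5043 / 5 * s ^ 2 * z ^ 6
      - 1464643 / 625 * s ^ 3 * z ^ 5
      - 21168289 / 10000 * s ^ 4 * z ^ 4
      - 427283 / 500 * s ^ 5 * z ^ 3
      - 5747 / 50 * s ^ 6 * z ^ 2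
      + 6724 / 5 * s ^ 3 * z ^ 6
      + 3106037 / 1250 * s ^ 4 * z ^ 5
      + 766697 / 500 * s ^ 5 * z ^ 4
      + 7342 / 25 * s ^ 6 * z ^ 3
      - 5043 / 5 * s ^ 4 * z ^ 6
      - 319923 / 250 * s ^ 5 * z ^ 5
      - 38917 / 100 * s ^ 6 * z ^ 4
      + 10086 / 25 * s ^ 5 * z ^ 6
      + 6437 / 25 * s ^ 6 * z ^ 5
      - 1681 / 25 * s ^ 6 * z ^ 6 := by
  obtain ⟨u, rfl⟩ : ∃ u, z = 0 + 1 * u := ⟨(z - 0) / (1), by ring⟩
  obtain ⟨v, rfl⟩ : ∃ v, s = 0 + 1 * v := ⟨(s - 0) / (1), by ring⟩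
  have hu := bern_mon (a := u) (by linarith) (by linarith)
  have hv := bern_mon (a := v) (by linarith) (by linarith)
  have key := (add_nonneg (add_nonneg (mul_nonneg (hu 0 6)
      (add_nonneg (add_nonneg (mul_nonneg (by norm_num : (0 : ℝ) ≤ 7215600) (hv 0 6))
      (add_nonneg (mul_nonneg (by norm_num : (0 : ℝ) ≤ 40649400) (hv 1 5))
      (mul_nonneg (by norm_num : (0 : ℝ) ≤ 94892220) (hv 2 4))))
      (add_nonneg (add_nonneg (mul_nonneg (by norm_num : (0 : ℝ) ≤ 116972568) (hv 3 3))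
      (mul_nonneg (by norm_num : (0 : ℝ) ≤ 79412724) (hv 4 2)))
      (add_nonneg (mul_nonneg (by norm_num : (0 : ℝ) ≤ 27478224) (hv 5 1))
      (mul_nonneg (by norm_num : (0 : ℝ) ≤ 3345273) (hv 6 0))))))
    (add_nonneg (mul_nonneg (hu 1 5)
      (add_nonneg (add_nonneg (mul_nonneg (by norm_num : (0 : ℝ) ≤ 34446960) (hv 0 6))
      (add_nonneg (mul_nonneg (by norm_num : (0 : ℝ) ≤ 175376100) (hv 1 5))
      (mul_nonneg (by norm_num : (0 : ℝ) ≤ 372039408) (hv 2 4))))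
      (add_nonneg (add_nonneg (mul_nonneg (by norm_num : (0 : ℝ) ≤ 420421398) (hv 3 3))
      (mul_nonneg (by norm_num : (0 : ℝ) ≤ 265362276) (hv 4 2)))
      (add_nonneg (mul_nonneg (by norm_num : (0 : ℝ) ≤ 84394950) (hv 5 1))
      (mul_nonneg (by norm_num : (0 : ℝ) ≤ 10200054) (hv 6 0))))))
    (mul_nonneg (hu 2 4)
      (add_nonneg (add_nonneg (mul_nonneg (by norm_num : (0 : ℝ) ≤ 61060785) (hv 0 6))
      (add_nonneg (mul_nonneg (by norm_num : (0 : ℝ) ≤ 289549428) (hv 1 5))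
      (mul_nonneg (by norm_num : (0 : ℝ) ≤ 569815410) (hv 2 4))))
      (add_nonneg (add_nonneg (mul_nonneg (by norm_num : (0 : ℝ) ≤ 598125108) (hv 3 3))
      (mul_nonneg (by norm_num : (0 : ℝ) ≤ 344826159) (hv 4 2)))
      (add_nonneg (mul_nonneg (by norm_num : (0 : ℝ) ≤ 111093054) (hv 5 1))
      (mul_nonneg (by norm_num : (0 : ℝ) ≤ 18621111) (hv 6 0))))))))
    (add_nonneg (add_nonneg (mul_nonneg (hu 3 3)
      (add_nonneg (add_nonneg (mul_nonneg (by norm_num : (0 : ℝ) ≤ 56176430) (hv 0 6))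
      (add_nonneg (mul_nonneg (by norm_num : (0 : ℝ) ≤ 277217578) (hv 1 5))
      (mul_nonneg (by norm_num : (0 : ℝ) ≤ 570618674) (hv 2 4))))
      (add_nonneg (add_nonneg (mul_nonneg (by norm_num : (0 : ℝ) ≤ 608621318) (hv 3 3))
      (mul_nonneg (by norm_num : (0 : ℝ) ≤ 396833140) (hv 4 2)))
      (add_nonneg (mul_nonneg (by norm_num : (0 : ℝ) ≤ 174153212) (hv 5 1))
      (mul_nonneg (by norm_num : (0 : ℝ) ≤ 39389364) (hv 6 0))))))
    (mul_nonneg (hu 4 2)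
      (add_nonneg (add_nonneg (mul_nonneg (by norm_num : (0 : ℝ) ≤ 44048445) (hv 0 6))
      (add_nonneg (mul_nonneg (by norm_num : (0 : ℝ) ≤ 255810132) (hv 1 5))
      (mul_nonneg (by norm_num : (0 : ℝ) ≤ 575754015) (hv 2 4))))
      (add_nonneg (add_nonneg (mul_nonneg (by norm_num : (0 : ℝ) ≤ 741847374) (hv 3 3))
      (mul_nonneg (by norm_num : (0 : ℝ) ≤ 606713502) (hv 4 2)))
      (add_nonneg (mul_nonneg (by norm_num : (0 : ℝ) ≤ 287677452) (hv 5 1))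
      (mul_nonneg (by norm_num : (0 : ℝ) ≤ 58262871) (hv 6 0)))))))
    (add_nonneg (mul_nonneg (hu 5 1)
      (add_nonneg (add_nonneg (mul_nonneg (by norm_num : (0 : ℝ) ≤ 33713340) (hv 0 6))
      (add_nonneg (mul_nonneg (by norm_num : (0 : ℝ) ≤ 173117502) (hv 1 5))
      (mul_nonneg (by norm_num : (0 : ℝ) ≤ 443499048) (hv 2 4))))
      (add_nonneg (add_nonneg (mul_nonneg (by norm_num : (0 : ℝ) ≤ 657774204) (hv 3 3))
      (mul_nonneg (by norm_num : (0 : ℝ) ≤ 551897184) (hv 4 2)))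
      (add_nonneg (mul_nonneg (by norm_num : (0 : ℝ) ≤ 240162078) (hv 5 1))
      (mul_nonneg (by norm_num : (0 : ℝ) ≤ 41913462) (hv 6 0))))))
    (mul_nonneg (hu 6 0)
      (add_nonneg (add_nonneg (mul_nonneg (by norm_num : (0 : ℝ) ≤ 1925900) (hv 0 6))
      (add_nonneg (mul_nonneg (by norm_num : (0 : ℝ) ≤ 39702220) (hv 1 5))
      (mul_nonneg (by norm_num : (0 : ℝ) ≤ 145695485) (hv 2 4))))
      (add_nonneg (add_nonneg (mul_nonneg (by norm_num : (0 : ℝ) ≤ 229871870) (hv 3 3))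
      (mul_nonneg (by norm_num : (0 : ℝ) ≤ 183140215) (hv 4 2)))
      (add_nonneg (mul_nonneg (by norm_num : (0 : ℝ) ≤ 72461510) (hv 5 1))
      (mul_nonneg (by norm_num : (0 : ℝ) ≤ 11273625) (hv 6 0)))))))))
  refine (mul_nonneg (by norm_num : (0 : ℝ) ≤ 1 / 150000) key).trans_eq ?_
  ring

theorem ans_Wd0 {z s : ℝ} (h1 : 0 ≤ z) (h2 : z ≤ 1) (h3 : 0 ≤ s) (h4 : s ≤ 1) :
    0 ≤ 2
      - 2431 / 1500 * z
      - 191 / 375 * s * z
      + 15697 / 7500 * z ^ 2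
      + 7913 / 7500 * s * z ^ 2
      + 397 / 750 * z ^ 3
      + 3127 / 1500 * s * z ^ 3
      + 51 / 500 * s ^ 2 * z ^ 2
      + 8 / 5 * z ^ 4
      - 16 / 5 * s * z ^ 4
      - 1307 / 500 * s ^ 2 * z ^ 3
      + 8 / 5 * s ^ 2 * z ^ 4 := by
  obtain ⟨u, rfl⟩ : ∃ u, z = 0 + 1 * u := ⟨(z - 0) / (1), by ring⟩
  obtain ⟨v, rfl⟩ : ∃ v, s = 0 + 1 * v := ⟨(s - 0) / (1), by ring⟩
  have hu := bern_mon (a := u) (by linarith) (by linarith)
  have hv := bern_mon (a := v) (by linarith) (by linarith)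
  have key := (add_nonneg (add_nonneg (mul_nonneg (hu 0 4)
      (add_nonneg (mul_nonneg (by norm_num : (0 : ℝ) ≤ 15000) (hv 0 2))
      (add_nonneg (mul_nonneg (by norm_num : (0 : ℝ) ≤ 30000) (hv 1 1))
      (mul_nonneg (by norm_num : (0 : ℝ) ≤ 15000) (hv 2 0)))))
    (mul_nonneg (hu 1 3)
      (add_nonneg (mul_nonneg (by norm_num : (0 : ℝ) ≤ 47845) (hv 0 2))
      (add_nonneg (mul_nonneg (by norm_num : (0 : ℝ) ≤ 91870) (hv 1 1))
      (mul_nonneg (by norm_num : (0 : ℝ) ≤ 44025) (hv 2 0))))))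
    (add_nonneg (mul_nonneg (hu 2 2)
      (add_nonneg (mul_nonneg (by norm_num : (0 : ℝ) ≤ 69232) (hv 0 2))
      (add_nonneg (mul_nonneg (by norm_num : (0 : ℝ) ≤ 134917) (hv 1 1))
      (mul_nonneg (by norm_num : (0 : ℝ) ≤ 66450) (hv 2 0)))))
    (add_nonneg (mul_nonneg (hu 3 1)
      (add_nonneg (mul_nonneg (by norm_num : (0 : ℝ) ≤ 58899) (hv 0 2))
      (add_nonneg (mul_nonneg (by norm_num : (0 : ℝ) ≤ 137799) (hv 1 1))
      (mul_nonneg (by norm_num : (0 : ℝ) ≤ 60825) (hv 2 0)))))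
    (mul_nonneg (hu 4 0)
      (add_nonneg (mul_nonneg (by norm_num : (0 : ℝ) ≤ 34512) (hv 0 2))
      (add_nonneg (mul_nonneg (by norm_num : (0 : ℝ) ≤ 64752) (hv 1 1))
      (mul_nonneg (by norm_num : (0 : ℝ) ≤ 23400) (hv 2 0))))))))
  refine (mul_nonneg (by norm_num : (0 : ℝ) ≤ 1 / 7500) key).trans_eq ?_
  ring

theorem ans_Wd1 {z s : ℝ} (h1 : 0 ≤ z) (h2 : z ≤ 1) (h3 : 0 ≤ s) (h4 : s ≤ 1) :
    0 ≤ 99 / 50
      - 3119 / 2000 * z
      - 249 / 500 * s * z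
      + 3856 / 1875 * z ^ 2
      + 31559 / 30000 * s * z ^ 2
      + 4001 / 7500 * z ^ 3
      + 30203 / 15000 * s * z ^ 3
      + 153 / 2000 * s ^ 2 * z ^ 2
      + 196 / 125 * z ^ 4
      - 392 / 125 * s * z ^ 4
      - 2547 / 1000 * s ^ 2 * z ^ 3
      + 196 / 125 * s ^ 2 * z ^ 4 := by
  obtain ⟨u, rfl⟩ : ∃ u, z = 0 + 1 * u := ⟨(z - 0) / (1), by ring⟩
  obtain ⟨v, rfl⟩ : ∃ v, s = 0 + 1 * v := ⟨(s - 0) / (1), by ring⟩
  have hu := bern_mon (a := u) (by linarith) (by linarith)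
  have hv := bern_mon (a := v) (by linarith) (by linarith)
  have key := (add_nonneg (add_nonneg (mul_nonneg (hu 0 4)
      (add_nonneg (mul_nonneg (by norm_num : (0 : ℝ) ≤ 59400) (hv 0 2))
      (add_nonneg (mul_nonneg (by norm_num : (0 : ℝ) ≤ 118800) (hv 1 1))
      (mul_nonneg (by norm_num : (0 : ℝ) ≤ 59400) (hv 2 0)))))
    (mul_nonneg (hu 1 3)
      (add_nonneg (mul_nonneg (by norm_num : (0 : ℝ) ≤ 190815) (hv 0 2))
      (add_nonneg (mul_nonneg (by norm_num : (0 : ℝ) ≤ 366690) (hv 1 1))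
      (mul_nonneg (by norm_num : (0 : ℝ) ≤ 175875) (hv 2 0))))))
    (add_nonneg (mul_nonneg (hu 2 2)
      (add_nonneg (mul_nonneg (by norm_num : (0 : ℝ) ≤ 277741) (hv 0 2))
      (add_nonneg (mul_nonneg (by norm_num : (0 : ℝ) ≤ 542221) (hv 1 1))
      (mul_nonneg (by norm_num : (0 : ℝ) ≤ 266775) (hv 2 0)))))
    (add_nonneg (mul_nonneg (hu 3 1)
      (add_nonneg (mul_nonneg (by norm_num : (0 : ℝ) ≤ 236641) (hv 0 2))
      (add_nonneg (mul_nonneg (by norm_num : (0 : ℝ) ≤ 551986) (hv 1 1))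
      (mul_nonneg (by norm_num : (0 : ℝ) ≤ 243525) (hv 2 0)))))
    (mul_nonneg (hu 4 0)
      (add_nonneg (mul_nonneg (by norm_num : (0 : ℝ) ≤ 137355) (hv 0 2))
      (add_nonneg (mul_nonneg (by norm_num : (0 : ℝ) ≤ 257655) (hv 1 1))
      (mul_nonneg (by norm_num : (0 : ℝ) ≤ 93225) (hv 2 0))))))))
  refine (mul_nonneg (by norm_num : (0 : ℝ) ≤ 1 / 30000) key).trans_eq ?_
  ring

theorem ans_Ad {z s : ℝ} (h1 : 0 ≤ z) (h2 : z ≤ 1) (h3 : 0 ≤ s) (h4 : s ≤ 1) :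
    0 ≤ 2
      + 101 / 1500 * z
      - 881 / 1500 * s * z
      + 77521 / 37500 * z ^ 2
      + 34121 / 150000 * s * z ^ 2
      + 2972443 / 1250000 * z ^ 3
      + 13371493 / 5000000 * s * z ^ 3
      + 51 / 125 * s ^ 2 * z ^ 2
      + 22738023 / 12500000 * z ^ 4
      - 26255691 / 25000000 * s * z ^ 4
      - 118829 / 50000 * s ^ 2 * z ^ 3
      + 205821 / 156250 * z ^ 5
      - 205821 / 78125 * s * z ^ 5
      - 3844071 / 5000000 * s ^ 2 * z ^ 4
      + 205821 / 156250 * s ^ 2 * z ^ 5 := by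
  obtain ⟨u, rfl⟩ : ∃ u, z = 0 + 1 * u := ⟨(z - 0) / (1), by ring⟩
  obtain ⟨v, rfl⟩ : ∃ v, s = 0 + 1 * v := ⟨(s - 0) / (1), by ring⟩
  have hu := bern_mon (a := u) (by linarith) (by linarith)
  have hv := bern_mon (a := v) (by linarith) (by linarith)
  have key := (add_nonneg (add_nonneg (mul_nonneg (hu 0 5)
      (add_nonneg (mul_nonneg (by norm_num : (0 : ℝ) ≤ 150000000) (hv 0 2))
      (add_nonneg (mul_nonneg (by norm_num : (0 : ℝ) ≤ 300000000) (hv 1 1))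
      (mul_nonneg (by norm_num : (0 : ℝ) ≤ 150000000) (hv 2 0)))))
    (add_nonneg (mul_nonneg (hu 1 4)
      (add_nonneg (mul_nonneg (by norm_num : (0 : ℝ) ≤ 755050000) (hv 0 2))
      (add_nonneg (mul_nonneg (by norm_num : (0 : ℝ) ≤ 1466050000) (hv 1 1))
      (mul_nonneg (by norm_num : (0 : ℝ) ≤ 711000000) (hv 2 0)))))
    (mul_nonneg (hu 2 3)
      (add_nonneg (mul_nonneg (by norm_num : (0 : ℝ) ≤ 1675242000) (hv 0 2))
      (add_nonneg (mul_nonneg (by norm_num : (0 : ℝ) ≤ 3191344500) (hv 1 1))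
      (mul_nonneg (by norm_num : (0 : ℝ) ≤ 1546702500) (hv 2 0)))))))
    (add_nonneg (mul_nonneg (hu 3 2)
      (add_nonneg (mul_nonneg (by norm_num : (0 : ℝ) ≤ 2173772580) (hv 0 2))
      (add_nonneg (mul_nonneg (by norm_num : (0 : ℝ) ≤ 4334999055) (hv 1 1))
      (mul_nonneg (by norm_num : (0 : ℝ) ≤ 2074782975) (hv 2 0)))))
    (add_nonneg (mul_nonneg (hu 4 1)
      (add_nonneg (mul_nonneg (by norm_num : (0 : ℝ) ≤ 1728447298) (hv 0 2))
      (add_nonneg (mul_nonneg (by norm_num : (0 : ℝ) ≤ 3654253813) (hv 1 1))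
      (mul_nonneg (by norm_num : (0 : ℝ) ≤ 1603458450) (hv 2 0)))))
    (mul_nonneg (hu 5 0)
      (add_nonneg (mul_nonneg (by norm_num : (0 : ℝ) ≤ 723660798) (hv 0 2))
      (add_nonneg (mul_nonneg (by norm_num : (0 : ℝ) ≤ 1344549258) (hv 1 1))
      (mul_nonneg (by norm_num : (0 : ℝ) ≤ 514377975) (hv 2 0))))))))
  refine (mul_nonneg (by norm_num : (0 : ℝ) ≤ 1 / 75000000) key).trans_eq ?_
  ring

theorem ans_Kd {z s : ℝ} (h1 : 0 ≤ z) (h2 : z ≤ 1) (h3 : 0 ≤ s) (h4 : s ≤ 1) :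
    0 ≤ 2 * s
      + 29 / 60 * s * z
      - 29 / 60 * s ^ 2 * z
      - 34 / 25 * s ^ 2 * z ^ 2
      + 8 * s ^ 2 * z ^ 3
      + 34 / 25 * s ^ 3 * z ^ 2
      - 8 * s ^ 3 * z ^ 3 := by
  obtain ⟨u, rfl⟩ : ∃ u, z = 0 + 1 * u := ⟨(z - 0) / (1), by ring⟩
  obtain ⟨v, rfl⟩ : ∃ v, s = 0 + 1 * v := ⟨(s - 0) / (1), by ring⟩
  have hu := bern_mon (a := u) (by linarith) (by linarith)
  have hv := bern_mon (a := v) (by linarith) (by linarith)
  have key := (add_nonneg (add_nonneg (mul_nonneg (hu 0 3)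
      (add_nonneg (mul_nonneg (by norm_num : (0 : ℝ) ≤ 600) (hv 1 2))
      (add_nonneg (mul_nonneg (by norm_num : (0 : ℝ) ≤ 1200) (hv 2 1))
      (mul_nonneg (by norm_num : (0 : ℝ) ≤ 600) (hv 3 0)))))
    (mul_nonneg (hu 1 2)
      (add_nonneg (mul_nonneg (by norm_num : (0 : ℝ) ≤ 1945) (hv 1 2))
      (add_nonneg (mul_nonneg (by norm_num : (0 : ℝ) ≤ 3745) (hv 2 1))
      (mul_nonneg (by norm_num : (0 : ℝ) ≤ 1800) (hv 3 0))))))
    (add_nonneg (mul_nonneg (hu 2 1)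
      (add_nonneg (mul_nonneg (by norm_num : (0 : ℝ) ≤ 2090) (hv 1 2))
      (add_nonneg (mul_nonneg (by norm_num : (0 : ℝ) ≤ 3482) (hv 2 1))
      (mul_nonneg (by norm_num : (0 : ℝ) ≤ 1800) (hv 3 0)))))
    (mul_nonneg (hu 3 0)
      (add_nonneg (mul_nonneg (by norm_num : (0 : ℝ) ≤ 745) (hv 1 2))
      (add_nonneg (mul_nonneg (by norm_num : (0 : ℝ) ≤ 3337) (hv 2 1))
      (mul_nonneg (by norm_num : (0 : ℝ) ≤ 600) (hv 3 0)))))))
  refine (mul_nonneg (by norm_num : (0 : ℝ) ≤ 1 / 300) key).trans_eq ?_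
  ring

theorem ans_h1 {z s : ℝ} (h1 : 0 ≤ z) (h2 : z ≤ 1) (h3 : 0 ≤ s) (h4 : s ≤ 1) :
    0 ≤ 5
      - 39 / 20 * s
      - 671 / 300 * z
      - 1231 / 75 * s * z
      - 18197 / 2500 * z ^ 2
      + 197103 / 10000 * s * z ^ 2
      + 243 / 20 * s ^ 2 * z
      + 931047 / 250000 * z ^ 3
      + 7533497 / 1000000 * s * z ^ 3
      - 192 / 25 * s ^ 2 * z ^ 2
      - 6 / 25 * s ^ 3 * z
      + 9744867 / 2500000 * z ^ 4
      - 93252439 / 5000000 * s * z ^ 4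
      - 359841 / 10000 * s ^ 2 * z ^ 3
      - 409 / 25 * s ^ 3 * z ^ 2
      - 5 / 2 * s ^ 4 * z
      + 88209 / 31250 * z ^ 5
      - 88209 / 15625 * s * z ^ 5
      + 47552541 / 1000000 * s ^ 2 * z ^ 4
      + 3093 / 50 * s ^ 3 * z ^ 3
      + 87 / 5 * s ^ 4 * z ^ 2
      + 88209 / 31250 * s ^ 2 * z ^ 5
      - 246 / 5 * s ^ 3 * z ^ 4
      - 157 / 5 * s ^ 4 * z ^ 3
      + 82 / 5 * s ^ 4 * z ^ 4 := by
  rcases le_total z (1 / 2) with h | h
  · obtain ⟨u, rfl⟩ : ∃ u, z = 0 + 1 / 2 * u := ⟨(z - 0) / (1 / 2), by ring⟩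
    obtain ⟨v, rfl⟩ : ∃ v, s = 0 + 1 * v := ⟨(s - 0) / (1), by ring⟩
    have hu := bern_mon (a := u) (by linarith) (by linarith)
    have hv := bern_mon (a := v) (by linarith) (by linarith)
    have key := (add_nonneg (add_nonneg (mul_nonneg (hu 0 5)
        (add_nonneg (add_nonneg (mul_nonneg (by norm_num : (0 : ℝ) ≤ 1200000000) (hv 0 4))
        (mul_nonneg (by norm_num : (0 : ℝ) ≤ 4332000000) (hv 1 3)))
        (add_nonneg (mul_nonneg (by norm_num : (0 : ℝ) ≤ 5796000000) (hv 2 2))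
        (add_nonneg (mul_nonneg (by norm_num : (0 : ℝ) ≤ 3396000000) (hv 3 1))
        (mul_nonneg (by norm_num : (0 : ℝ) ≤ 732000000) (hv 4 0))))))
      (add_nonneg (mul_nonneg (hu 1 4)
        (add_nonneg (add_nonneg (mul_nonneg (by norm_num : (0 : ℝ) ≤ 5731600000) (hv 0 4))
        (mul_nonneg (by norm_num : (0 : ℝ) ≤ 18616800000) (hv 1 3)))
        (add_nonneg (mul_nonneg (by norm_num : (0 : ℝ) ≤ 22918800000) (hv 2 2))
        (add_nonneg (mul_nonneg (by norm_num : (0 : ℝ) ≤ 12884800000) (hv 3 1))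
        (mul_nonneg (by norm_num : (0 : ℝ) ≤ 2551200000) (hv 4 0))))))
      (mul_nonneg (hu 2 3)
        (add_nonneg (add_nonneg (mul_nonneg (by norm_num : (0 : ℝ) ≤ 10489672000) (hv 0 4))
        (mul_nonneg (by norm_num : (0 : ℝ) ≤ 30582906000) (hv 1 3)))
        (add_nonneg (mul_nonneg (by norm_num : (0 : ℝ) ≤ 34181886000) (hv 2 2))
        (add_nonneg (mul_nonneg (by norm_num : (0 : ℝ) ≤ 17476942000) (hv 3 1))
        (mul_nonneg (by norm_num : (0 : ℝ) ≤ 3232290000) (hv 4 0))))))))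
      (add_nonneg (mul_nonneg (hu 3 2)
        (add_nonneg (add_nonneg (mul_nonneg (by norm_num : (0 : ℝ) ≤ 9191141640) (hv 0 4))
        (mul_nonneg (by norm_num : (0 : ℝ) ≤ 24040825470) (hv 1 3)))
        (add_nonneg (mul_nonneg (by norm_num : (0 : ℝ) ≤ 23261703570) (hv 2 2))
        (add_nonneg (mul_nonneg (by norm_num : (0 : ℝ) ≤ 9903697290) (hv 3 1))
        (mul_nonneg (by norm_num : (0 : ℝ) ≤ 1881677550) (hv 4 0))))))
      (add_nonneg (mul_nonneg (hu 4 1)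
        (add_nonneg (add_nonneg (mul_nonneg (by norm_num : (0 : ℝ) ≤ 3898136482) (hv 0 4))
        (mul_nonneg (by norm_num : (0 : ℝ) ≤ 9094252431) (hv 1 3)))
        (add_nonneg (mul_nonneg (by norm_num : (0 : ℝ) ≤ 6897780516) (hv 2 2))
        (add_nonneg (mul_nonneg (by norm_num : (0 : ℝ) ≤ 2018949667) (hv 3 1))
        (mul_nonneg (by norm_num : (0 : ℝ) ≤ 611285100) (hv 4 0))))))
      (mul_nonneg (hu 5 0)
        (add_nonneg (add_nonneg (mul_nonneg (by norm_num : (0 : ℝ) ≤ 686237002) (hv 0 4))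
        (mul_nonneg (by norm_num : (0 : ℝ) ≤ 1393873281) (hv 1 3)))
        (add_nonneg (mul_nonneg (by norm_num : (0 : ℝ) ≤ 716333106) (hv 2 2))
        (add_nonneg (mul_nonneg (by norm_num : (0 : ℝ) ≤ 103394377) (hv 3 1))
        (mul_nonneg (by norm_num : (0 : ℝ) ≤ 142697550) (hv 4 0)))))))))
    refine (mul_nonneg (by norm_num : (0 : ℝ) ≤ 1 / 240000000) key).trans_eq ?_
    ring
  · rcases le_total s (1 / 2) with h | h
    · obtain ⟨u, rfl⟩ : ∃ u, z = 1 / 2 + 1 / 2 * u := ⟨(z - 1 / 2) / (1 / 2), by ring⟩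
      obtain ⟨v, rfl⟩ : ∃ v, s = 0 + 1 / 2 * v := ⟨(s - 0) / (1 / 2), by ring⟩
      have hu := bern_mon (a := u) (by linarith) (by linarith)
      have hv := bern_mon (a := v) (by linarith) (by linarith)
      have key := (add_nonneg (add_nonneg (mul_nonneg (hu 0 5)
          (add_nonneg (add_nonneg (mul_nonneg (by norm_num : (0 : ℝ) ≤ 2744948008) (hv 0 4))
          (mul_nonneg (by norm_num : (0 : ℝ) ≤ 8277642578) (hv 1 3)))
          (add_nonneg (mul_nonneg (by norm_num : (0 : ℝ) ≤ 9015374961) (hv 2 2))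
          (add_nonneg (mul_nonneg (by norm_num : (0 : ℝ) ≤ 4231314220) (hv 3 1))
          (mul_nonneg (by norm_num : (0 : ℝ) ≤ 760633829) (hv 4 0))))))
        (add_nonneg (mul_nonneg (hu 1 4)
          (add_nonneg (add_nonneg (mul_nonneg (by norm_num : (0 : ℝ) ≤ 11856934152) (hv 0 4))
          (mul_nonneg (by norm_num : (0 : ℝ) ≤ 33402829062) (hv 1 3)))
          (add_nonneg (mul_nonneg (by norm_num : (0 : ℝ) ≤ 32584392909) (hv 2 2))
          (add_nonneg (mul_nonneg (by norm_num : (0 : ℝ) ≤ 12968235240) (hv 3 1))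
          (mul_nonneg (by norm_num : (0 : ℝ) ≤ 1976237241) (hv 4 0))))))
        (mul_nonneg (hu 2 3)
          (add_nonneg (add_nonneg (mul_nonneg (by norm_num : (0 : ℝ) ≤ 21822119456) (hv 0 4))
          (mul_nonneg (by norm_num : (0 : ℝ) ≤ 57727713436) (hv 1 3)))
          (add_nonneg (mul_nonneg (by norm_num : (0 : ℝ) ≤ 50591174652) (hv 2 2))
          (add_nonneg (mul_nonneg (by norm_num : (0 : ℝ) ≤ 17150386820) (hv 3 1))
          (mul_nonneg (by norm_num : (0 : ℝ) ≤ 2454306148) (hv 4 0))))))))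
        (add_nonneg (mul_nonneg (hu 3 2)
          (add_nonneg (add_nonneg (mul_nonneg (by norm_num : (0 : ℝ) ≤ 24003449728) (hv 0 4))
          (mul_nonneg (by norm_num : (0 : ℝ) ≤ 61826601368) (hv 1 3)))
          (add_nonneg (mul_nonneg (by norm_num : (0 : ℝ) ≤ 53882978976) (hv 2 2))
          (add_nonneg (mul_nonneg (by norm_num : (0 : ℝ) ≤ 20395752760) (hv 3 1))
          (mul_nonneg (by norm_num : (0 : ℝ) ≤ 4155925424) (hv 4 0))))))
        (add_nonneg (mul_nonneg (hu 4 1)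
          (add_nonneg (add_nonneg (mul_nonneg (by norm_num : (0 : ℝ) ≤ 16900817664) (hv 0 4))
          (mul_nonneg (by norm_num : (0 : ℝ) ≤ 44339367984) (hv 1 3)))
          (add_nonneg (mul_nonneg (by norm_num : (0 : ℝ) ≤ 43067196288) (hv 2 2))
          (add_nonneg (mul_nonneg (by norm_num : (0 : ℝ) ≤ 21006359280) (hv 3 1))
          (mul_nonneg (by norm_num : (0 : ℝ) ≤ 5236713312) (hv 4 0))))))
        (mul_nonneg (hu 5 0)
          (add_nonneg (add_nonneg (mul_nonneg (by norm_num : (0 : ℝ) ≤ 5692181888) (hv 0 4))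
          (mul_nonneg (by norm_num : (0 : ℝ) ≤ 15369335488) (hv 1 3)))
          (add_nonneg (mul_nonneg (by norm_num : (0 : ℝ) ≤ 16481586096) (hv 2 2))
          (add_nonneg (mul_nonneg (by norm_num : (0 : ℝ) ≤ 9151093280) (hv 3 1))
          (mul_nonneg (by norm_num : (0 : ℝ) ≤ 2340660784) (hv 4 0)))))))))
      refine (mul_nonneg (by norm_num : (0 : ℝ) ≤ 1 / 960000000) key).trans_eq ?_
      ring
    · obtain ⟨u, rfl⟩ : ∃ u, z = 1 / 2 + 1 / 2 * u := ⟨(z - 1 / 2) / (1 / 2), by ring⟩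
      obtain ⟨v, rfl⟩ : ∃ v, s = 1 / 2 + 1 / 2 * v := ⟨(s - 1 / 2) / (1 / 2), by ring⟩
      have hu := bern_mon (a := u) (by linarith) (by linarith)
      have hv := bern_mon (a := v) (by linarith) (by linarith)
      have key := (add_nonneg (add_nonneg (mul_nonneg (hu 0 5)
          (add_nonneg (add_nonneg (mul_nonneg (by norm_num : (0 : ℝ) ≤ 760633829) (hv 0 4))
          (mul_nonneg (by norm_num : (0 : ℝ) ≤ 1853756412) (hv 1 3)))
          (add_nonneg (mul_nonneg (by norm_num : (0 : ℝ) ≤ 1882701537) (hv 2 2))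
          (add_nonneg (mul_nonneg (by norm_num : (0 : ℝ) ≤ 1348369154) (hv 3 1))
          (mul_nonneg (by norm_num : (0 : ℝ) ≤ 570790200) (hv 4 0))))))
        (add_nonneg (mul_nonneg (hu 1 4)
          (add_nonneg (add_nonneg (mul_nonneg (by norm_num : (0 : ℝ) ≤ 1976237241) (hv 0 4))
          (mul_nonneg (by norm_num : (0 : ℝ) ≤ 2841662688) (hv 1 3)))
          (add_nonneg (mul_nonneg (by norm_num : (0 : ℝ) ≤ 2204675253) (hv 2 2))
          (add_nonneg (mul_nonneg (by norm_num : (0 : ℝ) ≤ 4555511406) (hv 3 1))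
          (mul_nonneg (by norm_num : (0 : ℝ) ≤ 3262761600) (hv 4 0))))))
        (mul_nonneg (hu 2 3)
          (add_nonneg (add_nonneg (mul_nonneg (by norm_num : (0 : ℝ) ≤ 2454306148) (hv 0 4))
          (mul_nonneg (by norm_num : (0 : ℝ) ≤ 2484062364) (hv 1 3)))
          (add_nonneg (mul_nonneg (by norm_num : (0 : ℝ) ≤ 6592201284) (hv 2 2))
          (add_nonneg (mul_nonneg (by norm_num : (0 : ℝ) ≤ 17370140068) (hv 3 1))
          (mul_nonneg (by norm_num : (0 : ℝ) ≤ 10797195000) (hv 4 0))))))))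
        (add_nonneg (mul_nonneg (hu 3 2)
          (add_nonneg (add_nonneg (mul_nonneg (by norm_num : (0 : ℝ) ≤ 4155925424) (hv 0 4))
          (mul_nonneg (by norm_num : (0 : ℝ) ≤ 12851650632) (hv 1 3)))
          (add_nonneg (mul_nonneg (by norm_num : (0 : ℝ) ≤ 31250672592) (hv 2 2))
          (add_nonneg (mul_nonneg (by norm_num : (0 : ℝ) ≤ 41945894984) (hv 3 1))
          (mul_nonneg (by norm_num : (0 : ℝ) ≤ 19210947600) (hv 4 0))))))
        (add_nonneg (mul_nonneg (hu 4 1)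
          (add_nonneg (add_nonneg (mul_nonneg (by norm_num : (0 : ℝ) ≤ 5236713312) (hv 0 4))
          (mul_nonneg (by norm_num : (0 : ℝ) ≤ 20887347216) (hv 1 3)))
          (add_nonneg (mul_nonneg (by norm_num : (0 : ℝ) ≤ 42710160096) (hv 2 2))
          (add_nonneg (mul_nonneg (by norm_num : (0 : ℝ) ≤ 43427931792) (hv 3 1))
          (mul_nonneg (by norm_num : (0 : ℝ) ≤ 16227405600) (hv 4 0))))))
        (mul_nonneg (hu 5 0)
          (add_nonneg (add_nonneg (mul_nonneg (by norm_num : (0 : ℝ) ≤ 2340660784) (hv 0 4))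
          (mul_nonneg (by norm_num : (0 : ℝ) ≤ 9574192992) (hv 1 3)))
          (add_nonneg (mul_nonneg (by norm_num : (0 : ℝ) ≤ 17750885232) (hv 2 2))
          (add_nonneg (mul_nonneg (by norm_num : (0 : ℝ) ≤ 15645034624) (hv 3 1))
          (mul_nonneg (by norm_num : (0 : ℝ) ≤ 5121681600) (hv 4 0)))))))))
      refine (mul_nonneg (by norm_num : (0 : ℝ) ≤ 1 / 960000000) key).trans_eq ?_
      ring

theorem ans_K1 {z s : ℝ} (h1 : 0 ≤ z) (h2 : z ≤ 1) (h3 : 0 ≤ s) (h4 : s ≤ 1) :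
    0 ≤ 6 / 5
      + 49 / 5 * s
      + 7 / 10 * z
      - 77 / 24 * s * z
      + 7 / 10 * s ^ 2
      + 299 / 300 * z ^ 2
      - 481 / 75 * s * z ^ 2
      - 23401 / 600 * s ^ 2 * z
      + 9 / 50 * s ^ 3
      + 329 / 300 * z ^ 3
      - 5939 / 600 * s * z ^ 3
      + 7711 / 600 * s ^ 2 * z ^ 2
      + 3273 / 100 * s ^ 3 * z
      - 113 / 100 * s ^ 4
      + 4 / 5 * z ^ 4
      - 4291 / 50 * s * z ^ 4
      - 4451 / 60 * s ^ 2 * z ^ 3
      - 6777 / 200 * s ^ 3 * z ^ 2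
      + 1123 / 100 * s ^ 4 * z
      + 5 / 4 * s ^ 5
      - 247 / 100 * s * z ^ 5
      + 6813 / 20 * s ^ 2 * z ^ 4
      + 13167 / 40 * s ^ 3 * z ^ 3
      + 352 / 5 * s ^ 4 * z ^ 2
      - 49 / 20 * s ^ 5 * z
      + 4557 / 50 * s * z ^ 6
      + 3189 / 20 * s ^ 2 * z ^ 5
      - 2189 / 5 * s ^ 3 * z ^ 4
      - 18217 / 50 * s ^ 4 * z ^ 3
      - 879 / 20 * s ^ 5 * z ^ 2
      + 82 / 5 * s * z ^ 7
      - 16611 / 50 * s ^ 2 * z ^ 6
      - 44359 / 100 * s ^ 3 * z ^ 5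
      + 19827 / 100 * s ^ 4 * z ^ 4
      + 2363 / 20 * s ^ 5 * z ^ 3
      - 328 / 5 * s ^ 2 * z ^ 7
      + 22491 / 50 * s ^ 3 * z ^ 6
      + 41871 / 100 * s ^ 4 * z ^ 5
      - 161 / 10 * s ^ 5 * z ^ 4
      + 492 / 5 * s ^ 3 * z ^ 7
      - 13377 / 50 * s ^ 4 * z ^ 6
      - 1321 / 10 * s ^ 5 * z ^ 5
      - 328 / 5 * s ^ 4 * z ^ 7
      + 294 / 5 * s ^ 5 * z ^ 6
      + 82 / 5 * s ^ 5 * z ^ 7 := by
  obtain ⟨u, rfl⟩ : ∃ u, z = 0 + 1 * u := ⟨(z - 0) / (1), by ring⟩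
  obtain ⟨v, rfl⟩ : ∃ v, s = 0 + 1 * v := ⟨(s - 0) / (1), by ring⟩
  have hu := bern_mon (a := u) (by linarith) (by linarith)
  have hv := bern_mon (a := v) (by linarith) (by linarith)
  have key := (add_nonneg (add_nonneg (add_nonneg (mul_nonneg (hu 0 9)
      (add_nonneg (add_nonneg (add_nonneg (mul_nonneg (by norm_num : (0 : ℝ) ≤ 720) (hv 0 7))
      (mul_nonneg (by norm_num : (0 : ℝ) ≤ 10920) (hv 1 6)))
      (add_nonneg (mul_nonneg (by norm_num : (0 : ℝ) ≤ 50820) (hv 2 5))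
      (mul_nonneg (by norm_num : (0 : ℝ) ≤ 115608) (hv 3 4))))
      (add_nonneg (add_nonneg (mul_nonneg (by norm_num : (0 : ℝ) ≤ 146754) (hv 4 3))
      (mul_nonneg (by norm_num : (0 : ℝ) ≤ 106884) (hv 5 2)))
      (add_nonneg (mul_nonneg (by norm_num : (0 : ℝ) ≤ 42318) (hv 6 1))
      (mul_nonneg (by norm_num : (0 : ℝ) ≤ 7200) (hv 7 0))))))
    (mul_nonneg (hu 1 8)
      (add_nonneg (add_nonneg (add_nonneg (mul_nonneg (by norm_num : (0 : ℝ) ≤ 6900) (hv 0 7))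
      (mul_nonneg (by norm_num : (0 : ℝ) ≤ 99295) (hv 1 6)))
      (add_nonneg (mul_nonneg (by norm_num : (0 : ℝ) ≤ 431249) (hv 2 5))
      (mul_nonneg (by norm_num : (0 : ℝ) ≤ 928930) (hv 3 4))))
      (add_nonneg (add_nonneg (mul_nonneg (by norm_num : (0 : ℝ) ≤ 1148266) (hv 4 3))
      (mul_nonneg (by norm_num : (0 : ℝ) ≤ 844463) (hv 5 2)))
      (add_nonneg (mul_nonneg (by norm_num : (0 : ℝ) ≤ 351073) (hv 6 1))
      (mul_nonneg (by norm_num : (0 : ℝ) ≤ 64800) (hv 7 0)))))))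
    (add_nonneg (mul_nonneg (hu 2 7)
      (add_nonneg (add_nonneg (add_nonneg (mul_nonneg (by norm_num : (0 : ℝ) ≤ 29878) (hv 0 7))
      (mul_nonneg (by norm_num : (0 : ℝ) ≤ 401578) (hv 1 6)))
      (add_nonneg (mul_nonneg (by norm_num : (0 : ℝ) ≤ 1617653) (hv 2 5))
      (mul_nonneg (by norm_num : (0 : ℝ) ≤ 3250986) (hv 3 4))))
      (add_nonneg (add_nonneg (mul_nonneg (by norm_num : (0 : ℝ) ≤ 3884980) (hv 4 3))
      (mul_nonneg (by norm_num : (0 : ℝ) ≤ 2918192) (hv 5 2)))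
      (add_nonneg (mul_nonneg (by norm_num : (0 : ℝ) ≤ 1297445) (hv 6 1))
      (mul_nonneg (by norm_num : (0 : ℝ) ≤ 259200) (hv 7 0))))))
    (add_nonneg (mul_nonneg (hu 3 6)
      (add_nonneg (add_nonneg (add_nonneg (mul_nonneg (by norm_num : (0 : ℝ) ≤ 77084) (hv 0 7))
      (mul_nonneg (by norm_num : (0 : ℝ) ≤ 946733) (hv 1 6)))
      (add_nonneg (mul_nonneg (by norm_num : (0 : ℝ) ≤ 3451153) (hv 2 5))
      (mul_nonneg (by norm_num : (0 : ℝ) ≤ 6366834) (hv 3 4))))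
      (add_nonneg (add_nonneg (mul_nonneg (by norm_num : (0 : ℝ) ≤ 7401314) (hv 4 3))
      (mul_nonneg (by norm_num : (0 : ℝ) ≤ 5840377) (hv 5 2)))
      (add_nonneg (mul_nonneg (by norm_num : (0 : ℝ) ≤ 2829193) (hv 6 1))
      (mul_nonneg (by norm_num : (0 : ℝ) ≤ 604800) (hv 7 0))))))
    (mul_nonneg (hu 4 5)
      (add_nonneg (add_nonneg (add_nonneg (mul_nonneg (by norm_num : (0 : ℝ) ≤ 131226) (hv 0 7))
      (mul_nonneg (by norm_num : (0 : ℝ) ≤ 1383728) (hv 1 6)))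
      (add_nonneg (mul_nonneg (by norm_num : (0 : ℝ) ≤ 4388347) (hv 2 5))
      (mul_nonneg (by norm_num : (0 : ℝ) ≤ 7387460) (hv 3 4))))
      (add_nonneg (add_nonneg (mul_nonneg (by norm_num : (0 : ℝ) ≤ 8734298) (hv 4 3))
      (mul_nonneg (by norm_num : (0 : ℝ) ≤ 7635520) (hv 5 2)))
      (add_nonneg (mul_nonneg (by norm_num : (0 : ℝ) ≤ 4060037) (hv 6 1))
      (mul_nonneg (by norm_num : (0 : ℝ) ≤ 907200) (hv 7 0)))))))))
    (add_nonneg (add_nonneg (mul_nonneg (hu 5 4)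
      (add_nonneg (add_nonneg (add_nonneg (mul_nonneg (by norm_num : (0 : ℝ) ≤ 153320) (hv 0 7))
      (mul_nonneg (by norm_num : (0 : ℝ) ≤ 1196663) (hv 1 6)))
      (add_nonneg (mul_nonneg (by norm_num : (0 : ℝ) ≤ 3094963) (hv 2 5))
      (mul_nonneg (by norm_num : (0 : ℝ) ≤ 4950774) (hv 3 4))))
      (add_nonneg (add_nonneg (mul_nonneg (by norm_num : (0 : ℝ) ≤ 6852134) (hv 4 3))
      (mul_nonneg (by norm_num : (0 : ℝ) ≤ 7075603) (hv 5 2)))
      (add_nonneg (mul_nonneg (by norm_num : (0 : ℝ) ≤ 4029823) (hv 6 1))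
      (mul_nonneg (by norm_num : (0 : ℝ) ≤ 907200) (hv 7 0))))))
    (mul_nonneg (hu 6 3)
      (add_nonneg (add_nonneg (add_nonneg (mul_nonneg (by norm_num : (0 : ℝ) ≤ 122890) (hv 0 7))
      (mul_nonneg (by norm_num : (0 : ℝ) ≤ 526726) (hv 1 6)))
      (add_nonneg (mul_nonneg (by norm_num : (0 : ℝ) ≤ 911423) (hv 2 5))
      (mul_nonneg (by norm_num : (0 : ℝ) ≤ 1883166) (hv 3 4))))
      (add_nonneg (add_nonneg (mul_nonneg (by norm_num : (0 : ℝ) ≤ 4112500) (hv 4 3))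
      (mul_nonneg (by norm_num : (0 : ℝ) ≤ 4929704) (hv 5 2)))
      (add_nonneg (mul_nonneg (by norm_num : (0 : ℝ) ≤ 2797583) (hv 6 1))
      (mul_nonneg (by norm_num : (0 : ℝ) ≤ 604800) (hv 7 0)))))))
    (add_nonneg (mul_nonneg (hu 7 2)
      (add_nonneg (add_nonneg (add_nonneg (mul_nonneg (by norm_num : (0 : ℝ) ≤ 64908) (hv 0 7))
      (mul_nonneg (by norm_num : (0 : ℝ) ≤ 92323) (hv 1 6)))
      (add_nonneg (mul_nonneg (by norm_num : (0 : ℝ) ≤ 25607) (hv 2 5))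
      (mul_nonneg (by norm_num : (0 : ℝ) ≤ 749338) (hv 3 4))))
      (add_nonneg (add_nonneg (mul_nonneg (by norm_num : (0 : ℝ) ≤ 2264242) (hv 4 3))
      (mul_nonneg (by norm_num : (0 : ℝ) ≤ 2569931) (hv 5 2)))
      (add_nonneg (mul_nonneg (by norm_num : (0 : ℝ) ≤ 1316035) (hv 6 1))
      (mul_nonneg (by norm_num : (0 : ℝ) ≤ 259200) (hv 7 0))))))
    (add_nonneg (mul_nonneg (hu 8 1)
      (add_nonneg (add_nonneg (add_nonneg (mul_nonneg (by norm_num : (0 : ℝ) ≤ 20374) (hv 0 7))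
      (mul_nonneg (by norm_num : (0 : ℝ) ≤ 37912) (hv 1 6)))
      (add_nonneg (mul_nonneg (by norm_num : (0 : ℝ) ≤ 131021) (hv 2 5))
      (mul_nonneg (by norm_num : (0 : ℝ) ≤ 550044) (hv 3 4))))
      (add_nonneg (add_nonneg (mul_nonneg (by norm_num : (0 : ℝ) ≤ 1006396) (hv 4 3))
      (mul_nonneg (by norm_num : (0 : ℝ) ≤ 884228) (hv 5 2)))
      (add_nonneg (mul_nonneg (by norm_num : (0 : ℝ) ≤ 379193) (hv 6 1))
      (mul_nonneg (by norm_num : (0 : ℝ) ≤ 64800) (hv 7 0))))))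
    (mul_nonneg (hu 9 0)
      (add_nonneg (add_nonneg (add_nonneg (mul_nonneg (by norm_num : (0 : ℝ) ≤ 2876) (hv 0 7))
      (mul_nonneg (by norm_num : (0 : ℝ) ≤ 25850) (hv 1 6)))
      (add_nonneg (mul_nonneg (by norm_num : (0 : ℝ) ≤ 96292) (hv 2 5))
      (mul_nonneg (by norm_num : (0 : ℝ) ≤ 191388) (hv 3 4))))
      (add_nonneg (add_nonneg (mul_nonneg (by norm_num : (0 : ℝ) ≤ 218972) (hv 4 3))
      (mul_nonneg (by norm_num : (0 : ℝ) ≤ 144154) (hv 5 2)))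
      (add_nonneg (mul_nonneg (by norm_num : (0 : ℝ) ≤ 50452) (hv 6 1))
      (mul_nonneg (by norm_num : (0 : ℝ) ≤ 7200) (hv 7 0))))))))))
  refine (mul_nonneg (by norm_num : (0 : ℝ) ≤ 1 / 600) key).trans_eq ?_
  ring

theorem ans_K2 {z s : ℝ} (h1 : 0 ≤ z) (h2 : z ≤ 1) (h3 : 0 ≤ s) (h4 : s ≤ 1) :
    0 ≤ 6 / 5
      + 49 / 5 * s
      + 21 / 10 * z
      - 287 / 24 * s * z
      + 7 / 10 * s ^ 2
      + 19 / 100 * z ^ 2
      + 7 / 10 * s * z ^ 2
      - 20431 / 600 * s ^ 2 * z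
      + 9 / 50 * s ^ 3
      + 631 / 300 * z ^ 3
      - 5449 / 600 * s * z ^ 3
      + 2191 / 200 * s ^ 2 * z ^ 2
      + 3417 / 100 * s ^ 3 * z
      - 113 / 100 * s ^ 4
      - 4 / 5 * z ^ 4
      - 11971 / 50 * s * z ^ 4
      - 94103 / 300 * s ^ 2 * z ^ 3
      - 5391 / 40 * s ^ 3 * z ^ 2
      + 219 / 100 * s ^ 4 * z
      + 5 / 4 * s ^ 5
      + 30143 / 100 * s * z ^ 5
      + 142923 / 100 * s ^ 2 * z ^ 4
      + 248289 / 200 * s ^ 3 * z ^ 3
      + 14439 / 50 * s ^ 4 * z ^ 2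
      + 151 / 20 * s ^ 5 * z
      - 1277 / 50 * s * z ^ 6
      - 122593 / 100 * s ^ 2 * z ^ 5
      - 71016 / 25 * s ^ 3 * z ^ 4
      - 37101 / 25 * s ^ 4 * z ^ 3
      - 3317 / 20 * s ^ 5 * z ^ 2
      - 82 / 5 * s * z ^ 7
      + 3491 / 50 * s ^ 2 * z ^ 6
      + 184927 / 100 * s ^ 3 * z ^ 5
      + 234993 / 100 * s ^ 4 * z ^ 4
      + 2253 / 4 * s ^ 5 * z ^ 3
      + 328 / 5 * s ^ 2 * z ^ 7
      - 2811 / 50 * s ^ 3 * z ^ 6
      - 122647 / 100 * s ^ 4 * z ^ 5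
      - 6983 / 10 * s ^ 5 * z ^ 4
      - 492 / 5 * s ^ 3 * z ^ 7
      + 257 / 50 * s ^ 4 * z ^ 6
      + 3017 / 10 * s ^ 5 * z ^ 5
      + 328 / 5 * s ^ 4 * z ^ 7
      + 34 / 5 * s ^ 5 * z ^ 6
      - 82 / 5 * s ^ 5 * z ^ 7 := by
  rcases le_total z (1 / 2) with h | h
  · obtain ⟨u, rfl⟩ : ∃ u, z = 0 + 1 / 2 * u := ⟨(z - 0) / (1 / 2), by ring⟩
    obtain ⟨v, rfl⟩ : ∃ v, s = 0 + 1 * v := ⟨(s - 0) / (1), by ring⟩
    have hu := bern_mon (a := u) (by linarith) (by linarith)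
    have hv := bern_mon (a := v) (by linarith) (by linarith)
    have key := (add_nonneg (add_nonneg (add_nonneg (mul_nonneg (hu 0 7)
        (add_nonneg (add_nonneg (mul_nonneg (by norm_num : (0 : ℝ) ≤ 11520) (hv 0 5))
        (add_nonneg (mul_nonneg (by norm_num : (0 : ℝ) ≤ 151680) (hv 1 4))
        (mul_nonneg (by norm_num : (0 : ℝ) ≤ 498240) (hv 2 3))))
        (add_nonneg (mul_nonneg (by norm_num : (0 : ℝ) ≤ 701568) (hv 3 2))
        (add_nonneg (mul_nonneg (by norm_num : (0 : ℝ) ≤ 446688) (hv 4 1))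
        (mul_nonneg (by norm_num : (0 : ℝ) ≤ 115200) (hv 5 0))))))
      (mul_nonneg (hu 1 6)
        (add_nonneg (add_nonneg (mul_nonneg (by norm_num : (0 : ℝ) ≤ 90720) (hv 0 5))
        (add_nonneg (mul_nonneg (by norm_num : (0 : ℝ) ≤ 1054760) (hv 1 4))
        (mul_nonneg (by norm_num : (0 : ℝ) ≤ 3195432) (hv 2 3))))
        (add_nonneg (mul_nonneg (by norm_num : (0 : ℝ) ≤ 4341048) (hv 3 2))
        (add_nonneg (mul_nonneg (by norm_num : (0 : ℝ) ≤ 2795816) (hv 4 1))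
        (mul_nonneg (by norm_num : (0 : ℝ) ≤ 806400) (hv 5 0)))))))
      (add_nonneg (mul_nonneg (hu 2 5)
        (add_nonneg (add_nonneg (mul_nonneg (by norm_num : (0 : ℝ) ≤ 302856) (hv 0 5))
        (add_nonneg (mul_nonneg (by norm_num : (0 : ℝ) ≤ 3147240) (hv 1 4))
        (mul_nonneg (by norm_num : (0 : ℝ) ≤ 8747124) (hv 2 3))))
        (add_nonneg (mul_nonneg (by norm_num : (0 : ℝ) ≤ 11083416) (hv 3 2))
        (add_nonneg (mul_nonneg (by norm_num : (0 : ℝ) ≤ 7528476) (hv 4 1))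
        (mul_nonneg (by norm_num : (0 : ℝ) ≤ 2419200) (hv 5 0))))))
      (mul_nonneg (hu 3 4)
        (add_nonneg (add_nonneg (mul_nonneg (by norm_num : (0 : ℝ) ≤ 559204) (hv 0 5))
        (add_nonneg (mul_nonneg (by norm_num : (0 : ℝ) ≤ 5225322) (hv 1 4))
        (mul_nonneg (by norm_num : (0 : ℝ) ≤ 12847776) (hv 2 3))))
        (add_nonneg (mul_nonneg (by norm_num : (0 : ℝ) ≤ 15176590) (hv 3 2))
        (add_nonneg (mul_nonneg (by norm_num : (0 : ℝ) ≤ 11377632) (hv 4 1))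
        (mul_nonneg (by norm_num : (0 : ℝ) ≤ 4032000) (hv 5 0))))))))
      (add_nonneg (add_nonneg (mul_nonneg (hu 4 3)
        (add_nonneg (add_nonneg (mul_nonneg (by norm_num : (0 : ℝ) ≤ 618976) (hv 0 5))
        (add_nonneg (mul_nonneg (by norm_num : (0 : ℝ) ≤ 5069236) (hv 1 4))
        (mul_nonneg (by norm_num : (0 : ℝ) ≤ 10668234) (hv 2 3))))
        (add_nonneg (mul_nonneg (by norm_num : (0 : ℝ) ≤ 12139798) (hv 3 2))
        (add_nonneg (mul_nonneg (by norm_num : (0 : ℝ) ≤ 10504804) (hv 4 1))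
        (mul_nonneg (by norm_num : (0 : ℝ) ≤ 4032000) (hv 5 0))))))
      (mul_nonneg (hu 5 2)
        (add_nonneg (add_nonneg (mul_nonneg (by norm_num : (0 : ℝ) ≤ 411384) (hv 0 5))
        (add_nonneg (mul_nonneg (by norm_num : (0 : ℝ) ≤ 2782485) (hv 1 4))
        (mul_nonneg (by norm_num : (0 : ℝ) ≤ 4914783) (hv 2 3))))
        (add_nonneg (mul_nonneg (by norm_num : (0 : ℝ) ≤ 5805240) (hv 3 2))
        (add_nonneg (mul_nonneg (by norm_num : (0 : ℝ) ≤ 5976588) (hv 4 1))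
        (mul_nonneg (by norm_num : (0 : ℝ) ≤ 2419200) (hv 5 0)))))))
      (add_nonneg (mul_nonneg (hu 6 1)
        (add_nonneg (add_nonneg (mul_nonneg (by norm_num : (0 : ℝ) ≤ 152056) (hv 0 5))
        (add_nonneg (mul_nonneg (by norm_num : (0 : ℝ) ≤ 785319) (hv 1 4))
        (mul_nonneg (by norm_num : (0 : ℝ) ≤ 1160409) (hv 2 3))))
        (add_nonneg (mul_nonneg (by norm_num : (0 : ℝ) ≤ 1615678) (hv 3 2))
        (add_nonneg (mul_nonneg (by norm_num : (0 : ℝ) ≤ 1954992) (hv 4 1))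
        (mul_nonneg (by norm_num : (0 : ℝ) ≤ 806400) (hv 5 0))))))
      (mul_nonneg (hu 7 0)
        (add_nonneg (add_nonneg (mul_nonneg (by norm_num : (0 : ℝ) ≤ 24100) (hv 0 5))
        (add_nonneg (mul_nonneg (by norm_num : (0 : ℝ) ≤ 89678) (hv 1 4))
        (mul_nonneg (by norm_num : (0 : ℝ) ≤ 116016) (hv 2 3))))
        (add_nonneg (mul_nonneg (by norm_num : (0 : ℝ) ≤ 217582) (hv 3 2))
        (add_nonneg (mul_nonneg (by norm_num : (0 : ℝ) ≤ 284924) (hv 4 1))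
        (mul_nonneg (by norm_num : (0 : ℝ) ≤ 115200) (hv 5 0)))))))))
    refine (mul_nonneg (by norm_num : (0 : ℝ) ≤ 1 / 9600) key).trans_eq ?_
    ring
  · obtain ⟨u, rfl⟩ : ∃ u, z = 1 / 2 + 1 / 2 * u := ⟨(z - 1 / 2) / (1 / 2), by ring⟩
    obtain ⟨v, rfl⟩ : ∃ v, s = 0 + 1 * v := ⟨(s - 0) / (1), by ring⟩
    have hu := bern_mon (a := u) (by linarith) (by linarith)
    have hv := bern_mon (a := v) (by linarith) (by linarith)
    have key := (add_nonneg (add_nonneg (add_nonneg (mul_nonneg (hu 0 7)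
        (add_nonneg (add_nonneg (mul_nonneg (by norm_num : (0 : ℝ) ≤ 24100) (hv 0 5))
        (add_nonneg (mul_nonneg (by norm_num : (0 : ℝ) ≤ 89678) (hv 1 4))
        (mul_nonneg (by norm_num : (0 : ℝ) ≤ 116016) (hv 2 3))))
        (add_nonneg (mul_nonneg (by norm_num : (0 : ℝ) ≤ 217582) (hv 3 2))
        (add_nonneg (mul_nonneg (by norm_num : (0 : ℝ) ≤ 284924) (hv 4 1))
        (mul_nonneg (by norm_num : (0 : ℝ) ≤ 115200) (hv 5 0))))))
      (mul_nonneg (hu 1 6)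
        (add_nonneg (add_nonneg (mul_nonneg (by norm_num : (0 : ℝ) ≤ 185344) (hv 0 5))
        (add_nonneg (mul_nonneg (by norm_num : (0 : ℝ) ≤ 470173) (hv 1 4))
        (mul_nonneg (by norm_num : (0 : ℝ) ≤ 463815) (hv 2 3))))
        (add_nonneg (mul_nonneg (by norm_num : (0 : ℝ) ≤ 1430470) (hv 3 2))
        (add_nonneg (mul_nonneg (by norm_num : (0 : ℝ) ≤ 2033944) (hv 4 1))
        (mul_nonneg (by norm_num : (0 : ℝ) ≤ 806400) (hv 5 0)))))))
      (add_nonneg (mul_nonneg (hu 2 5)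
        (add_nonneg (add_nonneg (mul_nonneg (by norm_num : (0 : ℝ) ≤ 611112) (hv 0 5))
        (add_nonneg (mul_nonneg (by norm_num : (0 : ℝ) ≤ 891609) (hv 1 4))
        (mul_nonneg (by norm_num : (0 : ℝ) ≤ 735219) (hv 2 3))))
        (add_nonneg (mul_nonneg (by norm_num : (0 : ℝ) ≤ 4693992) (hv 3 2))
        (add_nonneg (mul_nonneg (by norm_num : (0 : ℝ) ≤ 6450300) (hv 4 1))
        (mul_nonneg (by norm_num : (0 : ℝ) ≤ 2419200) (hv 5 0))))))
      (mul_nonneg (hu 3 4)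
        (add_nonneg (add_nonneg (mul_nonneg (by norm_num : (0 : ℝ) ≤ 1119504) (hv 0 5))
        (add_nonneg (mul_nonneg (by norm_num : (0 : ℝ) ≤ 746314) (hv 1 4))
        (mul_nonneg (by norm_num : (0 : ℝ) ≤ 1339536) (hv 2 3))))
        (add_nonneg (mul_nonneg (by norm_num : (0 : ℝ) ≤ 9894882) (hv 3 2))
        (add_nonneg (mul_nonneg (by norm_num : (0 : ℝ) ≤ 11740276) (hv 4 1))
        (mul_nonneg (by norm_num : (0 : ℝ) ≤ 4032000) (hv 5 0))))))))
      (add_nonneg (add_nonneg (mul_nonneg (hu 4 3)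
        (add_nonneg (add_nonneg (mul_nonneg (by norm_num : (0 : ℝ) ≤ 1229796) (hv 0 5))
        (add_nonneg (mul_nonneg (by norm_num : (0 : ℝ) ≤ 539474) (hv 1 4))
        (mul_nonneg (by norm_num : (0 : ℝ) ≤ 3396744) (hv 2 3))))
        (add_nonneg (mul_nonneg (by norm_num : (0 : ℝ) ≤ 13605246) (hv 3 2))
        (add_nonneg (mul_nonneg (by norm_num : (0 : ℝ) ≤ 13161440) (hv 4 1))
        (mul_nonneg (by norm_num : (0 : ℝ) ≤ 4032000) (hv 5 0))))))
      (mul_nonneg (hu 5 2)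
        (add_nonneg (add_nonneg (mul_nonneg (by norm_num : (0 : ℝ) ≤ 809424) (hv 0 5))
        (add_nonneg (mul_nonneg (by norm_num : (0 : ℝ) ≤ 928884) (hv 1 4))
        (mul_nonneg (by norm_num : (0 : ℝ) ≤ 4949148) (hv 2 3))))
        (add_nonneg (mul_nonneg (by norm_num : (0 : ℝ) ≤ 11492556) (hv 3 2))
        (add_nonneg (mul_nonneg (by norm_num : (0 : ℝ) ≤ 9019908) (hv 4 1))
        (mul_nonneg (by norm_num : (0 : ℝ) ≤ 2419200) (hv 5 0)))))))
      (add_nonneg (mul_nonneg (hu 6 1)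
        (add_nonneg (add_nonneg (mul_nonneg (by norm_num : (0 : ℝ) ≤ 295280) (hv 0 5))
        (add_nonneg (mul_nonneg (by norm_num : (0 : ℝ) ≤ 947408) (hv 1 4))
        (mul_nonneg (by norm_num : (0 : ℝ) ≤ 3356040) (hv 2 3))))
        (add_nonneg (mul_nonneg (by norm_num : (0 : ℝ) ≤ 5338688) (hv 3 2))
        (add_nonneg (mul_nonneg (by norm_num : (0 : ℝ) ≤ 3474296) (hv 4 1))
        (mul_nonneg (by norm_num : (0 : ℝ) ≤ 806400) (hv 5 0))))))
      (mul_nonneg (hu 7 0)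
        (add_nonneg (add_nonneg (mul_nonneg (by norm_num : (0 : ℝ) ≤ 46016) (hv 0 5))
        (add_nonneg (mul_nonneg (by norm_num : (0 : ℝ) ≤ 321568) (hv 1 4))
        (mul_nonneg (by norm_num : (0 : ℝ) ≤ 851520) (hv 2 3))))
        (add_nonneg (mul_nonneg (by norm_num : (0 : ℝ) ≤ 1037600) (hv 3 2))
        (add_nonneg (mul_nonneg (by norm_num : (0 : ℝ) ≤ 576832) (hv 4 1))
        (mul_nonneg (by norm_num : (0 : ℝ) ≤ 115200) (hv 5 0)))))))))
    refine (mul_nonneg (by norm_num : (0 : ℝ) ≤ 1 / 9600) key).trans_eq ?_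
    ring

theorem ans_K3 {z s : ℝ} (h1 : 0 ≤ z) (h2 : z ≤ 1) (h3 : 0 ≤ s) (h4 : s ≤ 1) :
    0 ≤ 113 / 5
      + 3871 / 20 * s
      + 848 / 75 * z
      - 10513 / 200 * s * z
      + 157 / 10 * s ^ 2
      + 5023 / 300 * z ^ 2
      - 12159 / 100 * s * z ^ 2
      - 88877 / 120 * s ^ 2 * z
      + 219 / 50 * s ^ 3
      + 5771 / 300 * z ^ 3
      - 20657 / 600 * s * z ^ 3
      + 286699 / 600 * s ^ 2 * z ^ 2
      + 72027 / 100 * s ^ 3 * z
      - 1147 / 100 * s ^ 4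
      + 76 / 5 * z ^ 4
      - 40641 / 25 * s * z ^ 4
      - 561463 / 300 * s ^ 2 * z ^ 3
      - 224707 / 200 * s ^ 3 * z ^ 2
      + 11147 / 100 * s ^ 4 * z
      + 95 / 4 * s ^ 5
      - 22921 / 100 * s * z ^ 5
      + 615839 / 100 * s ^ 2 * z ^ 4
      + 1313893 / 200 * s ^ 3 * z ^ 3
      + 15589 / 10 * s ^ 4 * z ^ 2
      - 931 / 20 * s ^ 5 * z
      + 84943 / 50 * s * z ^ 6
      + 351171 / 100 * s ^ 2 * z ^ 5
      - 387249 / 50 * s ^ 3 * z ^ 4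
      - 346913 / 50 * s ^ 4 * z ^ 3
      - 16701 / 20 * s ^ 5 * z ^ 2
      + 1558 / 5 * s * z ^ 7
      - 310689 / 50 * s ^ 2 * z ^ 6
      - 884569 / 100 * s ^ 3 * z ^ 5
      + 350293 / 100 * s ^ 4 * z ^ 4
      + 44897 / 20 * s ^ 5 * z ^ 3
      - 6232 / 5 * s ^ 2 * z ^ 7
      + 422409 / 50 * s ^ 3 * z ^ 6
      + 807309 / 100 * s ^ 4 * z ^ 5
      - 3059 / 10 * s ^ 5 * z ^ 4
      + 9348 / 5 * s ^ 3 * z ^ 7
      - 252523 / 50 * s ^ 4 * z ^ 6
      - 25099 / 10 * s ^ 5 * z ^ 5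
      - 6232 / 5 * s ^ 4 * z ^ 7
      + 5586 / 5 * s ^ 5 * z ^ 6
      + 1558 / 5 * s ^ 5 * z ^ 7 := by
  obtain ⟨u, rfl⟩ : ∃ u, z = 0 + 1 * u := ⟨(z - 0) / (1), by ring⟩
  obtain ⟨v, rfl⟩ : ∃ v, s = 0 + 1 * v := ⟨(s - 0) / (1), by ring⟩
  have hu := bern_mon (a := u) (by linarith) (by linarith)
  have hv := bern_mon (a := v) (by linarith) (by linarith)
  have key := (add_nonneg (add_nonneg (add_nonneg (mul_nonneg (hu 0 9)
      (add_nonneg (add_nonneg (mul_nonneg (by norm_num : (0 : ℝ) ≤ 13560) (hv 0 6))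
      (add_nonneg (mul_nonneg (by norm_num : (0 : ℝ) ≤ 197490) (hv 1 5))
      (mul_nonneg (by norm_num : (0 : ℝ) ≤ 793470) (hv 2 4))))
      (add_nonneg (add_nonneg (mul_nonneg (by norm_num : (0 : ℝ) ≤ 1472808) (hv 3 3))
      (mul_nonneg (by norm_num : (0 : ℝ) ≤ 1422222) (hv 4 2)))
      (add_nonneg (mul_nonneg (by norm_num : (0 : ℝ) ≤ 708060) (hv 5 1))
      (mul_nonneg (by norm_num : (0 : ℝ) ≤ 149106) (hv 6 0))))))
    (mul_nonneg (hu 1 8)
      (add_nonneg (add_nonneg (mul_nonneg (by norm_num : (0 : ℝ) ≤ 128824) (hv 0 6))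
      (add_nonneg (mul_nonneg (by norm_num : (0 : ℝ) ≤ 1786575) (hv 1 5))
      (mul_nonneg (by norm_num : (0 : ℝ) ≤ 6640910) (hv 2 4))))
      (add_nonneg (add_nonneg (mul_nonneg (by norm_num : (0 : ℝ) ≤ 11730184) (hv 3 3))
      (mul_nonneg (by norm_num : (0 : ℝ) ≤ 11283426) (hv 4 2)))
      (add_nonneg (mul_nonneg (by norm_num : (0 : ℝ) ≤ 5880329) (hv 5 1))
      (mul_nonneg (by norm_num : (0 : ℝ) ≤ 1343928) (hv 6 0)))))))
    (add_nonneg (mul_nonneg (hu 2 7)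
      (add_nonneg (add_nonneg (mul_nonneg (by norm_num : (0 : ℝ) ≤ 552478) (hv 0 6))
      (add_nonneg (mul_nonneg (by norm_num : (0 : ℝ) ≤ 7170282) (hv 1 5))
      (mul_nonneg (by norm_num : (0 : ℝ) ≤ 24634979) (hv 2 4))))
      (add_nonneg (add_nonneg (mul_nonneg (by norm_num : (0 : ℝ) ≤ 40764439) (hv 3 3))
      (mul_nonneg (by norm_num : (0 : ℝ) ≤ 39121737) (hv 4 2)))
      (add_nonneg (mul_nonneg (by norm_num : (0 : ℝ) ≤ 21742061) (hv 5 1))
      (mul_nonneg (by norm_num : (0 : ℝ) ≤ 5367588) (hv 6 0))))))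
    (add_nonneg (mul_nonneg (hu 3 6)
      (add_nonneg (add_nonneg (mul_nonneg (by norm_num : (0 : ℝ) ≤ 1410856) (hv 0 6))
      (add_nonneg (mul_nonneg (by norm_num : (0 : ℝ) ≤ 16805629) (hv 1 5))
      (mul_nonneg (by norm_num : (0 : ℝ) ≤ 52097772) (hv 2 4))))
      (add_nonneg (add_nonneg (mul_nonneg (by norm_num : (0 : ℝ) ≤ 80096038) (hv 3 3))
      (mul_nonneg (by norm_num : (0 : ℝ) ≤ 78273964) (hv 4 2)))
      (add_nonneg (mul_nonneg (by norm_num : (0 : ℝ) ≤ 47342553) (hv 5 1))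
      (mul_nonneg (by norm_num : (0 : ℝ) ≤ 12461628) (hv 6 0))))))
    (mul_nonneg (hu 4 5)
      (add_nonneg (add_nonneg (mul_nonneg (by norm_num : (0 : ℝ) ≤ 2377802) (hv 0 6))
      (add_nonneg (mul_nonneg (by norm_num : (0 : ℝ) ≤ 24501648) (hv 1 5))
      (mul_nonneg (by norm_num : (0 : ℝ) ≤ 66120727) (hv 2 4))))
      (add_nonneg (add_nonneg (mul_nonneg (by norm_num : (0 : ℝ) ≤ 96401213) (hv 3 3))
      (mul_nonneg (by norm_num : (0 : ℝ) ≤ 101473149) (hv 4 2)))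
      (add_nonneg (mul_nonneg (by norm_num : (0 : ℝ) ≤ 67591849) (hv 5 1))
      (mul_nonneg (by norm_num : (0 : ℝ) ≤ 18523032) (hv 6 0)))))))))
    (add_nonneg (add_nonneg (mul_nonneg (hu 5 4)
      (add_nonneg (add_nonneg (mul_nonneg (by norm_num : (0 : ℝ) ≤ 2753780) (hv 0 6))
      (add_nonneg (mul_nonneg (by norm_num : (0 : ℝ) ≤ 21069639) (hv 1 5))
      (mul_nonneg (by norm_num : (0 : ℝ) ≤ 47894236) (hv 2 4))))
      (add_nonneg (add_nonneg (mul_nonneg (by norm_num : (0 : ℝ) ≤ 73527218) (hv 3 3))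
      (mul_nonneg (by norm_num : (0 : ℝ) ≤ 92065740) (hv 4 2)))
      (add_nonneg (mul_nonneg (by norm_num : (0 : ℝ) ≤ 66385615) (hv 5 1))
      (mul_nonneg (by norm_num : (0 : ℝ) ≤ 18268716) (hv 6 0))))))
    (mul_nonneg (hu 6 3)
      (add_nonneg (add_nonneg (mul_nonneg (by norm_num : (0 : ℝ) ≤ 2192594) (hv 0 6))
      (add_nonneg (mul_nonneg (by norm_num : (0 : ℝ) ≤ 8893142) (hv 1 5))
      (mul_nonneg (by norm_num : (0 : ℝ) ≤ 16708641) (hv 2 4))))
      (add_nonneg (add_nonneg (mul_nonneg (by norm_num : (0 : ℝ) ≤ 38785565) (hv 3 3))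
      (mul_nonneg (by norm_num : (0 : ℝ) ≤ 62155163) (hv 4 2)))
      (add_nonneg (mul_nonneg (by norm_num : (0 : ℝ) ≤ 45324279) (hv 5 1))
      (mul_nonneg (by norm_num : (0 : ℝ) ≤ 11946588) (hv 6 0)))))))
    (add_nonneg (mul_nonneg (hu 7 2)
      (add_nonneg (add_nonneg (mul_nonneg (by norm_num : (0 : ℝ) ≤ 1153408) (hv 0 6))
      (add_nonneg (mul_nonneg (by norm_num : (0 : ℝ) ≤ 1042059) (hv 1 5))
      (mul_nonneg (by norm_num : (0 : ℝ) ≤ 2642156) (hv 2 4))))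
      (add_nonneg (add_nonneg (mul_nonneg (by norm_num : (0 : ℝ) ≤ 18394102) (hv 3 3))
      (mul_nonneg (by norm_num : (0 : ℝ) ≤ 31513620) (hv 4 2)))
      (add_nonneg (mul_nonneg (by norm_num : (0 : ℝ) ≤ 20863571) (hv 5 1))
      (mul_nonneg (by norm_num : (0 : ℝ) ≤ 4990548) (hv 6 0))))))
    (add_nonneg (mul_nonneg (hu 8 1)
      (add_nonneg (add_nonneg (mul_nonneg (by norm_num : (0 : ℝ) ≤ 361486) (hv 0 6))
      (add_nonneg (mul_nonneg (by norm_num : (0 : ℝ) ≤ 331998) (hv 1 5))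
      (mul_nonneg (by norm_num : (0 : ℝ) ≤ 2259527) (hv 2 4))))
      (add_nonneg (add_nonneg (mul_nonneg (by norm_num : (0 : ℝ) ≤ 8345671) (hv 3 3))
      (mul_nonneg (by norm_num : (0 : ℝ) ≤ 10718001) (hv 4 2)))
      (add_nonneg (mul_nonneg (by norm_num : (0 : ℝ) ≤ 5868503) (hv 5 1))
      (mul_nonneg (by norm_num : (0 : ℝ) ≤ 1207158) (hv 6 0))))))
    (mul_nonneg (hu 9 0)
      (add_nonneg (add_nonneg (mul_nonneg (by norm_num : (0 : ℝ) ≤ 51052) (hv 0 6))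
      (add_nonneg (mul_nonneg (by norm_num : (0 : ℝ) ≤ 390658) (hv 1 5))
      (mul_nonneg (by norm_num : (0 : ℝ) ≤ 1242270) (hv 2 4))))
      (add_nonneg (add_nonneg (mul_nonneg (by norm_num : (0 : ℝ) ≤ 2022154) (hv 3 3))
      (mul_nonneg (by norm_num : (0 : ℝ) ≤ 1753522) (hv 4 2)))
      (add_nonneg (mul_nonneg (by norm_num : (0 : ℝ) ≤ 762684) (hv 5 1))
      (mul_nonneg (by norm_num : (0 : ℝ) ≤ 128652) (hv 6 0))))))))))
  refine (mul_nonneg (by norm_num : (0 : ℝ) ≤ 1 / 600) key).trans_eq ?_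
  ring

theorem ans_K4 {z s : ℝ} (h1 : 0 ≤ z) (h2 : z ≤ 1) (h3 : 0 ≤ s) (h4 : s ≤ 1) :
    0 ≤ 141 / 5
      + 3283 / 20 * s
      + 1007 / 25 * z
      - 133793 / 600 * s * z
      + 61 / 10 * s ^ 2
      + 469 / 60 * z ^ 2
      + 1001 / 60 * s * z ^ 2
      - 383131 / 600 * s ^ 2 * z
      + 27 / 50 * s ^ 3
      + 11509 / 300 * z ^ 3
      - 76391 / 120 * s * z ^ 3
      - 100169 / 200 * s ^ 2 * z ^ 2
      + 35787 / 100 * s ^ 3 * z
      - 5147 / 100 * s ^ 4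
      - 76 / 5 * z ^ 4
      - 98653 / 25 * s * z ^ 4
      - 1089311 / 300 * s ^ 2 * z ^ 3
      - 146361 / 200 * s ^ 3 * z ^ 2
      + 38731 / 100 * s ^ 4 * z
      + 95 / 4 * s ^ 5
      + 567609 / 100 * s * z ^ 5
      + 2530637 / 100 * s ^ 2 * z ^ 4
      + 4066679 / 200 * s ^ 3 * z ^ 3
      + 109383 / 25 * s ^ 4 * z ^ 2
      + 2869 / 20 * s ^ 5 * z
      - 25903 / 50 * s * z ^ 6
      - 2320411 / 100 * s ^ 2 * z ^ 5
      - 2606131 / 50 * s ^ 3 * z ^ 4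
      - 670414 / 25 * s ^ 4 * z ^ 3
      - 63023 / 20 * s ^ 5 * z ^ 2
      - 1558 / 5 * s * z ^ 7
      + 71249 / 50 * s ^ 2 * z ^ 6
      + 140449 / 4 * s ^ 3 * z ^ 5
      + 4404527 / 100 * s ^ 4 * z ^ 4
      + 42807 / 4 * s ^ 5 * z ^ 3
      + 6232 / 5 * s ^ 2 * z ^ 7
      - 58329 / 50 * s ^ 3 * z ^ 6
      - 2331653 / 100 * s ^ 4 * z ^ 5
      - 132677 / 10 * s ^ 5 * z ^ 4
      - 9348 / 5 * s ^ 3 * z ^ 7
      + 6523 / 50 * s ^ 4 * z ^ 6
      + 57323 / 10 * s ^ 5 * z ^ 5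
      + 6232 / 5 * s ^ 4 * z ^ 7
      + 646 / 5 * s ^ 5 * z ^ 6
      - 1558 / 5 * s ^ 5 * z ^ 7 := by
  rcases le_total z (1 / 2) with h | h
  · obtain ⟨u, rfl⟩ : ∃ u, z = 0 + 1 / 2 * u := ⟨(z - 0) / (1 / 2), by ring⟩
    obtain ⟨v, rfl⟩ : ∃ v, s = 0 + 1 * v := ⟨(s - 0) / (1), by ring⟩
    have hu := bern_mon (a := u) (by linarith) (by linarith)
    have hv := bern_mon (a := v) (by linarith) (by linarith)
    have key := (add_nonneg (add_nonneg (add_nonneg (mul_nonneg (hu 0 7)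
        (add_nonneg (add_nonneg (mul_nonneg (by norm_num : (0 : ℝ) ≤ 270720) (hv 0 5))
        (add_nonneg (mul_nonneg (by norm_num : (0 : ℝ) ≤ 2929440) (hv 1 4))
        (mul_nonneg (by norm_num : (0 : ℝ) ≤ 9069120) (hv 2 3))))
        (add_nonneg (mul_nonneg (by norm_num : (0 : ℝ) ≤ 12343104) (hv 3 2))
        (add_nonneg (mul_nonneg (by norm_num : (0 : ℝ) ≤ 7348896) (hv 4 1))
        (mul_nonneg (by norm_num : (0 : ℝ) ≤ 1644192) (hv 5 0))))))
      (mul_nonneg (hu 1 6)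
        (add_nonneg (add_nonneg (mul_nonneg (by norm_num : (0 : ℝ) ≤ 2088384) (hv 0 5))
        (add_nonneg (mul_nonneg (by norm_num : (0 : ℝ) ≤ 20402456) (hv 1 4))
        (mul_nonneg (by norm_num : (0 : ℝ) ≤ 58070856) (hv 2 3))))
        (add_nonneg (mul_nonneg (by norm_num : (0 : ℝ) ≤ 74435736) (hv 3 2))
        (add_nonneg (mul_nonneg (by norm_num : (0 : ℝ) ≤ 44227112) (hv 4 1))
        (mul_nonneg (by norm_num : (0 : ℝ) ≤ 11832720) (hv 5 0)))))))
      (add_nonneg (mul_nonneg (hu 2 5)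
        (add_nonneg (add_nonneg (mul_nonneg (by norm_num : (0 : ℝ) ≤ 6863944) (hv 0 5))
        (add_nonneg (mul_nonneg (by norm_num : (0 : ℝ) ≤ 61030336) (hv 1 4))
        (mul_nonneg (by norm_num : (0 : ℝ) ≤ 157119348) (hv 2 3))))
        (add_nonneg (mul_nonneg (by norm_num : (0 : ℝ) ≤ 182474656) (hv 3 2))
        (add_nonneg (mul_nonneg (by norm_num : (0 : ℝ) ≤ 114671836) (hv 4 1))
        (mul_nonneg (by norm_num : (0 : ℝ) ≤ 36506736) (hv 5 0))))))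
      (mul_nonneg (hu 3 4)
        (add_nonneg (add_nonneg (mul_nonneg (by norm_num : (0 : ℝ) ≤ 12515196) (hv 0 5))
        (add_nonneg (mul_nonneg (by norm_num : (0 : ℝ) ≤ 101111510) (hv 1 4))
        (mul_nonneg (by norm_num : (0 : ℝ) ≤ 225000576) (hv 2 3))))
        (add_nonneg (mul_nonneg (by norm_num : (0 : ℝ) ≤ 235051122) (hv 3 2))
        (add_nonneg (mul_nonneg (by norm_num : (0 : ℝ) ≤ 167886944) (hv 4 1))
        (mul_nonneg (by norm_num : (0 : ℝ) ≤ 62576784) (hv 5 0))))))))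
      (add_nonneg (add_nonneg (mul_nonneg (hu 4 3)
        (add_nonneg (add_nonneg (mul_nonneg (by norm_num : (0 : ℝ) ≤ 13704704) (hv 0 5))
        (add_nonneg (mul_nonneg (by norm_num : (0 : ℝ) ≤ 97248128) (hv 1 4))
        (mul_nonneg (by norm_num : (0 : ℝ) ≤ 178428678) (hv 2 3))))
        (add_nonneg (mul_nonneg (by norm_num : (0 : ℝ) ≤ 172144670) (hv 3 2))
        (add_nonneg (mul_nonneg (by norm_num : (0 : ℝ) ≤ 152075492) (hv 4 1))
        (mul_nonneg (by norm_num : (0 : ℝ) ≤ 64347456) (hv 5 0))))))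
      (mul_nonneg (hu 5 2)
        (add_nonneg (add_nonneg (mul_nonneg (by norm_num : (0 : ℝ) ≤ 9021736) (hv 0 5))
        (add_nonneg (mul_nonneg (by norm_num : (0 : ℝ) ≤ 52562911) (hv 1 4))
        (mul_nonneg (by norm_num : (0 : ℝ) ≤ 75714813) (hv 2 3))))
        (add_nonneg (mul_nonneg (by norm_num : (0 : ℝ) ≤ 73409920) (hv 3 2))
        (add_nonneg (mul_nonneg (by norm_num : (0 : ℝ) ≤ 86543308) (hv 4 1))
        (mul_nonneg (by norm_num : (0 : ℝ) ≤ 39686256) (hv 5 0)))))))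
      (add_nonneg (mul_nonneg (hu 6 1)
        (add_nonneg (add_nonneg (mul_nonneg (by norm_num : (0 : ℝ) ≤ 3305688) (hv 0 5))
        (add_nonneg (mul_nonneg (by norm_num : (0 : ℝ) ≤ 14506745) (hv 1 4))
        (mul_nonneg (by norm_num : (0 : ℝ) ≤ 15393363) (hv 2 3))))
        (add_nonneg (mul_nonneg (by norm_num : (0 : ℝ) ≤ 18429726) (hv 3 2))
        (add_nonneg (mul_nonneg (by norm_num : (0 : ℝ) ≤ 28969136) (hv 4 1))
        (mul_nonneg (by norm_num : (0 : ℝ) ≤ 13590576) (hv 5 0))))))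
      (mul_nonneg (hu 7 0)
        (add_nonneg (add_nonneg (mul_nonneg (by norm_num : (0 : ℝ) ≤ 519740) (hv 0 5))
        (add_nonneg (mul_nonneg (by norm_num : (0 : ℝ) ≤ 1614402) (hv 1 4))
        (mul_nonneg (by norm_num : (0 : ℝ) ≤ 1224264) (hv 2 3))))
        (add_nonneg (mul_nonneg (by norm_num : (0 : ℝ) ≤ 2495378) (hv 3 2))
        (add_nonneg (mul_nonneg (by norm_num : (0 : ℝ) ≤ 4407996) (hv 4 1))
        (mul_nonneg (by norm_num : (0 : ℝ) ≤ 1993200) (hv 5 0)))))))))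
    refine (mul_nonneg (by norm_num : (0 : ℝ) ≤ 1 / 9600) key).trans_eq ?_
    ring
  · obtain ⟨u, rfl⟩ : ∃ u, z = 1 / 2 + 1 / 2 * u := ⟨(z - 1 / 2) / (1 / 2), by ring⟩
    obtain ⟨v, rfl⟩ : ∃ v, s = 0 + 1 * v := ⟨(s - 0) / (1), by ring⟩
    have hu := bern_mon (a := u) (by linarith) (by linarith)
    have hv := bern_mon (a := v) (by linarith) (by linarith)
    have key := (add_nonneg (add_nonneg (add_nonneg (mul_nonneg (hu 0 7)
        (add_nonneg (add_nonneg (mul_nonneg (by norm_num : (0 : ℝ) ≤ 519740) (hv 0 6))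
        (add_nonneg (mul_nonneg (by norm_num : (0 : ℝ) ≤ 2134142) (hv 1 5))
        (mul_nonneg (by norm_num : (0 : ℝ) ≤ 2838666) (hv 2 4))))
        (add_nonneg (add_nonneg (mul_nonneg (by norm_num : (0 : ℝ) ≤ 3719642) (hv 3 3))
        (mul_nonneg (by norm_num : (0 : ℝ) ≤ 6903374) (hv 4 2)))
        (add_nonneg (mul_nonneg (by norm_num : (0 : ℝ) ≤ 6401196) (hv 5 1))
        (mul_nonneg (by norm_num : (0 : ℝ) ≤ 1993200) (hv 6 0))))))
      (mul_nonneg (hu 1 6)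
        (add_nonneg (add_nonneg (mul_nonneg (by norm_num : (0 : ℝ) ≤ 3970672) (hv 0 6))
        (add_nonneg (mul_nonneg (by norm_num : (0 : ℝ) ≤ 12065555) (hv 1 5))
        (mul_nonneg (by norm_num : (0 : ℝ) ≤ 9841216) (hv 2 4))))
        (add_nonneg (add_nonneg (mul_nonneg (by norm_num : (0 : ℝ) ≤ 18251899) (hv 3 3))
        (mul_nonneg (by norm_num : (0 : ℝ) ≤ 49248374) (hv 4 2)))
        (add_nonneg (mul_nonneg (by norm_num : (0 : ℝ) ≤ 47057032) (hv 5 1))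
        (mul_nonneg (by norm_num : (0 : ℝ) ≤ 14314224) (hv 6 0)))))))
      (add_nonneg (mul_nonneg (hu 2 5)
        (add_nonneg (add_nonneg (mul_nonneg (by norm_num : (0 : ℝ) ≤ 13011640) (hv 0 6))
        (add_nonneg (mul_nonneg (by norm_num : (0 : ℝ) ≤ 27103379) (hv 1 5))
        (mul_nonneg (by norm_num : (0 : ℝ) ≤ 7924372) (hv 2 4))))
        (add_nonneg (add_nonneg (mul_nonneg (by norm_num : (0 : ℝ) ≤ 55697593) (hv 3 3))
        (mul_nonneg (by norm_num : (0 : ℝ) ≤ 171050300) (hv 4 2)))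
        (add_nonneg (mul_nonneg (by norm_num : (0 : ℝ) ≤ 153213484) (hv 5 1))
        (mul_nonneg (by norm_num : (0 : ℝ) ≤ 44028144) (hv 6 0))))))
      (mul_nonneg (hu 3 4)
        (add_nonneg (add_nonneg (mul_nonneg (by norm_num : (0 : ℝ) ≤ 23698576) (hv 0 6))
        (add_nonneg (mul_nonneg (by norm_num : (0 : ℝ) ≤ 33707418) (hv 1 5))
        (mul_nonneg (by norm_num : (0 : ℝ) ≤ 7920434) (hv 2 4))))
        (add_nonneg (add_nonneg (mul_nonneg (by norm_num : (0 : ℝ) ≤ 152788402) (hv 3 3))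
        (mul_nonneg (by norm_num : (0 : ℝ) ≤ 364325118) (hv 4 2)))
        (add_nonneg (mul_nonneg (by norm_num : (0 : ℝ) ≤ 284624852) (hv 5 1))
        (mul_nonneg (by norm_num : (0 : ℝ) ≤ 75176544) (hv 6 0))))))))
      (add_nonneg (add_nonneg (mul_nonneg (hu 4 3)
        (add_nonneg (add_nonneg (mul_nonneg (by norm_num : (0 : ℝ) ≤ 25891324) (hv 0 6))
        (add_nonneg (mul_nonneg (by norm_num : (0 : ℝ) ≤ 34520170) (hv 1 5))
        (mul_nonneg (by norm_num : (0 : ℝ) ≤ 57442278) (hv 2 4))))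
        (add_nonneg (add_nonneg (mul_nonneg (by norm_num : (0 : ℝ) ≤ 291759514) (hv 3 3))
        (mul_nonneg (by norm_num : (0 : ℝ) ≤ 489377410) (hv 4 2)))
        (add_nonneg (mul_nonneg (by norm_num : (0 : ℝ) ≤ 323378544) (hv 5 1))
        (mul_nonneg (by norm_num : (0 : ℝ) ≤ 76947216) (hv 6 0))))))
      (mul_nonneg (hu 5 2)
        (add_nonneg (add_nonneg (mul_nonneg (by norm_num : (0 : ℝ) ≤ 16953376) (hv 0 6))
        (add_nonneg (mul_nonneg (by norm_num : (0 : ℝ) ≤ 36929252) (hv 1 5))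
        (mul_nonneg (by norm_num : (0 : ℝ) ≤ 116055040) (hv 2 4))))
        (add_nonneg (add_nonneg (mul_nonneg (by norm_num : (0 : ℝ) ≤ 318992536) (hv 3 3))
        (mul_nonneg (by norm_num : (0 : ℝ) ≤ 398796704) (hv 4 2)))
        (add_nonneg (mul_nonneg (by norm_num : (0 : ℝ) ≤ 223090996) (hv 5 1))
        (mul_nonneg (by norm_num : (0 : ℝ) ≤ 47207664) (hv 6 0)))))))
      (add_nonneg (mul_nonneg (hu 6 1)
        (add_nonneg (add_nonneg (mul_nonneg (by norm_num : (0 : ℝ) ≤ 6154736) (hv 0 6))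
        (add_nonneg (mul_nonneg (by norm_num : (0 : ℝ) ≤ 26823808) (hv 1 5))
        (mul_nonneg (by norm_num : (0 : ℝ) ≤ 90681368) (hv 2 4))))
        (add_nonneg (add_nonneg (mul_nonneg (by norm_num : (0 : ℝ) ≤ 178748984) (hv 3 3))
        (mul_nonneg (by norm_num : (0 : ℝ) ≤ 178676776) (hv 4 2)))
        (add_nonneg (mul_nonneg (by norm_num : (0 : ℝ) ≤ 86012168) (hv 5 1))
        (mul_nonneg (by norm_num : (0 : ℝ) ≤ 16072080) (hv 6 0))))))
      (mul_nonneg (hu 7 0)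
        (add_nonneg (add_nonneg (mul_nonneg (by norm_num : (0 : ℝ) ≤ 954816) (hv 0 6))
        (add_nonneg (mul_nonneg (by norm_num : (0 : ℝ) ≤ 7855904) (hv 1 5))
        (mul_nonneg (by norm_num : (0 : ℝ) ≤ 25046624) (hv 2 4))))
        (add_nonneg (add_nonneg (mul_nonneg (by norm_num : (0 : ℝ) ≤ 39892896) (hv 3 3))
        (mul_nonneg (by norm_num : (0 : ℝ) ≤ 33637664) (hv 4 2)))
        (add_nonneg (mul_nonneg (by norm_num : (0 : ℝ) ≤ 14232512) (hv 5 1))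
        (mul_nonneg (by norm_num : (0 : ℝ) ≤ 2342208) (hv 6 0)))))))))
    refine (mul_nonneg (by norm_num : (0 : ℝ) ≤ 1 / 9600) key).trans_eq ?_
    ring

theorem ans_tBl {z s : ℝ} (h1 : 0 ≤ z) (h2 : z ≤ 1) (h3 : 0 ≤ s) (h4 : s ≤ 1) :
    0 ≤ 29 / 30 * s
      + 7 / 20 * z
      + 29 / 100 * s * z
      + 11 / 600 * s ^ 2
      - 63 / 200 * z ^ 2
      + 189 / 200 * s * z ^ 2
      + 17 / 100 * s ^ 2 * z
      + 3 / 200 * s ^ 3
      - 189 / 200 * s ^ 2 * z ^ 2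
      - 21 / 100 * s ^ 3 * z
      + 63 / 200 * s ^ 3 * z ^ 2 := by
  obtain ⟨u, rfl⟩ : ∃ u, z = 0 + 1 * u := ⟨(z - 0) / (1), by ring⟩
  obtain ⟨v, rfl⟩ : ∃ v, s = 0 + 1 * v := ⟨(s - 0) / (1), by ring⟩
  have hu := bern_mon (a := u) (by linarith) (by linarith)
  have hv := bern_mon (a := v) (by linarith) (by linarith)
  have key := (add_nonneg (mul_nonneg (hu 0 2)
      (add_nonneg (mul_nonneg (by norm_num : (0 : ℝ) ≤ 580) (hv 1 2))
      (add_nonneg (mul_nonneg (by norm_num : (0 : ℝ) ≤ 1171) (hv 2 1))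
      (mul_nonneg (by norm_num : (0 : ℝ) ≤ 600) (hv 3 0)))))
    (add_nonneg (mul_nonneg (hu 1 1)
      (add_nonneg (add_nonneg (mul_nonneg (by norm_num : (0 : ℝ) ≤ 210) (hv 0 3))
      (mul_nonneg (by norm_num : (0 : ℝ) ≤ 1964) (hv 1 2)))
      (add_nonneg (mul_nonneg (by norm_num : (0 : ℝ) ≤ 3422) (hv 2 1))
      (mul_nonneg (by norm_num : (0 : ℝ) ≤ 1560) (hv 3 0)))))
    (mul_nonneg (hu 2 0)
      (add_nonneg (add_nonneg (mul_nonneg (by norm_num : (0 : ℝ) ≤ 21) (hv 0 3))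
      (mul_nonneg (by norm_num : (0 : ℝ) ≤ 1384) (hv 1 2)))
      (add_nonneg (mul_nonneg (by norm_num : (0 : ℝ) ≤ 2251) (hv 2 1))
      (mul_nonneg (by norm_num : (0 : ℝ) ≤ 960) (hv 3 0)))))))
  refine (mul_nonneg (by norm_num : (0 : ℝ) ≤ 1 / 600) key).trans_eq ?_
  ring

theorem ans_tse {z s : ℝ} (h1 : 0 ≤ z) (h2 : z ≤ 1) (h3 : 0 ≤ s) (h4 : s ≤ 1) :
    0 ≤ 19 / 50
      - s
      + 13 / 10 * z
      - 3 / 4 * s * z
      + 7 / 10 * s ^ 2
      - 47 / 100 * s * z ^ 2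
      + 49 / 50 * s ^ 2 * z
      + 9 / 50 * s ^ 3
      - 41 / 5 * s * z ^ 3
      - 1429 / 100 * s ^ 2 * z ^ 2
      - 841 / 100 * s ^ 3 * z
      - 113 / 100 * s ^ 4
      + 164 / 5 * s ^ 2 * z ^ 3
      + 4569 / 100 * s ^ 3 * z ^ 2
      + 422 / 25 * s ^ 4 * z
      + 5 / 4 * s ^ 5
      - 246 / 5 * s ^ 3 * z ^ 3
      - 4663 / 100 * s ^ 4 * z ^ 2
      - 87 / 10 * s ^ 5 * z
      + 164 / 5 * s ^ 4 * z ^ 3
      + 157 / 10 * s ^ 5 * z ^ 2
      - 41 / 5 * s ^ 5 * z ^ 3 := by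
  rcases le_total z (1 / 2) with h | h
  · rcases le_total s (1 / 2) with h | h
    · obtain ⟨u, rfl⟩ : ∃ u, z = 0 + 1 / 2 * u := ⟨(z - 0) / (1 / 2), by ring⟩
      obtain ⟨v, rfl⟩ : ∃ v, s = 0 + 1 / 2 * v := ⟨(s - 0) / (1 / 2), by ring⟩
      have hu := bern_mon (a := u) (by linarith) (by linarith)
      have hv := bern_mon (a := v) (by linarith) (by linarith)
      have key := (add_nonneg (add_nonneg (mul_nonneg (hu 0 3)
          (add_nonneg (add_nonneg (mul_nonneg (by norm_num : (0 : ℝ) ≤ 2432) (hv 0 5))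
          (add_nonneg (mul_nonneg (by norm_num : (0 : ℝ) ≤ 8960) (hv 1 4))
          (mul_nonneg (by norm_num : (0 : ℝ) ≤ 12640) (hv 2 3))))
          (add_nonneg (mul_nonneg (by norm_num : (0 : ℝ) ≤ 8624) (hv 3 2))
          (add_nonneg (mul_nonneg (by norm_num : (0 : ℝ) ≤ 2556) (hv 4 1))
          (mul_nonneg (by norm_num : (0 : ℝ) ≤ 294) (hv 5 0))))))
        (mul_nonneg (hu 1 2)
          (add_nonneg (add_nonneg (mul_nonneg (by norm_num : (0 : ℝ) ≤ 11456) (hv 0 5))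
          (add_nonneg (mul_nonneg (by norm_num : (0 : ℝ) ≤ 46480) (hv 1 4))
          (mul_nonneg (by norm_num : (0 : ℝ) ≤ 75504) (hv 2 3))))
          (add_nonneg (mul_nonneg (by norm_num : (0 : ℝ) ≤ 59260) (hv 3 2))
          (add_nonneg (mul_nonneg (by norm_num : (0 : ℝ) ≤ 22668) (hv 4 1))
          (mul_nonneg (by norm_num : (0 : ℝ) ≤ 3768) (hv 5 0)))))))
        (add_nonneg (mul_nonneg (hu 2 1)
          (add_nonneg (add_nonneg (mul_nonneg (by norm_num : (0 : ℝ) ≤ 15616) (hv 0 5))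
          (add_nonneg (mul_nonneg (by norm_num : (0 : ℝ) ≤ 65704) (hv 1 4))
          (mul_nonneg (by norm_num : (0 : ℝ) ≤ 105868) (hv 2 3))))
          (add_nonneg (mul_nonneg (by norm_num : (0 : ℝ) ≤ 82382) (hv 3 2))
          (add_nonneg (mul_nonneg (by norm_num : (0 : ℝ) ≤ 32629) (hv 4 1))
          (mul_nonneg (by norm_num : (0 : ℝ) ≤ 5822) (hv 5 0))))))
        (mul_nonneg (hu 3 0)
          (add_nonneg (add_nonneg (mul_nonneg (by norm_num : (0 : ℝ) ≤ 6592) (hv 0 5))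
          (add_nonneg (mul_nonneg (by norm_num : (0 : ℝ) ≤ 24904) (hv 1 4))
          (mul_nonneg (by norm_num : (0 : ℝ) ≤ 36444) (hv 2 3))))
          (add_nonneg (mul_nonneg (by norm_num : (0 : ℝ) ≤ 26826) (hv 3 2))
          (add_nonneg (mul_nonneg (by norm_num : (0 : ℝ) ≤ 10877) (hv 4 1))
          (mul_nonneg (by norm_num : (0 : ℝ) ≤ 2143) (hv 5 0))))))))
      refine (mul_nonneg (by norm_num : (0 : ℝ) ≤ 1 / 6400) key).trans_eq ?_
      ring
    · obtain ⟨u, rfl⟩ : ∃ u, z = 0 + 1 / 2 * u := ⟨(z - 0) / (1 / 2), by ring⟩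
      obtain ⟨v, rfl⟩ : ∃ v, s = 1 / 2 + 1 / 2 * v := ⟨(s - 1 / 2) / (1 / 2), by ring⟩
      have hu := bern_mon (a := u) (by linarith) (by linarith)
      have hv := bern_mon (a := v) (by linarith) (by linarith)
      have key := (add_nonneg (add_nonneg (mul_nonneg (hu 0 3)
          (add_nonneg (add_nonneg (mul_nonneg (by norm_num : (0 : ℝ) ≤ 294) (hv 0 6))
          (add_nonneg (mul_nonneg (by norm_num : (0 : ℝ) ≤ 678) (hv 1 5))
          (mul_nonneg (by norm_num : (0 : ℝ) ≤ 320) (hv 2 4))))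
          (add_nonneg (add_nonneg (mul_nonneg (by norm_num : (0 : ℝ) ≤ 1216) (hv 3 3))
          (mul_nonneg (by norm_num : (0 : ℝ) ≤ 4896) (hv 4 2)))
          (add_nonneg (mul_nonneg (by norm_num : (0 : ℝ) ≤ 6048) (hv 5 1))
          (mul_nonneg (by norm_num : (0 : ℝ) ≤ 2432) (hv 6 0))))))
        (mul_nonneg (hu 1 2)
          (add_nonneg (add_nonneg (mul_nonneg (by norm_num : (0 : ℝ) ≤ 3768) (hv 0 6))
          (add_nonneg (mul_nonneg (by norm_num : (0 : ℝ) ≤ 18780) (hv 1 5))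
          (mul_nonneg (by norm_num : (0 : ℝ) ≤ 43648) (hv 2 4))))
          (add_nonneg (add_nonneg (mul_nonneg (by norm_num : (0 : ℝ) ≤ 66100) (hv 3 3))
          (mul_nonneg (by norm_num : (0 : ℝ) ≤ 69112) (hv 4 2)))
          (add_nonneg (mul_nonneg (by norm_num : (0 : ℝ) ≤ 43104) (hv 5 1))
          (mul_nonneg (by norm_num : (0 : ℝ) ≤ 11456) (hv 6 0)))))))
        (add_nonneg (mul_nonneg (hu 2 1)
          (add_nonneg (add_nonneg (mul_nonneg (by norm_num : (0 : ℝ) ≤ 5822) (hv 0 6))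
          (add_nonneg (mul_nonneg (by norm_num : (0 : ℝ) ≤ 31413) (hv 1 5))
          (mul_nonneg (by norm_num : (0 : ℝ) ≤ 79821) (hv 2 4))))
          (add_nonneg (add_nonneg (mul_nonneg (by norm_num : (0 : ℝ) ≤ 125318) (hv 3 3))
          (mul_nonneg (by norm_num : (0 : ℝ) ≤ 123536) (hv 4 2)))
          (add_nonneg (mul_nonneg (by norm_num : (0 : ℝ) ≤ 68064) (hv 5 1))
          (mul_nonneg (by norm_num : (0 : ℝ) ≤ 15616) (hv 6 0))))))
        (mul_nonneg (hu 3 0)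
          (add_nonneg (add_nonneg (mul_nonneg (by norm_num : (0 : ℝ) ≤ 2143) (hv 0 6))
          (add_nonneg (mul_nonneg (by norm_num : (0 : ℝ) ≤ 12696) (hv 1 5))
          (mul_nonneg (by norm_num : (0 : ℝ) ≤ 36083) (hv 2 4))))
          (add_nonneg (add_nonneg (mul_nonneg (by norm_num : (0 : ℝ) ≤ 60434) (hv 3 3))
          (mul_nonneg (by norm_num : (0 : ℝ) ≤ 59320) (hv 4 2)))
          (add_nonneg (mul_nonneg (by norm_num : (0 : ℝ) ≤ 31008) (hv 5 1))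
          (mul_nonneg (by norm_num : (0 : ℝ) ≤ 6592) (hv 6 0))))))))
      refine (mul_nonneg (by norm_num : (0 : ℝ) ≤ 1 / 6400) key).trans_eq ?_
      ring
  · rcases le_total s (1 / 2) with h | h
    · rcases le_total z (3 / 4) with h | h
      · obtain ⟨u, rfl⟩ : ∃ u, z = 1 / 2 + 1 / 4 * u := ⟨(z - 1 / 2) / (1 / 4), by ring⟩
        obtain ⟨v, rfl⟩ : ∃ v, s = 0 + 1 / 2 * v := ⟨(s - 0) / (1 / 2), by ring⟩
        have hu := bern_mon (a := u) (by linarith) (by linarith)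
        have hv := bern_mon (a := v) (by linarith) (by linarith)
        have key := (add_nonneg (add_nonneg (mul_nonneg (hu 0 3)
            (add_nonneg (add_nonneg (mul_nonneg (by norm_num : (0 : ℝ) ≤ 52736) (hv 0 5))
            (add_nonneg (mul_nonneg (by norm_num : (0 : ℝ) ≤ 199232) (hv 1 4))
            (mul_nonneg (by norm_num : (0 : ℝ) ≤ 291552) (hv 2 3))))
            (add_nonneg (mul_nonneg (by norm_num : (0 : ℝ) ≤ 214608) (hv 3 2))
            (add_nonneg (mul_nonneg (by norm_num : (0 : ℝ) ≤ 87016) (hv 4 1))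
            (mul_nonneg (by norm_num : (0 : ℝ) ≤ 17144) (hv 5 0))))))
          (mul_nonneg (hu 1 2)
            (add_nonneg (add_nonneg (mul_nonneg (by norm_num : (0 : ℝ) ≤ 174848) (hv 0 5))
            (add_nonneg (mul_nonneg (by norm_num : (0 : ℝ) ≤ 633728) (hv 1 4))
            (mul_nonneg (by norm_num : (0 : ℝ) ≤ 888512) (hv 2 3))))
            (add_nonneg (mul_nonneg (by norm_num : (0 : ℝ) ≤ 636208) (hv 3 2))
            (add_nonneg (mul_nonneg (by norm_num : (0 : ℝ) ≤ 261056) (hv 4 1))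
            (mul_nonneg (by norm_num : (0 : ℝ) ≤ 53860) (hv 5 0)))))))
          (add_nonneg (mul_nonneg (hu 2 1)
            (add_nonneg (add_nonneg (mul_nonneg (by norm_num : (0 : ℝ) ≤ 191488) (hv 0 5))
            (add_nonneg (mul_nonneg (by norm_num : (0 : ℝ) ≤ 649328) (hv 1 4))
            (mul_nonneg (by norm_num : (0 : ℝ) ≤ 848568) (hv 2 3))))
            (add_nonneg (mul_nonneg (by norm_num : (0 : ℝ) ≤ 578540) (hv 3 2))
            (add_nonneg (mul_nonneg (by norm_num : (0 : ℝ) ≤ 241146) (hv 4 1))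
            (mul_nonneg (by norm_num : (0 : ℝ) ≤ 53394) (hv 5 0))))))
          (mul_nonneg (hu 3 0)
            (add_nonneg (add_nonneg (mul_nonneg (by norm_num : (0 : ℝ) ≤ 69376) (hv 0 5))
            (add_nonneg (mul_nonneg (by norm_num : (0 : ℝ) ≤ 211552) (hv 1 4))
            (mul_nonneg (by norm_num : (0 : ℝ) ≤ 245048) (hv 2 3))))
            (add_nonneg (mul_nonneg (by norm_num : (0 : ℝ) ≤ 152020) (hv 3 2))
            (add_nonneg (mul_nonneg (by norm_num : (0 : ℝ) ≤ 65466) (hv 4 1))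
            (mul_nonneg (by norm_num : (0 : ℝ) ≤ 16473) (hv 5 0))))))))
        refine (mul_nonneg (by norm_num : (0 : ℝ) ≤ 1 / 51200) key).trans_eq ?_
        ring
      · rcases le_total s (1 / 4) with h | h
        · obtain ⟨u, rfl⟩ : ∃ u, z = 3 / 4 + 1 / 4 * u := ⟨(z - 3 / 4) / (1 / 4), by ring⟩
          obtain ⟨v, rfl⟩ : ∃ v, s = 0 + 1 / 4 * v := ⟨(s - 0) / (1 / 4), by ring⟩
          have hu := bern_mon (a := u) (by linarith) (by linarith)
          have hv := bern_mon (a := v) (by linarith) (by linarith)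
          have key := (add_nonneg (add_nonneg (mul_nonneg (hu 0 3)
              (add_nonneg (add_nonneg (mul_nonneg (by norm_num : (0 : ℝ) ≤ 2220032) (hv 0 5))
              (add_nonneg (mul_nonneg (by norm_num : (0 : ℝ) ≤ 8934912) (hv 1 4))
              (mul_nonneg (by norm_num : (0 : ℝ) ≤ 14280128) (hv 2 3))))
              (add_nonneg (mul_nonneg (by norm_num : (0 : ℝ) ≤ 11400944) (hv 3 2))
              (add_nonneg (mul_nonneg (by norm_num : (0 : ℝ) ≤ 4595476) (hv 4 1))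
              (mul_nonneg (by norm_num : (0 : ℝ) ≤ 759935) (hv 5 0))))))
            (mul_nonneg (hu 1 2)
              (add_nonneg (add_nonneg (mul_nonneg (by norm_num : (0 : ℝ) ≤ 7192576) (hv 0 5))
              (add_nonneg (mul_nonneg (by norm_num : (0 : ℝ) ≤ 27901184) (hv 1 4))
              (mul_nonneg (by norm_num : (0 : ℝ) ≤ 42794688) (hv 2 3))))
              (add_nonneg (mul_nonneg (by norm_num : (0 : ℝ) ≤ 32665296) (hv 3 2))
              (add_nonneg (mul_nonneg (by norm_num : (0 : ℝ) ≤ 12575492) (hv 4 1))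
              (mul_nonneg (by norm_num : (0 : ℝ) ≤ 1997146) (hv 5 0)))))))
            (add_nonneg (mul_nonneg (hu 2 1)
              (add_nonneg (add_nonneg (mul_nonneg (by norm_num : (0 : ℝ) ≤ 7725056) (hv 0 5))
              (add_nonneg (mul_nonneg (by norm_num : (0 : ℝ) ≤ 28513280) (hv 1 4))
              (mul_nonneg (by norm_num : (0 : ℝ) ≤ 41192448) (hv 2 3))))
              (add_nonneg (mul_nonneg (by norm_num : (0 : ℝ) ≤ 29260224) (hv 3 2))
              (add_nonneg (mul_nonneg (by norm_num : (0 : ℝ) ≤ 10372576) (hv 4 1))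
              (mul_nonneg (by norm_num : (0 : ℝ) ≤ 1517576) (hv 5 0))))))
            (mul_nonneg (hu 3 0)
              (add_nonneg (add_nonneg (mul_nonneg (by norm_num : (0 : ℝ) ≤ 2752512) (hv 0 5))
              (add_nonneg (mul_nonneg (by norm_num : (0 : ℝ) ≤ 9494528) (hv 1 4))
              (mul_nonneg (by norm_num : (0 : ℝ) ≤ 12520448) (hv 2 3))))
              (add_nonneg (mul_nonneg (by norm_num : (0 : ℝ) ≤ 7818752) (hv 3 2))
              (add_nonneg (mul_nonneg (by norm_num : (0 : ℝ) ≤ 2304000) (hv 4 1))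
              (mul_nonneg (by norm_num : (0 : ℝ) ≤ 263760) (hv 5 0))))))))
          refine (mul_nonneg (by norm_num : (0 : ℝ) ≤ 1 / 1638400) key).trans_eq ?_
          ring
        · obtain ⟨u, rfl⟩ : ∃ u, z = 3 / 4 + 1 / 4 * u := ⟨(z - 3 / 4) / (1 / 4), by ring⟩
          obtain ⟨v, rfl⟩ : ∃ v, s = 1 / 4 + 1 / 4 * v := ⟨(s - 1 / 4) / (1 / 4), by ring⟩
          have hu := bern_mon (a := u) (by linarith) (by linarith)
          have hv := bern_mon (a := v) (by linarith) (by linarith)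
          have key := (add_nonneg (add_nonneg (mul_nonneg (hu 0 3)
              (add_nonneg (add_nonneg (mul_nonneg (by norm_num : (0 : ℝ) ≤ 759935) (hv 0 6))
              (add_nonneg (mul_nonneg (by norm_num : (0 : ℝ) ≤ 3763809) (hv 1 5))
              (mul_nonneg (by norm_num : (0 : ℝ) ≤ 8038410) (hv 2 4))))
              (add_nonneg (add_nonneg (mul_nonneg (by norm_num : (0 : ℝ) ≤ 9663448) (hv 3 3))
              (mul_nonneg (by norm_num : (0 : ℝ) ≤ 6994208) (hv 4 2)))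
              (add_nonneg (mul_nonneg (by norm_num : (0 : ℝ) ≤ 2892432) (hv 5 1))
              (mul_nonneg (by norm_num : (0 : ℝ) ≤ 527136) (hv 6 0))))))
            (mul_nonneg (hu 1 2)
              (add_nonneg (add_nonneg (mul_nonneg (by norm_num : (0 : ℝ) ≤ 1997146) (hv 0 6))
              (add_nonneg (mul_nonneg (by norm_num : (0 : ℝ) ≤ 9393114) (hv 1 5))
              (mul_nonneg (by norm_num : (0 : ℝ) ≤ 19343168) (hv 2 4))))
              (add_nonneg (add_nonneg (mul_nonneg (by norm_num : (0 : ℝ) ≤ 23104160) (hv 3 3))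
              (mul_nonneg (by norm_num : (0 : ℝ) ≤ 17218880) (hv 4 2)))
              (add_nonneg (mul_nonneg (by norm_num : (0 : ℝ) ≤ 7516128) (hv 5 1))
              (mul_nonneg (by norm_num : (0 : ℝ) ≤ 1454208) (hv 6 0)))))))
            (add_nonneg (mul_nonneg (hu 2 1)
              (add_nonneg (add_nonneg (mul_nonneg (by norm_num : (0 : ℝ) ≤ 1517576) (hv 0 6))
              (add_nonneg (mul_nonneg (by norm_num : (0 : ℝ) ≤ 6320760) (hv 1 5))
              (mul_nonneg (by norm_num : (0 : ℝ) ≤ 11785840) (hv 2 4))))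
              (add_nonneg (add_nonneg (mul_nonneg (by norm_num : (0 : ℝ) ≤ 13815808) (hv 3 3))
              (mul_nonneg (by norm_num : (0 : ℝ) ≤ 11182976) (hv 4 2)))
              (add_nonneg (mul_nonneg (by norm_num : (0 : ℝ) ≤ 5564544) (hv 5 1))
              (mul_nonneg (by norm_num : (0 : ℝ) ≤ 1214720) (hv 6 0))))))
            (mul_nonneg (hu 3 0)
              (add_nonneg (add_nonneg (mul_nonneg (by norm_num : (0 : ℝ) ≤ 263760) (hv 0 6))
              (add_nonneg (mul_nonneg (by norm_num : (0 : ℝ) ≤ 597360) (hv 1 5))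
              (mul_nonneg (by norm_num : (0 : ℝ) ≤ 270752) (hv 2 4))))
              (add_nonneg (add_nonneg (mul_nonneg (by norm_num : (0 : ℝ) ≤ 134016) (hv 3 3))
              (mul_nonneg (by norm_num : (0 : ℝ) ≤ 807424) (hv 4 2)))
              (add_nonneg (mul_nonneg (by norm_num : (0 : ℝ) ≤ 891648) (hv 5 1))
              (mul_nonneg (by norm_num : (0 : ℝ) ≤ 281088) (hv 6 0))))))))
          refine (mul_nonneg (by norm_num : (0 : ℝ) ≤ 1 / 1638400) key).trans_eq ?_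
          ring
    · obtain ⟨u, rfl⟩ : ∃ u, z = 1 / 2 + 1 / 2 * u := ⟨(z - 1 / 2) / (1 / 2), by ring⟩
      obtain ⟨v, rfl⟩ : ∃ v, s = 1 / 2 + 1 / 2 * v := ⟨(s - 1 / 2) / (1 / 2), by ring⟩
      have hu := bern_mon (a := u) (by linarith) (by linarith)
      have hv := bern_mon (a := v) (by linarith) (by linarith)
      have key := (add_nonneg (add_nonneg (mul_nonneg (hu 0 3)
          (add_nonneg (add_nonneg (mul_nonneg (by norm_num : (0 : ℝ) ≤ 2143) (hv 0 5))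
          (add_nonneg (mul_nonneg (by norm_num : (0 : ℝ) ≤ 10553) (hv 1 4))
          (mul_nonneg (by norm_num : (0 : ℝ) ≤ 25530) (hv 2 3))))
          (add_nonneg (mul_nonneg (by norm_num : (0 : ℝ) ≤ 34904) (hv 3 2))
          (add_nonneg (mul_nonneg (by norm_num : (0 : ℝ) ≤ 24416) (hv 4 1))
          (mul_nonneg (by norm_num : (0 : ℝ) ≤ 6592) (hv 5 0))))))
        (mul_nonneg (hu 1 2)
          (add_nonneg (add_nonneg (mul_nonneg (by norm_num : (0 : ℝ) ≤ 7036) (hv 0 5))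
          (add_nonneg (mul_nonneg (by norm_num : (0 : ℝ) ≤ 37727) (hv 1 4))
          (mul_nonneg (by norm_num : (0 : ℝ) ≤ 98950) (hv 2 3))))
          (add_nonneg (mul_nonneg (by norm_num : (0 : ℝ) ≤ 138336) (hv 3 2))
          (add_nonneg (mul_nonneg (by norm_num : (0 : ℝ) ≤ 94048) (hv 4 1))
          (mul_nonneg (by norm_num : (0 : ℝ) ≤ 23936) (hv 5 0)))))))
        (add_nonneg (mul_nonneg (hu 2 1)
          (add_nonneg (add_nonneg (mul_nonneg (by norm_num : (0 : ℝ) ≤ 6196) (hv 0 5))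
          (add_nonneg (mul_nonneg (by norm_num : (0 : ℝ) ≤ 39284) (hv 1 4))
          (mul_nonneg (by norm_num : (0 : ℝ) ≤ 118076) (hv 2 3))))
          (add_nonneg (mul_nonneg (by norm_num : (0 : ℝ) ≤ 171960) (hv 3 2))
          (add_nonneg (mul_nonneg (by norm_num : (0 : ℝ) ≤ 114848) (hv 4 1))
          (mul_nonneg (by norm_num : (0 : ℝ) ≤ 28096) (hv 5 0))))))
        (mul_nonneg (hu 3 0)
          (add_nonneg (add_nonneg (mul_nonneg (by norm_num : (0 : ℝ) ≤ 1098) (hv 0 5))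
          (add_nonneg (mul_nonneg (by norm_num : (0 : ℝ) ≤ 11700) (hv 1 4))
          (mul_nonneg (by norm_num : (0 : ℝ) ≤ 44656) (hv 2 3))))
          (add_nonneg (mul_nonneg (by norm_num : (0 : ℝ) ≤ 68528) (hv 3 2))
          (add_nonneg (mul_nonneg (by norm_num : (0 : ℝ) ≤ 45216) (hv 4 1))
          (mul_nonneg (by norm_num : (0 : ℝ) ≤ 10752) (hv 5 0))))))))
      refine (mul_nonneg (by norm_num : (0 : ℝ) ≤ 1 / 6400) key).trans_eq ?_
      ring

theorem ans_tCa {z s : ℝ} (h1 : 0 ≤ z) (h2 : z ≤ 1) (h3 : 0 ≤ s) (h4 : s ≤ 1) :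
    0 ≤ 19 / 20 * s
      + 41 / 25 * z
      - 183 / 100 * s * z
      + 13 / 20 * s ^ 2
      - 8 / 5 * z ^ 2
      + 24 / 5 * s * z ^ 2
      + 237 / 50 * s ^ 2 * z
      - 24 / 5 * s ^ 2 * z ^ 2
      - 51 / 20 * s ^ 3 * z
      + 8 / 5 * s ^ 3 * z ^ 2 := by
  obtain ⟨u, rfl⟩ : ∃ u, z = 0 + 1 * u := ⟨(z - 0) / (1), by ring⟩
  obtain ⟨v, rfl⟩ : ∃ v, s = 0 + 1 * v := ⟨(s - 0) / (1), by ring⟩
  have hu := bern_mon (a := u) (by linarith) (by linarith)
  have hv := bern_mon (a := v) (by linarith) (by linarith)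
  have key := (add_nonneg (mul_nonneg (hu 0 2)
      (add_nonneg (mul_nonneg (by norm_num : (0 : ℝ) ≤ 95) (hv 1 2))
      (add_nonneg (mul_nonneg (by norm_num : (0 : ℝ) ≤ 255) (hv 2 1))
      (mul_nonneg (by norm_num : (0 : ℝ) ≤ 160) (hv 3 0)))))
    (add_nonneg (mul_nonneg (hu 1 1)
      (add_nonneg (add_nonneg (mul_nonneg (by norm_num : (0 : ℝ) ≤ 164) (hv 0 3))
      (mul_nonneg (by norm_num : (0 : ℝ) ≤ 499) (hv 1 2)))
      (add_nonneg (mul_nonneg (by norm_num : (0 : ℝ) ≤ 1110) (hv 2 1))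
      (mul_nonneg (by norm_num : (0 : ℝ) ≤ 520) (hv 3 0)))))
    (mul_nonneg (hu 2 0)
      (add_nonneg (add_nonneg (mul_nonneg (by norm_num : (0 : ℝ) ≤ 4) (hv 0 3))
      (mul_nonneg (by norm_num : (0 : ℝ) ≤ 404) (hv 1 2)))
      (add_nonneg (mul_nonneg (by norm_num : (0 : ℝ) ≤ 855) (hv 2 1))
      (mul_nonneg (by norm_num : (0 : ℝ) ≤ 360) (hv 3 0)))))))
  refine (mul_nonneg (by norm_num : (0 : ℝ) ≤ 1 / 100) key).trans_eq ?_
  ring

theorem ans_tkk {z s : ℝ} (h1 : 0 ≤ z) (h2 : z ≤ 1) (h3 : 0 ≤ s) (h4 : s ≤ 1) :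
    0 ≤ 6 / 5
      - 8 * s ^ 2
      + 8 * s ^ 3 := by
  rcases le_total z (1 / 2) with h | h
  · rcases le_total s (1 / 2) with h | h
    · obtain ⟨u, rfl⟩ : ∃ u, z = 0 + 1 / 2 * u := ⟨(z - 0) / (1 / 2), by ring⟩
      obtain ⟨v, rfl⟩ : ∃ v, s = 0 + 1 / 2 * v := ⟨(s - 0) / (1 / 2), by ring⟩
      have hu := bern_mon (a := u) (by linarith) (by linarith)
      have hv := bern_mon (a := v) (by linarith) (by linarith)
      have key := (mul_nonneg (hu 0 0)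
          (add_nonneg (add_nonneg (mul_nonneg (by norm_num : (0 : ℝ) ≤ 6) (hv 0 3))
          (mul_nonneg (by norm_num : (0 : ℝ) ≤ 18) (hv 1 2)))
          (add_nonneg (mul_nonneg (by norm_num : (0 : ℝ) ≤ 8) (hv 2 1))
          (mul_nonneg (by norm_num : (0 : ℝ) ≤ 1) (hv 3 0)))))
      refine (mul_nonneg (by norm_num : (0 : ℝ) ≤ 1 / 5) key).trans_eq ?_
      ring
    · rcases le_total z (1 / 4) with h | h
      · rcases le_total s (3 / 4) with h | h
        · rcases le_total z (1 / 8) with h | h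
          · rcases le_total s (5 / 8) with h | h
            · obtain ⟨u, rfl⟩ : ∃ u, z = 0 + 1 / 8 * u := ⟨(z - 0) / (1 / 8), by ring⟩
              obtain ⟨v, rfl⟩ : ∃ v, s = 1 / 2 + 1 / 8 * v := ⟨(s - 1 / 2) / (1 / 8), by ring⟩
              have hu := bern_mon (a := u) (by linarith) (by linarith)
              have hv := bern_mon (a := v) (by linarith) (by linarith)
              have key := (mul_nonneg (hu 0 0)
                  (add_nonneg (add_nonneg (mul_nonneg (by norm_num : (0 : ℝ) ≤ 64) (hv 0 3))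
                  (mul_nonneg (by norm_num : (0 : ℝ) ≤ 112) (hv 1 2)))
                  (add_nonneg (mul_nonneg (by norm_num : (0 : ℝ) ≤ 52) (hv 2 1))
                  (mul_nonneg (by norm_num : (0 : ℝ) ≤ 9) (hv 3 0)))))
              refine (mul_nonneg (by norm_num : (0 : ℝ) ≤ 1 / 320) key).trans_eq ?_
              ring
            · obtain ⟨u, rfl⟩ : ∃ u, z = 0 + 1 / 8 * u := ⟨(z - 0) / (1 / 8), by ring⟩
              obtain ⟨v, rfl⟩ : ∃ v, s = 5 / 8 + 1 / 8 * v := ⟨(s - 5 / 8) / (1 / 8), by ring⟩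
              have hu := bern_mon (a := u) (by linarith) (by linarith)
              have hv := bern_mon (a := v) (by linarith) (by linarith)
              have key := (mul_nonneg (hu 0 0)
                  (add_nonneg (add_nonneg (mul_nonneg (by norm_num : (0 : ℝ) ≤ 9) (hv 0 3))
                  (mul_nonneg (by norm_num : (0 : ℝ) ≤ 2) (hv 1 2)))
                  (add_nonneg (mul_nonneg (by norm_num : (0 : ℝ) ≤ 12) (hv 2 1))
                  (mul_nonneg (by norm_num : (0 : ℝ) ≤ 24) (hv 3 0)))))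
              refine (mul_nonneg (by norm_num : (0 : ℝ) ≤ 1 / 320) key).trans_eq ?_
              ring
          · rcases le_total s (5 / 8) with h | h
            · obtain ⟨u, rfl⟩ : ∃ u, z = 1 / 8 + 1 / 8 * u := ⟨(z - 1 / 8) / (1 / 8), by ring⟩
              obtain ⟨v, rfl⟩ : ∃ v, s = 1 / 2 + 1 / 8 * v := ⟨(s - 1 / 2) / (1 / 8), by ring⟩
              have hu := bern_mon (a := u) (by linarith) (by linarith)
              have hv := bern_mon (a := v) (by linarith) (by linarith)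
              have key := (mul_nonneg (hu 0 0)
                  (add_nonneg (add_nonneg (mul_nonneg (by norm_num : (0 : ℝ) ≤ 64) (hv 0 3))
                  (mul_nonneg (by norm_num : (0 : ℝ) ≤ 112) (hv 1 2)))
                  (add_nonneg (mul_nonneg (by norm_num : (0 : ℝ) ≤ 52) (hv 2 1))
                  (mul_nonneg (by norm_num : (0 : ℝ) ≤ 9) (hv 3 0)))))
              refine (mul_nonneg (by norm_num : (0 : ℝ) ≤ 1 / 320) key).trans_eq ?_
              ring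
            · obtain ⟨u, rfl⟩ : ∃ u, z = 1 / 8 + 1 / 8 * u := ⟨(z - 1 / 8) / (1 / 8), by ring⟩
              obtain ⟨v, rfl⟩ : ∃ v, s = 5 / 8 + 1 / 8 * v := ⟨(s - 5 / 8) / (1 / 8), by ring⟩
              have hu := bern_mon (a := u) (by linarith) (by linarith)
              have hv := bern_mon (a := v) (by linarith) (by linarith)
              have key := (mul_nonneg (hu 0 0)
                  (add_nonneg (add_nonneg (mul_nonneg (by norm_num : (0 : ℝ) ≤ 9) (hv 0 3))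
                  (mul_nonneg (by norm_num : (0 : ℝ) ≤ 2) (hv 1 2)))
                  (add_nonneg (mul_nonneg (by norm_num : (0 : ℝ) ≤ 12) (hv 2 1))
                  (mul_nonneg (by norm_num : (0 : ℝ) ≤ 24) (hv 3 0)))))
              refine (mul_nonneg (by norm_num : (0 : ℝ) ≤ 1 / 320) key).trans_eq ?_
              ring
        · obtain ⟨u, rfl⟩ : ∃ u, z = 0 + 1 / 4 * u := ⟨(z - 0) / (1 / 4), by ring⟩
          obtain ⟨v, rfl⟩ : ∃ v, s = 3 / 4 + 1 / 4 * v := ⟨(s - 3 / 4) / (1 / 4), by ring⟩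
          have hu := bern_mon (a := u) (by linarith) (by linarith)
          have hv := bern_mon (a := v) (by linarith) (by linarith)
          have key := (mul_nonneg (hu 0 0)
              (add_nonneg (add_nonneg (mul_nonneg (by norm_num : (0 : ℝ) ≤ 3) (hv 0 3))
              (mul_nonneg (by norm_num : (0 : ℝ) ≤ 24) (hv 1 2)))
              (add_nonneg (mul_nonneg (by norm_num : (0 : ℝ) ≤ 64) (hv 2 1))
              (mul_nonneg (by norm_num : (0 : ℝ) ≤ 48) (hv 3 0)))))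
          refine (mul_nonneg (by norm_num : (0 : ℝ) ≤ 1 / 40) key).trans_eq ?_
          ring
      · rcases le_total s (3 / 4) with h | h
        · rcases le_total z (3 / 8) with h | h
          · rcases le_total s (5 / 8) with h | h
            · obtain ⟨u, rfl⟩ : ∃ u, z = 1 / 4 + 1 / 8 * u := ⟨(z - 1 / 4) / (1 / 8), by ring⟩
              obtain ⟨v, rfl⟩ : ∃ v, s = 1 / 2 + 1 / 8 * v := ⟨(s - 1 / 2) / (1 / 8), by ring⟩
              have hu := bern_mon (a := u) (by linarith) (by linarith)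
              have hv := bern_mon (a := v) (by linarith) (by linarith)
              have key := (mul_nonneg (hu 0 0)
                  (add_nonneg (add_nonneg (mul_nonneg (by norm_num : (0 : ℝ) ≤ 64) (hv 0 3))
                  (mul_nonneg (by norm_num : (0 : ℝ) ≤ 112) (hv 1 2)))
                  (add_nonneg (mul_nonneg (by norm_num : (0 : ℝ) ≤ 52) (hv 2 1))
                  (mul_nonneg (by norm_num : (0 : ℝ) ≤ 9) (hv 3 0)))))
              refine (mul_nonneg (by norm_num : (0 : ℝ) ≤ 1 / 320) key).trans_eq ?_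
              ring
            · obtain ⟨u, rfl⟩ : ∃ u, z = 1 / 4 + 1 / 8 * u := ⟨(z - 1 / 4) / (1 / 8), by ring⟩
              obtain ⟨v, rfl⟩ : ∃ v, s = 5 / 8 + 1 / 8 * v := ⟨(s - 5 / 8) / (1 / 8), by ring⟩
              have hu := bern_mon (a := u) (by linarith) (by linarith)
              have hv := bern_mon (a := v) (by linarith) (by linarith)
              have key := (mul_nonneg (hu 0 0)
                  (add_nonneg (add_nonneg (mul_nonneg (by norm_num : (0 : ℝ) ≤ 9) (hv 0 3))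
                  (mul_nonneg (by norm_num : (0 : ℝ) ≤ 2) (hv 1 2)))
                  (add_nonneg (mul_nonneg (by norm_num : (0 : ℝ) ≤ 12) (hv 2 1))
                  (mul_nonneg (by norm_num : (0 : ℝ) ≤ 24) (hv 3 0)))))
              refine (mul_nonneg (by norm_num : (0 : ℝ) ≤ 1 / 320) key).trans_eq ?_
              ring
          · rcases le_total s (5 / 8) with h | h
            · obtain ⟨u, rfl⟩ : ∃ u, z = 3 / 8 + 1 / 8 * u := ⟨(z - 3 / 8) / (1 / 8), by ring⟩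
              obtain ⟨v, rfl⟩ : ∃ v, s = 1 / 2 + 1 / 8 * v := ⟨(s - 1 / 2) / (1 / 8), by ring⟩
              have hu := bern_mon (a := u) (by linarith) (by linarith)
              have hv := bern_mon (a := v) (by linarith) (by linarith)
              have key := (mul_nonneg (hu 0 0)
                  (add_nonneg (add_nonneg (mul_nonneg (by norm_num : (0 : ℝ) ≤ 64) (hv 0 3))
                  (mul_nonneg (by norm_num : (0 : ℝ) ≤ 112) (hv 1 2)))
                  (add_nonneg (mul_nonneg (by norm_num : (0 : ℝ) ≤ 52) (hv 2 1))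
                  (mul_nonneg (by norm_num : (0 : ℝ) ≤ 9) (hv 3 0)))))
              refine (mul_nonneg (by norm_num : (0 : ℝ) ≤ 1 / 320) key).trans_eq ?_
              ring
            · obtain ⟨u, rfl⟩ : ∃ u, z = 3 / 8 + 1 / 8 * u := ⟨(z - 3 / 8) / (1 / 8), by ring⟩
              obtain ⟨v, rfl⟩ : ∃ v, s = 5 / 8 + 1 / 8 * v := ⟨(s - 5 / 8) / (1 / 8), by ring⟩
              have hu := bern_mon (a := u) (by linarith) (by linarith)
              have hv := bern_mon (a := v) (by linarith) (by linarith)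
              have key := (mul_nonneg (hu 0 0)
                  (add_nonneg (add_nonneg (mul_nonneg (by norm_num : (0 : ℝ) ≤ 9) (hv 0 3))
                  (mul_nonneg (by norm_num : (0 : ℝ) ≤ 2) (hv 1 2)))
                  (add_nonneg (mul_nonneg (by norm_num : (0 : ℝ) ≤ 12) (hv 2 1))
                  (mul_nonneg (by norm_num : (0 : ℝ) ≤ 24) (hv 3 0)))))
              refine (mul_nonneg (by norm_num : (0 : ℝ) ≤ 1 / 320) key).trans_eq ?_
              ring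
        · obtain ⟨u, rfl⟩ : ∃ u, z = 1 / 4 + 1 / 4 * u := ⟨(z - 1 / 4) / (1 / 4), by ring⟩
          obtain ⟨v, rfl⟩ : ∃ v, s = 3 / 4 + 1 / 4 * v := ⟨(s - 3 / 4) / (1 / 4), by ring⟩
          have hu := bern_mon (a := u) (by linarith) (by linarith)
          have hv := bern_mon (a := v) (by linarith) (by linarith)
          have key := (mul_nonneg (hu 0 0)
              (add_nonneg (add_nonneg (mul_nonneg (by norm_num : (0 : ℝ) ≤ 3) (hv 0 3))
              (mul_nonneg (by norm_num : (0 : ℝ) ≤ 24) (hv 1 2)))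
              (add_nonneg (mul_nonneg (by norm_num : (0 : ℝ) ≤ 64) (hv 2 1))
              (mul_nonneg (by norm_num : (0 : ℝ) ≤ 48) (hv 3 0)))))
          refine (mul_nonneg (by norm_num : (0 : ℝ) ≤ 1 / 40) key).trans_eq ?_
          ring
  · rcases le_total s (1 / 2) with h | h
    · obtain ⟨u, rfl⟩ : ∃ u, z = 1 / 2 + 1 / 2 * u := ⟨(z - 1 / 2) / (1 / 2), by ring⟩
      obtain ⟨v, rfl⟩ : ∃ v, s = 0 + 1 / 2 * v := ⟨(s - 0) / (1 / 2), by ring⟩
      have hu := bern_mon (a := u) (by linarith) (by linarith)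
      have hv := bern_mon (a := v) (by linarith) (by linarith)
      have key := (mul_nonneg (hu 0 0)
          (add_nonneg (add_nonneg (mul_nonneg (by norm_num : (0 : ℝ) ≤ 6) (hv 0 3))
          (mul_nonneg (by norm_num : (0 : ℝ) ≤ 18) (hv 1 2)))
          (add_nonneg (mul_nonneg (by norm_num : (0 : ℝ) ≤ 8) (hv 2 1))
          (mul_nonneg (by norm_num : (0 : ℝ) ≤ 1) (hv 3 0)))))
      refine (mul_nonneg (by norm_num : (0 : ℝ) ≤ 1 / 5) key).trans_eq ?_
      ring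
    · rcases le_total z (3 / 4) with h | h
      · rcases le_total s (3 / 4) with h | h
        · rcases le_total z (5 / 8) with h | h
          · rcases le_total s (5 / 8) with h | h
            · obtain ⟨u, rfl⟩ : ∃ u, z = 1 / 2 + 1 / 8 * u := ⟨(z - 1 / 2) / (1 / 8), by ring⟩
              obtain ⟨v, rfl⟩ : ∃ v, s = 1 / 2 + 1 / 8 * v := ⟨(s - 1 / 2) / (1 / 8), by ring⟩
              have hu := bern_mon (a := u) (by linarith) (by linarith)
              have hv := bern_mon (a := v) (by linarith) (by linarith)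
              have key := (mul_nonneg (hu 0 0)
                  (add_nonneg (add_nonneg (mul_nonneg (by norm_num : (0 : ℝ) ≤ 64) (hv 0 3))
                  (mul_nonneg (by norm_num : (0 : ℝ) ≤ 112) (hv 1 2)))
                  (add_nonneg (mul_nonneg (by norm_num : (0 : ℝ) ≤ 52) (hv 2 1))
                  (mul_nonneg (by norm_num : (0 : ℝ) ≤ 9) (hv 3 0)))))
              refine (mul_nonneg (by norm_num : (0 : ℝ) ≤ 1 / 320) key).trans_eq ?_
              ring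
            · obtain ⟨u, rfl⟩ : ∃ u, z = 1 / 2 + 1 / 8 * u := ⟨(z - 1 / 2) / (1 / 8), by ring⟩
              obtain ⟨v, rfl⟩ : ∃ v, s = 5 / 8 + 1 / 8 * v := ⟨(s - 5 / 8) / (1 / 8), by ring⟩
              have hu := bern_mon (a := u) (by linarith) (by linarith)
              have hv := bern_mon (a := v) (by linarith) (by linarith)
              have key := (mul_nonneg (hu 0 0)
                  (add_nonneg (add_nonneg (mul_nonneg (by norm_num : (0 : ℝ) ≤ 9) (hv 0 3))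
                  (mul_nonneg (by norm_num : (0 : ℝ) ≤ 2) (hv 1 2)))
                  (add_nonneg (mul_nonneg (by norm_num : (0 : ℝ) ≤ 12) (hv 2 1))
                  (mul_nonneg (by norm_num : (0 : ℝ) ≤ 24) (hv 3 0)))))
              refine (mul_nonneg (by norm_num : (0 : ℝ) ≤ 1 / 320) key).trans_eq ?_
              ring
          · rcases le_total s (5 / 8) with h | h
            · obtain ⟨u, rfl⟩ : ∃ u, z = 5 / 8 + 1 / 8 * u := ⟨(z - 5 / 8) / (1 / 8), by ring⟩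
              obtain ⟨v, rfl⟩ : ∃ v, s = 1 / 2 + 1 / 8 * v := ⟨(s - 1 / 2) / (1 / 8), by ring⟩
              have hu := bern_mon (a := u) (by linarith) (by linarith)
              have hv := bern_mon (a := v) (by linarith) (by linarith)
              have key := (mul_nonneg (hu 0 0)
                  (add_nonneg (add_nonneg (mul_nonneg (by norm_num : (0 : ℝ) ≤ 64) (hv 0 3))
                  (mul_nonneg (by norm_num : (0 : ℝ) ≤ 112) (hv 1 2)))
                  (add_nonneg (mul_nonneg (by norm_num : (0 : ℝ) ≤ 52) (hv 2 1))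
                  (mul_nonneg (by norm_num : (0 : ℝ) ≤ 9) (hv 3 0)))))
              refine (mul_nonneg (by norm_num : (0 : ℝ) ≤ 1 / 320) key).trans_eq ?_
              ring
            · obtain ⟨u, rfl⟩ : ∃ u, z = 5 / 8 + 1 / 8 * u := ⟨(z - 5 / 8) / (1 / 8), by ring⟩
              obtain ⟨v, rfl⟩ : ∃ v, s = 5 / 8 + 1 / 8 * v := ⟨(s - 5 / 8) / (1 / 8), by ring⟩
              have hu := bern_mon (a := u) (by linarith) (by linarith)
              have hv := bern_mon (a := v) (by linarith) (by linarith)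
              have key := (mul_nonneg (hu 0 0)
                  (add_nonneg (add_nonneg (mul_nonneg (by norm_num : (0 : ℝ) ≤ 9) (hv 0 3))
                  (mul_nonneg (by norm_num : (0 : ℝ) ≤ 2) (hv 1 2)))
                  (add_nonneg (mul_nonneg (by norm_num : (0 : ℝ) ≤ 12) (hv 2 1))
                  (mul_nonneg (by norm_num : (0 : ℝ) ≤ 24) (hv 3 0)))))
              refine (mul_nonneg (by norm_num : (0 : ℝ) ≤ 1 / 320) key).trans_eq ?_
              ring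
        · obtain ⟨u, rfl⟩ : ∃ u, z = 1 / 2 + 1 / 4 * u := ⟨(z - 1 / 2) / (1 / 4), by ring⟩
          obtain ⟨v, rfl⟩ : ∃ v, s = 3 / 4 + 1 / 4 * v := ⟨(s - 3 / 4) / (1 / 4), by ring⟩
          have hu := bern_mon (a := u) (by linarith) (by linarith)
          have hv := bern_mon (a := v) (by linarith) (by linarith)
          have key := (mul_nonneg (hu 0 0)
              (add_nonneg (add_nonneg (mul_nonneg (by norm_num : (0 : ℝ) ≤ 3) (hv 0 3))
              (mul_nonneg (by norm_num : (0 : ℝ) ≤ 24) (hv 1 2)))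
              (add_nonneg (mul_nonneg (by norm_num : (0 : ℝ) ≤ 64) (hv 2 1))
              (mul_nonneg (by norm_num : (0 : ℝ) ≤ 48) (hv 3 0)))))
          refine (mul_nonneg (by norm_num : (0 : ℝ) ≤ 1 / 40) key).trans_eq ?_
          ring
      · rcases le_total s (3 / 4) with h | h
        · rcases le_total z (7 / 8) with h | h
          · rcases le_total s (5 / 8) with h | h
            · obtain ⟨u, rfl⟩ : ∃ u, z = 3 / 4 + 1 / 8 * u := ⟨(z - 3 / 4) / (1 / 8), by ring⟩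
              obtain ⟨v, rfl⟩ : ∃ v, s = 1 / 2 + 1 / 8 * v := ⟨(s - 1 / 2) / (1 / 8), by ring⟩
              have hu := bern_mon (a := u) (by linarith) (by linarith)
              have hv := bern_mon (a := v) (by linarith) (by linarith)
              have key := (mul_nonneg (hu 0 0)
                  (add_nonneg (add_nonneg (mul_nonneg (by norm_num : (0 : ℝ) ≤ 64) (hv 0 3))
                  (mul_nonneg (by norm_num : (0 : ℝ) ≤ 112) (hv 1 2)))
                  (add_nonneg (mul_nonneg (by norm_num : (0 : ℝ) ≤ 52) (hv 2 1))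
                  (mul_nonneg (by norm_num : (0 : ℝ) ≤ 9) (hv 3 0)))))
              refine (mul_nonneg (by norm_num : (0 : ℝ) ≤ 1 / 320) key).trans_eq ?_
              ring
            · obtain ⟨u, rfl⟩ : ∃ u, z = 3 / 4 + 1 / 8 * u := ⟨(z - 3 / 4) / (1 / 8), by ring⟩
              obtain ⟨v, rfl⟩ : ∃ v, s = 5 / 8 + 1 / 8 * v := ⟨(s - 5 / 8) / (1 / 8), by ring⟩
              have hu := bern_mon (a := u) (by linarith) (by linarith)
              have hv := bern_mon (a := v) (by linarith) (by linarith)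
              have key := (mul_nonneg (hu 0 0)
                  (add_nonneg (add_nonneg (mul_nonneg (by norm_num : (0 : ℝ) ≤ 9) (hv 0 3))
                  (mul_nonneg (by norm_num : (0 : ℝ) ≤ 2) (hv 1 2)))
                  (add_nonneg (mul_nonneg (by norm_num : (0 : ℝ) ≤ 12) (hv 2 1))
                  (mul_nonneg (by norm_num : (0 : ℝ) ≤ 24) (hv 3 0)))))
              refine (mul_nonneg (by norm_num : (0 : ℝ) ≤ 1 / 320) key).trans_eq ?_
              ring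
          · rcases le_total s (5 / 8) with h | h
            · obtain ⟨u, rfl⟩ : ∃ u, z = 7 / 8 + 1 / 8 * u := ⟨(z - 7 / 8) / (1 / 8), by ring⟩
              obtain ⟨v, rfl⟩ : ∃ v, s = 1 / 2 + 1 / 8 * v := ⟨(s - 1 / 2) / (1 / 8), by ring⟩
              have hu := bern_mon (a := u) (by linarith) (by linarith)
              have hv := bern_mon (a := v) (by linarith) (by linarith)
              have key := (mul_nonneg (hu 0 0)
                  (add_nonneg (add_nonneg (mul_nonneg (by norm_num : (0 : ℝ) ≤ 64) (hv 0 3))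
                  (mul_nonneg (by norm_num : (0 : ℝ) ≤ 112) (hv 1 2)))
                  (add_nonneg (mul_nonneg (by norm_num : (0 : ℝ) ≤ 52) (hv 2 1))
                  (mul_nonneg (by norm_num : (0 : ℝ) ≤ 9) (hv 3 0)))))
              refine (mul_nonneg (by norm_num : (0 : ℝ) ≤ 1 / 320) key).trans_eq ?_
              ring
            · obtain ⟨u, rfl⟩ : ∃ u, z = 7 / 8 + 1 / 8 * u := ⟨(z - 7 / 8) / (1 / 8), by ring⟩
              obtain ⟨v, rfl⟩ : ∃ v, s = 5 / 8 + 1 / 8 * v := ⟨(s - 5 / 8) / (1 / 8), by ring⟩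
              have hu := bern_mon (a := u) (by linarith) (by linarith)
              have hv := bern_mon (a := v) (by linarith) (by linarith)
              have key := (mul_nonneg (hu 0 0)
                  (add_nonneg (add_nonneg (mul_nonneg (by norm_num : (0 : ℝ) ≤ 9) (hv 0 3))
                  (mul_nonneg (by norm_num : (0 : ℝ) ≤ 2) (hv 1 2)))
                  (add_nonneg (mul_nonneg (by norm_num : (0 : ℝ) ≤ 12) (hv 2 1))
                  (mul_nonneg (by norm_num : (0 : ℝ) ≤ 24) (hv 3 0)))))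
              refine (mul_nonneg (by norm_num : (0 : ℝ) ≤ 1 / 320) key).trans_eq ?_
              ring
        · obtain ⟨u, rfl⟩ : ∃ u, z = 3 / 4 + 1 / 4 * u := ⟨(z - 3 / 4) / (1 / 4), by ring⟩
          obtain ⟨v, rfl⟩ : ∃ v, s = 3 / 4 + 1 / 4 * v := ⟨(s - 3 / 4) / (1 / 4), by ring⟩
          have hu := bern_mon (a := u) (by linarith) (by linarith)
          have hv := bern_mon (a := v) (by linarith) (by linarith)
          have key := (mul_nonneg (hu 0 0)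
              (add_nonneg (add_nonneg (mul_nonneg (by norm_num : (0 : ℝ) ≤ 3) (hv 0 3))
              (mul_nonneg (by norm_num : (0 : ℝ) ≤ 24) (hv 1 2)))
              (add_nonneg (mul_nonneg (by norm_num : (0 : ℝ) ≤ 64) (hv 2 1))
              (mul_nonneg (by norm_num : (0 : ℝ) ≤ 48) (hv 3 0)))))
          refine (mul_nonneg (by norm_num : (0 : ℝ) ≤ 1 / 40) key).trans_eq ?_
          ring

theorem ans_te3 {z s : ℝ} (h1 : 0 ≤ z) (h2 : z ≤ 1) (h3 : 0 ≤ s) (h4 : s ≤ 1) :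
    0 ≤ 1 / 20
      - 1 / 15 * s
      + 53 / 100 * z
      - 21 / 20 * s * z
      - 7 / 120 * s ^ 2
      - 21 / 40 * z ^ 2
      + 63 / 40 * s * z ^ 2
      + 21 / 10 * s ^ 2 * z
      + 1 / 8 * s ^ 3
      - 63 / 40 * s ^ 2 * z ^ 2
      - 21 / 20 * s ^ 3 * z
      + 21 / 40 * s ^ 3 * z ^ 2 := by
  obtain ⟨u, rfl⟩ : ∃ u, z = 0 + 1 * u := ⟨(z - 0) / (1), by ring⟩
  obtain ⟨v, rfl⟩ : ∃ v, s = 0 + 1 * v := ⟨(s - 0) / (1), by ring⟩
  have hu := bern_mon (a := u) (by linarith) (by linarith)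
  have hv := bern_mon (a := v) (by linarith) (by linarith)
  have key := (add_nonneg (mul_nonneg (hu 0 2)
      (add_nonneg (add_nonneg (mul_nonneg (by norm_num : (0 : ℝ) ≤ 30) (hv 0 4))
      (mul_nonneg (by norm_num : (0 : ℝ) ≤ 80) (hv 1 3)))
      (add_nonneg (mul_nonneg (by norm_num : (0 : ℝ) ≤ 25) (hv 2 2))
      (add_nonneg (mul_nonneg (by norm_num : (0 : ℝ) ≤ 5) (hv 3 1))
      (mul_nonneg (by norm_num : (0 : ℝ) ≤ 30) (hv 4 0))))))
    (add_nonneg (mul_nonneg (hu 1 1)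
      (add_nonneg (add_nonneg (mul_nonneg (by norm_num : (0 : ℝ) ≤ 378) (hv 0 4))
      (mul_nonneg (by norm_num : (0 : ℝ) ≤ 802) (hv 1 3)))
      (add_nonneg (mul_nonneg (by norm_num : (0 : ℝ) ≤ 1328) (hv 2 2))
      (add_nonneg (mul_nonneg (by norm_num : (0 : ℝ) ≤ 1282) (hv 3 1))
      (mul_nonneg (by norm_num : (0 : ℝ) ≤ 378) (hv 4 0))))))
    (mul_nonneg (hu 2 0)
      (add_nonneg (add_nonneg (mul_nonneg (by norm_num : (0 : ℝ) ≤ 33) (hv 0 4))
      (mul_nonneg (by norm_num : (0 : ℝ) ≤ 407) (hv 1 3)))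
      (add_nonneg (mul_nonneg (by norm_num : (0 : ℝ) ≤ 1303) (hv 2 2))
      (add_nonneg (mul_nonneg (by norm_num : (0 : ℝ) ≤ 1277) (hv 3 1))
      (mul_nonneg (by norm_num : (0 : ℝ) ≤ 348) (hv 4 0))))))))
  refine (mul_nonneg (by norm_num : (0 : ℝ) ≤ 1 / 600) key).trans_eq ?_
  ring

theorem ans_Bl {z s : ℝ} (h1 : 0 ≤ z) (h2 : z ≤ 1) (h3 : 0 ≤ s) (h4 : s ≤ 1) :
    0 ≤ 1 / 20
      - 1 / 30 * s
      + 27 / 100 * z
      + 1 / 25 * s * z
      - 3 / 200 * s ^ 2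
      - 63 / 200 * z ^ 2
      + 63 / 100 * s * z ^ 2
      + 21 / 100 * s ^ 2 * z
      - 63 / 200 * s ^ 2 * z ^ 2 := by
  obtain ⟨u, rfl⟩ : ∃ u, z = 0 + 1 * u := ⟨(z - 0) / (1), by ring⟩
  obtain ⟨v, rfl⟩ : ∃ v, s = 0 + 1 * v := ⟨(s - 0) / (1), by ring⟩
  have hu := bern_mon (a := u) (by linarith) (by linarith)
  have hv := bern_mon (a := v) (by linarith) (by linarith)
  have key := (add_nonneg (mul_nonneg (hu 0 2)
      (add_nonneg (mul_nonneg (by norm_num : (0 : ℝ) ≤ 30) (hv 0 2))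
      (add_nonneg (mul_nonneg (by norm_num : (0 : ℝ) ≤ 40) (hv 1 1))
      (mul_nonneg (by norm_num : (0 : ℝ) ≤ 1) (hv 2 0)))))
    (add_nonneg (mul_nonneg (hu 1 1)
      (add_nonneg (mul_nonneg (by norm_num : (0 : ℝ) ≤ 222) (hv 0 2))
      (add_nonneg (mul_nonneg (by norm_num : (0 : ℝ) ≤ 428) (hv 1 1))
      (mul_nonneg (by norm_num : (0 : ℝ) ≤ 314) (hv 2 0)))))
    (mul_nonneg (hu 2 0)
      (add_nonneg (mul_nonneg (by norm_num : (0 : ℝ) ≤ 3) (hv 0 2))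
      (add_nonneg (mul_nonneg (by norm_num : (0 : ℝ) ≤ 388) (hv 1 1))
      (mul_nonneg (by norm_num : (0 : ℝ) ≤ 313) (hv 2 0)))))))
  refine (mul_nonneg (by norm_num : (0 : ℝ) ≤ 1 / 600) key).trans_eq ?_
  ring

theorem ans_se {z s : ℝ} (h1 : 0 ≤ z) (h2 : z ≤ 1) (h3 : 0 ≤ s) (h4 : s ≤ 1) :
    0 ≤ 33 / 10
      - s
      - 3 / 4 * s * z
      - 3 / 10 * s ^ 2
      - 47 / 100 * s * z ^ 2
      + 23 / 100 * s ^ 2 * z
      - 3 / 25 * s ^ 3
      - 41 / 5 * s * z ^ 3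
      - 369 / 25 * s ^ 2 * z ^ 2
      - 409 / 50 * s ^ 3 * z
      - 5 / 4 * s ^ 4
      + 123 / 5 * s ^ 2 * z ^ 3
      + 3093 / 100 * s ^ 3 * z ^ 2
      + 87 / 10 * s ^ 4 * z
      - 123 / 5 * s ^ 3 * z ^ 3
      - 157 / 10 * s ^ 4 * z ^ 2
      + 41 / 5 * s ^ 4 * z ^ 3 := by
  rcases le_total z (1 / 2) with h | h
  · obtain ⟨u, rfl⟩ : ∃ u, z = 0 + 1 / 2 * u := ⟨(z - 0) / (1 / 2), by ring⟩
    obtain ⟨v, rfl⟩ : ∃ v, s = 0 + 1 * v := ⟨(s - 0) / (1), by ring⟩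
    have hu := bern_mon (a := u) (by linarith) (by linarith)
    have hv := bern_mon (a := v) (by linarith) (by linarith)
    have key := (add_nonneg (add_nonneg (mul_nonneg (hu 0 3)
        (add_nonneg (add_nonneg (mul_nonneg (by norm_num : (0 : ℝ) ≤ 1320) (hv 0 4))
        (mul_nonneg (by norm_num : (0 : ℝ) ≤ 4880) (hv 1 3)))
        (add_nonneg (mul_nonneg (by norm_num : (0 : ℝ) ≤ 6600) (hv 2 2))
        (add_nonneg (mul_nonneg (by norm_num : (0 : ℝ) ≤ 3792) (hv 3 1))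
        (mul_nonneg (by norm_num : (0 : ℝ) ≤ 252) (hv 4 0))))))
      (mul_nonneg (hu 1 2)
        (add_nonneg (add_nonneg (mul_nonneg (by norm_num : (0 : ℝ) ≤ 3960) (hv 0 4))
        (mul_nonneg (by norm_num : (0 : ℝ) ≤ 14490) (hv 1 3)))
        (add_nonneg (mul_nonneg (by norm_num : (0 : ℝ) ≤ 19396) (hv 2 2))
        (add_nonneg (mul_nonneg (by norm_num : (0 : ℝ) ≤ 9382) (hv 3 1))
        (mul_nonneg (by norm_num : (0 : ℝ) ≤ 756) (hv 4 0)))))))
      (add_nonneg (mul_nonneg (hu 2 1)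
        (add_nonneg (add_nonneg (mul_nonneg (by norm_num : (0 : ℝ) ≤ 3960) (hv 0 4))
        (mul_nonneg (by norm_num : (0 : ℝ) ≤ 14293) (hv 1 3)))
        (add_nonneg (mul_nonneg (by norm_num : (0 : ℝ) ≤ 17375) (hv 2 2))
        (add_nonneg (mul_nonneg (by norm_num : (0 : ℝ) ≤ 7388) (hv 3 1))
        (mul_nonneg (by norm_num : (0 : ℝ) ≤ 756) (hv 4 0))))))
      (mul_nonneg (hu 3 0)
        (add_nonneg (add_nonneg (mul_nonneg (by norm_num : (0 : ℝ) ≤ 1320) (hv 0 4))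
        (mul_nonneg (by norm_num : (0 : ℝ) ≤ 4273) (hv 1 3)))
        (add_nonneg (mul_nonneg (by norm_num : (0 : ℝ) ≤ 4579) (hv 2 2))
        (add_nonneg (mul_nonneg (by norm_num : (0 : ℝ) ≤ 1798) (hv 3 1))
        (mul_nonneg (by norm_num : (0 : ℝ) ≤ 252) (hv 4 0))))))))
    refine (mul_nonneg (by norm_num : (0 : ℝ) ≤ 1 / 400) key).trans_eq ?_
    ring
  · rcases le_total s (1 / 2) with h | h
    · obtain ⟨u, rfl⟩ : ∃ u, z = 1 / 2 + 1 / 2 * u := ⟨(z - 1 / 2) / (1 / 2), by ring⟩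
      obtain ⟨v, rfl⟩ : ∃ v, s = 0 + 1 / 2 * v := ⟨(s - 0) / (1 / 2), by ring⟩
      have hu := bern_mon (a := u) (by linarith) (by linarith)
      have hv := bern_mon (a := v) (by linarith) (by linarith)
      have key := (add_nonneg (add_nonneg (mul_nonneg (hu 0 3)
          (add_nonneg (add_nonneg (mul_nonneg (by norm_num : (0 : ℝ) ≤ 10560) (hv 0 4))
          (mul_nonneg (by norm_num : (0 : ℝ) ≤ 38212) (hv 1 3)))
          (add_nonneg (mul_nonneg (by norm_num : (0 : ℝ) ≤ 50636) (hv 2 2))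
          (add_nonneg (mul_nonneg (by norm_num : (0 : ℝ) ≤ 29055) (hv 3 1))
          (mul_nonneg (by norm_num : (0 : ℝ) ≤ 6111) (hv 4 0))))))
        (mul_nonneg (hu 1 2)
          (add_nonneg (add_nonneg (mul_nonneg (by norm_num : (0 : ℝ) ≤ 31680) (hv 0 4))
          (mul_nonneg (by norm_num : (0 : ℝ) ≤ 108740) (hv 1 3)))
          (add_nonneg (mul_nonneg (by norm_num : (0 : ℝ) ≤ 135788) (hv 2 2))
          (add_nonneg (mul_nonneg (by norm_num : (0 : ℝ) ≤ 73473) (hv 3 1))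
          (mul_nonneg (by norm_num : (0 : ℝ) ≤ 14780) (hv 4 0)))))))
        (add_nonneg (mul_nonneg (hu 2 1)
          (add_nonneg (add_nonneg (mul_nonneg (by norm_num : (0 : ℝ) ≤ 31680) (hv 0 4))
          (mul_nonneg (by norm_num : (0 : ℝ) ≤ 97736) (hv 1 3)))
          (add_nonneg (mul_nonneg (by norm_num : (0 : ℝ) ≤ 108772) (hv 2 2))
          (add_nonneg (mul_nonneg (by norm_num : (0 : ℝ) ≤ 52716) (hv 3 1))
          (mul_nonneg (by norm_num : (0 : ℝ) ≤ 9780) (hv 4 0))))))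
        (mul_nonneg (hu 3 0)
          (add_nonneg (add_nonneg (mul_nonneg (by norm_num : (0 : ℝ) ≤ 10560) (hv 0 4))
          (mul_nonneg (by norm_num : (0 : ℝ) ≤ 25568) (hv 1 3)))
          (add_nonneg (mul_nonneg (by norm_num : (0 : ℝ) ≤ 21160) (hv 2 2))
          (add_nonneg (mul_nonneg (by norm_num : (0 : ℝ) ≤ 7068) (hv 3 1))
          (mul_nonneg (by norm_num : (0 : ℝ) ≤ 906) (hv 4 0))))))))
      refine (mul_nonneg (by norm_num : (0 : ℝ) ≤ 1 / 3200) key).trans_eq ?_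
      ring
    · obtain ⟨u, rfl⟩ : ∃ u, z = 1 / 2 + 1 / 2 * u := ⟨(z - 1 / 2) / (1 / 2), by ring⟩
      obtain ⟨v, rfl⟩ : ∃ v, s = 1 / 2 + 1 / 2 * v := ⟨(s - 1 / 2) / (1 / 2), by ring⟩
      have hu := bern_mon (a := u) (by linarith) (by linarith)
      have hv := bern_mon (a := v) (by linarith) (by linarith)
      have key := (add_nonneg (add_nonneg (mul_nonneg (hu 0 3)
          (add_nonneg (add_nonneg (mul_nonneg (by norm_num : (0 : ℝ) ≤ 6111) (hv 0 4))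
          (mul_nonneg (by norm_num : (0 : ℝ) ≤ 19833) (hv 1 3)))
          (add_nonneg (mul_nonneg (by norm_num : (0 : ℝ) ≤ 22970) (hv 2 2))
          (add_nonneg (mul_nonneg (by norm_num : (0 : ℝ) ≤ 11224) (hv 3 1))
          (mul_nonneg (by norm_num : (0 : ℝ) ≤ 2016) (hv 4 0))))))
        (mul_nonneg (hu 1 2)
          (add_nonneg (add_nonneg (mul_nonneg (by norm_num : (0 : ℝ) ≤ 14780) (hv 0 4))
          (mul_nonneg (by norm_num : (0 : ℝ) ≤ 44767) (hv 1 3)))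
          (add_nonneg (mul_nonneg (by norm_num : (0 : ℝ) ≤ 49670) (hv 2 2))
          (add_nonneg (mul_nonneg (by norm_num : (0 : ℝ) ≤ 25696) (hv 3 1))
          (mul_nonneg (by norm_num : (0 : ℝ) ≤ 6048) (hv 4 0)))))))
        (add_nonneg (mul_nonneg (hu 2 1)
          (add_nonneg (add_nonneg (mul_nonneg (by norm_num : (0 : ℝ) ≤ 9780) (hv 0 4))
          (mul_nonneg (by norm_num : (0 : ℝ) ≤ 25524) (hv 1 3)))
          (add_nonneg (mul_nonneg (by norm_num : (0 : ℝ) ≤ 27196) (hv 2 2))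
          (add_nonneg (mul_nonneg (by norm_num : (0 : ℝ) ≤ 17720) (hv 3 1))
          (mul_nonneg (by norm_num : (0 : ℝ) ≤ 6048) (hv 4 0))))))
        (mul_nonneg (hu 3 0)
          (add_nonneg (add_nonneg (mul_nonneg (by norm_num : (0 : ℝ) ≤ 906) (hv 0 4))
          (mul_nonneg (by norm_num : (0 : ℝ) ≤ 180) (hv 1 3)))
          (add_nonneg (mul_nonneg (by norm_num : (0 : ℝ) ≤ 496) (hv 2 2))
          (add_nonneg (mul_nonneg (by norm_num : (0 : ℝ) ≤ 3248) (hv 3 1))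
          (mul_nonneg (by norm_num : (0 : ℝ) ≤ 2016) (hv 4 0))))))))
      refine (mul_nonneg (by norm_num : (0 : ℝ) ≤ 1 / 3200) key).trans_eq ?_
      ring

theorem ans_WH {z s : ℝ} (h1 : 0 ≤ z) (h2 : z ≤ 1) (h3 : 0 ≤ s) (h4 : s ≤ 1) :
    0 ≤ 3 / 50
      - 1 / 30 * s
      + 83 / 100 * z
      - 3 / 20 * s * z
      - 1 / 40 * s ^ 2
      - 33 / 40 * z ^ 2
      + 33 / 20 * s * z ^ 2
      + 9 / 20 * s ^ 2 * z
      - 33 / 40 * s ^ 2 * z ^ 2 := by
  obtain ⟨u, rfl⟩ : ∃ u, z = 0 + 1 * u := ⟨(z - 0) / (1), by ring⟩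
  obtain ⟨v, rfl⟩ : ∃ v, s = 0 + 1 * v := ⟨(s - 0) / (1), by ring⟩
  have hu := bern_mon (a := u) (by linarith) (by linarith)
  have hv := bern_mon (a := v) (by linarith) (by linarith)
  have key := (add_nonneg (mul_nonneg (hu 0 2)
      (add_nonneg (mul_nonneg (by norm_num : (0 : ℝ) ≤ 36) (hv 0 2))
      (add_nonneg (mul_nonneg (by norm_num : (0 : ℝ) ≤ 52) (hv 1 1))
      (mul_nonneg (by norm_num : (0 : ℝ) ≤ 1) (hv 2 0)))))
    (add_nonneg (mul_nonneg (hu 1 1)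
      (add_nonneg (mul_nonneg (by norm_num : (0 : ℝ) ≤ 570) (hv 0 2))
      (add_nonneg (mul_nonneg (by norm_num : (0 : ℝ) ≤ 1010) (hv 1 1))
      (mul_nonneg (by norm_num : (0 : ℝ) ≤ 680) (hv 2 0)))))
    (mul_nonneg (hu 2 0)
      (add_nonneg (mul_nonneg (by norm_num : (0 : ℝ) ≤ 39) (hv 0 2))
      (add_nonneg (mul_nonneg (by norm_num : (0 : ℝ) ≤ 958) (hv 1 1))
      (mul_nonneg (by norm_num : (0 : ℝ) ≤ 679) (hv 2 0)))))))
  refine (mul_nonneg (by norm_num : (0 : ℝ) ≤ 1 / 600) key).trans_eq ?_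
  ring

theorem ans_Be {z s : ℝ} (h1 : 0 ≤ z) (h2 : z ≤ 1) (h3 : 0 ≤ s) (h4 : s ≤ 1) :
    0 ≤ 23 / 100
      - 1 / 10 * s
      + 3 / 10 * z
      - 4 / 5 * s * z
      - 1 / 8 * s ^ 2
      - 21 / 40 * z ^ 2
      + 21 / 20 * s * z ^ 2
      + 21 / 20 * s ^ 2 * z
      - 21 / 40 * s ^ 2 * z ^ 2 := by
  obtain ⟨u, rfl⟩ : ∃ u, z = 0 + 1 * u := ⟨(z - 0) / (1), by ring⟩
  obtain ⟨v, rfl⟩ : ∃ v, s = 0 + 1 * v := ⟨(s - 0) / (1), by ring⟩
  have hu := bern_mon (a := u) (by linarith) (by linarith)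
  have hv := bern_mon (a := v) (by linarith) (by linarith)
  have key := (add_nonneg (mul_nonneg (hu 0 2)
      (add_nonneg (mul_nonneg (by norm_num : (0 : ℝ) ≤ 46) (hv 0 2))
      (add_nonneg (mul_nonneg (by norm_num : (0 : ℝ) ≤ 72) (hv 1 1))
      (mul_nonneg (by norm_num : (0 : ℝ) ≤ 1) (hv 2 0)))))
    (add_nonneg (mul_nonneg (hu 1 1)
      (add_nonneg (mul_nonneg (by norm_num : (0 : ℝ) ≤ 152) (hv 0 2))
      (add_nonneg (mul_nonneg (by norm_num : (0 : ℝ) ≤ 104) (hv 1 1))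
      (mul_nonneg (by norm_num : (0 : ℝ) ≤ 112) (hv 2 0)))))
    (mul_nonneg (hu 2 0)
      (add_nonneg (mul_nonneg (by norm_num : (0 : ℝ) ≤ 1) (hv 0 2))
      (add_nonneg (mul_nonneg (by norm_num : (0 : ℝ) ≤ 32) (hv 1 1))
      (mul_nonneg (by norm_num : (0 : ℝ) ≤ 111) (hv 2 0)))))))
  refine (mul_nonneg (by norm_num : (0 : ℝ) ≤ 1 / 200) key).trans_eq ?_
  ring

theorem ans_Ca {z s : ℝ} (h1 : 0 ≤ z) (h2 : z ≤ 1) (h3 : 0 ≤ s) (h4 : s ≤ 1) :
    0 ≤ 13 / 20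
      - 13 / 20 * s
      + 26 / 25 * z
      - 219 / 100 * s * z
      - 8 / 5 * z ^ 2
      + 16 / 5 * s * z ^ 2
      + 51 / 20 * s ^ 2 * z
      - 8 / 5 * s ^ 2 * z ^ 2 := by
  obtain ⟨u, rfl⟩ : ∃ u, z = 0 + 1 * u := ⟨(z - 0) / (1), by ring⟩
  obtain ⟨v, rfl⟩ : ∃ v, s = 0 + 1 * v := ⟨(s - 0) / (1), by ring⟩
  have hu := bern_mon (a := u) (by linarith) (by linarith)
  have hv := bern_mon (a := v) (by linarith) (by linarith)
  have key := (add_nonneg (mul_nonneg (hu 0 2)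
      (add_nonneg (mul_nonneg (by norm_num : (0 : ℝ) ≤ 65) (hv 0 2))
      (mul_nonneg (by norm_num : (0 : ℝ) ≤ 65) (hv 1 1))))
    (add_nonneg (mul_nonneg (hu 1 1)
      (add_nonneg (mul_nonneg (by norm_num : (0 : ℝ) ≤ 234) (hv 0 2))
      (add_nonneg (mul_nonneg (by norm_num : (0 : ℝ) ≤ 119) (hv 1 1))
      (mul_nonneg (by norm_num : (0 : ℝ) ≤ 140) (hv 2 0)))))
    (mul_nonneg (hu 2 0)
      (add_nonneg (mul_nonneg (by norm_num : (0 : ℝ) ≤ 9) (hv 0 2))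
      (add_nonneg (mul_nonneg (by norm_num : (0 : ℝ) ≤ 54) (hv 1 1))
      (mul_nonneg (by norm_num : (0 : ℝ) ≤ 140) (hv 2 0)))))))
  refine (mul_nonneg (by norm_num : (0 : ℝ) ≤ 1 / 100) key).trans_eq ?_
  ring

theorem ans_e3 {z s : ℝ} (h1 : 0 ≤ z) (h2 : z ≤ 1) (h3 : 0 ≤ s) (h4 : s ≤ 1) :
    0 ≤ 3 / 5
      - 1 / 15 * s
      - 21 / 20 * s * z
      - 1 / 8 * s ^ 2
      - 21 / 40 * z ^ 2
      + 21 / 20 * s * z ^ 2
      + 21 / 20 * s ^ 2 * z
      - 21 / 40 * s ^ 2 * z ^ 2 := by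
  obtain ⟨u, rfl⟩ : ∃ u, z = 0 + 1 * u := ⟨(z - 0) / (1), by ring⟩
  obtain ⟨v, rfl⟩ : ∃ v, s = 0 + 1 * v := ⟨(s - 0) / (1), by ring⟩
  have hu := bern_mon (a := u) (by linarith) (by linarith)
  have hv := bern_mon (a := v) (by linarith) (by linarith)
  have key := (add_nonneg (mul_nonneg (hu 0 2)
      (add_nonneg (mul_nonneg (by norm_num : (0 : ℝ) ≤ 72) (hv 0 2))
      (add_nonneg (mul_nonneg (by norm_num : (0 : ℝ) ≤ 136) (hv 1 1))
      (mul_nonneg (by norm_num : (0 : ℝ) ≤ 49) (hv 2 0)))))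
    (add_nonneg (mul_nonneg (hu 1 1)
      (add_nonneg (mul_nonneg (by norm_num : (0 : ℝ) ≤ 144) (hv 0 2))
      (add_nonneg (mul_nonneg (by norm_num : (0 : ℝ) ≤ 146) (hv 1 1))
      (mul_nonneg (by norm_num : (0 : ℝ) ≤ 98) (hv 2 0)))))
    (mul_nonneg (hu 2 0)
      (add_nonneg (mul_nonneg (by norm_num : (0 : ℝ) ≤ 9) (hv 0 2))
      (add_nonneg (mul_nonneg (by norm_num : (0 : ℝ) ≤ 10) (hv 1 1))
      (mul_nonneg (by norm_num : (0 : ℝ) ≤ 49) (hv 2 0)))))))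
  refine (mul_nonneg (by norm_num : (0 : ℝ) ≤ 1 / 120) key).trans_eq ?_
  ring

end Pool.Agent.Ped
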