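import Pool.Agent.P.MP_e09f5c_gt.ANDefs
import Pool.Agent.P.MP_e09f5c_gt.ANPoly

/-! Pointwise bounds for the model value when `5 ≤ n`. -/

namespace Pool.Agent.Ped

variable {n : ℕ}

/-- Tangent line inequality for the power `(k + 2) / 2` at `a ^ 2`. -/
theorem anp_tangent {a b : ℝ} (ha : 0 ≤ a) (hb : 0 ≤ b) (k : ℕ) :
    a ^ (k + 2) - b ^ (k + 2) ≤ ((k : ℝ) + 2) / 2 * (a ^ 2 - b ^ 2) * a ^ k := by
  induction k with
  | zero => simp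
  | succ k ih =>
    have h1 := mul_le_mul_of_nonneg_left ih ha
    have h2 : 0 ≤ (b - a) * (b ^ (k + 1) * b - a ^ (k + 1) * ((a + b) / 2)) := by
      have ha1 : 0 ≤ a ^ (k + 1) := by positivity
      rcases le_total a b with h | h
      · refine mul_nonneg (by linarith) (sub_nonneg.2 ?_)
        exact mul_le_mul (pow_le_pow_left₀ ha h _) (by linarith) (by positivity) (by positivity)
      · refine mul_nonneg_of_nonpos_of_nonpos (by linarith) (sub_nonpos.2 ?_)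
        exact mul_le_mul (pow_le_pow_left₀ hb h _) (by linarith) hb ha1
    push_cast
    have e1 : a ^ (k + 1 + 2) = a ^ k * a ^ 3 := by ring
    have e2 : b ^ (k + 1 + 2) = b ^ k * b ^ 3 := by ring
    have e3 : a ^ (k + 2) = a ^ k * a ^ 2 := by ring
    have e4 : b ^ (k + 2) = b ^ k * b ^ 2 := by ring
    have e5 : a ^ (k + 1) = a ^ k * a := by ring
    have e6 : b ^ (k + 1) = b ^ k * b := by ring
    rw [e3, e4] at h1
    rw [e5, e6] at h2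
    rw [e1, e2, e5]
    generalize a ^ k = A at h1 h2 ⊢
    generalize b ^ k = B at h1 h2 ⊢
    linarith only [h1, h2]

section Radius

variable {q z γ r : ℝ}

theorem anp_le_one (hq0 : 0 ≤ q) (hq1 : q ≤ 1) (hz : 0 ≤ z) (hc : γ ^ 2 = 1 - z) (hr : 0 ≤ r)
    (h2 : r ^ 2 = (1 - q) * γ ^ 2 + q * z) : r ≤ 1 := by
  have h1 : q * z ≤ 1 * z := mul_le_mul_of_nonneg_right hq1 hz
  have h3 : 0 ≤ q * γ ^ 2 := by positivity
  have h4 : r ^ 2 ≤ 1 ^ 2 := by linarith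
  exact (pow_le_pow_iff_left₀ hr zero_le_one two_ne_zero).1 h4

theorem anp_sign (hq0 : 0 ≤ q) (hγ : 0 ≤ γ) (hr : 0 ≤ r)
    (h2 : r ^ 2 = (1 - q) * γ ^ 2 + q * z) (k : ℕ) : (r ^ k - γ ^ k) * (γ ^ 2 - z) ≤ 0 := by
  rcases le_total z (γ ^ 2) with h | h
  · have h1 : q * z ≤ q * γ ^ 2 := mul_le_mul_of_nonneg_left h hq0
    have h3 : r ≤ γ := (pow_le_pow_iff_left₀ hr hγ two_ne_zero).1 (by linarith)
    exact mul_nonpos_of_nonpos_of_nonneg (sub_nonpos.2 (pow_le_pow_left₀ hr h3 k)) (by linarith)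
  · have h1 : q * γ ^ 2 ≤ q * z := mul_le_mul_of_nonneg_left h hq0
    have h3 : γ ≤ r := (pow_le_pow_iff_left₀ hγ hr two_ne_zero).1 (by linarith)
    exact mul_nonpos_of_nonneg_of_nonpos (sub_nonneg.2 (pow_le_pow_left₀ hγ h3 k)) (by linarith)

theorem anp_diff (hγ : 0 ≤ γ) (hr : 0 ≤ r) (h2 : r ^ 2 = (1 - q) * γ ^ 2 + q * z) {k : ℕ}
    (hk : 2 ≤ k) : r ^ k - γ ^ k ≤ (k : ℝ) / 2 * (q * (z - γ ^ 2)) * r ^ (k - 2) := by
  obtain ⟨j, rfl⟩ : ∃ j, k = j + 2 := ⟨k - 2, by omega⟩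
  have h := anp_tangent hr hγ j
  have e : r ^ 2 - γ ^ 2 = q * (z - γ ^ 2) := by linarith
  rw [e] at h
  simpa using h

theorem anp_upper {N w : ℝ} (hw : N * w = 1) (hq0 : 0 ≤ q) (hq : q ≤ w ^ 2 / 4)
    (hz : 0 ≤ z) (hγ : 0 ≤ γ) (hr : 0 ≤ r) (hr1 : r ≤ 1)
    (h2 : r ^ 2 = (1 - q) * γ ^ 2 + q * z) {k : ℕ} (hk : 2 ≤ k) (hkN : (k : ℝ) ≤ N) :
    r ^ k ≤ γ ^ k + z * w / 8 := by
  have h := anp_diff hγ hr h2 hk
  have h0 : 0 ≤ r ^ (k - 2) := by positivity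
  have h1 : r ^ (k - 2) ≤ 1 := pow_le_one₀ hr hr1
  have hk0 : (0 : ℝ) ≤ k := Nat.cast_nonneg _
  generalize r ^ (k - 2) = v at h h0 h1
  have a1 : 0 ≤ (k : ℝ) * q * γ ^ 2 * v := by positivity
  have a2 : (k : ℝ) * q * z * v ≤ (k : ℝ) * q * z * 1 :=
    mul_le_mul_of_nonneg_left h1 (by positivity)
  have a3 : (k : ℝ) * q ≤ N * (w ^ 2 / 4) := mul_le_mul hkN hq hq0 (hk0.trans hkN)
  have a4 : N * (w ^ 2 / 4) = w / 4 := by linear_combination (w / 4) * hw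
  have a5 : (k : ℝ) * q * z ≤ w / 4 * z := mul_le_mul_of_nonneg_right (a4 ▸ a3) hz
  linarith only [h, a1, a2, a5]

theorem anp_lower (hq0 : 0 ≤ q) (hq1 : q ≤ 1) (hz : 0 ≤ z) (hγ : 0 ≤ γ) (hr : 0 ≤ r)
    (h2 : r ^ 2 = (1 - q) * γ ^ 2 + q * z) {k : ℕ} (hk : (k : ℝ) * q ≤ 1 / 20) :
    19 / 20 * γ ^ k ≤ r ^ k := by
  have hp : 0 ≤ 1 - q := by linarith
  have h1 : (1 - q) * γ ≤ r := by
    refine (pow_le_pow_iff_left₀ (mul_nonneg hp hγ) hr two_ne_zero).1 ?_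
    have a1 : 0 ≤ q * z := mul_nonneg hq0 hz
    have a2 : 0 ≤ q * ((1 - q) * γ ^ 2) := by positivity
    linarith [mul_pow (1 - q) γ 2]
  have h3 := pow_le_pow_left₀ (mul_nonneg hp hγ) h1 k
  rw [mul_pow] at h3
  have h4 : 1 + (k : ℝ) * (-q) ≤ (1 + -q) ^ k := one_add_mul_le_pow (by linarith) k
  have h5 : 19 / 20 ≤ (1 - q) ^ k := by
    rw [sub_eq_add_neg]
    linarith
  exact (mul_le_mul_of_nonneg_right h5 (by positivity)).trans h3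

end Radius

/-- The scalar inequality for the coefficient of `(1 - q1) * q`. -/
theorem anp_X {N w q z c u ρ G k A Ca K Ph E : ℝ} (hN : 0 ≤ N) (hw : N * w = 1)
    (hq0 : 0 ≤ q) (hq : q ≤ w ^ 2 / 4) (hz : 0 ≤ z) (hz1 : z ≤ 1) (hc : 0 ≤ c) (hu0 : 0 ≤ u)
    (hu1 : u ≤ 1) (hρ : 0 ≤ ρ) (hG : 0 ≤ G) (ha : (ρ - G) * (c - z) ≤ 0) (hb : ρ ≤ G + z * w / 8)
    (hpc : (1 - q) * c * u ≤ ρ) (hk : (1 - q) * k * c ≤ z)
    (A0 : 0 ≤ A) (hA : A ≤ N * (1 + 3 / 5 * z) + 19 / 50 + 13 / 10 * z)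
    (Ca0 : 0 ≤ Ca) (hCa : Ca ≤ 8 / 5 + 2 * z) (K0 : 0 ≤ K) (hK : K ≤ 6 / 5)
    (hPh : Ph ≤ 19 / 25 + 13 / 5 * z) (E0 : 0 ≤ E) (hE : E ≤ 1 / 20 + 53 / 100 * z) :
    A * (c - z) * ρ + Ca * q * z * u + N * (1 - q) * Ca * c * u + N * (1 - q) * K * z * ρ
        + N * Ph * z * ρ + 2 * N * E * (1 - q) * k * c * ρ
      ≤ (N * (1 + 3 / 5 * z) + 19 / 50 + 13 / 10 * z) * (G * c) + 9 / 10 * w ^ 2
        + N * G * (8 / 5 + 203 / 50 * z + 183 / 50 * z ^ 2) + 233 / 200 * z := by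
  have x1 : A * ((ρ - G) * (c - z)) ≤ 0 := mul_nonpos_of_nonneg_of_nonpos A0 ha
  have x2 : 0 ≤ A * (G * z) := by positivity
  have x3 := mul_le_mul_of_nonneg_right hA (mul_nonneg hG hc)
  have zu : z * u ≤ 1 := mul_le_one₀ hz1 hu0 hu1
  have x4 : Ca * (z * u) ≤ 18 / 5 * 1 := mul_le_mul (by linarith) zu (by positivity) (by norm_num)
  have x5 := mul_le_mul_of_nonneg_left x4 hq0
  have hNρ : 0 ≤ N * ρ := mul_nonneg hN hρ
  have hNρz : 0 ≤ N * ρ * z := mul_nonneg hNρ hz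
  have x6 := mul_le_mul_of_nonneg_left hpc (mul_nonneg hN Ca0)
  have x7 := mul_le_mul_of_nonneg_left hCa hNρ
  have x8 : 0 ≤ q * K * (N * ρ * z) := by positivity
  have x9 := mul_le_mul_of_nonneg_left hK hNρz
  have x10 := mul_le_mul_of_nonneg_left hPh hNρz
  have x11 := mul_le_mul_of_nonneg_left hk (mul_nonneg hNρ E0)
  have x12 := mul_le_mul_of_nonneg_left hE hNρz
  have hz2 : z ^ 2 ≤ 1 := pow_le_one₀ hz hz1
  have p0 : 0 ≤ 8 / 5 + 203 / 50 * z + 183 / 50 * z ^ 2 := by positivity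
  have p1 : 8 / 5 + 203 / 50 * z + 183 / 50 * z ^ 2 ≤ 233 / 25 := by linarith
  have x13 : N * ρ ≤ N * G + z / 8 := by
    have h := mul_le_mul_of_nonneg_left hb hN
    have e : N * (G + z * w / 8) = N * G + z / 8 := by linear_combination (z / 8) * hw
    linarith
  have x14 := mul_le_mul_of_nonneg_right x13 p0
  have x15 := mul_le_mul_of_nonneg_left p1 hz
  linarith only [x1, x2, x3, x5, hq, x6, x7, x8, x9, x10, x11, x12, x14, x15]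

/-- The scalar inequality for the coefficient of `q1`. -/
theorem anp_Y {N w q z c u ρ R G k Λ T W Be Ca Ph E : ℝ} (hN : 0 ≤ N) (hw : N * w = 1)
    (hw0 : 0 ≤ w) (hq0 : 0 ≤ q) (hq1 : q ≤ 1) (hq : q ≤ w ^ 2 / 4) (hz : 0 ≤ z) (hz1 : z ≤ 1)
    (hc : 0 ≤ c) (hc1 : c ≤ 1) (hu0 : 0 ≤ u) (hu1 : u ≤ 1) (hρ : 0 ≤ ρ) (hρ1 : ρ ≤ 1)
    (hR0 : 0 ≤ R) (hR : R ≤ ρ) (hb : ρ ≤ G + z * w / 8)
    (hb' : R ≤ G * c + z * w / 8) (hpc : (1 - q) * c * u ≤ ρ) (hk0 : 0 ≤ k) (hk : k * ρ ≤ 1)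
    (T0 : 0 ≤ T) (hΛ : Λ + T ≤ N * (21 / 20 + 13 / 25 * z) + 33 / 10)
    (hW : W ≤ (N + 2) * (53 / 50 + 113 / 100 * z)) (hBe : Be ≤ 123 / 100 + 11 / 20 * z)
    (Ca0 : 0 ≤ Ca) (hCa : Ca ≤ 9 / 4 + 7 / 5 * z) (hPh : Ph ≤ 33 / 5) (E0 : 0 ≤ E)
    (hE : E ≤ 3 / 5) :
    Λ * z * ρ + (z * W + Be + z * T) * R + Ca * (1 - q) ^ 2 * c * u
        + N * ((1 - q) * q) * Ca * z * u + N * q * Ph * c * ρ
        + 2 * N * E * ((1 - q) * q) * k * z * ρ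
      ≤ G * (z * (N * (21 / 20 + 13 / 25 * z) + 33 / 10) + 9 / 4 + 7 / 5 * z)
        + G * c * (z * (N + 2) * (53 / 50 + 113 / 100 * z) + 123 / 100 + 11 / 20 * z)
        + z ^ 2 * (47 / 100 + 24 / 25 * w) + 19 / 10 * z * w + 33 / 20 * w := by
  have hp : 0 ≤ 1 - q := by linarith
  have hNq : N * q ≤ w / 4 := by
    have h := mul_le_mul_of_nonneg_left hq hN
    have e : N * (w ^ 2 / 4) = w / 4 := by linear_combination (w / 4) * hw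
    linarith
  have hNq0 : 0 ≤ N * q := mul_nonneg hN hq0
  have x1 := mul_le_mul_of_nonneg_left hR (mul_nonneg hz T0)
  have x2 := mul_le_mul_of_nonneg_left hΛ (mul_nonneg hz hρ)
  have x3 := mul_le_mul_of_nonneg_left hW (mul_nonneg hz hR0)
  have x4 := mul_le_mul_of_nonneg_left hBe hR0
  have x5 := mul_le_mul_of_nonneg_left hpc Ca0
  have x6 : 0 ≤ q * (Ca * ((1 - q) * c * u)) := by positivity
  have x7 := mul_le_mul_of_nonneg_left hCa hρ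
  have x8 : Ca * u ≤ 73 / 20 * 1 := mul_le_mul (by linarith) hu1 hu0 (by norm_num)
  have x9 : N * q * (Ca * u) ≤ w / 4 * (73 / 20 * 1) :=
    mul_le_mul hNq x8 (by positivity) (by positivity)
  have x10 := mul_le_mul_of_nonneg_left x9 hz
  have x11 : 0 ≤ q * (z * (N * q * (Ca * u))) := by positivity
  have cρ : c * ρ ≤ 1 := mul_le_one₀ hc1 hρ hρ1
  have x12 : Ph * (c * ρ) ≤ 33 / 5 := by
    have h := mul_le_mul_of_nonneg_right hPh (mul_nonneg hc hρ)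
    linarith
  have x13 := mul_le_mul_of_nonneg_left x12 hNq0
  have x14 : E * (k * ρ) ≤ 3 / 5 * 1 := mul_le_mul hE hk (by positivity) (by norm_num)
  have x15 : N * q * (E * (k * ρ)) ≤ w / 4 * (3 / 5 * 1) :=
    mul_le_mul hNq x14 (by positivity) (by positivity)
  have x16 := mul_le_mul_of_nonneg_left x15 hz
  have x17 : 0 ≤ q * (z * (N * q * (E * (k * ρ)))) := by positivity
  have p0 : 0 ≤ z * (N * (21 / 20 + 13 / 25 * z) + 33 / 10) + 9 / 4 + 7 / 5 * z := by positivity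
  have p1 : 0 ≤ z * (N + 2) * (53 / 50 + 113 / 100 * z) + 123 / 100 + 11 / 20 * z := by
    positivity
  have x18 := mul_le_mul_of_nonneg_right hb p0
  have x19 := mul_le_mul_of_nonneg_right hb' p1
  have hzw : 0 ≤ z * w := mul_nonneg hz hw0
  have y1 : z ^ 2 * z ≤ z ^ 2 * 1 := mul_le_mul_of_nonneg_left hz1 (sq_nonneg z)
  have y2 : z * w * z ≤ z * w * 1 := mul_le_mul_of_nonneg_left hz1 hzw
  have y3 : z * w * z * z ≤ z * w * z * 1 := mul_le_mul_of_nonneg_left hz1 (mul_nonneg hzw hz)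
  have y4 : z ^ 2 * (N * w) = z ^ 2 := by rw [hw, mul_one]
  have y5 : z ^ 3 * (N * w) = z ^ 3 := by rw [hw, mul_one]
  linarith only [x1, x2, x3, x4, x5, x6, x7, x10, x11, x13, hNq, x16, x17, x18, x19, y1, y2, y3,
    y4, y5, hzw]

namespace TN

variable {s z : ℝ}

theorem anp_tBl (hz : 0 ≤ z) (hz1 : z ≤ 1) (hs : 0 ≤ s) (hs1 : s ≤ 1) :
    (1 - s) * BlH ((1 - s) * z) s ≤ 1 + 3 / 5 * z := by
  have := ans_tBl hz hz1 hs hs1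
  unfold BlH
  linarith

theorem anp_tse (hz : 0 ≤ z) (hz1 : z ≤ 1) (hs : 0 ≤ s) (hs1 : s ≤ 1) :
    (1 - s) * (s * eb ((1 - s) * z) s) ≤ 19 / 50 + 13 / 10 * z := by
  have := ans_tse hz hz1 hs hs1
  unfold eb
  linarith

theorem anp_tCa (hz : 0 ≤ z) (hz1 : z ≤ 1) (hs : 0 ≤ s) (hs1 : s ≤ 1) :
    (1 - s) * Ca s z ≤ 8 / 5 + 2 * z := by
  have := ans_tCa hz hz1 hs hs1
  unfold Ca
  linarith

theorem anp_tkk (hz : 0 ≤ z) (hz1 : z ≤ 1) (hs : 0 ≤ s) (hs1 : s ≤ 1) :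
    (1 - s) * (8 * s ^ 2) ≤ 6 / 5 := by
  have := ans_tkk hz hz1 hs hs1
  linarith

theorem anp_te3 (hz : 0 ≤ z) (hz1 : z ≤ 1) (hs : 0 ≤ s) (hs1 : s ≤ 1) :
    (1 - s) * ep3 ((1 - s) * z) s ≤ 1 / 20 + 53 / 100 * z := by
  have := ans_te3 hz hz1 hs hs1
  unfold ep3
  linarith

theorem anp_Bl (hz : 0 ≤ z) (hz1 : z ≤ 1) (hs : 0 ≤ s) (hs1 : s ≤ 1) :
    BlH ((1 - s) * z) s ≤ 21 / 20 + 13 / 25 * z := by
  have := ans_Bl hz hz1 hs hs1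
  unfold BlH
  linarith

theorem anp_se (hz : 0 ≤ z) (hz1 : z ≤ 1) (hs : 0 ≤ s) (hs1 : s ≤ 1) :
    s * eb ((1 - s) * z) s ≤ 33 / 10 := by
  have := ans_se hz hz1 hs hs1
  unfold eb
  linarith

theorem anp_WH (hz : 0 ≤ z) (hz1 : z ≤ 1) (hs : 0 ≤ s) (hs1 : s ≤ 1) :
    WH ((1 - s) * z) s ≤ 53 / 50 + 113 / 100 * z := by
  have := ans_WH hz hz1 hs hs1
  unfold WH
  linarith

theorem anp_Be (hz : 0 ≤ z) (hz1 : z ≤ 1) (hs : 0 ≤ s) (hs1 : s ≤ 1) :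
    BeH ((1 - s) * z) s ≤ 123 / 100 + 11 / 20 * z := by
  have := ans_Be hz hz1 hs hs1
  unfold BeH
  linarith

theorem anp_Ca (hz : 0 ≤ z) (hz1 : z ≤ 1) (hs : 0 ≤ s) (hs1 : s ≤ 1) :
    Ca s z ≤ 9 / 4 + 7 / 5 * z := by
  have := ans_Ca hz hz1 hs hs1
  unfold Ca
  linarith

theorem anp_e3 (hz : 0 ≤ z) (hz1 : z ≤ 1) (hs : 0 ≤ s) (hs1 : s ≤ 1) :
    ep3 ((1 - s) * z) s ≤ 3 / 5 := by
  have := ans_e3 hz hz1 hs hs1
  unfold ep3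
  linarith

theorem anp_Ca_nonneg (hz : 0 ≤ z) (hs : 0 ≤ s) (hs1 : s ≤ 1) : 0 ≤ Ca s z := by
  have : 0 ≤ 1 - s := by linarith
  unfold Ca
  positivity

theorem anp_e3_nonneg (hz : 0 ≤ z) (hs : 0 ≤ s) (hs1 : s ≤ 1) : 0 ≤ ep3 ((1 - s) * z) s := by
  have : 0 ≤ 1 - s := by linarith
  unfold ep3
  positivity

end TN

theorem anp_q (hn : 5 ≤ n) {q : ℝ} (hq : q ≤ 1 / (4 * (n : ℝ) ^ 2)) :
    (n : ℝ) * (1 / n) = 1 ∧ q ≤ (1 / (n : ℝ)) ^ 2 / 4 ∧ (n : ℝ) * q ≤ 1 / 20 := by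
  have hN : (5 : ℝ) ≤ n := by exact_mod_cast hn
  have hN0 : (0 : ℝ) < n := by linarith
  refine ⟨by field_simp, hq.trans (le_of_eq (by field_simp)), ?_⟩
  have h1 := mul_le_mul_of_nonneg_left hq hN0.le
  have h2 : (n : ℝ) * (1 / (4 * (n : ℝ) ^ 2)) = 1 / (4 * n) := by field_simp
  have h3 : 1 / (4 * (n : ℝ)) ≤ 1 / 20 := one_div_le_one_div_of_le (by norm_num) (by linarith)
  linarith

theorem aN_model (hn : 5 ≤ n) {F : Fr} (hF : F.Ok) (hq : F.q ≤ 1 / (4 * (n : ℝ) ^ 2))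
    {co si s t1 t2 φ : ℝ} {m : Mo}
    (h : co ^ 2 + si ^ 2 = 1) (hs0 : 0 ≤ s) (hs1 : s ≤ 1) (hX : F.X2 = (1 - s) * (1 - F.q1))
    (hs : F.s ^ 2 = s * (1 - F.q1)) (B : TN.Box n ((1 - s) * si ^ 2) s m t1 t2 φ)
    (hφ : φ = (1 - (1 - s) * si ^ 2) * m.Wr + (1 - s) * m.Be + n * m.Bl
      - 2 * ((1 - s) * si ^ 2) * (s * t1)) (ε4 x x' : ℝ) :
    Real.sqrt (F.gb co si) ^ n * (ModelE n F m ⟨TN.Ca s (si ^ 2) / (2 * n + 3),
        TN.Cz s (si ^ 2) / (2 * n + 3), 0, 8 * s ^ 2 / (2 * n + 3), TN.ph s (si ^ 2) / (2 * n + 3),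
        TN.pz s (si ^ 2) / (2 * n + 3)⟩
        (auxA n F co si s t1 t2 (TN.ep3 ((1 - s) * si ^ 2) s / (2 * n + 3)) ε4 x x') co si
        - (1 - F.q1) * φ)
      ≤ ((1 - F.q1) * F.q * TN.BX n co si + F.q1 * TN.BY n co si) / (2 * n + 3) := by
  rw [modelE_sub (by omega) hF h hX hs hφ]
  have hg := hF.gb_pos h
  have hq0 := hF.q_pos.le
  have hq1 : F.q ≤ 1 := by linarith [hF.q_le]
  have hka := gen_kasq_gb hF h
  obtain ⟨hw, hqw, -⟩ := anp_q hn hq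
  have hN : (5 : ℝ) ≤ n := by exact_mod_cast hn
  have hN0 : (0 : ℝ) ≤ n := by linarith
  have hw0 : 0 ≤ 1 / (n : ℝ) := by positivity
  have hD : (0 : ℝ) < 2 * n + 3 := by linarith
  obtain ⟨r, hr, hrg, hsq⟩ : ∃ r : ℝ, 0 < r ∧ F.gb co si = r ^ 2 ∧ Real.sqrt (F.gb co si) = r :=
    ⟨_, Real.sqrt_pos.2 hg, (Real.sq_sqrt hg.le).symm, rfl⟩
  have hγ := abs_nonneg co
  have hγ2 : |co| ^ 2 = co ^ 2 := sq_abs co
  have h2 : r ^ 2 = (1 - F.q) * |co| ^ 2 + F.q * si ^ 2 := by rw [hγ2]; exact hrg.symm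
  have hz : 0 ≤ si ^ 2 := sq_nonneg si
  have hc : 0 ≤ co ^ 2 := sq_nonneg co
  have hz1 : si ^ 2 ≤ 1 := by linarith
  have hc1 : co ^ 2 ≤ 1 := by linarith
  have hs' : 0 ≤ 1 - s := by linarith
  have hp : 0 ≤ 1 - F.q := by linarith
  have hP : 0 ≤ (1 - s) * si ^ 2 := mul_nonneg hs' hz
  have hr1 : r ≤ 1 := anp_le_one hq0 hq1 hz (by linarith) hr.le h2
  have hr2 : r ^ 2 ≤ 1 := pow_le_one₀ hr.le hr1
  have ha := anp_sign hq0 hγ hr.le h2 (n - 2)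
  have hb := anp_upper hw hq0 hqw hz hγ hr.le hr1 h2 (k := n - 2) (by omega)
    (by exact_mod_cast Nat.sub_le n 2)
  have hb' := anp_upper hw hq0 hqw hz hγ hr.le hr1 h2 (k := n) (by omega) le_rfl
  have e1 : r ^ (n - 2) = r ^ (n - 4) * r ^ 2 := by rw [← pow_add]; congr 1; omega
  have e2 : r ^ n = r ^ (n - 4) * r ^ 2 * r ^ 2 := by
    rw [← pow_add, ← pow_add]; congr 1; omega
  have e3 : |co| ^ n = |co| ^ (n - 2) * co ^ 2 := by rw [← hγ2, ← pow_add]; congr 1; omega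
  have hu0 : 0 ≤ r ^ (n - 4) := by positivity
  have hu1 : r ^ (n - 4) ≤ 1 := pow_le_one₀ hr.le hr1
  have hG : 0 ≤ |co| ^ (n - 2) := by positivity
  rw [hγ2] at ha h2
  rw [hrg] at hka
  rw [e1] at ha hb
  rw [e2, e3] at hb'
  unfold TN.BX TN.BY Fr.dl
  rw [hsq, hrg, e2, e3]
  generalize r ^ (n - 4) = u at ha hb hb' hu0 hu1 ⊢
  generalize |co| ^ (n - 2) = G at ha hb hb' hG ⊢
  have hk0 : 0 ≤ F.ka co si ^ 2 := sq_nonneg _
  generalize F.ka co si ^ 2 = k at hka hk0 ⊢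
  have hρ : 0 ≤ u * r ^ 2 := by positivity
  have hρ1 : u * r ^ 2 ≤ 1 := mul_le_one₀ hu1 (by positivity) hr2
  have hpc0 : (1 - F.q) * co ^ 2 ≤ r ^ 2 := by linarith [mul_nonneg hq0 hz]
  have hpc : (1 - F.q) * co ^ 2 * u ≤ u * r ^ 2 := by
    linarith [mul_le_mul_of_nonneg_right hpc0 hu0]
  have hk1 : (1 - F.q) * k * co ^ 2 ≤ si ^ 2 := by
    linarith [mul_le_mul_of_nonneg_left hpc0 hk0]
  have hk2 : k * (u * r ^ 2) ≤ 1 := by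
    have a1 : k * r ^ 2 * u ≤ 1 := mul_le_one₀ (hka.trans hz1) hu0 hu1
    linarith
  have hR : u * r ^ 2 * r ^ 2 ≤ u * r ^ 2 := by linarith [mul_le_mul_of_nonneg_left hr2 hρ]
  have t1' : 0 ≤ (2 * (n : ℝ) + 3) * (s * t1) := mul_nonneg hD.le (mul_nonneg hs0 B.t1_lo)
  have t2' : 0 ≤ (2 * (n : ℝ) + 3) * (s * t2) := mul_nonneg hD.le (mul_nonneg hs0 B.t2_lo)
  have l0 : 0 ≤ (2 * (n : ℝ) + 3) * (n * m.Bl + s * t2) := by
    have a1 : 0 ≤ (2 * (n : ℝ) + 3) * m.Bl := by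
      refine le_trans ?_ B.Bl_lo
      unfold TN.BL
      positivity
    linarith [mul_nonneg hN0 a1]
  have l1 : (2 * (n : ℝ) + 3) * (n * m.Bl + s * t2) + (2 * (n : ℝ) + 3) * (s * t1) ≤
      n * TN.BlH ((1 - s) * si ^ 2) s + s * TN.eb ((1 - s) * si ^ 2) s := by
    linarith [mul_le_mul_of_nonneg_left B.Bl_hi hN0, mul_le_mul_of_nonneg_left B.t_hi hs0]
  have l2 : (1 - s) * ((2 * (n : ℝ) + 3) * (n * m.Bl + s * t2)) ≤
      n * (1 + 3 / 5 * si ^ 2) + 19 / 50 + 13 / 10 * si ^ 2 := by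
    have a1 := mul_le_mul_of_nonneg_left (le_trans (le_add_of_nonneg_right t1') l1) hs'
    have a2 := mul_le_mul_of_nonneg_left (TN.anp_tBl hz hz1 hs0 hs1) hN0
    have a3 := TN.anp_tse hz hz1 hs0 hs1
    linarith only [a1, a2, a3]
  have l3 : (2 * (n : ℝ) + 3) * (n * m.Bl + s * t2) + (2 * (n : ℝ) + 3) * (s * t1) ≤
      n * (21 / 20 + 13 / 25 * si ^ 2) + 33 / 10 := by
    have a2 := mul_le_mul_of_nonneg_left (TN.anp_Bl hz hz1 hs0 hs1) hN0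
    have a3 := TN.anp_se hz hz1 hs0 hs1
    linarith only [l1, a2, a3]
  have l4 : (2 * (n : ℝ) + 3) * m.Wr ≤ (n + 2) * (53 / 50 + 113 / 100 * si ^ 2) :=
    B.Wr_hi.trans (mul_le_mul_of_nonneg_left (TN.anp_WH hz hz1 hs0 hs1) (by linarith))
  have l5 : (2 * (n : ℝ) + 3) * m.Be ≤ 123 / 100 + 11 / 20 * si ^ 2 :=
    B.Be_hi.trans (TN.anp_Be hz hz1 hs0 hs1)
  have l6 : (1 - s) * TN.ph s (si ^ 2) ≤ 19 / 25 + 13 / 5 * si ^ 2 := by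
    have a3 := TN.anp_tse hz hz1 hs0 hs1
    unfold TN.ph
    linarith only [a3]
  have l7 : TN.ph s (si ^ 2) ≤ 33 / 5 := by
    have a3 := TN.anp_se hz hz1 hs0 hs1
    unfold TN.ph
    linarith only [a3]
  have hCa := TN.anp_Ca_nonneg hz hs0 hs1
  have hE := TN.anp_e3_nonneg hz hs0 hs1
  have kX := anp_X hN0 hw hq0 hqw hz hz1 hc hu0 hu1 hρ hG ha hb hpc hk1 (mul_nonneg hs' l0) l2
    (mul_nonneg hs' hCa) (TN.anp_tCa hz hz1 hs0 hs1) (mul_nonneg hs' (by positivity))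
    (TN.anp_tkk hz hz1 hs0 hs1) l6 (mul_nonneg hs' hE) (TN.anp_te3 hz hz1 hs0 hs1)
  have kY := anp_Y hN0 hw hw0 hq0 hq1 hqw hz hz1 hc hc1 hu0 hu1 hρ hρ1 (by positivity) hR hb hb'
    hpc hk0 hk2 t1' l3 l4 l5 hCa (TN.anp_Ca hz hz1 hs0 hs1) l7 hE (TN.anp_e3 hz hz1 hs0 hs1)
  have hq1' : 0 ≤ 1 - F.q1 := by linarith [hF.sum, hF.X2_nonneg, sq_nonneg F.s]
  have fX := mul_le_mul_of_nonneg_left kX (mul_nonneg hq1' hq0)
  have fY := mul_le_mul_of_nonneg_left kY hF.q1_nonneg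
  have f := add_le_add fX fY
  rw [le_div_iff₀ hD, hX]
  have hr' := hr.ne'
  have hD' := hD.ne'
  have hN' : (n : ℝ) ≠ 0 := by linarith
  refine le_trans (le_of_eq ?_) (f.trans (le_of_eq ?_))
  · generalize TN.Ca s (si ^ 2) = Ca
    generalize TN.ph s (si ^ 2) = Ph
    generalize TN.ep3 ((1 - s) * si ^ 2) s = E
    generalize 2 * (n : ℝ) + 3 = D at hD'
    field_simp
    ring
  · field_simp

theorem aN_phi (hn : 5 ≤ n) {F : Fr} (hF : F.Ok) (hq : F.q ≤ 1 / (4 * (n : ℝ) ^ 2))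
    {co si s t1 t2 φ : ℝ} {m : Mo} (h : co ^ 2 + si ^ 2 = 1) (hs0 : 0 ≤ s) (hs1 : s ≤ 1)
    (B : TN.Box n ((1 - s) * si ^ 2) s m t1 t2 φ) :
    (Real.sqrt (F.gb co si) ^ n - |co| ^ n) * φ ≤ F.q * TN.BF n co si := by
  have hg := hF.gb_pos h
  have hq0 := hF.q_pos.le
  have hq1 : F.q ≤ 1 := by linarith [hF.q_le]
  obtain ⟨hw, hqw, hq20⟩ := anp_q hn hq
  have hN : (5 : ℝ) ≤ n := by exact_mod_cast hn
  have hN0 : (0 : ℝ) ≤ n := by linarith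
  have hw0 : 0 ≤ 1 / (n : ℝ) := by positivity
  obtain ⟨r, hr, hrg, hsq⟩ : ∃ r : ℝ, 0 < r ∧ F.gb co si = r ^ 2 ∧ Real.sqrt (F.gb co si) = r :=
    ⟨_, Real.sqrt_pos.2 hg, (Real.sq_sqrt hg.le).symm, rfl⟩
  have hγ := abs_nonneg co
  have hγ2 : |co| ^ 2 = co ^ 2 := sq_abs co
  have h2 : r ^ 2 = (1 - F.q) * |co| ^ 2 + F.q * si ^ 2 := by rw [hγ2]; exact hrg.symm
  have hz : 0 ≤ si ^ 2 := sq_nonneg si
  have hc : 0 ≤ co ^ 2 := sq_nonneg co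
  have hz1 : si ^ 2 ≤ 1 := by linarith
  have hr1 : r ≤ 1 := anp_le_one hq0 hq1 hz (by linarith) hr.le h2
  have hn2 : ((n - 2 : ℕ) : ℝ) ≤ n := by exact_mod_cast Nat.sub_le n 2
  have hb := anp_upper hw hq0 hqw hz hγ hr.le hr1 h2 (k := n - 2) (by omega) hn2
  have hd := anp_diff hγ hr.le h2 (k := n) (by omega)
  have hl := anp_lower hq0 hq1 hz hγ hr.le h2 (k := n - 2)
    ((mul_le_mul_of_nonneg_right hn2 hq0).trans hq20)
  have e3 : |co| ^ n = |co| ^ (n - 2) * co ^ 2 := by rw [← hγ2, ← pow_add]; congr 1; omega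
  have hρ : 0 ≤ r ^ (n - 2) := by positivity
  have hG : 0 ≤ |co| ^ (n - 2) := by positivity
  have φ0 : 12 / 13 - 7 / 13 * si ^ 2 ≤ φ := by
    linarith [B.ph_lo, mul_nonneg hs0 hz]
  have φ1 : φ ≤ 1 := B.ph_hi
  have φ2 : 0 ≤ 12 / 13 - 7 / 13 * si ^ 2 := by linarith
  have e4 : (si ^ 2) ^ 2 / (8 * (n : ℝ)) = si ^ 2 * (si ^ 2 * (1 / n) / 8) := by
    have hN' : (n : ℝ) ≠ 0 := by linarith
    field_simp
  unfold TN.BF
  rw [hγ2] at hd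
  rw [hsq, e4]
  refine (mul_le_mul_of_nonneg_right hd (φ2.trans φ0)).trans ?_
  rw [e3]
  generalize r ^ (n - 2) = ρ at hb hl hρ ⊢
  generalize |co| ^ (n - 2) = G at hb hl hG ⊢
  generalize 1 / (n : ℝ) = w at hb ⊢
  generalize si ^ 2 = z at hb hz φ0 φ2 ⊢
  generalize co ^ 2 = c at hc ⊢
  have a1 : z * ρ * φ ≤ z * ρ * 1 := mul_le_mul_of_nonneg_left φ1 (mul_nonneg hz hρ)
  have a2 := mul_le_mul_of_nonneg_left hb hz
  have a3 : 19 / 20 * G * (12 / 13 - 7 / 13 * z) ≤ ρ * φ := mul_le_mul hl φ0 φ2 hρ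
  have a4 := mul_le_mul_of_nonneg_left a3 hc
  have a5 : (z - c) * ρ * φ ≤
      z * G + z * (z * w / 8) - 19 / 20 * (12 / 13 - 7 / 13 * z) * (G * c) := by
    linarith only [a1, a2, a4]
  have a6 := mul_le_mul_of_nonneg_left a5 (mul_nonneg hN0 hq0)
  linarith only [a6]

end Pool.Agent.Ped
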