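import Pool.Agent.P.MP_e09f5c_gt.ANDefs
import Pool.Agent.P.MP_e09f5c_gt.ANPoly

/-! The conditions at one angle for `5 ≤ n`. -/

namespace Pool.Agent.Ped

theorem ans_Wq_scale (n : ℕ) (σ z k t2 g e1 e2 : ℝ) (m : Mo) (C : Ch) :
    Wq n σ z ⟨k * m.Wr, k * m.Be, k * m.Bl, k * m.mup, k * m.m22, k * m.m40, e1, e2⟩
      ⟨k * C.Ca, k * C.Cz, k * C.fb, k * C.kk, k * C.ph, k * C.pz⟩ (k * t2) g
      = k * Wq n σ z m C t2 g := by
  unfold Wq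
  ring

/-- The conditions at one angle are homogeneous. -/
theorem ans_scale {n : ℕ} {q0 σ z t1 t2 ε3 ε4 x x' η α1 α2 α3 α4 : ℝ} {m : Mo} {C : Ch}
    (h : SA n q0 σ z m C t1 t2 ε3 ε4 x x' η α1 α2 α3 α4) {k : ℝ} (hk : 0 ≤ k) (e1 e2 : ℝ) :
    SA n q0 σ z ⟨k * m.Wr, k * m.Be, k * m.Bl, k * m.mup, k * m.m22, k * m.m40, e1, e2⟩
      ⟨k * C.Ca, k * C.Cz, k * C.fb, k * C.kk, k * C.ph, k * C.pz⟩ (k * t1) (k * t2)
      (k * ε3) (k * ε4) x x' η (k * α1) (k * α2) (k * α3) (k * α4) := by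
  have sc : ∀ {a b a' b' : ℝ}, a ≤ b → a' = k * a → b' = k * b → a' ≤ b' := by
    intro a b a' b' hab ha hb
    rw [ha, hb]
    exact mul_le_mul_of_nonneg_left hab hk
  have sc2 : ∀ {a b a' b' : ℝ}, a ≤ b → a' = k ^ 2 * a → b' = k ^ 2 * b → a' ≤ b' := by
    intro a b a' b' hab ha hb
    rw [ha, hb]
    exact mul_le_mul_of_nonneg_left hab (sq_nonneg k)
  exact
    { t1_nonneg := mul_nonneg hk h.t1_nonneg
      t2_nonneg := mul_nonneg hk h.t2_nonneg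
      Bl_nonneg := mul_nonneg hk h.Bl_nonneg
      m22_nonneg := mul_nonneg hk h.m22_nonneg
      ε3_nonneg := mul_nonneg hk h.ε3_nonneg
      hε3 := sc h.hε3 (by dsimp only; ring) rfl
      ε4_nonneg := mul_nonneg hk h.ε4_nonneg
      hε4 := sc h.hε4 (by dsimp only; ring) rfl
      x_pos := h.x_pos
      x'_pos := h.x'_pos
      Ca1 := sc h.Ca1 (by dsimp only; ring) rfl
      Ca2 := sc h.Ca2 (by dsimp only; ring) rfl
      fb_nonneg := mul_nonneg hk h.fb_nonneg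
      Cb1 := sc h.Cb1 (by dsimp only; ring) (by dsimp only; ring)
      Cb2 := sc h.Cb2 (by dsimp only; ring) (by dsimp only; ring)
      Cb3 := sc h.Cb3 (by dsimp only; ring) (by dsimp only; ring)
      hph := sc h.hph (by ring) rfl
      kk_nonneg := mul_nonneg hk h.kk_nonneg
      Cz_nonneg := mul_nonneg hk h.Cz_nonneg
      W0 := by rw [ans_Wq_scale]; exact mul_nonneg hk h.W0
      W1 := by rw [ans_Wq_scale]; exact mul_nonneg hk h.W1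
      hW0 := by rw [ans_Wq_scale]; exact sc2 h.hW0 (by ring) (by dsimp only; ring)
      hW1 := by rw [ans_Wq_scale]; exact sc2 h.hW1 (by ring) (by dsimp only; ring)
      η_pos := h.η_pos
      hH := sc h.hH (by dsimp only; ring) (by dsimp only; ring)
      h1 := sc h.h1 rfl (by dsimp only; ring)
      h2 := sc h.h2 rfl (by dsimp only; ring)
      h3 := sc h.h3 rfl (by dsimp only; ring)
      h4 := sc h.h4 (by dsimp only; ring) rfl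
      K1 := sc h.K1 (by ring) (by ring)
      K2 := sc h.K2 (by ring) (by ring)
      K3 := sc h.K3 (by ring) (by ring)
      K4 := sc h.K4 (by ring) (by ring) }

namespace TN

noncomputable def ansS (s z : ℝ) : ℝ := BL ((1 - s) * z) + Ca s z
noncomputable def ansIg (z : ℝ) : ℝ := 1 + (1 - 1 / 100) * z + ((1 - 1 / 100) * z) ^ 2
noncomputable def ansW5 (s z g : ℝ) : ℝ :=
  g * (7 * (1 + (1 - s) * z / 4 - Ca s z) + 4 * (1 - z) * ansS s z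
      - s * eb ((1 - s) * z) s * (1 - 4 * (1 - z) / 5))
    - 2 * z * (1 - z) * Cz s z + z * (16 / 5) * ansS s z
noncomputable def ansWd (s z g : ℝ) : ℝ :=
  g * (1 + (1 - s) * z / 4 - Ca s z + (1 - z) * ansS s z) + 24 / 25 * z * ansS s z
noncomputable def ansA5 (s z : ℝ) : ℝ :=
  7 * (1 + (1 - s) * z / 4) - 6 * Ca s z - 2 * z * Cz s z + 3 * (1 - z) * ansS s z
    + z * ansS s z * (9 / 5) * ansIg z + BL ((1 - s) * z) - ph s z * z
noncomputable def ansAd (s z : ℝ) : ℝ :=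
  1 + (1 - s) * z / 4 - Ca s z + (1 - z) * ansS s z + 21 / 25 * z * ansS s z * ansIg z
noncomputable def ansA2 (s z : ℝ) : ℝ :=
  BL ((1 - s) * z) + Ca s z + ph s z * z - ph s z * (1 - z) * (4 + 2 * z)
    - 2 * z * (1 - z) * pz s z
noncomputable def ansA3 (s z : ℝ) : ℝ := 7 * (1 + (1 - s) * z / 4) + 5 * BL ((1 - s) * z)
noncomputable def ansA3d (s z : ℝ) : ℝ := 1 + (1 - s) * z / 4 + BL ((1 - s) * z)
noncomputable def ansA4 (s z : ℝ) : ℝ :=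
  s * eb ((1 - s) * z) s * (1 + z)
    + 8 * s ^ 2 * ((6 - 3 * (1 - z)) * z * (1 - z + 1 / 100) - z * z * (4 / 5) + 2 * z * (1 - z))
noncomputable def ansA4d (s z : ℝ) : ℝ := 8 * s ^ 2 * z * z * (1 - z + 1 / 100 - 21 / 25)

section Poly

variable {z s : ℝ} (h1 : 0 ≤ z) (h2 : z ≤ 1) (h3 : 0 ≤ s) (h4 : s ≤ 1)

include h1 h2 h3 h4

theorem sN_Ca1 : 0 ≤ Ca s z - muH ((1 - s) * z) s - ep4 ((1 - s) * z) s
    - 2 * ep3 ((1 - s) * z) s :=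
  (ans_Ca1 h1 h2 h3 h4).trans_eq (by unfold Ca muH ep4 ep3; ring)

theorem sN_Ca2 : 0 ≤ Ca s z - 3 / 2 * n22H ((1 - s) * z) s - 2 * ep3 ((1 - s) * z) s :=
  (ans_Ca2 h1 h2 h3 h4).trans_eq (by unfold Ca n22H ep3; ring)

theorem sN_Cb1 : 0 ≤ Ca s z - m40H ((1 - s) * z) s - n22H ((1 - s) * z) s
    - ep3 ((1 - s) * z) s :=
  (ans_Cb1 h1 h2 h3 h4).trans_eq (by unfold Ca m40H n22H ep3; ring)

theorem sN_Cb3 : 0 ≤ Ca s z - 3 / 5 * n22H ((1 - s) * z) s :=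
  (ans_Cb3 h1 h2 h3 h4).trans_eq (by unfold Ca n22H; ring)

theorem sN_W0 : 0 ≤ 8 * ansW5 s z (1 - z) - eb ((1 - s) * z) s * eb ((1 - s) * z) s :=
  (ans_W0 h1 h2 h3 h4).trans_eq (by unfold ansW5 ansS Ca Cz BL eb; ring)

theorem sN_W1 : 0 ≤ 8 * ansW5 s z (1 - z + 1 / 100 * (2 * z - 1))
    - eb ((1 - s) * z) s * eb ((1 - s) * z) s :=
  (ans_W1 h1 h2 h3 h4).trans_eq (by unfold ansW5 ansS Ca Cz BL eb; ring)

theorem sN_Wd0 : 0 ≤ ansWd s z (1 - z) :=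
  (ans_Wd0 h1 h2 h3 h4).trans_eq (by unfold ansWd ansS Ca BL; ring)

theorem sN_Wd1 : 0 ≤ ansWd s z (1 - z + 1 / 100 * (2 * z - 1)) :=
  (ans_Wd1 h1 h2 h3 h4).trans_eq (by unfold ansWd ansS Ca BL; ring)

theorem sN_Ad : 0 ≤ ansAd s z :=
  (ans_Ad h1 h2 h3 h4).trans_eq (by unfold ansAd ansS ansIg Ca BL; ring)

theorem sN_Kd : 0 ≤ s * ansA3d s z - (1 - s) * ansA4d s z :=
  (ans_Kd h1 h2 h3 h4).trans_eq (by unfold ansA3d ansA4d BL; ring)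

theorem sN_h1 : 0 ≤ ansA5 s z - 6 / 5 :=
  (ans_h1 h1 h2 h3 h4).trans_eq (by unfold ansA5 ansS ansIg Ca Cz ph BL eb; ring)

theorem sN_K1 : 0 ≤ (1 - s) * ((1 - z) * (6 / 5) + z * ansA2 s z
    - z * (1 - z) * (ansA2 s z - 6 / 5) / 2 - ansA4 s z) + s * ansA3 s z :=
  (ans_K1 h1 h2 h3 h4).trans_eq (by unfold ansA2 ansA3 ansA4 Ca ph pz BL eb; ring)

theorem sN_K2 : 0 ≤ (1 - s) * ((1 - z) * (6 / 5) + z * ansA2 s z
    + z * (1 - z) * (ansA2 s z - 6 / 5) / 2 - ansA4 s z) + s * ansA3 s z :=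
  (ans_K2 h1 h2 h3 h4).trans_eq (by unfold ansA2 ansA3 ansA4 Ca ph pz BL eb; ring)

theorem sN_K3 : 0 ≤ 19 * ((1 - s) * ((1 - z) * (6 / 5) + z * ansA2 s z
    - z * (1 - z) * (ansA2 s z - 6 / 5) / 2 - ansA4 s z) + s * ansA3 s z)
    + (z * (6 / 5) + (1 - z) * ansA2 s z - 2 * (ansA2 s z - 6 / 5)) :=
  (ans_K3 h1 h2 h3 h4).trans_eq (by unfold ansA2 ansA3 ansA4 Ca ph pz BL eb; ring)

theorem sN_K4 : 0 ≤ 19 * ((1 - s) * ((1 - z) * (6 / 5) + z * ansA2 s z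
    + z * (1 - z) * (ansA2 s z - 6 / 5) / 2 - ansA4 s z) + s * ansA3 s z)
    + (z * (6 / 5) + (1 - z) * ansA2 s z + 2 * (ansA2 s z - 6 / 5)) :=
  (ans_K4 h1 h2 h3 h4).trans_eq (by unfold ansA2 ansA3 ansA4 Ca ph pz BL eb; ring)

end Poly

/-- The reciprocal of the dimension. -/
theorem sN_inv {N : ℝ} (hN : 5 ≤ N) : ∃ w : ℝ, 0 ≤ w ∧ w ≤ 1 / 5 ∧ 1 / 5 - (N - 5) / 25 ≤ w ∧
    N * w = 1 ∧ (∀ y : ℝ, y / N = y * w) ∧ (N - 2) ^ 2 * w = N - 4 + 4 * w ∧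
    (N - 1) ^ 2 * w = N - 2 + w := by
  have h0 : 0 < N := by linarith
  have e : N * N⁻¹ = 1 := mul_inv_cancel₀ h0.ne'
  refine ⟨N⁻¹, (inv_pos.2 h0).le, ?_, ?_, e, fun y => div_eq_mul_inv y N, ?_, ?_⟩
  · rw [inv_eq_one_div]
    exact one_div_le_one_div_of_le (by norm_num) hN
  · rw [inv_eq_one_div, le_div_iff₀ h0]
    nlinarith [sq_nonneg (N - 5)]
  · linear_combination (N - 4) * e
  · linear_combination (N - 2) * e

/-- Lower bound for the quantity `Wq`, in the unit `1 / (2 n + 3)`. -/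
theorem sN_Wq {n : ℕ} (hn : (5 : ℝ) ≤ n) {s z T2 g : ℝ} {M : Mo} (hs0 : 0 ≤ s) (hs1 : s ≤ 1)
    (hz0 : 0 ≤ z) (hz1 : z ≤ 1) (hg : 0 ≤ g) (hW : (n + 2) * (1 + (1 - s) * z / 4) ≤ M.Wr)
    (hB : BL ((1 - s) * z) ≤ M.Bl) (h2 : 0 ≤ T2) (h2' : T2 ≤ eb ((1 - s) * z) s) :
    ansW5 s z g + (n - 5) * ansWd s z g
      ≤ Wq n s z M ⟨Ca s z, Cz s z, 0, 8 * s ^ 2, ph s z, pz s z⟩ T2 g := by
  obtain ⟨w, w0, w1, w2, w3, w4, -, w6⟩ := sN_inv hn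
  have hP : 0 ≤ (1 - s) * z := mul_nonneg (sub_nonneg.2 hs1) hz0
  have hc : 0 ≤ 1 - z := sub_nonneg.2 hz1
  have hS : 0 ≤ ansS s z := by unfold ansS BL Ca; positivity
  have hsT : 0 ≤ s * T2 := mul_nonneg hs0 h2
  have hu : 0 ≤ s * T2 * w := mul_nonneg hsT w0
  have hd : 0 ≤ M.Bl - BL ((1 - s) * z) := sub_nonneg.2 hB
  have a1 : 0 ≤ ((n : ℝ) - 1) * (1 - z) * (M.Bl - BL ((1 - s) * z)) :=
    mul_nonneg (mul_nonneg (by linarith only [hn]) hc) hd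
  have a2 : 0 ≤ (1 - z) * (s * T2) * (1 / 5 - w) :=
    mul_nonneg (mul_nonneg hc hsT) (sub_nonneg.2 w1)
  have a3 : 0 ≤ s * (eb ((1 - s) * z) s - T2) * (1 - 4 * (1 - z) / 5) :=
    mul_nonneg (mul_nonneg hs0 (sub_nonneg.2 h2')) (by linarith only [hz0])
  have a4 : ((n : ℝ) - 1) * (1 - z) * (s * T2 * w) = (1 - z) * (s * T2) * (1 - w) := by
    linear_combination (1 - z) * (s * T2) * w3
  have a5 : 0 ≤ M.Wr - s * T2 - (n + 2) * Ca s z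
      + (n - 1) * (1 - z) * (M.Bl + s * T2 * w + Ca s z)
      - ((7 * (1 + (1 - s) * z / 4 - Ca s z) + 4 * (1 - z) * ansS s z
        - s * eb ((1 - s) * z) s * (1 - 4 * (1 - z) / 5))
        + (n - 5) * (1 + (1 - s) * z / 4 - Ca s z + (1 - z) * ansS s z)) := by
    unfold ansS
    linarith only [a1, a2, a3, a4, hW]
  have a6 := mul_nonneg hg a5
  have a7 : 0 ≤ z * ((n : ℝ) - 2 + w) * (M.Bl - BL ((1 - s) * z) + s * T2 * w) :=
    mul_nonneg (mul_nonneg hz0 (by linarith only [hn, w0])) (add_nonneg hd hu)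
  have a8 : 0 ≤ z * (w - (1 / 5 - ((n : ℝ) - 5) / 25)) * ansS s z :=
    mul_nonneg (mul_nonneg hz0 (sub_nonneg.2 w2)) hS
  have a9 : z * ((n : ℝ) - 1) ^ 2 * w = z * ((n : ℝ) - 2 + w) := by rw [mul_assoc, w6]
  unfold Wq ansW5 ansWd
  dsimp only
  rw [w4 (s * T2), w4 (z * ((n : ℝ) - 1) ^ 2), a9]
  unfold ansS at a6 a8 ⊢
  linarith only [a6, a7, a8]

theorem sN_hW {s T1 T2 E W5 Wd W t : ℝ} (h0 : 0 ≤ T1 + T2) (h1 : T1 + T2 ≤ E)
    (h2 : 0 ≤ 8 * W5 - E * E) (hd : 0 ≤ Wd) (ht : 0 ≤ t) (h3 : W5 + t * Wd ≤ W) :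
    0 ≤ W ∧ (s * T1 + s * T2) ^ 2 ≤ 8 * s ^ 2 * W := by
  have a1 : (T1 + T2) * (T1 + T2) ≤ E * E := mul_self_le_mul_self h0 h1
  have a2 : 0 ≤ (T1 + T2) * (T1 + T2) := mul_self_nonneg _
  have a3 : (T1 + T2) * (T1 + T2) ≤ 8 * W := by linarith only [a1, h2, h3, mul_nonneg ht hd]
  have a4 := mul_le_mul_of_nonneg_left a3 (sq_nonneg s)
  exact ⟨by linarith only [a2, a3], by linarith only [a4]⟩

/-- The conditions in the unit `1 / (2 n + 3)`. -/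
theorem sN_hat {n : ℕ} (hn : (5 : ℝ) ≤ n) {s z T1 T2 : ℝ} {M : Mo} (hs0 : 0 ≤ s) (hs1 : s ≤ 1)
    (hz0 : 0 ≤ z) (hz1 : z ≤ 1) (hW : (n + 2) * (1 + (1 - s) * z / 4) ≤ M.Wr)
    (hBe : BL ((1 - s) * z) ≤ M.Be) (hBl : BL ((1 - s) * z) ≤ M.Bl)
    (h3 : M.Be - M.Bl ≤ ep3 ((1 - s) * z) s) (h4 : M.Bl - M.Be ≤ ep4 ((1 - s) * z) s)
    (hmu : M.mup + M.m22 ≤ muH ((1 - s) * z) s) (hm0 : 0 ≤ M.m22)
    (hm : n * M.m22 ≤ n22H ((1 - s) * z) s) (h40 : M.m40 ≤ m40H ((1 - s) * z) s)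
    (hT1 : 0 ≤ T1) (hT2 : 0 ≤ T2) (hT : T1 + T2 ≤ eb ((1 - s) * z) s) :
    SA n (1 / 100) s z M ⟨Ca s z, Cz s z, 0, 8 * s ^ 2, ph s z, pz s z⟩ T1 T2
      (ep3 ((1 - s) * z) s) (ep4 ((1 - s) * z) s) 1 (1 / 2) 1
      (6 / 5) (ansA2 s z) (ansA3 s z + (n - 5) * ansA3d s z)
      (ansA4 s z + (n - 5) * ansA4d s z) := by
  obtain ⟨w, w0, w1, w2, w3, w4, w5, -⟩ := sN_inv hn
  have ht : 0 ≤ (n : ℝ) - 5 := sub_nonneg.2 hn
  have hP : 0 ≤ (1 - s) * z := mul_nonneg (sub_nonneg.2 hs1) hz0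
  have hc : 0 ≤ 1 - z := sub_nonneg.2 hz1
  have hS : 0 ≤ ansS s z := by unfold ansS BL Ca; positivity
  have he3 : 0 ≤ ep3 ((1 - s) * z) s := by unfold ep3; positivity
  have he4 : 0 ≤ ep4 ((1 - s) * z) s := by unfold ep4; positivity
  have hph : 0 ≤ ph s z := by unfold ph eb; positivity
  have hig : 0 ≤ ansIg z - 1 := by
    have : ansIg z - 1 = (1 - 1 / 100) * z + ((1 - 1 / 100) * z) ^ 2 := by unfold ansIg; ring
    rw [this]
    positivity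
  have hig0 : 0 ≤ ansIg z := by linarith only [hig]
  have hsT1 : 0 ≤ s * T1 := mul_nonneg hs0 hT1
  have hsT2 : 0 ≤ s * T2 := mul_nonneg hs0 hT2
  have hu : 0 ≤ s * T2 * w := mul_nonneg hsT2 w0
  have hd : 0 ≤ M.Bl - BL ((1 - s) * z) + s * T2 * w := by linarith only [hBl, hu]
  have hE : 0 ≤ s * (eb ((1 - s) * z) s - (T1 + T2)) := mul_nonneg hs0 (sub_nonneg.2 hT)
  have hT2' : T2 ≤ eb ((1 - s) * z) s := by linarith only [hT, hT1]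
  have hnu : 0 ≤ (n : ℝ) - 4 + 4 * w := by linarith only [hn, w0]
  have hw2 : 0 ≤ w - (1 / 5 - ((n : ℝ) - 5) / 25) := sub_nonneg.2 w2
  have hK := mul_nonneg ht (sN_Kd hz0 hz1 hs0 hs1)
  have v0 := sN_hW (s := s) (add_nonneg hT1 hT2) hT (sN_W0 hz0 hz1 hs0 hs1)
    (sN_Wd0 hz0 hz1 hs0 hs1) ht (sN_Wq hn hs0 hs1 hz0 hz1 hc hW hBl hT2 hT2')
  have v1 := sN_hW (s := s) (add_nonneg hT1 hT2) hT (sN_W1 hz0 hz1 hs0 hs1)
    (sN_Wd1 hz0 hz1 hs0 hs1) ht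
    (sN_Wq hn hs0 hs1 hz0 hz1 (by linarith only [hz1]) hW hBl hT2 hT2')
  refine
    { t1_nonneg := hT1
      t2_nonneg := hT2
      Bl_nonneg := le_trans (by unfold BL; positivity) hBl
      m22_nonneg := hm0
      ε3_nonneg := he3
      hε3 := ?_
      ε4_nonneg := he4
      hε4 := h4
      x_pos := one_pos
      x'_pos := by norm_num
      Ca1 := ?_
      Ca2 := ?_
      fb_nonneg := le_rfl
      Cb1 := ?_
      Cb2 := ?_
      Cb3 := ?_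
      hph := ?_
      kk_nonneg := ?_
      Cz_nonneg := ?_
      W0 := v0.1
      W1 := v1.1
      hW0 := v0.2
      hW1 := v1.2
      η_pos := one_pos
      hH := ?_
      h1 := ?_
      h2 := ?_
      h3 := ?_
      h4 := ?_
      K1 := by linarith only [hK, sN_K1 hz0 hz1 hs0 hs1]
      K2 := by linarith only [hK, sN_K2 hz0 hz1 hs0 hs1]
      K3 := by linarith only [hK, sN_K3 hz0 hz1 hs0 hs1]
      K4 := by linarith only [hK, sN_K4 hz0 hz1 hs0 hs1] }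
  · rw [w4]
    linarith only [h3, hu]
  · dsimp only
    linarith only [hmu, sN_Ca1 hz0 hz1 hs0 hs1]
  · dsimp only
    linarith only [hm, sN_Ca2 hz0 hz1 hs0 hs1]
  · dsimp only
    linarith only [hm, h40, sN_Cb1 hz0 hz1 hs0 hs1]
  · dsimp only
    linarith only [hmu, he3, he4, sN_Ca1 hz0 hz1 hs0 hs1]
  · have e : (1 : ℝ) + 1 / (1 / 2) = 3 := by norm_num
    have a := mul_nonneg ht hm0
    dsimp only
    rw [e]
    linarith only [a, hm, sN_Cb3 hz0 hz1 hs0 hs1]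
  · dsimp only
    unfold ph
    linarith only [hE]
  · dsimp only
    positivity
  · have a : 0 ≤ 1 - s := sub_nonneg.2 hs1
    dsimp only
    unfold Cz
    positivity
  · have a := mul_nonneg (add_nonneg hd hS) hnu
    dsimp only
    rw [w4 (s * T2), w4 (((n : ℝ) - 2) ^ 2), w5]
    unfold ansS at a
    linarith only [a]
  · have a1 : 0 ≤ ((n : ℝ) - 2) * (1 - z) * (M.Bl - BL ((1 - s) * z) + s * T2 * w) :=
      mul_nonneg (mul_nonneg (by linarith only [hn]) hc) hd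
    have a2 := mul_nonneg (mul_nonneg (mul_nonneg hz0 hd) hnu) hig0
    have a3 := mul_nonneg (mul_nonneg (mul_nonneg hz0 hS) hw2) hig0
    have a4 := mul_nonneg ht (sN_Ad hz0 hz1 hs0 hs1)
    have a5 := sN_h1 hz0 hz1 hs0 hs1
    dsimp only
    rw [w4 (s * T2), w4 (((n : ℝ) - 2) ^ 2), w5]
    unfold ansAd at a4
    unfold ansA5 at a5
    unfold ansS ansIg at *
    linarith only [a1, a2, a3, a4, a5, hW, hBe, hsT1]
  · have a1 := mul_nonneg (mul_nonneg hz0 hnu) hig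
    have a2 := mul_nonneg hz0 w0
    have a3 : 0 ≤ ((n : ℝ) - 2) * (1 - z) + z * ((n : ℝ) - 4 + 4 * w) * ansIg z - (n + 2)
        + (4 + 2 * z) := by linarith only [a1, a2]
    have a4 := mul_nonneg (mul_nonneg hph hc) a3
    dsimp only
    rw [w4 (((n : ℝ) - 2) ^ 2), w5]
    unfold ansA2
    unfold ansIg at a4
    linarith only [a4, hBe]
  · have a := mul_le_mul_of_nonneg_left hBl (by linarith only [hn] : (0 : ℝ) ≤ n)
    unfold ansA3 ansA3d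
    linarith only [a, hW]
  · have a1 := mul_nonneg hE (by linarith only [hz0] : 0 ≤ 1 + z)
    have a2 := mul_nonneg hsT2 hz0
    have a3 := mul_nonneg (mul_nonneg (sq_nonneg s) (sq_nonneg z)) hw2
    dsimp only
    rw [w4 (((n : ℝ) - 2) ^ 2), w5]
    unfold ansA4 ansA4d
    linarith only [a1, a2, a3]

end TN

theorem saN {n : ℕ} (hn : 5 ≤ n) {s z t1 t2 φ : ℝ} {m : Mo} (hs0 : 0 ≤ s) (hs1 : s ≤ 1)
    (hz0 : 0 ≤ z) (hz1 : z ≤ 1) (B : TN.Box n ((1 - s) * z) s m t1 t2 φ) : ∃ α1 α2 α3 α4 : ℝ,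
    SA n (1 / 100) s z m ⟨TN.Ca s z / (2 * n + 3), TN.Cz s z / (2 * n + 3), 0,
        8 * s ^ 2 / (2 * n + 3), TN.ph s z / (2 * n + 3), TN.pz s z / (2 * n + 3)⟩ t1 t2
      (TN.ep3 ((1 - s) * z) s / (2 * n + 3)) (TN.ep4 ((1 - s) * z) s / (2 * n + 3)) 1 (1 / 2) 1
      α1 α2 α3 α4 := by
  have hN : (5 : ℝ) ≤ n := by exact_mod_cast hn
  have hD : (0 : ℝ) < 2 * n + 3 := by linarith only [hN]
  have hat := TN.sN_hat hN (T1 := (2 * n + 3) * t1) (T2 := (2 * n + 3) * t2)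
    (M := ⟨(2 * n + 3) * m.Wr, (2 * n + 3) * m.Be, (2 * n + 3) * m.Bl, (2 * n + 3) * m.mup,
      (2 * n + 3) * m.m22, (2 * n + 3) * m.m40, 0, 0⟩) hs0 hs1 hz0 hz1 B.Wr_lo B.Be_lo B.Bl_lo
    (by dsimp only; linarith only [B.BeBl]) (by dsimp only; linarith only [B.BlBe])
    (by dsimp only; linarith only [B.mu_hi]) (mul_nonneg hD.le B.m22_lo)
    (by dsimp only; linarith only [B.m22_hi]) B.m40_hi (mul_nonneg hD.le B.t1_lo)
    (mul_nonneg hD.le B.t2_lo) (by linarith only [B.t_hi])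
  have key := ans_scale hat (inv_nonneg.2 hD.le) m.e1 m.e2
  dsimp only at key
  simp only [inv_mul_cancel_left₀ hD.ne', mul_zero] at key
  simp only [inv_mul_eq_div] at key
  exact ⟨_, _, _, _, key⟩

end Pool.Agent.Ped
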