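import Pool.Agent.P.MP_e09f5c_gt.ThetaN
import Pool.Agent.P.MP_e09f5c_gt.WBound

/-! Lower bounds for the Crofton constant. -/

open MeasureTheory

namespace Pool.Agent.Ped

variable {n : ℕ}

theorem khn_star (n : ℕ) : 2 * kh n = WZ n 0 * nphi n 0 1 := by
  have h := star_identity n (a := 0) (b := 1) (by norm_num)
  simp only [zero_mul] at h
  rw [← h, intervalIntegral.integral_mul_const, WZ]
  simp only [pow_zero, mul_one]

theorem khn_m1 (hn : 1 ≤ n) : mono n 1 1 0 = 1 / (2 * n + 3) := by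
  have h := mono_succ2 hn 1 0 (k := 0) (by omega)
  rw [mono_one hn] at h
  rw [h]
  push_cast
  congr 1 <;> ring

theorem khn_m2 (hn : 1 ≤ n) : mono n 1 2 0 = 3 / ((2 * n + 3) * (2 * n + 5)) := by
  have h := mono_succ2 hn 1 1 (k := 0) (by omega)
  rw [khn_m1 hn] at h
  rw [h]
  push_cast
  field_simp
  ring

theorem khn_m3 (hn : 1 ≤ n) :
    mono n 1 3 0 = 15 / ((2 * n + 3) * (2 * n + 5) * (2 * n + 7)) := by
  have h := mono_succ2 hn 1 2 (k := 0) (by omega)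
  rw [khn_m2 hn] at h
  rw [h]
  push_cast
  field_simp
  ring

theorem khn_phi (hn : 1 ≤ n) :
    1 - mono n 1 1 0 / 2 - mono n 1 2 0 / 8 - 3 / 8 * mono n 1 3 0 ≤ nphi n 0 1 := by
  have hi : ∀ j : ℕ, Integrable (fun p : ℝ × ℝ => p.1 ^ 2 * (p.2 ^ 2) ^ j) (mu n) := fun j =>
    integrable_cont hn (by fun_prop)
  have hm : ∀ j : ℕ, mono n 1 j 0 = ∫ p : ℝ × ℝ, p.1 ^ 2 * (p.2 ^ 2) ^ j ∂mu n := fun j => by
    simp only [mono, pow_one, zpow_zero, mul_one]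
  have i1 := (hi 1).div_const 2
  have i2 := (hi 2).div_const 8
  have i3 := (hi 3).const_mul (3 / 8)
  have i01 : Integrable (fun p : ℝ × ℝ =>
      p.1 ^ 2 * (p.2 ^ 2) ^ 0 - p.1 ^ 2 * (p.2 ^ 2) ^ 1 / 2) (mu n) := (hi 0).sub i1
  have i012 : Integrable (fun p : ℝ × ℝ =>
      p.1 ^ 2 * (p.2 ^ 2) ^ 0 - p.1 ^ 2 * (p.2 ^ 2) ^ 1 / 2 - p.1 ^ 2 * (p.2 ^ 2) ^ 2 / 8)
      (mu n) := i01.sub i2
  have e : 1 - mono n 1 1 0 / 2 - mono n 1 2 0 / 8 - 3 / 8 * mono n 1 3 0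
      = ∫ p : ℝ × ℝ, (p.1 ^ 2 * (p.2 ^ 2) ^ 0 - p.1 ^ 2 * (p.2 ^ 2) ^ 1 / 2
        - p.1 ^ 2 * (p.2 ^ 2) ^ 2 / 8 - 3 / 8 * (p.1 ^ 2 * (p.2 ^ 2) ^ 3)) ∂mu n := by
    rw [integral_sub i012 i3, integral_sub i01 i2, integral_sub (hi 0) i1, integral_div,
      integral_div, integral_const_mul, ← hm, ← hm, ← hm, ← hm, mono_one hn]
  rw [e, nphi_mu hn]
  refine integral_mono_ae (i012.sub i3) (integrable_cont hn (by fun_prop)) ?_
  filter_upwards [mu_ae hn] with p hp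
  have h1 : p.2 ^ 2 ≤ 1 := by
    unfold lm at hp
    linarith only [hp, sq_nonneg p.1]
  have h2 := mul_le_mul_of_nonneg_left (sqrt_lo (sq_nonneg p.2) h1) (sq_nonneg p.1)
  simp only [zero_mul, one_mul, zero_add]
  linarith only [h2]

/-- The defect of the lower bound. -/
noncomputable def khnU (N : ℝ) : ℝ := (6 * N + 66) / (8 * (2 * N + 5) * (2 * N + 7))

theorem khn_hat (hn : 1 ≤ n) :
    2 * n + 5 / 2 - khnU n ≤ (2 * n + 3) * nphi n 0 1 := by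
  have h := khn_phi hn
  rw [khn_m1 hn, khn_m2 hn, khn_m3 hn] at h
  have hM : (0 : ℝ) < 2 * n + 3 := by positivity
  refine le_trans (le_of_eq ?_) (mul_le_mul_of_nonneg_left h hM.le)
  unfold khnU
  field_simp
  ring

theorem khnU_le {N : ℝ} (hN : 0 ≤ N) : khnU N ≤ 1 / 2 := by
  unfold khnU
  rw [div_le_iff₀ (by positivity)]
  have := mul_nonneg hN hN
  linarith only [this, hN]

theorem khnU_key {N : ℝ} (hN : 0 < N) :
    (4 * N + 5) * khnU N ≤ 1 / 4 + 4 / 25 / N ^ 2 * ((2 * N + 3) * (2 * N + 2)) := by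
  have e : 1 / 4 + 4 / 25 / N ^ 2 * ((2 * N + 3) * (2 * N + 2)) - (4 * N + 5) * khnU N
      = (N * ((N - 17 / 2) ^ 2 * (112 * N + 106) + 138 * N + 16299 / 2) + 6720)
        / (200 * N ^ 2 * (2 * N + 5) * (2 * N + 7)) := by
    unfold khnU
    field_simp
    ring
  rw [← sub_nonneg, e]
  positivity

theorem kh_lin (hn : 5 ≤ n) : (2 * n + 2) * WZ n 0 ≤ (2 * n + 3) * (2 * kh n) := by
  have h1 := khn_hat (n := n) (by omega)
  have h2 := khnU_le (Nat.cast_nonneg n : (0 : ℝ) ≤ n)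
  have h3 : (2 * n + 2 : ℝ) ≤ (2 * n + 3) * nphi n 0 1 := by linarith only [h1, h2]
  have h4 := mul_le_mul_of_nonneg_right h3 (WZ_pos n).le
  rw [khn_star]
  linarith only [h4]

theorem kh_sq (hn : 5 ≤ n) :
    (2 * n + 2) * (1 - 4 / 25 / (n : ℝ) ^ 2) * WZ n 0 ^ 2 ≤ (2 * n + 3) * (2 * kh n) ^ 2 := by
  have hN : (0 : ℝ) < n := by exact_mod_cast (by omega : 0 < n)
  have h1 := khn_hat (n := n) (by omega)
  have h2 := khnU_le hN.le
  have hk := khnU_key hN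
  have hM : (0 : ℝ) < 2 * n + 3 := by positivity
  have h3 : (2 * n + 5 / 2 - khnU n) ^ 2 ≤ ((2 * n + 3) * nphi n 0 1) ^ 2 :=
    pow_le_pow_left₀ (by linarith only [h2, hN]) h1 2
  have h4 : (2 * n + 3) * ((2 * n + 2) * (1 - 4 / 25 / (n : ℝ) ^ 2))
      ≤ (2 * n + 3) * ((2 * n + 3) * nphi n 0 1 ^ 2) := by
    linarith only [h3, hk, sq_nonneg (khnU n)]
  have h5 := mul_le_mul_of_nonneg_right (le_of_mul_le_mul_left h4 hM) (sq_nonneg (WZ n 0))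
  rw [khn_star]
  linarith only [h5]

end Pool.Agent.Ped
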