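import Pool.Agent.P.MP_e09f5c_gt.MomN
import Pool.Agent.P.MP_e09f5c_gt.KhN
import Pool.Agent.P.MP_e09f5c_gt.ANS
import Pool.Agent.P.MP_e09f5c_gt.ANP

/-! The case `5 ≤ n` with `q` and `q1` small. -/

open MeasureTheory Real

namespace Pool.Agent.Ped

variable {n : ℕ}

/-- Integral of a function of the standard shape. -/
theorem ani_gen (m : ℕ) {B : ℝ → ℝ} {a0 a1 a2 b0 b1 b2 c0 c1 c2 : ℝ}
    (hB : ∀ θ, B θ = |cos θ| ^ (m + 2) * (a0 + a1 * sin θ ^ 2 + a2 * (sin θ ^ 2) ^ 2)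
      + |cos θ| ^ m * (b0 + b1 * sin θ ^ 2 + b2 * (sin θ ^ 2) ^ 2)
      + |cos θ| ^ 0 * (c0 + c1 * sin θ ^ 2 + c2 * (sin θ ^ 2) ^ 2)) :
    Continuous B ∧ ∫ θ in (-π)..π, B θ
      = WZ (m + 2) 0 * (a0 + a1 / (m + 4) + 3 * a2 / ((m + 4) * (m + 6)))
        + WZ m 0 * (b0 + b1 / (m + 2) + 3 * b2 / ((m + 2) * (m + 4)))
        + π * (2 * c0 + c1 + 3 / 4 * c2) := by
  have k : ∀ (j : ℕ) (d0 d1 d2 : ℝ), Continuous fun θ : ℝ =>
      |cos θ| ^ j * (d0 + d1 * sin θ ^ 2 + d2 * (sin θ ^ 2) ^ 2) := fun j d0 d1 d2 => by fun_prop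
  obtain rfl : B = _ := funext hB
  have k01 := (k (m + 2) a0 a1 a2).fun_add (k m b0 b1 b2)
  refine ⟨k01.fun_add (k 0 c0 c1 c2), ?_⟩
  beta_reduce
  rw [intervalIntegral.integral_add (k01.intervalIntegrable _ _)
      ((k 0 c0 c1 c2).intervalIntegrable _ _),
    intervalIntegral.integral_add ((k (m + 2) a0 a1 a2).intervalIntegrable _ _)
      ((k m b0 b1 b2).intervalIntegrable _ _), int_pow_poly, int_pow_poly, int_pow_poly, WZ_zero]
  push_cast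
  rw [show (m : ℝ) + 2 + 2 = m + 4 by ring, show (m : ℝ) + 2 + 4 = m + 6 by ring]
  ring

/-- Numerical facts used for the three integrals. -/
theorem ani_facts {m : ℕ} (hm : 3 ≤ m) :
    0 < WZ (m + 2) 0 ∧ 0 < WZ m 0 ∧ 10 ≤ (m + 2) * WZ (m + 2) 0 ∧
      (m + 1) * WZ m 0 = (m + 2) * WZ (m + 2) 0 ∧ WZ m 0 ≤ 5 / 4 * WZ (m + 2) 0 := by
  have hx : (3 : ℝ) ≤ m := by exact_mod_cast hm
  have h1 := WZ_lower (n := m + 2) (by omega)
  push_cast at h1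
  have h2 : ((m : ℝ) + 1) * WZ m 0 = (m + 2) * WZ (m + 2) 0 := by
    rw [WZ_add_two]
    field_simp
  refine ⟨WZ_pos _, WZ_pos _, h1, h2, ?_⟩
  refine le_of_mul_le_mul_left ?_ (by linarith : (0 : ℝ) < m + 1)
  have h3 := mul_nonneg (sub_nonneg.2 hx) (WZ_pos (m + 2)).le
  linarith only [h2, h3]

theorem ani_inv {x c d : ℝ} (hx : 3 ≤ x) (hc : 0 ≤ c) (hd : d = 1 / (3 + c)) :
    0 ≤ (x + c)⁻¹ ∧ (x + c)⁻¹ ≤ d := by
  refine ⟨by positivity, ?_⟩
  rw [hd, one_div]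
  exact inv_anti₀ (by positivity) (by linarith)

theorem ani_BX {m : ℕ} (hm : 3 ≤ m) :
    Continuous (fun θ : ℝ => TN.BX (m + 2) (cos θ) (sin θ)) ∧
      ∫ θ in (-π)..π, TN.BX (m + 2) (cos θ) (sin θ) ≤ 5 * ((m + 2) * WZ (m + 2) 0) := by
  have hx : (3 : ℝ) ≤ m := by exact_mod_cast hm
  obtain ⟨hc, he⟩ := ani_gen m (B := fun θ : ℝ => TN.BX (m + 2) (cos θ) (sin θ))
    (a0 := m + 2 + 19 / 50) (a1 := 3 / 5 * (m + 2) + 13 / 10) (a2 := 0)
    (b0 := (m + 2) * (8 / 5)) (b1 := (m + 2) * (203 / 50)) (b2 := (m + 2) * (183 / 50))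
    (c0 := 9 / 10 / (m + 2) ^ 2) (c1 := 233 / 200) (c2 := 0) fun θ => by
      simp only [TN.BX, Nat.add_sub_cancel]
      push_cast
      ring
  refine ⟨hc, ?_⟩
  obtain ⟨hI, hJ, h10, -, hJI⟩ := ani_facts hm
  rw [he]
  generalize WZ (m + 2) 0 = I at *
  generalize WZ m 0 = J at *
  generalize (m : ℝ) = x at *
  obtain ⟨u0, u1⟩ := ani_inv hx (c := 2) (d := 1 / 5) (by norm_num) (by norm_num)
  obtain ⟨v0, v1⟩ := ani_inv hx (c := 4) (d := 1 / 7) (by norm_num) (by norm_num)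
  have e : I * (x + 2 + 19 / 50 + (3 / 5 * (x + 2) + 13 / 10) / (x + 4) + 3 * 0 / ((x + 4) * (x + 6)))
      + J * ((x + 2) * (8 / 5) + (x + 2) * (203 / 50) / (x + 2)
        + 3 * ((x + 2) * (183 / 50)) / ((x + 2) * (x + 4)))
      + π * (2 * (9 / 10 / (x + 2) ^ 2) + 233 / 200 + 3 / 4 * 0)
      = I * (x + 2 + 49 / 50 + (x + 4)⁻¹ / 10)
        + J * ((x + 2) * (8 / 5) + 203 / 50 + 549 / 50 * (x + 4)⁻¹)
        + π * (9 / 5 * ((x + 2)⁻¹ * (x + 2)⁻¹) + 233 / 200) := by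
    field_simp
    ring
  rw [e]
  generalize (x + 2)⁻¹ = u at *
  generalize (x + 4)⁻¹ = v at *
  have e1 := mul_le_mul_of_nonneg_left v1 hI.le
  have e2 : J * ((x + 2) * (8 / 5) + 203 / 50 + 549 / 50 * v)
      ≤ 5 / 4 * I * ((x + 2) * (8 / 5) + 203 / 50 + 549 / 50 * (1 / 7)) :=
    mul_le_mul hJI (by linarith only [v1]) (by positivity) (by positivity)
  have e3 : π * (9 / 5 * (u * u) + 233 / 200) ≤ 3.1416 * (9 / 5 * (1 / 5 * (1 / 5)) + 233 / 200) :=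
    mul_le_mul Real.pi_lt_d4.le (by linarith only [mul_le_mul u1 u1 u0 (by norm_num)])
      (by positivity) (by positivity)
  have e4 := mul_nonneg (sub_nonneg.2 hx) hI.le
  linarith only [e1, e2, e3, e4, h10, hI]

theorem ani_BY {m : ℕ} (hm : 3 ≤ m) :
    Continuous (fun θ : ℝ => TN.BY (m + 2) (cos θ) (sin θ)) ∧
      ∫ θ in (-π)..π, TN.BY (m + 2) (cos θ) (sin θ) ≤ (2 * (m + 2) + 2) * WZ (m + 2) 0 := by
  have hx : (3 : ℝ) ≤ m := by exact_mod_cast hm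
  obtain ⟨hc, he⟩ := ani_gen m (B := fun θ : ℝ => TN.BY (m + 2) (cos θ) (sin θ))
    (a0 := 123 / 100) (a1 := (m + 4) * (53 / 50) + 11 / 20) (a2 := (m + 4) * (113 / 100))
    (b0 := 9 / 4) (b1 := (m + 2) * (21 / 20) + 47 / 10) (b2 := (m + 2) * (13 / 25))
    (c0 := 33 / 20 / (m + 2)) (c1 := 19 / 10 / (m + 2)) (c2 := 47 / 100 + 24 / 25 / (m + 2))
    fun θ => by
      simp only [TN.BY, Nat.add_sub_cancel]
      push_cast
      ring
  refine ⟨hc, ?_⟩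
  obtain ⟨hI, hJ, h10, -, hJI⟩ := ani_facts hm
  rw [he]
  generalize WZ (m + 2) 0 = I at *
  generalize WZ m 0 = J at *
  generalize (m : ℝ) = x at *
  obtain ⟨u0, u1⟩ := ani_inv hx (c := 2) (d := 1 / 5) (by norm_num) (by norm_num)
  obtain ⟨v0, v1⟩ := ani_inv hx (c := 4) (d := 1 / 7) (by norm_num) (by norm_num)
  obtain ⟨w0, w1⟩ := ani_inv hx (c := 6) (d := 1 / 9) (by norm_num) (by norm_num)
  have e : I * (123 / 100 + ((x + 4) * (53 / 50) + 11 / 20) / (x + 4)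
        + 3 * ((x + 4) * (113 / 100)) / ((x + 4) * (x + 6)))
      + J * (9 / 4 + ((x + 2) * (21 / 20) + 47 / 10) / (x + 2)
        + 3 * ((x + 2) * (13 / 25)) / ((x + 2) * (x + 4)))
      + π * (2 * (33 / 20 / (x + 2)) + 19 / 10 / (x + 2) + 3 / 4 * (47 / 100 + 24 / 25 / (x + 2)))
      = I * (229 / 100 + 11 / 20 * (x + 4)⁻¹ + 339 / 100 * (x + 6)⁻¹)
        + J * (33 / 10 + 47 / 10 * (x + 2)⁻¹ + 39 / 25 * (x + 4)⁻¹)
        + π * (148 / 25 * (x + 2)⁻¹ + 141 / 400) := by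
    field_simp
    ring
  have hu : (x + 2)⁻¹ ≤ I / 10 := by
    rw [inv_le_iff_one_le_mul₀ (by linarith)]
    linarith only [h10]
  rw [e]
  generalize (x + 2)⁻¹ = u at *
  generalize (x + 4)⁻¹ = v at *
  generalize (x + 6)⁻¹ = w at *
  have e0 := mul_le_mul_of_nonneg_left w1 hI.le
  have e1 := mul_le_mul_of_nonneg_left v1 hI.le
  have e2 : J * (33 / 10 + 47 / 10 * u + 39 / 25 * v)
      ≤ 5 / 4 * I * (33 / 10 + 47 / 10 * (1 / 5) + 39 / 25 * (1 / 7)) :=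
    mul_le_mul hJI (by linarith only [u1, v1]) (by positivity) (by positivity)
  have e3 : π * (148 / 25 * u + 141 / 400) ≤ 3.1416 * (148 / 25 * (I / 10) + 141 / 400) :=
    mul_le_mul Real.pi_lt_d4.le (by linarith only [hu]) (by positivity) (by positivity)
  have e4 := mul_nonneg (sub_nonneg.2 hx) hI.le
  linarith only [e0, e1, e2, e3, e4, h10, hI]

theorem ani_BF {m : ℕ} (hm : 3 ≤ m) :
    Continuous (fun θ : ℝ => TN.BF (m + 2) (cos θ) (sin θ)) ∧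
      ∫ θ in (-π)..π, TN.BF (m + 2) (cos θ) (sin θ) ≤ -(5 / 4) * WZ (m + 2) 0 := by
  have hx : (3 : ℝ) ≤ m := by exact_mod_cast hm
  obtain ⟨hc, he⟩ := ani_gen m (B := fun θ : ℝ => TN.BF (m + 2) (cos θ) (sin θ))
    (a0 := -((m + 2) * (57 / 130))) (a1 := (m + 2) * (133 / 520)) (a2 := 0)
    (b0 := 0) (b1 := (m + 2) / 2) (b2 := 0) (c0 := 0) (c1 := 0) (c2 := 1 / 16) fun θ => by
      simp only [TN.BF, Nat.add_sub_cancel]
      push_cast
      field_simp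
      ring
  refine ⟨hc, ?_⟩
  obtain ⟨hI, hJ, h10, -, hJI⟩ := ani_facts hm
  rw [he]
  generalize WZ (m + 2) 0 = I at *
  generalize WZ m 0 = J at *
  generalize (m : ℝ) = x at *
  obtain ⟨v0, v1⟩ := ani_inv hx (c := 4) (d := 1 / 7) (by norm_num) (by norm_num)
  have e : I * (-((x + 2) * (57 / 130)) + (x + 2) * (133 / 520) / (x + 4)
        + 3 * 0 / ((x + 4) * (x + 6)))
      + J * (0 + (x + 2) / 2 / (x + 2) + 3 * 0 / ((x + 2) * (x + 4)))
      + π * (2 * 0 + 0 + 3 / 4 * (1 / 16))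
      = (x + 2) * I * (-(57 / 130) + 133 / 520 * (x + 4)⁻¹) + J / 2 + π * (3 / 64) := by
    field_simp
    ring
  rw [e]
  generalize (x + 4)⁻¹ = v at *
  have e1 := mul_le_mul_of_nonneg_left v1 (by linarith only [h10] : 0 ≤ (x + 2) * I)
  have e3 := Real.pi_lt_d4.le
  have e4 := mul_nonneg (sub_nonneg.2 hx) hI.le
  linarith only [e1, e3, e4, h10, hI, hJI]

theorem aN_final (hn : 5 ≤ n) {q q1 : ℝ} (hq0 : 0 < q) (h0 : 0 ≤ q1) (h1 : q1 ≤ 1 / 20) :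
    (2 - q1) * (∫ θ in (-π)..π, q * TN.BF n (cos θ) (sin θ))
      + ∫ θ in (-π)..π, ((1 - q1) * q * TN.BX n (cos θ) (sin θ) + q1 * TN.BY n (cos θ) (sin θ))
        / (2 * n + 3) ≤ 2 * kh n * q1 := by
  have hk := kh_lin hn
  obtain ⟨m, rfl⟩ : ∃ m, n = m + 2 := ⟨n - 2, by omega⟩
  have hm : 3 ≤ m := by omega
  obtain ⟨cX, iX⟩ := ani_BX hm
  obtain ⟨cY, iY⟩ := ani_BY hm
  obtain ⟨-, iF⟩ := ani_BF hm
  have hI := WZ_pos (m + 2)
  have hx : (0 : ℝ) ≤ m := Nat.cast_nonneg m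
  rw [intervalIntegral.integral_div,
    intervalIntegral.integral_add ((cX.const_mul _).intervalIntegrable _ _)
      ((cY.const_mul _).intervalIntegrable _ _), intervalIntegral.integral_const_mul,
    intervalIntegral.integral_const_mul, intervalIntegral.integral_const_mul]
  push_cast at hk ⊢
  generalize (∫ θ in (-π)..π, TN.BX (m + 2) (cos θ) (sin θ)) = x at iX ⊢
  generalize (∫ θ in (-π)..π, TN.BY (m + 2) (cos θ) (sin θ)) = y at iY ⊢
  generalize (∫ θ in (-π)..π, TN.BF (m + 2) (cos θ) (sin θ)) = f at iF ⊢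
  generalize WZ (m + 2) 0 = I at *
  generalize kh (m + 2) = K at *
  have hD : (0 : ℝ) < 2 * (m + 2) + 3 := by linarith
  have a1 : x / (2 * (m + 2) + 3) ≤ 5 / 2 * I := by
    rw [div_le_iff₀ hD]
    linarith only [iX, hI]
  have a2 : y / (2 * (m + 2) + 3) ≤ 2 * K := by
    rw [div_le_iff₀ hD]
    linarith only [iY, hk]
  have e : ((1 - q1) * q * x + q1 * y) / (2 * (m + 2) + 3)
      = (1 - q1) * q * (x / (2 * (m + 2) + 3)) + q1 * (y / (2 * (m + 2) + 3)) := by ring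
  rw [e]
  generalize x / (2 * ((m : ℝ) + 2) + 3) = x' at *
  generalize y / (2 * ((m : ℝ) + 2) + 3) = y' at *
  have hp : 0 ≤ (1 - q1) * q := mul_nonneg (by linarith) hq0.le
  have e1 := mul_le_mul_of_nonneg_left (show x' + 2 * f ≤ 0 by linarith only [a1, iF]) hp
  have e2 := mul_le_mul_of_nonneg_left a2 h0
  have e3 := mul_le_mul_of_nonneg_left (show f ≤ 0 by linarith only [iF, hI])
    (mul_nonneg h0 hq0.le)
  linarith only [e1, e2, e3]

theorem ani_dCa (s z : ℝ) : HasDerivAt (TN.Ca s) (TN.Cz s z) z := by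
  have h1 : HasDerivAt (fun z : ℝ => (1 - s) * z) (1 - s) z := by
    simpa using (hasDerivAt_id z).const_mul (1 - s)
  have h := ((h1.const_mul (9 / 25 + 51 / 20 * s)).const_add (8 / 5 + 13 / 20 * s)).fun_add
    ((h1.fun_pow 2).const_mul (8 / 5))
  refine h.congr_deriv ?_
  unfold TN.Cz
  norm_num
  ring

theorem ani_dph (s z : ℝ) : HasDerivAt (TN.ph s) (TN.pz s z) z := by
  have h1 : HasDerivAt (fun z : ℝ => (1 - s) * z) (1 - s) z := by
    simpa using (hasDerivAt_id z).const_mul (1 - s)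
  have h := ((((h1.const_mul (3 / 4 + 13 / 25 * s + 87 / 10 * s ^ 2)).const_add
    (1 + 3 / 10 * s + 3 / 25 * s ^ 2 + 5 / 4 * s ^ 3)).fun_add
    ((h1.fun_pow 2).const_mul (47 / 100 + 157 / 10 * s))).fun_add
    ((h1.fun_pow 3).const_mul (41 / 5))).const_mul (2 * s)
  have e : TN.ph s = fun z : ℝ => 2 * s * (1 + 3 / 10 * s + 3 / 25 * s ^ 2 + 5 / 4 * s ^ 3
      + (3 / 4 + 13 / 25 * s + 87 / 10 * s ^ 2) * ((1 - s) * z)
      + (47 / 100 + 157 / 10 * s) * ((1 - s) * z) ^ 2 + 41 / 5 * ((1 - s) * z) ^ 3) := by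
    funext z
    unfold TN.ph TN.eb
    ring
  rw [e]
  refine h.congr_deriv ?_
  unfold TN.pz
  norm_num
  ring

theorem caseAN (hn : 5 ≤ n) {X V : Mat n} {F : Fr} (h : NF X V F)
    (hq : F.q ≤ 1 / (4 * (n : ℝ) ^ 2)) (hq1 : F.q1 ≤ 1 / 20) :
    gauss (crof X V (ez n F.s)) ≤ kap (n + 1) := by
  obtain ⟨σ, hσ0, hσ1, hX, hs⟩ := exists_sigma h.ok hq1
  have hq0 := h.ok.q_pos
  have hN : (5 : ℝ) ≤ n := by exact_mod_cast hn
  have hq' : F.q ≤ 1 / 100 := by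
    refine hq.trans (one_div_le_one_div_of_le (by norm_num) ?_)
    have := mul_le_mul hN hN (by norm_num) (by linarith)
    linarith only [this]
  have cX : Continuous fun θ : ℝ => TN.BX n (cos θ) (sin θ) := by
    unfold TN.BX
    fun_prop
  have cY : Continuous fun θ : ℝ => TN.BY n (cos θ) (sin θ) := by
    unfold TN.BY
    fun_prop
  have cF : Continuous fun θ : ℝ => TN.BF n (cos θ) (sin θ) := by
    unfold TN.BF
    fun_prop
  refine glueA (by omega) h hq' (by norm_num) hq1 hσ0 hσ1 hX hs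
    (Ca := fun z => TN.Ca σ z / (2 * n + 3)) (Cz := fun z => TN.Cz σ z / (2 * n + 3))
    (ph := fun z => TN.ph σ z / (2 * n + 3)) (pz := fun z => TN.pz σ z / (2 * n + 3))
    0 (8 * σ ^ 2 / (2 * n + 3))
    (fun z => (ani_dCa σ z).div_const _) ?_ (fun z => (ani_dph σ z).div_const _) ?_
    (B1 := fun θ => ((1 - F.q1) * F.q * TN.BX n (cos θ) (sin θ)
      + F.q1 * TN.BY n (cos θ) (sin θ)) / (2 * n + 3))
    (B2 := fun θ => F.q * TN.BF n (cos θ) (sin θ))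
    ((((cX.const_mul _).add (cY.const_mul _)).div_const _).intervalIntegrable _ _)
    ((cF.const_mul _).intervalIntegrable _ _) ?_
    (aN_final hn hq0 h.ok.q1_nonneg hq1)
  · unfold TN.Cz
    fun_prop
  · unfold TN.pz
    fun_prop
  · intro θ a b ha hb ha2 hb2
    have hz0 : 0 ≤ sin θ ^ 2 := sq_nonneg _
    have hz1 : sin θ ^ 2 ≤ 1 := sin_sq_le_one θ
    have hab : a ^ 2 + b ^ 2 ≤ 1 := by
      have := mul_le_mul_of_nonneg_left hz1 (sub_nonneg.2 hσ1)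
      rw [ha2, hb2]
      linarith
    obtain ⟨t1, t2, he1, he2, B⟩ := boxN hn ha hb hab
    have hφ := nphi_eq (n := n) (by omega) hab he1
    rw [ha2, hb2] at B hφ
    obtain ⟨α1, α2, α3, α4, hS⟩ := saN hn hσ0 hσ1 hz0 hz1 B
    exact ⟨t1, t2, _, _, _, _, _, α1, α2, α3, α4, he1, he2, hS,
      aN_model hn h.ok hq (cos_sq_add_sin_sq θ) hσ0 hσ1 hX hs B hφ _ _ _,
      aN_phi hn h.ok hq (cos_sq_add_sin_sq θ) hσ0 hσ1 B⟩

end Pool.Agent.Ped
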