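import Pool.Agent.P.MP_e09f5c_gt.Glue

/-! Explicit polynomials for `5 ≤ n`, in the unit `1 / (2 n + 3)`. -/

open Real

namespace Pool.Agent.Ped

/-- Wallis type integrals. -/
noncomputable def WZ (n k : ℕ) : ℝ := ∫ θ in (-π)..π, |cos θ| ^ n * (sin θ ^ 2) ^ k

namespace TN

noncomputable def WH (P s : ℝ) : ℝ :=
  1 + 3 / 10 * P + 1 / 30 * s + 9 / 20 * P * s + 33 / 40 * P ^ 2 + 1 / 40 * s ^ 2
noncomputable def BL (P : ℝ) : ℝ :=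
  1 + 7 / 30 * P
noncomputable def BeH (P s : ℝ) : ℝ :=
  1 + 1 / 4 * P + 1 / 10 * s + 21 / 20 * P * s + 21 / 40 * P ^ 2 + 1 / 8 * s ^ 2
noncomputable def BlH (P s : ℝ) : ℝ :=
  1 + 1 / 4 * P + 1 / 30 * s + 21 / 100 * P * s + 63 / 200 * P ^ 2 + 3 / 200 * s ^ 2
noncomputable def ep3 (P s : ℝ) : ℝ :=
  1 / 15 * s + 21 / 20 * P * s + 21 / 40 * P ^ 2 + 1 / 8 * s ^ 2
noncomputable def ep4 (P s : ℝ) : ℝ :=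
  21 / 100 * P * s + 63 / 200 * P ^ 2 + 3 / 200 * s ^ 2
noncomputable def muH (P s : ℝ) : ℝ :=
  8 / 5 + 27 / 100 * P + 7 / 100 * s + 6 / 25 * P * s + 21 / 100 * P ^ 2 + 3 / 100 * s ^ 2
noncomputable def n22H (P s : ℝ) : ℝ :=
  1 + 1 / 4 * P + 1 / 10 * s + 9 / 20 * P * s + 19 / 100 * P ^ 2 + 3 / 40 * s ^ 2
noncomputable def m40H (P s : ℝ) : ℝ :=
  3 / 5 + 1 / 10 * P + 1 / 10 * s + 3 / 4 * P * s + 7 / 40 * P ^ 2 + 7 / 40 * s ^ 2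
noncomputable def eb (P s : ℝ) : ℝ :=
  1 + 3 / 4 * P + 3 / 10 * s + 13 / 25 * P * s + 47 / 100 * P ^ 2
    + 3 / 25 * s ^ 2 + 87 / 10 * P * s ^ 2 + 157 / 10 * P ^ 2 * s + 41 / 5 * P ^ 3 + 5 / 4 * s ^ 3

/-- Bounds for the moments, uniform in the dimension. -/
structure Box (n : ℕ) (P s : ℝ) (m : Mo) (t1 t2 φ : ℝ) : Prop where
  Wr_lo : (n + 2) * (1 + P / 4) ≤ (2 * n + 3) * m.Wr
  Wr_hi : (2 * n + 3) * m.Wr ≤ (n + 2) * WH P s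
  Be_lo : BL P ≤ (2 * n + 3) * m.Be
  Be_hi : (2 * n + 3) * m.Be ≤ BeH P s
  Bl_lo : BL P ≤ (2 * n + 3) * m.Bl
  Bl_hi : (2 * n + 3) * m.Bl ≤ BlH P s
  BeBl : (2 * n + 3) * (m.Be - m.Bl) ≤ ep3 P s
  BlBe : (2 * n + 3) * (m.Bl - m.Be) ≤ ep4 P s
  mu_hi : (2 * n + 3) * (m.mup + m.m22) ≤ muH P s
  m22_lo : 0 ≤ m.m22
  m22_hi : (2 * n + 3) * (n * m.m22) ≤ n22H P s
  m40_hi : (2 * n + 3) * m.m40 ≤ m40H P s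
  t1_lo : 0 ≤ t1
  t2_lo : 0 ≤ t2
  t_hi : (2 * n + 3) * (t1 + t2) ≤ eb P s
  ph_lo : 1 - (7 * P + s) / 13 ≤ φ
  ph_hi : φ ≤ 1

noncomputable def Ca (s z : ℝ) : ℝ :=
  8 / 5 + 13 / 20 * s + (9 / 25 + 51 / 20 * s) * ((1 - s) * z) + 8 / 5 * ((1 - s) * z) ^ 2
noncomputable def Cz (s z : ℝ) : ℝ :=
  (9 / 25 + 51 / 20 * s) * (1 - s) + 16 / 5 * (1 - s) ^ 2 * z
noncomputable def ph (s z : ℝ) : ℝ := 2 * s * eb ((1 - s) * z) s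
noncomputable def pz (s z : ℝ) : ℝ :=
  2 * s * (1 - s) * (3 / 4 + 13 / 25 * s + 87 / 10 * s ^ 2
    + (47 / 50 + 157 / 5 * s) * ((1 - s) * z) + 123 / 5 * ((1 - s) * z) ^ 2)

noncomputable def BX (n : ℕ) (co si : ℝ) : ℝ :=
  (n * (1 + 3 / 5 * si ^ 2) + 19 / 50 + 13 / 10 * si ^ 2) * |co| ^ n + 9 / 10 / n ^ 2
    + n * |co| ^ (n - 2) * (8 / 5 + 203 / 50 * si ^ 2 + 183 / 50 * (si ^ 2) ^ 2)
    + 233 / 200 * si ^ 2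

noncomputable def BY (n : ℕ) (co si : ℝ) : ℝ :=
  |co| ^ (n - 2) * (si ^ 2 * (n * (21 / 20 + 13 / 25 * si ^ 2) + 33 / 10) + 9 / 4 + 7 / 5 * si ^ 2)
    + |co| ^ n * (si ^ 2 * (n + 2) * (53 / 50 + 113 / 100 * si ^ 2) + 123 / 100 + 11 / 20 * si ^ 2)
    + (si ^ 2) ^ 2 * (47 / 100 + 24 / 25 / n) + 19 / 10 * si ^ 2 / n + 33 / 20 / n

noncomputable def BF (n : ℕ) (co si : ℝ) : ℝ :=
  n / 2 * (si ^ 2 * |co| ^ (n - 2) + (si ^ 2) ^ 2 / (8 * n)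
    - 19 / 20 * (12 / 13 - 7 / 13 * si ^ 2) * |co| ^ n)

end TN

end Pool.Agent.Ped
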