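import Pool.Agent.P.MP_e09f5c_gt.Jacob

/-! The parallel transport field: frame and injectivity of the Crofton map. -/

open MeasureTheory Metric Set Matrix Filter Topology
open scoped InnerProductSpace ENNReal

namespace Pool.Agent.Ped

variable {N : ℕ}

lemma inj_one_add_pos {a x : E N} (ha : ‖a‖ = 1) (hx : ‖x‖ = 1) (hxa : x ≠ -a) :
    0 < 1 + ⟪x, a⟫_ℝ := by
  have h1 : x + a ≠ 0 := fun h => hxa (eq_neg_of_add_eq_zero_left h)
  have h2 := pow_pos (norm_pos_iff.2 h1) 2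
  rw [norm_add_sq_real, ha, hx] at h2
  linarith

lemma inj_par_unit {a v x : E N} (ha : ‖a‖ = 1) (hv : ‖v‖ = 1) (hav : ⟪a, v⟫_ℝ = 0)
    (hx : ‖x‖ = 1) (hxa : x ≠ -a) : ⟪x, par a v x⟫_ℝ = 0 ∧ ‖par a v x‖ = 1 := by
  have h0 := inj_one_add_pos ha hx hxa
  constructor
  · simp only [par, inner_sub_right, inner_smul_right, inner_add_right,
      real_inner_self_eq_norm_sq, hx, real_inner_comm v x]
    field_simp
    ring
  · have h1 : ‖par a v x‖ ^ 2 = 1 := by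
      rw [par, norm_sub_sq_real, norm_smul, mul_pow, norm_add_sq_real, inner_smul_right,
        inner_add_right, real_inner_comm a v, hav, ha, hv, hx, Real.norm_eq_abs, sq_abs]
      field_simp
      ring
    exact (pow_eq_one_iff_of_nonneg (norm_nonneg _) two_ne_zero).1 h1

lemma inj_hasFDerivAt_par (a v : E N) {x : E N} (h0 : 1 + ⟪x, a⟫_ℝ ≠ 0) :
    ∃ D : E N →L[ℝ] E N, HasFDerivAt (par a v) D x ∧ ∀ w, D w =
      -(⟪v, x⟫_ℝ / (1 + ⟪x, a⟫_ℝ)) • w -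
        ((⟪v, w⟫_ℝ * (1 + ⟪x, a⟫_ℝ) - ⟪v, x⟫_ℝ * ⟪a, w⟫_ℝ) / (1 + ⟪x, a⟫_ℝ) ^ 2) • (x + a) := by
  have h1 : HasFDerivAt (fun y : E N => ⟪v, y⟫_ℝ) (innerSL ℝ v) x := (innerSL ℝ v).hasFDerivAt
  have h2 : HasFDerivAt (fun y : E N => 1 + ⟪y, a⟫_ℝ) (innerSL ℝ a) x := by
    have : (fun y : E N => 1 + ⟪y, a⟫_ℝ) = fun y => 1 + innerSL ℝ a y := by
      funext y; rw [real_inner_comm]; rfl
    rw [this]
    exact (innerSL ℝ a).hasFDerivAt.const_add 1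
  have h3 := (hasDerivAt_inv h0).comp_hasFDerivAt x h2
  have h4 := ((h1.mul h3).smul ((hasFDerivAt_id x).add_const a)).const_sub v
  refine ⟨_, h4, fun w => ?_⟩
  simp only [_root_.neg_apply, _root_.add_apply,
    _root_.smul_apply, ContinuousLinearMap.id_apply,
    ContinuousLinearMap.smulRight_apply, innerSL_apply_apply, Pi.mul_apply, Function.comp, id,
    smul_eq_mul]
  rw [neg_add, neg_smul, sub_eq_add_neg, div_eq_mul_inv]
  congr 3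
  field_simp
  ring

theorem good_par {a v x : E N} (ha : ‖a‖ = 1) (hv : ‖v‖ = 1) (hav : ⟪a, v⟫_ℝ = 0)
    (hx : ‖x‖ = 1) (hxa : x ≠ -a) : Good (par a v) x := by
  obtain ⟨D, hD, -⟩ := inj_hasFDerivAt_par a v (inj_one_add_pos ha hx hxa).ne'
  refine ⟨hx, hD.differentiableAt, ?_⟩
  filter_upwards [self_mem_nhdsWithin, mem_nhdsWithin_of_mem_nhds (isOpen_ne.mem_nhds hxa)]
    with z hz hza
  exact inj_par_unit ha hv hav (by simpa using hz) hza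

theorem measurable_par (a v : E N) : Measurable (par a v) := by
  unfold par
  have h1 : Measurable fun y : E N => ⟪v, y⟫_ℝ := by fun_prop
  have h2 : Measurable fun y : E N => 1 + ⟪y, a⟫_ℝ := by fun_prop
  have h3 : Measurable fun y : E N => y + a := by fun_prop
  exact measurable_const.sub ((h1.div h2).smul h3)

lemma inj_proj_apply (x w : E N) : proj x w = w - ⟪x, w⟫_ℝ • x := rfl

/-- On vectors orthogonal to the base point and to the field, the derivative is a scalar. -/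
theorem cov_par {a v x : E N} (ha : ‖a‖ = 1) (hv : ‖v‖ = 1) (hav : ⟪a, v⟫_ℝ = 0)
    (hx : ‖x‖ = 1) (hxa : x ≠ -a) (w : E N) (hw : ⟪x, w⟫_ℝ = 0) (hw' : ⟪par a v x, w⟫_ℝ = 0) :
    cov (par a v) x w = -(⟪v, x⟫_ℝ / (1 + ⟪x, a⟫_ℝ)) • w := by
  have h0 := inj_one_add_pos ha hx hxa
  obtain ⟨D, hD, hDw⟩ := inj_hasFDerivAt_par a v h0.ne'
  have h1 : ⟪v, w⟫_ℝ * (1 + ⟪x, a⟫_ℝ) - ⟪v, x⟫_ℝ * ⟪a, w⟫_ℝ = 0 := by
    simp only [par, inner_sub_left, real_inner_smul_left, inner_add_left, hw] at hw'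
    field_simp at hw'
    linarith
  change proj x (fderiv ℝ (par a v) x (proj x w)) = _
  rw [hD.fderiv, inj_proj_apply x w, hw, zero_smul, sub_zero, hDw, h1, zero_div, zero_smul,
    sub_zero, map_smul, inj_proj_apply, hw, zero_smul, sub_zero]

lemma inj_refl_ne {a₀ a y : E N} (hy : y ∉ Submodule.span ℝ {a + a₀}) (haa : a ≠ -a₀) :
    refl y a ≠ -a₀ := by
  intro h
  have hc : a + a₀ ≠ 0 := fun h => haa (eq_neg_of_add_eq_zero_left h)
  have h1 : a + a₀ = (2 * ⟪y, a⟫_ℝ / ‖y‖ ^ 2) • y := by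
    rw [refl, sub_eq_iff_eq_add, neg_add_eq_sub, eq_sub_iff_add_eq] at h
    exact h
  have h2 : 2 * ⟪y, a⟫_ℝ / ‖y‖ ^ 2 ≠ 0 := fun h0 => hc (by rw [h1, h0, zero_smul])
  apply hy
  rw [Submodule.mem_span_singleton]
  exact ⟨(2 * ⟪y, a⟫_ℝ / ‖y‖ ^ 2)⁻¹, by rw [h1, smul_smul, inv_mul_cancel₀ h2, one_smul]⟩

lemma inj_G_eq {a₀ v a y : E N} (hy : y ≠ 0) (h0 : 1 + ⟪refl y a, a₀⟫_ℝ ≠ 0)
    (hu : ⟪y, (1 + ⟪a, a₀⟫_ℝ) • v - ⟪v, a⟫_ℝ • a₀⟫_ℝ ≠ 0) :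
    ∃ μ γ : ℝ, γ ≠ 0 ∧ refl y (par a₀ v (refl y a)) = v - μ • (a + a₀) - γ • y := by
  have hn : ‖y‖ ^ 2 ≠ 0 := pow_ne_zero _ (norm_ne_zero_iff.2 hy)
  set μ := ⟪v, refl y a⟫_ℝ / (1 + ⟪refl y a, a₀⟫_ℝ) with hμ
  refine ⟨μ, 2 * (⟪y, v⟫_ℝ - μ * ⟪y, a₀⟫_ℝ) / ‖y‖ ^ 2, ?_, ?_⟩
  · refine div_ne_zero (mul_ne_zero two_ne_zero fun h => hu ?_) hn
    have h1 : ⟪y, v⟫_ℝ * (1 + ⟪refl y a, a₀⟫_ℝ) - ⟪v, refl y a⟫_ℝ * ⟪y, a₀⟫_ℝ = 0 := by
      rw [hμ] at h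
      field_simp at h
      linarith
    simp only [refl, inner_sub_right, inner_sub_left, inner_smul_right, real_inner_smul_left,
      real_inner_comm y v] at h1 ⊢
    linarith
  · have e : par a₀ v (refl y a) = v - μ • (refl y a + a₀) := rfl
    rw [e]
    simp only [refl, inner_sub_right, inner_add_right, inner_smul_right,
      real_inner_self_eq_norm_sq]
    have e2 : 2 * (⟪y, v⟫_ℝ - μ * (⟪y, a⟫_ℝ - 2 * ⟪y, a⟫_ℝ / ‖y‖ ^ 2 * ‖y‖ ^ 2 + ⟪y, a₀⟫_ℝ)) /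
        ‖y‖ ^ 2 = 2 * (⟪y, v⟫_ℝ - μ * ⟪y, a₀⟫_ℝ) / ‖y‖ ^ 2 + μ * (2 * ⟪y, a⟫_ℝ / ‖y‖ ^ 2) := by
      field_simp
      ring
    rw [e2]
    module

lemma inj_hyper_null {u : E N} (hu : u ≠ 0) : volume {y : E N | ⟪y, u⟫_ℝ = 0} = 0 := by
  have h := Measure.addHaar_submodule (volume : Measure (E N))
    (LinearMap.ker (innerSL ℝ u : E N →L[ℝ] ℝ).toLinearMap) (by
      intro h
      have : u ∈ LinearMap.ker (innerSL ℝ u : E N →L[ℝ] ℝ).toLinearMap := by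
        rw [h]; trivial
      exact hu (inner_self_eq_zero (𝕜 := ℝ).1 this))
  convert h using 2
  ext y
  rw [mem_ofPred_eq, real_inner_comm]
  rfl

lemma inj_line_null (c : E N) : volume (Submodule.span ℝ {c} : Set (E N)) = 0 := by
  refine Measure.addHaar_submodule _ _ fun h => ?_
  have h1 := finrank_span_le_card (R := ℝ) ({c} : Set (E N))
  rw [h] at h1
  simp at h1

theorem jac_le_cyl {a₀ v a g₁ g₂ : E N} (ha₀ : ‖a₀‖ = 1) (hv : ‖v‖ = 1) (hav : ⟪a₀, v⟫_ℝ = 0)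
    (ha : ‖a‖ = 1) (haa : a ≠ -a₀) (hg : LinearIndependent ℝ ![g₁, g₂])
    (hg' : ⟪a + a₀, g₁⟫_ℝ ≠ 0) :
    ∫⁻ y in half g₂, jac (par a₀ v) (refl y a) g₁ g₂ y ≤ volume (cyl a) := by
  set c := a + a₀ with hc
  set u := (1 + ⟪a, a₀⟫_ℝ) • v - ⟪v, a⟫_ℝ • a₀ with hu
  set q := ⟪c, g₁⟫_ℝ • g₂ - ⟪c, g₂⟫_ℝ • g₁ with hq
  have hu0 : u ≠ 0 := by
    intro h
    have h1 : ⟪v, u⟫_ℝ = 0 := by rw [h, inner_zero_right]
    rw [hu, inner_sub_right, inner_smul_right, inner_smul_right, real_inner_self_eq_norm_sq, hv,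
      real_inner_comm a₀ v, hav] at h1
    linarith [inj_one_add_pos ha₀ ha haa]
  have hq0 : q ≠ 0 := by
    intro h
    refine hg' (LinearIndependent.pair_iff.1 hg (-⟪c, g₂⟫_ℝ) ⟪c, g₁⟫_ℝ ?_).2
    rw [← h, hq]; module
  set good : Set (E N) := half g₂ \ ((Submodule.span ℝ {c} : Set (E N)) ∪
    ({y | ⟪y, u⟫_ℝ = 0} ∪ {y | ⟪y, q⟫_ℝ = 0})) with hgood
  have hmeas : MeasurableSet good := by
    refine MeasurableSet.diff ?_ (MeasurableSet.union ?_ (MeasurableSet.union ?_ ?_))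
    · have h1 : IsOpen {y : E N | ‖y‖ < 1} := isOpen_lt continuous_norm continuous_const
      have h2 : IsOpen {y : E N | 0 < ⟪y, g₂⟫_ℝ} := isOpen_lt continuous_const (by fun_prop)
      exact (h1.inter h2).measurableSet
    · exact (Submodule.closed_of_finiteDimensional _).measurableSet
    · exact (isClosed_eq (continuous_id.inner continuous_const) continuous_const).measurableSet
    · exact (isClosed_eq (continuous_id.inner continuous_const) continuous_const).measurableSet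
  have hae : good =ᵐ[volume] half g₂ :=
    sdiff_null_ae_eq_self (measure_union_null (inj_line_null c)
      (measure_union_null (inj_hyper_null hu0) (inj_hyper_null hq0)))
  have hmem : ∀ y ∈ good, ‖y‖ < 1 ∧ 0 < ⟪y, g₂⟫_ℝ ∧ y ≠ 0 ∧ refl y a ≠ -a₀ ∧ ⟪y, u⟫_ℝ ≠ 0 ∧
      ⟪y, q⟫_ℝ ≠ 0 := by
    intro y hy
    obtain ⟨⟨h1, h2⟩, h3⟩ := hy
    simp only [mem_union, not_or, mem_ofPred_eq] at h3
    refine ⟨h1, h2, ?_, inj_refl_ne h3.1 haa, h3.2.1, h3.2.2⟩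
    rintro rfl
    simp at h2
  have hx : ∀ y, ‖refl y a‖ = 1 := fun y => by rw [norm_refl, ha]
  set G : E N → E N := fun y => refl y (par a₀ v (refl y a)) with hG
  have hG1 : ∀ y ∈ good, ⟪a, G y⟫_ℝ = 0 ∧ ‖G y‖ = 1 := by
    intro y hy
    obtain ⟨h1, h2⟩ := inj_par_unit ha₀ hv hav (hx y) (hmem y hy).2.2.2.1
    refine ⟨?_, by rw [hG]; simp only; rw [norm_refl, h2]⟩
    rw [← h1, ← inner_refl y (refl y a), refl_refl]
  have hPa : ∀ y ∈ good, ⟪a, Phi (par a₀ v) a g₁ g₂ y⟫_ℝ = Real.arctan (⟪y, g₁⟫_ℝ / ⟪y, g₂⟫_ℝ) := by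
    intro y hy
    rw [Phi, inner_add_right, inner_smul_right, inner_smul_right, (hG1 y hy).1,
      real_inner_self_eq_norm_sq, ha]
    ring
  have hPp : ∀ y ∈ good, proj a (Phi (par a₀ v) a g₁ g₂ y) = (‖y‖ ^ 2 / 2) • G y := by
    intro y hy
    rw [inj_proj_apply, hPa y hy, Phi, add_sub_cancel_right]
  have hPn : ∀ y ∈ good, ‖proj a (Phi (par a₀ v) a g₁ g₂ y)‖ = ‖y‖ ^ 2 / 2 := by
    intro y hy
    rw [hPp y hy, norm_smul, (hG1 y hy).2, mul_one, Real.norm_of_nonneg (by positivity)]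
  have hinj : InjOn (Phi (par a₀ v) a g₁ g₂) good := by
    intro y hy y' hy' h
    obtain ⟨-, h2, h3, h4, h5, h6⟩ := hmem y hy
    obtain ⟨-, h2', h3', h4', h5', -⟩ := hmem y' hy'
    have hT : ⟪y, g₁⟫_ℝ / ⟪y, g₂⟫_ℝ = ⟪y', g₁⟫_ℝ / ⟪y', g₂⟫_ℝ := by
      apply Real.arctan_injective
      rw [← hPa y hy, ← hPa y' hy', h]
    have hn : ‖y‖ ^ 2 / 2 = ‖y'‖ ^ 2 / 2 := by rw [← hPn y hy, ← hPn y' hy', h]
    have hn0 : ‖y'‖ ^ 2 / 2 ≠ 0 := by
      have := norm_pos_iff.2 h3'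
      positivity
    have hGG : G y = G y' := by
      have := hPp y hy
      rw [h, hPp y' hy', hn] at this
      exact (smul_right_injective _ hn0 this).symm
    obtain ⟨μ, γ, hγ, e⟩ := inj_G_eq h3 (inj_one_add_pos ha₀ (hx y) h4).ne' h5
    obtain ⟨μ', γ', hγ', e'⟩ := inj_G_eq h3' (inj_one_add_pos ha₀ (hx y') h4').ne' h5'
    have e1 : γ • y - γ' • y' = (μ' - μ) • c := by
      have : v - μ • c - γ • y = v - μ' • c - γ' • y' := by rw [← e, ← e']; exact hGG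
      linear_combination (norm := module) -this
    have e2 := congrArg (fun z => ⟪z, g₁⟫_ℝ) e1
    have e3 := congrArg (fun z => ⟪z, g₂⟫_ℝ) e1
    simp only [inner_sub_left, real_inner_smul_left] at e2 e3
    rw [div_eq_div_iff h2.ne' h2'.ne'] at hT
    have e4 : (μ' - μ) * ⟪y, q⟫_ℝ = 0 := by
      rw [hq, inner_sub_right, inner_smul_right, inner_smul_right]
      linear_combination -⟪y, g₂⟫_ℝ * e2 + ⟪y, g₁⟫_ℝ * e3 + γ' * hT
    have e5 : μ' - μ = 0 := (mul_eq_zero.1 e4).resolve_right h6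
    rw [e5, zero_smul, sub_eq_zero] at e1
    rw [e5, zero_mul, sub_eq_zero] at e3
    have e6 : γ ^ 2 * ‖y‖ ^ 2 = γ' ^ 2 * ‖y'‖ ^ 2 := by
      have := congrArg (fun z => ‖z‖ ^ 2) e1
      simpa only [norm_smul, mul_pow, Real.norm_eq_abs, sq_abs] using this
    have e7 : γ ^ 2 = γ' ^ 2 := by
      apply mul_right_cancel₀ hn0
      linear_combination e6 / 2 - γ ^ 2 * hn
    have e8 : γ = γ' := by
      rcases sq_eq_sq_iff_eq_or_eq_neg.1 e7 with h7 | h7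
      · exact h7
      · exfalso
        rw [h7] at e3
        have : γ' * (⟪y, g₂⟫_ℝ + ⟪y', g₂⟫_ℝ) = 0 := by linarith
        rcases mul_eq_zero.1 this with h8 | h8
        · exact hγ' h8
        · linarith
    rw [e8] at e1
    exact smul_right_injective _ hγ' e1
  have hder : ∀ y ∈ good, HasFDerivAt (Phi (par a₀ v) a g₁ g₂)
      (fderiv ℝ (Phi (par a₀ v) a g₁ g₂) y) y ∧
      ENNReal.ofReal |(fderiv ℝ (Phi (par a₀ v) a g₁ g₂) y).det| =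
        jac (par a₀ v) (refl y a) g₁ g₂ y := by
    intro y hy
    obtain ⟨-, h2, -, h4, -, -⟩ := hmem y hy
    obtain ⟨D, hD, hJ⟩ := hasFDerivAt_Phi (g₁ := g₁) ha h2.ne' (good_par ha₀ hv hav (hx y) h4)
    rw [hD.fderiv]
    exact ⟨hD, hJ⟩
  rw [← setLIntegral_congr hae, ← setLIntegral_congr_fun hmeas (fun y hy => (hder y hy).2),
    lintegral_abs_det_fderiv_eq_addHaar_image volume hmeas
      (fun y hy => (hder y hy).1.hasFDerivWithinAt) hinj]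
  refine measure_mono ?_
  rintro _ ⟨y, hy, rfl⟩
  refine ⟨?_, ?_⟩
  · rw [hPn y hy]
    have := (hmem y hy).1
    nlinarith [norm_nonneg y]
  · rw [hPa y hy, abs_lt]
    exact ⟨Real.neg_pi_div_two_lt_arctan _, Real.arctan_lt_pi_div_two _⟩

end Pool.Agent.Ped
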