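import Pool.Agent.P.MP_e09f5c_gt.Defs

/-! Hausdorff measure on the sphere. -/

open MeasureTheory Metric Set Matrix Filter Topology
open scoped InnerProductSpace ENNReal

namespace Pool.Agent.Ped

variable {N : ℕ}

/-- The lift of the tangent hyperplane at `p` to the sphere. -/
noncomputable def sphLift (p : E N) (z : (ℝ ∙ p)ᗮ) : E N :=
  (z : E N) + Real.sqrt (1 - ‖z‖ ^ 2) • p

theorem sqrt_lip {a b : ℝ} (ha0 : 0 ≤ a) (hb0 : 0 ≤ b) (ha : a ≤ 1 / 2) (hb : b ≤ 1 / 2) :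
    |Real.sqrt (1 - a ^ 2) - Real.sqrt (1 - b ^ 2)| ≤ |a - b| := by
  have h1 : (1 / 2 : ℝ) ≤ Real.sqrt (1 - a ^ 2) := by
    apply Real.le_sqrt_of_sq_le; nlinarith
  have h2 : (1 / 2 : ℝ) ≤ Real.sqrt (1 - b ^ 2) := by
    apply Real.le_sqrt_of_sq_le; nlinarith
  have h3 : Real.sqrt (1 - a ^ 2) ^ 2 = 1 - a ^ 2 := Real.sq_sqrt (by nlinarith)
  have h4 : Real.sqrt (1 - b ^ 2) ^ 2 = 1 - b ^ 2 := Real.sq_sqrt (by nlinarith)
  set s := Real.sqrt (1 - a ^ 2)
  set t := Real.sqrt (1 - b ^ 2)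
  have h5 : (s - t) * (s + t) = (b - a) * (a + b) := by nlinarith
  have h6 : |s - t| * (s + t) = |a - b| * (a + b) := by
    have := congrArg abs h5
    rw [abs_mul, abs_mul, abs_of_nonneg (by linarith : 0 ≤ s + t),
      abs_of_nonneg (by linarith : 0 ≤ a + b), abs_sub_comm b a] at this
    exact this
  have h7 := abs_nonneg (s - t)
  have h8 := abs_nonneg (a - b)
  nlinarith

theorem sphLift_lip (p : E N) (hp : ‖p‖ = 1) :
    LipschitzOnWith 2 (sphLift p) (closedBall 0 (1 / 2)) := by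
  refine LipschitzOnWith.of_dist_le_mul fun z hz w hw => ?_
  rw [mem_closedBall, dist_zero_right] at hz hw
  rw [dist_eq_norm, dist_eq_norm]
  have e : sphLift p z - sphLift p w = ((z - w : (ℝ ∙ p)ᗮ) : E N)
      + (Real.sqrt (1 - ‖z‖ ^ 2) - Real.sqrt (1 - ‖w‖ ^ 2)) • p := by
    simp only [sphLift, Submodule.coe_sub, sub_smul]; abel
  rw [e]
  have h1 := sqrt_lip (norm_nonneg z) (norm_nonneg w) hz hw
  have h2 : |‖z‖ - ‖w‖| ≤ ‖z - w‖ := abs_norm_sub_norm_le z w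
  calc _ ≤ ‖((z - w : (ℝ ∙ p)ᗮ) : E N)‖
        + ‖(Real.sqrt (1 - ‖z‖ ^ 2) - Real.sqrt (1 - ‖w‖ ^ 2)) • p‖ := norm_add_le _ _
    _ = ‖z - w‖ + |Real.sqrt (1 - ‖z‖ ^ 2) - Real.sqrt (1 - ‖w‖ ^ 2)| := by
        rw [norm_smul, hp, mul_one, Real.norm_eq_abs]; rfl
    _ ≤ ((2 : NNReal) : ℝ) * ‖z - w‖ := by
        push_cast; linarith

theorem cap_subset (p : E N) (hp : ‖p‖ = 1) {r : ℝ} (hr : r ≤ 1 / 2) :
    closedBall p r ∩ sphere (0 : E N) 1 ⊆ sphLift p '' closedBall 0 r := by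
  rintro x ⟨hx1, hx2⟩
  rw [mem_closedBall, dist_eq_norm] at hx1
  rw [mem_sphere, dist_zero_right] at hx2
  have hpp : ⟪p, p⟫_ℝ = 1 := by rw [real_inner_self_eq_norm_sq, hp]; norm_num
  set t : ℝ := ⟪p, x⟫_ℝ with ht
  have hmem : x - t • p ∈ (ℝ ∙ p)ᗮ := by
    rw [Submodule.mem_orthogonal_singleton_iff_inner_right, inner_sub_right, inner_smul_right, hpp]
    ring
  have hd : ‖x - p‖ ^ 2 = 2 - 2 * t := by
    rw [norm_sub_sq_real, hx2, hp, real_inner_comm]; ring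
  have hz : ‖x - t • p‖ ^ 2 = 1 - t ^ 2 := by
    rw [norm_sub_sq_real, hx2, inner_smul_right, real_inner_comm, norm_smul, hp, ← ht]
    simp only [Real.norm_eq_abs, mul_one, sq_abs]; ring
  have hr0 : 0 ≤ r := (norm_nonneg _).trans hx1
  have hd2 : ‖x - p‖ ^ 2 ≤ r ^ 2 := by gcongr
  have ht0 : 0 ≤ t := by nlinarith
  refine ⟨⟨x - t • p, hmem⟩, ?_, ?_⟩
  · rw [mem_closedBall, dist_zero_right, Submodule.coe_norm]
    refine (pow_le_pow_iff_left₀ (norm_nonneg _) hr0 two_ne_zero).1 ?_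
    show ‖x - t • p‖ ^ 2 ≤ r ^ 2
    nlinarith [sq_nonneg (1 - t)]
  · simp only [sphLift, Submodule.coe_norm]
    rw [hz, show 1 - (1 - t ^ 2) = t ^ 2 by ring, Real.sqrt_sq ht0]
    abel

theorem sph_cap (p : E N) (hp : ‖p‖ = 1) :
    ∃ C : ℝ≥0∞, C < ∞ ∧ ∀ r : ℝ, 0 ≤ r → r ≤ 1 / 2 →
      sph N (closedBall p r) ≤ C * ENNReal.ofReal (r ^ (N + 1)) := by
  have hp0 : p ≠ 0 := by rintro rfl; simp at hp
  have : Fact (Module.finrank ℝ (E N) = (N + 1) + 1) := ⟨by simp⟩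
  have hfr : Module.finrank ℝ (ℝ ∙ p)ᗮ = N + 1 := Submodule.finrank_orthogonal_span_singleton hp0
  let μ : Measure (ℝ ∙ p)ᗮ := Measure.hausdorffMeasure ((Module.finrank ℝ (ℝ ∙ p)ᗮ : ℕ) : ℝ)
  have : μ.IsAddHaarMeasure := isAddHaarMeasure_hausdorffMeasure
  refine ⟨((2 : NNReal) : ℝ≥0∞) ^ ((N + 1 : ℕ) : ℝ) * μ (closedBall 0 1), ?_, fun r hr0 hr => ?_⟩
  · refine ENNReal.mul_lt_top ?_ (isCompact_closedBall _ _).measure_lt_top
    exact ENNReal.rpow_lt_top_of_nonneg (by positivity) ENNReal.coe_ne_top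
  · have h1 : sph N (closedBall p r) ≤ Measure.hausdorffMeasure ((N + 1 : ℕ) : ℝ)
        (sphLift p '' closedBall 0 r) := by
      rw [sph, Measure.restrict_apply measurableSet_closedBall]
      exact measure_mono (cap_subset p hp hr)
    have h2 := ((sphLift_lip p hp).mono
      (closedBall_subset_closedBall hr)).hausdorffMeasure_image_le
      (d := ((N + 1 : ℕ) : ℝ)) (by positivity)
    have h3 := Measure.addHaar_closedBall' μ (0 : (ℝ ∙ p)ᗮ) hr0
    have h4 : (Measure.hausdorffMeasure ((N + 1 : ℕ) : ℝ) : Measure (ℝ ∙ p)ᗮ) = μ := by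
      simp only [μ, hfr]
    rw [h4, h3, hfr] at h2
    refine h1.trans (h2.trans (le_of_eq ?_))
    ring

theorem sph_univ_lt_top (N : ℕ) : sph N univ < ∞ := by
  have h1 : sph N univ = sph N (sphere (0 : E N) 1) := by
    rw [sph, Measure.restrict_apply MeasurableSet.univ,
      Measure.restrict_apply isClosed_sphere.measurableSet, univ_inter, inter_self]
  rw [h1]
  refine (isCompact_sphere (0 : E N) 1).measure_lt_top_of_nhdsWithin fun p hp => ?_
  rw [mem_sphere, dist_zero_right] at hp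
  obtain ⟨C, hC, h⟩ := sph_cap p hp
  refine ⟨closedBall p (1 / 2), mem_nhdsWithin_of_mem_nhds (closedBall_mem_nhds p (by norm_num)), ?_⟩
  exact (h _ (by norm_num) le_rfl).trans_lt (ENNReal.mul_lt_top hC ENNReal.ofReal_lt_top)

instance : IsFiniteMeasure (sph N) := ⟨sph_univ_lt_top N⟩

theorem sph_preserving (e : E N ≃ₗᵢ[ℝ] E N) : MeasurePreserving e (sph N) (sph N) := by
  have h := e.toIsometryEquiv.measurePreserving_hausdorffMeasure ((N + 1 : ℕ) : ℝ)
  have h2 := h.restrict_preimage (s := sphere (0 : E N) 1) isClosed_sphere.measurableSet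
  have h3 : (e.toIsometryEquiv : E N → E N) ⁻¹' sphere (0 : E N) 1 = sphere (0 : E N) 1 := by
    ext x
    simp
  rw [h3] at h2
  exact h2

theorem ae_sph (p : E N) : ∀ᵐ x ∂sph N, ‖x‖ = 1 ∧ x ≠ p := by
  have := Measure.nullSingletonClass_hausdorff (E N) (d := ((N + 1 : ℕ) : ℝ)) (by positivity)
  have h1 : ∀ᵐ x ∂sph N, x ∈ sphere (0 : E N) 1 := ae_restrict_mem isClosed_sphere.measurableSet
  have h2 : ∀ᵐ x ∂sph N, x ≠ p := by
    apply ae_restrict_of_ae
    rw [ae_iff]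
    simp only [ne_eq, not_not, ofPred_eq_eq_singleton, measure_singleton]
  filter_upwards [h1, h2] with x hx1 hx2
  exact ⟨by simpa using hx1, hx2⟩

theorem inv_pow_le_tsum (p x : E N) :
    ENNReal.ofReal ((‖x - p‖ ^ N)⁻¹) ≤ ENNReal.ofReal (2 ^ N) + ∑' k : ℕ,
      (closedBall p ((1 / 2 : ℝ) ^ (k + 1))).indicator
        (fun _ => ENNReal.ofReal (2 ^ ((k + 2) * N))) x := by
  set d := ‖x - p‖ with hd
  have hd0 : 0 ≤ d := norm_nonneg _
  by_cases h1 : 1 / 2 ≤ d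
  · refine le_add_right (ENNReal.ofReal_le_ofReal ?_)
    rw [← inv_pow]
    gcongr
    rw [inv_le_comm₀ (by linarith) (by norm_num)]
    linarith
  rcases hd0.eq_or_lt with h0 | h0
  · refine le_add_right (ENNReal.ofReal_le_ofReal ?_)
    rw [← h0, ← inv_pow, _root_.inv_zero]
    gcongr
    norm_num
  obtain ⟨k, hk1, hk2⟩ := exists_nat_pow_near_of_lt_one (x := 2 * d) (y := (1 / 2 : ℝ))
    (by linarith) (by linarith) (by norm_num) (by norm_num)
  refine le_add_left (le_trans ?_ (ENNReal.le_tsum k))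
  have hx : x ∈ closedBall p ((1 / 2 : ℝ) ^ (k + 1)) := by
    rw [mem_closedBall, dist_eq_norm, ← hd, pow_succ]; linarith
  rw [indicator_of_mem hx]
  refine ENNReal.ofReal_le_ofReal ?_
  rw [← inv_pow, pow_mul]
  gcongr
  rw [inv_le_comm₀ h0 (by positivity), ← inv_pow, pow_succ]
  have : (2 : ℝ)⁻¹ = 1 / 2 := by norm_num
  rw [this]
  linarith

theorem integrable_sph (p : E N) (hp : ‖p‖ = 1) :
    Integrable (fun x : E N => (‖x - p‖ ^ N)⁻¹) (sph N) := by
  refine ⟨(by fun_prop : Measurable fun x : E N => (‖x - p‖ ^ N)⁻¹).aestronglyMeasurable, ?_⟩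
  rw [hasFiniteIntegral_iff_ofReal (Eventually.of_forall fun x => by positivity)]
  obtain ⟨C, hC, h⟩ := sph_cap p hp
  refine (lintegral_mono fun x => inv_pow_le_tsum p x).trans_lt ?_
  rw [lintegral_add_left measurable_const, lintegral_const, lintegral_tsum
    fun k => (measurable_const.indicator measurableSet_closedBall).aemeasurable]
  refine ENNReal.add_lt_top.2 ⟨ENNReal.mul_lt_top ENNReal.ofReal_lt_top (sph_univ_lt_top N), ?_⟩
  have hk : ∀ k : ℕ, ∫⁻ x, (closedBall p ((1 / 2 : ℝ) ^ (k + 1))).indicator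
        (fun _ => ENNReal.ofReal (2 ^ ((k + 2) * N))) x ∂sph N
        ≤ C * ENNReal.ofReal (2 ^ N * (1 / 2) ^ (k + 1)) := by
    intro k
    rw [lintegral_indicator_const measurableSet_closedBall]
    have h2 : ((1 / 2 : ℝ)) ^ (k + 1) ≤ 1 / 2 := by
      rw [pow_succ]
      have : ((1 / 2 : ℝ)) ^ k ≤ 1 := pow_le_one₀ (by norm_num) (by norm_num)
      linarith
    calc _ ≤ ENNReal.ofReal (2 ^ ((k + 2) * N)) *
          (C * ENNReal.ofReal (((1 / 2 : ℝ) ^ (k + 1)) ^ (N + 1))) := by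
          gcongr
          exact h _ (by positivity) h2
      _ = C * ENNReal.ofReal (2 ^ ((k + 2) * N) * ((1 / 2 : ℝ) ^ (k + 1)) ^ (N + 1)) := by
          rw [ENNReal.ofReal_mul (by positivity)]; ring
      _ = _ := by
          congr 2
          have e1 : (2 : ℝ) ^ (k + 1) * (1 / 2) ^ (k + 1) = 1 := by
            rw [← mul_pow]; norm_num
          calc (2 : ℝ) ^ ((k + 2) * N) * ((1 / 2 : ℝ) ^ (k + 1)) ^ (N + 1)
              = 2 ^ N * ((2 : ℝ) ^ (k + 1) * (1 / 2) ^ (k + 1)) ^ N * (1 / 2) ^ (k + 1) := by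
                rw [show (k + 2) * N = N + (k + 1) * N by ring, pow_add, pow_mul, mul_pow,
                  pow_succ (((1 / 2 : ℝ)) ^ (k + 1)) N]
                simp only [mul_assoc]
            _ = _ := by rw [e1]; ring
  refine (ENNReal.tsum_le_tsum hk).trans_lt ?_
  rw [ENNReal.tsum_mul_left]
  refine ENNReal.mul_lt_top hC ?_
  have hs : Summable fun k : ℕ => (2 : ℝ) ^ N * (1 / 2) ^ (k + 1) := by
    refine Summable.mul_left _ ?_
    exact (summable_nat_add_iff 1).2 summable_geometric_two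
  rw [← ENNReal.ofReal_tsum_of_nonneg (fun k => by positivity) hs]
  exact ENNReal.ofReal_lt_top

end Pool.Agent.Ped
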