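import Pool.Agent.P.MP_e09f5c_gt.Coord
import Pool.Agent.P.MP_e09f5c_gt.Inject
import Pool.Agent.P.MP_e09f5c_gt.Sph

/-! Smooth fields approximating the parallel transport field in volume. -/

open MeasureTheory Metric Set Matrix Filter Topology
open scoped InnerProductSpace ENNReal

namespace Pool.Agent.Ped

variable {N : ℕ}

namespace Apx

/-- A skew map which is isometric on the complement of `a` and `v`. -/
structure Skew (a v : E N) (J : E N →L[ℝ] E N) : Prop where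
  self : ∀ x, ⟪x, J x⟫_ℝ = 0
  left : ∀ x, ⟪a, J x⟫_ℝ = 0
  right : ∀ x, ⟪v, J x⟫_ℝ = 0
  norm : ∀ x, ‖J x‖ ^ 2 = ‖x‖ ^ 2 - ⟪a, x⟫_ℝ ^ 2 - ⟪v, x⟫_ℝ ^ 2

/-- The pairing of the coordinates. -/
def sig (m : ℕ) (i : Fin (2 * m + 2)) : Fin (2 * m + 2) :=
  ⟨if (i : ℕ) < 2 then i else 2 * m + 3 - i, by have := i.2; split_ifs <;> omega⟩

theorem sig_sig (m : ℕ) (i : Fin (2 * m + 2)) : sig m (sig m i) = i := by
  have := i.2
  apply Fin.ext
  simp only [sig]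
  split_ifs <;> omega

/-- The signs. -/
def sgn (m : ℕ) (i : Fin (2 * m + 2)) : ℝ :=
  if (i : ℕ) < 2 then 0 else if 2 * (i : ℕ) < 2 * m + 3 then 1 else -1

theorem sgn_sig (m : ℕ) (i : Fin (2 * m + 2)) : sgn m (sig m i) = -sgn m i := by
  have := i.2
  simp only [sgn, sig]
  split_ifs <;> first | omega | simp

theorem sgn_sq (m : ℕ) (i : Fin (2 * m)) : sgn m i.succ.succ ^ 2 = 1 := by
  simp only [sgn, Fin.val_succ]
  split_ifs <;> first | omega | simp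

theorem exists_skew (m : ℕ) {a v : E (2 * m)} (ha : ‖a‖ = 1) (hv : ‖v‖ = 1)
    (hav : ⟪a, v⟫_ℝ = 0) : ∃ J, Skew a v J := by
  obtain ⟨b, h0, h1⟩ := exists_basis ha hv hav
  let σ : Equiv.Perm (Fin (2 * m + 2)) := Function.Involutive.toPerm _ (sig_sig m)
  let J : E (2 * m) →L[ℝ] E (2 * m) :=
    ∑ i, (sgn m i • innerSL ℝ (b (sig m i))).smulRight (b i)
  have hJ : ∀ x i, ⟪b i, J x⟫_ℝ = sgn m i * ⟪b (sig m i), x⟫_ℝ := by
    intro x i
    simp only [J, _root_.sum_apply, ContinuousLinearMap.smulRight_apply,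
      _root_.smul_apply, innerSL_apply_apply, smul_eq_mul]
    exact b.orthonormal.inner_right_fintype _ i
  have s0 : sgn m 0 = 0 := by simp [sgn]
  have s1 : sgn m 1 = 0 := by simp [sgn]
  refine ⟨J, fun x => ?_, fun x => by rw [← h0, hJ, s0, zero_mul],
    fun x => by rw [← h1, hJ, s1, zero_mul], fun x => ?_⟩
  · have h2 := b.sum_inner_mul_inner x (J x)
    simp only [hJ, real_inner_comm (b _) x] at h2
    have h3 := Equiv.sum_comp σ fun i => ⟪b i, x⟫_ℝ * (sgn m i * ⟪b (sig m i), x⟫_ℝ)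
    simp only [σ, Function.Involutive.coe_toPerm, sig_sig, sgn_sig] at h3
    rw [h2] at h3
    have h4 : ∑ i, ⟪b (sig m i), x⟫_ℝ * (-sgn m i * ⟪b i, x⟫_ℝ) = -⟪x, J x⟫_ℝ := by
      rw [← h2, ← Finset.sum_neg_distrib]
      exact Finset.sum_congr rfl fun i _ => by ring
    linarith
  · have h2 := b.sum_sq_inner_right (J x)
    have h3 := b.sum_sq_inner_right x
    have h4 := Equiv.sum_comp σ fun i => (sgn m i * ⟪b (sig m i), x⟫_ℝ) ^ 2
    simp only [σ, Function.Involutive.coe_toPerm, sig_sig, sgn_sig] at h4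
    simp only [hJ] at h2
    rw [← h2, ← h4, ← h3, Fin.sum_univ_succ, Fin.sum_univ_succ, Fin.sum_univ_succ,
      Fin.sum_univ_succ, Fin.succ_zero_eq_one, s0, s1, h0, h1]
    simp only [mul_pow, neg_sq, sgn_sq]
    simp

variable (a v : E N) (J : E N →L[ℝ] E N)

/-- The numerator. -/
noncomputable def num (e : ℝ) (x : E N) : E N :=
  (1 - e ^ 2 + (1 + e ^ 2) * ⟪a, x⟫_ℝ) • v - ⟪v, x⟫_ℝ • ((1 - e ^ 2) • x + (1 + e ^ 2) • a)
    + (2 * e) • J x

/-- The derivative of the numerator. -/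
noncomputable def num' (e : ℝ) (x : E N) : E N →L[ℝ] E N :=
  ((1 + e ^ 2) • innerSL ℝ a).smulRight v
    - (⟪v, x⟫_ℝ • (1 - e ^ 2) • ContinuousLinearMap.id ℝ (E N)
      + (innerSL ℝ v).smulRight ((1 - e ^ 2) • x + (1 + e ^ 2) • a)) + (2 * e) • J

/-- The denominator on the sphere. -/
noncomputable def den (e : ℝ) (x : E N) : ℝ := 1 + e ^ 2 + (1 - e ^ 2) * ⟪a, x⟫_ℝ

/-- A positive extension of the denominator. -/
noncomputable def den₁ (e : ℝ) (x : E N) : ℝ :=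
  (1 + e ^ 2) * ((1 + ⟪x, x⟫_ℝ) / 2) + (1 - e ^ 2) * ⟪a, x⟫_ℝ

/-- The approximating field. -/
noncomputable def fld (e : ℝ) (x : E N) : E N := (den₁ a e x)⁻¹ • num a v J e x

/-- The tangential derivative. -/
noncomputable def der (e : ℝ) (x : E N) : E N →L[ℝ] E N :=
  (den a e x)⁻¹ • num' a v J e x
    - ((den a e x) ^ 2)⁻¹ • ((1 - e ^ 2) • innerSL ℝ a).smulRight (num a v J e x)

theorem hasFDerivAt_num (e : ℝ) (x : E N) : HasFDerivAt (num a v J e) (num' a v J e x) x := by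
  have h1 : HasFDerivAt (fun y : E N => 1 - e ^ 2 + (1 + e ^ 2) * ⟪a, y⟫_ℝ)
      ((1 + e ^ 2) • innerSL ℝ a) x :=
    ((innerSL ℝ a).hasFDerivAt.const_mul (1 + e ^ 2)).const_add (1 - e ^ 2)
  have h2 : HasFDerivAt (fun y : E N => ⟪v, y⟫_ℝ) (innerSL ℝ v) x := (innerSL ℝ v).hasFDerivAt
  have h3 : HasFDerivAt (fun y : E N => (1 - e ^ 2) • y + (1 + e ^ 2) • a)
      ((1 - e ^ 2) • ContinuousLinearMap.id ℝ (E N)) x :=
    ((hasFDerivAt_id x).const_smul (1 - e ^ 2)).add_const ((1 + e ^ 2) • a)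
  have h4 : HasFDerivAt (fun y : E N => (2 * e) • J y) ((2 * e) • J) x :=
    J.hasFDerivAt.const_smul (2 * e)
  exact ((h1.smul_const v).fun_sub (h2.fun_smul h3)).fun_add h4

theorem hasFDerivAt_quot {M : E N → E N} {d : E N → ℝ} {M' : E N →L[ℝ] E N} {d' : E N →L[ℝ] ℝ}
    {x : E N} (hM : HasFDerivAt M M' x) (hd : HasFDerivAt d d' x) (h0 : d x ≠ 0) :
    HasFDerivAt (fun y => (d y)⁻¹ • M y)
      ((d x)⁻¹ • M' - ((d x) ^ 2)⁻¹ • d'.smulRight (M x)) x := by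
  have h1 := ((hasDerivAt_inv h0).comp_hasFDerivAt x hd).smul hM
  refine h1.congr_fderiv (ContinuousLinearMap.ext fun w => ?_)
  simp only [Function.comp_apply, _root_.add_apply, _root_.smul_apply,
    ContinuousLinearMap.smulRight_apply, _root_.sub_apply, smul_eq_mul]
  module

theorem proj_apply (x w : E N) : proj x w = w - ⟪x, w⟫_ℝ • x := rfl

theorem inner_proj {x : E N} (hx : ‖x‖ = 1) (w : E N) : ⟪x, proj x w⟫_ℝ = 0 := by
  rw [proj_apply, inner_sub_right, real_inner_smul_right, real_inner_self_eq_norm_sq, hx]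
  ring

theorem norm_proj_le {x : E N} (hx : ‖x‖ = 1) (w : E N) : ‖proj x w‖ ≤ ‖w‖ := by
  have h : ‖proj x w‖ ^ 2 = ‖w‖ ^ 2 - ⟪x, w⟫_ℝ ^ 2 := by
    rw [proj_apply, norm_sub_sq_real, real_inner_smul_right, norm_smul, hx, mul_one,
      Real.norm_eq_abs, sq_abs, real_inner_comm]
    ring
  exact abs_le_of_sq_le_sq' (by nlinarith [sq_nonneg ⟪x, w⟫_ℝ]) (norm_nonneg _) |>.2

variable {a v J}

theorem den₁_eq (e : ℝ) {x : E N} (hx : ‖x‖ = 1) : den₁ a e x = den a e x := by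
  rw [den₁, den, real_inner_self_eq_norm_sq, hx]
  ring

theorem den₁_pos (ha : ‖a‖ = 1) {e : ℝ} (he : 0 < e) (x : E N) : 0 < den₁ a e x := by
  have h1 : ‖x + a‖ ^ 2 = ‖x‖ ^ 2 + 2 * ⟪a, x⟫_ℝ + 1 := by
    rw [norm_add_sq_real, ha, real_inner_comm]; ring
  have h2 : ‖x - a‖ ^ 2 = ‖x‖ ^ 2 - 2 * ⟪a, x⟫_ℝ + 1 := by
    rw [norm_sub_sq_real, ha, real_inner_comm]; ring
  have h3 : den₁ a e x = (‖x + a‖ ^ 2 + e ^ 2 * ‖x - a‖ ^ 2) / 2 := by
    rw [h1, h2, den₁, real_inner_self_eq_norm_sq]; ring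
  have h4 : 0 < e ^ 2 := by positivity
  rw [h3]
  rcases (sq_nonneg ‖x + a‖).eq_or_lt with h | h
  · have : 0 < ‖x - a‖ ^ 2 := by nlinarith [sq_nonneg ‖x‖]
    positivity
  · positivity

theorem contDiff_fld (ha : ‖a‖ = 1) {e : ℝ} (he : 0 < e) :
    ContDiff ℝ (⊤ : ℕ∞) (fld a v J e) := by
  have h1 : ∀ u : E N, ContDiff ℝ (⊤ : ℕ∞) fun x : E N => ⟪u, x⟫_ℝ :=
    fun u => contDiff_const.inner ℝ contDiff_id
  have h2 : ContDiff ℝ (⊤ : ℕ∞) fun x : E N => ⟪x, x⟫_ℝ := contDiff_id.inner ℝ contDiff_id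
  refine ContDiff.smul (ContDiff.inv ?_ fun x => (den₁_pos ha he x).ne') ?_
  · exact (contDiff_const.mul ((contDiff_const.add h2).div_const 2)).add
      (contDiff_const.mul (h1 a))
  · exact (((contDiff_const.add (contDiff_const.mul (h1 a))).smul contDiff_const).sub
      ((h1 v).smul ((contDiff_id.const_smul _).add contDiff_const))).add
      (J.contDiff.const_smul _)

theorem inner_num (hJ : Skew a v J) (e : ℝ) {x : E N} (hx : ‖x‖ = 1) :
    ⟪x, num a v J e x⟫_ℝ = 0 := by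
  simp only [num, inner_add_right, inner_sub_right, real_inner_smul_right, hJ.self,
    real_inner_self_eq_norm_sq, hx, real_inner_comm a x, real_inner_comm v x]
  ring

theorem norm_num (ha : ‖a‖ = 1) (hv : ‖v‖ = 1) (hav : ⟪a, v⟫_ℝ = 0) (hJ : Skew a v J) (e : ℝ)
    {x : E N} (hx : ‖x‖ = 1) : ‖num a v J e x‖ ^ 2 = den a e x ^ 2 := by
  have h1 : ⟪J x, x⟫_ℝ = 0 := by rw [real_inner_comm, hJ.self]
  have h2 : ⟪J x, a⟫_ℝ = 0 := by rw [real_inner_comm, hJ.left]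
  have h3 : ⟪J x, v⟫_ℝ = 0 := by rw [real_inner_comm, hJ.right]
  have h4 : ⟪v, a⟫_ℝ = 0 := by rw [real_inner_comm, hav]
  have h5 : ⟪x, x⟫_ℝ = 1 := by rw [real_inner_self_eq_norm_sq, hx, one_pow]
  have h6 : ⟪a, a⟫_ℝ = 1 := by rw [real_inner_self_eq_norm_sq, ha, one_pow]
  have h7 : ⟪v, v⟫_ℝ = 1 := by rw [real_inner_self_eq_norm_sq, hv, one_pow]
  have h8 : ⟪J x, J x⟫_ℝ = 1 - ⟪a, x⟫_ℝ ^ 2 - ⟪v, x⟫_ℝ ^ 2 := by
    rw [real_inner_self_eq_norm_sq, hJ.norm, hx, one_pow]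
  rw [← real_inner_self_eq_norm_sq]
  simp only [num, den, inner_add_right, inner_sub_right, real_inner_smul_right, inner_add_left,
    inner_sub_left, real_inner_smul_left, hJ.self, hJ.left, hJ.right, h1, h2, h3, h4, hav,
    h5, h6, h7, h8, real_inner_comm a x, real_inner_comm v x]
  ring

theorem fld_unit (ha : ‖a‖ = 1) (hv : ‖v‖ = 1) (hav : ⟪a, v⟫_ℝ = 0) (hJ : Skew a v J) {e : ℝ}
    (he : 0 < e) (x : E N) (hx : x ∈ sphere (0 : E N) 1) :
    ⟪x, fld a v J e x⟫_ℝ = 0 ∧ ‖fld a v J e x‖ = 1 := by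
  have hx' : ‖x‖ = 1 := mem_sphere_zero_iff_norm.1 hx
  have h0 := den₁_pos ha he x
  refine ⟨by rw [fld, real_inner_smul_right, inner_num hJ e hx', mul_zero], ?_⟩
  have h1 := norm_num ha hv hav hJ e hx'
  rw [← den₁_eq e hx', sq_eq_sq₀ (norm_nonneg _) h0.le] at h1
  rw [fld, norm_smul, h1, norm_inv, Real.norm_of_nonneg h0.le, inv_mul_cancel₀ h0.ne']

theorem cov_fld (ha : ‖a‖ = 1) {e : ℝ} (he : 0 < e) {x : E N} (hx : ‖x‖ = 1) :
    cov (fld a v J e) x = proj x * der a v J e x * proj x := by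
  have h1 := (innerSL ℝ a).hasFDerivAt (x := x)
  have h2 := (hasFDerivAt_id x).inner ℝ (hasFDerivAt_id x)
  have h3 : HasFDerivAt (den₁ a e) _ x :=
    ((((h2.const_add 1).mul_const (2 : ℝ)⁻¹).const_mul (1 + e ^ 2))).add (h1.const_mul (1 - e ^ 2))
  have h4 := (hasFDerivAt_quot (hasFDerivAt_num a v J e x) h3 (den₁_pos ha he x).ne').fderiv
  refine ContinuousLinearMap.ext fun w => ?_
  have h5 := inner_proj hx w
  have h6 : ⟪proj x w, x⟫_ℝ = 0 := by rw [real_inner_comm, h5]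
  change proj x (fderiv ℝ (fun y => (den₁ a e y)⁻¹ • num a v J e y) x (proj x w)) =
    proj x (der a v J e x (proj x w))
  rw [h4, den₁_eq e hx]
  simp [der, h5, h6]

theorem one_add_eq (ha : ‖a‖ = 1) {x : E N} (hx : ‖x‖ = 1) :
    ‖x + a‖ ^ 2 = 2 * (1 + ⟪a, x⟫_ℝ) := by
  rw [norm_add_sq_real, ha, hx, real_inner_comm]; ring

theorem cov_par' (ha : ‖a‖ = 1) {x : E N} (hx : ‖x‖ = 1) (hxa : x ≠ -a) :
    cov (par a v) x = proj x * der a v J 0 x * proj x ∧ den a 0 x ≠ 0 := by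
  have h0 : den a 0 x ≠ 0 := by
    have h1 := one_add_eq ha hx
    have h2 : 0 < ‖x + a‖ := norm_pos_iff.2 fun h => hxa (eq_neg_of_add_eq_zero_left h)
    have h3 : 0 < ‖x + a‖ ^ 2 := by positivity
    rw [den]
    linarith
  have h1 := (innerSL ℝ a).hasFDerivAt (x := x)
  have h3 : HasFDerivAt (den a 0) _ x := (h1.const_mul (1 - (0 : ℝ) ^ 2)).const_add (1 + 0 ^ 2)
  have h4 := hasFDerivAt_quot (hasFDerivAt_num a v J 0 x) h3 h0
  have h5 : par a v =ᶠ[𝓝 x] fun y => (den a 0 y)⁻¹ • num a v J 0 y := by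
    filter_upwards [h3.continuousAt.eventually_ne h0] with y hy
    have h6 : den a 0 y = 1 + ⟪a, y⟫_ℝ := by rw [den]; ring
    rw [h6] at hy ⊢
    rw [par, num, real_inner_comm a y]
    match_scalars <;> field_simp <;> ring
  refine ⟨?_, h0⟩
  rw [cov, (h4.congr_of_eventuallyEq h5).fderiv]
  rfl

theorem continuousAt_der {x : E N} (h0 : den a 0 x ≠ 0) :
    ContinuousAt (fun e => der a v J e x) 0 := by
  have h1 : Continuous fun e => den a e x := by unfold den; fun_prop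
  have h2 : Continuous fun e => num a v J e x := by unfold num; fun_prop
  have h3 : ∀ {f : ℝ → E N →L[ℝ] ℝ} {g : ℝ → E N}, Continuous f → Continuous g →
      Continuous fun e => (f e).smulRight (g e) := fun hf hg =>
    ((ContinuousLinearMap.smulRightL ℝ (E N) (E N)).continuous₂.comp (hf.prodMk hg))
  have h4 : Continuous fun e => num' a v J e x := by
    unfold num'
    refine ((h3 (by fun_prop) continuous_const).sub (Continuous.add (by fun_prop)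
      (h3 continuous_const (by fun_prop)))).add (by fun_prop)
  exact ((h1.continuousAt.inv₀ h0).smul h4.continuousAt).sub
    (((h1.continuousAt.pow 2).inv₀ (pow_ne_zero 2 h0)).smul
      (h3 (by fun_prop) h2).continuousAt)

theorem norm_der_le (ha : ‖a‖ = 1) (hv : ‖v‖ = 1) (hav : ⟪a, v⟫_ℝ = 0) (hJ : Skew a v J) {e : ℝ}
    (he : 0 < e) (he1 : e ≤ 1) {x w : E N} (hx : ‖x‖ = 1) (hw : ⟪x, w⟫_ℝ = 0) :
    ‖x + a‖ * ‖der a v J e x w‖ ≤ 14 * ‖w‖ := by
  have hD : 0 < den a e x := den₁_eq (a := a) e hx ▸ den₁_pos ha he x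
  have hn := one_add_eq ha hx
  have hM := norm_num ha hv hav hJ e hx
  rw [sq_eq_sq₀ (norm_nonneg _) hD.le] at hM
  have ht : |⟪a, x⟫_ℝ| ≤ 1 := by
    have := abs_real_inner_le_norm a x
    rwa [ha, hx, mul_one] at this
  obtain ⟨ht1, ht2⟩ := abs_le.1 ht
  have he2 : e ^ 2 ≤ 1 := by nlinarith
  have he3 : e ^ 2 ≤ e := by nlinarith
  have he0 : 0 < e ^ 2 := by positivity
  have h1 : |⟪a, w⟫_ℝ| ≤ ‖x + a‖ * ‖w‖ := by
    have := abs_real_inner_le_norm (x + a) w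
    rwa [inner_add_left, hw, zero_add] at this
  have h2 : |⟪v, x⟫_ℝ| ≤ ‖x + a‖ := by
    have := abs_real_inner_le_norm v (x + a)
    rwa [inner_add_right, real_inner_comm a v, hav, add_zero, hv, one_mul] at this
  have h3 : |⟪v, w⟫_ℝ| ≤ ‖w‖ := by
    have := abs_real_inner_le_norm v w
    rwa [hv, one_mul] at this
  have h4 : ‖J w‖ ≤ ‖w‖ := (abs_le_of_sq_le_sq' (by
    rw [hJ.norm]
    nlinarith [sq_nonneg ⟪a, w⟫_ℝ, sq_nonneg ⟪v, w⟫_ℝ]) (norm_nonneg _)).2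
  have h5 : ‖(1 - e ^ 2) • x + (1 + e ^ 2) • a‖ ≤ ‖x + a‖ + 2 * e := by
    have : (1 - e ^ 2) • x + (1 + e ^ 2) • a = (1 - e ^ 2) • (x + a) + (2 * e ^ 2) • a := by module
    rw [this]
    refine (norm_add_le _ _).trans ?_
    rw [norm_smul, norm_smul, ha, Real.norm_of_nonneg (by linarith),
      Real.norm_of_nonneg (by linarith)]
    nlinarith [norm_nonneg (x + a)]
  set n := ‖x + a‖ with hn'
  have hn0 : 0 ≤ n := norm_nonneg _
  have hw0 : 0 ≤ ‖w‖ := norm_nonneg _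
  have h6 : ‖num' a v J e x w‖ ≤ (4 * n + 4 * e) * ‖w‖ := by
    have e1 : num' a v J e x w = ((1 + e ^ 2) * ⟪a, w⟫_ℝ) • v -
        ((⟪v, x⟫_ℝ * (1 - e ^ 2)) • w + ⟪v, w⟫_ℝ • ((1 - e ^ 2) • x + (1 + e ^ 2) • a)) +
        (2 * e) • J w := by
      simp [num', smul_smul]
    have b1 : ‖((1 + e ^ 2) * ⟪a, w⟫_ℝ) • v‖ ≤ 2 * (n * ‖w‖) := by
      rw [norm_smul, hv, mul_one, Real.norm_eq_abs, abs_mul, abs_of_nonneg (by linarith)]
      exact mul_le_mul (by linarith) h1 (abs_nonneg _) (by norm_num)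
    have b2 : ‖(⟪v, x⟫_ℝ * (1 - e ^ 2)) • w‖ ≤ n * ‖w‖ := by
      rw [norm_smul, Real.norm_eq_abs, abs_mul, abs_of_nonneg (a := 1 - e ^ 2) (by linarith)]
      refine mul_le_mul_of_nonneg_right ?_ hw0
      nlinarith [abs_nonneg ⟪v, x⟫_ℝ]
    have b3 : ‖⟪v, w⟫_ℝ • ((1 - e ^ 2) • x + (1 + e ^ 2) • a)‖ ≤ ‖w‖ * (n + 2 * e) := by
      rw [norm_smul, Real.norm_eq_abs]
      exact mul_le_mul h3 h5 (norm_nonneg _) hw0
    have b4 : ‖(2 * e) • J w‖ ≤ 2 * e * ‖w‖ := by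
      rw [norm_smul, Real.norm_of_nonneg (by linarith)]
      exact mul_le_mul_of_nonneg_left h4 (by linarith)
    rw [e1]
    refine (norm_add_le _ _).trans ((add_le_add ((norm_sub_le _ _).trans
      (add_le_add b1 ((norm_add_le _ _).trans (add_le_add b2 b3)))) b4).trans (le_of_eq ?_))
    ring
  have h7 : n ^ 2 ≤ 2 * den a e x := by
    rw [hn, den]
    nlinarith
  have h8 : 2 * e ^ 2 ≤ den a e x := by
    rw [den]
    nlinarith
  have h9 : n * e ≤ den a e x := by nlinarith [sq_nonneg (n - 2 * e)]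
  have e2 : der a v J e x w = (den a e x)⁻¹ • num' a v J e x w -
      (((den a e x) ^ 2)⁻¹ * ((1 - e ^ 2) * ⟪a, w⟫_ℝ)) • num a v J e x := by
    simp [der, smul_smul]
  have b5 : ‖(((den a e x) ^ 2)⁻¹ * ((1 - e ^ 2) * ⟪a, w⟫_ℝ)) • num a v J e x‖ ≤
      (den a e x)⁻¹ * (n * ‖w‖) := by
    rw [norm_smul, hM, Real.norm_eq_abs, abs_mul, abs_mul, abs_of_nonneg (by positivity),
      abs_of_nonneg (a := 1 - e ^ 2) (by linarith)]
    have : (1 - e ^ 2) * |⟪a, w⟫_ℝ| ≤ n * ‖w‖ := by nlinarith [abs_nonneg ⟪a, w⟫_ℝ]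
    calc _ = (den a e x)⁻¹ * ((1 - e ^ 2) * |⟪a, w⟫_ℝ|) := by field_simp
      _ ≤ _ := mul_le_mul_of_nonneg_left this (by positivity)
  have b6 : ‖(den a e x)⁻¹ • num' a v J e x w‖ ≤ (den a e x)⁻¹ * ((4 * n + 4 * e) * ‖w‖) := by
    rw [norm_smul, Real.norm_of_nonneg (by positivity)]
    exact mul_le_mul_of_nonneg_left h6 (by positivity)
  have b7 : ‖der a v J e x w‖ ≤ (den a e x)⁻¹ * ((5 * n + 4 * e) * ‖w‖) := by
    rw [e2]
    refine (norm_sub_le _ _).trans ((add_le_add b6 b5).trans (le_of_eq ?_))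
    ring
  calc n * ‖der a v J e x w‖ ≤ n * ((den a e x)⁻¹ * ((5 * n + 4 * e) * ‖w‖)) :=
        mul_le_mul_of_nonneg_left b7 hn0
    _ = (den a e x)⁻¹ * (5 * n ^ 2 + 4 * (n * e)) * ‖w‖ := by ring
    _ ≤ 14 * ‖w‖ := by
        refine mul_le_mul_of_nonneg_right ?_ hw0
        rw [inv_mul_le_iff₀ hD]
        linarith

theorem one_add_norm_cov_le (ha : ‖a‖ = 1) (hv : ‖v‖ = 1) (hav : ⟪a, v⟫_ℝ = 0) (hJ : Skew a v J)
    {e : ℝ} (he : 0 < e) (he1 : e ≤ 1) {x : E N} (hx : ‖x‖ = 1) (hxa : x ≠ -a) :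
    1 + ‖cov (fld a v J e) x‖ ≤ 16 * ‖x + a‖⁻¹ := by
  have h2 : 0 < ‖x + a‖ := norm_pos_iff.2 fun h => hxa (eq_neg_of_add_eq_zero_left h)
  have h3 : ‖x + a‖ ≤ 2 := by
    have := norm_add_le x a
    rw [hx, ha] at this
    linarith
  have h4 : ‖cov (fld a v J e) x‖ ≤ 14 * ‖x + a‖⁻¹ := by
    rw [cov_fld ha he hx]
    refine ContinuousLinearMap.opNorm_le_bound _ (by positivity) fun w => ?_
    refine (norm_proj_le hx (der a v J e x (proj x w))).trans ?_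
    have h5 := norm_der_le ha hv hav hJ he he1 hx (inner_proj hx w)
    have h6 := norm_proj_le hx w
    rw [mul_comm 14, mul_assoc, le_inv_mul_iff₀ h2]
    linarith
  have h5 : 1 ≤ 2 * ‖x + a‖⁻¹ := by
    rw [← div_eq_mul_inv, le_div_iff₀ h2]
    linarith
  linarith

end Apx

open Apx in
theorem approx (m : ℕ) {a v : E (2 * m)} (ha : ‖a‖ = 1) (hv : ‖v‖ = 1) (hav : ⟪a, v⟫_ℝ = 0)
    (ε : ℝ) (hε : 0 < ε) :
    ∃ V : E (2 * m) → E (2 * m), ContDiff ℝ (⊤ : ℕ∞) V ∧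
      (∀ x ∈ sphere (0 : E (2 * m)) 1, ⟪x, V x⟫_ℝ = 0 ∧ ‖V x‖ = 1) ∧
      ∫ x, dens (cov V x) ∂sph (2 * m) < ∫ x, dens (cov (par a v) x) ∂sph (2 * m) + ε := by
  obtain ⟨J, hJ⟩ := exists_skew m ha hv hav
  obtain ⟨C, hC0, hC⟩ := dens_le (N := 2 * m)
  have he : ∀ n : ℕ, (0 : ℝ) < 1 / ((n : ℝ) + 1) := fun n => by positivity
  have he1 : ∀ n : ℕ, 1 / ((n : ℝ) + 1) ≤ 1 := fun n => by
    rw [div_le_one (by positivity)]
    linarith [Nat.cast_nonneg (α := ℝ) n]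
  have key := tendsto_integral_of_dominated_convergence (μ := sph (2 * m))
    (F := fun (n : ℕ) x => dens (cov (fld a v J (1 / ((n : ℝ) + 1))) x))
    (f := fun x => dens (cov (par a v) x))
    (fun x => C * 16 ^ (2 * m) * (‖x - -a‖ ^ (2 * m))⁻¹)
    (fun n => (measurable_dens_cov _).aestronglyMeasurable)
    ((integrable_sph (-a) (by rw [norm_neg, ha])).const_mul _)
    (fun n => by
      filter_upwards [ae_sph (-a)] with x hx
      have h1 := hC (good_of_smooth (contDiff_fld ha (he n)) (fld_unit ha hv hav hJ (he n))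
        hx.1).frame
      rw [Real.norm_of_nonneg (show 0 ≤ dens _ from Real.sqrt_nonneg _), sub_neg_eq_add, mul_assoc, ← inv_pow,
        ← mul_pow]
      exact h1.trans (mul_le_mul_of_nonneg_left (pow_le_pow_left₀ (by positivity)
        (one_add_norm_cov_le ha hv hav hJ (he n) (he1 n) hx.1 hx.2) _) hC0))
    (by
      filter_upwards [ae_sph (-a)] with x hx
      obtain ⟨h1, h2⟩ := cov_par' (v := v) (J := J) ha hx.1 hx.2
      simp only [h1, cov_fld ha (he _) hx.1]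
      refine (continuous_dens.tendsto _).comp ?_
      exact (((continuousAt_der h2).tendsto.comp
        tendsto_one_div_add_atTop_nhds_zero_nat).const_mul _).mul_const _)
  obtain ⟨n, hn⟩ := (key.eventually (gt_mem_nhds (lt_add_of_pos_right _ hε))).exists
  exact ⟨_, contDiff_fld ha (he n), fld_unit ha hv hav hJ (he n), hn⟩

end Pool.Agent.Ped
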