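import Pool.Agent.P.MP_e09f5c_gt.MomBase

/-! Averaging of the quartic form against the reference weight. -/

open MeasureTheory Metric Set Matrix
open scoped InnerProductSpace ENNReal

namespace Pool.Agent.Ped

variable {n : ℕ}

theorem av4_tg_coord (i : Fin (n + 2)) :
    Function.HasTemperateGrowth fun Y : E n => WithLp.ofLp Y i :=
  (EuclideanSpace.proj (𝕜 := ℝ) i).hasTemperateGrowth

attribute [local fun_prop] av4_tg_coord

theorem av4_tg_tail (j : Fin n) : Function.HasTemperateGrowth fun Y : E n => tail Y j :=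
  av4_tg_coord _

attribute [local fun_prop] av4_tg_tail

theorem av4_tg_lam : Function.HasTemperateGrowth fun Y : E n => lam2 Y := by
  unfold lam2
  fun_prop

attribute [local fun_prop] av4_tg_lam

/-- A quadratic form in the last coordinates. -/
noncomputable def av4_quad (A : Fin n → Fin n → ℝ) (Y : E n) : ℝ :=
  ∑ i, ∑ j, A i j * (tail Y i * tail Y j)

theorem av4_tg_quad (A : Fin n → Fin n → ℝ) :
    Function.HasTemperateGrowth fun Y : E n => av4_quad A Y := by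
  unfold av4_quad
  fun_prop

attribute [local fun_prop] av4_tg_quad

theorem av4_int (hn : 2 ≤ n) {a b : ℝ} (hab : a ^ 2 + b ^ 2 ≤ 1) {f : E n → ℝ}
    (hf : f.HasTemperateGrowth) :
    Integrable fun Y : E n => |Y 0| ^ (n - 1) * f Y / den a b Y * Real.exp (-‖Y‖ ^ 2 / 2) := by
  obtain ⟨k, C, h⟩ := hf.2 0
  refine integrable_mom hn hab hf.1.continuous.measurable C k fun Y => ?_
  simpa using h Y

section Lin

variable {a b : ℝ}

theorem av4_add (hn : 2 ≤ n) (hab : a ^ 2 + b ^ 2 ≤ 1) {f g : E n → ℝ}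
    (hf : f.HasTemperateGrowth) (hg : g.HasTemperateGrowth) :
    mom a b (fun Y => f Y + g Y) = mom a b f + mom a b g := by
  unfold mom Gi
  rw [← integral_add (av4_int hn hab hf) (av4_int hn hab hg)]
  refine integral_congr_ae (Filter.Eventually.of_forall fun Y => ?_)
  ring

theorem av4_cmul (c : ℝ) (f : E n → ℝ) : mom a b (fun Y => c * f Y) = c * mom a b f := by
  unfold mom Gi
  rw [← integral_const_mul]
  refine integral_congr_ae (Filter.Eventually.of_forall fun Y => ?_)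
  ring

theorem av4_sum (hn : 2 ≤ n) (hab : a ^ 2 + b ^ 2 ≤ 1) {ι : Type*} (s : Finset ι)
    {f : ι → E n → ℝ} (hf : ∀ i, (f i).HasTemperateGrowth) :
    mom a b (fun Y => ∑ i ∈ s, f i Y) = ∑ i ∈ s, mom a b (f i) := by
  unfold mom Gi
  rw [← integral_finsetSum s fun i _ => av4_int hn hab (hf i)]
  refine integral_congr_ae (Filter.Eventually.of_forall fun Y => ?_)
  simp only [Finset.mul_sum, Finset.sum_div, Finset.sum_mul]

theorem av4_den_nonneg (Y : E n) : 0 ≤ den a b Y := Real.sqrt_nonneg _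

theorem av4_mono (hn : 2 ≤ n) (hab : a ^ 2 + b ^ 2 ≤ 1) {f g : E n → ℝ}
    (hf : f.HasTemperateGrowth) (hg : g.HasTemperateGrowth) (h : ∀ Y, f Y ≤ g Y) :
    mom a b f ≤ mom a b g := by
  unfold mom Gi
  refine integral_mono (av4_int hn hab hf) (av4_int hn hab hg) fun Y => ?_
  have := av4_den_nonneg (a := a) (b := b) Y
  have := h Y
  simp only
  gcongr

theorem av4_nonneg {f : E n → ℝ} (h : ∀ Y, 0 ≤ f Y) : 0 ≤ mom a b f := by
  unfold mom Gi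
  refine integral_nonneg fun Y => ?_
  have := av4_den_nonneg (a := a) (b := b) Y
  have := h Y
  simp only [Pi.zero_apply]
  positivity

theorem av4_comp {a' b' : ℝ} (e : E n ≃ₗᵢ[ℝ] E n) (h0 : ∀ Y, |e Y 0| = |Y 0|)
    (h1 : ∀ Y, a * e Y 0 + b * e Y 1 = a' * Y 0 + b' * Y 1) (f : E n → ℝ) :
    mom a' b' (fun Y => f (e Y)) = mom a b f := by
  unfold mom
  rw [← Gi_comp e fun Y => |Y 0| ^ (n - 1) * f Y / den a b Y]
  congr 1
  funext Y
  simp only [den, h0, h1, LinearIsometryEquiv.norm_map]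

end Lin

theorem av4_ne0 (j : Fin n) : (0 : Fin (n + 2)) ≠ j.succ.succ := (Fin.succ_ne_zero _).symm

theorem av4_ne1 (j : Fin n) : (1 : Fin (n + 2)) ≠ j.succ.succ := by
  rw [← Fin.succ_zero_eq_one]
  exact fun h => Fin.succ_ne_zero j (Fin.succ_injective _ h).symm

theorem av4_flip_tail (i : Fin n) :
    ∃ e : E n ≃ₗᵢ[ℝ] E n, ∀ Y : E n, e Y 0 = Y 0 ∧ e Y 1 = Y 1 ∧ tail (e Y) i = -tail Y i ∧
      (∀ j, j ≠ i → tail (e Y) j = tail Y j) ∧ lam2 (e Y) = lam2 Y := by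
  obtain ⟨e, he⟩ := exists_flip (n := n) i.succ.succ
  have h2 : ∀ (Y : E n) j, j ≠ i → tail (e Y) j = tail Y j := fun Y j hj =>
    (he Y).2 _ fun h => hj (Fin.succ_injective _ (Fin.succ_injective _ h))
  refine ⟨e, fun Y => ⟨(he Y).2 _ (av4_ne0 i), (he Y).2 _ (av4_ne1 i), (he Y).1, h2 Y, ?_⟩⟩
  refine Finset.sum_congr rfl fun j _ => ?_
  by_cases hj : j = i
  · have : tail (e Y) i = -tail Y i := (he Y).1
    rw [hj, this]; ring
  · rw [h2 Y j hj]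

theorem av4_swap (i j : Fin n) :
    ∃ e : E n ≃ₗᵢ[ℝ] E n, ∀ Y : E n, e Y 0 = Y 0 ∧ e Y 1 = Y 1 ∧ tail (e Y) i = tail Y j ∧
      lam2 (e Y) = lam2 Y := by
  let σ : Equiv.Perm (Fin (n + 2)) := Equiv.swap i.succ.succ j.succ.succ
  let e : E n ≃ₗᵢ[ℝ] E n := LinearIsometryEquiv.piLpCongrLeft 2 ℝ ℝ σ
  have he : ∀ (Y : E n) k, e Y k = Y (σ k) := fun Y k => by
    simp [e, σ, LinearIsometryEquiv.piLpCongrLeft_apply, Equiv.piCongrLeft'_apply]
  have h0 : ∀ Y : E n, e Y 0 = Y 0 := fun Y => by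
    rw [he, Equiv.swap_apply_of_ne_of_ne (av4_ne0 i) (av4_ne0 j)]
  have h1 : ∀ Y : E n, e Y 1 = Y 1 := fun Y => by
    rw [he, Equiv.swap_apply_of_ne_of_ne (av4_ne1 i) (av4_ne1 j)]
  refine ⟨e, fun Y => ⟨h0 Y, h1 Y, ?_, ?_⟩⟩
  · show e Y i.succ.succ = Y j.succ.succ
    rw [he, Equiv.swap_apply_left]
  · have a1 := st_norm_sq (e Y)
    have a2 := st_norm_sq Y
    rw [h0, h1, e.norm_map] at a1
    have : tail (e Y) ⬝ᵥ tail (e Y) = tail Y ⬝ᵥ tail Y := by linarith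
    simpa only [lam2, dotProduct, pow_two] using this

theorem av4_flip_pair {ε δ : ℝ} (hε : ε = 1 ∨ ε = -1) (hδ : δ = 1 ∨ δ = -1) :
    ∃ e : E n ≃ₗᵢ[ℝ] E n, ∀ Y : E n, e Y 0 = ε * Y 0 ∧ e Y 1 = δ * Y 1 ∧ tail (e Y) = tail Y := by
  obtain ⟨e0, he0⟩ := exists_flip (n := n) 0
  obtain ⟨e1, he1⟩ := exists_flip (n := n) 1
  have h01 : (1 : Fin (n + 2)) ≠ 0 := by simp
  have t0 : ∀ Y : E n, tail (e0 Y) = tail Y := fun Y =>
    funext fun j => (he0 Y).2 _ (av4_ne0 j).symm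
  have t1 : ∀ Y : E n, tail (e1 Y) = tail Y := fun Y =>
    funext fun j => (he1 Y).2 _ (av4_ne1 j).symm
  rcases hε with rfl | rfl <;> rcases hδ with rfl | rfl
  · exact ⟨LinearIsometryEquiv.refl ℝ _, fun Y => by simp⟩
  · exact ⟨e1, fun Y => ⟨by rw [(he1 Y).2 0 h01.symm, one_mul], by rw [(he1 Y).1]; ring, t1 Y⟩⟩
  · exact ⟨e0, fun Y => ⟨by rw [(he0 Y).1]; ring, by rw [(he0 Y).2 1 h01, one_mul], t0 Y⟩⟩
  · refine ⟨e0.trans e1, fun Y => ?_⟩
    simp only [LinearIsometryEquiv.trans_apply]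
    exact ⟨by rw [(he1 _).2 0 h01.symm, (he0 Y).1]; ring,
      by rw [(he1 _).1, (he0 Y).2 1 h01]; ring, by rw [t1, t0]⟩

theorem av4_neg_tail :
    ∃ e : E n ≃ₗᵢ[ℝ] E n, ∀ Y : E n, e Y 0 = Y 0 ∧ e Y 1 = Y 1 ∧ tail (e Y) = -tail Y := by
  obtain ⟨e, he⟩ := av4_flip_pair (n := n) (ε := -1) (δ := -1) (Or.inr rfl) (Or.inr rfl)
  refine ⟨(LinearIsometryEquiv.neg ℝ).trans e, fun Y => ?_⟩
  simp only [LinearIsometryEquiv.trans_apply, LinearIsometryEquiv.coe_neg]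
  refine ⟨by rw [(he _).1]; simp, by rw [(he _).2.1]; simp, ?_⟩
  rw [(he _).2.2]
  funext j
  simp [tail]

section Second

variable {a b : ℝ} {g : ℝ → ℝ → ℝ → ℝ}

theorem av4_off {i j : Fin n} (hij : i ≠ j) :
    mom a b (fun Y : E n => g (Y 0) (Y 1) (lam2 Y) * (tail Y i * tail Y j)) = 0 := by
  obtain ⟨e, he⟩ := av4_flip_tail i
  have h := av4_comp (a := a) (b := b) (a' := a) (b' := b) e (fun Y => by rw [(he Y).1])
    (fun Y => by rw [(he Y).1, (he Y).2.1])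
    (fun Y : E n => g (Y 0) (Y 1) (lam2 Y) * (tail Y i * tail Y j))
  have h2 : (fun Y : E n => g (e Y 0) (e Y 1) (lam2 (e Y)) * (tail (e Y) i * tail (e Y) j))
      = fun Y : E n => (-1) * (g (Y 0) (Y 1) (lam2 Y) * (tail Y i * tail Y j)) := by
    funext Y
    obtain ⟨h0, h1, h2, h3, h4⟩ := he Y
    rw [h0, h1, h2, h3 j hij.symm, h4]; ring
  rw [h2, av4_cmul] at h
  linarith

theorem av4_diag_eq (i j : Fin n) :
    mom a b (fun Y : E n => g (Y 0) (Y 1) (lam2 Y) * (tail Y j * tail Y j))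
      = mom a b (fun Y : E n => g (Y 0) (Y 1) (lam2 Y) * (tail Y i * tail Y i)) := by
  obtain ⟨e, he⟩ := av4_swap i j
  have h := av4_comp (a := a) (b := b) (a' := a) (b' := b) e (fun Y => by rw [(he Y).1])
    (fun Y => by rw [(he Y).1, (he Y).2.1])
    (fun Y : E n => g (Y 0) (Y 1) (lam2 Y) * (tail Y i * tail Y i))
  rw [← h]
  congr 1
  funext Y
  obtain ⟨h0, h1, h2, h3⟩ := he Y
  rw [h0, h1, h2, h3]

theorem av4_diag (hn : 2 ≤ n) (hab : a ^ 2 + b ^ 2 ≤ 1)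
    (hg : Function.HasTemperateGrowth fun Y : E n => g (Y 0) (Y 1) (lam2 Y)) (i : Fin n) :
    mom a b (fun Y : E n => g (Y 0) (Y 1) (lam2 Y) * (tail Y i * tail Y i))
      = mom a b (fun Y : E n => g (Y 0) (Y 1) (lam2 Y) * lam2 Y) / n := by
  have hn0 : (n : ℝ) ≠ 0 := Nat.cast_ne_zero.2 (by omega)
  have h1 : (fun Y : E n => g (Y 0) (Y 1) (lam2 Y) * lam2 Y)
      = fun Y : E n => ∑ j, g (Y 0) (Y 1) (lam2 Y) * (tail Y j * tail Y j) := by
    funext Y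
    rw [← Finset.mul_sum]
    simp only [lam2, pow_two]
  rw [h1, av4_sum hn hab Finset.univ (f := fun j (Y : E n) =>
    g (Y 0) (Y 1) (lam2 Y) * (tail Y j * tail Y j)) fun j => hg.mul (by fun_prop)]
  rw [Finset.sum_congr rfl fun j _ => av4_diag_eq i j, Finset.sum_const, Finset.card_univ,
    Fintype.card_fin, nsmul_eq_mul]
  field_simp

theorem av4_second (hn : 2 ≤ n) (hab : a ^ 2 + b ^ 2 ≤ 1)
    (hg : Function.HasTemperateGrowth fun Y : E n => g (Y 0) (Y 1) (lam2 Y))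
    (A : Fin n → Fin n → ℝ) :
    mom a b (fun Y : E n => g (Y 0) (Y 1) (lam2 Y) * av4_quad A Y)
      = mom a b (fun Y : E n => (∑ i, A i i) / n * (g (Y 0) (Y 1) (lam2 Y) * lam2 Y)) := by
  have ht : ∀ i j : Fin n, Function.HasTemperateGrowth fun Y : E n =>
      A i j * (g (Y 0) (Y 1) (lam2 Y) * (tail Y i * tail Y j)) := fun i j =>
    (Function.HasTemperateGrowth.const _).mul (hg.mul (by fun_prop))
  have h1 : (fun Y : E n => g (Y 0) (Y 1) (lam2 Y) * av4_quad A Y)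
      = fun Y : E n => ∑ i, ∑ j, A i j * (g (Y 0) (Y 1) (lam2 Y) * (tail Y i * tail Y j)) := by
    funext Y
    simp only [av4_quad, Finset.mul_sum]
    exact Finset.sum_congr rfl fun i _ => Finset.sum_congr rfl fun j _ => by ring
  rw [h1, av4_sum hn hab Finset.univ (f := fun i (Y : E n) =>
    ∑ j, A i j * (g (Y 0) (Y 1) (lam2 Y) * (tail Y i * tail Y j)))
    fun i => Function.HasTemperateGrowth.sum fun j _ => ht i j, av4_cmul, div_mul_eq_mul_div,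
    mul_div_assoc, Finset.sum_mul]
  refine Finset.sum_congr rfl fun i _ => ?_
  rw [av4_sum hn hab Finset.univ (f := fun j (Y : E n) =>
    A i j * (g (Y 0) (Y 1) (lam2 Y) * (tail Y i * tail Y j))) (ht i),
    Finset.sum_eq_single i (fun j _ hj => by rw [av4_cmul, av4_off hj.symm, mul_zero])
    (fun h => absurd (Finset.mem_univ i) h), av4_cmul, av4_diag hn hab hg]

end Second

section Alg

variable (a₀ m₀ : ℝ) (M : Mat n)

theorem av4_Qq_eq (Y : E n) : Qquart a₀ m₀ M Y =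
    (Y 0 ^ 2 + Y 1 ^ 2 + lam2 Y) * (a₀ ^ 2 * Y 0 ^ 2
      + (M 0 0 * Y 1 - Y 0 * m₀ + ∑ j : Fin n, M 0 j.succ * tail Y j) ^ 2
      + (Y 1 ^ 2 * ∑ j : Fin n, M j.succ 0 ^ 2
        + 2 * Y 1 * ∑ j : Fin n, M j.succ 0 * ∑ k : Fin n, M j.succ k.succ * tail Y k
        + ∑ j : Fin n, (∑ k : Fin n, M j.succ k.succ * tail Y k) ^ 2))
    - (Y 1 * (M 0 0 * Y 1 - Y 0 * m₀ + ∑ j : Fin n, M 0 j.succ * tail Y j)
      + (Y 1 * ∑ j : Fin n, M j.succ 0 * tail Y j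
        + ∑ j : Fin n, tail Y j * ∑ k : Fin n, M j.succ k.succ * tail Y k)) ^ 2 := by
  have hl : tail Y ⬝ᵥ tail Y = lam2 Y := by simp only [lam2, dotProduct, pow_two]
  have w0 : (M *ᵥ eta Y - Y 0 • ez n m₀) 0
      = M 0 0 * Y 1 - Y 0 * m₀ + ∑ j : Fin n, M 0 j.succ * tail Y j := by
    simp only [Pi.sub_apply, Pi.smul_apply, ez, Pi.single_eq_same, smul_eq_mul, Matrix.mulVec,
      dotProduct, Fin.sum_univ_succ, eta, tail, Fin.succ_zero_eq_one]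
    ring
  have ws : ∀ j : Fin n, (M *ᵥ eta Y - Y 0 • ez n m₀) j.succ
      = M j.succ 0 * Y 1 + ∑ k : Fin n, M j.succ k.succ * tail Y k := fun j => by
    simp only [Pi.sub_apply, Pi.smul_apply, ez, Pi.single_eq_of_ne (Fin.succ_ne_zero j),
      smul_eq_mul, Matrix.mulVec, dotProduct, Fin.sum_univ_succ, eta, tail, Fin.succ_zero_eq_one]
    ring
  have e0 : eta Y 0 = Y 1 := rfl
  have es : ∀ j : Fin n, eta Y j.succ = tail Y j := fun j => rfl
  unfold Qquart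
  rw [st_norm_sq, hl]
  generalize M *ᵥ eta Y - Y 0 • ez n m₀ = W at w0 ws
  simp only [dotProduct, Fin.sum_univ_succ, w0, ws, e0, es]
  have s1 : ∑ j : Fin n, (M j.succ 0 * Y 1 + ∑ k : Fin n, M j.succ k.succ * tail Y k)
        * (M j.succ 0 * Y 1 + ∑ k : Fin n, M j.succ k.succ * tail Y k)
      = Y 1 ^ 2 * ∑ j : Fin n, M j.succ 0 ^ 2
        + 2 * Y 1 * ∑ j : Fin n, M j.succ 0 * ∑ k : Fin n, M j.succ k.succ * tail Y k
        + ∑ j : Fin n, (∑ k : Fin n, M j.succ k.succ * tail Y k) ^ 2 := by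
    rw [Finset.mul_sum, Finset.mul_sum, ← Finset.sum_add_distrib, ← Finset.sum_add_distrib]
    exact Finset.sum_congr rfl fun j _ => by ring
  have s2 : ∑ j : Fin n, tail Y j * (M j.succ 0 * Y 1 + ∑ k : Fin n, M j.succ k.succ * tail Y k)
      = Y 1 * ∑ j : Fin n, M j.succ 0 * tail Y j
        + ∑ j : Fin n, tail Y j * ∑ k : Fin n, M j.succ k.succ * tail Y k := by
    rw [Finset.mul_sum, ← Finset.sum_add_distrib]
    exact Finset.sum_congr rfl fun j _ => by ring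
  rw [s1, s2]
  ring

theorem av4_tg_Qq : Function.HasTemperateGrowth fun Y : E n => Qquart a₀ m₀ M Y := by
  simp only [av4_Qq_eq]
  fun_prop

theorem av4_Qq_nonneg (Y : E n) : 0 ≤ Qquart a₀ m₀ M Y := by
  unfold Qquart
  generalize M *ᵥ eta Y - Y 0 • ez n m₀ = W
  have h1 : (eta Y ⬝ᵥ W) ^ 2 ≤ (∑ i, eta Y i ^ 2) * ∑ i, W i ^ 2 :=
    Finset.sum_mul_sq_le_sq_mul_sq _ _ _
  have h2 : ‖Y‖ ^ 2 = Y 0 ^ 2 + ∑ i, eta Y i ^ 2 := by
    rw [st_norm_sq, Fin.sum_univ_succ, add_assoc]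
    simp only [dotProduct, pow_two]
    rfl
  have h3 : W ⬝ᵥ W = ∑ i, W i ^ 2 := by simp only [dotProduct, pow_two]
  have h4 : 0 ≤ ∑ i, W i ^ 2 := Finset.sum_nonneg fun i _ => sq_nonneg _
  have h5 : 0 ≤ ∑ i, eta Y i ^ 2 := Finset.sum_nonneg fun i _ => sq_nonneg _
  rw [h2, h3]
  have h6 : 0 ≤ (Y 0 ^ 2 + ∑ i, eta Y i ^ 2) * (a₀ ^ 2 * Y 0 ^ 2) := by positivity
  have h7 : 0 ≤ Y 0 ^ 2 * ∑ i, W i ^ 2 := by positivity
  nlinarith

theorem av4_quad_rank (p : Fin n → ℝ) (Y : E n) :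
    av4_quad (fun i j => p i * p j) Y = (∑ j, p j * tail Y j) ^ 2 := by
  rw [pow_two, Finset.sum_mul_sum]
  exact Finset.sum_congr rfl fun i _ => Finset.sum_congr rfl fun j _ => by ring

theorem av4_quad_gram (p : Fin n → ℝ) (K : Fin n → Fin n → ℝ) (Y : E n) :
    av4_quad (fun i j => p i * p j + ∑ k, K k i * K k j) Y
      = (∑ j, p j * tail Y j) ^ 2 + ∑ k, (∑ j, K k j * tail Y j) ^ 2 := by
  simp only [← av4_quad_rank]
  simp only [av4_quad, add_mul, Finset.sum_add_distrib, Finset.sum_mul]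
  congr 1
  rw [Finset.sum_comm (f := fun k i => ∑ j, K k i * K k j * (tail Y i * tail Y j))]
  exact Finset.sum_congr rfl fun i _ => Finset.sum_comm

theorem av4_quad_lin (K : Fin n → Fin n → ℝ) (Y : E n) :
    av4_quad K Y = ∑ j, tail Y j * ∑ k, K j k * tail Y k := by
  simp only [av4_quad, Finset.mul_sum]
  exact Finset.sum_congr rfl fun i _ => Finset.sum_congr rfl fun j _ => by ring

/-- The symmetrised upper bound. -/
noncomputable def av4_P (Y : E n) : ℝ :=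
  ((Y 0 ^ 2 + Y 1 ^ 2 + lam2 Y) * (a₀ ^ 2 * Y 0 ^ 2 + (M 0 0 * Y 1 - Y 0 * m₀) ^ 2
      + Y 1 ^ 2 * ∑ j : Fin n, M j.succ 0 ^ 2)
      - Y 1 ^ 2 * (M 0 0 * Y 1 - Y 0 * m₀) ^ 2 + kbar M ^ 2 * lam2 Y ^ 2)
    + (Y 0 ^ 2 + Y 1 ^ 2 + lam2 Y) * av4_quad (fun i j => M 0 i.succ * M 0 j.succ
        + ∑ k : Fin n, M k.succ i.succ * M k.succ j.succ) Y
    + (-(2 * Y 1 * (M 0 0 * Y 1 - Y 0 * m₀) + 2 * kbar M * lam2 Y))
        * av4_quad (fun i j => M i.succ j.succ) Y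
    + (-Y 1 ^ 2) * av4_quad (fun i j => (M 0 i.succ + M i.succ 0) * (M 0 j.succ + M j.succ 0)) Y

theorem av4_tg_P : Function.HasTemperateGrowth fun Y : E n => av4_P a₀ m₀ M Y := by
  unfold av4_P
  fun_prop

theorem av4_symm_le {Y Z : E n} (h0 : Z 0 = Y 0) (h1 : Z 1 = Y 1) (ht : tail Z = -tail Y) :
    Qquart a₀ m₀ M Y + Qquart a₀ m₀ M Z ≤ 2 * av4_P a₀ m₀ M Y := by
  have hl : lam2 Z = lam2 Y := by simp only [lam2, ht, Pi.neg_apply, neg_sq]
  rw [av4_Qq_eq, av4_Qq_eq, av4_P,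
    av4_quad_gram (fun i => M 0 i.succ) (fun k i => M k.succ i.succ),
    av4_quad_rank (fun i => M 0 i.succ + M i.succ 0), av4_quad_lin, h0, h1, hl, ht]
  simp only [Pi.neg_apply, mul_neg, neg_mul, Finset.sum_neg_distrib, neg_neg, neg_sq, add_mul,
    Finset.sum_add_distrib]
  generalize ∑ j : Fin n, M 0 j.succ * tail Y j = u
  generalize ∑ j : Fin n, M j.succ 0 * tail Y j = v
  generalize ∑ j : Fin n, M j.succ 0 ^ 2 = c
  generalize ∑ j : Fin n, M j.succ 0 * ∑ k : Fin n, M j.succ k.succ * tail Y k = C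
  generalize ∑ j : Fin n, (∑ k : Fin n, M j.succ k.succ * tail Y k) ^ 2 = A
  generalize ∑ j : Fin n, tail Y j * ∑ k : Fin n, M j.succ k.succ * tail Y k = B
  nlinarith [sq_nonneg (B - kbar M * lam2 Y)]

end Alg

section Main

variable {a b : ℝ}

theorem av4_lin8 (hn : 2 ≤ n) (hab : a ^ 2 + b ^ 2 ≤ 1) (c₁ c₂ c₃ c₄ c₅ c₆ c₇ c₈ : ℝ) :
    mom a b (fun Y : E n => c₁ * Y 0 ^ 4 + c₂ * (Y 0 ^ 2 * Y 1 ^ 2) + c₃ * (Y 0 ^ 2 * lam2 Y)
      + c₄ * lam2 Y ^ 2 + c₅ * (Y 1 ^ 2 * lam2 Y) + c₆ * Y 1 ^ 4 + c₇ * (Y 0 ^ 3 * Y 1)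
      + c₈ * (Y 0 * Y 1 * lam2 Y))
    = c₁ * (mo n a b).Wr + c₂ * (mo n a b).Be + c₃ * (n * (mo n a b).Bl)
      + c₄ * (n * (mo n a b).mup) + c₅ * (n * (mo n a b).m22) + c₆ * (mo n a b).m40
      + c₇ * (mo n a b).e1 + c₈ * (mo n a b).e2 := by
  have hn0 : (n : ℝ) ≠ 0 := Nat.cast_ne_zero.2 (by omega)
  rw [av4_add hn hab (by fun_prop) (by fun_prop), av4_add hn hab (by fun_prop) (by fun_prop),
    av4_add hn hab (by fun_prop) (by fun_prop), av4_add hn hab (by fun_prop) (by fun_prop),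
    av4_add hn hab (by fun_prop) (by fun_prop), av4_add hn hab (by fun_prop) (by fun_prop),
    av4_add hn hab (by fun_prop) (by fun_prop)]
  simp only [av4_cmul, mo]
  field_simp

theorem av4_mom_P (hn : 2 ≤ n) (hab : a ^ 2 + b ^ 2 ≤ 1) (a₀ m₀ : ℝ) (M : Mat n) :
    mom a b (av4_P a₀ m₀ M) = Qf (mo n a b) (-1) a₀ m₀ M := by
  have hn0 : (n : ℝ) ≠ 0 := Nat.cast_ne_zero.2 (by omega)
  have e1 := av4_second hn hab (g := fun x y l => x ^ 2 + y ^ 2 + l) (by fun_prop)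
    (fun i j => M 0 i.succ * M 0 j.succ + ∑ k : Fin n, M k.succ i.succ * M k.succ j.succ)
  have e2 := av4_second hn hab
    (g := fun x y l => -(2 * y * (M 0 0 * y - x * m₀) + 2 * kbar M * l)) (by fun_prop)
    (fun i j => M i.succ j.succ)
  have e3 := av4_second hn hab (g := fun _ y _ => -y ^ 2) (by fun_prop)
    (fun i j => (M 0 i.succ + M i.succ 0) * (M 0 j.succ + M j.succ 0))
  have t1 : ∑ i : Fin n, (M 0 i.succ * M 0 i.succ + ∑ k : Fin n, M k.succ i.succ * M k.succ i.succ)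
      = ∑ j : Fin n, M 0 j.succ ^ 2 + ∑ i : Fin n, ∑ j : Fin n, M i.succ j.succ ^ 2 := by
    rw [Finset.sum_add_distrib, Finset.sum_comm]
    simp only [pow_two]
  have t3 : ∑ i : Fin n, (M 0 i.succ + M i.succ 0) * (M 0 i.succ + M i.succ 0)
      = ∑ j : Fin n, M 0 j.succ ^ 2 + 2 * ∑ j : Fin n, M 0 j.succ * M j.succ 0
        + ∑ j : Fin n, M j.succ 0 ^ 2 := by
    rw [Finset.mul_sum, ← Finset.sum_add_distrib, ← Finset.sum_add_distrib]
    exact Finset.sum_congr rfl fun i _ => by ring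
  have t2 : (∑ i : Fin n, M i.succ i.succ) / (n : ℝ) = kbar M := rfl
  beta_reduce at e1 e2 e3
  rw [t1] at e1
  rw [t2] at e2
  rw [t3] at e3
  unfold av4_P Qf
  rw [av4_add hn hab (by fun_prop) (by fun_prop), av4_add hn hab (by fun_prop) (by fun_prop),
    av4_add hn hab (by fun_prop) (by fun_prop), e1, e2, e3,
    ← av4_add hn hab (by fun_prop) (by fun_prop), ← av4_add hn hab (by fun_prop) (by fun_prop),
    ← av4_add hn hab (by fun_prop) (by fun_prop)]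
  generalize ∑ j : Fin n, M 0 j.succ ^ 2 = r
  generalize ∑ j : Fin n, M j.succ 0 ^ 2 = c
  generalize ∑ j : Fin n, M 0 j.succ * M j.succ 0 = rc
  generalize ∑ i : Fin n, ∑ j : Fin n, M i.succ j.succ ^ 2 = K
  generalize kbar M = kb
  have h := av4_lin8 hn hab (a₀ ^ 2 + m₀ ^ 2) (a₀ ^ 2 + M 0 0 ^ 2 + c)
    (a₀ ^ 2 + m₀ ^ 2 + (r + K) / n) ((r + K) / n - kb ^ 2)
    (M 0 0 ^ 2 + c + (r + K) / n - 2 * kb * M 0 0 - (r + 2 * rc + c) / n) c
    (-2 * M 0 0 * m₀) (-2 * m₀ * (M 0 0 - kb))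
  refine Eq.trans ?_ (h.trans ?_)
  · congr 1
    funext Y
    ring
  · field_simp
    ring

theorem av4_mom_le (hn : 2 ≤ n) (hab : a ^ 2 + b ^ 2 ≤ 1) (a₀ m₀ : ℝ) (M : Mat n) :
    mom a b (Qquart a₀ m₀ M) ≤ Qf (mo n a b) (-1) a₀ m₀ M := by
  obtain ⟨e, he⟩ := av4_neg_tail (n := n)
  have h1 := av4_comp (a := a) (b := b) (a' := a) (b' := b) e (fun Y => by rw [(he Y).1])
    (fun Y => by rw [(he Y).1, (he Y).2.1]) (Qquart a₀ m₀ M)
  have hQ := av4_tg_Qq a₀ m₀ M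
  have hP := av4_tg_P a₀ m₀ M
  have hQe : Function.HasTemperateGrowth fun Y : E n => Qquart a₀ m₀ M (e Y) :=
    hQ.comp e.toContinuousLinearEquiv.hasTemperateGrowth
  have h2 := av4_mono hn hab (hQ.fun_add hQe)
    ((Function.HasTemperateGrowth.const (2 : ℝ)).fun_mul hP)
    fun Y => av4_symm_le a₀ m₀ M (he Y).1 (he Y).2.1 (he Y).2.2
  rw [av4_add hn hab hQ hQe, h1, av4_cmul, av4_mom_P hn hab] at h2
  linarith

theorem av4_Qf_flip {ε : ℝ} (hε : ε = 1 ∨ ε = -1) (a₀ m₀ : ℝ) (M : Mat n) :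
    Qf (mo n (ε * a) (-b)) (-1) a₀ m₀ M = Qf (mo n a b) ε a₀ m₀ M := by
  obtain ⟨e, he⟩ := av4_flip_pair (n := n) hε (δ := -1) (Or.inr rfl)
  have hε2 : ε ^ 2 = 1 := by rcases hε with rfl | rfl <;> norm_num
  have hl : ∀ Y : E n, lam2 (e Y) = lam2 Y := fun Y => by simp only [lam2, (he Y).2.2]
  have key : ∀ (c : ℝ) (f : E n → ℝ), (∀ Y, f Y = c * f (e Y)) →
      mom (ε * a) (-b) f = c * mom a b f := fun c f hf => by
    rw [← av4_comp (a := a) (b := b) (a' := ε * a) (b' := -b) e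
      (fun Y => by rw [(he Y).1]; rcases hε with rfl | rfl <;> simp)
      (fun Y => by rw [(he Y).1, (he Y).2.1]; ring) f, ← av4_cmul]
    congr 1
    funext Y
    exact hf Y
  have k1 := key 1 (fun Y => Y 0 ^ 4) fun Y => by
    rw [(he Y).1]; rcases hε with rfl | rfl <;> ring
  have k2 := key 1 (fun Y => Y 0 ^ 2 * Y 1 ^ 2) fun Y => by
    rw [(he Y).1, (he Y).2.1]; rcases hε with rfl | rfl <;> ring
  have k3 := key 1 (fun Y => Y 0 ^ 2 * lam2 Y) fun Y => by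
    rw [(he Y).1, hl]; rcases hε with rfl | rfl <;> ring
  have k4 := key 1 (fun Y => lam2 Y ^ 2) fun Y => by
    rw [hl]; ring
  have k5 := key 1 (fun Y => Y 1 ^ 2 * lam2 Y) fun Y => by
    rw [(he Y).2.1, hl]; ring
  have k6 := key 1 (fun Y => Y 1 ^ 4) fun Y => by
    rw [(he Y).2.1]; ring
  have k7 := key (-ε) (fun Y => Y 0 ^ 3 * Y 1) fun Y => by
    rw [(he Y).1, (he Y).2.1]; rcases hε with rfl | rfl <;> ring
  have k8 := key (-ε) (fun Y => Y 0 * Y 1 * lam2 Y) fun Y => by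
    rw [(he Y).1, (he Y).2.1, hl]; rcases hε with rfl | rfl <;> ring
  simp only [Qf, mo, k1, k2, k3, k4, k5, k6, k7, k8]
  ring

theorem av4_amgm {s Q d τ : ℝ} (hs : 0 ≤ s) (hQ : 0 ≤ Q) (hd : 0 < d) (hτ : 0 < τ) (k : ℕ) :
    s ^ (k + 1) * Real.sqrt Q ≤ (τ * (s ^ (k + 1 + 1) * d) + s ^ k * Q / d / τ) / 2 := by
  obtain ⟨q, hq0, rfl⟩ : ∃ q : ℝ, 0 ≤ q ∧ Q = q ^ 2 := ⟨_, Real.sqrt_nonneg Q, (Real.sq_sqrt hQ).symm⟩
  rw [Real.sqrt_sq hq0]
  have h : (τ * (s ^ (k + 1 + 1) * d) + s ^ k * q ^ 2 / d / τ) / 2 - s ^ (k + 1) * q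
      = s ^ k * (τ * s * d - q) ^ 2 / (2 * d * τ) := by
    field_simp
    ring
  have h2 : 0 ≤ s ^ k * (τ * s * d - q) ^ 2 / (2 * d * τ) := by positivity
  linarith

theorem av4_gauss_le (hn : 2 ≤ n) (hab : a ^ 2 + b ^ 2 ≤ 1) {τ : ℝ} (hτ : 0 < τ) {Q : E n → ℝ}
    (hQ : Q.HasTemperateGrowth) (h0 : ∀ Y, 0 ≤ Q Y) :
    gauss (fun Y : E n => |Y 0| ^ n * Real.sqrt (Q Y))
      ≤ ENNReal.ofReal ((τ * phi n a b + mom a b Q / τ) / 2) := by
  have i1 := integrable_phi (n := n) a b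
  have i2 := av4_int hn hab hQ
  have i3 : Integrable fun Y : E n =>
      (τ * (|Y 0| ^ (n + 1) * den a b Y * Real.exp (-‖Y‖ ^ 2 / 2))
        + |Y 0| ^ (n - 1) * Q Y / den a b Y * Real.exp (-‖Y‖ ^ 2 / 2) / τ) / 2 :=
    ((i1.const_mul τ).add (i2.div_const τ)).div_const 2
  have h1 : (τ * phi n a b + mom a b Q / τ) / 2 = ∫ Y : E n,
      (τ * (|Y 0| ^ (n + 1) * den a b Y * Real.exp (-‖Y‖ ^ 2 / 2))
        + |Y 0| ^ (n - 1) * Q Y / den a b Y * Real.exp (-‖Y‖ ^ 2 / 2) / τ) / 2 := by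
    rw [integral_div, integral_add (i1.const_mul τ) (i2.div_const τ), integral_const_mul,
      integral_div]
    rfl
  rw [h1, ofReal_integral_eq_lintegral_ofReal i3 (Filter.Eventually.of_forall fun Y => by
    have := av4_den_nonneg (a := a) (b := b) Y
    have := h0 Y
    simp only [Pi.zero_apply]
    positivity)]
  unfold gauss
  refine lintegral_mono_ae ?_
  filter_upwards [ae_lam2_pos (n := n) (by omega)] with Y hY
  refine ENNReal.ofReal_le_ofReal ?_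
  have hd : 0 < den a b Y := Real.sqrt_pos.2 (hY.trans_le (lam2_le_den_sq hab Y))
  obtain ⟨k, rfl⟩ : ∃ k, n = k + 1 := ⟨n - 1, by omega⟩
  have h2 := mul_le_mul_of_nonneg_right (av4_amgm (abs_nonneg (Y 0)) (h0 Y) hd hτ k)
    (Real.exp_pos (-‖Y‖ ^ 2 / 2)).le
  rw [Nat.add_sub_cancel]
  refine h2.trans (le_of_eq ?_)
  ring

end Main

theorem avg4 (hn : 2 ≤ n) {ε a b τ : ℝ} (hε : ε = 1 ∨ ε = -1) (hab : a ^ 2 + b ^ 2 ≤ 1)
    (hτ : 0 < τ) (a₀ m₀ : ℝ) (M : Mat n) :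
    0 ≤ Qf (mo n a b) ε a₀ m₀ M ∧
    gauss (fun Y : E n => |Y 0| ^ n * Real.sqrt (Qquart a₀ m₀ M Y))
      ≤ ENNReal.ofReal ((τ * phi n a b + Qf (mo n a b) ε a₀ m₀ M / τ) / 2) := by
  have hab' : (ε * a) ^ 2 + (-b) ^ 2 ≤ 1 := by
    rcases hε with rfl | rfl <;> simpa using hab
  have h1 := av4_mom_le hn hab' a₀ m₀ M
  rw [av4_Qf_flip hε] at h1
  have h2 : phi n (ε * a) (-b) = phi n a b := by
    rw [phi_neg_right]
    rcases hε with rfl | rfl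
    · rw [one_mul]
    · rw [neg_one_mul, phi_neg_left]
  refine ⟨(av4_nonneg (av4_Qq_nonneg a₀ m₀ M)).trans h1, ?_⟩
  refine (av4_gauss_le hn hab' hτ (av4_tg_Qq a₀ m₀ M) (av4_Qq_nonneg a₀ m₀ M)).trans
    (ENNReal.ofReal_le_ofReal ?_)
  rw [h2]
  gcongr

end Pool.Agent.Ped
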