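import Mathlib

/-! Inequalities for symmetric functions of numbers in the unit interval. -/

namespace Pool.Agent.Ped

variable {n : ℕ}

theorem prod_le_mean_pow {g : Fin n → ℝ} {b : ℝ} (hg : ∀ j, 0 < g j) (hs : ∑ j, g j = n * b) :
    ∏ j, g j ≤ b ^ n := by
  rcases Nat.eq_zero_or_pos n with rfl | hn
  · simp
  have hn' : (0 : ℝ) < n := by exact_mod_cast hn
  have hb : 0 < b := by
    have : 0 < ∑ j, g j := Finset.sum_pos (fun j _ => hg j) ⟨⟨0, hn⟩, Finset.mem_univ _⟩
    rw [hs] at this
    exact (mul_pos_iff_of_pos_left hn').1 this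
  calc ∏ j, g j ≤ ∏ j, b * Real.exp (g j / b - 1) := by
        refine Finset.prod_le_prod (fun j _ => (hg j).le) fun j _ => ?_
        have := Real.add_one_le_exp (g j / b - 1)
        rw [sub_add_cancel, div_le_iff₀' hb] at this
        exact this
    _ = b ^ n := by
        rw [Finset.prod_mul_distrib, ← Real.exp_sum, Finset.sum_sub_distrib, ← Finset.sum_div, hs]
        simp [hb.ne']

theorem sch_inv {g : Fin n → ℝ} {b : ℝ} (hg : ∀ j, 0 < g j) (h1 : ∀ j, g j ≤ 1)
    (hs : ∑ j, g j = n * b) (S : Finset (Fin n)) :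
    max (S.card : ℝ) ((S.card : ℝ) ^ 2 / (n * b)) ≤ ∑ j ∈ S, (g j)⁻¹ := by
  refine max_le ?_ ?_
  · rw [Finset.card_eq_sum_ones, Nat.cast_sum]
    exact Finset.sum_le_sum fun j _ => by simpa using (one_le_inv₀ (hg j)).2 (h1 j)
  · rcases S.eq_empty_or_nonempty with rfl | hS
    · simp
    have h2 := Finset.sq_sum_div_le_sum_sq_div S (fun _ => (1 : ℝ)) (g := g) fun j _ => hg j
    simp only [Finset.sum_const, nsmul_eq_mul, mul_one, one_pow, one_div] at h2
    refine le_trans ?_ h2
    rw [← hs]
    exact div_le_div_of_nonneg_left (by positivity) (Finset.sum_pos (fun j _ => hg j) hS)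
      (Finset.sum_le_sum_of_subset_of_nonneg (Finset.subset_univ _) fun j _ _ => (hg j).le)

theorem sum_inv_erase (hn : 1 ≤ n) {g : Fin n → ℝ} {b : ℝ} (hg : ∀ j, 0 < g j) (h1 : ∀ j, g j ≤ 1)
    (hs : ∑ j, g j = n * b) (i : Fin n) :
    max ((n : ℝ) - 1) (((n : ℝ) - 1) ^ 2 / (n * b)) ≤ ∑ j ∈ Finset.univ.erase i, (g j)⁻¹ := by
  have := sch_inv hg h1 hs (Finset.univ.erase i)
  rwa [Finset.card_erase_of_mem (Finset.mem_univ _), Finset.card_univ, Fintype.card_fin,
    Nat.cast_sub hn, Nat.cast_one] at this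

theorem sch_split {M : Type} [CommMonoid M] {i k : Fin n} (h : k ≠ i) (f : Fin n → M) :
    ∏ j, f j = f i * (f k * ∏ j ∈ (Finset.univ.erase i).erase k, f j) := by
  rw [Finset.mul_prod_erase _ _ (Finset.mem_erase.2 ⟨h, Finset.mem_univ _⟩),
    Finset.mul_prod_erase _ _ (Finset.mem_univ _)]

theorem sch_split' {i k : Fin n} (h : k ≠ i) (f : Fin n → ℝ) :
    ∑ j, f j = f i + (f k + ∑ j ∈ (Finset.univ.erase i).erase k, f j) := by
  rw [Finset.add_sum_erase _ _ (Finset.mem_erase.2 ⟨h, Finset.mem_univ _⟩),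
    Finset.add_sum_erase _ _ (Finset.mem_univ _)]

theorem sch_ind (hn : 2 ≤ n) {b m : ℝ}
    (hm : m ≤ max ((n : ℝ) - 2) (((n : ℝ) - 2) ^ 2 / (n * b))) :
    ∀ (r : ℕ) (g : Fin n → ℝ), (Finset.univ.filter fun j => g j ≠ b).card ≤ r → (∀ j, 0 < g j) →
      (∀ j, g j ≤ 1) → ∑ j, g j = n * b →
      (∏ j, g j) * (∑ j, (g j)⁻¹ - m) ≤ b ^ n * (n / b - m) := by
  have base : ∀ g : Fin n → ℝ, (∀ j, g j = b) →
      (∏ j, g j) * (∑ j, (g j)⁻¹ - m) ≤ b ^ n * (n / b - m) := by
    intro g h
    simp [h, div_eq_mul_inv]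
  intro r
  induction r with
  | zero =>
    intro g hc _ _ _
    refine base g fun j => ?_
    by_contra hj
    have : 0 < (Finset.univ.filter fun j => g j ≠ b).card :=
      Finset.card_pos.2 ⟨j, by simpa using hj⟩
    omega
  | succ r ih =>
    intro g hc hg h1 hs
    by_cases hall : ∀ j, g j = b
    · exact base g hall
    have hcs : ∑ _j : Fin n, b = n * b := by simp
    obtain ⟨i, hi⟩ : ∃ i, g i < b := by
      by_contra h
      push Not at h hall
      obtain ⟨j, hj⟩ := hall
      have := Finset.sum_lt_sum (s := Finset.univ) (f := fun _ : Fin n => b) (g := g)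
        (fun j _ => h j) ⟨j, Finset.mem_univ _, lt_of_le_of_ne (h j) hj.symm⟩
      linarith
    obtain ⟨k, hk⟩ : ∃ k, b < g k := by
      by_contra h
      push Not at h
      have := Finset.sum_lt_sum (s := Finset.univ) (f := g) (g := fun _ : Fin n => b)
        (fun j _ => h j) ⟨i, Finset.mem_univ _, hi⟩
      linarith
    have hki : k ≠ i := by rintro rfl; linarith
    set g' := Function.update (Function.update g k (g i + g k - b)) i b with hg'
    have e1 : g' i = b := by simp [hg']
    have e2 : g' k = g i + g k - b := by simp [hg', hki]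
    have e3 : ∀ j ∈ (Finset.univ.erase i).erase k, g' j = g j := by
      intro j hj
      simp only [Finset.mem_erase] at hj
      simp [hg', hj.1, hj.2.1]
    have hcase : ∀ j, j = i ∨ j = k ∨ j ∈ (Finset.univ.erase i).erase k := by
      intro j
      simp only [Finset.mem_erase, Finset.mem_univ, and_true]
      tauto
    have hi0 := hg i
    have hk1 := h1 k
    have h := ih g' ?_ ?_ ?_ ?_
    · refine le_trans ?_ h
      have ht := sch_inv hg h1 hs ((Finset.univ.erase i).erase k)
      rw [Finset.card_erase_of_mem (Finset.mem_erase.2 ⟨hki, Finset.mem_univ _⟩),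
        Finset.card_erase_of_mem (Finset.mem_univ _), Finset.card_univ, Fintype.card_fin,
        Nat.sub_sub, Nat.cast_sub hn, Nat.cast_ofNat] at ht
      rw [sch_split hki g, sch_split hki g', sch_split' hki fun j => (g j)⁻¹,
        sch_split' hki fun j => (g' j)⁻¹, e1, e2, Finset.prod_congr rfl e3,
        Finset.sum_congr rfl fun j hj => congrArg (·⁻¹) (e3 j hj)]
      have hp : 0 < ∏ j ∈ (Finset.univ.erase i).erase k, g j := Finset.prod_pos fun j _ => hg j
      have htm := hm.trans ht
      generalize ∏ j ∈ (Finset.univ.erase i).erase k, g j = p at *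
      generalize ∑ j ∈ (Finset.univ.erase i).erase k, (g j)⁻¹ = t at *
      have key : ∀ x y : ℝ, 0 < x → 0 < y →
          x * (y * p) * (x⁻¹ + (y⁻¹ + t) - m) = p * (x + y + x * y * (t - m)) := by
        intro x y hx hy
        field_simp
        ring
      rw [key _ _ hi0 (hg k), key _ _ (by linarith) (by linarith)]
      refine mul_le_mul_of_nonneg_left ?_ hp.le
      have : g i * g k ≤ b * (g i + g k - b) := by nlinarith
      nlinarith
    · have : (Finset.univ.filter fun j => g' j ≠ b) ⊆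
          (Finset.univ.filter fun j => g j ≠ b).erase i := by
        intro j hj
        simp only [Finset.mem_filter, Finset.mem_univ, true_and, Finset.mem_erase] at hj ⊢
        rcases hcase j with rfl | rfl | h
        · exact (hj e1).elim
        · exact ⟨hki, hk.ne'⟩
        · exact ⟨(Finset.mem_erase.1 (Finset.mem_erase.1 h).2).1, e3 j h ▸ hj⟩
      have h2 := Finset.card_le_card this
      rw [Finset.card_erase_of_mem (by simpa using hi.ne)] at h2
      omega
    · intro j
      rcases hcase j with rfl | rfl | h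
      · rw [e1]; linarith
      · rw [e2]; linarith
      · rw [e3 j h]; exact hg j
    · intro j
      rcases hcase j with rfl | rfl | h
      · rw [e1]; linarith
      · rw [e2]; linarith
      · rw [e3 j h]; exact h1 j
    · rw [← hs, sch_split' hki g, sch_split' hki g', e1, e2, Finset.sum_congr rfl e3]
      ring

theorem schur_bound (hn : 2 ≤ n) {g : Fin n → ℝ} {b m : ℝ} (hg : ∀ j, 0 < g j) (h1 : ∀ j, g j ≤ 1)
    (hs : ∑ j, g j = n * b) (hm : m ≤ max ((n : ℝ) - 2) (((n : ℝ) - 2) ^ 2 / (n * b))) :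
    (∏ j, g j) * (∑ j, (g j)⁻¹ - m) ≤ b ^ n * (n / b - m) :=
  sch_ind hn hm _ g le_rfl hg h1 hs

end Pool.Agent.Ped
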