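import Pool.Agent.P.MP_e09f5c_gt.CDefs
import Pool.Agent.P.MP_e09f5c_gt.Schur

/-! The master inequality at one angle. -/

open MeasureTheory Metric Set Matrix
open scoped InnerProductSpace ENNReal

namespace Pool.Agent.Ped

variable {n : ℕ}

theorem Fr.Ok.gb_pos {F : Fr} (hF : F.Ok) {co si : ℝ} (h : co ^ 2 + si ^ 2 = 1) :
    0 < F.gb co si := by
  have h1 := hF.q_pos
  have h2 := hF.q_le
  have h3 : F.gb co si = F.q + (1 - 2 * F.q) * co ^ 2 := by
    unfold Fr.gb; linear_combination F.q * h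
  rw [h3]
  have : 0 ≤ (1 - 2 * F.q) * co ^ 2 := mul_nonneg (by linarith) (sq_nonneg _)
  linarith

/-- The bound reached before the symmetric function inequalities are used. Here `e` stands for
`D2 * ∑ 1 / g j` and `zc` for the squared norm of the lower part of the first column. -/
noncomputable def Mid (n : ℕ) (F : Fr) (m : Mo) (C : Ch) (A : Aux) (co si : ℝ) (I : Inv)
    (e zc : ℝ) : ℝ :=
  I.a2 * (m.Wr - A.E2 - (n + 1) * C.Ca + (n + 1) * C.Ca * F.ka co si ^ 2)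
    + (m.Bl + A.E2 / n + C.Ca) * (F.g1 co si * e - A.m' * zc * I.D2)
    + I.D2 * (m.Be * (1 - F.s ^ 2) + F.s ^ 2 * (m.Wr + n * m.Bl) + A.E2 * F.X2 * si ^ 2
        + (A.E1 + A.E2) * (F.g1 co si - F.X2 * co ^ 2 - 2 * si ^ 2 * F.X2) + C.Ca * (1 - F.s ^ 2))
    + A.Y * F.ka co si ^ 2 * F.g1 co si * F.gb co si ^ n * n * F.dl / F.gb co si
    + C.ph * F.P1 co si * (n * (si ^ 2 - co ^ 2) * I.D2 + co ^ 2 * e + si * co * I.dD2)
    + (C.fb * F.g1 co si + C.kk * F.gb co si * si ^ 2 * F.X2)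
        * (e - n * I.D2 - F.ka co si * I.dD2 + n * F.ka co si ^ 2 * I.D2)
    + Wexp n F m C A co si * I.D2 * zc - C.Ca * F.ka co si * I.da2

theorem Mid_eq (hn : 1 ≤ n) {F : Fr} (hF : F.Ok) (m : Mo) (C : Ch) (A : Aux) {co si : ℝ}
    (h : co ^ 2 + si ^ 2 = 1) (I : Inv) (e zc : ℝ) (ha : I.a2 = (F.g1 co si - zc) * I.D2) :
    Mid n F m C A co si I e zc = F.gb co si ^ n * Model n F m C A co si + Ups n F C co si I
      - Gexp n F m C A co si * (F.gb co si ^ n - I.D2)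
      - ((m.Bl + A.E2 / n + C.Ca) * F.g1 co si
          + (C.fb * F.g1 co si + C.kk * F.gb co si * si ^ 2 * F.X2) + co ^ 2 * (C.ph * F.P1 co si))
        * (F.gb co si ^ n * (n / F.gb co si - A.mm) - (e - A.mm * I.D2)) := by
  have hg := (hF.gb_pos h).ne'
  have hn' : (n : ℝ) ≠ 0 := by positivity
  have h1 : F.P1 co si = 1 - F.s ^ 2 - F.g1 co si := by
    unfold Fr.P1 Fr.g1; linear_combination hF.sum + (F.X2 + F.q1) * h
  have hk : F.ka co si * F.gb co si = (2 * F.q - 1) * (si * co) := by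
    unfold Fr.ka; field_simp
  have hd : F.dl / F.gb co si ^ 2 = 1 / F.gb co si - 1 - F.ka co si ^ 2 := by
    have : F.dl = F.gb co si - F.gb co si ^ 2 - (F.ka co si * F.gb co si) ^ 2 := by
      rw [hk]; unfold Fr.dl Fr.gb
      have hc : co ^ 2 = 1 - si ^ 2 := by linarith
      have : (si * co) ^ 2 = si ^ 2 * (1 - si ^ 2) := by rw [mul_pow, hc]
      rw [mul_pow, this, hc]; ring
    rw [this]; field_simp
  have hq : F.q / F.gb co si = si ^ 2 - co ^ 2 + co ^ 2 / F.gb co si + 2 * F.ka co si * (si * co) := by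
    have : F.q = (si ^ 2 - co ^ 2) * F.gb co si + co ^ 2
        + 2 * (F.ka co si * F.gb co si) * (si * co) := by
      rw [hk]; unfold Fr.gb
      have hc : co ^ 2 = 1 - si ^ 2 := by linarith
      have : (si * co) * (si * co) = si ^ 2 * (1 - si ^ 2) := by rw [← hc]; ring
      linear_combination (-2 * (2 * F.q - 1)) * this
        + ((1 - F.q) * (co ^ 2 + 1 - si ^ 2) - (1 - 2 * F.q) * si ^ 2 - 1) * hc
    rw [div_eq_iff hg]
    nth_rewrite 1 [this]
    field_simp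
  have e1 : ∀ x : ℝ, x * n * F.dl / F.gb co si ^ 2
      = x * n * (1 / F.gb co si - 1 - F.ka co si ^ 2) := fun x => by rw [← hd]; ring
  have e2 : ∀ x : ℝ, x * n * F.q / F.gb co si = x * n * (si ^ 2 - co ^ 2 + co ^ 2 / F.gb co si
      + 2 * F.ka co si * (si * co)) := fun x => by rw [← hq]; ring
  unfold Mid Model Ups Gexp Wexp Aa du1 du2 u1 u2
  rw [e1, e2, ha, hd, h1]
  field_simp
  ring

/-- A two variable quadratic form with nonnegative discriminant condition. -/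
theorem mas_amgm {E K W u v : ℝ} (hK : 0 ≤ K) (hW : 0 ≤ W) (h : E ^ 2 ≤ K * W) :
    2 * E * u * v ≤ W * u ^ 2 + K * v ^ 2 := by
  rcases hK.eq_or_lt with h0 | h0
  · subst h0
    have hE : E = 0 := by nlinarith [sq_nonneg E]
    subst hE
    nlinarith [mul_nonneg hW (sq_nonneg u)]
  · have h1 : 0 ≤ K * (W * u ^ 2 + K * v ^ 2 - 2 * E * u * v) := by
      nlinarith [sq_nonneg (K * v - E * u), mul_nonneg (sub_nonneg.2 h) (sq_nonneg u)]
    have := (mul_nonneg_iff_of_pos_left h0).1 h1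
    linarith

/-- Sum over a column of positive index of a triangular matrix. -/
theorem mas_col {S : Mat n} (hS : Tri S) (j : Fin n) (f : Fin (n + 1) → ℝ) :
    ∑ i, S i j.succ * f i = S j.succ j.succ * f j.succ := by
  rw [Fin.sum_univ_succ, hS.row j, zero_mul, zero_add]
  rw [Finset.sum_eq_single j]
  · intro i _ hi
    rw [hS.off i j hi, zero_mul]
  · simp

theorem mas_det {S : Mat n} (hS : Tri S) :
    S.det = S 0 0 * ∏ j : Fin n, S j.succ j.succ := by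
  rw [Matrix.det_of_isLowerTriangular S, Fin.prod_univ_succ]
  intro i j hij
  have hij' : i < j := by simpa using hij
  rcases Fin.eq_zero_or_eq_succ j with rfl | ⟨j, rfl⟩
  · exact absurd hij' (Fin.not_lt_zero _)
  rcases Fin.eq_zero_or_eq_succ i with rfl | ⟨i, rfl⟩
  · exact hS.row j
  · exact hS.off i j fun h => by subst h; exact lt_irrefl _ hij'

theorem mas_rel (S T : Mat n) (i k : Fin (n + 1)) :
    ∑ l, S l i * (S.adjugateᵀ * Tᵀ) l k = S.det * T k i := by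
  have h1 : Sᵀ * (S.adjugateᵀ * Tᵀ) = S.det • Tᵀ := by
    rw [← Matrix.mul_assoc, ← Matrix.transpose_mul, Matrix.adjugate_mul, Matrix.transpose_smul,
      Matrix.transpose_one, Matrix.smul_mul, Matrix.one_mul]
  have h2 := congrFun (congrFun h1 i) k
  simpa [Matrix.mul_apply] using h2

theorem mas_low {S : Mat n} (hS : Tri S) (T : Mat n) (j : Fin n) (k : Fin (n + 1)) :
    (S.adjugateᵀ * Tᵀ) j.succ k = S.det * T k j.succ / S j.succ j.succ := by
  have h := mas_rel S T j.succ k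
  rw [mas_col hS] at h
  rw [eq_div_iff (hS.pos j).ne', ← h, mul_comm]

theorem mas_top {S : Mat n} (hS : Tri S) (T : Mat n) (k : Fin (n + 1)) :
    (S.adjugateᵀ * Tᵀ) 0 k = (∏ j : Fin n, S j.succ j.succ)
      * (T k 0 - ∑ j : Fin n, S j.succ 0 / S j.succ j.succ * T k j.succ) := by
  have h := mas_rel S T 0 k
  rw [Fin.sum_univ_succ] at h
  simp only [mas_low hS] at h
  rw [mas_det hS] at h
  apply mul_left_cancel₀ hS.pos0.ne'
  have h2 : ∑ j : Fin n, S j.succ 0 * (S 0 0 * (∏ j : Fin n, S j.succ j.succ) * T k j.succ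
      / S j.succ j.succ) = S 0 0 * (∏ j : Fin n, S j.succ j.succ)
        * ∑ j : Fin n, S j.succ 0 / S j.succ j.succ * T k j.succ := by
    rw [Finset.mul_sum]
    exact Finset.sum_congr rfl fun j _ => by ring
  rw [h2] at h
  linear_combination h

theorem mas_gram {S : Mat n} (hS : Tri S) :
    (rest S)ᵀ * rest S = diagonal fun j : Fin n => S j.succ j.succ ^ 2 := by
  ext i j
  simp only [Matrix.mul_apply, rest, Matrix.transpose_apply, Matrix.submatrix_apply, id]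
  rw [mas_col hS]
  by_cases hij : i = j
  · subst hij; simp [sq]
  · rw [hS.off i j hij, Matrix.diagonal_apply_ne _ hij, mul_zero]

theorem mas_D2 {S : Mat n} (hS : Tri S) (T : Mat n) :
    (inv S T).D2 = (∏ j : Fin n, S j.succ j.succ) ^ 2 := by
  simp only [inv]
  rw [mas_gram hS, Matrix.det_diagonal, Finset.prod_pow]

theorem mas_dD2 {S : Mat n} (hS : Tri S) (T : Mat n) :
    (inv S T).dD2 = 2 * (∏ j : Fin n, S j.succ j.succ) ^ 2
      * ∑ j : Fin n, T j.succ j.succ / S j.succ j.succ := by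
  simp only [inv]
  rw [mas_gram hS, Matrix.adjugate_diagonal, mul_assoc, Finset.mul_sum, Matrix.trace]
  congr 1
  refine Finset.sum_congr rfl fun j _ => ?_
  simp only [Matrix.diag_apply, Matrix.diagonal_mul]
  simp only [Matrix.mul_apply, rest, Matrix.transpose_apply, Matrix.submatrix_apply, id]
  rw [mas_col hS, ← Finset.prod_pow,
    ← Finset.mul_prod_erase Finset.univ (fun j : Fin n => S j.succ j.succ ^ 2) (Finset.mem_univ j)]
  have := (hS.pos j).ne'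
  field_simp

theorem mas_da2 (hn : 2 ≤ n) (S T : Mat n) :
    (inv S T).da2 = 2 * S.det * ((S.adjugateᵀ * Tᵀ) 0 0 + n * kbar (S.adjugateᵀ * Tᵀ)) := by
  simp only [inv]
  have hn' : (n : ℝ) ≠ 0 := by positivity
  rw [← Matrix.trace_transpose, Matrix.transpose_mul, Matrix.trace_mul_comm, Matrix.trace,
    Fin.sum_univ_succ, kbar, mul_div_cancel₀ _ hn']
  rfl

theorem mas_u00 {S T : Mat n} {s : ℝ} (hU : Unit1 S T s) :
    ∑ i, S i 0 ^ 2 + ∑ i, T i 0 ^ 2 + s ^ 2 = 1 := by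
  have h := congrFun (congrFun hU 0) 0
  simpa [Matrix.mul_apply, ez, vecMulVec_apply, sq] using h

theorem mas_u0j {S T : Mat n} {s : ℝ} (hS : Tri S) (hU : Unit1 S T s) (j : Fin n) :
    ∑ i, T i j.succ * T i 0 = -(S j.succ j.succ * S j.succ 0) := by
  have h := congrFun (congrFun hU j.succ) 0
  simp only [Matrix.add_apply, Matrix.mul_apply, Matrix.transpose_apply, ez, vecMulVec_apply,
    Pi.single_eq_of_ne (Fin.succ_ne_zero j), zero_mul, add_zero,
    Matrix.one_apply_ne (Fin.succ_ne_zero j)] at h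
  rw [mas_col hS] at h
  linarith

theorem mas_ujk {S T : Mat n} {s : ℝ} (hS : Tri S) (hU : Unit1 S T s) (j k : Fin n) :
    ∑ i, T i j.succ * T i k.succ = if j = k then 1 - S j.succ j.succ ^ 2 else 0 := by
  have h := congrFun (congrFun hU j.succ) k.succ
  simp only [Matrix.add_apply, Matrix.mul_apply, Matrix.transpose_apply, ez, vecMulVec_apply,
    Pi.single_eq_of_ne (Fin.succ_ne_zero j), zero_mul, add_zero] at h
  rw [mas_col hS] at h
  by_cases hjk : j = k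
  · subst hjk
    rw [Matrix.one_apply_eq] at h
    rw [if_pos rfl]; linarith
  · rw [Matrix.one_apply_ne (fun h => hjk (Fin.succ_injective _ h)), hS.off j k hjk] at h
    rw [if_neg hjk]; linarith

section Vec

variable {S T : Mat n} {s : ℝ}

/-- Inner product of a column of `T` with a combination of the columns. -/
theorem mas_comb (hS : Tri S) (hU : Unit1 S T s) (α : Fin n → ℝ) (j : Fin n) :
    ∑ i, T i j.succ * ∑ k : Fin n, α k * T i k.succ = α j * (1 - S j.succ j.succ ^ 2) := by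
  have h1 : ∀ i, T i j.succ * ∑ k : Fin n, α k * T i k.succ
      = ∑ k : Fin n, α k * (T i j.succ * T i k.succ) := fun i => by
    rw [Finset.mul_sum]; exact Finset.sum_congr rfl fun k _ => by ring
  simp only [h1]
  rw [Finset.sum_comm]
  simp only [← Finset.mul_sum, mas_ujk hS hU]
  simp

theorem mas_swap (α : Fin n → ℝ) (u : Fin (n + 1) → ℝ) :
    ∑ i, u i * ∑ k : Fin n, α k * T i k.succ = ∑ k : Fin n, α k * ∑ i, T i k.succ * u i := by
  simp only [Finset.mul_sum]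
  rw [Finset.sum_comm]
  exact Finset.sum_congr rfl fun k _ => Finset.sum_congr rfl fun i _ => by ring

/-- Bessel type inequality for the columns of `T`. -/
theorem mas_bessel (hS : Tri S) (hU : Unit1 S T s) (u : Fin (n + 1) → ℝ) :
    ∑ j : Fin n, (∑ i, T i j.succ * u i) ^ 2 ≤ ∑ i, u i ^ 2 := by
  set α : Fin n → ℝ := fun j => ∑ i, T i j.succ * u i with hα
  set w : Fin (n + 1) → ℝ := fun i => ∑ k : Fin n, α k * T i k.succ with hw
  have h1 : ∑ i, u i * w i = ∑ k, α k ^ 2 := by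
    simp only [hw]
    rw [mas_swap]
    exact Finset.sum_congr rfl fun k _ => by rw [sq]
  have h2 : ∑ i, w i * w i ≤ ∑ k, α k ^ 2 := by
    have : ∑ i, w i * w i = ∑ k : Fin n, α k * ∑ i, T i k.succ * w i := mas_swap α w
    rw [this]
    refine Finset.sum_le_sum fun k _ => ?_
    simp only [hw]
    rw [mas_comb hS hU]
    nlinarith [sq_nonneg (α k * S k.succ k.succ)]
  have h3 : 0 ≤ ∑ i, (u i - w i) ^ 2 := Finset.sum_nonneg fun i _ => sq_nonneg _
  have h4 : ∑ i, (u i - w i) ^ 2 = ∑ i, u i ^ 2 - 2 * ∑ i, u i * w i + ∑ i, w i * w i := by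
    rw [Finset.mul_sum, ← Finset.sum_sub_distrib, ← Finset.sum_add_distrib]
    exact Finset.sum_congr rfl fun i _ => by ring
  linarith

/-- The vector `τ`. -/
noncomputable def masTau (S T : Mat n) (i : Fin (n + 1)) : ℝ :=
  T i 0 - ∑ j : Fin n, S j.succ 0 / S j.succ j.succ * T i j.succ

theorem mas_tau_dot (hS : Tri S) (hU : Unit1 S T s) (j : Fin n) :
    ∑ i, T i j.succ * masTau S T i = -(S j.succ 0 / S j.succ j.succ) := by
  simp only [masTau, mul_sub, Finset.sum_sub_distrib]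
  rw [mas_comb hS hU, mas_u0j hS hU]
  have := (hS.pos j).ne'
  field_simp
  ring

theorem mas_tau_sq (hS : Tri S) (hU : Unit1 S T s) :
    ∑ i, masTau S T i ^ 2
      = 1 - s ^ 2 - S 0 0 ^ 2 + ∑ j : Fin n, (S j.succ 0 / S j.succ j.succ) ^ 2 := by
  have h1 : ∑ i, masTau S T i ^ 2 = ∑ i, masTau S T i * T i 0
      - ∑ i, masTau S T i * ∑ j : Fin n, S j.succ 0 / S j.succ j.succ * T i j.succ := by
    rw [← Finset.sum_sub_distrib]
    exact Finset.sum_congr rfl fun i _ => by rw [← mul_sub, sq]; rfl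
  have h2 : ∑ i, masTau S T i * T i 0 = ∑ i, T i 0 ^ 2
      - ∑ i, T i 0 * ∑ j : Fin n, S j.succ 0 / S j.succ j.succ * T i j.succ := by
    rw [← Finset.sum_sub_distrib]
    exact Finset.sum_congr rfl fun i _ => by unfold masTau; ring
  rw [h1, h2, mas_swap, mas_swap]
  simp only [mas_tau_dot hS hU, mas_u0j hS hU]
  have h3 := mas_u00 hU
  rw [Fin.sum_univ_succ (fun i => S i 0 ^ 2)] at h3
  have h4 : ∑ k : Fin n, S k.succ 0 / S k.succ k.succ * -(S k.succ k.succ * S k.succ 0)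
      = -∑ k : Fin n, S k.succ 0 ^ 2 := by
    rw [← Finset.sum_neg_distrib]
    refine Finset.sum_congr rfl fun k _ => ?_
    have := (hS.pos k).ne'
    field_simp
  have h5 : ∑ k : Fin n, S k.succ 0 / S k.succ k.succ * -(S k.succ 0 / S k.succ k.succ)
      = -∑ k : Fin n, (S k.succ 0 / S k.succ k.succ) ^ 2 := by
    rw [← Finset.sum_neg_distrib]
    exact Finset.sum_congr rfl fun k _ => by ring
  rw [h4, h5]
  linarith

theorem mas_col_sq (hS : Tri S) (hU : Unit1 S T s) (j : Fin n) :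
    ∑ i, T i j.succ ^ 2 = 1 - S j.succ j.succ ^ 2 := by
  have h := mas_ujk hS hU j j
  rw [if_pos rfl] at h
  rw [← h]
  exact Finset.sum_congr rfl fun i _ => sq _

theorem mas_d_le (hS : Tri S) (hU : Unit1 S T s) (j : Fin n) : S j.succ j.succ ^ 2 ≤ 1 := by
  have h := mas_col_sq hS hU j
  have : 0 ≤ ∑ i, T i j.succ ^ 2 := Finset.sum_nonneg fun i _ => sq_nonneg _
  linarith

theorem mas_top_sq (hS : Tri S) (hU : Unit1 S T s) (k : ℝ) (j : Fin n) :
    T 0 j.succ ^ 2 ≤ 1 - S j.succ j.succ ^ 2 - 2 * k * (S j.succ j.succ * T j.succ j.succ)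
      + k ^ 2 * S j.succ j.succ ^ 2 := by
  have h := mas_col_sq hS hU j
  rw [Fin.sum_univ_succ] at h
  have h2 : T j.succ j.succ ^ 2 ≤ ∑ i : Fin n, T i.succ j.succ ^ 2 :=
    Finset.single_le_sum (f := fun i : Fin n => T i.succ j.succ ^ 2) (fun i _ => sq_nonneg _)
      (Finset.mem_univ j)
  nlinarith [sq_nonneg (T j.succ j.succ - k * S j.succ j.succ)]

theorem mas_trG (hS : Tri S) (T : Mat n) :
    (inv S T).trG = ∑ j : Fin n, S j.succ j.succ ^ 2 := by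
  simp only [inv]
  rw [Finset.sum_comm]
  refine Finset.sum_congr rfl fun j _ => ?_
  simp only [sq]
  exact mas_col hS j fun i => S i j.succ

theorem mas_trH (hS : Tri S) (T : Mat n) :
    (inv S T).trH = ∑ j : Fin n, S j.succ j.succ * T j.succ j.succ := by
  simp only [inv]
  rw [Finset.sum_comm]
  exact Finset.sum_congr rfl fun j _ => mas_col hS j fun i => T i j.succ

/-- The bound for the coefficients `c j` through the shifted vector. -/
theorem mas_c_sq (hS : Tri S) (hU : Unit1 S T s) (k : ℝ) :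
    ∑ j : Fin n, (S j.succ 0 / S j.succ j.succ) ^ 2
      ≤ 2 * ((masTau S T 0 - k * S 0 0) ^ 2 + ∑ j : Fin n, masTau S T j.succ ^ 2)
        + 2 * k ^ 2 * S 0 0 ^ 2 * ∑ j : Fin n, T 0 j.succ ^ 2 := by
  set u : Fin (n + 1) → ℝ := fun i => masTau S T i - if i = 0 then k * S 0 0 else 0 with hu
  have h1 := mas_bessel hS hU u
  have h2 : ∑ i, u i ^ 2
      = (masTau S T 0 - k * S 0 0) ^ 2 + ∑ j : Fin n, masTau S T j.succ ^ 2 := by
    rw [Fin.sum_univ_succ]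
    simp [hu]
  have h3 : ∀ j : Fin n, ∑ i, T i j.succ * u i
      = -(S j.succ 0 / S j.succ j.succ) - T 0 j.succ * (k * S 0 0) := fun j => by
    simp only [hu, mul_sub, Finset.sum_sub_distrib, mas_tau_dot hS hU]
    simp
  rw [← h2, Finset.mul_sum (Finset.univ : Finset (Fin n))]
  have h4 : ∑ j : Fin n, (S j.succ 0 / S j.succ j.succ) ^ 2
      ≤ ∑ j : Fin n, (2 * (∑ i, T i j.succ * u i) ^ 2
        + 2 * k ^ 2 * S 0 0 ^ 2 * T 0 j.succ ^ 2) := by
    refine Finset.sum_le_sum fun j _ => ?_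
    rw [h3]
    nlinarith [sq_nonneg (S j.succ 0 / S j.succ j.succ + 2 * (T 0 j.succ * (k * S 0 0)))]
  rw [Finset.sum_add_distrib, ← Finset.mul_sum] at h4
  linarith

/-- The lower part of the rotated first column. -/
theorem mas_x_low (hS : Tri S) (hU : Unit1 S T s) (co si : ℝ) (j : Fin n) :
    (co * S j.succ 0 - si * T j.succ 0) ^ 2 ≤ (∑ i, T i 0 ^ 2)
      * (si ^ 2 - co ^ 2 + co ^ 2 * (S j.succ j.succ ^ 2)⁻¹
        + 2 * (si * co) * (T j.succ j.succ / S j.succ j.succ)) := by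
  have hd := hS.pos j
  have h1 := Finset.sum_mul_sq_le_sq_mul_sq Finset.univ
    (fun i => si * S i j.succ + co * T i j.succ) (fun i => T i 0)
  have h2 : ∑ i, (si * S i j.succ + co * T i j.succ) * T i 0
      = -(S j.succ j.succ * (co * S j.succ 0 - si * T j.succ 0)) := by
    have : ∀ i, (si * S i j.succ + co * T i j.succ) * T i 0
        = si * (S i j.succ * T i 0) + co * (T i j.succ * T i 0) := fun i => by ring
    simp only [this, Finset.sum_add_distrib, ← Finset.mul_sum]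
    rw [mas_col hS, mas_u0j hS hU]
    ring
  have h3 : ∑ i, (si * S i j.succ + co * T i j.succ) ^ 2
      = S j.succ j.succ ^ 2 * (si ^ 2 - co ^ 2 + co ^ 2 * (S j.succ j.succ ^ 2)⁻¹
        + 2 * (si * co) * (T j.succ j.succ / S j.succ j.succ)) := by
    have : ∀ i, (si * S i j.succ + co * T i j.succ) ^ 2
        = si ^ 2 * (S i j.succ * S i j.succ) + 2 * (si * co) * (S i j.succ * T i j.succ)
          + co ^ 2 * T i j.succ ^ 2 := fun i => by ring
    simp only [this, Finset.sum_add_distrib, ← Finset.mul_sum]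
    rw [mas_col hS, mas_col hS, mas_col_sq hS hU]
    field_simp
    ring
  rw [h2, h3, neg_sq, mul_pow, mul_assoc] at h1
  have h4 := le_of_mul_le_mul_left h1 (by positivity)
  exact h4.trans_eq (mul_comm _ _)

end Vec

/-- The scalar part of the master inequality. -/
theorem mas_scalar {N Wr Be Bl mup m22 m40 E2 ε3 ε4 x x' Y Ca fb : ℝ}
    {a D h e C2 M r2 rc c2 K2 kb dD da g1 s k zX G Z cr cr0 : ℝ}
    (hN : 0 < N) (hE2 : 0 ≤ E2) (hBl : 0 ≤ Bl) (hm : 0 ≤ m22) (h3 : 0 ≤ ε3)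
    (h3' : Be - (Bl + E2 / N) ≤ ε3) (h4' : Bl - Be ≤ ε4) (hx' : 0 < x')
    (Ca1 : mup + x * m22 + ε4 + 2 * ε3 ≤ Ca) (Ca2 : N * m22 * (1 + x') + 2 * ε3 ≤ Ca)
    (hfb : 0 ≤ fb) (Cb1 : m40 + (N - 1) * m22 + m22 / x + ε3 ≤ Ca + fb)
    (Cb2 : mup + m22 ≤ Ca + fb) (Cb3 : m22 * (1 + 1 / x') ≤ Ca + fb) (hY : 2 * ε3 ≤ Y)
    (F1 : a = h * D) (F2 : M ^ 2 + r2 = D ^ 2 * (1 - s ^ 2 - h ^ 2 + C2))
    (F3 : c2 + K2 = h ^ 2 * (e - N * D ^ 2)) (F4 : da = 2 * a * (M + N * kb))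
    (F5 : 2 * a * (N * kb) = h ^ 2 * dD) (F6 : N * kb ^ 2 ≤ K2)
    (F7 : -2 * rc ≤ x * r2 + c2 / x) (F8 : cr ≤ cr0 + E2 * (zX * D ^ 2 + kb ^ 2))
    (F9 : D ^ 2 * C2 ≤ 2 * ((M - k * a) ^ 2 + r2) + 2 * Z) (hZ : 0 ≤ Z)
    (F10 : h ^ 2 * e + D ^ 2 * C2 ≤ G) (hR : 0 ≤ e - N * D ^ 2 - k * dD + N * k ^ 2 * D ^ 2)
    (hg : h ^ 2 ≤ g1) (hr : 0 ≤ r2) (hc : 0 ≤ c2) (hC : 0 ≤ C2) :
    a ^ 2 * (Wr + Be + N * Bl) + (s * D) ^ 2 * (Wr + N * Bl) + cr + Be * (M ^ 2 + c2)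
        + Bl * (r2 + K2) + N * m22 * (M - kb) ^ 2 + mup * r2 - 2 * m22 * rc
        + (m40 + (N - 1) * m22) * c2 + (mup + m22) * (K2 - N * kb ^ 2)
      ≤ a ^ 2 * (Wr - E2 - (N + 1) * Ca + (N + 1) * Ca * k ^ 2) + (Bl + E2 / N + Ca) * G
        + D ^ 2 * (Be * (1 - s ^ 2) + s ^ 2 * (Wr + N * Bl) + E2 * zX + Ca * (1 - s ^ 2))
        + Y * Z + fb * g1 * (e - N * D ^ 2 - k * dD + N * k ^ 2 * D ^ 2) - Ca * k * da + cr0 := by
  obtain ⟨q, hq⟩ : ∃ q, q = E2 / N := ⟨_, rfl⟩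
  have hq0 : 0 ≤ q := by rw [hq]; positivity
  have hqE : E2 = N * q := by rw [hq]; field_simp
  rw [← hq] at h3' ⊢
  have hCa : 0 ≤ Ca := le_trans (by positivity) Ca2
  have s0 : q * (N * kb ^ 2) ≤ q * K2 := mul_le_mul_of_nonneg_left F6 hq0
  have s1 : (Bl - Be) * r2 ≤ ε4 * r2 := mul_le_mul_of_nonneg_right h4' hr
  have s2 : (Be - (Bl + q)) * c2 ≤ ε3 * c2 := mul_le_mul_of_nonneg_right h3' hc
  have s3 : (Be - (Bl + q)) * (D ^ 2 * C2) ≤ ε3 * (D ^ 2 * C2) :=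
    mul_le_mul_of_nonneg_right h3' (by positivity)
  have s4 := mul_le_mul_of_nonneg_left F9 h3
  have s5 : 2 * ε3 * Z ≤ Y * Z := mul_le_mul_of_nonneg_right hY hZ
  have s6 : (M - kb) ^ 2 ≤ (1 + x') * (M - k * a) ^ 2 + (1 + 1 / x') * (kb - k * a) ^ 2 := by
    have : (1 + x') * (M - k * a) ^ 2 + (1 + 1 / x') * (kb - k * a) ^ 2 - (M - kb) ^ 2
        = (x' * (M - k * a) + (kb - k * a)) ^ 2 / x' := by
      field_simp
      ring
    have h2 : 0 ≤ (x' * (M - k * a) + (kb - k * a)) ^ 2 / x' := by positivity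
    linarith
  have s6' := mul_le_mul_of_nonneg_left s6 (mul_nonneg hN.le hm)
  have s7 := mul_le_mul_of_nonneg_left F7 hm
  have s8 := mul_le_mul_of_nonneg_right Ca1 hr
  have s9 := mul_le_mul_of_nonneg_right Ca2 (sq_nonneg (M - k * a))
  have s10 := mul_le_mul_of_nonneg_right Cb1 hc
  have s11 := mul_le_mul_of_nonneg_right Cb2 (sub_nonneg.2 F6)
  have s12 := mul_le_mul_of_nonneg_right Cb3 (mul_nonneg hN.le (sq_nonneg (kb - k * a)))
  have s13 := mul_le_mul_of_nonneg_left F10 (add_nonneg (add_nonneg hBl hq0) hCa)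
  have s14 := mul_le_mul_of_nonneg_right (mul_le_mul_of_nonneg_left hg hfb) hR
  have s15 : fb * k * (2 * a * (N * kb)) = fb * k * (h ^ 2 * dD) := by rw [F5]
  have s16 : m22 * (c2 / x) = m22 / x * c2 := by ring
  obtain ⟨y, hy⟩ : ∃ y, y = 1 / x' := ⟨_, rfl⟩
  obtain ⟨w, hw⟩ : ∃ w, w = m22 / x := ⟨_, rfl⟩
  obtain ⟨w', hw'⟩ : ∃ w', w' = c2 / x := ⟨_, rfl⟩
  rw [← hy] at s6' s12
  rw [← hw] at s10 s16
  rw [← hw'] at s7 s16
  have e1 : r2 = D ^ 2 * (1 - s ^ 2 - h ^ 2 + C2) - M ^ 2 := by linarith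
  have e2 : K2 = h ^ 2 * (e - N * D ^ 2) - c2 := by linarith
  subst e1 e2 F4 F1 hqE
  linarith

theorem mas_sign (x si : ℝ) :
    ∃ ε sg : ℝ, (ε = 1 ∨ ε = -1) ∧ ε * |si| = si * sg ∧ sg ^ 2 = 1 ∧ sg * x = |x| := by
  rcases le_total 0 x with hx | hx <;> rcases le_total 0 si with hs | hs
  · exact ⟨1, 1, Or.inl rfl, by rw [abs_of_nonneg hs]; ring, by norm_num,
      by rw [abs_of_nonneg hx]; ring⟩
  · exact ⟨-1, 1, Or.inr rfl, by rw [abs_of_nonpos hs]; ring, by norm_num,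
      by rw [abs_of_nonneg hx]; ring⟩
  · exact ⟨-1, -1, Or.inr rfl, by rw [abs_of_nonneg hs]; ring, by norm_num,
      by rw [abs_of_nonpos hx]; ring⟩
  · exact ⟨1, -1, Or.inl rfl, by rw [abs_of_nonpos hs]; ring, by norm_num,
      by rw [abs_of_nonpos hx]; ring⟩

/-- The scalar part of the estimate of the cross term. -/
theorem mas_cross {X X2 co si sg h g1 T0 x2 E E2 K W ph D kb u zc L2 R2 PR : ℝ}
    (hX : 0 ≤ X) (hX2 : X ^ 2 = X2) (h1 : co ^ 2 + si ^ 2 = 1) (hsg : sg ^ 2 = 1)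
    (hx : sg * (co * h - si * T0) = |co * h - si * T0|)
    (hsum : (co * h - si * T0) ^ 2 + x2 = X2) (hx2 : 0 ≤ x2) (hg : h ^ 2 ≤ g1) (hE : 0 ≤ E)
    (hE2 : 0 ≤ E2) (hK : 0 ≤ K) (hph : 2 * E ≤ ph)
    (hu : 2 * E * (-(X * (si * sg))) * u ≤ W * zc + K * (si ^ 2 * X2) * L2)
    (hL : D ^ 2 * L2 ≤ R2) (hP : D ^ 2 * x2 ≤ PR) :
    2 * (X * (si * sg)) * D * (E * (D * (T0 - u)) - E2 * kb)
      ≤ (E * (g1 - X2 * co ^ 2 - 2 * si ^ 2 * X2) * D ^ 2 + ph * PR + W * D ^ 2 * zc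
          + K * si ^ 2 * X2 * R2) + E2 * (X2 * si ^ 2 * D ^ 2 + kb ^ 2) := by
  obtain ⟨p, hp⟩ : ∃ p, p = |co * h - si * T0| := ⟨_, rfl⟩
  have hp0 : 0 ≤ p := by rw [hp]; exact abs_nonneg _
  have hp2 : p ^ 2 = X2 - x2 := by rw [hp, sq_abs]; linarith
  have hpX : p ≤ X := by
    exact (abs_le_of_sq_le_sq' (by linarith) hX).2
  rw [← hp] at hx
  have a1 : 2 * (X * (si * sg)) * T0 ≤ g1 - X2 * co ^ 2 - 2 * si ^ 2 * X2 + 2 * x2 := by
    have b1 : 2 * (X * (si * sg)) * T0 = 2 * (X * co * sg) * h - 2 * X * p := by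
      rw [← hx]; ring
    have b2 : 2 * (X * co * sg) * h ≤ h ^ 2 + co ^ 2 * X2 := by
      have : (X * co * sg) ^ 2 = co ^ 2 * X2 := by rw [mul_pow, mul_pow, hsg, hX2]; ring
      nlinarith [sq_nonneg (X * co * sg - h)]
    have b3 : p ^ 2 ≤ X * p := by nlinarith
    have b4 : si ^ 2 * X2 = X2 - co ^ 2 * X2 := by linear_combination X2 * h1
    linarith
  have a2 := mul_le_mul_of_nonneg_left a1 (mul_nonneg hE (sq_nonneg D))
  have a3 := mul_le_mul_of_nonneg_left hu (sq_nonneg D)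
  have hX20 : 0 ≤ X2 := by rw [← hX2]; positivity
  have a4 := mul_le_mul_of_nonneg_left hL (by positivity : 0 ≤ K * (si ^ 2 * X2))
  have a5 := mul_le_mul_of_nonneg_right hph (by positivity : 0 ≤ D ^ 2 * x2)
  have a6 := mul_le_mul_of_nonneg_left hP (by linarith : 0 ≤ ph)
  have a7 : -(2 * (X * (si * sg)) * D * kb) ≤ X2 * si ^ 2 * D ^ 2 + kb ^ 2 := by
    have : (X * (si * sg) * D) ^ 2 = X2 * si ^ 2 * D ^ 2 := by
      rw [mul_pow, mul_pow, mul_pow, hsg, hX2]; ring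
    nlinarith [sq_nonneg (X * (si * sg) * D + kb)]
  have a8 := mul_le_mul_of_nonneg_left a7 hE2
  linarith

theorem mas_zc {S T : Mat n} {s b m' : ℝ} (hn : 1 ≤ n) (hS : Tri S) (hU : Unit1 S T s)
    (hb : ∑ j : Fin n, S j.succ j.succ ^ 2 = n * b)
    (hm : m' ≤ max ((n : ℝ) - 1) (((n : ℝ) - 1) ^ 2 / (n * b))) :
    ∑ j : Fin n, (S j.succ 0 / S j.succ j.succ) ^ 2 + m' * ∑ j : Fin n, S j.succ 0 ^ 2
      ≤ (∑ j : Fin n, S j.succ 0 ^ 2) * ∑ j : Fin n, (S j.succ j.succ ^ 2)⁻¹ := by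
  rw [Finset.mul_sum, ← Finset.sum_add_distrib, Finset.sum_mul]
  refine Finset.sum_le_sum fun i _ => ?_
  have h1 := sum_inv_erase hn (g := fun j : Fin n => S j.succ j.succ ^ 2)
    (fun j => pow_pos (hS.pos j) 2) (mas_d_le hS hU) hb i
  rw [← Finset.add_sum_erase Finset.univ (fun j : Fin n => (S j.succ j.succ ^ 2)⁻¹)
    (Finset.mem_univ i), mul_add, div_pow, div_eq_mul_inv, mul_comm m']
  have h2 := mul_le_mul_of_nonneg_left (hm.trans h1) (sq_nonneg (S i.succ 0))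
  linarith

theorem mas_kbar (hn : 2 ≤ n) (M : Mat n) :
    n * kbar M ^ 2 ≤ ∑ i : Fin n, ∑ j : Fin n, M i.succ j.succ ^ 2 := by
  have hn' : (0 : ℝ) < n := by positivity
  have h1 : (∑ j : Fin n, M j.succ j.succ) ^ 2 ≤ n * ∑ j : Fin n, M j.succ j.succ ^ 2 := by
    simpa using sq_sum_le_card_mul_sum_sq (s := Finset.univ) (f := fun j : Fin n => M j.succ j.succ)
  have h2 : ∑ j : Fin n, M j.succ j.succ ^ 2 ≤ ∑ i : Fin n, ∑ j : Fin n, M i.succ j.succ ^ 2 :=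
    Finset.sum_le_sum fun i _ => Finset.single_le_sum (f := fun j : Fin n => M i.succ j.succ ^ 2)
      (fun j _ => sq_nonneg _) (Finset.mem_univ i)
  have h3 : n * kbar M ^ 2 = (∑ j : Fin n, M j.succ j.succ) ^ 2 / n := by
    unfold kbar; field_simp
  rw [h3, div_le_iff₀ hn']
  nlinarith

theorem Fr.Ok.dl_eq {F : Fr} (hF : F.Ok) {co si : ℝ} (h : co ^ 2 + si ^ 2 = 1) :
    F.dl / F.gb co si = 1 - F.gb co si - F.ka co si ^ 2 * F.gb co si := by
  have hg := (hF.gb_pos h).ne'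
  have hk : F.ka co si * F.gb co si = (2 * F.q - 1) * (si * co) := by
    unfold Fr.ka; field_simp
  have : F.dl = F.gb co si - F.gb co si ^ 2 - (F.ka co si * F.gb co si) ^ 2 := by
    rw [hk]; unfold Fr.dl Fr.gb
    have hc : co ^ 2 = 1 - si ^ 2 := by linarith
    have : (si * co) ^ 2 = si ^ 2 * (1 - si ^ 2) := by rw [mul_pow, hc]
    rw [mul_pow, this, hc]; ring
  rw [this]; field_simp

theorem Qf_le_Mid (hn : 2 ≤ n) {S T : Mat n} {F : Fr} {m : Mo} {C : Ch} {A : Aux} {co si : ℝ}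
    (hS : Tri S) (hU : Unit1 S T F.s) (hF : F.Ok) (h : co ^ 2 + si ^ 2 = 1)
    (hg : (inv S T).g1 = F.g1 co si) (hP : (inv S T).P1 = F.P1 co si)
    (hh : (inv S T).h1 = F.h1 co si) (hG : (inv S T).trG = n * F.gb co si)
    (hH : (inv S T).trH = n * (F.ka co si * F.gb co si)) (hC : Cond n F m C A co si) :
    ∃ ε : ℝ, (ε = 1 ∨ ε = -1) ∧
      Qf m ε S.det (F.s * ∏ j : Fin n, S j.succ j.succ) (S.adjugateᵀ * Tᵀ)
        ≤ Mid n F m C A co si (inv S T)
          ((∏ j : Fin n, S j.succ j.succ ^ 2) * ∑ j : Fin n, (S j.succ j.succ ^ 2)⁻¹)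
          (∑ j : Fin n, S j.succ 0 ^ 2) := by
  have hn' : (0 : ℝ) < n := by positivity
  have hgb := hF.gb_pos h
  obtain ⟨ε, sg, hε, hεs, hsg, hsx⟩ := mas_sign (co * S 0 0 - si * T 0 0) si
  refine ⟨ε, hε, ?_⟩
  rw [mas_trG hS] at hG
  rw [mas_trH hS] at hH
  simp only [inv] at hg hP hh
  have hD2 := mas_D2 hS T
  have hdD := mas_dD2 hS T
  have hda := mas_da2 hn S T
  have ha2 : (inv S T).a2 = S.det ^ 2 := rfl
  have hdet := mas_det hS
  have hlow := mas_low hS T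
  have htop : ∀ k, (S.adjugateᵀ * Tᵀ) 0 k
      = (∏ j : Fin n, S j.succ j.succ) * masTau S T k := mas_top hS T
  have hkb := mas_kbar hn (S.adjugateᵀ * Tᵀ)
  have hDb : (∏ j : Fin n, S j.succ j.succ) ^ 2 ≤ F.gb co si ^ n := by
    rw [← Finset.prod_pow]
    exact prod_le_mean_pow (fun j => pow_pos (hS.pos j) 2) hG
  rw [Finset.prod_pow]
  obtain ⟨M, hM⟩ : ∃ M, M = S.adjugateᵀ * Tᵀ := ⟨_, rfl⟩
  obtain ⟨D, hD⟩ : ∃ D, D = ∏ j : Fin n, S j.succ j.succ := ⟨_, rfl⟩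
  obtain ⟨k, hk⟩ : ∃ k, k = F.ka co si := ⟨_, rfl⟩
  rw [← hM] at hda hlow htop hkb ⊢
  rw [← hD] at hD2 hdD hdet htop hDb ⊢
  have hd := hS.pos
  have hg' : S 0 0 ^ 2 + ∑ j : Fin n, S j.succ 0 ^ 2 = F.g1 co si := by
    rw [← hg, Fin.sum_univ_succ]
  have hzc : 0 ≤ ∑ j : Fin n, S j.succ 0 ^ 2 := Finset.sum_nonneg fun _ _ => sq_nonneg _
  have hhg : S 0 0 ^ 2 ≤ F.g1 co si := by linarith
  -- the norm of the first row
  have hr2 : ∑ j : Fin n, M 0 j.succ ^ 2 = D ^ 2 * ∑ j : Fin n, masTau S T j.succ ^ 2 := by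
    rw [Finset.mul_sum]
    exact Finset.sum_congr rfl fun j _ => by rw [htop, mul_pow]
  have F2 : M 0 0 ^ 2 + ∑ j : Fin n, M 0 j.succ ^ 2 = D ^ 2 * (1 - F.s ^ 2 - S 0 0 ^ 2
      + ∑ j : Fin n, (S j.succ 0 / S j.succ j.succ) ^ 2) := by
    rw [← mas_tau_sq hS hU, Fin.sum_univ_succ (fun i => masTau S T i ^ 2), hr2, htop]
    ring
  -- the norm of the other rows
  have F3 : ∑ j : Fin n, M j.succ 0 ^ 2 + ∑ i : Fin n, ∑ j : Fin n, M i.succ j.succ ^ 2
      = S 0 0 ^ 2 * (D ^ 2 * ∑ j : Fin n, (S j.succ j.succ ^ 2)⁻¹ - n * D ^ 2) := by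
    rw [← Finset.sum_add_distrib]
    have h1 : ∀ i : Fin n, M i.succ 0 ^ 2 + ∑ j : Fin n, M i.succ j.succ ^ 2
        = S 0 0 ^ 2 * D ^ 2 * ((S i.succ i.succ ^ 2)⁻¹ - 1) := fun i => by
      rw [← Fin.sum_univ_succ (fun l => M i.succ l ^ 2)]
      simp only [hlow, div_pow, mul_pow, ← Finset.sum_div, ← Finset.mul_sum]
      rw [mas_col_sq hS hU, hdet]
      have := (hd i).ne'
      field_simp
    simp only [h1]
    rw [← Finset.mul_sum, Finset.sum_sub_distrib]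
    simp only [Finset.sum_const, Finset.card_univ, Fintype.card_fin, nsmul_eq_mul]
    ring
  have F5 : 2 * S.det * (n * kbar M) = S 0 0 ^ 2 * (inv S T).dD2 := by
    have h1 : n * kbar M = S.det * ∑ j : Fin n, T j.succ j.succ / S j.succ j.succ := by
      rw [kbar, mul_div_cancel₀ _ hn'.ne', Finset.mul_sum]
      exact Finset.sum_congr rfl fun j _ => by rw [hlow, mul_div_assoc]
    rw [h1, hdD, hdet]
    ring
  have F7 : -2 * ∑ j : Fin n, M 0 j.succ * M j.succ 0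
      ≤ A.x * ∑ j : Fin n, M 0 j.succ ^ 2 + (∑ j : Fin n, M j.succ 0 ^ 2) / A.x := by
    rw [Finset.mul_sum, Finset.mul_sum, Finset.sum_div, ← Finset.sum_add_distrib]
    refine Finset.sum_le_sum fun j _ => ?_
    have hx := hC.x_pos
    have h1 : A.x * M 0 j.succ ^ 2 + M j.succ 0 ^ 2 / A.x + 2 * (M 0 j.succ * M j.succ 0)
        = (A.x * M 0 j.succ + M j.succ 0) ^ 2 / A.x := by
      field_simp
      ring
    have h2 : 0 ≤ (A.x * M 0 j.succ + M j.succ 0) ^ 2 / A.x := by positivity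
    linarith
  -- the top entries of the columns of `T`
  have hT0 : ∑ j : Fin n, T 0 j.succ ^ 2 ≤ n * F.dl / F.gb co si := by
    refine (Finset.sum_le_sum fun j _ => mas_top_sq hS hU k j).trans_eq ?_
    rw [Finset.sum_add_distrib, Finset.sum_sub_distrib, Finset.sum_sub_distrib, ← Finset.mul_sum,
      ← Finset.mul_sum, hG, hH, mul_div_assoc, hF.dl_eq h, ← hk]
    simp only [Finset.sum_const, Finset.card_univ, Fintype.card_fin, nsmul_eq_mul]
    ring
  have hT0' : 0 ≤ ∑ j : Fin n, T 0 j.succ ^ 2 := Finset.sum_nonneg fun _ _ => sq_nonneg _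
  have hZ : 0 ≤ k ^ 2 * F.g1 co si * F.gb co si ^ n * (n * F.dl / F.gb co si) :=
    mul_nonneg (mul_nonneg (mul_nonneg (sq_nonneg _) ((sq_nonneg _).trans hhg)) (by positivity))
      (hT0'.trans hT0)
  have F9 : D ^ 2 * ∑ j : Fin n, (S j.succ 0 / S j.succ j.succ) ^ 2
      ≤ 2 * ((M 0 0 - k * S.det) ^ 2 + ∑ j : Fin n, M 0 j.succ ^ 2)
        + 2 * (k ^ 2 * F.g1 co si * F.gb co si ^ n * (n * F.dl / F.gb co si)) := by
    have h1 := mul_le_mul_of_nonneg_left (mas_c_sq hS hU k) (sq_nonneg D)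
    have h2 : S 0 0 ^ 2 * D ^ 2 * ∑ j : Fin n, T 0 j.succ ^ 2
        ≤ F.g1 co si * F.gb co si ^ n * (n * F.dl / F.gb co si) :=
      mul_le_mul (mul_le_mul hhg hDb (sq_nonneg _) ((sq_nonneg _).trans hhg)) hT0 hT0'
        (mul_nonneg ((sq_nonneg _).trans hhg) (by positivity))
    have h3 := mul_le_mul_of_nonneg_left h2 (sq_nonneg k)
    rw [hr2, htop, hdet]
    linarith
  have F10 : S 0 0 ^ 2 * (D ^ 2 * ∑ j : Fin n, (S j.succ j.succ ^ 2)⁻¹)
      + D ^ 2 * ∑ j : Fin n, (S j.succ 0 / S j.succ j.succ) ^ 2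
      ≤ F.g1 co si * (D ^ 2 * ∑ j : Fin n, (S j.succ j.succ ^ 2)⁻¹)
        - A.m' * (∑ j : Fin n, S j.succ 0 ^ 2) * D ^ 2 := by
    have h1 := mul_le_mul_of_nonneg_left (mas_zc (by omega) hS hU hG hC.hm') (sq_nonneg D)
    rw [← hg']
    linarith
  have hL : D ^ 2 * ∑ j : Fin n, (T 0 j.succ / S j.succ j.succ) ^ 2
      ≤ D ^ 2 * ∑ j : Fin n, (S j.succ j.succ ^ 2)⁻¹ - n * D ^ 2 - k * (inv S T).dD2
        + n * k ^ 2 * D ^ 2 := by
    have h1 : ∑ j : Fin n, (T 0 j.succ / S j.succ j.succ) ^ 2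
        ≤ ∑ j : Fin n, ((S j.succ j.succ ^ 2)⁻¹ - 1
          - 2 * k * (T j.succ j.succ / S j.succ j.succ) + k ^ 2) := by
      refine Finset.sum_le_sum fun j _ => ?_
      have h2 := hd j
      rw [div_pow, div_le_iff₀ (by positivity)]
      refine (mas_top_sq hS hU k j).trans_eq ?_
      field_simp
    rw [Finset.sum_add_distrib, Finset.sum_sub_distrib, Finset.sum_sub_distrib,
      ← Finset.mul_sum] at h1
    simp only [Finset.sum_const, Finset.card_univ, Fintype.card_fin, nsmul_eq_mul] at h1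
    have h3 := mul_le_mul_of_nonneg_left h1 (sq_nonneg D)
    rw [hdD]
    linarith
  have hL0 : 0 ≤ D ^ 2 * ∑ j : Fin n, (T 0 j.succ / S j.succ j.succ) ^ 2 :=
    mul_nonneg (sq_nonneg _) (Finset.sum_nonneg fun _ _ => sq_nonneg _)
  -- the rotated first column
  have hx2 : D ^ 2 * ∑ j : Fin n, (co * S j.succ 0 - si * T j.succ 0) ^ 2
      ≤ F.P1 co si * (n * (si ^ 2 - co ^ 2) * D ^ 2
        + co ^ 2 * (D ^ 2 * ∑ j : Fin n, (S j.succ j.succ ^ 2)⁻¹) + si * co * (inv S T).dD2) := by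
    have h1 := Finset.sum_le_sum (s := Finset.univ) fun j _ => mas_x_low hS hU co si j
    rw [← Finset.mul_sum, Finset.sum_add_distrib, Finset.sum_add_distrib, ← Finset.mul_sum,
      ← Finset.mul_sum, hP] at h1
    simp only [Finset.sum_const, Finset.card_univ, Fintype.card_fin, nsmul_eq_mul] at h1
    have h3 := mul_le_mul_of_nonneg_left h1 (sq_nonneg D)
    rw [hdD]
    linarith
  have hsum : (co * S 0 0 - si * T 0 0) ^ 2
      + ∑ j : Fin n, (co * S j.succ 0 - si * T j.succ 0) ^ 2 = F.X2 := by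
    rw [← Fin.sum_univ_succ (fun i => (co * S i 0 - si * T i 0) ^ 2)]
    have h1 : ∀ i, (co * S i 0 - si * T i 0) ^ 2
        = co ^ 2 * S i 0 ^ 2 - 2 * (si * co) * (S i 0 * T i 0) + si ^ 2 * T i 0 ^ 2 :=
      fun i => by ring
    simp only [h1]
    rw [Finset.sum_add_distrib, Finset.sum_sub_distrib, ← Finset.mul_sum, ← Finset.mul_sum,
      ← Finset.mul_sum, hg, hP, hh]
    unfold Fr.g1 Fr.P1 Fr.h1
    linear_combination F.X2 * (co ^ 2 + si ^ 2 + 1) * h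
  have hE : 0 ≤ A.E1 + A.E2 := add_nonneg hC.E1_nonneg hC.E2_nonneg
  have hK : 0 ≤ C.kk * F.gb co si := mul_nonneg hC.kk_nonneg hgb.le
  have hX2 : Real.sqrt F.X2 ^ 2 = F.X2 := Real.sq_sqrt hF.X2_nonneg
  have hu : 2 * (A.E1 + A.E2) * (-(Real.sqrt F.X2 * (si * sg)))
      * ∑ j : Fin n, S j.succ 0 / S j.succ j.succ * T 0 j.succ
      ≤ Wexp n F m C A co si * ∑ j : Fin n, S j.succ 0 ^ 2
        + C.kk * F.gb co si * (si ^ 2 * F.X2) * ∑ j : Fin n, (T 0 j.succ / S j.succ j.succ) ^ 2 := by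
    rw [Finset.mul_sum, Finset.mul_sum, Finset.mul_sum, ← Finset.sum_add_distrib]
    refine Finset.sum_le_sum fun j _ => ?_
    have h1 := mas_amgm (u := S j.succ 0)
      (v := -(Real.sqrt F.X2 * (si * sg)) * (T 0 j.succ / S j.succ j.succ)) hK hC.W_nonneg hC.hW
    have h2 : (-(Real.sqrt F.X2 * (si * sg)) * (T 0 j.succ / S j.succ j.succ)) ^ 2
        = si ^ 2 * F.X2 * (T 0 j.succ / S j.succ j.succ) ^ 2 := by
      rw [mul_pow, neg_sq, mul_pow, mul_pow, hsg, hX2]; ring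
    rw [h2] at h1
    refine le_of_eq_of_le ?_ (h1.trans_eq ?_) <;> ring
  have F8 := mas_cross (kb := kbar M) (Real.sqrt_nonneg _) hX2 h hsg hsx hsum
    (Finset.sum_nonneg fun _ _ => sq_nonneg _) hhg hE hC.E2_nonneg hK hC.hph hu hL hx2
  have hcr : 2 * ε * (F.s * D) * (M 0 0 * m.e1 + (M 0 0 - kbar M) * m.e2)
      = 2 * (Real.sqrt F.X2 * (si * sg)) * D * ((A.E1 + A.E2) * (D * (T 0 0
        - ∑ j : Fin n, S j.succ 0 / S j.succ j.succ * T 0 j.succ)) - A.E2 * kbar M) := by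
    have h1 : M 0 0 = D * (T 0 0 - ∑ j : Fin n, S j.succ 0 / S j.succ j.succ * T 0 j.succ) :=
      htop 0
    rw [← h1, ← hεs]
    linear_combination 2 * ε * D * M 0 0 * hC.he1 + 2 * ε * D * (M 0 0 - kbar M) * hC.he2
  rw [← hcr] at F8
  have key := mas_scalar (Wr := m.Wr) hn' hC.E2_nonneg hC.Bl_nonneg hC.m22_nonneg hC.ε3_nonneg
    hC.hε3 hC.hε4 hC.x'_pos hC.Ca1 hC.Ca2 hC.fb_nonneg hC.Cb1 hC.Cb2 hC.Cb3 hC.hY hdet F2 F3 hda
    F5 hkb F7 F8 F9 hZ F10 (hL0.trans hL) hhg (Finset.sum_nonneg fun _ _ => sq_nonneg _)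
    (Finset.sum_nonneg fun _ _ => sq_nonneg _) (Finset.sum_nonneg fun _ _ => sq_nonneg _)
  unfold Qf Mid
  rw [ha2, hD2, ← hk]
  refine key.trans_eq ?_
  ring

theorem master (hn : 2 ≤ n) {S T : Mat n} {F : Fr} {m : Mo} {C : Ch} {A : Aux} {co si : ℝ}
    (hS : Tri S) (hU : Unit1 S T F.s) (hF : F.Ok) (h : co ^ 2 + si ^ 2 = 1)
    (hg : (inv S T).g1 = F.g1 co si) (hP : (inv S T).P1 = F.P1 co si)
    (hh : (inv S T).h1 = F.h1 co si) (hG : (inv S T).trG = n * F.gb co si)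
    (hH : (inv S T).trH = n * (F.ka co si * F.gb co si)) (hC : Cond n F m C A co si) :
    ∃ ε : ℝ, (ε = 1 ∨ ε = -1) ∧
      Qf m ε S.det (F.s * ∏ j : Fin n, S j.succ j.succ) (S.adjugateᵀ * Tᵀ)
        ≤ F.gb co si ^ n * Model n F m C A co si + Ups n F C co si (inv S T) := by
  obtain ⟨ε, hε, h1⟩ := Qf_le_Mid hn hS hU hF h hg hP hh hG hH hC
  refine ⟨ε, hε, h1.trans ?_⟩
  have hn' : (0 : ℝ) < n := by positivity
  have hgb := hF.gb_pos h
  rw [mas_trG hS] at hG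
  have hD2 : (inv S T).D2 = ∏ j : Fin n, S j.succ j.succ ^ 2 := by
    rw [mas_D2 hS, Finset.prod_pow]
  have hg0 : 0 ≤ F.g1 co si := by
    rw [← hg]; simp only [inv]; positivity
  have hP0 : 0 ≤ F.P1 co si := by
    rw [← hP]; simp only [inv]; positivity
  have ha : (inv S T).a2 = (F.g1 co si - ∑ j : Fin n, S j.succ 0 ^ 2) * (inv S T).D2 := by
    rw [← hg, mas_D2 hS]
    simp only [inv]
    rw [mas_det hS, Fin.sum_univ_succ]
    ring
  rw [Mid_eq (by omega) hF m C A h _ _ _ ha, hD2]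
  have h2 := prod_le_mean_pow (fun j : Fin n => pow_pos (hS.pos j) 2) hG
  have h3 := schur_bound hn (fun j : Fin n => pow_pos (hS.pos j) 2) (mas_d_le hS hU) hG hC.hmm
  have hCa : 0 ≤ C.Ca := by
    have := hC.m22_nonneg
    have := hC.x'_pos
    have := hC.ε3_nonneg
    exact le_trans (by positivity) hC.Ca2
  have hph : 0 ≤ C.ph := by linarith [hC.hph, hC.E1_nonneg, hC.E2_nonneg]
  have h4 : 0 ≤ (m.Bl + A.E2 / n + C.Ca) * F.g1 co si
      + (C.fb * F.g1 co si + C.kk * F.gb co si * si ^ 2 * F.X2)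
      + co ^ 2 * (C.ph * F.P1 co si) := by
    have := hC.Bl_nonneg
    have := hC.E2_nonneg
    have := hC.fb_nonneg
    have := hC.kk_nonneg
    have := hF.X2_nonneg
    positivity
  have h5 := mul_nonneg hC.hG (sub_nonneg.2 h2)
  have h6 := mul_nonneg h4 (sub_nonneg.2 h3)
  linarith

end Pool.Agent.Ped
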