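import Pool.Agent.P.MP_e09f5c_gt.CDefs

/-! Triangular normal form of a slice. -/

open MeasureTheory Metric Set Matrix
open scoped InnerProductSpace ENNReal

namespace Pool.Agent.Ped

variable {n : ℕ}

/-- The block matrix with blocks `1` and `U`. -/
def nor_blk {m : ℕ} (U : Matrix (Fin m) (Fin m) ℝ) : Matrix (Fin (m + 1)) (Fin (m + 1)) ℝ :=
  Matrix.of fun i j =>
    Fin.cases (motive := fun _ => ℝ) (Fin.cases (motive := fun _ => ℝ) 1 (fun _ => 0) j)
      (fun i' => Fin.cases (motive := fun _ => ℝ) 0 (fun j' => U i' j') j) i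

theorem nor_blk00 {m : ℕ} (U : Matrix (Fin m) (Fin m) ℝ) : nor_blk U 0 0 = 1 := rfl

theorem nor_blk0s {m : ℕ} (U : Matrix (Fin m) (Fin m) ℝ) (j : Fin m) :
    nor_blk U 0 j.succ = 0 := rfl

theorem nor_blks0 {m : ℕ} (U : Matrix (Fin m) (Fin m) ℝ) (i : Fin m) :
    nor_blk U i.succ 0 = 0 := rfl

theorem nor_blkss {m : ℕ} (U : Matrix (Fin m) (Fin m) ℝ) (i j : Fin m) :
    nor_blk U i.succ j.succ = U i j := rfl

theorem nor_blk_orth {m : ℕ} {U : Matrix (Fin m) (Fin m) ℝ} (hU : Uᵀ * U = 1) :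
    (nor_blk U)ᵀ * nor_blk U = 1 := by
  ext i j
  rw [mul_apply, Fin.sum_univ_succ]
  simp only [transpose_apply]
  refine Fin.cases ?_ (fun i => ?_) i <;> refine Fin.cases ?_ (fun j => ?_) j
  · simp [nor_blk00, nor_blks0]
  · simp [nor_blk0s, nor_blks0, one_apply_ne (Fin.succ_ne_zero j).symm]
  · simp [nor_blk0s, nor_blks0, one_apply_ne (Fin.succ_ne_zero i)]
  · have := congrFun (congrFun hU i) j
    rw [mul_apply] at this
    simp only [transpose_apply] at this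
    simp only [nor_blk0s, nor_blkss, this, mul_zero, zero_add, one_apply, Fin.succ_inj]

theorem nor_blk_ez (U : Matrix (Fin n) (Fin n) ℝ) (s : ℝ) :
    (nor_blk U)ᵀ *ᵥ ez n s = ez n s := by
  unfold ez
  rw [mulVec_single]
  ext i
  refine Fin.cases ?_ (fun i => ?_) i
  · simp [nor_blk00]
  · simp [nor_blk0s]

theorem nor_mul_blk0 (S : Mat n) (U : Matrix (Fin n) (Fin n) ℝ) (i : Fin (n + 1)) :
    (S * nor_blk U) i 0 = S i 0 := by
  rw [mul_apply, Fin.sum_univ_succ]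
  simp [nor_blk00, nor_blks0]

theorem nor_rest_blk (S : Mat n) (U : Matrix (Fin n) (Fin n) ℝ) :
    rest (S * nor_blk U) = rest S * U := by
  ext i j
  simp only [rest, submatrix_apply, id, mul_apply, Fin.sum_univ_succ, nor_blk0s, nor_blkss,
    mul_zero, zero_add]

theorem nor_rest_mul (O S : Mat n) : rest (O * S) = O * rest S := by
  ext i j
  simp only [rest, submatrix_apply, id, mul_apply]

theorem nor_vmv {m : ℕ} (A : Matrix (Fin m) (Fin m) ℝ) (p : Fin m → ℝ) :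
    vecMulVec (Aᵀ *ᵥ p) (Aᵀ *ᵥ p) = Aᵀ * vecMulVec p p * A := by
  rw [mul_vecMulVec, vecMulVec_mul, ← mulVec_transpose]

theorem nor_det_sq {m : ℕ} {O : Matrix (Fin m) (Fin m) ℝ} (hO : Oᵀ * O = 1) :
    O.det * O.det = 1 := by
  have := congrArg Matrix.det hO
  rwa [det_mul, det_transpose, det_one] at this

theorem nor_iso {O : Mat n} (hO : Oᵀ * O = 1) :
    ∃ e : E n ≃ₗᵢ[ℝ] E n, ∀ Y, e Y 0 = Y 0 ∧ eta (e Y) = Oᵀ *ᵥ eta Y := by
  have hO' : (Oᵀ)ᵀ * Oᵀ = 1 := by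
    rw [transpose_transpose]; exact mul_eq_one_comm.1 hO
  have hP := nor_blk_orth hO'
  set P := nor_blk Oᵀ with hPdef
  have hn : ∀ y : E n, ‖Matrix.toEuclideanLin P y‖ = ‖y‖ := by
    intro y
    have h1 : ∀ z : E n, ‖z‖ ^ 2 = z.ofLp ⬝ᵥ z.ofLp := by
      intro z
      rw [EuclideanSpace.real_norm_sq_eq]
      simp only [dotProduct, sq]
    have h2 : ‖Matrix.toEuclideanLin P y‖ ^ 2 = ‖y‖ ^ 2 := by
      rw [h1, h1]
      change (P *ᵥ y.ofLp) ⬝ᵥ (P *ᵥ y.ofLp) = _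
      rw [dotProduct_mulVec, ← mulVec_transpose, mulVec_mulVec, hP, one_mulVec]
    exact (pow_left_inj₀ (norm_nonneg _) (norm_nonneg _) two_ne_zero).1 h2
  refine ⟨LinearIsometry.toLinearIsometryEquiv ⟨Matrix.toEuclideanLin P, hn⟩ rfl, fun Y => ⟨?_, ?_⟩⟩
  · change (P *ᵥ Y.ofLp) 0 = _
    simp [mulVec, dotProduct, Fin.sum_univ_succ (n := n + 1), hPdef, nor_blk00, nor_blk0s]
  · ext i
    change (P *ᵥ Y.ofLp) i.succ = _
    simp only [mulVec, dotProduct, Fin.sum_univ_succ (n := n + 1), hPdef, nor_blks0, nor_blkss,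
      eta, zero_mul, zero_add]

theorem nor_unit {S T O : Mat n} {U : Matrix (Fin n) (Fin n) ℝ} {s : ℝ} (hO : Oᵀ * O = 1)
    (hU : Uᵀ * U = 1) (h : Unit1 S T s) :
    Unit1 (O * S * nor_blk U) (O * T * nor_blk U) s := by
  unfold Unit1 at h ⊢
  have e : ∀ A : Mat n, (O * A * nor_blk U)ᵀ * (O * A * nor_blk U)
      = (nor_blk U)ᵀ * (Aᵀ * A) * nor_blk U := by
    intro A
    simp only [transpose_mul, Matrix.mul_assoc]
    rw [← Matrix.mul_assoc Oᵀ, hO, Matrix.one_mul]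
  rw [e, e, ← nor_blk_ez U s, nor_vmv, ← Matrix.add_mul, ← Matrix.add_mul, ← Matrix.mul_add,
    ← Matrix.mul_add, h, Matrix.mul_one, nor_blk_orth hU]

theorem nor_Jst {S T O : Mat n} {U : Matrix (Fin n) (Fin n) ℝ} (s : ℝ) (hO : Oᵀ * O = 1)
    (hU : Uᵀ * U = 1) :
    Jst (O * S * nor_blk U) (O * T * nor_blk U) s = Jst S T s := by
  obtain ⟨e, he⟩ := nor_iso hO
  unfold Jst
  rw [← gauss_comp e (fun Y : E n => |Y 0| * Real.sqrt (Y 0 ^ 2 • (Sᵀ * S)
    + vecMulVec (Sᵀ *ᵥ eta Y) (Sᵀ *ᵥ eta Y)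
    + vecMulVec (Tᵀ *ᵥ eta Y - Y 0 • ez n s) (Tᵀ *ᵥ eta Y - Y 0 • ez n s)).det)]
  congr 1
  funext Y
  rw [(he Y).1, (he Y).2]
  set W := nor_blk U with hW
  have e1 : (O * S * W)ᵀ * (O * S * W) = Wᵀ * (Sᵀ * S) * W := by
    simp only [transpose_mul, Matrix.mul_assoc]
    rw [← Matrix.mul_assoc Oᵀ, hO, Matrix.one_mul]
  have e2 : ∀ A : Mat n, (O * A * W)ᵀ *ᵥ eta Y = Wᵀ *ᵥ (Aᵀ *ᵥ (Oᵀ *ᵥ eta Y)) := by
    intro A
    simp only [transpose_mul, mulVec_mulVec, Matrix.mul_assoc]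
  have e3 : Wᵀ *ᵥ (Tᵀ *ᵥ (Oᵀ *ᵥ eta Y)) - Y 0 • ez n s
      = Wᵀ *ᵥ (Tᵀ *ᵥ (Oᵀ *ᵥ eta Y) - Y 0 • ez n s) := by
    rw [mulVec_sub, mulVec_smul, nor_blk_ez]
  rw [e1, e2, e2, e3, nor_vmv W, nor_vmv W, ← Matrix.smul_mul, ← Matrix.mul_smul,
    ← Matrix.add_mul, ← Matrix.add_mul, ← Matrix.mul_add, ← Matrix.mul_add, det_mul, det_mul,
    det_transpose, mul_right_comm, nor_det_sq (nor_blk_orth hU), one_mul]

theorem nor_col (A B : Mat n) : ∑ i, A i 0 * B i 0 = (Aᵀ * B) 0 0 := by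
  simp only [mul_apply, transpose_apply]

theorem nor_tr (A B : Mat n) :
    ∑ i, ∑ j : Fin n, A i j.succ * B i j.succ = ((rest A)ᵀ * rest B).trace := by
  rw [Finset.sum_comm]
  simp only [trace, diag_apply, mul_apply, transpose_apply, rest, submatrix_apply, id]

theorem nor_inv {S T O : Mat n} {U : Matrix (Fin n) (Fin n) ℝ} (hO : Oᵀ * O = 1)
    (hU : Uᵀ * U = 1) :
    inv (O * S * nor_blk U) (O * T * nor_blk U) = inv S T := by
  have hW := nor_blk_orth hU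
  have dO := nor_det_sq hO
  have dW := nor_det_sq hW
  have dU := nor_det_sq hU
  have hU' : U * Uᵀ = 1 := mul_eq_one_comm.1 hU
  have c0 : ∀ A B : Mat n, ∑ i, (O * A * nor_blk U) i 0 * (O * B * nor_blk U) i 0
      = ∑ i, A i 0 * B i 0 := by
    intro A B
    simp only [nor_mul_blk0]
    rw [nor_col, nor_col, transpose_mul, Matrix.mul_assoc, ← Matrix.mul_assoc Oᵀ, hO,
      Matrix.one_mul]
  have r0 : ∀ A B : Mat n, (rest (O * A * nor_blk U))ᵀ * rest (O * B * nor_blk U)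
      = Uᵀ * ((rest A)ᵀ * rest B) * U := by
    intro A B
    rw [nor_rest_blk, nor_rest_blk, nor_rest_mul, nor_rest_mul]
    simp only [transpose_mul, Matrix.mul_assoc]
    rw [← Matrix.mul_assoc Oᵀ, hO, Matrix.one_mul]
  have t0 : ∀ A B : Mat n, ∑ i, ∑ j : Fin n, (O * A * nor_blk U) i j.succ *
      (O * B * nor_blk U) i j.succ = ∑ i, ∑ j : Fin n, A i j.succ * B i j.succ := by
    intro A B
    rw [nor_tr, nor_tr, r0, trace_mul_comm, ← Matrix.mul_assoc, hU', Matrix.one_mul]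
  have a0 : ∀ {m : ℕ} (P Q A B : Matrix (Fin m) (Fin m) ℝ),
      ((P * A * Q).adjugate * (P * B * Q)).trace = P.det * Q.det * (A.adjugate * B).trace := by
    intro m P Q A B
    have h1 : (P * A * Q).adjugate * (P * B * Q)
        = Q.adjugate * (A.adjugate * ((P.adjugate * P) * B) * Q) := by
      simp only [adjugate_mul_distrib, Matrix.mul_assoc]
    rw [h1, trace_mul_comm, Matrix.mul_assoc, mul_adjugate, adjugate_mul, Matrix.mul_smul,
      Matrix.mul_one, Matrix.smul_mul, Matrix.one_mul, Matrix.mul_smul, trace_smul, trace_smul,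
      smul_eq_mul, smul_eq_mul]
    ring
  unfold inv
  congr 1
  · rw [det_mul, det_mul]
    linear_combination (S.det ^ 2 * (nor_blk U).det ^ 2) * dO + S.det ^ 2 * dW
  · rw [a0, det_mul, det_mul]
    linear_combination (2 * S.det * (S.adjugate * T).trace * (nor_blk U).det ^ 2) * dO
      + 2 * S.det * (S.adjugate * T).trace * dW
  · rw [r0, det_mul, det_mul, det_transpose, mul_right_comm, dU, one_mul]
  · rw [r0, r0, a0, det_transpose, dU, one_mul]
  · simp only [sq]; exact c0 S S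
  · simp only [sq]; exact c0 T T
  · exact c0 S T
  · simp only [sq]; exact t0 S S
  · exact t0 S T

theorem nor_diag (S : Mat n) : ∃ U : Matrix (Fin n) (Fin n) ℝ, Uᵀ * U = 1 ∧
    ∀ i j : Fin n, i ≠ j → ((rest S * U)ᵀ * (rest S * U)) i j = 0 := by
  have hG : ((rest S)ᵀ * rest S).IsHermitian := by
    have := isHermitian_conjTranspose_mul_self (rest S)
    rwa [conjTranspose_eq_transpose_of_trivial] at this
  have h := hG.conjStarAlgAut_star_eigenvectorUnitary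
  rw [Unitary.conjStarAlgAut_star_apply] at h
  refine ⟨hG.eigenvectorUnitary, ?_, fun i j hij => ?_⟩
  · have := Unitary.coe_star_mul_self hG.eigenvectorUnitary
    rwa [star_eq_conjTranspose, conjTranspose_eq_transpose_of_trivial] at this
  · rw [star_eq_conjTranspose, conjTranspose_eq_transpose_of_trivial] at h
    rw [transpose_mul, Matrix.mul_assoc, ← Matrix.mul_assoc (rest S)ᵀ, ← Matrix.mul_assoc, h,
      diagonal_apply_ne _ hij]

theorem nor_rot {S : Mat n} (hS : S.det ≠ 0)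
    (hd : ∀ i j : Fin n, i ≠ j → ((rest S)ᵀ * rest S) i j = 0) :
    ∃ O : Mat n, Oᵀ * O = 1 ∧ Tri (O * S) := by
  have hinv : S⁻¹ * S = 1 := nonsing_inv_mul S (Ne.isUnit hS)
  have hνS : ∀ k, ∑ i, S⁻¹ 0 i * S i k = (1 : Mat n) 0 k := by
    intro k; rw [← hinv, mul_apply]
  have hd' : ∀ i j : Fin n, i ≠ j → ∑ k, S k i.succ * S k j.succ = 0 := by
    intro i j hij
    have := hd i j hij
    simpa only [mul_apply, transpose_apply, rest, submatrix_apply, id] using this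
  have hpos : ∀ {v : Fin (n + 1) → ℝ}, v ≠ 0 → 0 < ∑ k, v k * v k := by
    intro v hv
    obtain ⟨k, hk⟩ := Function.ne_iff.1 hv
    exact Finset.sum_pos' (fun i _ => mul_self_nonneg _)
      ⟨k, Finset.mem_univ _, mul_self_pos.2 hk⟩
  have hν : 0 < ∑ k, S⁻¹ 0 k * S⁻¹ 0 k := by
    refine hpos (v := fun k => S⁻¹ 0 k) fun h => ?_
    have h1 := hνS 0
    have h2 : ∀ k, S⁻¹ 0 k = 0 := fun k => congrFun h k
    simp [h2] at h1
  have hc : ∀ j : Fin n, 0 < ∑ k, S k j.succ * S k j.succ := by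
    intro j
    refine hpos (v := fun k => S k j.succ) fun h => hS ?_
    exact det_eq_zero_of_column_eq_zero j.succ fun k => congrFun h k
  set ν := Real.sqrt (∑ k, S⁻¹ 0 k * S⁻¹ 0 k) with hνdef
  have hν0 : 0 < ν := Real.sqrt_pos.2 hν
  have hν2 : ∑ k, S⁻¹ 0 k * S⁻¹ 0 k = ν * ν := (Real.mul_self_sqrt hν.le).symm
  set d : Fin n → ℝ := fun j => Real.sqrt (∑ k, S k j.succ * S k j.succ) with hddef
  have hd0 : ∀ j, 0 < d j := fun j => Real.sqrt_pos.2 (hc j)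
  have hd2 : ∀ j, ∑ k, S k j.succ * S k j.succ = d j * d j :=
    fun j => (Real.mul_self_sqrt (hc j).le).symm
  obtain ⟨O, hO0, hOs⟩ : ∃ O : Mat n, (∀ k, O 0 k = ν⁻¹ * S⁻¹ 0 k) ∧
      ∀ (j : Fin n) k, O j.succ k = (d j)⁻¹ * S k j.succ :=
    ⟨Matrix.of fun i k => Fin.cases (motive := fun _ => ℝ) (ν⁻¹ * S⁻¹ 0 k)
      (fun j => (d j)⁻¹ * S k j.succ) i, fun _ => rfl, fun _ _ => rfl⟩
  have h0 : ∀ k, (O * S) 0 k = ν⁻¹ * (1 : Mat n) 0 k := by
    intro k
    rw [mul_apply, ← hνS, Finset.mul_sum]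
    exact Finset.sum_congr rfl fun i _ => by rw [hO0, mul_assoc]
  have hs : ∀ (i : Fin n) k, (O * S) i.succ k = (d i)⁻¹ * ∑ l, S l i.succ * S l k := by
    intro i k
    rw [mul_apply, Finset.mul_sum]
    exact Finset.sum_congr rfl fun l _ => by rw [hOs, mul_assoc]
  have h0s : ∀ j : Fin n, (O * S) 0 j.succ = 0 := by
    intro j
    rw [h0, one_apply_ne (Fin.succ_ne_zero j).symm, mul_zero]
  have hss : ∀ i j : Fin n, i ≠ j → (O * S) i.succ j.succ = 0 := by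
    intro i j hij
    rw [hs, hd' i j hij, mul_zero]
  have hjj : ∀ j : Fin n, (O * S) j.succ j.succ = d j := by
    intro j
    rw [hs, hd2, ← mul_assoc, inv_mul_cancel₀ (hd0 j).ne', one_mul]
  have hcol : ∀ i (j : Fin n), (O * Oᵀ) i j.succ = (d j)⁻¹ * (O * S) i j.succ := by
    intro i j
    rw [mul_apply, mul_apply, Finset.mul_sum]
    exact Finset.sum_congr rfl fun l _ => by rw [transpose_apply, hOs]; ring
  refine ⟨O, mul_eq_one_comm.1 ?_, ?_, h0s, hss, fun j => by rw [hjj]; exact hd0 j⟩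
  · ext i j
    refine Fin.cases ?_ (fun j => ?_) j
    · refine Fin.cases ?_ (fun i => ?_) i
      · have : (O * Oᵀ) 0 0 = ν⁻¹ * ν⁻¹ * ∑ k, S⁻¹ 0 k * S⁻¹ 0 k := by
          rw [mul_apply, Finset.mul_sum]
          exact Finset.sum_congr rfl fun l _ => by rw [transpose_apply, hO0]; ring
        rw [this, hν2, one_apply_eq]
        field_simp
      · have : (O * Oᵀ) i.succ 0 = (O * Oᵀ) 0 i.succ := by
          rw [mul_apply, mul_apply]
          exact Finset.sum_congr rfl fun l _ => by rw [transpose_apply, transpose_apply, mul_comm]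
        rw [this, hcol, h0s, mul_zero, one_apply_ne (Fin.succ_ne_zero i)]
    · rw [hcol]
      refine Fin.cases ?_ (fun i => ?_) i
      · rw [h0s, mul_zero, one_apply_ne (Fin.succ_ne_zero j).symm]
      · by_cases hij : i = j
        · subst hij
          rw [hjj, inv_mul_cancel₀ (hd0 i).ne', one_apply_eq]
        · rw [hss i j hij, mul_zero, one_apply_ne (fun h => hij (Fin.succ_inj.1 h))]
  · rw [h0, one_apply_eq, mul_one]; exact inv_pos.2 hν0

theorem exists_tri {S T : Mat n} {s : ℝ} (hS : S.det ≠ 0) (hU : Unit1 S T s) :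
    ∃ S₁ T₁ : Mat n, Tri S₁ ∧ Unit1 S₁ T₁ s ∧ Jst S₁ T₁ s = Jst S T s ∧ inv S₁ T₁ = inv S T := by
  obtain ⟨U, hU1, hU2⟩ := nor_diag S
  have hdet : (S * nor_blk U).det ≠ 0 := by
    rw [det_mul]
    refine mul_ne_zero hS fun h => ?_
    have := nor_det_sq (nor_blk_orth hU1)
    rw [h, mul_zero] at this
    exact zero_ne_one this
  obtain ⟨O, hO, hT⟩ := nor_rot hdet (by rw [nor_rest_blk]; exact hU2)
  rw [← Matrix.mul_assoc] at hT
  exact ⟨_, _, hT, nor_unit hO hU1 hU, nor_Jst s hO hU1, nor_inv hO hU1⟩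

theorem nor_det_tri {S : Mat n} (hS : Tri S) : S.det = S 0 0 * ∏ j : Fin n, S j.succ j.succ := by
  rw [det_succ_row_zero, Fin.sum_univ_succ]
  have h1 : S.submatrix Fin.succ (Fin.succAbove 0) = diagonal fun j : Fin n => S j.succ j.succ := by
    ext i j
    by_cases hij : i = j
    · subst hij; simp
    · rw [diagonal_apply_ne _ hij]
      simpa using hS.off i j hij
  rw [h1, det_diagonal]
  simp [hS.row]

theorem nor_adj_ez {S : Mat n} (hS : Tri S) (s : ℝ) :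
    S.adjugateᵀ *ᵥ ez n s = ez n (s * ∏ j : Fin n, S j.succ j.succ) := by
  have h : ∀ k, S 0 0 * S.adjugate 0 k = S.det * (1 : Mat n) 0 k := by
    intro k
    have := congrFun (congrFun (mul_adjugate S) 0) k
    rw [mul_apply, Fin.sum_univ_succ] at this
    simpa [hS.row] using this
  unfold ez
  rw [mulVec_single]
  ext i
  refine Fin.cases ?_ (fun i => ?_) i
  · have hi := h 0
    rw [nor_det_tri hS, one_apply_eq, mul_one] at hi
    have := mul_left_cancel₀ hS.pos0.ne' hi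
    simp [this, mul_comm]
  · have hi := h i.succ
    rw [one_apply_ne (Fin.succ_ne_zero i).symm, mul_zero] at hi
    have := (mul_eq_zero.1 hi).resolve_left hS.pos0.ne'
    simp [this]

theorem nor_norm_sq (Y : E n) : ‖Y‖ ^ 2 = Y 0 ^ 2 + eta Y ⬝ᵥ eta Y := by
  rw [EuclideanSpace.real_norm_sq_eq, Fin.sum_univ_succ]
  simp only [dotProduct, eta, sq]

theorem Jst_tri (hn : 1 ≤ n) {S : Mat n} (hS : Tri S) (T : Mat n) (s : ℝ) :
    Jst S T s = gauss fun Y : E n => |Y 0| ^ n *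
      Real.sqrt (Qquart S.det (s * ∏ j : Fin n, S j.succ j.succ) (S.adjugateᵀ * Tᵀ) Y) := by
  have hdet : S.det ≠ 0 := by
    rw [nor_det_tri hS]
    exact mul_ne_zero hS.pos0.ne' (Finset.prod_ne_zero_iff.2 fun j _ => (hS.pos j).ne')
  unfold Jst
  congr 1
  funext Y
  set ζ := Tᵀ *ᵥ eta Y - Y 0 • ez n s with hζ
  set u := S.adjugateᵀ *ᵥ ζ with hu
  have hu' : (S.adjugateᵀ * Tᵀ) *ᵥ eta Y - Y 0 • ez n (s * ∏ j : Fin n, S j.succ j.succ) = u := by
    rw [hu, hζ, mulVec_sub, mulVec_smul, nor_adj_ez hS, mulVec_mulVec]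
  have hw : ζ = Sᵀ *ᵥ (S.det⁻¹ • u) := by
    rw [mulVec_smul, hu, mulVec_mulVec, ← transpose_mul, adjugate_mul, transpose_smul,
      transpose_one, smul_mulVec, one_mulVec, smul_smul, inv_mul_cancel₀ hdet, one_smul]
  have hM : Y 0 ^ 2 • (Sᵀ * S) + vecMulVec (Sᵀ *ᵥ eta Y) (Sᵀ *ᵥ eta Y) + vecMulVec ζ ζ
      = Sᵀ * (Y 0 ^ 2 • (1 : Mat n) + vecMulVec (eta Y) (eta Y)
        + vecMulVec (S.det⁻¹ • u) (S.det⁻¹ • u)) * S := by
    rw [Matrix.mul_add, Matrix.mul_add, Matrix.add_mul, Matrix.add_mul, ← nor_vmv, ← nor_vmv,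
      ← hw, Matrix.mul_smul, Matrix.mul_one, Matrix.smul_mul]
  obtain ⟨m, rfl⟩ := Nat.exists_eq_add_of_le' hn
  have hD : (Y 0 ^ 2 • (Sᵀ * S) + vecMulVec (Sᵀ *ᵥ eta Y) (Sᵀ *ᵥ eta Y) + vecMulVec ζ ζ).det
      = (|Y 0| ^ m) ^ 2 *
        Qquart S.det (s * ∏ j : Fin (m + 1), S j.succ j.succ) (S.adjugateᵀ * Tᵀ) Y := by
    rw [hM, det_mul, det_mul, det_transpose, det_rank_two (by omega)]
    unfold Qquart
    have e : m + 1 + 1 - 2 = m := rfl
    have e2 : (|Y 0| ^ m) ^ 2 = (Y 0 ^ 2) ^ m := by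
      rw [← pow_mul, mul_comm m 2, pow_mul, sq_abs]
    rw [hu', nor_norm_sq, e, e2]
    simp only [smul_dotProduct, dotProduct_smul, smul_eq_mul]
    field_simp
  rw [hD, Real.sqrt_mul (sq_nonneg _), Real.sqrt_sq (by positivity)]
  ring

end Pool.Agent.Ped
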