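import Pool.Agent.P.MP_e09f5c_gt.Polar
import Pool.Agent.P.MP_e09f5c_gt.Avg4
import Pool.Agent.P.MP_e09f5c_gt.Normal
import Pool.Agent.P.MP_e09f5c_gt.Master

/-! Integration of the master inequality over the angle. -/

open MeasureTheory Metric Set Matrix
open scoped InnerProductSpace ENNReal

namespace Pool.Agent.Ped

variable {n : ℕ}

theorem Model_symm (hn : 1 ≤ n) {F : Fr} (hF : F.Ok) (m : Mo) (C : Ch) (A : Aux) {co si : ℝ}
    (h : co ^ 2 + si ^ 2 = 1) :
    Model n F m C A co si + Model n F m C A co (-si) = 2 * ModelE n F m C A co si := by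
  have hg := (hF.gb_pos h).ne'
  have hc : co ^ 2 = 1 - si ^ 2 := by linarith
  have e1 : F.gb co (-si) = F.gb co si := by unfold Fr.gb; ring
  have e2 : F.ka co (-si) = -F.ka co si := by unfold Fr.ka; rw [e1]; ring
  have e3 : si + F.ka co si * co = F.q * si / F.gb co si := by
    unfold Fr.ka; field_simp; unfold Fr.gb; linear_combination (F.q * si) * h
  have e4 : co - F.ka co si * si = (1 - F.q) * co / F.gb co si := by
    unfold Fr.ka; field_simp; unfold Fr.gb; linear_combination ((1 - F.q) * co) * h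
  have e5 : ((1 - F.q) ^ 2 * co ^ 2 * F.q1 + F.q ^ 2 * si ^ 2 * F.X2) / F.gb co si ^ 2
      = F.q1 * (co - F.ka co si * si) ^ 2 + F.X2 * (si + F.ka co si * co) ^ 2 := by
    rw [e3, e4]; field_simp
  unfold Model ModelE
  rw [mul_div_assoc C.Ca, e5, e1, e2]
  unfold Fr.g1 Fr.P1 Fr.h1
  ring

/-- The derivative of the determinant along a curve of matrices. -/
theorem hasDerivAt_det {k : ℕ} {S : ℝ → Matrix (Fin k) (Fin k) ℝ} {T : Matrix (Fin k) (Fin k) ℝ}
    {t : ℝ} (h : ∀ i j, HasDerivAt (fun u => S u i j) (T i j) t) :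
    HasDerivAt (fun u => (S u).det) ((S t).adjugate * T).trace t := by
  have h1 : HasDerivAt (fun u => ∑ σ : Equiv.Perm (Fin k),
      ((Equiv.Perm.sign σ : ℤ) : ℝ) * ∏ i, S u (σ i) i) (∑ σ : Equiv.Perm (Fin k),
      ((Equiv.Perm.sign σ : ℤ) : ℝ) * ∑ i, (∏ j ∈ Finset.univ.erase i, S t (σ j) j) • T (σ i) i)
      t :=
    HasDerivAt.fun_sum fun σ _ => (HasDerivAt.fun_finsetProd fun i _ => h (σ i) i).const_mul _
  simp only [det_apply']
  refine h1.congr_deriv ?_
  simp only [Finset.mul_sum]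
  rw [Finset.sum_comm, trace]
  refine Finset.sum_congr rfl fun i _ => ?_
  have : ((S t).adjugate * T).diag i = cramer (S t) (fun j => T j i) i := by
    rw [cramer_eq_adjugate_mulVec]; rfl
  rw [this, cramer_apply, det_apply']
  refine Finset.sum_congr rfl fun σ _ => ?_
  rw [← Finset.prod_erase_mul _ _ (Finset.mem_univ i), updateCol_self, smul_eq_mul]
  congr 2
  exact Finset.prod_congr rfl fun j hj => (updateCol_ne (Finset.ne_of_mem_erase hj)).symm

/-- The invariants along the rotation. -/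
theorem inv_rot {X V : Mat n} {F : Fr} (hn : 1 ≤ n) (h : NF X V F) {co si : ℝ}
    (h1 : co ^ 2 + si ^ 2 = 1) :
    Unit1 (co • X + si • V) (-si • X + co • V) F.s ∧
    (inv (co • X + si • V) (-si • X + co • V)).g1 = F.g1 co si ∧
    (inv (co • X + si • V) (-si • X + co • V)).P1 = F.P1 co si ∧
    (inv (co • X + si • V) (-si • X + co • V)).h1 = F.h1 co si ∧
    (inv (co • X + si • V) (-si • X + co • V)).trG = n * F.gb co si ∧
    (inv (co • X + si • V) (-si • X + co • V)).trH = n * (F.ka co si * F.gb co si) := by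
  have hg := (h.ok.gb_pos h1).ne'
  have hn' : (n : ℝ) ≠ 0 := by positivity
  have hXV : ∑ i, ∑ j : Fin n, X i j.succ ^ 2 = n * (1 - F.q) := by
    have h2 : ∀ j : Fin n, ∑ i, X i j.succ ^ 2 + ∑ i, V i j.succ ^ 2 = 1 := fun j => by
      have := congrFun₂ h.unit j.succ j.succ
      simpa [Matrix.mul_apply, ez, vecMulVec_apply, sq] using this
    have h3 := Finset.sum_congr (s₁ := Finset.univ) rfl fun j _ => h2 j
    have h4 := h.hq
    rw [Finset.sum_add_distrib, Finset.sum_comm, Finset.sum_comm (f := fun j : Fin n =>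
      fun i => V i j.succ ^ 2), h4] at h3
    simp at h3
    linarith
  have e1 : ∀ x v : ℝ, (co * x + si * v) ^ 2
      = co ^ 2 * x ^ 2 + si ^ 2 * v ^ 2 + 2 * (si * co) * (x * v) := fun x v => by ring
  have e2 : ∀ x v : ℝ, (-si * x + co * v) ^ 2
      = si ^ 2 * x ^ 2 + co ^ 2 * v ^ 2 - 2 * (si * co) * (x * v) := fun x v => by ring
  have e3 : ∀ x v : ℝ, (co * x + si * v) * (-si * x + co * v)
      = si * co * v ^ 2 - si * co * x ^ 2 + (co ^ 2 - si ^ 2) * (x * v) := fun x v => by ring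
  refine ⟨?_, ?_, ?_, ?_, ?_, ?_⟩
  · rw [Unit1, ← h.unit]
    congr 1
    have : Xᵀ * X + Vᵀ * V = (co ^ 2 + si ^ 2) • (Xᵀ * X + Vᵀ * V) := by rw [h1, one_smul]
    rw [this]
    simp only [transpose_add, transpose_smul, Matrix.add_mul, Matrix.mul_add, Matrix.smul_mul,
      Matrix.mul_smul]
    module
  all_goals
    simp only [inv, Matrix.add_apply, Matrix.smul_apply, smul_eq_mul, e1, e2, e3,
      Finset.sum_add_distrib, Finset.sum_sub_distrib, ← Finset.mul_sum, h.hX, h.hV, h.hγ, h.hq,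
      h.axis, hXV, Fr.g1, Fr.P1, Fr.h1]
  · ring
  · ring
  · ring
  · unfold Fr.gb; ring
  · unfold Fr.ka; field_simp; ring

section asm
open Real

variable (F : Fr)

lemma asm_gb (hF : F.Ok) (θ : ℝ) : 0 < F.gb (cos θ) (sin θ) := hF.gb_pos (cos_sq_add_sin_sq θ)

lemma asm_dgb (hF : F.Ok) (θ : ℝ) : HasDerivAt (fun θ => F.gb (cos θ) (sin θ))
    (2 * F.ka (cos θ) (sin θ) * F.gb (cos θ) (sin θ)) θ := by
  have hg := (asm_gb F hF θ).ne'
  refine ((((hasDerivAt_cos θ).fun_pow 2).const_mul (1 - F.q)).fun_add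
    (((hasDerivAt_sin θ).fun_pow 2).const_mul F.q)).congr_deriv ?_
  unfold Fr.ka; field_simp; ring

lemma asm_dka (hF : F.Ok) (θ : ℝ) : HasDerivAt (fun θ => F.ka (cos θ) (sin θ))
    (F.dl / F.gb (cos θ) (sin θ) ^ 2 - 1 - F.ka (cos θ) (sin θ) ^ 2) θ := by
  have hg := (asm_gb F hF θ).ne'
  refine ((((hasDerivAt_sin θ).fun_mul (hasDerivAt_cos θ)).const_mul (2 * F.q - 1)).fun_div
    (asm_dgb F hF θ) hg).congr_deriv ?_
  have h := cos_sq_add_sin_sq θ
  have hc : cos θ ^ 2 = 1 - sin θ ^ 2 := by linarith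
  unfold Fr.ka Fr.dl; field_simp
  unfold Fr.gb
  rw [hc]
  ring

lemma asm_dg1 (θ : ℝ) : HasDerivAt (fun θ => F.g1 (cos θ) (sin θ))
    (2 * F.h1 (cos θ) (sin θ)) θ := by
  refine (((((hasDerivAt_cos θ).fun_pow 2).const_mul F.X2).fun_add
    (((hasDerivAt_sin θ).fun_pow 2).const_mul F.q1)).fun_add
    ((((hasDerivAt_sin θ).fun_mul (hasDerivAt_cos θ)).const_mul 2).mul_const F.γ)).congr_deriv ?_
  unfold Fr.h1; ring

lemma asm_dP1 (θ : ℝ) : HasDerivAt (fun θ => F.P1 (cos θ) (sin θ))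
    (-(2 * F.h1 (cos θ) (sin θ))) θ := by
  refine (((((hasDerivAt_sin θ).fun_pow 2).const_mul F.X2).fun_add
    (((hasDerivAt_cos θ).fun_pow 2).const_mul F.q1)).fun_sub
    ((((hasDerivAt_sin θ).fun_mul (hasDerivAt_cos θ)).const_mul 2).mul_const F.γ)).congr_deriv ?_
  unfold Fr.h1; ring

lemma asm_dt (hF : F.Ok) (n : ℕ) (θ : ℝ) : HasDerivAt (fun θ => √(F.gb (cos θ) (sin θ)) ^ n)
    (n * F.ka (cos θ) (sin θ) * √(F.gb (cos θ) (sin θ)) ^ n) θ := by
  have hg := asm_gb F hF θ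
  refine (((asm_dgb F hF θ).sqrt hg.ne').fun_pow n).congr_deriv ?_
  have h1 := sqrt_pos.2 hg
  have h2 := sq_sqrt hg.le
  generalize √(F.gb (cos θ) (sin θ)) = r at *
  rw [← h2]
  rcases n with _ | n
  · simp
  · rw [Nat.add_sub_cancel]; field_simp; ring

lemma asm_dpow (hF : F.Ok) (n : ℕ) (θ : ℝ) : HasDerivAt (fun θ => F.gb (cos θ) (sin θ) ^ n)
    (2 * n * F.ka (cos θ) (sin θ) * F.gb (cos θ) (sin θ) ^ n) θ := by
  refine ((asm_dgb F hF θ).fun_pow n).congr_deriv ?_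
  rcases n with _ | n
  · simp
  · rw [Nat.add_sub_cancel]; ring

variable (X V : Mat n)

lemma asm_dS (θ : ℝ) (i j : Fin (n + 1)) :
    HasDerivAt (fun θ => (cos θ • X + sin θ • V) i j) ((-sin θ • X + cos θ • V) i j) θ :=
  ((hasDerivAt_cos θ).mul_const (X i j)).fun_add ((hasDerivAt_sin θ).mul_const (V i j))

lemma asm_da2 (θ : ℝ) :
    HasDerivAt (fun θ => (inv (cos θ • X + sin θ • V) (-sin θ • X + cos θ • V)).a2)
      (inv (cos θ • X + sin θ • V) (-sin θ • X + cos θ • V)).da2 θ := by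
  refine ((hasDerivAt_det (asm_dS X V θ)).fun_pow 2).congr_deriv ?_
  simp [inv]

lemma asm_dD2 (θ : ℝ) :
    HasDerivAt (fun θ => (inv (cos θ • X + sin θ • V) (-sin θ • X + cos θ • V)).D2)
      (inv (cos θ • X + sin θ • V) (-sin θ • X + cos θ • V)).dD2 θ := by
  set S := fun θ => cos θ • X + sin θ • V
  set T := -sin θ • X + cos θ • V
  have h : ∀ i j, HasDerivAt (fun θ => ((rest (S θ))ᵀ * rest (S θ)) i j)
      (((rest T)ᵀ * rest (S θ) + (rest (S θ))ᵀ * rest T) i j) θ := fun i j => by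
    simp only [Matrix.mul_apply, Matrix.add_apply, ← Finset.sum_add_distrib]
    exact HasDerivAt.fun_sum fun k _ => (asm_dS X V θ k i.succ).fun_mul (asm_dS X V θ k j.succ)
  refine (hasDerivAt_det h).congr_deriv ?_
  change _ = 2 * (((rest (S θ))ᵀ * rest (S θ)).adjugate * ((rest (S θ))ᵀ * rest T)).trace
  rw [Matrix.mul_add, trace_add, two_mul, ← trace_transpose, transpose_mul, adjugate_transpose,
    transpose_mul, transpose_mul, transpose_transpose, transpose_transpose, trace_mul_comm]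

end asm

/-- The total derivative term has mean zero. -/
theorem integral_Ups {X V : Mat n} {F : Fr} (hF : F.Ok) {Ca Cz ph pz : ℝ → ℝ} (fb kk : ℝ)
    (hCa : ∀ z, HasDerivAt Ca (Cz z) z) (hCz : Continuous Cz)
    (hph : ∀ z, HasDerivAt ph (pz z) z) (hpz : Continuous pz) :
    (Continuous fun θ : ℝ => Ups n F ⟨Ca (Real.sin θ ^ 2), Cz (Real.sin θ ^ 2), fb, kk,
        ph (Real.sin θ ^ 2), pz (Real.sin θ ^ 2)⟩ (Real.cos θ) (Real.sin θ)
        (inv (Real.cos θ • X + Real.sin θ • V) (-Real.sin θ • X + Real.cos θ • V))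
          / Real.sqrt (F.gb (Real.cos θ) (Real.sin θ)) ^ n) ∧
    ∫ θ in (-Real.pi)..Real.pi, Ups n F ⟨Ca (Real.sin θ ^ 2), Cz (Real.sin θ ^ 2), fb, kk,
        ph (Real.sin θ ^ 2), pz (Real.sin θ ^ 2)⟩ (Real.cos θ) (Real.sin θ)
        (inv (Real.cos θ • X + Real.sin θ • V) (-Real.sin θ • X + Real.cos θ • V))
          / Real.sqrt (F.gb (Real.cos θ) (Real.sin θ)) ^ n = 0 := by
  have hCa' : Continuous Ca := continuous_iff_continuousAt.2 fun z => (hCa z).continuousAt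
  have hph' : Continuous ph := continuous_iff_continuousAt.2 fun z => (hph z).continuousAt
  have c1 := continuous_iff_continuousAt.2 fun θ => (asm_dgb F hF θ).continuousAt
  have c2 := continuous_iff_continuousAt.2 fun θ => (asm_dka F hF θ).continuousAt
  have c3 := continuous_iff_continuousAt.2 fun θ => (asm_dg1 F θ).continuousAt
  have c4 := continuous_iff_continuousAt.2 fun θ => (asm_dP1 F θ).continuousAt
  have c5 : Continuous fun θ => F.h1 (Real.cos θ) (Real.sin θ) := by unfold Fr.h1; fun_prop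
  have c6 := continuous_iff_continuousAt.2 fun θ => (asm_da2 X V θ).continuousAt
  have c7 := continuous_iff_continuousAt.2 fun θ => (asm_dD2 X V θ).continuousAt
  have cS : Continuous fun θ => Real.cos θ • X + Real.sin θ • V := by fun_prop
  have cT : Continuous fun θ => -Real.sin θ • X + Real.cos θ • V := by fun_prop
  have cR := cS.matrix_submatrix id Fin.succ
  have c8 : Continuous fun θ =>
      (inv (Real.cos θ • X + Real.sin θ • V) (-Real.sin θ • X + Real.cos θ • V)).da2 :=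
    (continuous_const.mul cS.matrix_det).mul (cS.matrix_adjugate.matrix_mul cT).matrix_trace
  have c9 : Continuous fun θ =>
      (inv (Real.cos θ • X + Real.sin θ • V) (-Real.sin θ • X + Real.cos θ • V)).dD2 :=
    continuous_const.mul ((cR.matrix_transpose.matrix_mul cR).matrix_adjugate.matrix_mul
      (cR.matrix_transpose.matrix_mul (cT.matrix_submatrix id Fin.succ))).matrix_trace
  have c10 : Continuous fun θ => F.dl / F.gb (Real.cos θ) (Real.sin θ) ^ 2 :=
    continuous_const.div (c1.pow 2) fun θ => pow_ne_zero _ (asm_gb F hF θ).ne'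
  have ht : ∀ θ, Real.sqrt (F.gb (Real.cos θ) (Real.sin θ)) ^ n ≠ 0 := fun θ =>
    pow_ne_zero _ (Real.sqrt_pos.2 (asm_gb F hF θ)).ne'
  refine (and_iff_left_of_imp fun hc => ?_).2 ?_
  swap
  · refine Continuous.div ?_ (c1.sqrt.pow n) ht
    simp only [Ups, du1, du2, u1, u2]
    fun_prop
  have hs : ∀ θ, HasDerivAt (fun θ => Real.sin θ ^ 2) (2 * (Real.sin θ * Real.cos θ)) θ :=
    fun θ => ((Real.hasDerivAt_sin θ).fun_pow 2).congr_deriv (by ring)
  rw [intervalIntegral.integral_eq_sub_of_hasDerivAt (f := fun θ =>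
    ((-F.ka (Real.cos θ) (Real.sin θ) * Ca (Real.sin θ ^ 2)) *
      ((inv (Real.cos θ • X + Real.sin θ • V) (-Real.sin θ • X + Real.cos θ • V)).a2
        - F.g1 (Real.cos θ) (Real.sin θ) * F.gb (Real.cos θ) (Real.sin θ) ^ n) +
      (-F.ka (Real.cos θ) (Real.sin θ) * (fb * F.g1 (Real.cos θ) (Real.sin θ)
        + kk * F.gb (Real.cos θ) (Real.sin θ) * Real.sin θ ^ 2 * F.X2)
        + Real.sin θ * Real.cos θ * ph (Real.sin θ ^ 2) * F.P1 (Real.cos θ) (Real.sin θ)) *
      ((inv (Real.cos θ • X + Real.sin θ • V) (-Real.sin θ • X + Real.cos θ • V)).D2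
        - F.gb (Real.cos θ) (Real.sin θ) ^ n)) / Real.sqrt (F.gb (Real.cos θ) (Real.sin θ)) ^ n)
    (fun θ _ => ?_) (hc.intervalIntegrable _ _)]
  · simp
  have k1 := (asm_dka F hF θ).fun_neg
  have k2 := k1.fun_mul ((hCa _).comp θ (hs θ))
  have k3 := (asm_da2 X V θ).fun_sub ((asm_dg1 F θ).fun_mul (asm_dpow F hF n θ))
  have k4 := k1.fun_mul (((asm_dg1 F θ).const_mul fb).fun_add
    ((((asm_dgb F hF θ).const_mul kk).fun_mul (hs θ)).mul_const F.X2))
  have k5 := (((Real.hasDerivAt_sin θ).fun_mul (Real.hasDerivAt_cos θ)).fun_mul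
    ((hph _).comp θ (hs θ))).fun_mul (asm_dP1 F θ)
  have k6 := (asm_dD2 X V θ).fun_sub (asm_dpow F hF n θ)
  refine (((k2.fun_mul k3).fun_add ((k4.fun_add k5).fun_mul k6)).fun_div (asm_dt F hF n θ)
    (ht θ)).congr_deriv ?_
  have hk : F.ka (Real.cos θ) (Real.sin θ) * F.gb (Real.cos θ) (Real.sin θ)
      = (2 * F.q - 1) * (Real.sin θ * Real.cos θ) := by
    have := (asm_gb F hF θ).ne'
    unfold Fr.ka; field_simp
  rw [mul_assoc 2 (F.ka _ _) (F.gb _ _), hk, div_eq_div_iff (pow_ne_zero _ (ht θ)) (ht θ)]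
  simp only [Ups, du1, du2, u1, u2, Function.comp]
  ring

/-- The mean of the main term. -/
noncomputable def PhiI (n : ℕ) (F : Fr) (a b : ℝ) : ℝ :=
  ∫ θ in (-Real.pi)..Real.pi,
    Real.sqrt (F.gb (Real.cos θ) (Real.sin θ)) ^ n * nphi n (a * |Real.sin θ|) b

lemma asm_Qf (n : ℕ) (a b ε a₀ m₀ : ℝ) (M : Mat n) :
    Qf (mo n a b) ε a₀ m₀ M = U0 n * Qf (nmo n a b) ε a₀ m₀ M := by
  have := (U0_pos n).ne'
  simp only [Qf, nmo]
  field_simp

lemma asm_slice (hn : 2 ≤ n) {X V : Mat n} {F : Fr} (h : NF X V F) {a b lam co si : ℝ}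
    (hab : a ^ 2 + b ^ 2 ≤ 1) (hlam : 0 < lam) (h1 : co ^ 2 + si ^ 2 = 1)
    (hd : (co • X + si • V).det ≠ 0) {C : Ch} {A : Aux} (hC : Cond n F (nmo n a b) C A co si) :
    ∃ r, 0 ≤ r ∧ Jst (co • X + si • V) (-si • X + co • V) F.s ≤ ENNReal.ofReal r ∧
      r ≤ U0 n * (lam * (√(F.gb co si) ^ n * nphi n a b) +
        (√(F.gb co si) ^ n * Model n F (nmo n a b) C A co si +
          Ups n F C co si (inv (co • X + si • V) (-si • X + co • V)) / √(F.gb co si) ^ n) / lam)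
        / 2 := by
  obtain ⟨hU, i1, i2, i3, i4, i5⟩ := inv_rot (by omega) h h1
  obtain ⟨S, T, hS, hU', hJ, hI⟩ := exists_tri hd hU
  rw [← hI] at i1 i2 i3 i4 i5
  obtain ⟨ε, hε, hm⟩ := master hn hS hU' h.ok h1 i1 i2 i3 i4 i5 hC
  have hg := h.ok.gb_pos h1
  have ht : 0 < √(F.gb co si) ^ n := pow_pos (Real.sqrt_pos.2 hg) n
  have ht2 : F.gb co si ^ n = (√(F.gb co si) ^ n) ^ 2 := by
    rw [← pow_mul, mul_comm, pow_mul, Real.sq_sqrt hg.le]
  obtain ⟨q0, q1⟩ := avg4 hn hε hab (mul_pos hlam ht) S.det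
    (F.s * ∏ j : Fin n, S j.succ j.succ) (S.adjugateᵀ * Tᵀ)
  have hp := phi_nonneg n a b
  have hU0 := U0_pos n
  rw [← Jst_tri (by omega) hS, hJ] at q1
  refine ⟨_, ?_, q1, ?_⟩
  · positivity
  rw [asm_Qf, ← hI, nphi]
  rw [ht2] at hm
  generalize √(F.gb co si) ^ n = t at *
  refine le_of_le_of_eq (b := (lam * t * phi n a b + U0 n * (t ^ 2 *
    Model n F (nmo n a b) C A co si + Ups n F C co si (inv S T)) / (lam * t)) / 2) ?_ ?_
  · gcongr
  · field_simp

lemma asm_scalar {U lam t ph M1 M2 ME u1 u2 rho Bd : ℝ} (hU : 0 < U) (hlam : 0 < lam)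
    (hs : M1 + M2 = 2 * ME) (k : t * (ME - rho * ph) ≤ Bd) :
    U * (lam * (t * ph) + (t * M1 + u1) / lam) / 2 + U * (lam * (t * ph) + (t * M2 + u2) / lam) / 2
      ≤ U * (lam * (t * ph) + (rho * (t * ph) + Bd + (u1 + u2) / 2) / lam) := by
  refine le_of_eq_of_le (b := U * (lam * (t * ph) +
    (rho * (t * ph) + t * (ME - rho * ph) + (u1 + u2) / 2) / lam)) ?_ ?_
  · rw [eq_sub_of_add_eq' hs]; ring
  · gcongr

theorem assemble (hn : 2 ≤ n) {X V : Mat n} {F : Fr} (h : NF X V F) {a b lam rho : ℝ}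
    (hab : a ^ 2 + b ^ 2 ≤ 1) (hlam : 0 < lam) {Ca Cz ph pz : ℝ → ℝ} (fb kk : ℝ)
    (hCa : ∀ z, HasDerivAt Ca (Cz z) z) (hCz : Continuous Cz)
    (hph : ∀ z, HasDerivAt ph (pz z) z) (hpz : Continuous pz)
    {Bd : ℝ → ℝ} (hBd : IntervalIntegrable Bd volume (-Real.pi) Real.pi)
    (hθ : ∀ θ : ℝ, ∃ A : Aux,
      Cond n F (nmo n (a * |Real.sin θ|) b) ⟨Ca (Real.sin θ ^ 2), Cz (Real.sin θ ^ 2), fb, kk,
        ph (Real.sin θ ^ 2), pz (Real.sin θ ^ 2)⟩ A (Real.cos θ) (Real.sin θ) ∧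
      Cond n F (nmo n (a * |Real.sin θ|) b) ⟨Ca (Real.sin θ ^ 2), Cz (Real.sin θ ^ 2), fb, kk,
        ph (Real.sin θ ^ 2), pz (Real.sin θ ^ 2)⟩ A (Real.cos θ) (-Real.sin θ) ∧
      Real.sqrt (F.gb (Real.cos θ) (Real.sin θ)) ^ n *
        (ModelE n F (nmo n (a * |Real.sin θ|) b) ⟨Ca (Real.sin θ ^ 2), Cz (Real.sin θ ^ 2), fb, kk,
          ph (Real.sin θ ^ 2), pz (Real.sin θ ^ 2)⟩ A (Real.cos θ) (Real.sin θ)
          - rho * nphi n (a * |Real.sin θ|) b) ≤ Bd θ)
    (hfin : lam * PhiI n F a b + (rho * PhiI n F a b + ∫ θ in (-Real.pi)..Real.pi, Bd θ) / lam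
      ≤ 4 * kh n) :
    gauss (crof X V (ez n F.s)) ≤ kap (n + 1) := by
  set J : ℝ → ℝ≥0∞ := fun θ =>
    Jst (Real.cos θ • X + Real.sin θ • V) (-Real.sin θ • X + Real.cos θ • V) F.s with hJ
  have hJm : Measurable J := measurable_Jst X V F.s
  obtain ⟨u1, u2⟩ := integral_Ups (X := X) (V := V) h.ok fb kk hCa hCz hph hpz
  set U : ℝ → ℝ := fun θ => Ups n F ⟨Ca (Real.sin θ ^ 2), Cz (Real.sin θ ^ 2), fb, kk,
    ph (Real.sin θ ^ 2), pz (Real.sin θ ^ 2)⟩ (Real.cos θ) (Real.sin θ)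
    (inv (Real.cos θ • X + Real.sin θ • V) (-Real.sin θ • X + Real.cos θ • V))
      / Real.sqrt (F.gb (Real.cos θ) (Real.sin θ)) ^ n with hU
  set P : ℝ → ℝ := fun θ =>
    Real.sqrt (F.gb (Real.cos θ) (Real.sin θ)) ^ n * nphi n (a * |Real.sin θ|) b with hP
  have hPc : Continuous P := by
    have c1 := continuous_iff_continuousAt.2 fun θ => (asm_dt F h.ok n θ).continuousAt
    exact c1.mul (((continuous_phi n).comp (f := fun θ => (a * |Real.sin θ|, b))
      (by fun_prop)).div_const _)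
  have hU0 := U0_pos n
  set G : ℝ → ℝ := fun θ =>
    U0 n * (lam * P θ + (rho * P θ + Bd θ + (U θ + U (-θ)) / 2) / lam) with hG
  have key : ∀ᵐ θ : ℝ, 0 ≤ G θ ∧ J θ + J (-θ) ≤ ENNReal.ofReal (G θ) := by
    filter_upwards [h.inv, (Measure.measurePreserving_neg volume).quasiMeasurePreserving.ae h.inv]
      with θ d1 d2
    rw [Real.cos_neg, Real.sin_neg] at d2
    obtain ⟨A, k1, k2, k3⟩ := hθ θ
    have h1 := Real.cos_sq_add_sin_sq θ
    have hab' : (a * |Real.sin θ|) ^ 2 + b ^ 2 ≤ 1 := by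
      rw [mul_pow, sq_abs]; nlinarith [sq_nonneg a, sq_nonneg (Real.cos θ)]
    obtain ⟨r1, p1, p2, p3⟩ := asm_slice hn h hab' hlam h1 d1 k1
    obtain ⟨r2, p4, p5, p6⟩ := asm_slice hn h hab' hlam (by rw [neg_sq]; exact h1) d2 k2
    have e1 : F.gb (Real.cos θ) (-Real.sin θ) = F.gb (Real.cos θ) (Real.sin θ) := by
      simp [Fr.gb]
    have hs := Model_symm (n := n) (by omega) h.ok (nmo n (a * |Real.sin θ|) b) ⟨Ca (Real.sin θ ^ 2),
      Cz (Real.sin θ ^ 2), fb, kk, ph (Real.sin θ ^ 2), pz (Real.sin θ ^ 2)⟩ A h1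
    have hr : r1 + r2 ≤ G θ := by
      refine (add_le_add p3 p6).trans ?_
      simp only [hG, hP, hU, Real.cos_neg, Real.sin_neg, neg_sq, e1]
      exact asm_scalar hU0 hlam hs k3
    refine ⟨(add_nonneg p1 p4).trans hr, ?_⟩
    simp only [hJ, Real.cos_neg, Real.sin_neg]
    exact (add_le_add p2 p5).trans (by
      rw [← ENNReal.ofReal_add p1 p4]; exact ENNReal.ofReal_le_ofReal hr)
  have hle : -Real.pi ≤ Real.pi := by linarith [Real.pi_pos]
  have i1 := hPc.intervalIntegrable (μ := volume) (-Real.pi) Real.pi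
  have i2 := u1.intervalIntegrable (μ := volume) (-Real.pi) Real.pi
  have i3 : IntervalIntegrable (fun θ => U (-θ)) volume (-Real.pi) Real.pi :=
    (u1.comp continuous_neg).intervalIntegrable _ _
  have i4 := (i2.add i3).div_const 2
  have i5 := (i1.const_mul rho).add hBd
  have hGi : IntervalIntegrable G volume (-Real.pi) Real.pi :=
    ((i1.const_mul lam).add ((i5.add i4).div_const lam)).const_mul _
  have hI : ∫ θ in (-Real.pi)..Real.pi, G θ ≤ 4 * (kap (n + 1)).toReal := by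
    have u3 : ∫ θ in (-Real.pi)..Real.pi, U (-θ) = 0 := by
      rw [intervalIntegral.integral_comp_neg, neg_neg, u2]
    rw [intervalIntegral.integral_const_mul, intervalIntegral.integral_add (i1.const_mul lam)
      ((i5.add i4).div_const lam), intervalIntegral.integral_div,
      intervalIntegral.integral_add i5 i4, intervalIntegral.integral_div,
      intervalIntegral.integral_add i2 i3, intervalIntegral.integral_add (i1.const_mul rho) hBd,
      intervalIntegral.integral_const_mul, intervalIntegral.integral_const_mul, u2, u3]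
    refine le_of_le_of_eq (mul_le_mul_of_nonneg_left (c := 4 * kh n) ?_ hU0.le) ?_
    · simpa only [add_zero, zero_div, PhiI] using hfin
    · unfold kh; field_simp
  have hneg : ∫⁻ θ in Ioc (-Real.pi) Real.pi, J (-θ) = ∫⁻ θ in Ioc (-Real.pi) Real.pi, J θ := by
    rw [← setLIntegral_congr (f := J) Ico_ae_eq_Ioc,
      ← (Measure.measurePreserving_neg volume).setLIntegral_comp_preimage_emb
        measurableEmbedding_neg J]
    congr 2
    ext x; simp [and_comm, neg_lt]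
  have h4 : 4 * gauss (crof X V (ez n F.s)) ≤ 4 * kap (n + 1) := by
    calc 4 * gauss (crof X V (ez n F.s))
        = ∫⁻ θ in Ioc (-Real.pi) Real.pi, (J θ + J (-θ)) := by
          rw [lintegral_add_left hJm, hneg, ← two_mul_gauss_crof]; ring
      _ ≤ ∫⁻ θ in Ioc (-Real.pi) Real.pi, ENNReal.ofReal (G θ) :=
          lintegral_mono_ae (ae_restrict_of_ae (key.mono fun _ h => h.2))
      _ = ENNReal.ofReal (∫ θ in (-Real.pi)..Real.pi, G θ) := by
          rw [intervalIntegral.integral_of_le hle, ofReal_integral_eq_lintegral_ofReal hGi.1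
            (ae_restrict_of_ae (key.mono fun _ h => h.1))]
      _ ≤ ENNReal.ofReal (4 * (kap (n + 1)).toReal) := ENNReal.ofReal_le_ofReal hI
      _ = _ := by
          rw [ENNReal.ofReal_mul (by norm_num), ENNReal.ofReal_toReal (kap_ne_top _)]; simp
  exact (ENNReal.mul_le_mul_iff_right (by norm_num) (by norm_num)).1 h4

end Pool.Agent.Ped
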