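import Pool.Agent.P.MP_e09f5c_gt.Defs

/-! Averages over the pencil of hyperplanes and radial integrals. -/

open MeasureTheory Metric Set Matrix Filter Topology
open scoped InnerProductSpace ENNReal

namespace Pool.Agent.Ped

variable {N : ℕ}

/-- The normalised integrand. -/
noncomputable def avgH (g₁ g₂ : E N) : ℝ≥0∞ :=
  if 0 < g₂ 0 then
    ENNReal.ofReal (|g₂ 0 * g₁ 1 - g₁ 0 * g₂ 1| / (g₁ 0 ^ 2 + g₂ 0 ^ 2)) else 0

theorem continuous_coord (i : Fin (N + 2)) : Continuous fun g : E N => (g i : ℝ) := by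
  fun_prop

theorem measurable_coord (i : Fin (N + 2)) : Measurable fun g : E N => (g i : ℝ) :=
  (continuous_coord i).measurable

theorem isOpen_ne_zero {f : E N → ℝ} (hf : Continuous f) : IsOpen {g : E N | f g ≠ 0} :=
  isOpen_ne_fun hf continuous_const

theorem measurable_avgH : Measurable fun p : E N × E N => avgH p.1 p.2 := by
  have h10 : Measurable fun p : E N × E N => p.1 0 := (measurable_coord 0).comp measurable_fst
  have h11 : Measurable fun p : E N × E N => p.1 1 := (measurable_coord 1).comp measurable_fst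
  have h20 : Measurable fun p : E N × E N => p.2 0 := (measurable_coord 0).comp measurable_snd
  have h21 : Measurable fun p : E N × E N => p.2 1 := (measurable_coord 1).comp measurable_snd
  unfold avgH
  refine Measurable.ite (measurableSet_lt measurable_const h20) ?_ measurable_const
  refine ENNReal.measurable_ofReal.comp ?_
  exact (((h20.mul h11).sub (h10.mul h21)).abs).div ((h10.pow_const 2).add (h20.pow_const 2))

theorem abs_coord_lt {g : E N} (hg : g ∈ ball (0 : E N) 1) (i : Fin (N + 2)) : |g i| < 1 := by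
  have h1 : ‖g i‖ ≤ ‖g‖ := PiLp.norm_apply_le g i
  rw [mem_ball_zero_iff] at hg
  simpa using h1.trans_lt hg

/-- The weight `|t|^(-1/2)` is integrable on `(-1, 1)`. -/
theorem integrableOn_weight :
    IntegrableOn (fun t : ℝ => |t| ^ (-(1 / 2) : ℝ)) (Ioo (-1) 1) := by
  have h1 : IntervalIntegrable (fun t : ℝ => t ^ (-(1 / 2) : ℝ)) volume 0 1 :=
    intervalIntegral.intervalIntegrable_rpow' (by norm_num)
  have h2 : IntervalIntegrable (fun t : ℝ => |t| ^ (-(1 / 2) : ℝ)) volume 0 1 := by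
    refine h1.congr ?_
    intro t ht
    rw [uIoc_of_le zero_le_one] at ht
    simp only [abs_of_pos ht.1]
  have h3 : IntervalIntegrable (fun t : ℝ => |t| ^ (-(1 / 2) : ℝ)) volume (-1) 0 := by
    have := h2.comp_mul_left (c := -1)
    simp only [neg_mul, one_mul, abs_neg, div_neg, div_one, neg_zero] at this
    exact this.symm
  have h4 := h3.trans h2
  rw [intervalIntegrable_iff_integrableOn_Ioo_of_le (by norm_num)] at h4
  exact h4

theorem lintegral_weight_ne_top :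
    ∫⁻ g in ball (0 : E N) 1, ENNReal.ofReal (|g 0| ^ (-(1 / 2) : ℝ)) ≠ ∞ := by
  let f : Fin (N + 2) → ℝ → ℝ := fun i =>
    if i = 0 then (Ioo (-1 : ℝ) 1).indicator (fun t : ℝ => |t| ^ (-(1 / 2) : ℝ))
    else (Ioo (-1 : ℝ) 1).indicator (fun _ => 1)
  have hf : ∀ i, Integrable (f i) := by
    intro i
    by_cases hi : i = 0
    · simp only [f, hi, if_true]
      exact (integrable_indicator_iff measurableSet_Ioo).2 integrableOn_weight
    · simp only [f, hi, if_false]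
      exact (integrable_indicator_iff measurableSet_Ioo).2 (integrableOn_const (by simp))
  have h1 : Integrable (fun x : Fin (N + 2) → ℝ => ∏ i, f i (x i)) :=
    Integrable.fintype_prod (μ := fun _ => volume) hf
  have h2 : Integrable (fun g : E N => ∏ i, f i (g i)) :=
    (PiLp.volume_preserving_ofLp (Fin (N + 2))).integrable_comp_of_integrable h1
  have h3 : IntegrableOn (fun g : E N => |g 0| ^ (-(1 / 2) : ℝ)) (ball 0 1) := by
    refine (h2.integrableOn (s := ball 0 1)).congr_fun ?_ measurableSet_ball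
    intro g hg
    have hm : ∀ i, g i ∈ Ioo (-1 : ℝ) 1 := fun i => abs_lt.1 (abs_coord_lt hg i)
    simp only
    rw [Fin.prod_univ_succ, Finset.prod_eq_one]
    · simp only [f, if_true, mul_one]
      rw [indicator_of_mem (hm 0)]
    · intro i _
      simp only [f, Fin.succ_ne_zero, if_false]
      rw [indicator_of_mem (hm _)]
  exact (h3.lintegral_lt_top).ne

theorem ratio_le {a b c d : ℝ} (ha : a ≠ 0) (hb : 0 < b) (hc : |c| < 1) (hd : |d| < 1) :
    |b * c - a * d| / (a ^ 2 + b ^ 2) ≤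
      2 * (|a| ^ (-(1 / 2) : ℝ) * |b| ^ (-(1 / 2) : ℝ)) := by
  have hA : 0 < |a| := abs_pos.2 ha
  have hB : 0 < |b| := abs_pos.2 hb.ne'
  obtain ⟨p, hp, hpa⟩ : ∃ p : ℝ, 0 < p ∧ p ^ 2 = |a| := ⟨√|a|, Real.sqrt_pos.2 hA,
    Real.sq_sqrt hA.le⟩
  obtain ⟨q, hq, hqb⟩ : ∃ q : ℝ, 0 < q ∧ q ^ 2 = |b| := ⟨√|b|, Real.sqrt_pos.2 hB,
    Real.sq_sqrt hB.le⟩
  have e : ∀ r : ℝ, 0 < r → (r ^ 2) ^ (-(1 / 2) : ℝ) = r⁻¹ := by
    intro r hr
    rw [← Real.rpow_natCast, ← Real.rpow_mul hr.le, ← Real.rpow_neg_one]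
    norm_num
  have h1 : |b * c - a * d| ≤ |a| + |b| := by
    calc |b * c - a * d| ≤ |b * c| + |a * d| := abs_sub _ _
      _ = |b| * |c| + |a| * |d| := by rw [abs_mul, abs_mul]
      _ ≤ |b| * 1 + |a| * 1 := by gcongr
      _ = |a| + |b| := by ring
  have h2 : a ^ 2 + b ^ 2 = (p ^ 2) ^ 2 + (q ^ 2) ^ 2 := by rw [hpa, hqb, sq_abs, sq_abs]
  rw [h2, ← hpa, ← hqb, e p hp, e q hq]
  rw [← hpa, ← hqb] at h1
  rw [div_le_iff₀ (by positivity)]
  have h3 : 2 * (p⁻¹ * q⁻¹) * ((p ^ 2) ^ 2 + (q ^ 2) ^ 2)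
      = 2 * ((p ^ 2) ^ 2 + (q ^ 2) ^ 2) / (p * q) := by field_simp
  rw [h3, le_div_iff₀ (by positivity)]
  have h4 : p * q ≤ p ^ 2 + q ^ 2 := by nlinarith [sq_nonneg (p - q), mul_pos hp hq]
  calc |b * c - a * d| * (p * q) ≤ (p ^ 2 + q ^ 2) * (p ^ 2 + q ^ 2) := by gcongr
    _ ≤ 2 * ((p ^ 2) ^ 2 + (q ^ 2) ^ 2) := by nlinarith [sq_nonneg (p ^ 2 - q ^ 2)]

theorem ae_inner_ne (u : E N) (hu : u ≠ 0) : ∀ᵐ g : E N, ⟪u, g⟫_ℝ ≠ 0 := by
  have h : (ℝ ∙ u)ᗮ ≠ ⊤ := by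
    intro h
    have : u ∈ (ℝ ∙ u)ᗮ := by rw [h]; trivial
    rw [Submodule.mem_orthogonal_singleton_iff_inner_right] at this
    exact hu (inner_self_eq_zero.1 this)
  have h0 := Measure.addHaar_submodule (volume : Measure (E N)) _ h
  rw [ae_iff]
  refine measure_mono_null ?_ h0
  intro g hg
  simp only [ne_eq, not_not, mem_ofPred_eq] at hg
  exact Submodule.mem_orthogonal_singleton_iff_inner_right.2 hg

theorem avgC_ne_top :
    ∫⁻ g₁ in ball (0 : E N) 1, ∫⁻ g₂ in ball (0 : E N) 1, avgH g₁ g₂ ≠ ∞ := by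
  set w : E N → ℝ≥0∞ := fun g => ENNReal.ofReal (|g 0| ^ (-(1 / 2) : ℝ)) with hw
  have hwm : Measurable w :=
    ENNReal.measurable_ofReal.comp (((measurable_coord 0).abs).pow_const _)
  set I := ∫⁻ g in ball (0 : E N) 1, w g with hI
  have hI' : I ≠ ∞ := lintegral_weight_ne_top
  have h0 : ∀ᵐ g : E N, g 0 ≠ 0 := by
    have := ae_inner_ne (N := N) (EuclideanSpace.single 0 1) (by simp)
    simpa [EuclideanSpace.inner_single_left] using this
  have h1 : ∫⁻ g₁ in ball (0 : E N) 1, ∫⁻ g₂ in ball (0 : E N) 1, avgH g₁ g₂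
      ≤ ∫⁻ g₁ in ball (0 : E N) 1, w g₁ * (2 * I) := by
    refine lintegral_mono_ae ?_
    filter_upwards [ae_restrict_of_ae h0, ae_restrict_mem measurableSet_ball] with g₁ hg0 hg1
    rw [hI, ← lintegral_const_mul _ hwm, ← lintegral_const_mul _ (hwm.const_mul _)]
    refine lintegral_mono_ae ?_
    filter_upwards [ae_restrict_mem measurableSet_ball] with g₂ hg2
    unfold avgH
    split_ifs with h
    · refine (ENNReal.ofReal_le_ofReal
        (ratio_le hg0 h (abs_coord_lt hg1 1) (abs_coord_lt hg2 1))).trans (le_of_eq ?_)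
      rw [ENNReal.ofReal_mul zero_le_two, ENNReal.ofReal_mul (by positivity)]
      simp only [hw, ENNReal.ofReal_ofNat]
      ring
    · exact bot_le
  rw [lintegral_mul_const _ hwm] at h1
  exact ne_top_of_le_ne_top
    (ENNReal.mul_ne_top hI' (ENNReal.mul_ne_top (by simp) hI')) h1

theorem avgC_ne_zero :
    ∫⁻ g₁ in ball (0 : E N) 1, ∫⁻ g₂ in ball (0 : E N) 1, avgH g₁ g₂ ≠ 0 := by
  apply ne_of_gt
  have hm : Measurable fun g₁ : E N => ∫⁻ g₂ in ball (0 : E N) 1, avgH g₁ g₂ :=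
    measurable_avgH.lintegral_prod_right' (ν := volume.restrict (ball (0 : E N) 1))
  rw [setLIntegral_pos_iff hm]
  have ho : IsOpen ({g : E N | g 1 ≠ 0} ∩ ball 0 1) :=
    (isOpen_ne_zero (continuous_coord 1)).inter isOpen_ball
  have hne : ({g : E N | g 1 ≠ 0} ∩ ball 0 1).Nonempty := by
    refine ⟨EuclideanSpace.single 1 (1 / 2), by simp, ?_⟩
    rw [mem_ball_zero_iff, PiLp.norm_single]
    norm_num
  refine (ho.measure_pos volume hne).trans_le (measure_mono ?_)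
  rintro g₁ ⟨h1, h2⟩
  refine ⟨?_, h2⟩
  apply ne_of_gt
  have hm2 : Measurable fun g₂ : E N => avgH g₁ g₂ :=
    measurable_avgH.comp (measurable_const.prodMk measurable_id)
  rw [setLIntegral_pos_iff hm2]
  have ho2 : IsOpen (({g : E N | 0 < g 0} ∩ {g : E N | g 0 * g₁ 1 - g₁ 0 * g 1 ≠ 0})
      ∩ ball 0 1) := by
    have hA : IsOpen {g : E N | 0 < g 0} := isOpen_lt continuous_const (continuous_coord 0)
    have hB : IsOpen {g : E N | g 0 * g₁ 1 - g₁ 0 * g 1 ≠ 0} :=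
      isOpen_ne_zero (f := fun g : E N => g 0 * g₁ 1 - g₁ 0 * g 1) (by fun_prop)
    exact (hA.inter hB).inter isOpen_ball
  have hne2 : (({g : E N | 0 < g 0} ∩ {g : E N | g 0 * g₁ 1 - g₁ 0 * g 1 ≠ 0})
      ∩ ball 0 1).Nonempty := by
    refine ⟨EuclideanSpace.single 0 (1 / 2), ⟨by simp, ?_⟩, ?_⟩
    · simpa using h1
    · rw [mem_ball_zero_iff, PiLp.norm_single]
      norm_num
  refine (ho2.measure_pos volume hne2).trans_le (measure_mono ?_)
  rintro g₂ ⟨⟨h3, h4⟩, h5⟩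
  refine ⟨?_, h5⟩
  simp only [mem_ofPred_eq] at h3 h4
  apply ne_of_gt
  change 0 < avgH g₁ g₂
  unfold avgH
  rw [if_pos h3, ENNReal.ofReal_pos]
  have := abs_pos.2 h4
  positivity

theorem exists_iso (y Ψ : E N) (hy : y ≠ 0) (hΨ : Ψ ≠ 0) (h : ⟪Ψ, y⟫_ℝ = 0) :
    ∃ e : E N ≃ₗᵢ[ℝ] E N, ∀ g, ⟪y, g⟫_ℝ = ‖y‖ * e g 0 ∧ ⟪Ψ, g⟫_ℝ = ‖Ψ‖ * e g 1 := by
  have hy' : ‖y‖ ≠ 0 := norm_ne_zero_iff.2 hy
  have hΨ' : ‖Ψ‖ ≠ 0 := norm_ne_zero_iff.2 hΨ
  let v : Fin (N + 2) → E N := fun i => if i = 0 then ‖y‖⁻¹ • y else ‖Ψ‖⁻¹ • Ψ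
  have hv0 : v 0 = ‖y‖⁻¹ • y := by simp [v]
  have hv1 : v 1 = ‖Ψ‖⁻¹ • Ψ := by simp [v]
  have h' : ⟪y, Ψ⟫_ℝ = 0 := by rw [real_inner_comm]; exact h
  have hv : Orthonormal ℝ (({0, 1} : Set (Fin (N + 2))).domRestrict v) := by
    constructor
    · rintro ⟨i, rfl | rfl⟩
      · change ‖v 0‖ = 1
        rw [hv0, norm_smul, norm_inv, norm_norm, inv_mul_cancel₀ hy']
      · change ‖v 1‖ = 1
        rw [hv1, norm_smul, norm_inv, norm_norm, inv_mul_cancel₀ hΨ']
    · rintro ⟨i, rfl | rfl⟩ ⟨j, rfl | rfl⟩ hij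
      · exact absurd rfl hij
      · change ⟪v 0, v 1⟫_ℝ = 0
        rw [hv0, hv1, inner_smul_left, inner_smul_right, h']; simp
      · change ⟪v 1, v 0⟫_ℝ = 0
        rw [hv0, hv1, inner_smul_left, inner_smul_right, h]; simp
      · exact absurd rfl hij
  obtain ⟨b, hb⟩ := hv.exists_orthonormalBasis_extension_of_card_eq (by simp)
  refine ⟨b.repr, fun g => ⟨?_, ?_⟩⟩
  · rw [b.repr_apply_apply, hb 0 (by simp), hv0, real_inner_smul_left]
    field_simp
  · rw [b.repr_apply_apply, hb 1 (by simp), hv1, real_inner_smul_left]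
    field_simp

theorem lintegral_ball_iso (e : E N ≃ₗᵢ[ℝ] E N) (F : E N → ℝ≥0∞) :
    ∫⁻ g in ball (0 : E N) 1, F (e g) = ∫⁻ g in ball (0 : E N) 1, F g := by
  have h := e.measurePreserving.setLIntegral_comp_preimage_emb
    e.toHomeomorph.measurableEmbedding F (ball 0 1)
  have h2 : e ⁻¹' ball (0 : E N) 1 = ball 0 1 := by
    ext g; simp
  rwa [h2] at h

/-- Average over the pair of directions. -/
theorem avg_zeta (N : ℕ) : ∃ c : ℝ≥0∞, c ≠ 0 ∧ c ≠ ∞ ∧ ∀ y Ψ : E N, y ≠ 0 → ⟪Ψ, y⟫_ℝ = 0 →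
    ∫⁻ g₁ in ball (0 : E N) 1, ∫⁻ g₂ in ball (0 : E N) 1,
      {g : E N | 0 < ⟪y, g⟫_ℝ}.indicator
        (fun g => ENNReal.ofReal |⟪Ψ, zeta g₁ g y⟫_ℝ|) g₂ = c * ENNReal.ofReal (‖Ψ‖ / ‖y‖) := by
  refine ⟨_, avgC_ne_zero (N := N), avgC_ne_top, fun y Ψ hy h => ?_⟩
  by_cases hΨ : Ψ = 0
  · subst hΨ
    simp
  obtain ⟨e, he⟩ := exists_iso y Ψ hy hΨ h
  have hy' : 0 < ‖y‖ := norm_pos_iff.2 hy
  have key : ∀ g₁ g₂ : E N, {g : E N | 0 < ⟪y, g⟫_ℝ}.indicator
      (fun g => ENNReal.ofReal |⟪Ψ, zeta g₁ g y⟫_ℝ|) g₂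
      = avgH (e g₁) (e g₂) * ENNReal.ofReal (‖Ψ‖ / ‖y‖) := by
    intro g₁ g₂
    have hiff : g₂ ∈ {g : E N | 0 < ⟪y, g⟫_ℝ} ↔ 0 < e g₂ 0 := by
      rw [mem_ofPred_eq, (he g₂).1, mul_pos_iff_of_pos_left hy']
    unfold avgH
    by_cases hg : 0 < e g₂ 0
    · rw [indicator_of_mem (hiff.2 hg), if_pos hg, ← ENNReal.ofReal_mul (by positivity)]
      congr 1
      unfold zeta
      rw [real_inner_smul_right, inner_sub_right, real_inner_smul_right, real_inner_smul_right,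
        (he g₁).1, (he g₁).2, (he g₂).1, (he g₂).2]
      have hpos : 0 < e g₁ 0 ^ 2 + e g₂ 0 ^ 2 := by positivity
      have h3 : ((‖y‖ * e g₁ 0) ^ 2 + (‖y‖ * e g₂ 0) ^ 2)⁻¹ *
          (‖y‖ * e g₂ 0 * (‖Ψ‖ * e g₁ 1) - ‖y‖ * e g₁ 0 * (‖Ψ‖ * e g₂ 1))
          = (e g₂ 0 * e g₁ 1 - e g₁ 0 * e g₂ 1) *
            ((e g₁ 0 ^ 2 + e g₂ 0 ^ 2)⁻¹ * (‖Ψ‖ / ‖y‖)) := by
        have : (‖y‖ * e g₁ 0) ^ 2 + (‖y‖ * e g₂ 0) ^ 2
            = ‖y‖ ^ 2 * (e g₁ 0 ^ 2 + e g₂ 0 ^ 2) := by ring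
        rw [this]
        field_simp
      rw [h3, abs_mul, abs_of_nonneg (a := _ * (‖Ψ‖ / ‖y‖)) (by positivity)]
      ring
    · rw [indicator_of_notMem (fun h => hg (hiff.1 h)), if_neg hg, zero_mul]
  simp_rw [key]
  have hc : ENNReal.ofReal (‖Ψ‖ / ‖y‖) ≠ ∞ := ENNReal.ofReal_ne_top
  simp_rw [lintegral_mul_const' _ _ hc]
  congr 1
  have h1 : ∀ g₁ : E N, ∫⁻ g₂ in ball (0 : E N) 1, avgH (e g₁) (e g₂)
      = ∫⁻ g₂ in ball (0 : E N) 1, avgH (e g₁) g₂ :=
    fun g₁ => lintegral_ball_iso e (fun g₂ => avgH (e g₁) g₂)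
  simp_rw [h1]
  exact lintegral_ball_iso e (fun g₁ => ∫⁻ g₂ in ball (0 : E N) 1, avgH g₁ g₂)

theorem ae_indep (u : E N) (hu : u ≠ 0) :
    ∀ᵐ g₁ : E N, ⟪u, g₁⟫_ℝ ≠ 0 ∧ ∀ᵐ g₂ : E N, LinearIndependent ℝ ![g₁, g₂] := by
  filter_upwards [ae_inner_ne u hu] with g₁ hg
  refine ⟨hg, ?_⟩
  have h1 : g₁ ≠ 0 := by
    rintro rfl
    simp at hg
  have h : (ℝ ∙ g₁) ≠ ⊤ := by
    intro h
    have h2 := finrank_span_singleton (K := ℝ) h1
    rw [h, finrank_top, finrank_euclideanSpace, Fintype.card_fin] at h2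
    omega
  have h0 := Measure.addHaar_submodule (volume : Measure (E N)) _ h
  rw [ae_iff]
  refine measure_mono_null ?_ h0
  intro g hg
  simp only [mem_ofPred_eq, LinearIndependent.pair_iff' h1, ne_eq, not_forall, not_not] at hg
  exact Submodule.mem_span_singleton.2 hg

theorem lintegral_ball_scale (k : ℕ) (f : E N → ℝ) (hf : Measurable f)
    (hh : ∀ y t, 0 < t → f (t • y) = t ^ k * f y) (r : ℝ) (hr : 0 ≤ r) :
    ∫⁻ y in ball (0 : E N) r, ENNReal.ofReal (f y)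
      = ENNReal.ofReal (r ^ (k + (N + 2))) * ∫⁻ y in ball (0 : E N) 1, ENNReal.ofReal (f y) := by
  rcases hr.eq_or_lt with rfl | hr
  · simp
  have hF : Measurable fun y => ENNReal.ofReal (f y) := ENNReal.measurable_ofReal.comp hf
  have hmap := Measure.map_addHaar_smul (volume : Measure (E N)) hr.ne'
  rw [finrank_euclideanSpace, Fintype.card_fin] at hmap
  have h1 : ∫⁻ y, (ball (0 : E N) r).indicator (fun y => ENNReal.ofReal (f y)) y
      ∂(Measure.map (r • ·) volume)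
      = ∫⁻ y, (ball (0 : E N) r).indicator (fun y => ENNReal.ofReal (f y)) (r • y) :=
    lintegral_map (hF.indicator measurableSet_ball) (measurable_const_smul r)
  have h2 : ∀ y : E N, (ball (0 : E N) r).indicator (fun y => ENNReal.ofReal (f y)) (r • y)
      = (ball (0 : E N) 1).indicator
        (fun y => ENNReal.ofReal (r ^ k) * ENNReal.ofReal (f y)) y := by
    intro y
    have hiff : r • y ∈ ball (0 : E N) r ↔ y ∈ ball (0 : E N) 1 := by
      rw [mem_ball_zero_iff, mem_ball_zero_iff, norm_smul, Real.norm_of_nonneg hr.le,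
        mul_lt_iff_lt_one_right hr]
    by_cases hy : y ∈ ball (0 : E N) 1
    · rw [indicator_of_mem hy, indicator_of_mem (hiff.2 hy), hh y r hr,
        ENNReal.ofReal_mul (by positivity)]
    · rw [indicator_of_notMem hy, indicator_of_notMem (fun h => hy (hiff.1 h))]
  simp_rw [h2] at h1
  rw [hmap, lintegral_smul_measure, lintegral_indicator measurableSet_ball,
    lintegral_indicator measurableSet_ball, lintegral_const_mul _ hF, smul_eq_mul] at h1
  have h3 : ENNReal.ofReal (r ^ (N + 2)) * ENNReal.ofReal |(r ^ (N + 2))⁻¹| = 1 := by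
    rw [← ENNReal.ofReal_mul (by positivity), abs_of_pos (by positivity),
      mul_inv_cancel₀ (by positivity), ENNReal.ofReal_one]
  rw [pow_add, mul_comm (r ^ k), ENNReal.ofReal_mul (by positivity), mul_assoc, ← h1,
    ← mul_assoc, h3, one_mul]

theorem layer_eq_ball (s : ℝ) (hs : 0 < s) :
    {y : E N | s < Real.exp (-‖y‖ ^ 2 / 2)} = ball 0 (√(-2 * Real.log s)) := by
  ext y
  rw [mem_ofPred_eq, mem_ball_zero_iff, Real.lt_sqrt (norm_nonneg y),
    ← Real.log_lt_iff_lt_exp hs]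
  constructor <;> intro h <;> linarith

theorem radial_ne_top (m : ℕ) (hm : 0 < m) :
    ∫⁻ s in Ioi (0 : ℝ), ENNReal.ofReal (√(-2 * Real.log s) ^ m) ≠ ∞ := by
  have hm' : (0 : ℝ) < m := by exact_mod_cast hm
  have h1 : IntegrableOn (fun s : ℝ => √(2 * m) ^ m * s ^ (-(1 / 2) : ℝ)) (Ioo 0 1) :=
    ((intervalIntegral.integrableOn_Ioo_rpow_iff zero_lt_one).2 (by norm_num)).const_mul _
  have h2 : ∫⁻ s in Ioi (0 : ℝ), ENNReal.ofReal (√(-2 * Real.log s) ^ m)
      ≤ ∫⁻ s, (Ioo (0 : ℝ) 1).indicator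
        (fun s => ENNReal.ofReal (√(2 * m) ^ m * s ^ (-(1 / 2) : ℝ))) s := by
    rw [← lintegral_indicator measurableSet_Ioi]
    refine lintegral_mono fun s => ?_
    by_cases hs : s ∈ Ioi (0 : ℝ)
    · rw [indicator_of_mem hs]
      have hs0 : 0 < s := hs
      by_cases hs1 : s < 1
      · rw [indicator_of_mem (show s ∈ Ioo (0 : ℝ) 1 from ⟨hs0, hs1⟩)]
        refine ENNReal.ofReal_le_ofReal ?_
        have h3 := Real.log_le_rpow_div (x := s⁻¹) (ε := (m : ℝ)⁻¹) (by positivity)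
          (by positivity)
        rw [Real.log_inv, div_inv_eq_mul] at h3
        have h4 : √(-2 * Real.log s) ≤ √(2 * m) * √(s⁻¹ ^ (m : ℝ)⁻¹) := by
          rw [← Real.sqrt_mul (by positivity)]
          refine Real.sqrt_le_sqrt ?_
          linarith
        have h5 : √(s⁻¹ ^ (m : ℝ)⁻¹) ^ m = s ^ (-(1 / 2) : ℝ) := by
          rw [Real.sqrt_eq_rpow, ← Real.rpow_natCast, ← Real.rpow_mul (by positivity),
            ← Real.rpow_mul (by positivity), Real.inv_rpow hs0.le, ← Real.rpow_neg hs0.le]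
          congr 1
          field_simp
        rw [← h5, ← mul_pow]
        exact pow_le_pow_left₀ (Real.sqrt_nonneg _) h4 m
      · have h3 : √(-2 * Real.log s) = 0 := by
          rw [Real.sqrt_eq_zero']
          have := Real.log_nonneg (not_lt.1 hs1)
          linarith
        rw [h3, zero_pow hm.ne', ENNReal.ofReal_zero]
        exact bot_le
    · rw [indicator_of_notMem hs]
      exact bot_le
  rw [lintegral_indicator measurableSet_Ioo] at h2
  exact ne_top_of_le_ne_top h1.lintegral_lt_top.ne h2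

theorem measurable_radial (m : ℕ) :
    Measurable fun s : ℝ => ENNReal.ofReal (√(-2 * Real.log s) ^ m) :=
  ENNReal.measurable_ofReal.comp
    (((Real.measurable_log.const_mul _).sqrt).pow_const m)

theorem radial_ne_zero (m : ℕ) :
    ∫⁻ s in Ioi (0 : ℝ), ENNReal.ofReal (√(-2 * Real.log s) ^ m) ≠ 0 := by
  apply ne_of_gt
  rw [setLIntegral_pos_iff (measurable_radial m)]
  have h : (0 : ℝ≥0∞) < volume (Ioo (0 : ℝ) 1) := by simp
  refine h.trans_le (measure_mono ?_)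
  rintro s ⟨h0, h1⟩
  refine ⟨?_, h0⟩
  apply ne_of_gt
  rw [ENNReal.ofReal_pos]
  have := Real.log_neg h0 h1
  exact pow_pos (Real.sqrt_pos.2 (by linarith)) m

/-- Gaussian integrals of homogeneous functions. -/
theorem gauss_eq_ball (N k : ℕ) : ∃ c : ℝ≥0∞, c ≠ 0 ∧ c ≠ ∞ ∧ ∀ f : E N → ℝ, Measurable f →
    (∀ y t, 0 < t → f (t • y) = t ^ k * f y) →
    gauss f = c * ∫⁻ y in ball (0 : E N) 1, ENNReal.ofReal (f y) := by
  refine ⟨_, radial_ne_zero (k + (N + 2)), radial_ne_top _ (by omega), fun f hf hh => ?_⟩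
  have hF : Measurable fun y => ENNReal.ofReal (f y) := ENNReal.measurable_ofReal.comp hf
  have hg : Measurable fun y : E N => Real.exp (-‖y‖ ^ 2 / 2) := by fun_prop
  have h1 : gauss f = ∫⁻ y, ENNReal.ofReal (Real.exp (-‖y‖ ^ 2 / 2))
      ∂(volume.withDensity fun y => ENNReal.ofReal (f y)) := by
    have hG : Measurable fun y : E N => ENNReal.ofReal (Real.exp (-‖y‖ ^ 2 / 2)) :=
      ENNReal.measurable_ofReal.comp hg
    rw [lintegral_withDensity_eq_lintegral_mul _ hF hG]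
    unfold gauss
    refine lintegral_congr fun y => ?_
    rw [Pi.mul_apply, ENNReal.ofReal_mul' (Real.exp_pos _).le]
  rw [h1, lintegral_eq_lintegral_meas_lt _ (Eventually.of_forall fun y => (Real.exp_pos _).le)
    hg.aemeasurable, ← lintegral_mul_const _ (measurable_radial _)]
  refine setLIntegral_congr_fun measurableSet_Ioi fun s hs => ?_
  rw [layer_eq_ball s hs, withDensity_apply _ measurableSet_ball,
    lintegral_ball_scale k f hf hh _ (Real.sqrt_nonneg _)]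

end Pool.Agent.Ped
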