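import Pool.Agent.P.MP_e09f5c_gt.Theta
import Pool.Agent.P.MP_e09f5c_gt.Top

/-! The vertex integrals for `n = 3` and large `q`. -/

open MeasureTheory Real

namespace Pool.Agent.Ped

/-- The point of the unit circle of argument `2 θ`. -/
noncomputable def b3lE (θ : ℝ) : ℂ := Complex.exp (((2 * θ : ℝ) : ℂ) * Complex.I)

theorem b3l_normE (θ : ℝ) : ‖b3lE θ‖ = 1 := Complex.norm_exp_ofReal_mul_I _

theorem b3l_contE : Continuous b3lE := by
  unfold b3lE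
  fun_prop

theorem b3l_pow (θ : ℝ) (k : ℕ) :
    b3lE θ ^ k = Complex.exp (((2 * k * θ : ℝ) : ℂ) * Complex.I) := by
  rw [b3lE, ← Complex.exp_nat_mul]
  congr 1
  push_cast
  ring

theorem b3l_int_cos (j k : ℕ) :
    ∫ θ in (-π)..π, cos ((2 * j - 2 * k) * θ) = if j = k then 2 * π else 0 := by
  split_ifs with h
  · subst h
    simp [two_mul]
  · have hne : (2 * j - 2 * k : ℝ) ≠ 0 := by
      intro h0
      apply h
      have : (j : ℝ) = k := by linarith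
      exact_mod_cast this
    rw [intervalIntegral.integral_comp_mul_left (fun x => cos x) hne, integral_cos]
    have h1 : sin ((2 * j - 2 * k : ℝ) * π) = 0 := by
      have := sin_int_mul_pi (2 * j - 2 * k : ℤ)
      push_cast at this
      exact this
    rw [mul_neg, sin_neg, h1]
    simp

theorem b3l_norm_sum (a : ℕ → ℝ) (N : ℕ) (θ : ℝ) :
    ‖∑ k ∈ Finset.range N, (a k : ℂ) * b3lE θ ^ k‖ ^ 2
      = ∑ j ∈ Finset.range N, ∑ k ∈ Finset.range N, a j * a k * cos ((2 * j - 2 * k) * θ) := by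
  rw [Complex.sq_norm, Complex.normSq_apply, Complex.re_sum, Complex.im_sum, Finset.sum_mul_sum,
    Finset.sum_mul_sum, ← Finset.sum_add_distrib]
  refine Finset.sum_congr rfl fun j _ => ?_
  rw [← Finset.sum_add_distrib]
  refine Finset.sum_congr rfl fun k _ => ?_
  simp only [b3l_pow, Complex.re_ofReal_mul, Complex.im_ofReal_mul, Complex.exp_ofReal_mul_I_re,
    Complex.exp_ofReal_mul_I_im]
  rw [sub_mul, cos_sub]
  ring

theorem b3l_pars (a : ℕ → ℝ) (N : ℕ) :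
    ∫ θ in (-π)..π, ‖∑ k ∈ Finset.range N, (a k : ℂ) * b3lE θ ^ k‖ ^ 2
      = 2 * π * ∑ k ∈ Finset.range N, a k ^ 2 := by
  simp only [b3l_norm_sum]
  rw [intervalIntegral.integral_finsetSum fun j _ =>
    Continuous.intervalIntegrable (by fun_prop) _ _, Finset.mul_sum]
  refine Finset.sum_congr rfl fun j hj => ?_
  rw [intervalIntegral.integral_finsetSum fun k _ =>
    Continuous.intervalIntegrable (by fun_prop) _ _]
  simp only [intervalIntegral.integral_const_mul, b3l_int_cos, mul_ite, mul_zero,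
    Finset.sum_ite_eq, hj, if_true]
  ring

theorem b3l_pars8 (a0 a1 a2 a3 a4 a5 a6 a7 : ℝ) :
    ∫ θ in (-π)..π, ‖(a0 : ℂ) + a1 * b3lE θ + a2 * b3lE θ ^ 2 + a3 * b3lE θ ^ 3 + a4 * b3lE θ ^ 4
        + a5 * b3lE θ ^ 5 + a6 * b3lE θ ^ 6 + a7 * b3lE θ ^ 7‖ ^ 2
      = 2 * π * (a0 ^ 2 + a1 ^ 2 + a2 ^ 2 + a3 ^ 2 + a4 ^ 2 + a5 ^ 2 + a6 ^ 2 + a7 ^ 2) := by
  have h := b3l_pars (fun k => [a0, a1, a2, a3, a4, a5, a6, a7].getD k 0) 8
  simp only [Finset.sum_range_succ, Finset.sum_range_zero, List.getD_cons_zero,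
    List.getD_cons_succ, zero_add, pow_zero, mul_one, pow_one] at h
  exact h

theorem b3l_lin (a b θ : ℝ) :
    ‖(a : ℂ) + b * b3lE θ‖ ^ 2 = (a + b) ^ 2 * cos θ ^ 2 + (a - b) ^ 2 * sin θ ^ 2 := by
  rw [Complex.sq_norm, Complex.normSq_apply]
  simp only [b3lE, Complex.add_re, Complex.add_im, Complex.ofReal_re, Complex.ofReal_im,
    Complex.re_ofReal_mul, Complex.im_ofReal_mul, Complex.exp_ofReal_mul_I_re,
    Complex.exp_ofReal_mul_I_im, zero_add]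
  have h1 := sin_sq_add_cos_sq (2 * θ)
  have h2 := sin_sq_add_cos_sq θ
  have h3 := cos_two_mul' θ
  linear_combination b ^ 2 * h1 - (a ^ 2 + b ^ 2) * h2 + 2 * a * b * h3

/-- A polynomial of degree six. -/
noncomputable def b3lP (s1 s2 s3 s4 s5 s6 : ℝ) (w : ℂ) : ℂ :=
  1 + s1 * w + s2 * w ^ 2 + s3 * w ^ 3 + s4 * w ^ 4 + s5 * w ^ 5 + s6 * w ^ 6

theorem b3l_mean (s1 s2 s3 s4 s5 s6 a b x : ℝ) :
    ∫ θ in (-π)..π, ‖(a : ℂ) + b * b3lE θ‖ ^ 2 * ‖b3lP s1 s2 s3 s4 s5 s6 (x * b3lE θ)‖ ^ 2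
      = 2 * π * (a ^ 2 + (a * s1 * x + b) ^ 2 + (a * s2 * x ^ 2 + b * s1 * x) ^ 2
        + (a * s3 * x ^ 3 + b * s2 * x ^ 2) ^ 2 + (a * s4 * x ^ 4 + b * s3 * x ^ 3) ^ 2
        + (a * s5 * x ^ 5 + b * s4 * x ^ 4) ^ 2 + (a * s6 * x ^ 6 + b * s5 * x ^ 5) ^ 2
        + (b * s6 * x ^ 6) ^ 2) := by
  rw [← b3l_pars8]
  refine intervalIntegral.integral_congr fun θ _ => ?_
  rw [← mul_pow, ← norm_mul]
  congr 2
  simp only [b3lP]
  push_cast
  ring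

theorem b3l_tail (c0 c1 c2 c3 c4 c5 : ℝ) (w : ℂ) :
    ‖(c0 : ℂ) * w ^ 7 + c1 * w ^ 8 + c2 * w ^ 9 + c3 * w ^ 10 + c4 * w ^ 11 + c5 * w ^ 12‖
      ≤ |c0| * ‖w‖ ^ 7 + |c1| * ‖w‖ ^ 8 + |c2| * ‖w‖ ^ 9 + |c3| * ‖w‖ ^ 10 + |c4| * ‖w‖ ^ 11
        + |c5| * ‖w‖ ^ 12 := by
  have h : ∀ (c : ℝ) (k : ℕ), |c| * ‖w‖ ^ k = ‖(c : ℂ) * w ^ k‖ := fun c k => by
    rw [norm_mul, norm_pow, Complex.norm_real, Real.norm_eq_abs]
  simp only [h]
  refine (norm_add_le _ _).trans (add_le_add ?_ le_rfl)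
  refine (norm_add_le _ _).trans (add_le_add ?_ le_rfl)
  refine (norm_add_le _ _).trans (add_le_add ?_ le_rfl)
  refine (norm_add_le _ _).trans (add_le_add ?_ le_rfl)
  exact norm_add_le _ _

/-- Error term for the square root. -/
noncomputable def b3lU (x : ℝ) : ℝ :=
  33 / 1024 * x ^ 7 + 165 / 16384 * x ^ 8 + 77 / 16384 * x ^ 9 + 77 / 32768 * x ^ 10
    + 147 / 131072 * x ^ 11 + 441 / 1048576 * x ^ 12

/-- Error term for the power `3 / 2`. -/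
noncomputable def b3lV (x : ℝ) : ℝ :=
  9 / 1024 * x ^ 7 + 117 / 16384 * x ^ 8 + 23 / 16384 * x ^ 9 + 15 / 32768 * x ^ 10
    + 21 / 131072 * x ^ 11 + 49 / 1048576 * x ^ 12

theorem b3l_pt1 (w : ℂ) : ‖1 + w‖
    ≤ ‖b3lP (1 / 2) (-1 / 8) (1 / 16) (-5 / 128) (7 / 256) (-21 / 1024) w‖ ^ 2 + b3lU ‖w‖ := by
  have h := b3l_tail (33 / 1024) (-165 / 16384) (77 / 16384) (-77 / 32768) (147 / 131072)
    (-441 / 1048576) w
  have e : 1 + w = b3lP (1 / 2) (-1 / 8) (1 / 16) (-5 / 128) (7 / 256) (-21 / 1024) w ^ 2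
      + (((33 / 1024 : ℝ) : ℂ) * w ^ 7 + ((-165 / 16384 : ℝ) : ℂ) * w ^ 8
        + ((77 / 16384 : ℝ) : ℂ) * w ^ 9 + ((-77 / 32768 : ℝ) : ℂ) * w ^ 10
        + ((147 / 131072 : ℝ) : ℂ) * w ^ 11 + ((-441 / 1048576 : ℝ) : ℂ) * w ^ 12) := by
    simp only [b3lP]
    push_cast
    ring
  rw [e]
  refine (norm_add_le _ _).trans (add_le_add (norm_pow _ _).le (h.trans_eq ?_))
  norm_num [b3lU, abs_of_nonneg, abs_div]

theorem b3l_pt3 (w : ℂ) : ‖1 + w‖ ^ 3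
    ≤ ‖b3lP (3 / 2) (3 / 8) (-1 / 16) (3 / 128) (-3 / 256) (7 / 1024) w‖ ^ 2 + b3lV ‖w‖ := by
  have h := b3l_tail (-9 / 1024) (-117 / 16384) (23 / 16384) (-15 / 32768) (21 / 131072)
    (-49 / 1048576) w
  have e : (1 + w) ^ 3 = b3lP (3 / 2) (3 / 8) (-1 / 16) (3 / 128) (-3 / 256) (7 / 1024) w ^ 2
      + (((-9 / 1024 : ℝ) : ℂ) * w ^ 7 + ((-117 / 16384 : ℝ) : ℂ) * w ^ 8
        + ((23 / 16384 : ℝ) : ℂ) * w ^ 9 + ((-15 / 32768 : ℝ) : ℂ) * w ^ 10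
        + ((21 / 131072 : ℝ) : ℂ) * w ^ 11 + ((-49 / 1048576 : ℝ) : ℂ) * w ^ 12) := by
    simp only [b3lP]
    push_cast
    ring
  rw [← norm_pow, e]
  refine (norm_add_le _ _).trans (add_le_add (norm_pow _ _).le (h.trans_eq ?_))
  norm_num [b3lV, abs_of_nonneg, abs_div]

/-- The normalised radius. -/
noncomputable def b3lR (x θ : ℝ) : ℝ := ‖1 + (x : ℂ) * b3lE θ‖

theorem b3l_contR (x : ℝ) : Continuous (b3lR x) := by
  have := b3l_contE
  unfold b3lR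
  fun_prop

theorem b3l_R_sq (x θ : ℝ) :
    b3lR x θ ^ 2 = (1 + x) ^ 2 * cos θ ^ 2 + (1 - x) ^ 2 * sin θ ^ 2 := by
  have := b3l_lin 1 x θ
  rwa [Complex.ofReal_one] at this

theorem b3l_norm_w {x : ℝ} (hx : 0 ≤ x) (θ : ℝ) : ‖(x : ℂ) * b3lE θ‖ = x := by
  rw [norm_mul, b3l_normE, mul_one, Complex.norm_real, Real.norm_eq_abs, abs_of_nonneg hx]

theorem b3l_int_g (a b : ℝ) :
    ∫ θ in (-π)..π, ‖(a : ℂ) + b * b3lE θ‖ ^ 2 = 2 * π * (a ^ 2 + b ^ 2) := by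
  have h := b3l_pars8 a b 0 0 0 0 0 0
  simpa using h

theorem b3l_int_gen (s1 s2 s3 s4 s5 s6 a b x ε : ℝ) (f : ℝ → ℝ) (hf : Continuous f)
    (h : ∀ θ, f θ ≤ ‖b3lP s1 s2 s3 s4 s5 s6 (x * b3lE θ)‖ ^ 2 + ε) :
    ∫ θ in (-π)..π, ((a + b) ^ 2 * cos θ ^ 2 + (a - b) ^ 2 * sin θ ^ 2) * f θ
      ≤ 2 * π * (a ^ 2 + (a * s1 * x + b) ^ 2 + (a * s2 * x ^ 2 + b * s1 * x) ^ 2
        + (a * s3 * x ^ 3 + b * s2 * x ^ 2) ^ 2 + (a * s4 * x ^ 4 + b * s3 * x ^ 3) ^ 2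
        + (a * s5 * x ^ 5 + b * s4 * x ^ 4) ^ 2 + (a * s6 * x ^ 6 + b * s5 * x ^ 5) ^ 2
        + (b * s6 * x ^ 6) ^ 2 + (a ^ 2 + b ^ 2) * ε) := by
  have hE := b3l_contE
  have c1 : Continuous fun θ : ℝ => ‖(a : ℂ) + b * b3lE θ‖ ^ 2 := by fun_prop
  have c2 : Continuous fun θ : ℝ => ‖b3lP s1 s2 s3 s4 s5 s6 (x * b3lE θ)‖ ^ 2 := by
    unfold b3lP
    fun_prop
  have c3 : Continuous fun θ : ℝ => ‖(a : ℂ) + b * b3lE θ‖ ^ 2
      * ‖b3lP s1 s2 s3 s4 s5 s6 (x * b3lE θ)‖ ^ 2 := c1.mul c2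
  have c4 : Continuous fun θ : ℝ => ‖(a : ℂ) + b * b3lE θ‖ ^ 2 * ε := c1.mul continuous_const
  have c5 : Continuous fun θ : ℝ => ‖(a : ℂ) + b * b3lE θ‖ ^ 2 * f θ := c1.mul hf
  simp only [← b3l_lin]
  rw [mul_add (2 * π), ← b3l_mean, ← mul_assoc, ← b3l_int_g,
    ← intervalIntegral.integral_mul_const, ← intervalIntegral.integral_add
      (c3.intervalIntegrable _ _) (c4.intervalIntegrable _ _)]
  refine intervalIntegral.integral_mono_on (by linarith [pi_pos])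
    (c5.intervalIntegrable _ _) ((c3.add c4).intervalIntegrable _ _) fun θ _ => ?_
  rw [← mul_add]
  exact mul_le_mul_of_nonneg_left (h θ) (sq_nonneg _)

noncomputable def b3lA (x : ℝ) : ℝ := 1 + 9 / 4 * x ^ 2 + 9 / 64 * x ^ 4 + 51 / 5000 * x ^ 5
noncomputable def b3lAc (x : ℝ) : ℝ :=
  1 / 2 + 3 / 4 * x + 9 / 8 * x ^ 2 + 9 / 32 * x ^ 3 + 9 / 128 * x ^ 4 - 7 / 1000 * x ^ 5
noncomputable def b3lAz (x : ℝ) : ℝ :=
  1 / 2 - 3 / 4 * x + 9 / 8 * x ^ 2 - 9 / 32 * x ^ 3 + 9 / 128 * x ^ 4 + 173 / 10000 * x ^ 5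
noncomputable def b3lB (x : ℝ) : ℝ := 1 + 1 / 4 * x ^ 2 + 1 / 64 * x ^ 4 + 49 / 2000 * x ^ 5
noncomputable def b3lBc (x : ℝ) : ℝ :=
  1 / 2 + 1 / 4 * x + 1 / 8 * x ^ 2 - 1 / 32 * x ^ 3 + 1 / 128 * x ^ 4 + 19 / 2500 * x ^ 5
noncomputable def b3lBz (x : ℝ) : ℝ :=
  1 / 2 - 1 / 4 * x + 1 / 8 * x ^ 2 + 1 / 32 * x ^ 3 + 1 / 128 * x ^ 4 + 169 / 10000 * x ^ 5
noncomputable def b3lF (x : ℝ) : ℝ :=
  5 * b3lAc x + b3lA x + 6 * (1 + x ^ 2) * b3lBc x + 2 * (1 - x) ^ 2 * b3lB x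
    + 25465 / 10000 * ((1 - x) ^ 2 * (1 + x))
noncomputable def b3lG (x : ℝ) : ℝ :=
  5 * b3lAz x + b3lA x + 6 * (1 + x ^ 2) * b3lBz x + 2 * (1 + x) ^ 2 * b3lB x
    + (3 / 2 * ((1 + x) ^ 2 * (1 - x)) + (1 - x) ^ 2 * (1 + x) / 2)

theorem b3l_e1 {x : ℝ} (h0 : 0 ≤ x) (h1 : x ≤ 701 / 1000) :
    8 * (b3lA x * b3lA x) ≤ 72 * (11025 / 27648) ^ 2 * (1 + x ^ 2) ^ 3 := by
  obtain ⟨u, rfl⟩ : ∃ u, x = 701 / 1000 * u := ⟨1000 / 701 * x, by ring⟩
  obtain ⟨v, hv, hv0⟩ : ∃ v : ℝ, v = 1 - u ∧ 0 ≤ v := ⟨1 - u, rfl, by linarith⟩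
  have hu : 0 ≤ u := by linarith
  have key : 0 ≤ 452049
        / 131072 * (u ^ 0 * v ^ 10)
      + 2260245
        / 65536 * (u ^ 1 * v ^ 9)
      + 20235710049483
        / 131072000000 * (u ^ 2 * v ^ 8)
      + 6674240049483
        / 16384000000 * (u ^ 3 * v ^ 7)
      + 91682458085351010147
        / 131072000000000000 * (u ^ 4 * v ^ 6)
      + 4154420704674395596223541
        / 5120000000000000000000 * (u ^ 5 * v ^ 5)
      + 83567267252486030394706921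
        / 131072000000000000000000 * (u ^ 6 * v ^ 4)
      + 846089760670769909426951826293
        / 2560000000000000000000000000 * (u ^ 7 * v ^ 3)
      + 543643970659580182590276111573
        / 5120000000000000000000000000 * (u ^ 8 * v ^ 2)
      + 743818984940672448583650644367557
        / 40000000000000000000000000000000 * (u ^ 9 * v ^ 1)
      + 16207606275720417942126325374312789721
        / 12500000000000000000000000000000000000 * (u ^ 10 * v ^ 0) := by positivity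
  subst hv
  rw [← sub_nonneg]
  refine key.trans_eq ?_
  simp only [b3lA]
  ring

theorem b3l_e2 {x : ℝ} (h0 : 0 ≤ x) (h1 : x ≤ 701 / 1000) :
    b3lA x * b3lF x ≤ 72 * (11025 / 27648) ^ 2 * (1 + x ^ 2) ^ 3 := by
  obtain ⟨u, rfl⟩ : ∃ u, x = 701 / 1000 * u := ⟨1000 / 701 * x, by ring⟩
  obtain ⟨v, hv, hv0⟩ : ∃ v : ℝ, v = 1 - u ∧ 0 ≤ v := ⟨1 - u, rfl, by linarith⟩
  have hu : 0 ≤ u := by linarith
  have key : 0 ≤ 6592269
        / 16384000 * (u ^ 0 * v ^ 12)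
      + 2937430283
        / 512000000 * (u ^ 1 * v ^ 11)
      + 116417339611411
        / 3276800000000 * (u ^ 2 * v ^ 10)
      + 26171003411934179
        / 204800000000000 * (u ^ 3 * v ^ 9)
      + 983029953328067394283
        / 3276800000000000000 * (u ^ 4 * v ^ 8)
      + 77880884808758824778849237
        / 160000000000000000000000 * (u ^ 5 * v ^ 7)
      + 5736667673921364447996219170357
        / 10240000000000000000000000000 * (u ^ 6 * v ^ 6)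
      + 293790172788806490105585032005727
        / 640000000000000000000000000000 * (u ^ 7 * v ^ 5)
      + 168401580964515887863768469742064623
        / 640000000000000000000000000000000 * (u ^ 8 * v ^ 4)
      + 64550356013485312362592387236245903
        / 640000000000000000000000000000000 * (u ^ 9 * v ^ 3)
      + 37644914571695831042285967074750209035739
        / 1600000000000000000000000000000000000000 * (u ^ 10 * v ^ 2)
      + 53395795115195571937078543469039801319867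
        / 20000000000000000000000000000000000000000 * (u ^ 11 * v ^ 1)
      + 167538956861258749273019029663460161991819
        / 3125000000000000000000000000000000000000000 * (u ^ 12 * v ^ 0) := by positivity
  subst hv
  rw [← sub_nonneg]
  refine key.trans_eq ?_
  simp only [b3lF, b3lA, b3lAc, b3lB, b3lBc]
  ring

theorem b3l_e3 {x : ℝ} (h0 : 0 ≤ x) (h1 : x ≤ 701 / 1000) :
    b3lA x * b3lG x ≤ 72 * (11025 / 27648) ^ 2 * (1 + x ^ 2) ^ 3 := by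
  obtain ⟨u, rfl⟩ : ∃ u, x = 701 / 1000 * u := ⟨1000 / 701 * x, by ring⟩
  obtain ⟨v, hv, hv0⟩ : ∃ v : ℝ, v = 1 - u ∧ 0 ≤ v := ⟨1 - u, rfl, by linarith⟩
  have hu : 0 ≤ u := by linarith
  have key : 0 ≤ 124369
        / 131072 * (u ^ 0 * v ^ 12)
      + 47356199
        / 4096000 * (u ^ 1 * v ^ 11)
      + 8370635325451
        / 131072000000 * (u ^ 2 * v ^ 10)
      + 348359669696351
        / 1638400000000 * (u ^ 3 * v ^ 9)
      + 62737722147849903139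
        / 131072000000000000 * (u ^ 4 * v ^ 8)
      + 992617686942477573119999
        / 1280000000000000000000 * (u ^ 5 * v ^ 7)
      + 77048709754976664771751089561
        / 81920000000000000000000000 * (u ^ 6 * v ^ 6)
      + 4482999966625359783540569628619
        / 5120000000000000000000000000 * (u ^ 7 * v ^ 5)
      + 3230558074578871576163600676174299
        / 5120000000000000000000000000000 * (u ^ 8 * v ^ 4)
      + 110615084897916572599130834854754451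
        / 320000000000000000000000000000000 * (u ^ 9 * v ^ 3)
      + 217207159704999374079317400233822062830203
        / 1600000000000000000000000000000000000000 * (u ^ 10 * v ^ 2)
      + 1348866356066414707198023483678347293027991
        / 40000000000000000000000000000000000000000 * (u ^ 11 * v ^ 1)
      + 24526793347947662765331679639831423640549337
        / 6250000000000000000000000000000000000000000 * (u ^ 12 * v ^ 0) := by positivity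
  subst hv
  rw [← sub_nonneg]
  refine key.trans_eq ?_
  simp only [b3lG, b3lA, b3lAz, b3lB, b3lBz]
  ring

theorem b3l_pows {x : ℝ} (h0 : 0 ≤ x) (h1 : x ≤ 701 / 1000) (k : ℕ) :
    x ^ (5 + k) ≤ (701 / 1000) ^ k * x ^ 5 := by
  rw [pow_add, mul_comm]
  exact mul_le_mul_of_nonneg_right (pow_le_pow_left₀ h0 h1 k) (pow_nonneg h0 5)

theorem b3l_six {x : ℝ} (h0 : 0 ≤ x) (h1 : x ≤ 701 / 1000) :
    ∫ θ in (-π)..π, b3lR x θ ^ 3 ≤ 2 * π * b3lA x ∧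
    ∫ θ in (-π)..π, cos θ ^ 2 * b3lR x θ ^ 3 ≤ 2 * π * b3lAc x ∧
    ∫ θ in (-π)..π, sin θ ^ 2 * b3lR x θ ^ 3 ≤ 2 * π * b3lAz x ∧
    ∫ θ in (-π)..π, b3lR x θ ≤ 2 * π * b3lB x ∧
    ∫ θ in (-π)..π, cos θ ^ 2 * b3lR x θ ≤ 2 * π * b3lBc x ∧
    ∫ θ in (-π)..π, sin θ ^ 2 * b3lR x θ ≤ 2 * π * b3lBz x := by
  have p1 : ∀ θ, b3lR x θ ≤ ‖b3lP (1 / 2) (-1 / 8) (1 / 16) (-5 / 128) (7 / 256) (-21 / 1024)
      (x * b3lE θ)‖ ^ 2 + b3lU x := fun θ => by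
    have := b3l_pt1 (x * b3lE θ)
    rwa [b3l_norm_w h0] at this
  have p3 : ∀ θ, b3lR x θ ^ 3 ≤ ‖b3lP (3 / 2) (3 / 8) (-1 / 16) (3 / 128) (-3 / 256) (7 / 1024)
      (x * b3lE θ)‖ ^ 2 + b3lV x := fun θ => by
    have := b3l_pt3 (x * b3lE θ)
    rwa [b3l_norm_w h0] at this
  have g1 := fun a b => b3l_int_gen _ _ _ _ _ _ a b x _ _ (b3l_contR x) p1
  have g3 := fun a b => b3l_int_gen _ _ _ _ _ _ a b x _ _ ((b3l_contR x).pow 3) p3
  have w0 : ∀ θ : ℝ, ((1 : ℝ) + 0) ^ 2 * cos θ ^ 2 + (1 - 0) ^ 2 * sin θ ^ 2 = 1 := fun θ => by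
    linear_combination sin_sq_add_cos_sq θ
  have w1 : ∀ θ : ℝ, ((1 / 2 : ℝ) + 1 / 2) ^ 2 * cos θ ^ 2 + (1 / 2 - 1 / 2) ^ 2 * sin θ ^ 2
      = cos θ ^ 2 := fun θ => by ring
  have w2 : ∀ θ : ℝ, ((1 / 2 : ℝ) + -1 / 2) ^ 2 * cos θ ^ 2 + (1 / 2 - -1 / 2) ^ 2 * sin θ ^ 2
      = sin θ ^ 2 := fun θ => by ring
  have a1 := g3 1 0
  have a2 := g3 (1 / 2) (1 / 2)
  have a3 := g3 (1 / 2) (-1 / 2)
  have a4 := g1 1 0
  have a5 := g1 (1 / 2) (1 / 2)
  have a6 := g1 (1 / 2) (-1 / 2)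
  simp only [w0, w1, w2, one_mul] at a1 a2 a3 a4 a5 a6
  have q1 : x ^ 6 ≤ _ := b3l_pows h0 h1 1
  have q2 : x ^ 7 ≤ _ := b3l_pows h0 h1 2
  have q3 : x ^ 8 ≤ _ := b3l_pows h0 h1 3
  have q4 : x ^ 9 ≤ _ := b3l_pows h0 h1 4
  have q5 : x ^ 10 ≤ _ := b3l_pows h0 h1 5
  have q6 : x ^ 11 ≤ _ := b3l_pows h0 h1 6
  have q7 : x ^ 12 ≤ _ := b3l_pows h0 h1 7
  have q0 := pow_nonneg h0 5
  have hp : 0 ≤ 2 * π := by positivity
  refine ⟨a1.trans (mul_le_mul_of_nonneg_left ?_ hp), a2.trans (mul_le_mul_of_nonneg_left ?_ hp),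
    a3.trans (mul_le_mul_of_nonneg_left ?_ hp), a4.trans (mul_le_mul_of_nonneg_left ?_ hp),
    a5.trans (mul_le_mul_of_nonneg_left ?_ hp), a6.trans (mul_le_mul_of_nonneg_left ?_ hp)⟩ <;>
  simp only [b3lA, b3lAc, b3lAz, b3lB, b3lBc, b3lBz, b3lU, b3lV] <;>
  linarith only [q0, q1, q2, q3, q4, q5, q6, q7]

theorem b3l_R_pos {x : ℝ} (h0 : 0 ≤ x) (h1 : x < 1) (θ : ℝ) :
    (1 + x) * cos θ ^ 2 + (1 - x) * sin θ ^ 2 ≤ b3lR x θ ∧ (1 + x) * |cos θ| ≤ b3lR x θ ∧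
      0 < b3lR x θ := by
  have hR : 0 ≤ b3lR x θ := norm_nonneg _
  have hs := b3l_R_sq x θ
  have h := sin_sq_add_cos_sq θ
  have hc := sq_nonneg (cos θ)
  have hz := sq_nonneg (sin θ)
  have k1 : (1 + x) * cos θ ^ 2 + (1 - x) * sin θ ^ 2 ≤ b3lR x θ := by
    refine (abs_le_of_sq_le_sq' ?_ hR).2
    have e : b3lR x θ ^ 2 - ((1 + x) * cos θ ^ 2 + (1 - x) * sin θ ^ 2) ^ 2
        = 4 * x ^ 2 * (cos θ ^ 2 * sin θ ^ 2) := by
      rw [hs]
      have : sin θ ^ 2 = 1 - cos θ ^ 2 := by linarith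
      rw [this]
      ring
    have : 0 ≤ 4 * x ^ 2 * (cos θ ^ 2 * sin θ ^ 2) := by positivity
    linarith
  refine ⟨k1, ?_, lt_of_lt_of_le ?_ k1⟩
  · refine (abs_le_of_sq_le_sq' ?_ hR).2
    rw [hs, mul_pow, sq_abs]
    have : 0 ≤ (1 - x) ^ 2 * sin θ ^ 2 := by positivity
    linarith
  · have := mul_nonneg h0 hc
    have e : (1 + x) * cos θ ^ 2 + (1 - x) * sin θ ^ 2 = 1 - x + 2 * (x * cos θ ^ 2) := by
      linear_combination (1 - x) * h
    linarith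

theorem b3l_int_c {x : ℝ} (h0 : 0 ≤ x) (h1 : x < 1) :
    ∫ θ in (-π)..π, (1 + x) * (cos θ ^ 2 / b3lR x θ) ≤ 4 := by
  have h4 := int_cos_sin 0
  simp only [pow_zero, mul_one, Nat.cast_zero, mul_zero, zero_add, div_one] at h4
  rw [← h4]
  have c1 : Continuous fun θ : ℝ => (1 + x) * (cos θ ^ 2 / b3lR x θ) :=
    continuous_const.mul ((continuous_cos.pow 2).div (b3l_contR x)
      fun θ => (b3l_R_pos h0 h1 θ).2.2.ne')
  refine intervalIntegral.integral_mono_on (by linarith [pi_pos]) (c1.intervalIntegrable _ _)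
    (continuous_cos.abs.intervalIntegrable _ _) fun θ _ => ?_
  obtain ⟨-, k2, k3⟩ := b3l_R_pos h0 h1 θ
  rw [← mul_div_assoc, div_le_iff₀ k3, ← sq_abs (cos θ)]
  have := mul_le_mul_of_nonneg_left k2 (abs_nonneg (cos θ))
  linarith

theorem b3l_int_z {x : ℝ} (h0 : 0 ≤ x) (h1 : x < 1) :
    ∫ θ in (-π)..π, (1 + x) * (1 - x) * (sin θ ^ 2 / b3lR x θ)
      ≤ 2 * π * (3 / 8 * (1 + x) + 1 / 8 * (1 - x)) := by
  have c1 : Continuous fun θ : ℝ => (1 + x) * (1 - x) * (sin θ ^ 2 / b3lR x θ) :=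
    continuous_const.mul ((continuous_sin.pow 2).div (b3l_contR x)
      fun θ => (b3l_R_pos h0 h1 θ).2.2.ne')
  have c2 : Continuous fun θ : ℝ => (1 + x) * sin θ ^ 2 := by fun_prop
  have c3 : Continuous fun θ : ℝ => 2 * x * (sin θ ^ 2 * cos θ ^ 2) := by fun_prop
  have s4 : sin (4 * π) = 0 := by
    have := sin_nat_mul_pi 4
    exact_mod_cast this
  have e : ∫ θ in (-π)..π, ((1 + x) * sin θ ^ 2 - 2 * x * (sin θ ^ 2 * cos θ ^ 2))
      = 2 * π * (3 / 8 * (1 + x) + 1 / 8 * (1 - x)) := by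
    rw [intervalIntegral.integral_sub (c2.intervalIntegrable _ _) (c3.intervalIntegrable _ _),
      intervalIntegral.integral_const_mul, intervalIntegral.integral_const_mul, integral_sin_sq,
      integral_sin_sq_mul_cos_sq, mul_neg, sin_neg, sin_neg, sin_pi, s4]
    ring
  rw [← e]
  refine intervalIntegral.integral_mono_on (by linarith [pi_pos]) (c1.intervalIntegrable _ _)
    ((c2.sub c3).intervalIntegrable _ _) fun θ _ => ?_
  obtain ⟨k1, -, k3⟩ := b3l_R_pos h0 h1 θ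
  have h := sin_sq_add_cos_sq θ
  have hc := sq_nonneg (cos θ)
  have hz := sq_nonneg (sin θ)
  have hx : 0 ≤ 1 - x := by linarith
  have e1 : (1 + x) * sin θ ^ 2 - 2 * x * (sin θ ^ 2 * cos θ ^ 2)
      = sin θ ^ 2 * ((1 + x) * sin θ ^ 2 + (1 - x) * cos θ ^ 2) := by
    linear_combination (-(1 + x) * sin θ ^ 2) * h
  rw [← mul_div_assoc, div_le_iff₀ k3, e1]
  have p1 : 0 ≤ sin θ ^ 2 * ((1 + x) * sin θ ^ 2 + (1 - x) * cos θ ^ 2) := by positivity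
  refine le_trans ?_ (mul_le_mul_of_nonneg_left k1 p1)
  have e2 : sin θ ^ 2 * ((1 + x) * sin θ ^ 2 + (1 - x) * cos θ ^ 2)
        * ((1 + x) * cos θ ^ 2 + (1 - x) * sin θ ^ 2) - (1 + x) * (1 - x) * sin θ ^ 2
      = 4 * x ^ 2 * (sin θ ^ 2 * sin θ ^ 2 * cos θ ^ 2) := by
    have : cos θ ^ 2 = 1 - sin θ ^ 2 := by linarith
    rw [this]
    ring
  have : 0 ≤ 4 * x ^ 2 * (sin θ ^ 2 * sin θ ^ 2 * cos θ ^ 2) := by positivity
  linarith

theorem b3l_lin5 {f1 f2 f3 f4 f5 : ℝ → ℝ} (c1 : Continuous f1) (c2 : Continuous f2)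
    (c3 : Continuous f3) (c4 : Continuous f4) (c5 : Continuous f5) (k1 k3 k4 k5 : ℝ) :
    ∫ θ in (-π)..π, (k1 * f1 θ + f2 θ + k3 * f3 θ + k4 * f4 θ + k5 * f5 θ)
      = k1 * (∫ θ in (-π)..π, f1 θ) + (∫ θ in (-π)..π, f2 θ) + k3 * (∫ θ in (-π)..π, f3 θ)
        + k4 * (∫ θ in (-π)..π, f4 θ) + k5 * ∫ θ in (-π)..π, f5 θ := by
  rw [intervalIntegral.integral_add, intervalIntegral.integral_add, intervalIntegral.integral_add,
    intervalIntegral.integral_add]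
  · simp only [intervalIntegral.integral_const_mul]
  all_goals exact Continuous.intervalIntegrable (by fun_prop) _ _

theorem b3l_param {q : ℝ} (h0 : 3 / 100 ≤ q) (h1 : q ≤ 1 / 2) :
    ∃ A x : ℝ, 0 < A ∧ 0 ≤ x ∧ x ≤ 701 / 1000 ∧ q = A ^ 2 * (1 - x) ^ 2 ∧
      1 - q = A ^ 2 * (1 + x) ^ 2 := by
  have hq : 0 < q := by linarith
  have hp : 0 < 1 - q := by linarith
  have a1 := sqrt_pos.2 hq
  have a2 := sqrt_pos.2 hp
  have b1 := sq_sqrt hq.le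
  have b2 := sq_sqrt hp.le
  have hle : √q ≤ √(1 - q) := sqrt_le_sqrt (by linarith)
  have hs : 0 < √(1 - q) + √q := by linarith
  refine ⟨(√(1 - q) + √q) / 2, (√(1 - q) - √q) / (√(1 - q) + √q), by linarith,
    div_nonneg (by linarith) hs.le, ?_, ?_, ?_⟩
  · rw [div_le_iff₀ hs]
    have : 299 * √(1 - q) ≤ 1701 * √q := by
      refine (abs_le_of_sq_le_sq' ?_ (by positivity)).2
      rw [mul_pow, mul_pow, b1, b2]
      linarith
    linarith
  · rw [← mul_pow]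
    conv_lhs => rw [← b1]
    congr 1
    field_simp
    ring
  · rw [← mul_pow]
    conv_lhs => rw [← b2]
    congr 1
    field_simp
    ring

theorem b3_large {q : ℝ} (h0 : 3 / 100 ≤ q) (h1 : q ≤ 1 / 2) :
    VB1 3 q * (8 * VB1 3 q) ≤ 9 * (2 * kh 3) ^ 2 ∧ VB1 3 q * VB2 3 q ≤ 9 * (2 * kh 3) ^ 2 ∧
    VB1 3 q * VB3 3 q ≤ 9 * (2 * kh 3) ^ 2 := by
  obtain ⟨A, x, hA, hx0, hx1, hq, hp⟩ := b3l_param h0 h1
  have hx2 : x < 1 := by linarith
  have hone : 2 * A ^ 2 * (1 + x ^ 2) = 1 := by linear_combination -hq - hp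
  have hR : ∀ θ, 0 < b3lR x θ := fun θ => (b3l_R_pos hx0 hx2 θ).2.2
  have hr : ∀ θ, rq q θ = A * b3lR x θ := fun θ => by
    rw [rq, sqrt_eq_iff_eq_sq (by have : 0 ≤ 1 - q := by linarith
                                  have : 0 ≤ q := by linarith
                                  positivity) (mul_pos hA (hR θ)).le, mul_pow, b3l_R_sq, hp]
    conv_lhs => rw [hq]
    ring
  obtain ⟨i1, i2, i3, i4, i5, i6⟩ := b3l_six hx0 hx1
  have i7 := b3l_int_c hx0 hx2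
  have i8 := b3l_int_z hx0 hx2
  have cR := b3l_contR x
  have c7 : Continuous fun θ : ℝ => (1 + x) * (cos θ ^ 2 / b3lR x θ) :=
    continuous_const.mul ((continuous_cos.pow 2).div cR fun θ => (hR θ).ne')
  have c8 : Continuous fun θ : ℝ => (1 + x) * (1 - x) * (sin θ ^ 2 / b3lR x θ) :=
    continuous_const.mul ((continuous_sin.pow 2).div cR fun θ => (hR θ).ne')
  have v1 : VB1 3 q = A ^ 3 * ∫ θ in (-π)..π, b3lR x θ ^ 3 := by
    rw [VB1, ← intervalIntegral.integral_const_mul]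
    simp only [hr, mul_pow]
  have v2 : VB2 3 q = A ^ 3 * ∫ θ in (-π)..π, (5 * (cos θ ^ 2 * b3lR x θ ^ 3) + b3lR x θ ^ 3
      + 6 * (1 + x ^ 2) * (cos θ ^ 2 * b3lR x θ) + 2 * (1 - x) ^ 2 * b3lR x θ
      + 4 * ((1 - x) ^ 2 * (1 + x)) * ((1 + x) * (cos θ ^ 2 / b3lR x θ))) := by
    rw [VB2, ← intervalIntegral.integral_const_mul]
    refine intervalIntegral.integral_congr fun θ _ => ?_
    have := (hR θ).ne'
    have e : (1 - q) * q = A ^ 2 * (1 + x) ^ 2 * (A ^ 2 * (1 - x) ^ 2) := by rw [← hp, ← hq]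
    simp only [hr, e]
    rw [hq]
    have e4 : ((3 : ℕ) : ℝ) * cos θ ^ 2 * (A * b3lR x θ) ^ (3 - 2)
        = A ^ 3 * (6 * (1 + x ^ 2) * (cos θ ^ 2 * b3lR x θ)) := by
      push_cast
      linear_combination (-3 * A * cos θ ^ 2 * b3lR x θ) * hone
    rw [e4]
    push_cast
    field_simp
    ring
  have v3 : VB3 3 q = A ^ 3 * ∫ θ in (-π)..π, (5 * (sin θ ^ 2 * b3lR x θ ^ 3) + b3lR x θ ^ 3
      + 6 * (1 + x ^ 2) * (sin θ ^ 2 * b3lR x θ) + 2 * (1 + x) ^ 2 * b3lR x θ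
      + 4 * ((1 - x) * (1 + x)) * ((1 + x) * (1 - x) * (sin θ ^ 2 / b3lR x θ))) := by
    rw [VB3, ← intervalIntegral.integral_const_mul]
    refine intervalIntegral.integral_congr fun θ _ => ?_
    have := (hR θ).ne'
    have e : (1 - q) * q = A ^ 2 * (1 + x) ^ 2 * (A ^ 2 * (1 - x) ^ 2) := by rw [← hp, ← hq]
    simp only [hr, e]
    rw [hp]
    have e4 : ((3 : ℕ) : ℝ) * sin θ ^ 2 * (A * b3lR x θ) ^ (3 - 2)
        = A ^ 3 * (6 * (1 + x ^ 2) * (sin θ ^ 2 * b3lR x θ)) := by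
      push_cast
      linear_combination (-3 * A * sin θ ^ 2 * b3lR x θ) * hone
    rw [e4]
    push_cast
    field_simp
    ring
  rw [b3l_lin5 (by fun_prop) (by fun_prop) (by fun_prop) cR c7] at v2
  rw [b3l_lin5 (by fun_prop) (by fun_prop) (by fun_prop) cR c8] at v3
  have hA3 : 0 ≤ A ^ 3 := by positivity
  have hm : 0 ≤ 1 - x := by linarith
  have hpi := pi_gt_d6
  have u1 : VB1 3 q ≤ A ^ 3 * (2 * π * b3lA x) := by
    rw [v1]
    exact mul_le_mul_of_nonneg_left i1 hA3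
  have u2 : VB2 3 q ≤ A ^ 3 * (2 * π * b3lF x) := by
    rw [v2]
    refine mul_le_mul_of_nonneg_left ?_ hA3
    have j5 := mul_le_mul_of_nonneg_left i5 (by positivity : 0 ≤ 6 * (1 + x ^ 2))
    have j4 := mul_le_mul_of_nonneg_left i4 (by positivity : 0 ≤ 2 * (1 - x) ^ 2)
    have j7 := mul_le_mul_of_nonneg_left
      (i7.trans (by linarith : (4 : ℝ) ≤ 2 * π * (25465 / 10000) / 4))
      (by positivity : 0 ≤ 4 * ((1 - x) ^ 2 * (1 + x)))
    rw [b3lF]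
    linarith only [i1, i2, j5, j4, j7]
  have u3 : VB3 3 q ≤ A ^ 3 * (2 * π * b3lG x) := by
    rw [v3]
    refine mul_le_mul_of_nonneg_left ?_ hA3
    have j6 := mul_le_mul_of_nonneg_left i6 (by positivity : 0 ≤ 6 * (1 + x ^ 2))
    have j4 := mul_le_mul_of_nonneg_left i4 (by positivity : 0 ≤ 2 * (1 + x) ^ 2)
    have j8 := mul_le_mul_of_nonneg_left i8 (by positivity : 0 ≤ 4 * ((1 - x) * (1 + x)))
    rw [b3lG]
    linarith only [i1, i3, j6, j4, j8]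
  have n1 : 0 ≤ VB1 3 q := by
    rw [VB1]
    exact intervalIntegral.integral_nonneg (by linarith) fun θ _ => pow_nonneg (sqrt_nonneg _) _
  have nA : 0 ≤ A ^ 3 * (2 * π * b3lA x) := n1.trans u1
  have fin : ∀ V F : ℝ, V ≤ A ^ 3 * (2 * π * F) →
      b3lA x * F ≤ 72 * (11025 / 27648) ^ 2 * (1 + x ^ 2) ^ 3 →
      VB1 3 q * V ≤ 9 * (2 * kh 3) ^ 2 := by
    intro V F hV hF
    have hK : 0 ≤ 9 * (2 * kh 3) ^ 2 := by positivity
    rcases le_total V 0 with hV0 | hV0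
    · exact (mul_nonpos_of_nonneg_of_nonpos n1 hV0).trans hK
    refine (mul_le_mul u1 hV hV0 nA).trans ?_
    have t := mul_le_mul_of_nonneg_left hF (by positivity : 0 ≤ 4 * π ^ 2 * A ^ 6)
    have e : 4 * π ^ 2 * A ^ 6 * (72 * (11025 / 27648) ^ 2 * (1 + x ^ 2) ^ 3)
        = 9 * (2 * (11025 / 27648 * π)) ^ 2 * (2 * A ^ 2 * (1 + x ^ 2)) ^ 3 := by ring
    rw [e, hone, one_pow, mul_one] at t
    rw [kh_three]
    refine le_trans (le_of_eq ?_) t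
    ring
  refine ⟨fin _ (8 * b3lA x) (by linarith) ?_, fin _ _ u2 (b3l_e2 hx0 hx1),
    fin _ _ u3 (b3l_e3 hx0 hx1)⟩
  have := b3l_e1 hx0 hx1
  linarith

end Pool.Agent.Ped
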