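import Pool.Agent.P.MP_e09f5c_gt.RBound
import Pool.Agent.P.MP_e09f5c_gt.Theta
import Pool.Agent.P.MP_e09f5c_gt.Top

/-! The vertex integrals for `n = 3` and small `q`. -/

open MeasureTheory Real

namespace Pool.Agent.Ped

theorem b3s_arg_pos {q : ℝ} (h0 : 0 < q) (h1 : q ≤ 3 / 100) (θ : ℝ) :
    0 < (1 - q) * cos θ ^ 2 + q * sin θ ^ 2 := by
  have h := cos_sq_add_sin_sq θ
  have hc : 0 ≤ (1 - 2 * q) * cos θ ^ 2 := mul_nonneg (by linarith) (sq_nonneg _)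
  have e : (1 - q) * cos θ ^ 2 + q * sin θ ^ 2 = q + (1 - 2 * q) * cos θ ^ 2 := by
    linear_combination q * h
  rw [e]
  linarith

theorem b3s_pos {q : ℝ} (h0 : 0 < q) (h1 : q ≤ 3 / 100) (θ : ℝ) : 0 < rq q θ :=
  Real.sqrt_pos.2 (b3s_arg_pos h0 h1 θ)

theorem b3s_sq {q : ℝ} (h0 : 0 < q) (h1 : q ≤ 3 / 100) (θ : ℝ) :
    rq q θ ^ 2 = (1 - q) * cos θ ^ 2 + q * sin θ ^ 2 :=
  Real.sq_sqrt (b3s_arg_pos h0 h1 θ).le

theorem b3s_cont (q : ℝ) : Continuous (rq q) := by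
  unfold rq
  fun_prop

/-- Integration of a pointwise bound of the standard shape. -/
theorem b3s_int {q : ℝ} (h0 : 0 < q) (h1 : q ≤ 3 / 100) {f : ℝ → ℝ} (hf : Continuous f)
    (a0 a1 a2 : ℝ) {k1 k2 k3 : ℝ} (hk1 : 0 ≤ k1) (hk2 : 0 ≤ k2) (hk3 : 0 ≤ k3)
    (hb : ∀ θ, f θ ≤ |cos θ| * (a0 + a1 * sin θ ^ 2 + a2 * (sin θ ^ 2) ^ 2)
      + k1 * Jf q (47 / 50) (cos θ) (sin θ) + k2 * Jf q (77 / 20) (cos θ) (sin θ)
      + k3 * Jf q (49 / 10) (cos θ) (sin θ)) :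
    ∫ θ in (-π)..π, f θ ≤ 4 * (a0 + a1 / 3 + a2 / 5) + k1 * (303 / 10000 + 9409 / 1000 * q)
      + k2 * (77 / 5000 + 121 / 20 * q) + k3 * (173 / 10000 + 2681 / 500 * q) := by
  have c0 : Continuous fun θ : ℝ =>
      |cos θ| * (a0 + a1 * sin θ ^ 2 + a2 * (sin θ ^ 2) ^ 2) := by fun_prop
  have c1 : Continuous fun θ : ℝ => k1 * Jf q (47 / 50) (cos θ) (sin θ) :=
    continuous_const.mul (continuous_Jf h0 (by norm_num))
  have c2 : Continuous fun θ : ℝ => k2 * Jf q (77 / 20) (cos θ) (sin θ) :=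
    continuous_const.mul (continuous_Jf h0 (by norm_num))
  have c3 : Continuous fun θ : ℝ => k3 * Jf q (49 / 10) (cos θ) (sin θ) :=
    continuous_const.mul (continuous_Jf h0 (by norm_num))
  have c01 : Continuous fun θ : ℝ => |cos θ| * (a0 + a1 * sin θ ^ 2 + a2 * (sin θ ^ 2) ^ 2)
      + k1 * Jf q (47 / 50) (cos θ) (sin θ) := c0.add c1
  have c012 : Continuous fun θ : ℝ => |cos θ| * (a0 + a1 * sin θ ^ 2 + a2 * (sin θ ^ 2) ^ 2)
      + k1 * Jf q (47 / 50) (cos θ) (sin θ) + k2 * Jf q (77 / 20) (cos θ) (sin θ) := c01.add c2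
  have hle : ∫ θ in (-π)..π, f θ ≤ ∫ θ in (-π)..π,
      (|cos θ| * (a0 + a1 * sin θ ^ 2 + a2 * (sin θ ^ 2) ^ 2)
        + k1 * Jf q (47 / 50) (cos θ) (sin θ) + k2 * Jf q (77 / 20) (cos θ) (sin θ)
        + k3 * Jf q (49 / 10) (cos θ) (sin θ)) :=
    intervalIntegral.integral_mono_on (by linarith [pi_pos]) (hf.intervalIntegrable _ _)
      ((c012.add c3).intervalIntegrable _ _) fun θ _ => hb θ
  rw [intervalIntegral.integral_add (c012.intervalIntegrable _ _) (c3.intervalIntegrable _ _),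
    intervalIntegral.integral_add (c01.intervalIntegrable _ _) (c2.intervalIntegrable _ _),
    intervalIntegral.integral_add (c0.intervalIntegrable _ _) (c1.intervalIntegrable _ _),
    intervalIntegral.integral_const_mul, intervalIntegral.integral_const_mul,
    intervalIntegral.integral_const_mul] at hle
  have e0 : ∫ θ in (-π)..π, |cos θ| * (a0 + a1 * sin θ ^ 2 + a2 * (sin θ ^ 2) ^ 2)
      = 4 * (a0 + a1 / 3 + a2 / 5) := by
    have h := int_cos_poly a0 a1 a2 0 0 0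
    simpa using h
  have j1 := mul_le_mul_of_nonneg_left (int_J1 h0 h1) hk1
  have j2 := mul_le_mul_of_nonneg_left (int_J2 h0 h1) hk2
  have j3 := mul_le_mul_of_nonneg_left (int_J3 h0 h1) hk3
  rw [e0] at hle
  linarith only [hle, j1, j2, j3]

section Pointwise

variable {q co si r : ℝ}

theorem b3s_cube (h : co ^ 2 + si ^ 2 = 1) : |co| ^ 3 = |co| * (1 - si ^ 2) := by
  have e : |co| ^ 2 = co ^ 2 := sq_abs co
  linear_combination |co| * e + |co| * h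

/-- The bound for the cube of the radius with a weight. -/
theorem b3s_w (hq : 0 < q) (hq1 : q ≤ 3 / 100) (h : co ^ 2 + si ^ 2 = 1) (hr : 0 < r)
    (h2 : r ^ 2 = (1 - q) * co ^ 2 + q * si ^ 2) {w k : ℝ} (hw : 0 ≤ w) (hk : w * si ^ 2 ≤ k) :
    w * r ^ 3 ≤ w * (|co| * ((1 - si ^ 2) + 3 / 2 * q * (2 * si ^ 2 - 1)
      + 5 / 11 * q ^ 2 * (1 - si ^ 2))) + k * q * Jf q (49 / 10) co si := by
  have g := mul_le_mul_of_nonneg_left (rb_g hq hq1 h hr h2) hw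
  have hJ : 0 ≤ q * Jf q (49 / 10) co si := mul_nonneg hq.le (Jf_nonneg hq.le _ _ _)
  have g2 := mul_le_mul_of_nonneg_right hk hJ
  have hc : co ^ 2 = 1 - si ^ 2 := by linarith
  rw [b3s_cube h, hc] at g
  linarith only [g, g2]

theorem b3s_p1 (hq : 0 < q) (hq1 : q ≤ 3 / 100) (h : co ^ 2 + si ^ 2 = 1) (hr : 0 < r)
    (h2 : r ^ 2 = (1 - q) * co ^ 2 + q * si ^ 2) :
    r ^ 3 ≤ |co| * ((1 - 3 / 2 * q + 5 / 11 * q ^ 2) + (-1 + 3 * q - 5 / 11 * q ^ 2) * si ^ 2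
        + 0 * (si ^ 2) ^ 2)
      + 0 * Jf q (47 / 50) co si + 0 * Jf q (77 / 20) co si + q * Jf q (49 / 10) co si := by
  have g := b3s_w hq hq1 h hr h2 (w := 1) (k := 1) zero_le_one (by nlinarith [sq_nonneg co])
  linarith only [g]

theorem b3s_p2 (hq : 0 < q) (hq1 : q ≤ 3 / 100) (h : co ^ 2 + si ^ 2 = 1) (hr : 0 < r)
    (h2 : r ^ 2 = (1 - q) * co ^ 2 + q * si ^ 2) :
    r ^ 3 * (5 * co ^ 2 + 1) + 3 * co ^ 2 * r + 2 * (q * r + 2 * ((1 - q) * q) * co ^ 2 / r)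
      ≤ |co| * ((9 - 9 / 2 * q + 8 / 11 * q ^ 2) + (-14 + 57 / 2 * q - 5 * q ^ 2) * si ^ 2
        + (5 - 15 * q + 25 / 11 * q ^ 2) * (si ^ 2) ^ 2)
      + 0 * Jf q (47 / 50) co si + 2 * q * Jf q (77 / 20) co si
      + 9 / 4 * q * Jf q (49 / 10) co si := by
  have hc : co ^ 2 = 1 - si ^ 2 := by linarith
  have g1 := b3s_w hq hq1 h hr h2 (w := 5 * co ^ 2 + 1) (k := 9 / 4) (by positivity)
    (by rw [hc]; nlinarith [sq_nonneg (si ^ 2 - 1 / 2), sq_nonneg co])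
  have g2 := rb_h (r := r) h h2
  have g3 := mul_le_mul_of_nonneg_left (rb_d hq hq1 h hr h2) hq.le
  have g4 := mul_le_mul_of_nonneg_left (rb_b hq (by linarith) h hr h2) hq.le
  have e : 2 * ((1 - q) * q) * co ^ 2 / r = 2 * (q * ((1 - q) * co ^ 2 / r)) := by ring
  rw [b3s_cube h] at g2
  rw [e]
  generalize (1 - q) * co ^ 2 / r = u at g4 ⊢
  rw [hc] at g1 g2 ⊢
  linarith only [g1, g2, g3, g4]

theorem b3s_p3 (hq : 0 < q) (hq1 : q ≤ 3 / 100) (h : co ^ 2 + si ^ 2 = 1) (hr : 0 < r)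
    (h2 : r ^ 2 = (1 - q) * co ^ 2 + q * si ^ 2) :
    r ^ 3 * (5 * si ^ 2 + 1) + 3 * si ^ 2 * r
        + 2 * ((1 - q) * r + 2 * ((1 - q) * q) * si ^ 2 / r)
      ≤ |co| * ((3 - 3 / 2 * q + 5 / 11 * q ^ 2) + (7 - 9 / 2 * q + 20 / 11 * q ^ 2) * si ^ 2
        + (-5 + 15 * q - 25 / 11 * q ^ 2) * (si ^ 2) ^ 2)
      + 4 * Jf q (47 / 50) co si + 5 * Jf q (77 / 20) co si
      + 6 * q * Jf q (49 / 10) co si := by
  have hz0 : 0 ≤ si ^ 2 := sq_nonneg si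
  have hz : si ^ 2 ≤ 1 := by linarith [sq_nonneg co]
  have g1 := b3s_w hq hq1 h hr h2 (w := 5 * si ^ 2 + 1) (k := 6) (by positivity)
    (by nlinarith)
  have d := rb_d hq hq1 h hr h2
  have g2 := mul_le_mul_of_nonneg_left d hz0
  have g2' := mul_le_mul_of_nonneg_right hz (Jf_nonneg hq.le (77 / 20) co si)
  have g3 : 0 ≤ q * r := mul_nonneg hq.le hr.le
  have g4 := rb_c hq hq1 h hr h2
  have g5 : 0 ≤ q * (q * si ^ 2 / r) := by positivity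
  have e : 2 * ((1 - q) * q) * si ^ 2 / r = 2 * ((1 - q) * (q * si ^ 2 / r)) := by ring
  rw [e]
  generalize q * si ^ 2 / r = u at g4 g5 ⊢
  linarith only [g1, d, g2, g2', g3, g4, g5]

end Pointwise

theorem b3s_V1 {q : ℝ} (h0 : 0 < q) (h1 : q ≤ 3 / 100) :
    VB1 3 q ≤ 8 / 3 - 198 / 100 * q + 66 / 10 * q ^ 2 := by
  have h := b3s_int h0 h1 (f := fun θ => rq q θ ^ 3) ((b3s_cont q).pow 3) _ _ _ le_rfl le_rfl
    h0.le fun θ => b3s_p1 h0 h1 (cos_sq_add_sin_sq θ) (b3s_pos h0 h1 θ) (b3s_sq h0 h1 θ)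
  unfold VB1
  nlinarith [sq_nonneg q]

theorem b3s_V1_nonneg {q : ℝ} (h0 : 0 < q) (h1 : q ≤ 3 / 100) : 0 ≤ VB1 3 q :=
  intervalIntegral.integral_nonneg (by linarith [pi_pos])
    fun θ _ => pow_nonneg (b3s_pos h0 h1 θ).le _

theorem b3s_V2 {q : ℝ} (h0 : 0 < q) (h1 : q ≤ 3 / 100) :
    VB2 3 q ≤ 64 / 3 + 81 / 10 * q + 23 * q ^ 2 := by
  have hc := b3s_cont q
  have h := b3s_int h0 h1 (f := fun θ => rq q θ ^ 3 * (5 * cos θ ^ 2 + 1) + 3 * cos θ ^ 2 * rq q θ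
      + 2 * (q * rq q θ + 2 * ((1 - q) * q) * cos θ ^ 2 / rq q θ))
    (by fun_prop (disch := exact fun θ => (b3s_pos h0 h1 θ).ne')) _ _ _ le_rfl (by positivity)
    (by positivity)
    fun θ => b3s_p2 h0 h1 (cos_sq_add_sin_sq θ) (b3s_pos h0 h1 θ) (b3s_sq h0 h1 θ)
  have e : VB2 3 q = ∫ θ in (-π)..π, (rq q θ ^ 3 * (5 * cos θ ^ 2 + 1) + 3 * cos θ ^ 2 * rq q θ
      + 2 * (q * rq q θ + 2 * ((1 - q) * q) * cos θ ^ 2 / rq q θ)) := by
    unfold VB2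
    congr 1
    funext θ
    push_cast
    ring
  rw [e]
  nlinarith [sq_nonneg q]

theorem b3s_V3 {q : ℝ} (h0 : 0 < q) (h1 : q ≤ 3 / 100) :
    VB3 3 q ≤ 1754 / 100 + 70 * q := by
  have hc := b3s_cont q
  have h := b3s_int h0 h1 (f := fun θ => rq q θ ^ 3 * (5 * sin θ ^ 2 + 1) + 3 * sin θ ^ 2 * rq q θ
      + 2 * ((1 - q) * rq q θ + 2 * ((1 - q) * q) * sin θ ^ 2 / rq q θ))
    (by fun_prop (disch := exact fun θ => (b3s_pos h0 h1 θ).ne')) _ _ _ (by norm_num)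
    (by norm_num) (by positivity)
    fun θ => b3s_p3 h0 h1 (cos_sq_add_sin_sq θ) (b3s_pos h0 h1 θ) (b3s_sq h0 h1 θ)
  have e : VB3 3 q = ∫ θ in (-π)..π, (rq q θ ^ 3 * (5 * sin θ ^ 2 + 1) + 3 * sin θ ^ 2 * rq q θ
      + 2 * ((1 - q) * rq q θ + 2 * ((1 - q) * q) * sin θ ^ 2 / rq q θ)) := by
    unfold VB3
    congr 1
    funext θ
    push_cast
    ring
  rw [e]
  have hq2 : q ^ 2 ≤ 3 / 100 * q := by nlinarith
  linarith only [h, hq2, h0]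

theorem b3s_K : 564975 / 10000 ≤ 9 * (2 * kh 3) ^ 2 := by
  rw [kh_three]
  have h := Real.pi_gt_d6
  have h2 : (3.141592 : ℝ) ^ 2 ≤ π ^ 2 := pow_le_pow_left₀ (by norm_num) h.le 2
  have e : 9 * (2 * (11025 / 27648 * π)) ^ 2 = 36 * (11025 / 27648) ^ 2 * π ^ 2 := by ring
  rw [e]
  norm_num at h2 ⊢
  linarith

theorem b3_small {q : ℝ} (h0 : 0 < q) (h1 : q ≤ 3 / 100) :
    VB1 3 q * (8 * VB1 3 q) ≤ (1 + (7 / 1000 - q / 5)) * (9 * (2 * kh 3) ^ 2) ∧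
    VB1 3 q * VB2 3 q ≤ (1 + (7 / 1000 - q / 5)) * (9 * (2 * kh 3) ^ 2) ∧
    VB1 3 q * VB3 3 q ≤ (1 - 19 * (7 / 1000 - q / 5)) * (9 * (2 * kh 3) ^ 2) := by
  have v0 := b3s_V1_nonneg h0 h1
  have v1 := b3s_V1 h0 h1
  have v2 := b3s_V2 h0 h1
  have v3 := b3s_V3 h0 h1
  have hK := b3s_K
  generalize 9 * (2 * kh 3) ^ 2 = K at hK ⊢
  generalize VB1 3 q = a at v0 v1 ⊢
  generalize VB2 3 q = b at v2 ⊢
  generalize VB3 3 q = c at v3 ⊢
  have hq2 : q ^ 2 ≤ 3 / 100 * q := by nlinarith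
  have a1 : a ≤ 8 / 3 - 178 / 100 * q := by linarith only [v1, hq2, h0]
  have b1 : b ≤ 64 / 3 + 88 / 10 * q := by linarith only [v2, hq2, h0]
  have k1 := mul_le_mul_of_nonneg_left hK (show 0 ≤ 1 + (7 / 1000 - q / 5) by linarith)
  have k2 := mul_le_mul_of_nonneg_left hK (show 0 ≤ 1 - 19 * (7 / 1000 - q / 5) by linarith)
  refine ⟨?_, ?_, ?_⟩
  · have := mul_le_mul a1 a1 v0 (by linarith)
    nlinarith only [this, k1, hq2, h0]
  · have t1 := mul_le_mul_of_nonneg_left b1 v0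
    have t2 := mul_le_mul_of_nonneg_right a1 (show 0 ≤ 64 / 3 + 88 / 10 * q by linarith)
    nlinarith only [t1, t2, k1, h0, sq_nonneg q]
  · have t1 := mul_le_mul_of_nonneg_left v3 v0
    have t2 := mul_le_mul_of_nonneg_right a1 (show 0 ≤ 1754 / 100 + 70 * q by linarith)
    nlinarith only [t1, t2, k2, h0, sq_nonneg q]

end Pool.Agent.Ped
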