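import Pool.Agent.P.MP_e09f5c_gt.Mu

/-! Dirichlet recurrences for the monomial integrals. -/

open MeasureTheory Metric Set Matrix
open scoped InnerProductSpace ENNReal

namespace Pool.Agent.Ped

variable {n : ℕ}

/-- One dimensional Gaussian moments. -/
noncomputable def dirR (q : ℝ) : ℝ := ∫ x in Ioi (0 : ℝ), x ^ q * Real.exp (-x ^ 2 / 2)

theorem dirR_eq {q : ℝ} (hq : -1 < q) :
    dirR q = (1 / 2 : ℝ) ^ (-(q + 1) / 2) * (1 / 2) * Real.Gamma ((q + 1) / 2) := by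
  rw [← integral_rpow_mul_exp_neg_mul_rpow (p := 2) (b := 1 / 2) two_pos hq (by norm_num)]
  refine setIntegral_congr_fun measurableSet_Ioi fun x _ => ?_
  simp only [Real.rpow_two]
  congr 2
  ring

theorem dirR_pos {q : ℝ} (hq : -1 < q) : 0 < dirR q := by
  rw [dirR_eq hq]
  have := Real.Gamma_pos_of_pos (show 0 < (q + 1) / 2 by linarith)
  positivity

theorem dirR_add_two {q : ℝ} (hq : -1 < q) : dirR (q + 2) = (q + 1) * dirR q := by
  rw [dirR_eq hq, dirR_eq (by linarith), show (q + 2 + 1) / 2 = (q + 1) / 2 + 1 by ring,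
    Real.Gamma_add_one (by linarith), show -(q + 2 + 1) / 2 = -(q + 1) / 2 + (-1) by ring,
    Real.rpow_add (by norm_num), Real.rpow_neg_one]
  ring

/-- Radial splitting. -/
theorem dir_polar (F : ℝ × ℝ → ℝ) : ∃ S : ℝ, ∀ q : ℝ,
    Gi (fun Y : E n => F (dir Y) * ‖Y‖ ^ q) = S * dirR (q + (n + 1)) := by
  refine ⟨∫ x : sphere (0 : E n) 1, F (dir x.1) ∂(volume : Measure (E n)).toSphere, fun q => ?_⟩
  have hd : Module.finrank ℝ (E n) - 1 = n + 1 := by simp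
  let ψ : ℝ → ℝ := fun r => r ^ q * Real.exp (-r ^ 2 / 2)
  have h1 := (volume : Measure (E n)).measurePreserving_homeomorphUnitSphereProd.integral_comp
    (Homeomorph.measurableEmbedding _)
    (fun p : sphere (0 : E n) 1 × Ioi (0 : ℝ) => F (dir p.1.1) * ψ p.2.1)
  rw [integral_prod_mul (fun x : sphere (0 : E n) 1 => F (dir x.1))
    (fun r : Ioi (0 : ℝ) => ψ r.1), hd] at h1
  have h2 : ∫ r : Ioi (0 : ℝ), ψ r.1 ∂Measure.volumeIoiPow (n + 1) = dirR (q + (n + 1)) := by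
    simp only [Measure.volumeIoiPow, ENNReal.ofReal]
    rw [integral_withDensity_eq_integral_smul (measurable_subtype_coe.pow_const _).real_toNNReal,
      integral_subtype_comap measurableSet_Ioi fun a ↦ Real.toNNReal (a ^ (n + 1)) • ψ a]
    refine setIntegral_congr_fun measurableSet_Ioi fun x hx ↦ ?_
    have hx' : (0 : ℝ) < x := hx
    simp only [ψ]
    rw [NNReal.smul_def, Real.coe_toNNReal _ (pow_nonneg hx'.le _), smul_eq_mul,
      Real.rpow_add hx', show ((n : ℝ) + 1) = ((n + 1 : ℕ) : ℝ) by push_cast; ring,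
      Real.rpow_natCast]
    ring
  refine Eq.trans ?_ (h1.trans (by rw [h2]))
  have h4 := integral_subtype_comap (μ := volume) (measurableSet_singleton (0 : E n)).compl
    (fun Y : E n => F (dir Y) * ‖Y‖ ^ q * Real.exp (-‖Y‖ ^ 2 / 2))
  rw [restrict_compl_singleton] at h4
  refine Eq.trans h4.symm ?_
  refine integral_congr_ae (ae_of_all _ fun Y => ?_)
  have hY : ‖(Y : E n)‖ ≠ 0 := norm_ne_zero_iff.2 Y.2
  have h3 : dir (‖(Y : E n)‖⁻¹ • (Y : E n)) = dir (Y : E n) := by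
    simp only [dir, norm_smul, norm_inv, norm_norm, inv_mul_cancel₀ hY, div_one, PiLp.smul_apply,
      smul_eq_mul, inv_mul_eq_div]
  simp only [homeomorphUnitSphereProd_apply_fst_coe, homeomorphUnitSphereProd_apply_snd_coe, h3, ψ]
  ring

/-- Splitting off one coordinate. -/
theorem dir_split (c : Fin (n + 2)) (b : (Fin (n + 1) → ℝ) → ℝ) : ∃ β : ℝ, ∀ q : ℕ,
    ∫ Y : E n, (|Y c| ^ q * Real.exp (-Y c ^ 2 / 2)) * b (fun j => Y (c.succAbove j)) =
      dirR q * β := by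
  refine ⟨2 * ∫ x, b x, fun q => ?_⟩
  rw [← (PiLp.volume_preserving_toLp (Fin (n + 2))).integral_comp
    (MeasurableEquiv.toLp 2 _).measurableEmbedding]
  have h1 := (volume_preserving_piFinSuccAbove (fun _ : Fin (n + 2) => ℝ) c).integral_comp
    (MeasurableEquiv.measurableEmbedding _)
    (fun p : ℝ × (Fin (n + 1) → ℝ) => (|p.1| ^ q * Real.exp (-p.1 ^ 2 / 2)) * b p.2)
  rw [Measure.volume_eq_prod, integral_prod_mul
    (fun t : ℝ => |t| ^ q * Real.exp (-t ^ 2 / 2)) b] at h1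
  have h2 : ∫ t : ℝ, |t| ^ q * Real.exp (-t ^ 2 / 2) = 2 * dirR q := by
    have := integral_comp_abs (f := fun r : ℝ => r ^ q * Real.exp (-r ^ 2 / 2))
    simp only [sq_abs] at this
    simp only [this, dirR, Real.rpow_natCast]
  rw [h2] at h1
  refine Eq.trans ?_ (h1.trans (by ring))
  rfl

/-- The homogeneous monomial. -/
noncomputable def dirG (n i j : ℕ) (k : ℤ) : ℝ :=
  Gi fun Y : E n => |Y 0| ^ (n - 1) * ((Y 0 ^ 2) ^ i * (Y 1 ^ 2) ^ j * lam2 Y ^ k)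

theorem dir_norm_sq (Y : E n) : ‖Y‖ ^ 2 = Y 0 ^ 2 + Y 1 ^ 2 + lam2 Y := by
  rw [st_norm_sq]
  simp only [lam2, dotProduct, sq]

theorem dirG_succ1 (hn : 1 ≤ n) (i j : ℕ) (k : ℤ) :
    dirG n (i + 1) j k = (n + 2 * i) * dirG n i j k := by
  obtain ⟨β, hβ⟩ := dir_split (n := n) 0 fun x =>
    (x 0 ^ 2) ^ j * (∑ l : Fin n, x l.succ ^ 2) ^ k *
      Real.exp (-(x 0 ^ 2 + ∑ l : Fin n, x l.succ ^ 2) / 2)
  have h : ∀ i : ℕ, dirG n i j k = dirR ((n - 1 + 2 * i : ℕ) : ℝ) * β := by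
    intro i
    rw [← hβ, dirG, Gi]
    refine integral_congr_ae (ae_of_all _ fun Y => ?_)
    simp only [Fin.succAbove_zero, Fin.succ_zero_eq_one, dir_norm_sq]
    rw [show -(Y 0 ^ 2 + Y 1 ^ 2 + lam2 Y) / 2 = -Y 0 ^ 2 / 2 + -(Y 1 ^ 2 + lam2 Y) / 2 by ring,
      Real.exp_add, pow_add, pow_mul, sq_abs]
    simp only [lam2, tail]
    ring
  have e : ((n - 1 + 2 * i : ℕ) : ℝ) = n - 1 + 2 * i := by
    push_cast [Nat.cast_sub hn]
    ring
  have e' : ((n - 1 + 2 * (i + 1) : ℕ) : ℝ) = n - 1 + 2 * i + 2 := by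
    push_cast [Nat.cast_sub hn]
    ring
  have hn' : (1 : ℝ) ≤ n := by exact_mod_cast hn
  rw [h, h, e, e', dirR_add_two (by linarith [(Nat.cast_nonneg i : (0 : ℝ) ≤ i)])]
  ring

theorem dirG_succ2 (i j : ℕ) (k : ℤ) :
    dirG n i (j + 1) k = (1 + 2 * j) * dirG n i j k := by
  obtain ⟨β, hβ⟩ := dir_split (n := n) 1 fun x =>
    |x 0| ^ (n - 1) * (x 0 ^ 2) ^ i * (∑ l : Fin n, x l.succ ^ 2) ^ k *
      Real.exp (-(x 0 ^ 2 + ∑ l : Fin n, x l.succ ^ 2) / 2)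
  have h : ∀ j : ℕ, dirG n i j k = dirR ((2 * j : ℕ) : ℝ) * β := by
    intro j
    rw [← hβ, dirG, Gi]
    refine integral_congr_ae (ae_of_all _ fun Y => ?_)
    simp only [Fin.one_succAbove_zero, Fin.one_succAbove_succ, dir_norm_sq]
    rw [show -(Y 0 ^ 2 + Y 1 ^ 2 + lam2 Y) / 2 = -Y 1 ^ 2 / 2 + -(Y 0 ^ 2 + lam2 Y) / 2 by ring,
      Real.exp_add, pow_mul, sq_abs]
    simp only [lam2, tail]
    ring
  have e : ((2 * j : ℕ) : ℝ) = 2 * j := by push_cast; ring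
  have e' : ((2 * (j + 1) : ℕ) : ℝ) = 2 * j + 2 := by push_cast; ring
  rw [h, h, e, e', dirR_add_two (by linarith [(Nat.cast_nonneg j : (0 : ℝ) ≤ j)])]
  ring

theorem dir_mono_eq (hn : 1 ≤ n) (i j : ℕ) (k : ℤ) :
    mono n i j k * dirR (2 * n + 2 * (i + j + k)) = dirG n i j k * (dirR (2 * n + 3) / U0 n) := by
  obtain ⟨S, hS⟩ := dir_polar (n := n) fun p =>
    |p.1| ^ (n - 1) * ((p.1 ^ 2) ^ i * (p.2 ^ 2) ^ j * lm p ^ k)
  have hm : Measurable fun p : ℝ × ℝ => (p.1 ^ 2) ^ i * (p.2 ^ 2) ^ j * lm p ^ k := by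
    unfold lm
    fun_prop
  have hne : ∀ᵐ Y : E n, ‖Y‖ ≠ 0 := by
    filter_upwards [ae_coord_ne (n := n) 0] with Y hY h
    exact hY (by simp [norm_eq_zero.1 h])
  have hpow : ∀ Y : E n, ‖Y‖ ≠ 0 → ∀ q : ℝ,
      |(dir Y).1| ^ (n - 1) * ‖Y‖ ^ ((n : ℝ) - 1 + q) = |Y 0| ^ (n - 1) * ‖Y‖ ^ q := by
    intro Y hY q
    have hY' : 0 < ‖Y‖ := lt_of_le_of_ne (norm_nonneg _) (Ne.symm hY)
    rw [Real.rpow_add hY', show ((n : ℝ) - 1) = ((n - 1 : ℕ) : ℝ) by simp [Nat.cast_sub hn],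
      Real.rpow_natCast]
    simp only [dir, abs_div, abs_norm, div_pow]
    field_simp
  have h1 : mono n i j k = S * dirR (2 * n + 3) / U0 n := by
    rw [mono, integral_mu hm, show (2 * n + 3 : ℝ) = (n - 1 + 3) + (n + 1) by ring, ← hS]
    congr 1
    refine integral_congr_ae ?_
    filter_upwards [hne] with Y hY
    have := hpow Y hY 3
    rw [Real.rpow_ofNat] at this
    rw [← this]
    ring
  have h2 : dirG n i j k = S * dirR (2 * n + 2 * (i + j + k)) := by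
    rw [show (2 * n + 2 * (i + j + k) : ℝ) = (n - 1 + 2 * (i + j + k)) + (n + 1) by ring, ← hS]
    refine integral_congr_ae ?_
    filter_upwards [hne] with Y hY
    have hY' : 0 < ‖Y‖ := lt_of_le_of_ne (norm_nonneg _) (Ne.symm hY)
    have h3 := hpow Y hY (2 * (i + j + k))
    have h4 : ‖Y‖ ^ (2 * ((i : ℝ) + j + k)) = (‖Y‖ ^ 2) ^ i * (‖Y‖ ^ 2) ^ j * (‖Y‖ ^ 2) ^ k := by
      rw [Real.rpow_mul hY'.le, Real.rpow_two, Real.rpow_add (by positivity),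
        Real.rpow_add (by positivity), Real.rpow_natCast, Real.rpow_natCast, Real.rpow_intCast]
    have h5 : lm (dir Y) = lam2 Y / ‖Y‖ ^ 2 := by
      simp only [lm, dir]
      field_simp
      linarith [dir_norm_sq Y]
    have h6 : ((dir Y).1 ^ 2) ^ i * ((dir Y).2 ^ 2) ^ j * lm (dir Y) ^ k *
        ((‖Y‖ ^ 2) ^ i * (‖Y‖ ^ 2) ^ j * (‖Y‖ ^ 2) ^ k) =
        (Y 0 ^ 2) ^ i * (Y 1 ^ 2) ^ j * lam2 Y ^ k := by
      have hz : (‖Y‖ ^ 2) ^ k ≠ 0 := zpow_ne_zero _ (by positivity)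
      rw [h5]
      simp only [dir, div_pow, div_zpow]
      field_simp
    rw [← h6, ← h4]
    linear_combination (-(((dir Y).1 ^ 2) ^ i * ((dir Y).2 ^ 2) ^ j * lm (dir Y) ^ k *
      Real.exp (-‖Y‖ ^ 2 / 2))) * h3
  rw [h1, h2]
  ring

theorem dir_step (hn : 1 ≤ n) {i j i' j' : ℕ} {k : ℤ} (hk : 0 < (n : ℤ) + 2 * k)
    (hs : i' + j' = i + j + 1) {c : ℝ} (h : dirG n i' j' k = c * dirG n i j k) :
    mono n i' j' k = mono n i j k * c / (2 * n + 1 + 2 * (i + j + k)) := by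
  have hk' : (0 : ℝ) < n + 2 * k := by exact_mod_cast hk
  have hq : (0 : ℝ) < 2 * n + 2 * (i + j + k) := by
    linarith [(Nat.cast_nonneg i : (0 : ℝ) ≤ i), (Nat.cast_nonneg j : (0 : ℝ) ≤ j),
      (Nat.cast_nonneg n : (0 : ℝ) ≤ n)]
  have h1 := dir_mono_eq hn i j k
  have h2 := dir_mono_eq hn i' j' k
  have hs' : (i' : ℝ) + j' = i + j + 1 := by exact_mod_cast hs
  rw [show (2 * n + 2 * (i' + j' + k) : ℝ) = 2 * n + 2 * (i + j + k) + 2 by rw [hs']; ring,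
    dirR_add_two (by linarith), h] at h2
  have h3 := dirR_pos (show -1 < 2 * (n : ℝ) + 2 * (i + j + k) by linarith)
  rw [eq_div_iff (by linarith)]
  refine mul_right_cancel₀ h3.ne' ?_
  linear_combination h2 - c * h1

theorem mono_one (hn : 1 ≤ n) : mono n 1 0 0 = 1 := by
  have hm : Measurable fun p : ℝ × ℝ => (p.1 ^ 2) ^ 1 * (p.2 ^ 2) ^ 0 * lm p ^ (0 : ℤ) := by
    unfold lm
    fun_prop
  rw [mono, integral_mu hm, div_eq_one_iff_eq (U0_pos n).ne', U0, phi]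
  congr 1
  funext Y
  obtain ⟨m, rfl⟩ := Nat.exists_eq_add_of_le' hn
  have hd : den 0 0 Y = ‖Y‖ := by simp [den]
  simp only [hd, dir, pow_one, pow_zero, zpow_zero, mul_one, Nat.add_sub_cancel]
  by_cases hY : ‖Y‖ = 0
  · simp [hY]
  · rw [show m + 1 + 1 = m + 2 by ring, pow_add, sq_abs]
    field_simp

theorem mono_succ1 (hn : 1 ≤ n) (i j : ℕ) {k : ℤ} (hk : 0 < (n : ℤ) + 2 * k) :
    mono n (i + 1) j k = mono n i j k * (n + 2 * i) / (2 * n + 1 + 2 * (i + j + k)) :=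
  dir_step hn hk (by ring) (dirG_succ1 hn i j k)

theorem mono_succ2 (hn : 1 ≤ n) (i j : ℕ) {k : ℤ} (hk : 0 < (n : ℤ) + 2 * k) :
    mono n i (j + 1) k = mono n i j k * (1 + 2 * j) / (2 * n + 1 + 2 * (i + j + k)) :=
  dir_step hn hk (by ring) (dirG_succ2 i j k)

theorem mono_succ3 (hn : 1 ≤ n) (i j : ℕ) {k : ℤ} (hk : 0 < (n : ℤ) + 2 * k) :
    mono n i j (k + 1) = mono n i j k * (n + 2 * k) / (2 * n + 1 + 2 * (i + j + k)) := by
  have hk' : (0 : ℝ) < n + 2 * k := by exact_mod_cast hk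
  have hq : (0 : ℝ) < 2 * n + 1 + 2 * (i + j + k) := by
    linarith [(Nat.cast_nonneg i : (0 : ℝ) ≤ i), (Nat.cast_nonneg j : (0 : ℝ) ≤ j),
      (Nat.cast_nonneg n : (0 : ℝ) ≤ n)]
  have hi : ∀ i j : ℕ, Integrable
      (fun p : ℝ × ℝ => (p.1 ^ 2) ^ i * (p.2 ^ 2) ^ j * lm p ^ k) (mu n) := fun i j =>
    integrable_cont_lm hn hk (by fun_prop)
  have h : mono n i j (k + 1) = mono n i j k - mono n (i + 1) j k - mono n i (j + 1) k := by
    have h1 := integral_sub ((hi i j).sub (hi (i + 1) j)) (hi i (j + 1))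
    simp only [Pi.sub_apply] at h1
    simp only [mono]
    rw [← integral_sub (hi _ _) (hi _ _), ← h1]
    refine integral_congr_ae ?_
    filter_upwards [mu_ae hn] with p hp
    rw [zpow_add_one₀ hp.ne']
    have : lm p = 1 - p.1 ^ 2 - p.2 ^ 2 := rfl
    linear_combination ((p.1 ^ 2) ^ i * (p.2 ^ 2) ^ j * lm p ^ k) * this
  rw [h, mono_succ1 hn i j hk, mono_succ2 hn i j hk, eq_div_iff hq.ne', sub_mul, sub_mul,
    div_mul_cancel₀ _ hq.ne', div_mul_cancel₀ _ hq.ne']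
  ring

end Pool.Agent.Ped
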