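import Pool.Agent.P.MP_e09f5c_gt.Glue
import Pool.Agent.P.MP_e09f5c_gt.Dir

/-! The case of the trivial reference direction. -/

open MeasureTheory Metric Set Matrix
open scoped InnerProductSpace ENNReal

namespace Pool.Agent.Ped

variable {n : ℕ}

theorem glb_odd {g : ℝ × ℝ → ℝ} (hg : ∀ p : ℝ × ℝ, g (p.1, -p.2) = -g p) :
    ∫ p, g p ∂mu n = 0 := by
  have hemb : MeasurableEmbedding fun p : ℝ × ℝ => (p.1, -p.2) :=
    (MeasurableEquiv.prodCongr (MeasurableEquiv.refl ℝ) (MeasurableEquiv.neg ℝ)).measurableEmbedding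
  have h := (mu_flip2 n).integral_comp hemb g
  simp only [hg, integral_neg] at h
  linarith

theorem glb_model {N B r t c z q s2 X2 q1 : ℝ} (hN : N ≠ 0) (hr : r ≠ 0)
    (hg : r ^ 2 = (1 - q) * c + q * z) (hs : s2 + X2 + q1 = 1) :
    t * r ^ 3 * ((X2 * c + q1 * z) * ((N + 2) * B + N * B / r ^ 2) + B * (1 - s2)
      + s2 * ((N + 2) * B + N * B)
      + (N + 3) / N * B * ((1 - q) ^ 2 * c * q1 + q ^ 2 * z * X2) / (r ^ 2) ^ 2
      + (N + 3) / N * B * (X2 * c + q1 * z) * N * ((1 - q) * q) / (r ^ 2) ^ 2)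
    = B * (s2 * ((2 * N + 2) * (t * r ^ 3))
      + X2 * (t * r ^ 3 * ((N + 2) * c + 1) + N * c * (t * r)
        + (N + 3) / N * (q * (t * r) + (N - 1) * ((1 - q) * q) * c * t / r))
      + q1 * (t * r ^ 3 * ((N + 2) * z + 1) + N * z * (t * r)
        + (N + 3) / N * ((1 - q) * (t * r) + (N - 1) * ((1 - q) * q) * z * t / r))) := by
  linear_combination (norm := (field_simp; ring))
    (-(t / r * ((N + 3) / N) * B * (X2 * q + q1 * (1 - q)))) * hg - t * r ^ 3 * B * hs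

theorem glb_cond (hn : 3 ≤ n) {F : Fr} (hF : F.Ok) (co si : ℝ)
    {m : Mo} {B : ℝ} (hB : 0 < B) (m1 : m.Wr = (n + 2) * B) (m2 : m.Be = B) (m3 : m.Bl = B)
    (m4 : m.mup = (n + 2) / n * B) (m5 : m.m22 = 1 / n * B) (m6 : m.m40 = 3 / n * B)
    (m7 : m.e1 = 0) (m8 : m.e2 = 0) :
    Cond n F m ⟨(n + 3) / n * B, 0, 0, 0, 0, 0⟩ ⟨0, 0, 0, 0, 1, 3 / n, 0, n - 2, n - 1⟩ co si := by
  have hN : (3 : ℝ) ≤ n := by exact_mod_cast hn
  have hN0 : (0 : ℝ) < n := by linarith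
  have hdl : 0 ≤ F.dl / F.gb co si ^ 2 :=
    div_nonneg (mul_nonneg (by linarith [hF.q_le]) hF.q_pos.le) (sq_nonneg _)
  have hW : 0 ≤ Wexp n F m ⟨(n + 3) / n * B, 0, 0, 0, 0, 0⟩
      ⟨0, 0, 0, 0, 1, 3 / n, 0, n - 2, n - 1⟩ co si := by
    have e : Wexp n F m ⟨(n + 3) / n * B, 0, 0, 0, 0, 0⟩
        ⟨0, 0, 0, 0, 1, 3 / n, 0, n - 2, n - 1⟩ co si =
        (n + 3) / n * B * (F.dl / F.gb co si ^ 2) + B / n * (2 * (n - 3) ^ 2 + 10 * (n - 3) + 3) := by
      simp only [Wexp, Aa, m1, m3]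
      generalize F.dl / F.gb co si ^ 2 = w
      field_simp
      ring
    rw [e]
    have : (0 : ℝ) ≤ n - 3 := by linarith
    positivity
  refine ⟨by simp [m7], by simp [m8], le_rfl, le_rfl, by rw [m3]; exact hB.le,
    by rw [m5]; positivity, le_rfl, by simp [m2, m3], le_rfl, by simp [m2, m3], one_pos,
    by positivity, ?_, ?_, le_rfl, ?_, ?_, ?_, by simp, by simp, le_rfl, le_max_left _ _,
    le_max_left _ _, hW, by simp, ?_⟩
  · simp only [m4, m5]; apply le_of_eq; field_simp; ring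
  · simp only [m5]; apply le_of_eq; field_simp; ring
  · simp only [m5, m6]; apply le_of_eq; field_simp; ring
  · simp only [m4, m5]; apply le_of_eq; field_simp; ring
  · simp only [m5]
    have e : (n + 3) / n * B + 0 - 1 / n * B * (1 + 1 / (3 / n)) = B * (2 / n + 2 / 3) := by
      field_simp; ring
    have : 0 ≤ B * (2 / n + 2 / 3) := by positivity
    linarith
  · have e : Gexp n F m ⟨(n + 3) / n * B, 0, 0, 0, 0, 0⟩
        ⟨0, 0, 0, 0, 1, 3 / n, 0, n - 2, n - 1⟩ co si =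
        F.g1 co si * Wexp n F m ⟨(n + 3) / n * B, 0, 0, 0, 0, 0⟩
          ⟨0, 0, 0, 0, 1, 3 / n, 0, n - 2, n - 1⟩ co si
        + (B + (n + 3) / n * B) * F.P1 co si + F.s ^ 2 * ((n + 2) * B + n * B) := by
      simp only [Gexp, Wexp, m1, m2, m3]
      ring
    rw [e]
    have := gen_g1_nonneg hF co si
    have := gen_P1_nonneg hF co si
    positivity

theorem nmo_zero (hn : 1 ≤ n) :
    nphi n 0 0 = 1 ∧ (nmo n 0 0).Wr = (n + 2) / (2 * n + 3) ∧ (nmo n 0 0).Be = 1 / (2 * n + 3) ∧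
    (nmo n 0 0).Bl = 1 / (2 * n + 3) ∧ (nmo n 0 0).mup = (n + 2) / n / (2 * n + 3) ∧
    (nmo n 0 0).m22 = 1 / n / (2 * n + 3) ∧ (nmo n 0 0).m40 = 3 / n / (2 * n + 3) ∧
    (nmo n 0 0).e1 = 0 ∧ (nmo n 0 0).e2 = 0 := by
  have hN : (0 : ℝ) < n := by exact_mod_cast hn
  have hk0 : (0 : ℤ) < (n : ℤ) + 2 * 0 := by omega
  have hk1 : (0 : ℤ) < (n : ℤ) + 2 * 1 := by omega
  have hw : ∀ p, wt 0 0 p = 1 := fun p => by simp [wt]
  obtain ⟨a1, a2, a3, a4, a5, a6, a7, a8⟩ := nmo_mu hn 0 0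
  simp only [hw, mul_one] at a1 a2 a3 a4 a5 a6 a7 a8
  have m100 := mono_one hn
  have m000 : mono n 0 0 0 = (2 * n + 1) / n := by
    have := mono_succ1 hn 0 0 hk0
    rw [zero_add, m100] at this
    push_cast at this
    field_simp at this ⊢
    linarith
  have m200 := mono_succ1 hn 1 0 hk0
  have m110 := mono_succ2 hn 1 0 hk0
  have m101 := mono_succ3 hn 1 0 hk0
  have m001 := mono_succ3 hn 0 0 hk0
  have m002 := mono_succ3 hn 0 0 hk1
  have m010 := mono_succ2 hn 0 0 hk0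
  have m011 := mono_succ3 hn 0 1 hk0
  have m020 := mono_succ2 hn 0 1 hk0
  rw [m100] at m200 m110 m101
  rw [m000] at m001 m010
  rw [zero_add] at m001 m010
  rw [m001] at m002
  rw [m010] at m011 m020
  have b1 : ∫ p, p.1 ^ 4 ∂mu n = mono n (1 + 1) 0 0 := by
    unfold mono; congr 1; ext p; simp; ring
  have b2 : ∫ p, p.1 ^ 2 * p.2 ^ 2 ∂mu n = mono n 1 (0 + 1) 0 := by
    unfold mono; congr 1; ext p; simp
  have b3 : ∫ p, p.1 ^ 2 * lm p ∂mu n = mono n 1 0 (0 + 1) := by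
    unfold mono; congr 1; ext p; simp
  have b4 : ∫ p, lm p ^ 2 ∂mu n = mono n 0 0 (1 + 1) := by
    unfold mono; congr 1; ext p; simp
  have b5 : ∫ p, p.2 ^ 2 * lm p ∂mu n = mono n 0 1 (0 + 1) := by
    unfold mono; congr 1; ext p; simp
  have b6 : ∫ p, p.2 ^ 4 ∂mu n = mono n 0 (1 + 1) 0 := by
    unfold mono; congr 1; ext p; simp; ring
  refine ⟨div_self (U0_pos n).ne', ?_, ?_, ?_, ?_, ?_, ?_, ?_, ?_⟩
  · rw [a1, b1, m200]; push_cast; field_simp; ring
  · rw [a2, b2, m110]; push_cast; field_simp; ring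
  · rw [a3, b3, m101]; push_cast; field_simp; ring
  · rw [a4, b4, m002]; push_cast; field_simp; ring
  · rw [a5, b5, m011]; push_cast; field_simp; ring
  · rw [a6, b6, m020]; push_cast; field_simp; ring
  · rw [a7]; exact glb_odd fun p => by simp
  · rw [a8]; exact glb_odd fun p => by simp [lm]

theorem glueB (hn : 3 ≤ n) {X V : Mat n} {F : Fr} (h : NF X V F)
    (hfin : VB1 n F.q * (F.s ^ 2 * ((2 * n + 2) * VB1 n F.q) + F.X2 * VB2 n F.q
      + F.q1 * VB3 n F.q) ≤ (2 * n + 3) * (2 * kh n) ^ 2) :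
    gauss (crof X V (ez n F.s)) ≤ kap (n + 1) := by
  have hN : (3 : ℝ) ≤ n := by exact_mod_cast hn
  have hN0 : (0 : ℝ) < n := by linarith
  obtain ⟨z0, z1, z2, z3, z4, z5, z6, z7, z8⟩ := nmo_zero (n := n) (by omega)
  set B : ℝ := 1 / (2 * n + 3) with hBdef
  have hB : 0 < B := by positivity
  have hr : ∀ θ, 0 < rq F.q θ := fun θ => Real.sqrt_pos.2 (asm_gb F h.ok θ)
  have cr : Continuous (rq F.q) := by unfold rq; fun_prop
  have hle : -Real.pi < Real.pi := by linarith [Real.pi_pos]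
  have hV : 0 < VB1 n F.q :=
    intervalIntegral.intervalIntegral_pos_of_pos ((cr.pow n).intervalIntegrable _ _)
      (fun θ => pow_pos (hr θ) n) hle
  have hk : 0 < kh n :=
    div_pos (ENNReal.toReal_pos (kap_ne_zero _) (kap_ne_top _)) (U0_pos n)
  have i1 : IntervalIntegrable (fun θ => rq F.q θ ^ n) volume (-Real.pi) Real.pi :=
    (cr.pow n).intervalIntegrable _ _
  have i2 : IntervalIntegrable (fun θ => rq F.q θ ^ n * ((n + 2) * Real.cos θ ^ 2 + 1)
      + n * Real.cos θ ^ 2 * rq F.q θ ^ (n - 2) + (n + 3) / n * (F.q * rq F.q θ ^ (n - 2)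
      + (n - 1) * ((1 - F.q) * F.q) * Real.cos θ ^ 2 * rq F.q θ ^ (n - 3) / rq F.q θ))
      volume (-Real.pi) Real.pi := by
    refine Continuous.intervalIntegrable ?_ _ _
    refine Continuous.add (by fun_prop) (continuous_const.mul (Continuous.add (by fun_prop) ?_))
    exact Continuous.div (by fun_prop) cr fun θ => (hr θ).ne'
  have i3 : IntervalIntegrable (fun θ => rq F.q θ ^ n * ((n + 2) * Real.sin θ ^ 2 + 1)
      + n * Real.sin θ ^ 2 * rq F.q θ ^ (n - 2) + (n + 3) / n * ((1 - F.q) * rq F.q θ ^ (n - 2)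
      + (n - 1) * ((1 - F.q) * F.q) * Real.sin θ ^ 2 * rq F.q θ ^ (n - 3) / rq F.q θ))
      volume (-Real.pi) Real.pi := by
    refine Continuous.intervalIntegrable ?_ _ _
    refine Continuous.add (by fun_prop) (continuous_const.mul (Continuous.add (by fun_prop) ?_))
    exact Continuous.div (by fun_prop) cr fun θ => (hr θ).ne'
  have j1 := (i1.const_mul (2 * n + 2 : ℝ)).const_mul (F.s ^ 2)
  have j2 := i2.const_mul F.X2
  have j3 := i3.const_mul F.q1
  have y1 : (nmo n 0 0).Wr = (n + 2) * B := by rw [z1, hBdef]; ring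
  have y4 : (nmo n 0 0).mup = (n + 2) / n * B := by rw [z4, hBdef]; ring
  have y5 : (nmo n 0 0).m22 = 1 / n * B := by rw [z5, hBdef]; ring
  have y6 : (nmo n 0 0).m40 = 3 / n * B := by rw [z6, hBdef]; ring
  refine assemble (by omega) h (a := 0) (b := 0) (lam := 2 * kh n / VB1 n F.q) (rho := 0)
    (by norm_num) (by positivity) (Ca := fun _ => (n + 3) / n * B) (Cz := fun _ => 0)
    (ph := fun _ => 0) (pz := fun _ => 0) 0 0 (fun z => hasDerivAt_const _ _) continuous_const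
    (fun z => hasDerivAt_const _ _) continuous_const (((j1.add j2).add j3).const_mul B)
    (fun θ => ?_) ?_
  · rw [zero_mul (|Real.sin θ|)]
    refine ⟨_, glb_cond hn h.ok _ _ hB y1 z2 z3 y4 y5 y6 z7 z8,
      glb_cond hn h.ok _ _ hB y1 z2 z3 y4 y5 y6 z7 z8, le_of_eq ?_⟩
    have hg : F.gb (Real.cos θ) (Real.sin θ) = rq F.q θ ^ 2 :=
      (Real.sq_sqrt (asm_gb F h.ok θ).le).symm
    have e0 : √(F.gb (Real.cos θ) (Real.sin θ)) = rq F.q θ := rfl
    have e3 : rq F.q θ ^ n = rq F.q θ ^ (n - 3) * rq F.q θ ^ 3 := by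
      rw [← pow_add]; congr 1; omega
    have e2 : rq F.q θ ^ (n - 2) = rq F.q θ ^ (n - 3) * rq F.q θ := by
      rw [← pow_succ]; congr 1; omega
    rw [e0, e3, e2, ← glb_model hN0.ne' (hr θ).ne' hg.symm h.ok.sum]
    simp only [ModelE, y1, z2, z3, hg, Fr.dl]
    ring
  · have e1 : PhiI n F 0 0 = VB1 n F.q := by
      simp only [PhiI, VB1, zero_mul, z0, mul_one]
      rfl
    rw [e1, intervalIntegral.integral_const_mul, intervalIntegral.integral_add (j1.add j2) j3,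
      intervalIntegral.integral_add j1 j2, intervalIntegral.integral_const_mul,
      intervalIntegral.integral_const_mul, intervalIntegral.integral_const_mul,
      intervalIntegral.integral_const_mul]
    change 2 * kh n / VB1 n F.q * VB1 n F.q + (0 * VB1 n F.q + B * (F.s ^ 2 *
      ((2 * n + 2) * VB1 n F.q) + F.X2 * VB2 n F.q + F.q1 * VB3 n F.q)) /
      (2 * kh n / VB1 n F.q) ≤ 4 * kh n
    generalize F.s ^ 2 * ((2 * n + 2) * VB1 n F.q) + F.X2 * VB2 n F.q + F.q1 * VB3 n F.q = S at *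
    have e2 : B * (VB1 n F.q * S) ≤ (2 * kh n) ^ 2 := by
      refine (mul_le_mul_of_nonneg_left hfin hB.le).trans (le_of_eq ?_)
      rw [hBdef]; field_simp
    have e3 : (0 * VB1 n F.q + B * S) / (2 * kh n / VB1 n F.q) ≤ 2 * kh n := by
      rw [div_div_eq_mul_div, div_le_iff₀ (by positivity)]
      linarith
    rw [div_mul_cancel₀ _ hV.ne']
    linarith

/-- Convex combination of the three vertices. -/
theorem vertex_comb {F : Fr} (hF : F.Ok) {v1 v2 v3 K η w : ℝ} (hK : 0 ≤ K) (hη : 0 ≤ η)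
    (h1 : v1 ≤ (1 + η) * K) (h2 : v2 ≤ (1 + η) * K) (h3 : v3 ≤ (1 - w) * K)
    (hw : 19 * η ≤ w) (hq : η = 0 ∨ 1 / 20 ≤ F.q1) :
    F.s ^ 2 * v1 + F.X2 * v2 + F.q1 * v3 ≤ K := by
  have h0 := hF.sum
  have a1 := mul_le_mul_of_nonneg_left h1 (sq_nonneg F.s)
  have a2 := mul_le_mul_of_nonneg_left h2 hF.X2_nonneg
  have a3 := mul_le_mul_of_nonneg_left h3 hF.q1_nonneg
  have a4 : (1 - F.q1) * η ≤ F.q1 * w := by
    rcases hq with hq | hq
    · rw [hq, mul_zero]
      exact mul_nonneg hF.q1_nonneg (by linarith)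
    · have b1 := mul_le_mul_of_nonneg_left hw hF.q1_nonneg
      have b2 := mul_le_mul_of_nonneg_right hq hη
      linarith
  have a5 := mul_le_mul_of_nonneg_right a4 hK
  have e : F.s ^ 2 * ((1 + η) * K) + F.X2 * ((1 + η) * K) = (1 - F.q1) * ((1 + η) * K) := by
    rw [← add_mul]; congr 1; linarith
  linarith

end Pool.Agent.Ped
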