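import Pool.Agent.P.MP_e09f5c_gt.KhN
import Pool.Agent.P.MP_e09f5c_gt.GlueB

/-! The vertex integrals for `5 ≤ n`. -/

open MeasureTheory Real

namespace Pool.Agent.Ped

variable {n : ℕ}

theorem bn_conv {k : ℕ} (hk : 2 ≤ k) {a b x y r : ℝ} (ha : 0 ≤ a) (hb : 0 ≤ b) (hab : a + b = 1)
    (hx : 0 ≤ x) (hy : 0 ≤ y) (hr : 0 ≤ r) (h : r ^ 2 = a * x ^ 2 + b * y ^ 2) :
    r ^ k ≤ a * x ^ k + b * y ^ k := by
  have hp : (1 : ℝ) ≤ (k : ℝ) / 2 := by
    have : (2 : ℝ) ≤ k := by exact_mod_cast hk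
    linarith
  have e : ∀ t : ℝ, 0 ≤ t → (t ^ 2) ^ ((k : ℝ) / 2) = t ^ k := fun t ht => by
    rw [← rpow_natCast t 2, ← rpow_mul ht, ← rpow_natCast]
    congr 1
    push_cast
    ring
  have h1 := (convexOn_rpow hp).2 (Set.mem_Ici.2 (sq_nonneg x)) (Set.mem_Ici.2 (sq_nonneg y))
    ha hb hab
  simp only [smul_eq_mul] at h1
  rwa [← h, e r hr, e x hx, e y hy] at h1

theorem bn_max (k : ℕ) {a b x y r : ℝ} (ha : 0 ≤ a) (hb : 0 ≤ b) (hab : a + b = 1)
    (hx : 0 ≤ x) (hy : 0 ≤ y) (hr : 0 ≤ r) (h : r ^ 2 = a * x ^ 2 + b * y ^ 2) :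
    r ^ k ≤ x ^ k + y ^ k := by
  have hx' := pow_nonneg hx k
  have hy' := pow_nonneg hy k
  rcases le_total x y with h1 | h1
  · have h2 := mul_le_mul_of_nonneg_left (pow_le_pow_left₀ hx h1 2) ha
    have h3 : r ^ 2 ≤ y ^ 2 := by linear_combination h + h2 + y ^ 2 * hab
    have := pow_le_pow_left₀ hr ((pow_le_pow_iff_left₀ hr hy two_ne_zero).1 h3) k
    linarith
  · have h2 := mul_le_mul_of_nonneg_left (pow_le_pow_left₀ hy h1 2) hb
    have h3 : r ^ 2 ≤ x ^ 2 := by linear_combination h + h2 + x ^ 2 * hab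
    have := pow_le_pow_left₀ hr ((pow_le_pow_iff_left₀ hr hx two_ne_zero).1 h3) k
    linarith

theorem bn_lin (k : ℕ) (a0 a1 : ℝ) :
    ∫ θ in (-π)..π, |cos θ| ^ k * (a0 + a1 * sin θ ^ 2) = WZ k 0 * (a0 + a1 / (k + 2)) := by
  have h := int_pow_poly k a0 a1 0
  simpa only [zero_mul, add_zero, mul_zero, zero_div] using h

theorem bn_int (m : ℕ) {f : ℝ → ℝ} (hf : Continuous f) (a0 a1 b0 b1 c1 d0 d1 : ℝ)
    (h : ∀ θ, f θ ≤ |cos θ| ^ (m + 4) * (a0 + a1 * sin θ ^ 2)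
      + |cos θ| ^ (m + 2) * (b0 + b1 * sin θ ^ 2) + |cos θ| ^ m * (0 + c1 * sin θ ^ 2)
      + |cos θ| ^ 0 * (d0 + d1 * sin θ ^ 2)) :
    ∫ θ in (-π)..π, f θ ≤ WZ (m + 4) 0 * (a0 + a1 / (m + 6)) + WZ (m + 2) 0 * (b0 + b1 / (m + 4))
      + WZ m 0 / (m + 2) * c1 + 2 * π * (d0 + d1 / 2) := by
  have hi : ∀ (k : ℕ) (x y : ℝ), IntervalIntegrable
      (fun θ => |cos θ| ^ k * (x + y * sin θ ^ 2)) volume (-π) π := fun k x y =>
    Continuous.intervalIntegrable (by fun_prop) _ _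
  have h12 := (hi (m + 4) a0 a1).add (hi (m + 2) b0 b1)
  have h123 := h12.add (hi m 0 c1)
  have h1 := intervalIntegral.integral_mono_on (by linarith [pi_pos] : -π ≤ π)
    (hf.intervalIntegrable _ _) (h123.add (hi 0 d0 d1)) fun θ _ => h θ
  rw [intervalIntegral.integral_add h123 (hi 0 d0 d1), intervalIntegral.integral_add h12 (hi m 0 c1),
    intervalIntegral.integral_add (hi (m + 4) a0 a1) (hi (m + 2) b0 b1), bn_lin, bn_lin, bn_lin,
    bn_lin, WZ_zero] at h1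
  refine h1.trans (le_of_eq ?_)
  push_cast
  ring

theorem bn_arg {q : ℝ} (h0 : 0 < q) (h1 : q ≤ 1 / 2) (θ : ℝ) :
    0 < (1 - q) * cos θ ^ 2 + q * sin θ ^ 2 := by
  have h := cos_sq_add_sin_sq θ
  have h2 := mul_nonneg (by linarith : 0 ≤ 1 - 2 * q) (sq_nonneg (cos θ))
  have : (1 - q) * cos θ ^ 2 + q * sin θ ^ 2 = (1 - 2 * q) * cos θ ^ 2 + q := by
    linear_combination q * h
  linarith

theorem bn_pos {q : ℝ} (h0 : 0 < q) (h1 : q ≤ 1 / 2) (θ : ℝ) : 0 < rq q θ :=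
  sqrt_pos.2 (bn_arg h0 h1 θ)

theorem bn_sq {q : ℝ} (h0 : 0 < q) (h1 : q ≤ 1 / 2) (θ : ℝ) :
    rq q θ ^ 2 = (1 - q) * cos θ ^ 2 + q * sin θ ^ 2 := sq_sqrt (bn_arg h0 h1 θ).le

theorem bn_half : √(1 / 2 : ℝ) ^ 2 = 1 / 2 := sq_sqrt (by norm_num)

theorem bn_mean {q : ℝ} (h0 : 0 < q) (h1 : q ≤ 1 / 2) (θ : ℝ) :
    rq q θ ^ 2 = (1 - 2 * q) * |cos θ| ^ 2 + 2 * q * √(1 / 2) ^ 2 := by
  rw [bn_sq h0 h1, bn_half, sq_abs]
  linear_combination q * cos_sq_add_sin_sq θ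

theorem bn_r4 {q : ℝ} (h0 : 0 < q) (h1 : q ≤ 1 / 2) (m : ℕ) (θ : ℝ) :
    rq q θ ^ (m + 4) ≤ (1 - 2 * q) * |cos θ| ^ (m + 4) + 2 * q * √(1 / 2) ^ (m + 4) :=
  bn_conv (by omega) (by linarith) (by linarith) (by ring) (abs_nonneg _) (sqrt_nonneg _)
    (bn_pos h0 h1 θ).le (bn_mean h0 h1 θ)

theorem bn_r2 {q : ℝ} (h0 : 0 < q) (h1 : q ≤ 1 / 2) (m : ℕ) (θ : ℝ) :
    rq q θ ^ (m + 2) ≤ (1 - 2 * q) * |cos θ| ^ (m + 2) + 4 * q * √(1 / 2) ^ (m + 4) := by
  have h := bn_conv (k := m + 2) (by omega) (by linarith) (by linarith) (by ring) (abs_nonneg _)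
    (sqrt_nonneg _) (bn_pos h0 h1 θ).le (bn_mean h0 h1 θ)
  rw [show m + 4 = m + 2 + 2 by ring, pow_add _ (m + 2) 2, bn_half]
  linarith

theorem bn_r0 {q : ℝ} (h0 : 0 < q) (h1 : q ≤ 1 / 2) (m : ℕ) (θ : ℝ) :
    rq q θ ^ m ≤ |cos θ| ^ m + 4 * √(1 / 2) ^ (m + 4) := by
  have h := bn_max m (by linarith) (by linarith) (by ring) (abs_nonneg _)
    (sqrt_nonneg _) (bn_pos h0 h1 θ).le (bn_mean h0 h1 θ)
  rw [show m + 4 = m + 2 + 2 by ring, pow_add _ (m + 2) 2, pow_add _ m 2, bn_half]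
  linarith

theorem bN_bounds (hn : 5 ≤ n) {q : ℝ} (h0 : 0 < q) (h1 : q ≤ 1 / 2) :
    (0 ≤ VB1 n q ∧ VB1 n q ≤ (1 - 47 / 50 * q) * WZ n 0) ∧ VB2 n q ≤ (2 * n + 2) * WZ n 0 ∧
    VB3 n q ≤ (53 / 50 * n + 23 / 5) * WZ n 0 := by
  have hE := WZ_half hn
  have hI := WZ_pos n
  obtain ⟨m, rfl⟩ : ∃ m, n = m + 4 := ⟨n - 4, by omega⟩
  have hm : (1 : ℝ) ≤ m := by exact_mod_cast (by omega : 1 ≤ m)
  have hr := bn_pos h0 h1
  have cr : Continuous (rq q) := by unfold rq; fun_prop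
  have eI : WZ (m + 4) 0 = WZ (m + 2) 0 * (m + 3) / (m + 4) := by
    rw [show m + 4 = m + 2 + 2 by ring, WZ_add_two]
    push_cast
    ring
  have eJ := WZ_add_two m
  have hJ0 := WZ_pos (m + 2)
  set I := WZ (m + 4) 0 with hIdef
  set J := WZ (m + 2) 0 with hJdef
  set H := √(1 / 2 : ℝ) ^ (m + 4) with hH
  have hH0 : 0 ≤ H := by positivity
  have hE0 : 0 ≤ 2 * π * H := by positivity
  have hJ : J ≤ 5 / 4 * I := by
    rw [eI, ← mul_div_assoc, le_div_iff₀ (by linarith)]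
    have := mul_le_mul_of_nonneg_left hm hJ0.le
    linarith
  set u : ℝ := (((m + 4 : ℕ) : ℝ) + 3) / ((m + 4 : ℕ) : ℝ) with hu
  have hu' : u = (m + 7) / (m + 4) := by rw [hu]; push_cast; ring
  have hu0 : 0 ≤ u := by positivity
  have hu1 : u ≤ 8 / 5 := by rw [hu', div_le_iff₀ (by linarith)]; linarith
  have hu2 : u * (m + 4) = m + 7 := by rw [hu']; field_simp
  have hq2 : 0 ≤ 1 - 2 * q := by linarith
  have e2 : m + 4 - 2 = m + 2 := rfl
  have e3 : ∀ x θ : ℝ, x * rq q θ ^ (m + 4 - 3) / rq q θ = x * rq q θ ^ m := fun x θ => by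
    rw [show m + 4 - 3 = m + 1 from rfl, pow_succ, ← mul_assoc, mul_div_cancel_right₀ _ (hr θ).ne']
  have d6 : ((m : ℝ) + 6) / (m + 6) = 1 := div_self (by linarith)
  have d4 : ((m : ℝ) + 4) / (m + 4) = 1 := div_self (by linarith)
  refine ⟨⟨intervalIntegral.integral_nonneg (by linarith [pi_pos]) fun θ _ =>
    pow_nonneg (hr θ).le _, ?_⟩, ?_, ?_⟩
  · refine (bn_int m (f := fun θ => rq q θ ^ (m + 4)) (by fun_prop) (1 - 2 * q) 0 0 0 0
      (2 * q * H) 0 fun θ => ?_).trans ?_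
    · have := bn_r4 h0 h1 m θ
      linarith
    · have := mul_le_mul_of_nonneg_left hE h0.le
      rw [← hIdef, ← hJdef]
      simp only [zero_div, add_zero, mul_zero]
      linarith
  · unfold VB2
    simp only [e2, e3, ← hu]
    refine (bn_int m (by fun_prop) ((1 - 2 * q) * (2 * m + 11)) (-(1 - 2 * q) * (m + 6))
      ((m + 7) * q * (1 - 2 * q)) 0 0
      (2 * q * H * (3 * m + 15) + 4 * (m + 7) * q ^ 2 * H) (-(2 * q * H * (3 * m + 14)))
      fun θ => ?_).trans ?_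
    · have hc := cos_sq_add_sin_sq θ
      have hc0 := sq_nonneg (cos θ)
      have a1 := mul_le_mul_of_nonneg_right (bn_r4 h0 h1 m θ)
        (by positivity : 0 ≤ ((m : ℝ) + 6) * cos θ ^ 2 + 1)
      have a2 := mul_le_mul_of_nonneg_left (bn_r2 h0 h1 m θ)
        (by positivity : 0 ≤ ((m : ℝ) + 4) * cos θ ^ 2)
      have a3 := mul_le_mul_of_nonneg_left (bn_r2 h0 h1 m θ)
        (by positivity : 0 ≤ ((m : ℝ) + 7) * q)
      have a4 : (1 - q) * cos θ ^ 2 * rq q θ ^ m ≤ rq q θ ^ (m + 2) := by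
        rw [pow_add, mul_comm (rq q θ ^ m), bn_sq h0 h1]
        exact mul_le_mul_of_nonneg_right (le_add_of_nonneg_right (by positivity))
          (pow_nonneg (hr θ).le m)
      have a5 := mul_le_mul_of_nonneg_left a4 (by positivity : 0 ≤ u * ((m : ℝ) + 3) * q)
      have a6 : cos θ ^ 2 * |cos θ| ^ (m + 2) = |cos θ| ^ (m + 4) := by
        rw [← sq_abs (cos θ)]
        ring
      have hz : sin θ ^ 2 = 1 - cos θ ^ 2 := by linarith
      rw [← hH] at a1 a2 a3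
      rw [hz]
      push_cast
      linear_combination a1 + a2 + a3 + a5 + (q * rq q θ ^ (m + 2)) * hu2
        + ((m + 4) * (1 - 2 * q)) * a6
    · rw [← hIdef, ← hJdef, mul_div_assoc, d6]
      have b1 := mul_le_mul_of_nonneg_left hJ (by positivity : 0 ≤ ((m : ℝ) + 7) * q * (1 - 2 * q))
      have b2 := mul_le_mul_of_nonneg_left hE
        (by positivity : 0 ≤ q * (3 * (m : ℝ) + 16) + 4 * (m + 7) * q ^ 2)
      have b3 : 0 ≤ q * I := by positivity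
      have b4 : 0 ≤ m * (q * I) := by positivity
      have b5 : 0 ≤ (m + 7) * q * (q * I) := by positivity
      simp only [zero_div, add_zero, mul_zero]
      push_cast
      linarith
  · unfold VB3
    simp only [e2, e3, ← hu]
    refine (bn_int m (by fun_prop) (1 - 2 * q) ((1 - 2 * q) * (m + 6))
      (u * (1 - 2 * q)) ((1 - 2 * q) * (m + 4)) (u * (m + 3) / 4)
      (2 * q * H + 4 * u * q * H) (2 * q * H * (3 * m + 14) + u * (m + 3) * H)
      fun θ => ?_).trans ?_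
    · have a1 := mul_le_mul_of_nonneg_right (bn_r4 h0 h1 m θ)
        (by positivity : 0 ≤ ((m : ℝ) + 6) * sin θ ^ 2 + 1)
      have a2 := mul_le_mul_of_nonneg_left (bn_r2 h0 h1 m θ)
        (by positivity : 0 ≤ ((m : ℝ) + 4) * sin θ ^ 2)
      have a3 := mul_le_mul_of_nonneg_left (bn_r2 h0 h1 m θ) hu0
      have a4 : 0 ≤ u * q * rq q θ ^ (m + 2) := by have := hr θ; positivity
      have a5 := mul_le_mul_of_nonneg_left (bn_r0 h0 h1 m θ)
        (by positivity : 0 ≤ u * ((m : ℝ) + 3) / 4 * sin θ ^ 2)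
      have a6 : 0 ≤ u * ((m : ℝ) + 3) * sin θ ^ 2 * rq q θ ^ m * (q - 1 / 2) ^ 2 := by
        have := hr θ; positivity
      rw [← hH] at a1 a2 a3 a5
      push_cast
      linear_combination a1 + a2 + a3 + a4 + a5 + a6
    · rw [← hIdef, ← hJdef, mul_div_assoc, mul_div_assoc (1 - 2 * q), d6, d4]
      have b0 : WZ m 0 / (m + 2) * (u * (m + 3) / 4) ≤ I := by
        have c1 : WZ m 0 / (m + 2) = J / (m + 1) := by
          rw [eJ]
          field_simp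
        have c2 : J / (m + 1) * (u * (m + 3) / 4) = I * (m + 7) / (4 * (m + 1)) := by
          rw [eI, hu']
          field_simp
        rw [c1, c2, div_le_iff₀ (by linarith)]
        exact mul_le_mul_of_nonneg_left (by linarith) hI.le
      have b1 : J * ((1 + u) * (1 - 2 * q)) ≤ 5 / 4 * I * (13 / 5 * (1 - 2 * q)) :=
        mul_le_mul hJ (mul_le_mul_of_nonneg_right (by linarith) hq2) (by positivity)
          (by positivity)
      have b2 : 2 * π * H * (q * (3 * m + 16) + 4 * q * u + u * (m + 3) / 2)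
          ≤ 53 / 100 * I * (q * (3 * m + 16) + 4 * q * (8 / 5) + (m + 6) / 2) := by
        refine mul_le_mul hE ?_ (by positivity) (by positivity)
        have := mul_le_mul_of_nonneg_left hu1 h0.le
        have h3 : 1 ≤ u := by rw [hu', le_div_iff₀ (by linarith)]; linarith
        linarith
      have b3 : 0 ≤ q * I := by positivity
      have b4 : 0 ≤ (1 - 2 * q) * I := by positivity
      have b5 : 0 ≤ (m - 1) * ((1 - 2 * q) * I) := mul_nonneg (by linarith) b4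
      push_cast
      linarith

theorem caseBN (hn : 5 ≤ n) {X V : Mat n} {F : Fr} (h : NF X V F)
    (hq : 1 / (4 * (n : ℝ) ^ 2) ≤ F.q ∨ 1 / 20 ≤ F.q1) :
    gauss (crof X V (ez n F.s)) ≤ kap (n + 1) := by
  have h0 := h.ok.q_pos
  have h1 := h.ok.q_le
  obtain ⟨⟨v0, v1⟩, v2, v3⟩ := bN_bounds hn h0 h1
  have hK := kh_sq hn
  have hI := WZ_pos n
  have hN : (5 : ℝ) ≤ n := by exact_mod_cast hn
  set I := WZ n 0 with hIdef
  set K : ℝ := (2 * n + 3) * (2 * kh n) ^ 2 with hKdef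
  have hK0 : 0 ≤ K := by positivity
  have hqI : 0 ≤ F.q * I := by positivity
  have w1 : VB1 n F.q * ((2 * n + 2) * VB1 n F.q) ≤ (1 - 47 / 50 * F.q) * I * ((2 * n + 2) * I) :=
    mul_le_mul v1 (mul_le_mul_of_nonneg_left (by linarith) (by positivity)) (by positivity)
      (v0.trans v1)
  have w2 : VB1 n F.q * VB2 n F.q ≤ (1 - 47 / 50 * F.q) * I * ((2 * n + 2) * I) :=
    (mul_le_mul_of_nonneg_left v2 v0).trans (mul_le_mul_of_nonneg_right v1 (by positivity))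
  have w3 : VB1 n F.q * VB3 n F.q ≤ (1 - 47 / 50 * F.q) * I * ((53 / 50 * n + 23 / 5) * I) :=
    (mul_le_mul_of_nonneg_left v3 v0).trans (mul_le_mul_of_nonneg_right v1 (by positivity))
  have hI2 : 0 ≤ I ^ 2 := sq_nonneg I
  have hA : 0 ≤ (2 * (n : ℝ) + 2) * I ^ 2 := by positivity
  refine glueB (by omega) h ?_
  rw [show VB1 n F.q * (F.s ^ 2 * ((2 * n + 2) * VB1 n F.q) + F.X2 * VB2 n F.q
      + F.q1 * VB3 n F.q) = F.s ^ 2 * (VB1 n F.q * ((2 * n + 2) * VB1 n F.q))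
      + F.X2 * (VB1 n F.q * VB2 n F.q) + F.q1 * (VB1 n F.q * VB3 n F.q) by ring]
  rcases hq with hq | hq
  · have a1 : 4 / 25 / (n : ℝ) ^ 2 ≤ 47 / 50 * F.q := by
      have e : 4 / 25 / (n : ℝ) ^ 2 = 16 / 25 * (1 / (4 * (n : ℝ) ^ 2)) := by
        field_simp
        ring
      linarith
    have a2 := mul_le_mul_of_nonneg_right a1 hA
    have a3 : (1 - 47 / 50 * F.q) * I * ((2 * n + 2) * I) ≤ K := by linarith
    have a4 : (1 - 47 / 50 * F.q) * I * ((53 / 50 * n + 23 / 5) * I)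
        ≤ (1 - 47 / 50 * F.q) * I * ((2 * n + 2) * I) :=
      mul_le_mul_of_nonneg_left (mul_le_mul_of_nonneg_right (by linarith) hI.le) (v0.trans v1)
    exact vertex_comb h.ok (η := 0) (w := 0) hK0 le_rfl (by linarith) (by linarith) (by linarith)
      (by norm_num) (Or.inl rfl)
  · have a1 : 4 / 25 / (n : ℝ) ^ 2 ≤ 4 / 625 := by
      rw [div_le_iff₀ (by positivity)]
      nlinarith
    have a2 := mul_le_mul_of_nonneg_right a1 hA
    have a3 : 0 ≤ F.q * ((2 * (n : ℝ) + 2) * I ^ 2) := by positivity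
    have a4 : 0 ≤ F.q * ((53 / 50 * (n : ℝ) + 23 / 5) * I ^ 2) := by positivity
    have a5 := mul_le_mul_of_nonneg_right hN hI2
    exact vertex_comb h.ok (η := 13 / 2000) (w := 247 / 2000) hK0 (by norm_num) (by linarith)
      (by linarith) (by linarith) (by norm_num) (Or.inr hq)

end Pool.Agent.Ped
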