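import Pool.Agent.P.MP_e09f5c_gt.Star

/-! Definitions for the proof of the core inequality. Here `N = n + 1`. -/

open MeasureTheory Metric Set Matrix
open scoped InnerProductSpace ENNReal

namespace Pool.Agent.Ped

variable {n : ℕ}

/-- Real Gaussian integral. -/
noncomputable def Gi (f : E n → ℝ) : ℝ := ∫ Y, f Y * Real.exp (-‖Y‖ ^ 2 / 2)

/-- Squared norm of the last `n` coordinates. -/
noncomputable def lam2 (Y : E n) : ℝ := ∑ j, tail Y j ^ 2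

/-- The reference weight. -/
noncomputable def den (a b : ℝ) (Y : E n) : ℝ := Real.sqrt (‖Y‖ ^ 2 - (a * Y 0 + b * Y 1) ^ 2)

/-- Weighted moment of a quartic form. -/
noncomputable def mom (a b : ℝ) (f : E n → ℝ) : ℝ :=
  Gi fun Y => |Y 0| ^ (n - 1) * f Y / den a b Y

/-- The main term. -/
noncomputable def phi (n : ℕ) (a b : ℝ) : ℝ := Gi fun Y : E n => |Y 0| ^ (n + 1) * den a b Y

/-- A list of moments. -/
structure Mo where
  Wr : ℝ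
  Be : ℝ
  Bl : ℝ
  mup : ℝ
  m22 : ℝ
  m40 : ℝ
  e1 : ℝ
  e2 : ℝ

/-- The moments for the reference direction `(a, b)`. -/
noncomputable def mo (n : ℕ) (a b : ℝ) : Mo where
  Wr := mom a b fun Y : E n => Y 0 ^ 4
  Be := mom a b fun Y : E n => Y 0 ^ 2 * Y 1 ^ 2
  Bl := (mom a b fun Y : E n => Y 0 ^ 2 * lam2 Y) / n
  mup := (mom a b fun Y : E n => lam2 Y ^ 2) / n
  m22 := (mom a b fun Y : E n => Y 1 ^ 2 * lam2 Y) / n
  m40 := mom a b fun Y : E n => Y 1 ^ 4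
  e1 := mom a b fun Y : E n => Y 0 ^ 3 * Y 1
  e2 := mom a b fun Y : E n => Y 0 * Y 1 * lam2 Y

/-- The unit in which the moments are measured. -/
noncomputable def U0 (n : ℕ) : ℝ := phi n 0 0

/-- The normalised main term. -/
noncomputable def nphi (n : ℕ) (a b : ℝ) : ℝ := phi n a b / U0 n

/-- The normalised moments. -/
noncomputable def nmo (n : ℕ) (a b : ℝ) : Mo where
  Wr := (mo n a b).Wr / U0 n
  Be := (mo n a b).Be / U0 n
  Bl := (mo n a b).Bl / U0 n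
  mup := (mo n a b).mup / U0 n
  m22 := (mo n a b).m22 / U0 n
  m40 := (mo n a b).m40 / U0 n
  e1 := (mo n a b).e1 / U0 n
  e2 := (mo n a b).e2 / U0 n

/-- The normalised Crofton constant. -/
noncomputable def kh (n : ℕ) : ℝ := (kap (n + 1)).toReal / U0 n

/-- Square matrices of size `n + 1`. -/
abbrev Mat (n : ℕ) := Matrix (Fin (n + 1)) (Fin (n + 1)) ℝ

/-- The last `n + 1` coordinates. -/
def eta (Y : E n) : Fin (n + 1) → ℝ := fun i => Y i.succ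

/-- The vector `s e₀`. -/
def ez (n : ℕ) (s : ℝ) : Fin (n + 1) → ℝ := Pi.single 0 s

/-- The integral over a slice of fixed angle. -/
noncomputable def Jst (S T : Mat n) (s : ℝ) : ℝ≥0∞ :=
  gauss fun Y : E n => |Y 0| * Real.sqrt (Y 0 ^ 2 • (Sᵀ * S)
    + vecMulVec (Sᵀ *ᵥ eta Y) (Sᵀ *ᵥ eta Y)
    + vecMulVec (Tᵀ *ᵥ eta Y - Y 0 • ez n s) (Tᵀ *ᵥ eta Y - Y 0 • ez n s)).det

/-- The quartic form. -/
noncomputable def Qquart (a₀ m₀ : ℝ) (M : Mat n) (Y : E n) : ℝ :=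
  ‖Y‖ ^ 2 * (a₀ ^ 2 * Y 0 ^ 2 + (M *ᵥ eta Y - Y 0 • ez n m₀) ⬝ᵥ (M *ᵥ eta Y - Y 0 • ez n m₀))
    - (eta Y ⬝ᵥ (M *ᵥ eta Y - Y 0 • ez n m₀)) ^ 2

/-- Mean of the diagonal entries of the lower right block. -/
noncomputable def kbar (M : Mat n) : ℝ := (∑ j : Fin n, M j.succ j.succ) / n

/-- Upper bound for the weighted average of the quartic form. -/
noncomputable def Qf (m : Mo) (ε a₀ m₀ : ℝ) (M : Mat n) : ℝ :=
  a₀ ^ 2 * (m.Wr + m.Be + n * m.Bl) + m₀ ^ 2 * (m.Wr + n * m.Bl)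
    + 2 * ε * m₀ * (M 0 0 * m.e1 + (M 0 0 - kbar M) * m.e2)
    + m.Be * (M 0 0 ^ 2 + ∑ j : Fin n, M j.succ 0 ^ 2)
    + m.Bl * (∑ j : Fin n, M 0 j.succ ^ 2 + ∑ i : Fin n, ∑ j : Fin n, M i.succ j.succ ^ 2)
    + n * m.m22 * (M 0 0 - kbar M) ^ 2 + m.mup * ∑ j : Fin n, M 0 j.succ ^ 2
    - 2 * m.m22 * ∑ j : Fin n, M 0 j.succ * M j.succ 0
    + (m.m40 + (n - 1) * m.m22) * ∑ j : Fin n, M j.succ 0 ^ 2
    + (m.mup + m.m22) * (∑ i : Fin n, ∑ j : Fin n, M i.succ j.succ ^ 2 - n * kbar M ^ 2)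

/-- The columns of positive index. -/
def rest (S : Mat n) : Matrix (Fin (n + 1)) (Fin n) ℝ := S.submatrix id Fin.succ

/-- Normalisation of a frame. -/
def Unit1 (S T : Mat n) (s : ℝ) : Prop :=
  Sᵀ * S + Tᵀ * T + vecMulVec (ez n s) (ez n s) = 1

/-- Triangular normal form. -/
structure Tri (S : Mat n) : Prop where
  pos0 : 0 < S 0 0
  row : ∀ j : Fin n, S 0 j.succ = 0
  off : ∀ i j : Fin n, i ≠ j → S i.succ j.succ = 0
  pos : ∀ j : Fin n, 0 < S j.succ j.succ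

/-- The invariants of a pair of matrices. -/
structure Inv where
  a2 : ℝ
  da2 : ℝ
  D2 : ℝ
  dD2 : ℝ
  g1 : ℝ
  P1 : ℝ
  h1 : ℝ
  trG : ℝ
  trH : ℝ

/-- The invariants of `(S, T)`. -/
noncomputable def inv (S T : Mat n) : Inv where
  a2 := S.det ^ 2
  da2 := 2 * S.det * (S.adjugate * T).trace
  D2 := ((rest S)ᵀ * rest S).det
  dD2 := 2 * (((rest S)ᵀ * rest S).adjugate * ((rest S)ᵀ * rest T)).trace
  g1 := ∑ i, S i 0 ^ 2
  P1 := ∑ i, T i 0 ^ 2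
  h1 := ∑ i, S i 0 * T i 0
  trG := ∑ i, ∑ j : Fin n, S i j.succ ^ 2
  trH := ∑ i, ∑ j : Fin n, S i j.succ * T i j.succ

/-- Scalar data of a normalised frame. -/
structure Fr where
  q : ℝ
  s : ℝ
  X2 : ℝ
  q1 : ℝ
  γ : ℝ

/-- Constraints on the scalar data. -/
structure Fr.Ok (F : Fr) : Prop where
  q_pos : 0 < F.q
  q_le : F.q ≤ 1 / 2
  s_nonneg : 0 ≤ F.s
  X2_nonneg : 0 ≤ F.X2
  q1_nonneg : 0 ≤ F.q1
  sum : F.s ^ 2 + F.X2 + F.q1 = 1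
  cs : F.γ ^ 2 ≤ F.X2 * F.q1

namespace Fr

variable (F : Fr) (co si : ℝ)

noncomputable def gb : ℝ := (1 - F.q) * co ^ 2 + F.q * si ^ 2
noncomputable def ka : ℝ := (2 * F.q - 1) * (si * co) / F.gb co si
noncomputable def dl : ℝ := (1 - F.q) * F.q
noncomputable def g1 : ℝ := F.X2 * co ^ 2 + F.q1 * si ^ 2 + 2 * (si * co) * F.γ
noncomputable def P1 : ℝ := F.X2 * si ^ 2 + F.q1 * co ^ 2 - 2 * (si * co) * F.γ
noncomputable def h1 : ℝ := (F.q1 - F.X2) * (si * co) + F.γ * (co ^ 2 - si ^ 2)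

end Fr

/-- A normalised frame with adapted axes and its scalar data. -/
structure NF (X V : Mat n) (F : Fr) : Prop where
  ok : F.Ok
  unit : Unit1 X V F.s
  axis : ∑ i, ∑ j : Fin n, X i j.succ * V i j.succ = 0
  hq : ∑ i, ∑ j : Fin n, V i j.succ ^ 2 = n * F.q
  hX : ∑ i, X i 0 ^ 2 = F.X2
  hV : ∑ i, V i 0 ^ 2 = F.q1
  hγ : ∑ i, X i 0 * V i 0 = F.γ
  inv : ∀ᵐ θ : ℝ, (Real.cos θ • X + Real.sin θ • V).det ≠ 0

/-- Values at one angle of the free functions and of their derivatives in `z = sin ^ 2`. -/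
structure Ch where
  Ca : ℝ
  Cz : ℝ
  fb : ℝ
  kk : ℝ
  ph : ℝ
  pz : ℝ

/-- Auxiliary numbers at one angle. -/
structure Aux where
  E1 : ℝ
  E2 : ℝ
  ε3 : ℝ
  ε4 : ℝ
  x : ℝ
  x' : ℝ
  Y : ℝ
  mm : ℝ
  m' : ℝ

section Expr

variable (n : ℕ) (F : Fr) (m : Mo) (C : Ch) (A : Aux) (co si : ℝ)

/-- Coefficient of `a ^ 2` after the integration by parts. -/
noncomputable def Aa : ℝ :=
  m.Wr - A.E2 + C.Ca * (F.dl / F.gb co si ^ 2 - n - 2) + 2 * F.ka co si * (si * co) * C.Cz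

noncomputable def Wexp : ℝ := Aa n F m C A co si + (m.Bl + A.E2 / n + C.Ca) * A.m'

noncomputable def Gexp : ℝ :=
  F.g1 co si * (Aa n F m C A co si + C.fb * (F.dl / F.gb co si ^ 2 - (n + 1) - F.ka co si ^ 2)
      + A.mm * (m.Bl + A.E2 / n + C.Ca + C.fb))
    + 2 * F.ka co si * C.fb * F.h1 co si
    + (m.Be + C.Ca) * (F.g1 co si + F.P1 co si) + F.s ^ 2 * (m.Wr + n * m.Bl)
    + A.E2 * F.X2 * si ^ 2
    + (A.E1 + A.E2) * (F.g1 co si - F.X2 * co ^ 2 - 2 * si ^ 2 * F.X2)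
    + F.X2 * C.kk * (F.gb co si * si ^ 2
          * (F.dl / F.gb co si ^ 2 - (n + 1) - F.ka co si ^ 2 + A.mm)
        + 2 * F.ka co si * (si * co) * (F.gb co si + si ^ 2 * (2 * F.q - 1)))
    + C.ph * F.P1 co si
        * ((n + 1) * (si ^ 2 - co ^ 2) + n * F.ka co si * (si * co) + A.mm * co ^ 2)
    + 2 * (si * co) * C.ph * F.h1 co si - 2 * si ^ 2 * co ^ 2 * C.pz * F.P1 co si

/-- The value of the bound at the model. -/
noncomputable def Model : ℝ :=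
  F.g1 co si * (m.Wr - A.E2 + (n * m.Bl + A.E2) / F.gb co si) + m.Be * (1 - F.s ^ 2)
    + F.s ^ 2 * (m.Wr + n * m.Bl) + A.E2 * F.X2 * si ^ 2
    + (A.E1 + A.E2) * (F.g1 co si - F.X2 * co ^ 2 - 2 * si ^ 2 * F.X2)
    + C.Ca * (F.P1 co si - 2 * F.ka co si * F.h1 co si + F.ka co si ^ 2 * F.g1 co si)
    + ((C.Ca + C.fb) * F.g1 co si + C.kk * F.gb co si * si ^ 2 * F.X2) * n * F.dl / F.gb co si ^ 2
    + C.ph * F.P1 co si * n * F.q / F.gb co si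
    + A.Y * F.ka co si ^ 2 * F.g1 co si * n * F.dl / F.gb co si

/-- The even part of the model value. -/
noncomputable def ModelE : ℝ :=
  (F.X2 * co ^ 2 + F.q1 * si ^ 2) * (m.Wr - A.E2 + (n * m.Bl + A.E2) / F.gb co si)
    + m.Be * (1 - F.s ^ 2) + F.s ^ 2 * (m.Wr + n * m.Bl) + A.E2 * F.X2 * si ^ 2
    + (A.E1 + A.E2) * (F.q1 * si ^ 2 - 2 * si ^ 2 * F.X2)
    + C.Ca * ((1 - F.q) ^ 2 * co ^ 2 * F.q1 + F.q ^ 2 * si ^ 2 * F.X2) / F.gb co si ^ 2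
    + ((C.Ca + C.fb) * (F.X2 * co ^ 2 + F.q1 * si ^ 2) + C.kk * F.gb co si * si ^ 2 * F.X2)
        * n * F.dl / F.gb co si ^ 2
    + C.ph * (F.X2 * si ^ 2 + F.q1 * co ^ 2) * n * F.q / F.gb co si
    + A.Y * F.ka co si ^ 2 * (F.X2 * co ^ 2 + F.q1 * si ^ 2) * n * F.dl / F.gb co si

/-- Coefficient of the derivative of `a ^ 2`. -/
noncomputable def u1 : ℝ := -F.ka co si * C.Ca

/-- Coefficient of the derivative of `D ^ 2`. -/
noncomputable def u2 : ℝ :=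
  -F.ka co si * (C.fb * F.g1 co si + C.kk * F.gb co si * si ^ 2 * F.X2)
    + si * co * C.ph * F.P1 co si

/-- The derivative of `u1 / t`, multiplied by `t = gb ^ (n / 2)`. -/
noncomputable def du1 : ℝ :=
  -(F.dl / F.gb co si ^ 2 - 1 - F.ka co si ^ 2) * C.Ca - F.ka co si * (2 * (si * co) * C.Cz)
    - n * F.ka co si * u1 F C co si

/-- The derivative of `u2 / t`, multiplied by `t = gb ^ (n / 2)`. -/
noncomputable def du2 : ℝ :=
  -(F.dl / F.gb co si ^ 2 - 1 - F.ka co si ^ 2)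
      * (C.fb * F.g1 co si + C.kk * F.gb co si * si ^ 2 * F.X2)
    - F.ka co si * (C.fb * (2 * F.h1 co si)
        + C.kk * (2 * (si * co) * (F.gb co si + si ^ 2 * (2 * F.q - 1))) * F.X2)
    + (co ^ 2 - si ^ 2) * C.ph * F.P1 co si + si * co * (2 * (si * co) * C.pz) * F.P1 co si
    - si * co * C.ph * (2 * F.h1 co si) - n * F.ka co si * u2 F C co si

/-- The total derivative term, multiplied by `t`. -/
noncomputable def Ups (I : Inv) : ℝ :=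
  du1 n F C co si * (I.a2 - F.g1 co si * F.gb co si ^ n)
    + u1 F C co si
      * (I.da2 - (2 * F.h1 co si + 2 * n * F.ka co si * F.g1 co si) * F.gb co si ^ n)
    + du2 n F C co si * (I.D2 - F.gb co si ^ n)
    + u2 F C co si * (I.dD2 - 2 * n * F.ka co si * F.gb co si ^ n)

/-- The conditions at one angle. -/
structure Cond : Prop where
  he1 : F.s * m.e1 = Real.sqrt F.X2 * |si| * A.E1
  he2 : F.s * m.e2 = Real.sqrt F.X2 * |si| * A.E2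
  E1_nonneg : 0 ≤ A.E1
  E2_nonneg : 0 ≤ A.E2
  Bl_nonneg : 0 ≤ m.Bl
  m22_nonneg : 0 ≤ m.m22
  ε3_nonneg : 0 ≤ A.ε3
  hε3 : m.Be - (m.Bl + A.E2 / n) ≤ A.ε3
  ε4_nonneg : 0 ≤ A.ε4
  hε4 : m.Bl - m.Be ≤ A.ε4
  x_pos : 0 < A.x
  x'_pos : 0 < A.x'
  Ca1 : m.mup + A.x * m.m22 + A.ε4 + 2 * A.ε3 ≤ C.Ca
  Ca2 : n * m.m22 * (1 + A.x') + 2 * A.ε3 ≤ C.Ca
  fb_nonneg : 0 ≤ C.fb
  Cb1 : m.m40 + (n - 1) * m.m22 + m.m22 / A.x + A.ε3 ≤ C.Ca + C.fb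
  Cb2 : m.mup + m.m22 ≤ C.Ca + C.fb
  Cb3 : m.m22 * (1 + 1 / A.x') ≤ C.Ca + C.fb
  hY : 2 * A.ε3 ≤ A.Y
  hph : 2 * (A.E1 + A.E2) ≤ C.ph
  kk_nonneg : 0 ≤ C.kk
  hm' : A.m' ≤ max ((n : ℝ) - 1) (((n : ℝ) - 1) ^ 2 / (n * F.gb co si))
  hmm : A.mm ≤ max ((n : ℝ) - 2) (((n : ℝ) - 2) ^ 2 / (n * F.gb co si))
  W_nonneg : 0 ≤ Wexp n F m C A co si
  hW : (A.E1 + A.E2) ^ 2 ≤ C.kk * F.gb co si * Wexp n F m C A co si
  hG : 0 ≤ Gexp n F m C A co si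

end Expr

end Pool.Agent.Ped
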