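import Pool.Agent.P.MP_e09f5c_gt.Defs

/-! Frames in coordinates. -/

open MeasureTheory Metric Set Matrix Filter Topology
open scoped InnerProductSpace ENNReal

namespace Pool.Agent.Ped

variable {N : ℕ}

theorem exists_basis {x v : E N} (hx : ‖x‖ = 1) (hv : ‖v‖ = 1) (hxv : ⟪x, v⟫_ℝ = 0) :
    ∃ b : OrthonormalBasis (Fin (N + 2)) ℝ (E N), b 0 = x ∧ b 1 = v := by
  classical
  let f : Fin (N + 2) → E N := fun i => if i = 0 then x else v
  let s : Set (Fin (N + 2)) := {0, 1}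
  have h01 : (1 : Fin (N + 2)) ≠ 0 := by simp
  have hvx : ⟪v, x⟫_ℝ = 0 := by rw [real_inner_comm]; exact hxv
  have horth : Orthonormal ℝ (s.restrict f) := by
    constructor
    · rintro ⟨i, hi⟩
      rcases hi with rfl | rfl
      · change ‖f 0‖ = 1
        simp [f, hx]
      · change ‖f 1‖ = 1
        simp [f, hv]
    · rintro ⟨i, hi⟩ ⟨j, hj⟩ hij
      rcases hi with rfl | rfl <;> rcases hj with rfl | rfl
      · exact absurd rfl hij
      · change ⟪f 0, f 1⟫_ℝ = 0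
        simp [f, hxv]
      · change ⟪f 1, f 0⟫_ℝ = 0
        simp [f, hvx]
      · exact absurd rfl hij
  obtain ⟨b, hb⟩ := horth.exists_orthonormalBasis_extension_of_card_eq (by simp)
  refine ⟨b, ?_, ?_⟩
  · rw [hb 0 (by simp [s])]; simp [f]
  · rw [hb 1 (by simp [s])]; simp [f]

/-- The matrix of an operator in an orthonormal basis. -/
noncomputable def coMat (b : OrthonormalBasis (Fin (N + 2)) ℝ (E N)) (T : E N →L[ℝ] E N) :
    Matrix (Fin (N + 2)) (Fin (N + 2)) ℝ := fun i j => ⟪b i, T (b j)⟫_ℝ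

theorem co_det_eq_mat (b : OrthonormalBasis (Fin (N + 2)) ℝ (E N)) (T : E N →L[ℝ] E N) :
    LinearMap.det T.toLinearMap = (coMat b T).det := by
  rw [← LinearMap.det_toMatrix b.toBasis]
  congr 1
  ext i j
  rw [LinearMap.toMatrix_apply]
  simp [coMat, OrthonormalBasis.repr_apply_apply]

theorem co_inner_basis (b : OrthonormalBasis (Fin (N + 2)) ℝ (E N)) (i j : Fin (N + 2)) :
    ⟪b i, b j⟫_ℝ = if i = j then 1 else 0 :=
  orthonormal_iff_ite.mp b.orthonormal i j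

theorem dens_eq {x v : E N} {A : E N →L[ℝ] E N} (h : Frame x v A)
    (b : OrthonormalBasis (Fin (N + 2)) ℝ (E N)) (h0 : b 0 = x) (h1 : b 1 = v) :
    dens A = fvol (cX b A) 1 (cB b A) := by
  classical
  obtain ⟨B, hB⟩ : ∃ B : Matrix (Fin N) (Fin (N + 2)) ℝ,
      ∀ k i, B k i = ⟪A (b i), b k.succ.succ⟫_ℝ := ⟨fun k i => _, fun _ _ => rfl⟩
  have e1 : coMat b (1 + ContinuousLinearMap.adjoint A * A) = 1 + Bᵀ * B := by
    ext i j
    have e : ⟪b i, ContinuousLinearMap.adjoint A (A (b j))⟫_ℝ = ⟪A (b i), A (b j)⟫_ℝ :=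
      ContinuousLinearMap.adjoint_inner_right A (b i) (A (b j))
    have e' := b.sum_inner_mul_inner (A (b i)) (A (b j))
    rw [Fin.sum_univ_succ, Fin.sum_univ_succ] at e'
    have z0 : ⟪b 0, A (b j)⟫_ℝ = 0 := by rw [h0]; exact h.rx _
    have z1 : ⟪b (Fin.succ 0), A (b j)⟫_ℝ = 0 := by
      have : (Fin.succ 0 : Fin (N + 2)) = 1 := rfl
      rw [this, h1]; exact h.rv _
    rw [z0, z1] at e'
    simp only [coMat, ContinuousLinearMap.add_apply, ContinuousLinearMap.one_apply,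
      ContinuousLinearMap.mul_apply, inner_add_right, e, co_inner_basis, Matrix.add_apply,
      Matrix.one_apply, Matrix.mul_apply, Matrix.transpose_apply, hB]
    rw [← e']
    simp only [mul_zero, zero_add]
    congr 1
    refine Finset.sum_congr rfl fun k _ => ?_
    rw [real_inner_comm (b k.succ.succ) (A (b j))]
  have e2 : 1 + B * Bᵀ = (cX b A)ᵀ * cX b A + (1 : Matrix (Fin N) (Fin N) ℝ)ᵀ * 1
      + vecMulVec (cB b A) (cB b A) := by
    ext k l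
    have z0 : A (b 0) = 0 := by rw [h0]; exact h.ax
    have s1 : (Fin.succ 0 : Fin (N + 2)) = 1 := rfl
    simp only [Matrix.add_apply, Matrix.mul_apply, Matrix.transpose_apply, hB, Matrix.mul_one,
      Matrix.transpose_one, vecMulVec_apply, cX, cB, Fin.sum_univ_succ, z0, s1, inner_zero_left,
      neg_mul_neg]
    ring
  unfold dens fvol
  rw [co_det_eq_mat b, e1, Matrix.det_one_add_mul_comm, e2]

theorem co_det_row_zero {n : ℕ} (M : Matrix (Fin (n + 1)) (Fin (n + 1)) ℝ)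
    (hM : ∀ j : Fin n, M 0 j.succ = 0) :
    M.det = M 0 0 * (M.submatrix Fin.succ Fin.succ).det := by
  rw [Matrix.det_succ_row_zero, Fin.sum_univ_succ]
  simp [hM]

/-- A matrix with prescribed first two rows. -/
def coRows (ζ y : Fin (N + 2) → ℝ) (L : Matrix (Fin N) (Fin (N + 2)) ℝ) :
    Matrix (Fin (N + 2)) (Fin (N + 2)) ℝ :=
  Matrix.of (Fin.cons ζ (Fin.cons y L : Fin (N + 1) → Fin (N + 2) → ℝ) :
    Fin (N + 2) → Fin (N + 2) → ℝ)

theorem coRows_zero (ζ y : Fin (N + 2) → ℝ) (L : Matrix (Fin N) (Fin (N + 2)) ℝ) :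
    coRows ζ y L 0 = ζ := rfl

theorem coRows_one (ζ y : Fin (N + 2) → ℝ) (L : Matrix (Fin N) (Fin (N + 2)) ℝ) :
    coRows ζ y L (Fin.succ 0) = y := rfl

theorem coRows_succ (ζ y : Fin (N + 2) → ℝ) (L : Matrix (Fin N) (Fin (N + 2)) ℝ) (j : Fin N) :
    coRows ζ y L j.succ.succ = L j := rfl

theorem coRows_update (ζ y : Fin (N + 2) → ℝ) (L : Matrix (Fin N) (Fin (N + 2)) ℝ) :
    coRows ζ y L = (coRows 0 y L).updateRow 0 ζ := by
  ext i k
  refine Fin.cases ?_ (fun i => ?_) i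
  · simp [coRows_zero]
  · rw [Matrix.updateRow_ne (Fin.succ_ne_zero i)]; rfl

theorem co_det_rows_sq (ζ y : Fin (N + 2) → ℝ) (L : Matrix (Fin N) (Fin (N + 2)) ℝ)
    (hy : ∀ j, y ⬝ᵥ L j = 0) (hζy : ζ ⬝ᵥ y = 0) (hζ : ∀ j, ζ ⬝ᵥ L j = 0) :
    (coRows ζ y L).det ^ 2 = (ζ ⬝ᵥ ζ) * ((y ⬝ᵥ y) * (L * Lᵀ).det) := by
  have e : (coRows ζ y L).det ^ 2 = (coRows ζ y L * (coRows ζ y L)ᵀ).det := by
    rw [Matrix.det_mul, Matrix.det_transpose, sq]
  have ent : ∀ i j, (coRows ζ y L * (coRows ζ y L)ᵀ) i j = coRows ζ y L i ⬝ᵥ coRows ζ y L j :=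
    fun i j => rfl
  rw [e, co_det_row_zero, co_det_row_zero]
  · rfl
  · intro j
    rw [Matrix.submatrix_apply, ent, coRows_one, coRows_succ, hy]
  · intro j
    refine Fin.cases ?_ (fun j => ?_) j
    · rw [ent, coRows_zero, coRows_one, hζy]
    · rw [ent, coRows_zero, coRows_succ, hζ]

theorem co_exists_cofactor (y : Fin (N + 2) → ℝ) (L : Matrix (Fin N) (Fin (N + 2)) ℝ)
    (hy : ∀ j, y ⬝ᵥ L j = 0) :
    ∃ Ψ : Fin (N + 2) → ℝ, Ψ ⬝ᵥ y = 0 ∧ Ψ ⬝ᵥ Ψ = (y ⬝ᵥ y) * (L * Lᵀ).det ∧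
      ∀ ζ, (coRows ζ y L).det = Ψ ⬝ᵥ ζ := by
  classical
  let Ψ : Fin (N + 2) → ℝ := adjugate (coRows 0 y L)ᵀ 0
  have hdet : ∀ ζ, (coRows ζ y L).det = Ψ ⬝ᵥ ζ := by
    intro ζ
    rw [coRows_update, ← Matrix.cramer_transpose_apply, Matrix.cramer_eq_adjugate_mulVec]
    rfl
  have hrow : ∀ i : Fin (N + 1), Ψ ⬝ᵥ coRows 0 y L i.succ = 0 := by
    intro i
    rw [← hdet, coRows_update]
    exact Matrix.det_updateRow_eq_zero (Fin.succ_ne_zero i)
  have hΨy : Ψ ⬝ᵥ y = 0 := hrow 0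
  have hΨL : ∀ j, Ψ ⬝ᵥ L j = 0 := fun j => hrow j.succ
  refine ⟨Ψ, hΨy, ?_, hdet⟩
  by_cases h0 : Ψ ⬝ᵥ Ψ = 0
  · have hΨ0 : Ψ = 0 := dotProduct_self_eq_zero.mp h0
    have hd0 : (coRows 0 y L).det = 0 := by rw [hdet]; simp
    obtain ⟨ζ, hζ0, hζ⟩ := Matrix.exists_mulVec_eq_zero_iff.mpr hd0
    have hζy : ζ ⬝ᵥ y = 0 := by
      rw [dotProduct_comm]; exact congrFun hζ (Fin.succ 0)
    have hζL : ∀ j, ζ ⬝ᵥ L j = 0 := fun j => by
      rw [dotProduct_comm]; exact congrFun hζ j.succ.succ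
    have e := co_det_rows_sq ζ y L hy hζy hζL
    rw [hdet, hΨ0] at e
    have hne : ζ ⬝ᵥ ζ ≠ 0 := fun hh => hζ0 (dotProduct_self_eq_zero.mp hh)
    rw [h0]
    have e' : (ζ ⬝ᵥ ζ) * ((y ⬝ᵥ y) * (L * Lᵀ).det) = 0 := by rw [← e]; simp
    exact ((mul_eq_zero.mp e').resolve_left hne).symm
  · have e := co_det_rows_sq Ψ y L hy hΨy hΨL
    rw [hdet, sq] at e
    exact mul_left_cancel₀ h0 e

theorem co_proj_apply (x w : E N) : proj x w = w - ⟪x, w⟫_ℝ • x := by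
  simp [proj]

theorem co_wedge_apply (y v w : E N) : wedge y v w = ⟪y, v⟫_ℝ • w - ⟪v, w⟫_ℝ • y := by
  simp [wedge]

theorem co_Kop_apply (x v : E N) (A : E N →L[ℝ] E N) (y ζ w : E N) :
    Kop x v A y ζ w = ⟪y, w⟫_ℝ • v + ⟪ζ, w⟫_ℝ • x -
      (proj x (wedge y v w) - A (wedge y x w)) := by
  simp [Kop]

theorem co_inner_Kop (x v : E N) (A : E N →L[ℝ] E N) (y ζ w e : E N) :
    ⟪e, Kop x v A y ζ w⟫_ℝ = ⟪y, w⟫_ℝ * ⟪e, v⟫_ℝ + ⟪ζ, w⟫_ℝ * ⟪e, x⟫_ℝ -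
      ((⟪y, v⟫_ℝ * ⟪e, w⟫_ℝ - ⟪v, w⟫_ℝ * ⟪e, y⟫_ℝ) -
        (⟪y, v⟫_ℝ * ⟪x, w⟫_ℝ - ⟪v, w⟫_ℝ * ⟪x, y⟫_ℝ) * ⟪e, x⟫_ℝ -
        (⟪y, x⟫_ℝ * ⟪e, A w⟫_ℝ - ⟪x, w⟫_ℝ * ⟪e, A y⟫_ℝ)) := by
  rw [co_Kop_apply, co_proj_apply, co_wedge_apply, co_wedge_apply]
  simp only [map_sub, map_smul, inner_sub_right, inner_add_right, real_inner_smul_right]

theorem co_inner_eq_dot (b : OrthonormalBasis (Fin (N + 2)) ℝ (E N)) (Ψ : Fin (N + 2) → ℝ)
    (z : E N) : ⟪b.repr.symm (WithLp.toLp 2 Ψ), z⟫_ℝ = Ψ ⬝ᵥ (b.repr z).ofLp := by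
  rw [← b.repr.inner_map_map, LinearIsometryEquiv.apply_symm_apply,
    EuclideanSpace.inner_eq_star_dotProduct]
  simp [dotProduct_comm]

theorem det_Kop {x v : E N} {A : E N →L[ℝ] E N} (h : Frame x v A)
    (b : OrthonormalBasis (Fin (N + 2)) ℝ (E N)) (h0 : b 0 = x) (h1 : b 1 = v) (y : E N) :
    ∃ Ψ : E N, ⟪Ψ, y⟫_ℝ = 0 ∧ ‖Ψ‖ = ‖y‖ * crof (cX b A) 1 (cB b A) (b.repr y) ∧
      ∀ ζ, (Kop x v A y ζ).det = ⟪Ψ, ζ⟫_ℝ := by
  classical
  have s1 : (Fin.succ 0 : Fin (N + 2)) = 1 := rfl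
  have hxx : ⟪x, x⟫_ℝ = 1 := by rw [real_inner_self_eq_norm_sq, h.nx]; norm_num
  have hvv : ⟪v, v⟫_ℝ = 1 := by rw [real_inner_self_eq_norm_sq, h.nv]; norm_num
  have hxv : ⟪x, v⟫_ℝ = 0 := h.xv
  have hvx : ⟪v, x⟫_ℝ = 0 := by rw [real_inner_comm]; exact hxv
  have hex : ∀ j : Fin N, ⟪b j.succ.succ, x⟫_ℝ = 0 := fun j => by
    rw [← h0, co_inner_basis, if_neg (Fin.succ_ne_zero _)]
  have hev : ∀ j : Fin N, ⟪b j.succ.succ, v⟫_ℝ = 0 := fun j => by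
    rw [← h1, co_inner_basis, ← s1, if_neg (fun hh => Fin.succ_ne_zero _ (Fin.succ_injective _ hh))]
  have hxe : ∀ j : Fin N, ⟪x, b j.succ.succ⟫_ℝ = 0 := fun j => by
    rw [real_inner_comm]; exact hex j
  have hve : ∀ j : Fin N, ⟪v, b j.succ.succ⟫_ℝ = 0 := fun j => by
    rw [real_inner_comm]; exact hev j
  let L : Matrix (Fin N) (Fin (N + 2)) ℝ := fun j k => ⟪b j.succ.succ, Kop x v A y 0 (b k)⟫_ℝ
  have hmat : ∀ ζ, coMat b (Kop x v A y ζ) = coRows (b.repr ζ).ofLp (b.repr y).ofLp L := by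
    intro ζ
    ext i k
    refine Fin.cases ?_ (fun i => Fin.cases ?_ (fun j => ?_) i) i
    · rw [coRows_zero, coMat, h0, co_inner_Kop, hxx, hxv, h.rx, h.rx, b.repr_apply_apply,
        real_inner_comm ζ (b k)]
      ring
    · rw [coRows_one, coMat, s1, h1, co_inner_Kop, hvv, hvx, h.rv, h.rv, b.repr_apply_apply,
        real_inner_comm y (b k), real_inner_comm y v]
      ring
    · rw [coRows_succ, coMat]
      simp only [L, co_inner_Kop, hex, hev]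
      ring
  have hrep : ∀ w : E N, ∀ T : E N →L[ℝ] E N, ∀ e : E N,
      ⟪e, T w⟫_ℝ = ∑ k, ⟪b k, w⟫_ℝ * ⟪e, T (b k)⟫_ℝ := by
    intro w T e
    conv_lhs => rw [← b.sum_repr' w]
    simp only [map_sum, map_smul, inner_sum, real_inner_smul_right]
  have hy : ∀ j, (b.repr y).ofLp ⬝ᵥ L j = 0 := by
    intro j
    have e := hrep y (Kop x v A y 0) (b j.succ.succ)
    have e0 : ⟪b j.succ.succ, Kop x v A y 0 y⟫_ℝ = 0 := by
      rw [co_inner_Kop, hex, hev, real_inner_comm y v, real_inner_comm y x]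
      ring
    rw [e0] at e
    rw [e]
    simp only [dotProduct, b.repr_apply_apply, L]
  have hAy : ∀ j : Fin N, ⟪b j.succ.succ, A y⟫_ℝ =
      -((cX b A)ᵀ *ᵥ tail (b.repr y) + (b.repr y) 1 • cB b A) j := by
    intro j
    rw [hrep y A, Fin.sum_univ_succ, Fin.sum_univ_succ, h0, h.ax, s1]
    simp only [inner_zero_right, mul_zero, zero_add, Pi.add_apply, Pi.smul_apply, smul_eq_mul,
      mulVec, dotProduct, Matrix.transpose_apply, cX, cB, tail, b.repr_apply_apply, neg_add,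
      mul_neg, neg_mul, neg_neg, Finset.sum_neg_distrib]
    rw [add_comm, real_inner_comm (b j.succ.succ) (A (b 1))]
    congr 1
    refine Finset.sum_congr rfl fun k _ => ?_
    rw [real_inner_comm (b j.succ.succ) (A (b k.succ.succ)), mul_comm]
  have hy0 : ⟪y, x⟫_ℝ = (b.repr y) 0 := by rw [b.repr_apply_apply, h0, real_inner_comm]
  have hy1 : ⟪y, v⟫_ℝ = (b.repr y) 1 := by rw [b.repr_apply_apply, h1, real_inner_comm]
  have L0 : ∀ j, L j 0 = ((cX b A)ᵀ *ᵥ tail (b.repr y) + (b.repr y) 1 • cB b A) j := by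
    intro j
    simp only [L]
    rw [h0, co_inner_Kop, hex, hev, hxx, hvx, h.ax, hAy, inner_zero_right]
    ring
  have L1 : ∀ j, L j (Fin.succ 0) =
      ((1 : Matrix (Fin N) (Fin N) ℝ)ᵀ *ᵥ tail (b.repr y) - (b.repr y) 0 • cB b A) j := by
    intro j
    simp only [L]
    rw [s1, h1, co_inner_Kop, hex, hev, hvv, hxv, hy0]
    simp only [Matrix.transpose_one, Matrix.one_mulVec, Pi.sub_apply, Pi.smul_apply, smul_eq_mul,
      tail, cB, b.repr_apply_apply, h1]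
    rw [real_inner_comm (b j.succ.succ) (A v)]
    ring
  have L2 : ∀ j i, L j i.succ.succ =
      -((b.repr y) 0 • cX b A + (b.repr y) 1 • (1 : Matrix (Fin N) (Fin N) ℝ)) i j := by
    intro j i
    simp only [L]
    rw [co_inner_Kop, hex, hev, hxe, hve, hy0, hy1, co_inner_basis]
    simp only [Matrix.add_apply, Matrix.smul_apply, smul_eq_mul, cX, Matrix.one_apply,
      Fin.succ_inj]
    rw [real_inner_comm (b j.succ.succ) (A (b i.succ.succ))]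
    by_cases hij : i = j
    · subst hij; simp; ring
    · rw [if_neg hij, if_neg (Ne.symm hij)]; ring
  have hgram : L * Lᵀ = gram (cX b A) 1 (cB b A) (b.repr y) := by
    ext j k
    rw [Matrix.mul_apply, Fin.sum_univ_succ, Fin.sum_univ_succ]
    simp only [Matrix.transpose_apply, L0, L1, L2, neg_mul_neg]
    simp only [gram, Matrix.add_apply (_ * _), Matrix.add_apply (_ + _), vecMulVec_apply,
      Matrix.mul_apply, Matrix.transpose_apply]
    ring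
  obtain ⟨Ψ, hΨy, hΨn, hΨd⟩ := co_exists_cofactor (b.repr y).ofLp L hy
  refine ⟨b.repr.symm (WithLp.toLp 2 Ψ), ?_, ?_, ?_⟩
  · rw [co_inner_eq_dot, hΨy]
  · have e1 : ‖b.repr.symm (WithLp.toLp 2 Ψ)‖ ^ 2 = Ψ ⬝ᵥ Ψ := by
      rw [← real_inner_self_eq_norm_sq, co_inner_eq_dot, LinearIsometryEquiv.apply_symm_apply]
    have e2 : ‖y‖ ^ 2 = (b.repr y).ofLp ⬝ᵥ (b.repr y).ofLp := by
      rw [← co_inner_eq_dot, ← real_inner_self_eq_norm_sq]
      simp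
    rw [← Real.sqrt_sq (norm_nonneg (b.repr.symm (WithLp.toLp 2 Ψ))), e1, hΨn, ← e2, hgram,
      Real.sqrt_mul (sq_nonneg _), Real.sqrt_sq (norm_nonneg _), crof]
  · intro ζ
    rw [co_inner_eq_dot, ← hΨd, ← hmat, ← co_det_eq_mat]

/-- A crude bound for the density of a frame. -/
theorem dens_le : ∃ C : ℝ, 0 ≤ C ∧ ∀ {x v : E N} {A : E N →L[ℝ] E N}, Frame x v A →
    dens A ≤ C * (1 + ‖A‖) ^ N := by
  classical
  refine ⟨Real.sqrt (N.factorial * ((N : ℝ) + 1) ^ N), Real.sqrt_nonneg _, ?_⟩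
  intro x v A h
  obtain ⟨b, h0, h1⟩ := exists_basis h.nx h.nv h.xv
  rw [dens_eq h b h0 h1, fvol]
  have hA : 0 ≤ ‖A‖ := norm_nonneg _
  have hb : ∀ i j, |⟪A (b i), b j⟫_ℝ| ≤ ‖A‖ := by
    intro i j
    calc |⟪A (b i), b j⟫_ℝ| ≤ ‖A (b i)‖ * ‖b j‖ := abs_real_inner_le_norm _ _
      _ ≤ ‖A‖ * ‖b i‖ * ‖b j‖ := by gcongr; exact A.le_opNorm _
      _ = ‖A‖ := by rw [b.orthonormal.1 i, b.orthonormal.1 j]; ring
  have hbb : ∀ i j k l, |⟪A (b i), b j⟫_ℝ * ⟪A (b k), b l⟫_ℝ| ≤ ‖A‖ ^ 2 := by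
    intro i j k l
    rw [abs_mul, sq]
    exact mul_le_mul (hb i j) (hb k l) (abs_nonneg _) hA
  have hent : ∀ i j, AbsoluteValue.abs (((cX b A)ᵀ * cX b A +
      (1 : Matrix (Fin N) (Fin N) ℝ)ᵀ * (1 : Matrix (Fin N) (Fin N) ℝ)
      + vecMulVec (cB b A) (cB b A) : Matrix (Fin N) (Fin N) ℝ) i j)
      ≤ ((N : ℝ) + 1) * (1 + ‖A‖) ^ 2 := by
    intro i j
    have t1 : |((cX b A)ᵀ * cX b A) i j| ≤ N * ‖A‖ ^ 2 := by
      rw [Matrix.mul_apply]
      refine (Finset.abs_sum_le_sum_abs _ _).trans ?_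
      calc ∑ k, |(cX b A)ᵀ i k * cX b A k j| ≤ ∑ _k : Fin N, ‖A‖ ^ 2 := by
            refine Finset.sum_le_sum fun k _ => ?_
            simp only [Matrix.transpose_apply, cX, neg_mul_neg]
            exact hbb _ _ _ _
        _ = N * ‖A‖ ^ 2 := by simp
    have t2 : |((1 : Matrix (Fin N) (Fin N) ℝ)ᵀ * (1 : Matrix (Fin N) (Fin N) ℝ)) i j| ≤ 1 := by
      rw [Matrix.mul_one, Matrix.transpose_one, Matrix.one_apply]
      split_ifs <;> simp
    have t3 : |vecMulVec (cB b A) (cB b A) i j| ≤ ‖A‖ ^ 2 := by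
      simp only [vecMulVec_apply, cB, neg_mul_neg]
      exact hbb _ _ _ _
    rw [AbsoluteValue.abs_apply, Matrix.add_apply, Matrix.add_apply]
    have hN : (0 : ℝ) ≤ N := Nat.cast_nonneg N
    calc _ ≤ |((cX b A)ᵀ * cX b A) i j| + |((1 : Matrix (Fin N) (Fin N) ℝ)ᵀ * (1 : Matrix (Fin N) (Fin N) ℝ)) i j|
          + |vecMulVec (cB b A) (cB b A) i j| := abs_add_three _ _ _
      _ ≤ N * ‖A‖ ^ 2 + 1 + ‖A‖ ^ 2 := by gcongr
      _ ≤ ((N : ℝ) + 1) * (1 + ‖A‖) ^ 2 := by nlinarith [mul_nonneg hN hA]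
  have hdet := Matrix.det_le hent
  rw [AbsoluteValue.abs_apply, Fintype.card_fin, nsmul_eq_mul] at hdet
  have hp : 0 ≤ (1 + ‖A‖) ^ N := by positivity
  calc _ ≤ Real.sqrt ((N.factorial * ((N : ℝ) + 1) ^ N) * ((1 + ‖A‖) ^ N) ^ 2) := by
        apply Real.sqrt_le_sqrt
        refine (le_abs_self _).trans (hdet.trans (le_of_eq ?_))
        rw [mul_pow, ← pow_mul, ← pow_mul, mul_comm 2 N, mul_assoc]
    _ = _ := by rw [Real.sqrt_mul (by positivity), Real.sqrt_sq hp]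

theorem continuous_dens : Continuous (dens : (E N →L[ℝ] E N) → ℝ) := by
  have hadj : Continuous fun A : E N →L[ℝ] E N => ContinuousLinearMap.adjoint A :=
    (ContinuousLinearMap.adjoint : (E N →L[ℝ] E N) ≃ₗᵢ⋆[ℝ] (E N →L[ℝ] E N)).continuous
  have h2 : Continuous fun A : E N →L[ℝ] E N =>
      (1 : E N →L[ℝ] E N) + ContinuousLinearMap.adjoint A * A :=
    continuous_const.add (hadj.mul continuous_id)
  exact Real.continuous_sqrt.comp (ContinuousLinearMap.continuous_det.comp h2)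

theorem continuous_crof (X V : Matrix (Fin N) (Fin N) ℝ) (β : Fin N → ℝ) :
    Continuous (crof X V β) := by
  have hg : Continuous (gram X V β) := by
    refine continuous_matrix fun i j => ?_
    simp only [gram, Matrix.add_apply, Matrix.mul_apply, Matrix.transpose_apply,
      Matrix.smul_apply, smul_eq_mul, vecMulVec_apply, Pi.add_apply, Pi.sub_apply, Pi.smul_apply,
      mulVec, dotProduct, tail]
    fun_prop
  exact Real.continuous_sqrt.comp hg.matrix_det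

theorem co_gram_smul (X V : Matrix (Fin N) (Fin N) ℝ) (β : Fin N → ℝ) (y : E N) (t : ℝ) :
    gram X V β (t • y) = t ^ 2 • gram X V β y := by
  have ht : tail (t • y) = t • tail y := by
    ext j; simp [tail]
  have e0 : (t • y) 0 • X + (t • y) 1 • V = t • (y 0 • X + y 1 • V) := by
    simp [smul_smul]
  have e1 : Xᵀ *ᵥ tail (t • y) + (t • y) 1 • β = t • (Xᵀ *ᵥ tail y + y 1 • β) := by
    rw [ht, mulVec_smul]; simp [smul_smul]
  have e2 : Vᵀ *ᵥ tail (t • y) - (t • y) 0 • β = t • (Vᵀ *ᵥ tail y - y 0 • β) := by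
    rw [ht, mulVec_smul]; simp [smul_smul, smul_sub]
  unfold gram
  rw [e0, e1, e2]
  generalize y 0 • X + y 1 • V = P
  generalize Xᵀ *ᵥ tail y + y 1 • β = p
  generalize Vᵀ *ᵥ tail y - y 0 • β = q
  simp only [Matrix.transpose_smul, Matrix.smul_mul, Matrix.mul_smul, smul_vecMulVec,
    vecMulVec_smul, smul_smul, smul_add, sq]

theorem crof_smul (X V : Matrix (Fin N) (Fin N) ℝ) (β : Fin N → ℝ) (y : E N) {t : ℝ}
    (ht : 0 ≤ t) : crof X V β (t • y) = t ^ N * crof X V β y := by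
  unfold crof
  rw [co_gram_smul, Matrix.det_smul, Fintype.card_fin, ← pow_mul, mul_comm 2 N, pow_mul,
    Real.sqrt_mul (sq_nonneg _), Real.sqrt_sq (pow_nonneg ht N)]

end Pool.Agent.Ped
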