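import Pool.Agent.P.MP_e09f5c_gt.Reduce
import Pool.Agent.P.MP_e09f5c_gt.A3
import Pool.Agent.P.MP_e09f5c_gt.B3S
import Pool.Agent.P.MP_e09f5c_gt.B3L
import Pool.Agent.P.MP_e09f5c_gt.AN
import Pool.Agent.P.MP_e09f5c_gt.BN

/-! The core inequality. -/

open MeasureTheory Metric Set Matrix Filter Topology
open scoped InnerProductSpace ENNReal

namespace Pool.Agent.Ped

theorem caseB3 {X V : Mat 3} {F : Fr} (h : NF X V F) (hq : 3 / 100 ≤ F.q ∨ 1 / 20 ≤ F.q1) :
    gauss (crof X V (ez 3 F.s)) ≤ kap (3 + 1) := by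
  refine glueB (le_refl 3) h ?_
  have hK : 0 ≤ 9 * (2 * kh 3) ^ 2 := by positivity
  have key : F.s ^ 2 * (VB1 3 F.q * (8 * VB1 3 F.q)) + F.X2 * (VB1 3 F.q * VB2 3 F.q)
      + F.q1 * (VB1 3 F.q * VB3 3 F.q) ≤ 9 * (2 * kh 3) ^ 2 := by
    rcases le_total (3 / 100) F.q with h1 | h1
    · obtain ⟨a, b, c⟩ := b3_large h1 h.ok.q_le
      exact vertex_comb (η := 0) (w := 0) h.ok hK le_rfl (by linarith) (by linarith) (by linarith)
        (by norm_num) (Or.inl rfl)
    · rcases hq with h2 | h2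
      · obtain ⟨a, b, c⟩ := b3_large h2 h.ok.q_le
        exact vertex_comb (η := 0) (w := 0) h.ok hK le_rfl (by linarith) (by linarith)
          (by linarith) (by norm_num) (Or.inl rfl)
      · obtain ⟨a, b, c⟩ := b3_small h.ok.q_pos h1
        exact vertex_comb h.ok hK (by linarith) a b c le_rfl (Or.inr h2)
  push_cast
  linarith

theorem nf_three (X V : Mat 3) (F : Fr) (h : NF X V F) :
    gauss (crof X V (ez 3 F.s)) ≤ kap (3 + 1) := by
  rcases le_total (3 / 100) F.q with h1 | h1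
  · exact caseB3 h (Or.inl h1)
  · rcases le_total (1 / 20) F.q1 with h2 | h2
    · exact caseB3 h (Or.inr h2)
    · exact caseA3 h h1 h2

theorem nf_large {n : ℕ} (hn : 5 ≤ n) (X V : Mat n) (F : Fr) (h : NF X V F) :
    gauss (crof X V (ez n F.s)) ≤ kap (n + 1) := by
  rcases le_total (1 / (4 * (n : ℝ) ^ 2)) F.q with h1 | h1
  · exact caseBN hn h (Or.inl h1)
  · rcases le_total (1 / 20) F.q1 with h2 | h2
    · exact caseBN hn h (Or.inr h2)
    · exact caseAN hn h h1 h2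

theorem coreIneq (m : ℕ) (hm : 1 < m) : CoreIneq (2 * m) := by
  obtain ⟨n, hn⟩ : ∃ n, 2 * m = n + 1 := ⟨2 * m - 1, by omega⟩
  rw [hn]
  rcases (by omega : n = 3 ∨ 5 ≤ n) with rfl | h5
  · exact core_of_nf (le_refl 3) nf_three
  · exact core_of_nf (by omega) (nf_large h5)

end Pool.Agent.Ped
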