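import Pool.Agent.P.MP_e09f5c_gt.Defs

/-! Reflections, frames and the derivative of the Crofton map. -/

open MeasureTheory Metric Set Matrix Filter Topology
open scoped InnerProductSpace ENNReal

namespace Pool.Agent.Ped

variable {N : ℕ}

theorem inner_refl (y z w : E N) : ⟪refl y z, refl y w⟫_ℝ = ⟪z, w⟫_ℝ := by
  by_cases hy : y = 0
  · simp [refl, hy]
  · have h : ‖y‖ ≠ 0 := norm_ne_zero_iff.mpr hy
    simp only [refl, inner_sub_left, inner_sub_right, real_inner_smul_left, real_inner_smul_right,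
      real_inner_self_eq_norm_sq, real_inner_comm y z]
    field_simp
    ring

theorem norm_refl (y z : E N) : ‖refl y z‖ = ‖z‖ := by
  have h := inner_refl y z z
  rw [real_inner_self_eq_norm_sq, real_inner_self_eq_norm_sq] at h
  exact (sq_eq_sq₀ (norm_nonneg _) (norm_nonneg _)).mp h

theorem jc_inner_self_refl {y : E N} (hy : y ≠ 0) (z : E N) : ⟪y, refl y z⟫_ℝ = -⟪y, z⟫_ℝ := by
  have h : ‖y‖ ≠ 0 := norm_ne_zero_iff.mpr hy
  simp only [refl, inner_sub_right, real_inner_smul_right, real_inner_self_eq_norm_sq]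
  field_simp
  ring

theorem refl_refl (y z : E N) : refl y (refl y z) = z := by
  by_cases hy : y = 0
  · simp [refl, hy]
  · have h := jc_inner_self_refl hy z
    rw [refl, h, refl]
    module

theorem refl_smul (y z : E N) {t : ℝ} (ht : t ≠ 0) : refl (t • y) z = refl y z := by
  by_cases hy : y = 0
  · simp [refl, hy]
  · have h : ‖y‖ ≠ 0 := norm_ne_zero_iff.mpr hy
    have e : ‖t • y‖ ^ 2 = t ^ 2 * ‖y‖ ^ 2 := by
      rw [norm_smul, mul_pow, Real.norm_eq_abs, sq_abs]
    simp only [refl, e, real_inner_smul_left, smul_smul]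
    congr 2
    field_simp

/-- The reflection as a continuous linear map. -/
noncomputable def reflL (y : E N) : E N →L[ℝ] E N :=
  ContinuousLinearMap.id ℝ (E N) - (2 / ‖y‖ ^ 2) • (innerSL ℝ y).smulRight y

theorem reflL_apply (y z : E N) : reflL y z = refl y z := by
  simp only [reflL, refl, _root_.sub_apply, ContinuousLinearMap.id_apply,
    _root_.smul_apply, ContinuousLinearMap.smulRight_apply, innerSL_apply_apply,
    smul_smul]
  congr 2
  ring

theorem reflL_mul_self (y : E N) : reflL y * reflL y = 1 := by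
  ext1 z
  simp only [mul_apply_eq_comp, reflL_apply, refl_refl, one_apply_eq_self]

theorem abs_det_reflL (y : E N) : |(reflL y).det| = 1 := by
  have h : (reflL y).det * (reflL y).det = 1 := by
    have h1 := congrArg (fun A : E N →L[ℝ] E N => LinearMap.det A.toLinearMap) (reflL_mul_self y)
    simp only [ContinuousLinearMap.toLinearMap_mul, map_mul, ContinuousLinearMap.toLinearMap_one] at h1
    simpa [ContinuousLinearMap.det] using h1
  have h2 : |(reflL y).det| * |(reflL y).det| = 1 := by rw [← abs_mul, h, abs_one]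
  nlinarith [abs_nonneg (reflL y).det]

/-- The reflection as a linear isometry. -/
theorem exists_refl_isometry (y : E N) : ∃ e : E N ≃ₗᵢ[ℝ] E N, ∀ z, e z = refl y z := by
  have hinv : Function.Involutive (reflL y).toLinearMap := fun z => by
    simp only [ContinuousLinearMap.coe_coe, reflL_apply, refl_refl]
  refine ⟨⟨LinearEquiv.ofInvolutive (reflL y).toLinearMap hinv, fun z => ?_⟩, fun z => ?_⟩
  · exact (congrArg norm (reflL_apply y z)).trans (norm_refl y z)
  · exact reflL_apply y z

theorem jc_proj_apply (x w : E N) : proj x w = w - ⟪x, w⟫_ℝ • x := by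
  simp [proj]

theorem jc_wedge_apply (y v w : E N) : wedge y v w = ⟪y, v⟫_ℝ • w - ⟪v, w⟫_ℝ • y := by
  simp [wedge]

theorem jc_inner_proj {x : E N} (hx : ‖x‖ = 1) (w : E N) : ⟪x, proj x w⟫_ℝ = 0 := by
  rw [jc_proj_apply, inner_sub_right, real_inner_smul_right, real_inner_self_eq_norm_sq, hx]
  ring

/-- A function which is constant on the sphere near `x` has zero tangential derivative. -/
theorem jc_fderiv_tangent_eq_zero {f : E N → ℝ} {f' : E N →L[ℝ] ℝ} {x t : E N} {c : ℝ}
    (hx : ‖x‖ = 1) (hf : HasFDerivAt f f' x)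
    (hc : ∀ᶠ z in nhdsWithin x (sphere (0 : E N) 1), f z = c) (ht : ⟪x, t⟫_ℝ = 0) :
    f' t = 0 := by
  set k : ℝ := ‖t‖ ^ 2 / 4 with hk
  have hk0 : 0 ≤ k := by positivity
  let γ : ℝ → E N := fun s => ((1 - s ^ 2 * k) / (1 + s ^ 2 * k)) • x + (s / (1 + s ^ 2 * k)) • t
  have hγ0 : γ 0 = x := by simp [γ]
  have hq : HasDerivAt (fun s : ℝ => s ^ 2 * k) 0 0 := by
    simpa using ((hasDerivAt_id (0 : ℝ)).fun_pow 2).mul_const k
  have h1 : HasDerivAt (fun s : ℝ => (1 - s ^ 2 * k) / (1 + s ^ 2 * k)) 0 0 := by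
    have := (hq.const_sub 1).fun_div (hq.const_add 1) (by simp)
    simpa using this
  have h2 : HasDerivAt (fun s : ℝ => s / (1 + s ^ 2 * k)) 1 0 := by
    have := (hasDerivAt_id' (0 : ℝ)).fun_div (hq.const_add 1) (by simp)
    simpa using this
  have hγ : HasDerivAt γ t 0 := by
    have := (h1.smul_const x).fun_add (h2.smul_const t)
    simpa using this
  have hs : ∀ s, γ s ∈ sphere (0 : E N) 1 := by
    intro s
    have hpos : (1 + s ^ 2 * k) ≠ 0 := by positivity
    have hn : ‖γ s‖ ^ 2 = 1 := by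
      have ht2 : ⟪t, t⟫_ℝ = 4 * k := by rw [hk, real_inner_self_eq_norm_sq]; ring
      have hx2 : ⟪x, x⟫_ℝ = 1 := by rw [real_inner_self_eq_norm_sq, hx, one_pow]
      rw [← real_inner_self_eq_norm_sq]
      simp only [γ, inner_add_left, inner_add_right, real_inner_smul_left, real_inner_smul_right,
        real_inner_comm x t, ht, hx2, ht2]
      field_simp
      ring
    rw [mem_sphere_zero_iff_norm]
    exact (pow_eq_one_iff_of_nonneg (norm_nonneg _) two_ne_zero).mp hn
  have htend : Tendsto γ (𝓝 0) (nhdsWithin x (sphere (0 : E N) 1)) := by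
    refine tendsto_nhdsWithin_iff.mpr ⟨?_, Eventually.of_forall hs⟩
    have := hγ.continuousAt.tendsto
    rwa [hγ0] at this
  have hd : HasDerivAt (f ∘ γ) (f' t) 0 := by
    refine HasFDerivAt.comp_hasDerivAt (0 : ℝ) ?_ hγ
    rwa [hγ0]
  have hd0 : HasDerivAt (f ∘ γ) 0 0 :=
    (hasDerivAt_const (0 : ℝ) c).congr_of_eventuallyEq (htend.eventually hc)
  exact hd.unique hd0

theorem Good.self {W : E N → E N} {x : E N} (h : Good W x) : ⟪x, W x⟫_ℝ = 0 ∧ ‖W x‖ = 1 :=
  h.2.2.self_of_nhdsWithin (mem_sphere_zero_iff_norm.mpr h.1)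

theorem Good.inner_fderiv_base {W : E N → E N} {x t : E N} (h : Good W x)
    (ht : ⟪x, t⟫_ℝ = 0) : ⟪x, fderiv ℝ W x t⟫_ℝ = -⟪W x, t⟫_ℝ := by
  have hd := (hasFDerivAt_id x).inner ℝ h.2.1.hasFDerivAt
  have := jc_fderiv_tangent_eq_zero h.1 hd (h.2.2.mono fun z hz => hz.1) ht
  simp only [ContinuousLinearMap.comp_apply, ContinuousLinearMap.prod_apply,
    fderivInnerCLM_apply, ContinuousLinearMap.id_apply, id] at this
  rw [real_inner_comm t (W x)]
  linarith

theorem Good.inner_fderiv_self {W : E N → E N} {x t : E N} (h : Good W x)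
    (ht : ⟪x, t⟫_ℝ = 0) : ⟪W x, fderiv ℝ W x t⟫_ℝ = 0 := by
  have hd := h.2.1.hasFDerivAt.inner ℝ h.2.1.hasFDerivAt
  have := jc_fderiv_tangent_eq_zero (c := 1) h.1 hd (h.2.2.mono fun z hz => by
    rw [real_inner_self_eq_norm_sq, hz.2, one_pow]) ht
  simp only [ContinuousLinearMap.comp_apply, ContinuousLinearMap.prod_apply,
    fderivInnerCLM_apply] at this
  rw [real_inner_comm (W x) (fderiv ℝ W x t)] at this
  linarith

theorem jc_cov_apply (W : E N → E N) (x w : E N) :
    cov W x w = proj x (fderiv ℝ W x (proj x w)) := rfl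

theorem Good.frame {W : E N → E N} {x : E N} (h : Good W x) : Frame x (W x) (cov W x) := by
  refine ⟨h.1, h.self.2, h.self.1, ?_, fun w => ?_, fun w => ?_⟩
  · have : proj x x = 0 := by
      rw [jc_proj_apply, real_inner_self_eq_norm_sq, h.1]
      simp
    rw [jc_cov_apply, this, map_zero, map_zero]
  · rw [jc_cov_apply, jc_inner_proj h.1]
  · rw [jc_cov_apply, jc_proj_apply x (fderiv ℝ W x _), inner_sub_right, real_inner_smul_right,
      h.inner_fderiv_self (jc_inner_proj h.1 w), real_inner_comm x (W x), h.self.1]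
    ring

theorem good_of_smooth {V : E N → E N} (hV : ContDiff ℝ (⊤ : ℕ∞) V)
    (hT : ∀ x ∈ sphere (0 : E N) 1, ⟪x, V x⟫_ℝ = 0 ∧ ‖V x‖ = 1) {x : E N} (hx : ‖x‖ = 1) :
    Good V x :=
  ⟨hx, (hV.differentiable (by simp)) x, eventually_nhdsWithin_of_forall hT⟩

/-- Derivative of the reflected point with respect to the mirror. -/
theorem jc_hasFDerivAt_refl (a : E N) {y : E N} (hy : y ≠ 0) :
    HasFDerivAt (fun y' => refl y' a) ((2 / ‖y‖ ^ 2) • wedge y (refl y a)) y := by
  have h : ‖y‖ ≠ 0 := norm_ne_zero_iff.mpr hy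
  have h2 : ‖y‖ ^ 2 ≠ 0 := pow_ne_zero 2 h
  have hn : HasFDerivAt (fun y' : E N => ‖y'‖ ^ 2) (2 • innerSL ℝ y) y := by
    simpa using (hasStrictFDerivAt_norm_sq y).hasFDerivAt
  have hi : HasFDerivAt (fun y' : E N => ⟪y', a⟫_ℝ) (innerSL ℝ a) y := by
    have : (fun y' : E N => ⟪y', a⟫_ℝ) = fun y' => innerSL ℝ a y' := by
      funext y'; simp [real_inner_comm]
    rw [this]; exact (innerSL ℝ a).hasFDerivAt
  have hinv := (hasFDerivAt_inv h2).comp y hn
  have h3 := (((hi.const_mul 2).fun_mul hinv).fun_smul (hasFDerivAt_id y)).const_sub a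
  have e : (fun y' : E N => refl y' a) = fun y' => a - (2 * ⟪y', a⟫_ℝ
      * ((fun s : ℝ => s⁻¹) ∘ fun y' : E N => ‖y'‖ ^ 2) y') • id y' := by
    funext y'; simp only [refl, div_eq_mul_inv, Function.comp, id]
  rw [e]
  refine HasFDerivAt.congr_fderiv h3 ?_
  ext1 w
  simp only [_root_.neg_apply, _root_.add_apply,
    _root_.smul_apply, ContinuousLinearMap.id_apply,
    ContinuousLinearMap.smulRight_apply, ContinuousLinearMap.comp_apply, innerSL_apply_apply,
    ContinuousLinearMap.toSpanSingleton_apply, Function.comp, id, smul_eq_mul, jc_wedge_apply,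
    jc_inner_self_refl hy]
  simp only [refl, inner_sub_left, real_inner_smul_left]
  match_scalars
  · field_simp
  · field_simp
    ring

/-- Derivative of the angle function. -/
theorem jc_hasFDerivAt_angle {g₁ g₂ y : E N} (hy : ⟪y, g₂⟫_ℝ ≠ 0) :
    HasFDerivAt (fun y' : E N => Real.arctan (⟪y', g₁⟫_ℝ / ⟪y', g₂⟫_ℝ))
      (innerSL ℝ (zeta g₁ g₂ y)) y := by
  have hi : ∀ a : E N, HasFDerivAt (fun y' : E N => ⟪y', a⟫_ℝ) (innerSL ℝ a) y := by
    intro a
    have : (fun y' : E N => ⟪y', a⟫_ℝ) = fun y' => innerSL ℝ a y' := by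
      funext y'; simp [real_inner_comm]
    rw [this]; exact (innerSL ℝ a).hasFDerivAt
  have hinv := (hasFDerivAt_inv hy).comp y (hi g₂)
  have h3 := ((hi g₁).fun_mul hinv).arctan
  have e : (fun y' : E N => Real.arctan (⟪y', g₁⟫_ℝ / ⟪y', g₂⟫_ℝ)) = fun y' =>
      Real.arctan (⟪y', g₁⟫_ℝ * ((fun s : ℝ => s⁻¹) ∘ fun y' : E N => ⟪y', g₂⟫_ℝ) y') := by
    funext y'; simp only [div_eq_mul_inv, Function.comp]
  rw [e]
  refine HasFDerivAt.congr_fderiv h3 ?_
  ext1 w
  simp only [_root_.add_apply, _root_.smul_apply,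
    ContinuousLinearMap.comp_apply, innerSL_apply_apply,
    ContinuousLinearMap.toSpanSingleton_apply, Function.comp, smul_eq_mul, zeta,
    real_inner_smul_left, inner_sub_left]
  have hpos : ⟪y, g₁⟫_ℝ ^ 2 + ⟪y, g₂⟫_ℝ ^ 2 ≠ 0 := by positivity
  have hpos' : ⟪y, g₂⟫_ℝ ^ 2 + ⟪y, g₁⟫_ℝ ^ 2 ≠ 0 := by positivity
  field_simp
  ring

/-- Derivative of the Crofton map. -/
theorem hasFDerivAt_Phi {W : E N → E N} {a g₁ g₂ y : E N} (ha : ‖a‖ = 1)
    (hy : ⟪y, g₂⟫_ℝ ≠ 0) (h : Good W (refl y a)) :
    ∃ D : E N →L[ℝ] E N, HasFDerivAt (Phi W a g₁ g₂) D y ∧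
      ENNReal.ofReal |D.det| = jac W (refl y a) g₁ g₂ y := by
  have hy0 : y ≠ 0 := by
    rintro rfl
    exact hy (inner_zero_left _)
  have hn0 : ‖y‖ ≠ 0 := norm_ne_zero_iff.mpr hy0
  set x := refl y a with hx
  have hax : a = refl y x := by rw [hx, refl_refl]
  refine ⟨reflL y * Kop x (W x) (cov W x) y (zeta g₁ g₂ y), ?_, ?_⟩
  · have hV : HasFDerivAt (fun y' => W (refl y' a))
        ((fderiv ℝ W x).comp ((2 / ‖y‖ ^ 2) • wedge y x)) y :=
      HasFDerivAt.comp y (f := fun y' => refl y' a) h.2.1.hasFDerivAt (jc_hasFDerivAt_refl a hy0)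
    have hn : HasFDerivAt (fun y' : E N => ‖y'‖ ^ 2 / 2) (innerSL ℝ y) y := by
      have h1 : HasFDerivAt (fun y' : E N => ‖y'‖ ^ 2) (2 • innerSL ℝ y) y := by
        simpa using (hasStrictFDerivAt_norm_sq y).hasFDerivAt
      refine HasFDerivAt.congr_fderiv
        (by simpa only [div_eq_mul_inv] using h1.mul_const (2⁻¹ : ℝ)) ?_
      ext1 w
      simp
    have h1 := ((hn.fun_smul hV).fun_sub
      (((hasFDerivAt_id y).inner ℝ hV).fun_smul (hasFDerivAt_id y))).fun_add
      ((jc_hasFDerivAt_angle (g₁ := g₁) hy).smul_const a)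
    have hev : Phi W a g₁ g₂ =ᶠ[𝓝 y] fun y' => ((‖y'‖ ^ 2 / 2) • W (refl y' a)
        - ⟪id y', W (refl y' a)⟫_ℝ • id y') + Real.arctan (⟪y', g₁⟫_ℝ / ⟪y', g₂⟫_ℝ) • a := by
      filter_upwards [isOpen_ne.mem_nhds hy0] with y' hy'
      have hn' : ‖y'‖ ≠ 0 := norm_ne_zero_iff.mpr hy'
      simp only [Phi, id]
      rw [refl]
      match_scalars
      · ring
      · field_simp
      · ring
    refine HasFDerivAt.congr_fderiv (h1.congr_of_eventuallyEq hev) ?_
    ext1 w
    have ht : ⟪x, wedge y x w⟫_ℝ = 0 := by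
      rw [jc_wedge_apply, inner_sub_right, real_inner_smul_right, real_inner_smul_right,
        real_inner_comm x y]
      ring
    have hpt : proj x (wedge y x w) = wedge y x w := by rw [jc_proj_apply, ht]; simp
    have hb := h.inner_fderiv_base ht
    have hvt : ⟪W x, wedge y x w⟫_ℝ = -⟪x, wedge y (W x) w⟫_ℝ := by
      simp only [jc_wedge_apply, inner_sub_right, real_inner_smul_right, real_inner_comm x y,
        real_inner_comm y (W x)]
      ring
    have hK : Kop x (W x) (cov W x) y (zeta g₁ g₂ y) w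
        = ⟪y, w⟫_ℝ • W x + ⟪zeta g₁ g₂ y, w⟫_ℝ • x - wedge y (W x) w
          + fderiv ℝ W x (wedge y x w) := by
      simp only [Kop, _root_.sub_apply, _root_.add_apply,
        ContinuousLinearMap.smulRight_apply, innerSL_apply_apply, mul_apply_eq_comp,
        jc_cov_apply, hpt]
      rw [jc_proj_apply, jc_proj_apply, hb, hvt]
      module
    rw [mul_apply_eq_comp, hK, map_add, map_sub, map_add, map_smul, map_smul,
      reflL_apply y x, ← hax]
    simp only [_root_.add_apply, _root_.sub_apply,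
      _root_.smul_apply, ContinuousLinearMap.smulRight_apply,
      ContinuousLinearMap.comp_apply, ContinuousLinearMap.prod_apply, fderivInnerCLM_apply,
      ContinuousLinearMap.id_apply, innerSL_apply_apply, id, map_smul, reflL_apply, ← hx]
    generalize fderiv ℝ W x (wedge y x w) = u
    generalize W x = v
    simp only [refl, jc_wedge_apply, inner_sub_right, real_inner_smul_right,
      real_inner_self_eq_norm_sq, real_inner_comm v w]
    match_scalars <;> (field_simp; try ring)
  · rw [jac]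
    congr 1
    have : (reflL y * Kop x (W x) (cov W x) y (zeta g₁ g₂ y)).det
        = (reflL y).det * (Kop x (W x) (cov W x) y (zeta g₁ g₂ y)).det := by
      simp only [ContinuousLinearMap.det, ContinuousLinearMap.toLinearMap_mul, map_mul]
    rw [this, abs_mul, abs_det_reflL, one_mul]

theorem jc_continuous_proj_conj :
    Continuous fun p : E N × (E N →L[ℝ] E N) => proj p.1 * p.2 * proj p.1 := by
  have h : Continuous fun x : E N => proj x := by
    refine continuous_clm_apply.mpr fun w => ?_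
    simp only [jc_proj_apply]
    fun_prop
  exact ((h.comp continuous_fst).mul continuous_snd).mul (h.comp continuous_fst)

theorem jc_measurable_cov (W : E N → E N) : Measurable fun x => cov W x := by
  have h1 : Measurable fun p : E N × (E N →L[ℝ] E N) => proj p.1 * p.2 * proj p.1 :=
    jc_continuous_proj_conj.measurable
  have h2 : Measurable fun x : E N => (x, fderiv ℝ W x) :=
    measurable_id.prodMk (measurable_fderiv ℝ W)
  have h := h1.comp h2
  simp only [Function.comp_def] at h
  unfold cov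
  exact h

theorem jc_continuous_Kop :
    Continuous fun p : (E N × E N) × (E N →L[ℝ] E N) × E N × E N =>
      Kop p.1.1 p.1.2 p.2.1 p.2.2.1 p.2.2.2 := by
  refine continuous_clm_apply.mpr fun w => ?_
  simp only [Kop, _root_.sub_apply, _root_.add_apply,
    ContinuousLinearMap.smulRight_apply, innerSL_apply_apply, mul_apply_eq_comp,
    jc_proj_apply, jc_wedge_apply]
  fun_prop

theorem jc_measurable_zeta : Measurable fun p : E N × E N × E N => zeta p.1 p.2.1 p.2.2 := by
  have h1 : Measurable fun p : E N × E N × E N =>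
      (⟪p.2.2, p.1⟫_ℝ ^ 2 + ⟪p.2.2, p.2.1⟫_ℝ ^ 2)⁻¹ :=
    (Continuous.measurable (by fun_prop)).inv
  have h2 : Measurable fun p : E N × E N × E N =>
      ⟪p.2.2, p.2.1⟫_ℝ • p.1 - ⟪p.2.2, p.1⟫_ℝ • p.2.1 :=
    Continuous.measurable (by fun_prop)
  exact h1.smul h2

theorem measurable_jac {W : E N → E N} (hW : Measurable W) :
    Measurable fun p : E N × E N × E N × E N => jac W p.1 p.2.1 p.2.2.1 p.2.2.2 := by
  have hc : Continuous fun p : (E N × E N) × (E N →L[ℝ] E N) × E N × E N =>
      ENNReal.ofReal |(Kop p.1.1 p.1.2 p.2.1 p.2.2.1 p.2.2.2).det| :=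
    ENNReal.continuous_ofReal.comp
      (continuous_abs.comp (ContinuousLinearMap.continuous_det.comp jc_continuous_Kop))
  have hm : Measurable fun p : E N × E N × E N × E N =>
      ((p.1, W p.1), cov W p.1, p.2.2.2, zeta p.2.1 p.2.2.1 p.2.2.2) :=
    (measurable_fst.prodMk (hW.comp measurable_fst)).prodMk
      (((jc_measurable_cov W).comp measurable_fst).prodMk
        (measurable_snd.snd.snd.prodMk (jc_measurable_zeta.comp measurable_snd)))
  have h := hc.measurable.comp hm
  simp only [Function.comp_def] at h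
  unfold jac
  exact h

theorem measurable_refl : Measurable fun p : E N × E N => refl p.1 p.2 := by
  have h1 : Measurable fun p : E N × E N => 2 * ⟪p.1, p.2⟫_ℝ / ‖p.1‖ ^ 2 :=
    (Continuous.measurable (by fun_prop)).div (Continuous.measurable (by fun_prop))
  exact measurable_snd.sub (h1.smul measurable_fst)

theorem jc_continuous_dens : Continuous fun A : E N →L[ℝ] E N => dens A := by
  have h1 : Continuous fun A : E N →L[ℝ] E N =>
      (1 : E N →L[ℝ] E N) + ContinuousLinearMap.adjoint A * A := by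
    have h0 : Continuous fun A : E N →L[ℝ] E N => ContinuousLinearMap.adjoint A :=
      (ContinuousLinearMap.adjoint (𝕜 := ℝ) (E := E N) (F := E N)).continuous
    exact continuous_const.add (h0.mul continuous_id')
  have h := Real.continuous_sqrt.comp (ContinuousLinearMap.continuous_det.comp h1)
  simp only [Function.comp_def, ContinuousLinearMap.det] at h
  unfold dens
  exact h

theorem measurable_dens_cov (W : E N → E N) : Measurable fun x => dens (cov W x) := by
  have h := jc_continuous_dens.measurable.comp (jc_measurable_cov W)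
  simp only [Function.comp_def] at h
  exact h

end Pool.Agent.Ped
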