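import Pool.Agent.P.MP_e09f5c_gt.Topo
import Pool.Agent.P.MP_e09f5c_gt.Jacob

/-! For a smooth field the Crofton map covers the cylinder. -/

open MeasureTheory Metric Set Matrix Filter Topology
open scoped InnerProductSpace ENNReal

namespace Pool.Agent.Ped

variable {N : ℕ}

theorem cover_diff_refl {f g : E N → E N} {z : E N} (hf : DifferentiableAt ℝ f z)
    (hg : DifferentiableAt ℝ g z) (h0 : f z ≠ 0) :
    DifferentiableAt ℝ (fun w => refl (f w) (g w)) z := by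
  unfold refl
  have h1 : DifferentiableAt ℝ (fun w => ‖f w‖ ^ 2) z := hf.norm_sq ℝ
  have h2 : DifferentiableAt ℝ (fun w => ⟪f w, g w⟫_ℝ) z := hf.inner ℝ hg
  have h3 : ‖f z‖ ^ 2 ≠ 0 := pow_ne_zero _ (norm_ne_zero_iff.mpr h0)
  have h4 : DifferentiableAt ℝ (fun w => 2 * ⟪f w, g w⟫_ℝ / ‖f w‖ ^ 2) z := by
    simp only [div_eq_mul_inv]
    exact (h2.const_mul 2).mul (h1.inv h3)
  exact hg.sub (h4.smul hf)

theorem cover_isOpen_half (g : E N) : IsOpen (half g) := by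
  have h1 : IsOpen {y : E N | ‖y‖ < 1} := isOpen_lt continuous_norm continuous_const
  have h2 : IsOpen {y : E N | 0 < ⟪y, g⟫_ℝ} :=
    isOpen_lt continuous_const (continuous_id.inner continuous_const)
  exact h1.inter h2

/-- The exceptional set coming from the points orthogonal to both `g₁` and `g₂`. -/
def coverBad (V : E N → E N) (a g₁ g₂ : E N) : Set (E N) :=
  {z | ∃ (y : E N) (θ : ℝ), y ≠ 0 ∧ ⟪y, g₁⟫_ℝ = 0 ∧ ⟪y, g₂⟫_ℝ = 0 ∧
    z = (‖y‖ ^ 2 / 2) • refl y (V (refl y a)) + θ • a}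

theorem cover_bad_null {V : E N → E N} (hV : ContDiff ℝ (⊤ : ℕ∞) V)
    (a : E N) {g₁ g₂ : E N} (hg : LinearIndependent ℝ ![g₁, g₂]) :
    volume (coverBad V a g₁ g₂) = 0 := by
  have hg2 : g₂ ≠ 0 := by simpa using hg.ne_zero 1
  have hn2 : ‖g₂‖ ^ 2 ≠ 0 := pow_ne_zero _ (norm_ne_zero_iff.mpr hg2)
  set P : E N → E N := fun z => z - (⟪g₂, z⟫_ℝ / ‖g₂‖ ^ 2) • g₂ with hP
  have hPd : Differentiable ℝ P := by
    intro z
    have h1 : DifferentiableAt ℝ (fun z : E N => ⟪g₂, z⟫_ℝ / ‖g₂‖ ^ 2) z := by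
      simp only [div_eq_mul_inv]
      exact ((differentiableAt_const g₂).inner ℝ differentiableAt_id).mul_const _
    exact differentiableAt_id.sub (h1.smul_const g₂)
  have hn : P g₁ ≠ 0 := by
    intro h
    have := LinearIndependent.pair_iff.mp hg 1 (-(⟪g₂, g₁⟫_ℝ / ‖g₂‖ ^ 2)) (by
      rw [one_smul, neg_smul, ← sub_eq_add_neg]; exact h)
    exact one_ne_zero this.1
  have hM : volume (((ℝ ∙ P g₁)ᗮ : Submodule ℝ (E N)) : Set (E N)) = 0 := by
    refine Measure.addHaar_submodule _ _ fun h => hn ?_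
    have : P g₁ ∈ (ℝ ∙ P g₁)ᗮ := by rw [h]; trivial
    exact inner_self_eq_zero.mp (Submodule.mem_orthogonal_singleton_iff_inner_right.mp this)
  set s : Set (E N) := ((ℝ ∙ P g₁)ᗮ : Submodule ℝ (E N)) ∩ {z | P z ≠ 0} with hs
  set F : E N → E N := fun z =>
    (‖P z‖ ^ 2 / 2) • refl (P z) (V (refl (P z) a)) + ⟪g₂, z⟫_ℝ • a with hF
  have hFd : DifferentiableOn ℝ F s := by
    intro z hz
    have h1 := cover_diff_refl (hPd z) (differentiableAt_const a) hz.2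
    have h2 : DifferentiableAt ℝ (fun w => V (refl (P w) a)) z :=
      (hV.differentiable (by simp) _).comp z h1
    have h3 := cover_diff_refl (hPd z) h2 hz.2
    have h4 : DifferentiableAt ℝ (fun z : E N => ‖P z‖ ^ 2 / 2) z := by
      simp only [div_eq_mul_inv]
      exact ((hPd z).norm_sq ℝ).mul_const _
    exact ((h4.smul h3).add
      (((differentiableAt_const g₂).inner ℝ differentiableAt_id).smul_const a)).differentiableWithinAt
  have h0 : volume (F '' s) = 0 :=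
    addHaar_image_eq_zero_of_differentiableOn_of_addHaar_eq_zero volume hFd
      (measure_mono_null inter_subset_left hM)
  refine measure_mono_null ?_ h0
  rintro z ⟨y, θ, hy, h1, h2, rfl⟩
  have h2' : ⟪g₂, y⟫_ℝ = 0 := by rw [real_inner_comm]; exact h2
  have h1' : ⟪g₁, y⟫_ℝ = 0 := by rw [real_inner_comm]; exact h1
  have hi : ⟪g₂, y + (θ / ‖g₂‖ ^ 2) • g₂⟫_ℝ = θ := by
    rw [inner_add_right, h2', real_inner_smul_right, real_inner_self_eq_norm_sq]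
    field_simp
    ring
  have hPy : P (y + (θ / ‖g₂‖ ^ 2) • g₂) = y := by
    simp only [hP, hi]
    abel
  refine ⟨y + (θ / ‖g₂‖ ^ 2) • g₂, ⟨?_, ?_⟩, ?_⟩
  · refine Submodule.mem_orthogonal_singleton_iff_inner_right.mpr ?_
    simp only [hP, inner_sub_left, inner_add_right, real_inner_smul_left, real_inner_smul_right,
      h1', h2', real_inner_self_eq_norm_sq]
    rw [real_inner_comm g₁ g₂]
    field_simp
    ring
  · show P _ ≠ 0
    rw [hPy]; exact hy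
  · simp only [hF, hPy, hi]

theorem cover_line_null (a : E N) : volume ((ℝ ∙ a : Submodule ℝ (E N)) : Set (E N)) = 0 := by
  refine Measure.addHaar_submodule _ _ fun h => ?_
  have h1 : Module.finrank ℝ (ℝ ∙ a : Submodule ℝ (E N)) ≤ 1 := by
    simpa using finrank_span_le_card (R := ℝ) ({a} : Set (E N))
  rw [h, finrank_top, finrank_euclideanSpace_fin] at h1
  omega

theorem cover_subset (hN : 2 ≤ N) {V : E N → E N} (hV : ContDiff ℝ (⊤ : ℕ∞) V)
    (hT : ∀ x ∈ sphere (0 : E N) 1, ⟪x, V x⟫_ℝ = 0 ∧ ‖V x‖ = 1)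
    {a : E N} (g₁ g₂ : E N) (ha : ‖a‖ = 1) :
    cyl a ⊆ Phi V a g₁ g₂ '' half g₂ ∪
      (((ℝ ∙ a : Submodule ℝ (E N)) : Set (E N)) ∪ coverBad V a g₁ g₂) := by
  rintro z ⟨hz1, hz2⟩
  set θ := ⟪a, z⟫_ℝ with hθ
  have hw : proj a z = z - θ • a := by simp [proj, hθ]
  rw [hw] at hz1
  set w := z - θ • a with hwd
  have hzw : z = w + θ • a := by rw [hwd]; abel
  by_cases h0 : w = 0
  · refine Or.inr (Or.inl ?_)
    rw [hzw, h0, zero_add]
    exact Submodule.smul_mem _ _ (Submodule.mem_span_singleton_self a)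
  have hρ : 0 < ‖w‖ := norm_pos_iff.mpr h0
  have haw : ⟪a, w⟫_ℝ = 0 := by
    rw [hwd, inner_sub_right, real_inner_smul_right, real_inner_self_eq_norm_sq, ha]
    simp [hθ]
  obtain ⟨y₀, hy0, hq, hb⟩ := onto hN V hV.continuous.continuousOn hT a (‖w‖⁻¹ • w)
    (g₁ - Real.tan θ • g₂) ha (by rw [norm_smul, norm_inv, norm_norm, inv_mul_cancel₀ hρ.ne'])
    (by rw [real_inner_smul_right, haw, mul_zero])
  have hy0' : 0 < ‖y₀‖ := norm_pos_iff.mpr hy0
  obtain ⟨t, ht, ht2, ht3⟩ : ∃ t : ℝ, t ≠ 0 ∧ t ^ 2 * ‖y₀‖ ^ 2 = 2 * ‖w‖ ∧ 0 ≤ t * ⟪y₀, g₂⟫_ℝ := by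
    have hs : 0 < Real.sqrt (2 * ‖w‖) / ‖y₀‖ := div_pos (Real.sqrt_pos.mpr (by linarith)) hy0'
    have hs2 : (Real.sqrt (2 * ‖w‖) / ‖y₀‖) ^ 2 * ‖y₀‖ ^ 2 = 2 * ‖w‖ := by
      rw [div_pow, Real.sq_sqrt (by linarith)]
      field_simp
    rcases le_total 0 ⟪y₀, g₂⟫_ℝ with h | h
    · exact ⟨_, hs.ne', hs2, mul_nonneg hs.le h⟩
    · exact ⟨-(Real.sqrt (2 * ‖w‖) / ‖y₀‖), neg_ne_zero.mpr hs.ne', by rw [neg_sq]; exact hs2,
        mul_nonneg_of_nonpos_of_nonpos (neg_nonpos.mpr hs.le) h⟩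
  set y := t • y₀ with hy
  have hyn : ‖y‖ ^ 2 = 2 * ‖w‖ := by rw [hy, norm_smul, mul_pow, Real.norm_eq_abs, sq_abs, ht2]
  have hG : (‖y‖ ^ 2 / 2) • refl y (V (refl y a)) = w := by
    rw [hyn, hy, refl_smul _ _ ht, refl_smul _ _ ht, hb, smul_smul]
    have : 2 * ‖w‖ / 2 * ‖w‖⁻¹ = 1 := by field_simp
    rw [this, one_smul]
  have h12 : ⟪y, g₁⟫_ℝ = Real.tan θ * ⟪y, g₂⟫_ℝ := by
    rw [inner_sub_right, real_inner_smul_right] at hq
    rw [hy, real_inner_smul_left, real_inner_smul_left]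
    linear_combination t * hq
  have h2 : 0 ≤ ⟪y, g₂⟫_ℝ := by rw [hy, real_inner_smul_left]; exact ht3
  rcases h2.lt_or_eq with h2 | h2
  · refine Or.inl ⟨y, ⟨?_, h2⟩, ?_⟩
    · have : ‖y‖ ^ 2 < 1 := by rw [hyn]; linarith
      exact (pow_lt_one_iff_of_nonneg (norm_nonneg _) two_ne_zero).mp this
    · have hab := abs_lt.mp hz2
      unfold Phi
      rw [hG, h12, mul_div_assoc, div_self h2.ne', mul_one, Real.arctan_tan hab.1 hab.2]
      exact hzw.symm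
  · refine Or.inr (Or.inr ⟨y, θ, smul_ne_zero ht hy0, ?_, h2.symm, ?_⟩)
    · rw [h12, ← h2, mul_zero]
    · rw [hG]; exact hzw

theorem cyl_le_jac (hN : 2 ≤ N) {V : E N → E N} (hV : ContDiff ℝ (⊤ : ℕ∞) V)
    (hT : ∀ x ∈ sphere (0 : E N) 1, ⟪x, V x⟫_ℝ = 0 ∧ ‖V x‖ = 1)
    {a g₁ g₂ : E N} (ha : ‖a‖ = 1) (hg : LinearIndependent ℝ ![g₁, g₂]) :
    volume (cyl a) ≤ ∫⁻ y in half g₂, jac V (refl y a) g₁ g₂ y := by
  have hm : MeasurableSet (half g₂) := (cover_isOpen_half g₂).measurableSet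
  have hD : ∀ y ∈ half g₂, HasFDerivAt (Phi V a g₁ g₂) (fderiv ℝ (Phi V a g₁ g₂) y) y ∧
      ENNReal.ofReal |(fderiv ℝ (Phi V a g₁ g₂) y).det| = jac V (refl y a) g₁ g₂ y := by
    intro y hy
    obtain ⟨D, h1, h2⟩ := hasFDerivAt_Phi (W := V) (g₁ := g₁) ha hy.2.ne'
      (good_of_smooth hV hT (by rw [norm_refl, ha]))
    rw [h1.fderiv]
    exact ⟨h1, h2⟩
  have h1 := addHaar_image_le_lintegral_abs_det_fderiv volume hm
    (fun y hy => (hD y hy).1.hasFDerivWithinAt)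
  rw [setLIntegral_congr_fun hm (fun y hy => (hD y hy).2)] at h1
  calc volume (cyl a) ≤ volume (Phi V a g₁ g₂ '' half g₂ ∪
      (((ℝ ∙ a : Submodule ℝ (E N)) : Set (E N)) ∪ coverBad V a g₁ g₂)) :=
        measure_mono (cover_subset hN hV hT g₁ g₂ ha)
    _ ≤ volume (Phi V a g₁ g₂ '' half g₂) +
        volume (((ℝ ∙ a : Submodule ℝ (E N)) : Set (E N)) ∪ coverBad V a g₁ g₂) :=
        measure_union_le _ _
    _ = volume (Phi V a g₁ g₂ '' half g₂) := by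
        rw [measure_union_null (cover_line_null a) (cover_bad_null hV a hg), add_zero]
    _ ≤ _ := h1

end Pool.Agent.Ped
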