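import Mathlib

/-!
Definitions for the volume of unit vector fields on odd spheres (mod two Crofton argument).
-/

open MeasureTheory Metric Set Matrix
open scoped InnerProductSpace ENNReal

namespace Pool.Agent.Ped

/-- The ambient space of the sphere of dimension `N + 1`. -/
abbrev E (N : ℕ) := EuclideanSpace ℝ (Fin (N + 2))

variable {N : ℕ}

/-- Reflection of `z` in the hyperplane orthogonal to `y`. -/
noncomputable def refl (y z : E N) : E N := z - (2 * ⟪y, z⟫_ℝ / ‖y‖ ^ 2) • y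

/-- Projection onto the tangent space of the sphere at `x`. -/
noncomputable def proj (x : E N) : E N →L[ℝ] E N :=
  ContinuousLinearMap.id ℝ (E N) - (innerSL ℝ x).smulRight x

/-- Covariant derivative of a field. -/
noncomputable def cov (W : E N → E N) (x : E N) : E N →L[ℝ] E N :=
  proj x * fderiv ℝ W x * proj x

/-- Volume density of the Sasaki metric. -/
noncomputable def dens (A : E N →L[ℝ] E N) : ℝ :=
  Real.sqrt (LinearMap.det
    (((1 : E N →L[ℝ] E N) + ContinuousLinearMap.adjoint A * A).toLinearMap))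

/-- Hausdorff measure on the unit sphere. -/
noncomputable def sph (N : ℕ) : Measure (E N) :=
  (Measure.hausdorffMeasure ((N + 1 : ℕ) : ℝ)).restrict (sphere (0 : E N) 1)

/-- The parallel transport field. -/
noncomputable def par (a v : E N) : E N → E N :=
  fun y => v - (⟪v, y⟫_ℝ / (1 + ⟪y, a⟫_ℝ)) • (y + a)

/-- `W` is differentiable at the point `x` of the sphere and is a unit tangent field on the
sphere near `x`. -/
def Good (W : E N → E N) (x : E N) : Prop :=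
  ‖x‖ = 1 ∧ DifferentiableAt ℝ W x ∧
    ∀ᶠ z in nhdsWithin x (sphere (0 : E N) 1), ⟪z, W z⟫_ℝ = 0 ∧ ‖W z‖ = 1

/-- A frame: base point `x`, unit tangent vector `v`, and a covariant derivative `A`. -/
structure Frame (x v : E N) (A : E N →L[ℝ] E N) : Prop where
  nx : ‖x‖ = 1
  nv : ‖v‖ = 1
  xv : ⟪x, v⟫_ℝ = 0
  ax : A x = 0
  rx : ∀ w, ⟪x, A w⟫_ℝ = 0
  rv : ∀ w, ⟪v, A w⟫_ℝ = 0

/-- The skew map `w ↦ ⟪y, v⟫ w - ⟪v, w⟫ y`. -/
noncomputable def wedge (y v : E N) : E N →L[ℝ] E N :=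
  ⟪y, v⟫_ℝ • ContinuousLinearMap.id ℝ (E N) - (innerSL ℝ v).smulRight y

/-- The derivative of the Crofton map, up to a reflection. -/
noncomputable def Kop (x v : E N) (A : E N →L[ℝ] E N) (y ζ : E N) : E N →L[ℝ] E N :=
  (innerSL ℝ y).smulRight v + (innerSL ℝ ζ).smulRight x - (proj x * wedge y v - A * wedge y x)

/-- Gradient of the angle function. -/
noncomputable def zeta (g₁ g₂ y : E N) : E N :=
  (⟪y, g₁⟫_ℝ ^ 2 + ⟪y, g₂⟫_ℝ ^ 2)⁻¹ • (⟪y, g₂⟫_ℝ • g₁ - ⟪y, g₁⟫_ℝ • g₂)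

/-- The Crofton map. -/
noncomputable def Phi (W : E N → E N) (a g₁ g₂ y : E N) : E N :=
  (‖y‖ ^ 2 / 2) • refl y (W (refl y a)) + Real.arctan (⟪y, g₁⟫_ℝ / ⟪y, g₂⟫_ℝ) • a

/-- Jacobian of the Crofton map in terms of the base point `x`. -/
noncomputable def jac (W : E N → E N) (x g₁ g₂ y : E N) : ℝ≥0∞ :=
  ENNReal.ofReal |(Kop x (W x) (cov W x) y (zeta g₁ g₂ y)).det|

/-- The half ball. -/
def half (g : E N) : Set (E N) := {y | ‖y‖ < 1 ∧ 0 < ⟪y, g⟫_ℝ}

/-- The target cylinder. -/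
def cyl (a : E N) : Set (E N) := {z | ‖proj a z‖ < 1 / 2 ∧ |⟪a, z⟫_ℝ| < Real.pi / 2}

/-- The last `N` coordinates. -/
def tail (y : E N) : Fin N → ℝ := fun j => y j.succ.succ

/-- Gram matrix of the vectors `A_j y`, where `A_j` is the skew matrix with blocks
`β j`, column `j` of `X`, column `j` of `V`. -/
noncomputable def gram (X V : Matrix (Fin N) (Fin N) ℝ) (β : Fin N → ℝ) (y : E N) :
    Matrix (Fin N) (Fin N) ℝ :=
  (y 0 • X + y 1 • V)ᵀ * (y 0 • X + y 1 • V)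
    + vecMulVec (Xᵀ *ᵥ tail y + y 1 • β) (Xᵀ *ᵥ tail y + y 1 • β)
    + vecMulVec (Vᵀ *ᵥ tail y - y 0 • β) (Vᵀ *ᵥ tail y - y 0 • β)

/-- The Crofton density. -/
noncomputable def crof (X V : Matrix (Fin N) (Fin N) ℝ) (β : Fin N → ℝ) (y : E N) : ℝ :=
  Real.sqrt (gram X V β y).det

/-- Volume of the frame. -/
noncomputable def fvol (X V : Matrix (Fin N) (Fin N) ℝ) (β : Fin N → ℝ) : ℝ :=
  Real.sqrt (Xᵀ * X + Vᵀ * V + vecMulVec β β).det

/-- Gaussian integral. -/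
noncomputable def gauss (f : E N → ℝ) : ℝ≥0∞ :=
  ∫⁻ y, ENNReal.ofReal (f y * Real.exp (-‖y‖ ^ 2 / 2))

/-- The Crofton constant. -/
noncomputable def kap (N : ℕ) : ℝ≥0∞ :=
  gauss fun y : E N => |y 0| ^ (N - 1) * Real.sqrt (‖y‖ ^ 2 - y 1 ^ 2)

/-- Coordinates of a covariant derivative in an adapted orthonormal basis. -/
noncomputable def cX (b : OrthonormalBasis (Fin (N + 2)) ℝ (E N)) (A : E N →L[ℝ] E N) :
    Matrix (Fin N) (Fin N) ℝ :=
  fun i j => -⟪A (b i.succ.succ), b j.succ.succ⟫_ℝ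

/-- Coordinates of the derivative of the field along itself. -/
noncomputable def cB (b : OrthonormalBasis (Fin (N + 2)) ℝ (E N)) (A : E N →L[ℝ] E N) :
    Fin N → ℝ :=
  fun j => -⟪A (b 1), b j.succ.succ⟫_ℝ

/-- The core inequality in dimension `N`. -/
def CoreIneq (N : ℕ) : Prop :=
  ∀ (X : Matrix (Fin N) (Fin N) ℝ) (β : Fin N → ℝ),
    gauss (crof X 1 β) ≤ kap N * ENNReal.ofReal (fvol X 1 β)

end Pool.Agent.Ped
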