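import Pool.Agent.P.MP_e09f5c_gt.Master

/-! Reduction of the conditions at one angle to inequalities free of `q`. -/

namespace Pool.Agent.Ped

variable {n : ℕ}

section Facts

variable {F : Fr} {co si : ℝ}

theorem gen_gb_eq (F : Fr) (h : co ^ 2 + si ^ 2 = 1) :
    F.gb co si = co ^ 2 + F.q * (si ^ 2 - co ^ 2) := by
  unfold Fr.gb; ring

theorem gen_ka_gb (hF : F.Ok) (h : co ^ 2 + si ^ 2 = 1) :
    F.ka co si * F.gb co si = (2 * F.q - 1) * (si * co) := by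
  have hg := (hF.gb_pos h).ne'
  unfold Fr.ka; field_simp

theorem gen_pc_le (hF : F.Ok) (h : co ^ 2 + si ^ 2 = 1) :
    (1 - 2 * F.q) * co ^ 2 ≤ F.gb co si := by
  have := hF.q_pos
  have h3 : F.gb co si = F.q + (1 - 2 * F.q) * co ^ 2 := by
    unfold Fr.gb; linear_combination F.q * h
  linarith

theorem gen_kasc_gb (hF : F.Ok) (h : co ^ 2 + si ^ 2 = 1) :
    F.ka co si * (si * co) * F.gb co si = -((1 - 2 * F.q) * (si ^ 2 * co ^ 2)) := by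
  have := gen_ka_gb hF h
  linear_combination (si * co) * this

theorem gen_kasc_nonpos (hF : F.Ok) (h : co ^ 2 + si ^ 2 = 1) : F.ka co si * (si * co) ≤ 0 := by
  have hg := hF.gb_pos h
  have h1 := gen_kasc_gb hF h
  have h2 : 0 ≤ (1 - 2 * F.q) * (si ^ 2 * co ^ 2) :=
    mul_nonneg (by linarith [hF.q_le]) (by positivity)
  by_contra hc
  have := mul_pos (not_le.1 hc) hg
  linarith

theorem gen_kasc_ge (hF : F.Ok) (h : co ^ 2 + si ^ 2 = 1) : -si ^ 2 ≤ F.ka co si * (si * co) := by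
  have hg := hF.gb_pos h
  have h1 := gen_kasc_gb hF h
  have h2 := mul_le_mul_of_nonneg_left (gen_pc_le hF h) (sq_nonneg si)
  refine le_of_mul_le_mul_right ?_ hg
  nlinarith

theorem gen_kasq_gb (hF : F.Ok) (h : co ^ 2 + si ^ 2 = 1) :
    F.ka co si ^ 2 * F.gb co si ≤ si ^ 2 := by
  have hg := hF.gb_pos h
  have h1 := gen_ka_gb hF h
  have h2 := gen_pc_le hF h
  have h3 : (1 - 2 * F.q) ^ 2 * co ^ 2 ≤ F.gb co si := by
    have a1 : 0 ≤ 1 - 2 * F.q := by linarith [hF.q_le]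
    have a2 : 1 - 2 * F.q ≤ 1 := by linarith [hF.q_pos]
    have a3 : 0 ≤ (1 - 2 * F.q) * co ^ 2 := mul_nonneg a1 (sq_nonneg _)
    nlinarith
  refine le_of_mul_le_mul_right ?_ hg
  have : F.ka co si ^ 2 * F.gb co si * F.gb co si = (1 - 2 * F.q) ^ 2 * co ^ 2 * si ^ 2 := by
    have : F.ka co si ^ 2 * F.gb co si * F.gb co si = (F.ka co si * F.gb co si) ^ 2 := by ring
    rw [this, h1]; ring
  rw [this]
  nlinarith [sq_nonneg si]

theorem gen_inv_gb (hF : F.Ok) (h : co ^ 2 + si ^ 2 = 1) {q0 : ℝ} (hq : F.q ≤ q0) (h0 : q0 ≤ 1) :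
    1 + (1 - q0) * si ^ 2 + ((1 - q0) * si ^ 2) ^ 2 ≤ 1 / F.gb co si := by
  have hg := hF.gb_pos h
  have hq0 := hF.q_pos
  set u := (1 - q0) * si ^ 2 with hu
  have hu0 : 0 ≤ u := mul_nonneg (by linarith) (sq_nonneg _)
  have h1 : F.gb co si ≤ 1 - u := by
    rw [hu]; unfold Fr.gb
    have : co ^ 2 = 1 - si ^ 2 := by linarith
    nlinarith [sq_nonneg si, sq_nonneg co, mul_nonneg hq0.le (sq_nonneg co),
      mul_nonneg (sub_nonneg.2 hq) (sq_nonneg si)]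
  rw [le_div_iff₀ hg]
  have h2 : (1 + u + u ^ 2) * F.gb co si ≤ (1 + u + u ^ 2) * (1 - u) :=
    mul_le_mul_of_nonneg_left h1 (by positivity)
  have h3 : (1 + u + u ^ 2) * (1 - u) = 1 - u ^ 3 := by ring
  have : 0 ≤ u ^ 3 := by positivity
  linarith

theorem gen_max (h : co ^ 2 + si ^ 2 = 1) (u v : ℝ) : u * co ^ 2 + si ^ 2 * v ≤ max u v := by
  have h1 := mul_le_mul_of_nonneg_right (le_max_left u v) (sq_nonneg co)
  have h2 := mul_le_mul_of_nonneg_left (le_max_right u v) (sq_nonneg si)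
  have : max u v * co ^ 2 + si ^ 2 * max u v = max u v := by linear_combination (max u v) * h
  linarith

theorem gen_g1_nonneg (hF : F.Ok) (co si : ℝ) : 0 ≤ F.g1 co si := by
  have h1 := hF.X2_nonneg
  have h2 := hF.q1_nonneg
  have h3 := hF.cs
  unfold Fr.g1
  by_contra hc
  push Not at hc
  have h4 : 0 ≤ F.X2 * co ^ 2 + F.q1 * si ^ 2 := by positivity
  have h5 : (F.X2 * co ^ 2 + F.q1 * si ^ 2) ^ 2 < (2 * (si * co) * F.γ) ^ 2 := by nlinarith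
  have h6 : (2 * (si * co) * F.γ) ^ 2 ≤ 4 * (si * co) ^ 2 * (F.X2 * F.q1) := by
    nlinarith [mul_le_mul_of_nonneg_left h3 (sq_nonneg (si * co))]
  nlinarith [sq_nonneg (F.X2 * co ^ 2 - F.q1 * si ^ 2)]

theorem gen_P1_nonneg (hF : F.Ok) (co si : ℝ) : 0 ≤ F.P1 co si := by
  have := gen_g1_nonneg hF (-si) co
  unfold Fr.g1 at this
  unfold Fr.P1
  linarith [this, neg_sq si]

theorem gen_h1_sq (hF : F.Ok) (h : co ^ 2 + si ^ 2 = 1) :
    F.h1 co si ^ 2 ≤ F.g1 co si * F.P1 co si := by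
  have : F.g1 co si * F.P1 co si - F.h1 co si ^ 2
      = (F.X2 * F.q1 - F.γ ^ 2) * (co ^ 2 + si ^ 2) ^ 2 := by
    unfold Fr.g1 Fr.P1 Fr.h1; ring
  rw [h] at this
  linarith [hF.cs]

end Facts

/-- The auxiliary numbers used when `q` and `q1` are small. -/
noncomputable def auxA (n : ℕ) (F : Fr) (co si σ t1 t2 ε3 ε4 x x' : ℝ) : Aux where
  E1 := σ * t1
  E2 := σ * t2
  ε3 := ε3
  ε4 := ε4
  x := x
  x' := x'
  Y := 2 * ε3
  mm := (n - 2) * co ^ 2 + si ^ 2 * (((n : ℝ) - 2) ^ 2 / (n * F.gb co si))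
  m' := (n - 1) * co ^ 2 + si ^ 2 * (((n : ℝ) - 1) ^ 2 / (n * F.gb co si))

/-- Lower bound for `gb * Wexp` with `gb` replaced by `g`. -/
noncomputable def Wq (n : ℕ) (σ z : ℝ) (m : Mo) (C : Ch) (t2 g : ℝ) : ℝ :=
  g * (m.Wr - σ * t2 - (n + 2) * C.Ca + (n - 1) * (1 - z) * (m.Bl + σ * t2 / n + C.Ca))
    - 2 * z * (1 - z) * C.Cz + z * ((n : ℝ) - 1) ^ 2 / n * (m.Bl + σ * t2 / n + C.Ca)

/-- Sufficient conditions, free of `q`. -/
structure SA (n : ℕ) (q0 σ z : ℝ) (m : Mo) (C : Ch) (t1 t2 ε3 ε4 x x' η α1 α2 α3 α4 : ℝ) :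
    Prop where
  t1_nonneg : 0 ≤ t1
  t2_nonneg : 0 ≤ t2
  Bl_nonneg : 0 ≤ m.Bl
  m22_nonneg : 0 ≤ m.m22
  ε3_nonneg : 0 ≤ ε3
  hε3 : m.Be - (m.Bl + σ * t2 / n) ≤ ε3
  ε4_nonneg : 0 ≤ ε4
  hε4 : m.Bl - m.Be ≤ ε4
  x_pos : 0 < x
  x'_pos : 0 < x'
  Ca1 : m.mup + x * m.m22 + ε4 + 2 * ε3 ≤ C.Ca
  Ca2 : n * m.m22 * (1 + x') + 2 * ε3 ≤ C.Ca
  fb_nonneg : 0 ≤ C.fb
  Cb1 : m.m40 + (n - 1) * m.m22 + m.m22 / x + ε3 ≤ C.Ca + C.fb
  Cb2 : m.mup + m.m22 ≤ C.Ca + C.fb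
  Cb3 : m.m22 * (1 + 1 / x') ≤ C.Ca + C.fb
  hph : 2 * (σ * t1 + σ * t2) ≤ C.ph
  kk_nonneg : 0 ≤ C.kk
  Cz_nonneg : 0 ≤ C.Cz
  W0 : 0 ≤ Wq n σ z m C t2 (1 - z)
  W1 : 0 ≤ Wq n σ z m C t2 (1 - z + q0 * (2 * z - 1))
  hW0 : (σ * t1 + σ * t2) ^ 2 ≤ C.kk * Wq n σ z m C t2 (1 - z)
  hW1 : (σ * t1 + σ * t2) ^ 2 ≤ C.kk * Wq n σ z m C t2 (1 - z + q0 * (2 * z - 1))
  η_pos : 0 < η
  hH : (1 + η) * C.fb ≤ (m.Bl + σ * t2 / n + C.Ca + C.fb) * (((n : ℝ) - 2) ^ 2 / n)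
  h1 : α1 ≤ m.Wr - σ * t2 - (n + 2) * C.Ca - 2 * z * C.Cz - (n + 1) * C.fb
    + (n - 2) * (1 - z) * (m.Bl + σ * t2 / n + C.Ca + C.fb)
    + z * ((m.Bl + σ * t2 / n + C.Ca + C.fb) * (((n : ℝ) - 2) ^ 2 / n) - (1 + η) * C.fb)
      * (1 + (1 - q0) * z + ((1 - q0) * z) ^ 2)
    + m.Be + C.Ca + (σ * t1 + σ * t2) - C.ph * z
  h2 : α2 ≤ m.Be + C.Ca - C.fb / η + C.ph * (z - (n + 2) * (1 - z) + ((n - 2) * (1 - z)
    + z * (((n : ℝ) - 2) ^ 2 / n) * (1 + (1 - q0) * z + ((1 - q0) * z) ^ 2)) * (1 - z))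
    - 2 * z * (1 - z) * C.pz
  h3 : α3 ≤ m.Wr + n * m.Bl
  h4 : (σ * t1 + σ * t2) * (1 + z) - σ * t2 * z + C.kk * ((n + 1 - (n - 2) * (1 - z)) * z
    * (1 - z + q0) + z ^ 2 * (1 - ((n : ℝ) - 2) ^ 2 / n) + 2 * z * (1 - z)) ≤ α4
  K1 : 0 ≤ (1 - σ) * ((1 - z) * α1 + z * α2 - z * (1 - z) * (α2 - α1) / 2 - α4) + σ * α3
  K2 : 0 ≤ (1 - σ) * ((1 - z) * α1 + z * α2 + z * (1 - z) * (α2 - α1) / 2 - α4) + σ * α3
  K3 : 0 ≤ 19 * ((1 - σ) * ((1 - z) * α1 + z * α2 - z * (1 - z) * (α2 - α1) / 2 - α4) + σ * α3)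
    + (z * α1 + (1 - z) * α2 - 2 * (α2 - α1))
  K4 : 0 ≤ 19 * ((1 - σ) * ((1 - z) * α1 + z * α2 + z * (1 - z) * (α2 - α1) / 2 - α4) + σ * α3)
    + (z * α1 + (1 - z) * α2 + 2 * (α2 - α1))

theorem gen_W (hn : 2 ≤ n) {F : Fr} (hF : F.Ok) {co si : ℝ} (h : co ^ 2 + si ^ 2 = 1)
    {σ t1 t2 ε3 ε4 x x' : ℝ} {m : Mo} {C : Ch} (hCa : 0 ≤ C.Ca) (hCz : 0 ≤ C.Cz) :
    Wq n σ (si ^ 2) m C t2 (F.gb co si)
      ≤ F.gb co si * Wexp n F m C (auxA n F co si σ t1 t2 ε3 ε4 x x') co si := by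
  have hg := hF.gb_pos h
  have hn0 : (0 : ℝ) < n := by exact_mod_cast (by omega : 0 < n)
  have hc : co ^ 2 = 1 - si ^ 2 := by linarith
  have hk := gen_kasc_gb hF h
  have hd : 0 ≤ F.dl := mul_nonneg (by linarith [hF.q_le]) hF.q_pos.le
  have e : F.gb co si * Wexp n F m C (auxA n F co si σ t1 t2 ε3 ε4 x x') co si
      = Wq n σ (si ^ 2) m C t2 (F.gb co si) + C.Ca * (F.dl / F.gb co si)
        + 2 * C.Cz * (F.ka co si * (si * co) * F.gb co si + si ^ 2 * co ^ 2) := by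
    unfold Wexp Aa Wq auxA
    simp only
    rw [hc]
    field_simp
    ring
  rw [e, hk]
  have h1 : 0 ≤ C.Ca * (F.dl / F.gb co si) := by positivity
  have h2 : 0 ≤ 2 * C.Cz * (-((1 - 2 * F.q) * (si ^ 2 * co ^ 2)) + si ^ 2 * co ^ 2) := by
    have : -((1 - 2 * F.q) * (si ^ 2 * co ^ 2)) + si ^ 2 * co ^ 2 = 2 * F.q * (si ^ 2 * co ^ 2) := by
      ring
    rw [this]
    have := hF.q_pos
    positivity
  linarith

theorem gen_Wq_interp {q0 q σ z t2 k E : ℝ} {m : Mo} {C : Ch} (h0 : 0 < q) (h1 : q ≤ q0)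
    (a0 : E ≤ k * Wq n σ z m C t2 (1 - z)) (a1 : E ≤ k * Wq n σ z m C t2 (1 - z + q0 * (2 * z - 1))) :
    E ≤ k * Wq n σ z m C t2 (1 - z + q * (2 * z - 1)) := by
  have hq0 : 0 < q0 := lt_of_lt_of_le h0 h1
  have e : q0 * (k * Wq n σ z m C t2 (1 - z + q * (2 * z - 1)))
      = (q0 - q) * (k * Wq n σ z m C t2 (1 - z))
        + q * (k * Wq n σ z m C t2 (1 - z + q0 * (2 * z - 1))) := by
    unfold Wq; ring
  refine le_of_mul_le_mul_left ?_ hq0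
  rw [e]
  nlinarith [mul_le_mul_of_nonneg_left a0 (sub_nonneg.2 h1), mul_le_mul_of_nonneg_left a1 h0.le]

theorem gen_two_mul {w u v : ℝ} (hu : 0 ≤ u) (hv : 0 ≤ v) (h : w ^ 2 ≤ u * v) :
    -(u + v) ≤ 2 * w ∧ 2 * w ≤ u + v := by
  have h1 : (2 * w) ^ 2 ≤ (u + v) ^ 2 := by nlinarith [sq_nonneg (u - v)]
  exact abs_le.1 (abs_le_of_sq_le_sq' h1 (by linarith) |> abs_le.2)

theorem gen_G (hn : 2 ≤ n) {F : Fr} (hF : F.Ok) {co si : ℝ} (h : co ^ 2 + si ^ 2 = 1)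
    {q0 σ t1 t2 ε3 ε4 x x' η α1 α2 α3 α4 : ℝ} {m : Mo} {C : Ch} (hq : F.q ≤ q0) (hq0 : q0 ≤ 1)
    (hq1 : F.q1 ≤ 1 / 20) (hσ0 : 0 ≤ σ) (hX : F.X2 = (1 - σ) * (1 - F.q1))
    (hs : F.s ^ 2 = σ * (1 - F.q1))
    (H : SA n q0 σ (si ^ 2) m C t1 t2 ε3 ε4 x x' η α1 α2 α3 α4) :
    0 ≤ Gexp n F m C (auxA n F co si σ t1 t2 ε3 ε4 x x') co si := by
  have hg := hF.gb_pos h
  have hn0 : (0 : ℝ) < n := by exact_mod_cast (by omega : 0 < n)
  have hc : co ^ 2 = 1 - si ^ 2 := by linarith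
  have hz0 : 0 ≤ si ^ 2 := sq_nonneg _
  have hc0 : 0 ≤ 1 - si ^ 2 := by rw [← hc]; positivity
  have hd : 0 ≤ F.dl / F.gb co si ^ 2 :=
    div_nonneg (mul_nonneg (by linarith [hF.q_le]) hF.q_pos.le) (sq_nonneg _)
  have hg1 := gen_g1_nonneg hF co si
  have hP1 := gen_P1_nonneg hF co si
  have hfb := H.fb_nonneg
  have hη := H.η_pos
  have hCa : 0 ≤ C.Ca := by
    have := H.Ca2
    have h1 : 0 ≤ n * m.m22 * (1 + x') := by
      have := H.m22_nonneg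
      have := H.x'_pos
      positivity
    linarith [H.ε3_nonneg]
  have hE : 0 ≤ σ * t1 + σ * t2 :=
    add_nonneg (mul_nonneg hσ0 H.t1_nonneg) (mul_nonneg hσ0 H.t2_nonneg)
  have hph : 0 ≤ C.ph := by linarith [H.hph]
  have hk1 := gen_kasc_ge hF h
  have hk2 := gen_kasc_nonpos hF h
  have hk3 := gen_kasq_gb hF h
  have hig := gen_inv_gb hF h hq hq0
  have hk4 : F.ka co si ^ 2 ≤ si ^ 2 * (1 / F.gb co si) := by
    rw [mul_one_div, le_div_iff₀ hg]; exact hk3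
  set g := F.gb co si with hgdef
  set k := F.ka co si with hkdef
  set ig := 1 + (1 - q0) * si ^ 2 + ((1 - q0) * si ^ 2) ^ 2 with higdef
  set S := m.Bl + σ * t2 / n + C.Ca + C.fb with hS
  set ν := ((n : ℝ) - 2) ^ 2 / n with hν
  have hν0 : 0 ≤ ν := by positivity
  have hmm : (auxA n F co si σ t1 t2 ε3 ε4 x x').mm
      = (n - 2) * (1 - si ^ 2) + si ^ 2 * ν * (1 / g) := by
    unfold auxA; simp only; rw [hc, hν, ← hgdef]; field_simp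
  -- the two terms with `h1`
  have b1 : -(η * k ^ 2 * F.g1 co si + F.P1 co si / η) ≤ 2 * (k * F.h1 co si) := by
    refine (gen_two_mul (by positivity) (by positivity) ?_).1
    have e : η * k ^ 2 * F.g1 co si * (F.P1 co si / η) = k ^ 2 * (F.g1 co si * F.P1 co si) := by
      field_simp
    rw [e, mul_pow]
    exact mul_le_mul_of_nonneg_left (gen_h1_sq hF h) (sq_nonneg _)
  have b2 : 2 * (si * co) * F.h1 co si
      = F.q1 - si ^ 2 * F.g1 co si - (1 - si ^ 2) * F.P1 co si := by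
    unfold Fr.h1 Fr.g1 Fr.P1
    have h2 : (si * co) ^ 2 = si ^ 2 * (1 - si ^ 2) := by rw [mul_pow, hc]
    linear_combination (2 * (F.q1 - F.X2)) * h2
      + (2 * (si * co) * F.γ + si ^ 2 * F.X2 + (1 - si ^ 2) * F.q1) * hc
  -- coefficient of `g1`
  have a1 : α1 ≤ m.Wr - σ * t2 + C.Ca * (F.dl / g ^ 2 - n - 2) + 2 * k * (si * co) * C.Cz
      + C.fb * (F.dl / g ^ 2 - (n + 1) - k ^ 2)
      + ((n - 2) * (1 - si ^ 2) + si ^ 2 * ν * (1 / g)) * S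
      - C.fb * (η * k ^ 2) + (m.Be + C.Ca) + (σ * t1 + σ * t2) - C.ph * si ^ 2 := by
    have c1 := H.h1
    have c2 : 0 ≤ S * ν - (1 + η) * C.fb := sub_nonneg.2 H.hH
    have c3 := mul_le_mul_of_nonneg_left hig (mul_nonneg hz0 c2)
    have c4 := mul_le_mul_of_nonneg_left hk4 (mul_nonneg (by linarith : (0 : ℝ) ≤ 1 + η) hfb)
    have c5 := mul_le_mul_of_nonneg_left hk1 H.Cz_nonneg
    have c6 := mul_nonneg hCa hd
    have c7 := mul_nonneg hfb hd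
    linarith only [c1, c3, c4, c5, c6, c7]
  -- coefficient of `P1`
  have a2 : α2 ≤ m.Be + C.Ca - C.fb / η
      + C.ph * ((n + 1) * (si ^ 2 - (1 - si ^ 2)) + n * k * (si * co)
        + ((n - 2) * (1 - si ^ 2) + si ^ 2 * ν * (1 / g)) * (1 - si ^ 2))
      - C.ph * (1 - si ^ 2) - 2 * si ^ 2 * (1 - si ^ 2) * C.pz := by
    have c1 := H.h2
    have c2 := mul_le_mul_of_nonneg_left hig
      (mul_nonneg hph (mul_nonneg (mul_nonneg hz0 hν0) hc0))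
    have c3 := mul_le_mul_of_nonneg_left hk1 (mul_nonneg hph hn0.le)
    linarith only [c1, c2, c3]
  -- coefficient of `X2`
  have a4 : -α4 ≤ σ * t2 * si ^ 2 - (σ * t1 + σ * t2) * (1 + si ^ 2)
      + C.kk * (g * si ^ 2 * (F.dl / g ^ 2 - (n + 1) - k ^ 2
          + ((n - 2) * (1 - si ^ 2) + si ^ 2 * ν * (1 / g)))
        + 2 * k * (si * co) * (g + si ^ 2 * (2 * F.q - 1))) := by
    have c1 := H.h4
    have hn2 : (2 : ℝ) ≤ n := by exact_mod_cast hn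
    have d1 : g ≤ 1 - si ^ 2 + q0 := by
      rw [hgdef, gen_gb_eq F h, hc]
      linarith only [hq, mul_nonneg hF.q_pos.le hc0]
    have d2 : 0 ≤ (n + 1 - (n - 2) * (1 - si ^ 2)) * si ^ 2 :=
      mul_nonneg (by linarith only [mul_nonneg (sub_nonneg.2 hn2) hz0]) hz0
    have d3 := mul_le_mul_of_nonneg_left d1 d2
    have d4 := mul_le_mul_of_nonneg_left hk3 hz0
    have d5 : g * (1 / g) = 1 := by field_simp
    have d6 := gen_kasc_gb hF h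
    rw [← hgdef, ← hkdef, hc] at d6
    have d7 : 0 ≤ F.q * (si ^ 2 * (1 - si ^ 2)) := mul_nonneg hF.q_pos.le (mul_nonneg hz0 hc0)
    have d8 : 0 ≤ -(k * (si * co)) * (si ^ 2 * (1 - 2 * F.q)) :=
      mul_nonneg (by linarith) (mul_nonneg hz0 (by linarith [hF.q_le]))
    have d9 : 0 ≤ g * si ^ 2 * (F.dl / g ^ 2) := by positivity
    have d10 : -((n + 1 - (n - 2) * (1 - si ^ 2)) * si ^ 2 * (1 - si ^ 2 + q0)
        + (si ^ 2) ^ 2 * (1 - ν) + 2 * si ^ 2 * (1 - si ^ 2))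
        ≤ g * si ^ 2 * (F.dl / g ^ 2 - (n + 1) - k ^ 2
          + ((n - 2) * (1 - si ^ 2) + si ^ 2 * ν * (1 / g)))
        + 2 * k * (si * co) * (g + si ^ 2 * (2 * F.q - 1)) := by
      have e : g * si ^ 2 * (si ^ 2 * ν * (1 / g)) = (si ^ 2) ^ 2 * ν := by
        linear_combination ((si ^ 2) ^ 2 * ν) * d5
      linarith only [e, d3, d4, d6, d7, d8, d9]
    have d11 := mul_le_mul_of_nonneg_left d10 H.kk_nonneg
    linarith only [c1, d11]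
  have hX0 := hF.X2_nonneg
  have hq10 := hF.q1_nonneg
  have m1 := mul_le_mul_of_nonneg_left a1 hg1
  have m2 := mul_le_mul_of_nonneg_left a2 hP1
  have m3 := mul_le_mul_of_nonneg_left H.h3 (sq_nonneg F.s)
  have m4 := mul_le_mul_of_nonneg_left a4 hX0
  have m5 := mul_le_mul_of_nonneg_left b1 hfb
  have m6 := mul_nonneg hph hq10
  have key : F.g1 co si * α1 + F.P1 co si * α2 + F.s ^ 2 * α3 - F.X2 * α4
      ≤ Gexp n F m C (auxA n F co si σ t1 t2 ε3 ε4 x x') co si := by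
    unfold Gexp Aa
    rw [hmm]
    have e1 : (auxA n F co si σ t1 t2 ε3 ε4 x x').E1 = σ * t1 := rfl
    have e2 : (auxA n F co si σ t1 t2 ε3 ε4 x x').E2 = σ * t2 := rfl
    rw [e1, e2, ← hgdef, ← hkdef, ← hS, hc]
    have e3 : 2 * (si * co) * C.ph * F.h1 co si
        = C.ph * (F.q1 - si ^ 2 * F.g1 co si - (1 - si ^ 2) * F.P1 co si) := by
      rw [← b2]; ring
    rw [e3]
    have e4 : C.fb * -(η * k ^ 2 * F.g1 co si + F.P1 co si / η)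
        = -(F.g1 co si * (C.fb * (η * k ^ 2))) - F.P1 co si * (C.fb / η) := by ring
    linarith only [e4, m1, m2, m3, m4, m5, m6]
  refine le_trans ?_ key
  have hγ := gen_two_mul (w := si * co * F.γ) (u := si ^ 2 * (1 - si ^ 2) * F.X2 / 2)
    (v := 2 * F.q1) (by positivity) (by positivity) (by
      have := mul_le_mul_of_nonneg_left hF.cs (mul_nonneg hz0 hc0)
      calc (si * co * F.γ) ^ 2 = si ^ 2 * (1 - si ^ 2) * F.γ ^ 2 := by rw [← hc]; ring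
        _ ≤ _ := by linarith)
  have hR : 19 * F.q1 ≤ 1 - F.q1 := by linarith
  have e5 : F.g1 co si * α1 + F.P1 co si * α2 + F.s ^ 2 * α3 - F.X2 * α4
      = F.X2 * ((1 - si ^ 2) * α1 + si ^ 2 * α2 - α4) + F.s ^ 2 * α3
        + F.q1 * (si ^ 2 * α1 + (1 - si ^ 2) * α2) - 2 * (si * co * F.γ) * (α2 - α1) := by
    unfold Fr.g1 Fr.P1; rw [hc]; ring
  rw [e5]
  rcases le_total 0 (α2 - α1) with hα | hα
  · have f1 := mul_le_mul_of_nonneg_right hγ.2 hα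
    have f2 := mul_le_mul_of_nonneg_right hR H.K1
    have f3 := mul_nonneg hq10 H.K3
    rw [hX] at f1 ⊢
    rw [hs]
    linarith only [f1, f2, f3]
  · have f1 := mul_le_mul_of_nonneg_right hγ.1 (neg_nonneg.2 hα)
    have f2 := mul_le_mul_of_nonneg_right hR H.K2
    have f3 := mul_nonneg hq10 H.K4
    rw [hX] at f1 ⊢
    rw [hs]
    linarith only [f1, f2, f3]

theorem cond_of_SA (hn : 2 ≤ n) {F : Fr} (hF : F.Ok) {co si : ℝ} (h : co ^ 2 + si ^ 2 = 1)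
    {q0 σ t1 t2 ε3 ε4 x x' η α1 α2 α3 α4 : ℝ} {m : Mo} {C : Ch} (hq : F.q ≤ q0) (hq0 : q0 ≤ 1)
    (hq1 : F.q1 ≤ 1 / 20) (hσ0 : 0 ≤ σ) (hσ1 : σ ≤ 1) (hX : F.X2 = (1 - σ) * (1 - F.q1))
    (hs : F.s ^ 2 = σ * (1 - F.q1))
    (e1 : m.e1 = Real.sqrt (1 - σ) * |si| * Real.sqrt σ * t1)
    (e2 : m.e2 = Real.sqrt (1 - σ) * |si| * Real.sqrt σ * t2)
    (H : SA n q0 σ (si ^ 2) m C t1 t2 ε3 ε4 x x' η α1 α2 α3 α4) :
    Cond n F m C (auxA n F co si σ t1 t2 ε3 ε4 x x') co si := by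
  have hg := hF.gb_pos h
  have hR : 0 ≤ 1 - F.q1 := by linarith
  have hs' : F.s = Real.sqrt σ * Real.sqrt (1 - F.q1) := by
    rw [← Real.sqrt_mul hσ0, ← hs, Real.sqrt_sq hF.s_nonneg]
  have hX' : Real.sqrt F.X2 = Real.sqrt (1 - σ) * Real.sqrt (1 - F.q1) := by
    rw [hX, Real.sqrt_mul (by linarith)]
  have hσ : Real.sqrt σ * Real.sqrt σ = σ := Real.mul_self_sqrt hσ0
  have hCa : 0 ≤ C.Ca := by
    have := H.Ca2
    have h1 : 0 ≤ n * m.m22 * (1 + x') := by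
      have := H.m22_nonneg
      have := H.x'_pos
      positivity
    linarith [H.ε3_nonneg]
  have hW := gen_W (t1 := t1) (ε3 := ε3) (ε4 := ε4) (x := x) (x' := x') (σ := σ) (t2 := t2)
    (m := m) hn hF h hCa H.Cz_nonneg
  have hgb : F.gb co si = 1 - si ^ 2 + F.q * (2 * si ^ 2 - 1) := by
    unfold Fr.gb; linear_combination (1 - F.q) * h
  have w0 : 0 ≤ Wq n σ (si ^ 2) m C t2 (F.gb co si) := by
    have := gen_Wq_interp (k := 1) (E := 0) hF.q_pos hq (by simpa using H.W0) (by simpa using H.W1)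
    rw [hgb]; simpa using this
  have w1 : (σ * t1 + σ * t2) ^ 2 ≤ C.kk * Wq n σ (si ^ 2) m C t2 (F.gb co si) := by
    rw [hgb]; exact gen_Wq_interp hF.q_pos hq H.hW0 H.hW1
  exact
    { he1 := by
        change F.s * m.e1 = Real.sqrt F.X2 * |si| * (σ * t1)
        rw [e1, hs', hX']
        linear_combination (Real.sqrt (1 - F.q1) * Real.sqrt (1 - σ) * |si| * t1) * hσ
      he2 := by
        change F.s * m.e2 = Real.sqrt F.X2 * |si| * (σ * t2)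
        rw [e2, hs', hX']
        linear_combination (Real.sqrt (1 - F.q1) * Real.sqrt (1 - σ) * |si| * t2) * hσ
      E1_nonneg := mul_nonneg hσ0 H.t1_nonneg
      E2_nonneg := mul_nonneg hσ0 H.t2_nonneg
      Bl_nonneg := H.Bl_nonneg
      m22_nonneg := H.m22_nonneg
      ε3_nonneg := H.ε3_nonneg
      hε3 := H.hε3
      ε4_nonneg := H.ε4_nonneg
      hε4 := H.hε4
      x_pos := H.x_pos
      x'_pos := H.x'_pos
      Ca1 := H.Ca1
      Ca2 := H.Ca2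
      fb_nonneg := H.fb_nonneg
      Cb1 := H.Cb1
      Cb2 := H.Cb2
      Cb3 := H.Cb3
      hY := le_refl _
      hph := H.hph
      kk_nonneg := H.kk_nonneg
      hm' := gen_max h _ _
      hmm := gen_max h _ _
      W_nonneg := le_of_mul_le_mul_left (by linarith) hg
      hW := by
        change (σ * t1 + σ * t2) ^ 2 ≤ _
        have := mul_le_mul_of_nonneg_left hW H.kk_nonneg
        linarith [mul_assoc C.kk (F.gb co si)
          (Wexp n F m C (auxA n F co si σ t1 t2 ε3 ε4 x x') co si)]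
      hG := gen_G hn hF h hq hq0 hq1 hσ0 hX hs H }

theorem modelE_sub (hn : 1 ≤ n) {F : Fr} (hF : F.Ok) {co si : ℝ} (h : co ^ 2 + si ^ 2 = 1)
    {σ t1 t2 ε3 ε4 x x' φ : ℝ} {m : Mo} {C : Ch} (hX : F.X2 = (1 - σ) * (1 - F.q1))
    (hs : F.s ^ 2 = σ * (1 - F.q1))
    (hφ : φ = (1 - (1 - σ) * si ^ 2) * m.Wr + (1 - σ) * m.Be + n * m.Bl
      - 2 * ((1 - σ) * si ^ 2) * (σ * t1)) :
    ModelE n F m C (auxA n F co si σ t1 t2 ε3 ε4 x x') co si - (1 - F.q1) * φ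
      = F.X2 * F.q * ((n * m.Bl + σ * t2) * (co ^ 2 - si ^ 2) / F.gb co si
          + C.Ca * F.q * si ^ 2 / F.gb co si ^ 2
          + n * (1 - F.q) * (C.Ca + C.fb) * co ^ 2 / F.gb co si ^ 2
          + n * (1 - F.q) * C.kk * si ^ 2 / F.gb co si + n * C.ph * si ^ 2 / F.gb co si
          + 2 * n * ε3 * (1 - F.q) * F.ka co si ^ 2 * co ^ 2 / F.gb co si)
        + F.q1 * ((n * m.Bl + σ * t2) * si ^ 2 / F.gb co si
          + (si ^ 2 * m.Wr + m.Be + si ^ 2 * (σ * t1))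
          + C.Ca * (1 - F.q) ^ 2 * co ^ 2 / F.gb co si ^ 2
          + n * F.dl * (C.Ca + C.fb) * si ^ 2 / F.gb co si ^ 2
          + n * F.q * C.ph * co ^ 2 / F.gb co si
          + 2 * n * ε3 * F.dl * F.ka co si ^ 2 * si ^ 2 / F.gb co si) := by
  have hg := (hF.gb_pos h).ne'
  have hc : co ^ 2 = 1 - si ^ 2 := by linarith
  have h1 : co ^ 2 / F.gb co si = 1 + F.q * (co ^ 2 - si ^ 2) / F.gb co si := by
    field_simp; unfold Fr.gb; ring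
  have h2 : (F.X2 * co ^ 2 + F.q1 * si ^ 2) * (m.Wr - σ * t2 + (n * m.Bl + σ * t2) / F.gb co si)
      = (F.X2 * co ^ 2 + F.q1 * si ^ 2) * (m.Wr - σ * t2)
        + F.X2 * (n * m.Bl + σ * t2) * (1 + F.q * (co ^ 2 - si ^ 2) / F.gb co si)
        + F.q1 * si ^ 2 * (n * m.Bl + σ * t2) / F.gb co si := by
    rw [← h1]; ring
  unfold ModelE auxA
  simp only
  rw [h2, hφ, hs, hX]
  unfold Fr.dl
  rw [hc]
  field_simp
  ring

end Pool.Agent.Ped
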