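import Pool.Agent.P.MP_e09f5c_gt.Assemble
import Pool.Agent.P.MP_e09f5c_gt.Gen

/-! The two ways in which the integrated master inequality is used. -/

open MeasureTheory Metric Set Matrix
open scoped InnerProductSpace ENNReal

namespace Pool.Agent.Ped

variable {n : ℕ}

theorem exists_sigma {F : Fr} (hF : F.Ok) (hq1 : F.q1 ≤ 1 / 20) :
    ∃ σ : ℝ, 0 ≤ σ ∧ σ ≤ 1 ∧ F.X2 = (1 - σ) * (1 - F.q1) ∧ F.s ^ 2 = σ * (1 - F.q1) := by
  have h0 : 0 < 1 - F.q1 := by linarith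
  have h1 := hF.sum
  have h2 := hF.X2_nonneg
  refine ⟨F.s ^ 2 / (1 - F.q1), div_nonneg (sq_nonneg _) h0.le, ?_, ?_, ?_⟩
  · rw [div_le_one h0]; linarith
  · rw [sub_mul, div_mul_cancel₀ _ h0.ne']; linarith
  · rw [div_mul_cancel₀ _ h0.ne']

/-- The case of small `q` and `q1`. -/
theorem glueA (hn : 2 ≤ n) {X V : Mat n} {F : Fr} (h : NF X V F) {q0 σ : ℝ} (hq : F.q ≤ q0)
    (hq0 : q0 ≤ 1) (hq1 : F.q1 ≤ 1 / 20) (hσ0 : 0 ≤ σ) (hσ1 : σ ≤ 1)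
    (hX : F.X2 = (1 - σ) * (1 - F.q1)) (hs : F.s ^ 2 = σ * (1 - F.q1))
    {Ca Cz ph pz : ℝ → ℝ} (fb kk : ℝ)
    (hCa : ∀ z, HasDerivAt Ca (Cz z) z) (hCz : Continuous Cz)
    (hph : ∀ z, HasDerivAt ph (pz z) z) (hpz : Continuous pz)
    {B1 B2 : ℝ → ℝ} (hB1 : IntervalIntegrable B1 volume (-Real.pi) Real.pi)
    (hB2 : IntervalIntegrable B2 volume (-Real.pi) Real.pi)
    (hθ : ∀ θ a b : ℝ, 0 ≤ a → 0 ≤ b → a ^ 2 = (1 - σ) * Real.sin θ ^ 2 → b ^ 2 = σ →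
      ∃ t1 t2 ε3 ε4 x x' η α1 α2 α3 α4 : ℝ,
      (nmo n a b).e1 = a * b * t1 ∧ (nmo n a b).e2 = a * b * t2 ∧
      SA n q0 σ (Real.sin θ ^ 2) (nmo n a b) ⟨Ca (Real.sin θ ^ 2), Cz (Real.sin θ ^ 2), fb, kk,
        ph (Real.sin θ ^ 2), pz (Real.sin θ ^ 2)⟩ t1 t2 ε3 ε4 x x' η α1 α2 α3 α4 ∧
      Real.sqrt (F.gb (Real.cos θ) (Real.sin θ)) ^ n *
        (ModelE n F (nmo n a b) ⟨Ca (Real.sin θ ^ 2), Cz (Real.sin θ ^ 2), fb, kk,
          ph (Real.sin θ ^ 2), pz (Real.sin θ ^ 2)⟩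
          (auxA n F (Real.cos θ) (Real.sin θ) σ t1 t2 ε3 ε4 x x') (Real.cos θ) (Real.sin θ)
          - (1 - F.q1) * nphi n a b) ≤ B1 θ ∧
      (Real.sqrt (F.gb (Real.cos θ) (Real.sin θ)) ^ n - |Real.cos θ| ^ n) * nphi n a b ≤ B2 θ)
    (hfin : (2 - F.q1) * (∫ θ in (-Real.pi)..Real.pi, B2 θ) + ∫ θ in (-Real.pi)..Real.pi, B1 θ
      ≤ 2 * kh n * F.q1) :
    gauss (crof X V (ez n F.s)) ≤ kap (n + 1) := by
  have ha : √(1 - σ) ^ 2 = 1 - σ := Real.sq_sqrt (by linarith)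
  have hb : √σ ^ 2 = σ := Real.sq_sqrt hσ0
  have hab : √(1 - σ) ^ 2 + √σ ^ 2 = 1 := by rw [ha, hb]; ring
  have hθ' := fun θ : ℝ => hθ θ (√(1 - σ) * |Real.sin θ|) √σ (by positivity) (Real.sqrt_nonneg _)
    (by rw [mul_pow, ha, sq_abs]) hb
  refine assemble hn h (a := √(1 - σ)) (b := √σ) (lam := 1) (rho := 1 - F.q1) hab.le one_pos
    fb kk hCa hCz hph hpz hB1 (fun θ => ?_) ?_
  · obtain ⟨t1, t2, ε3, ε4, x, x', η, α1, α2, α3, α4, e1, e2, H, k1, -⟩ := hθ' θ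
    have h1 := Real.cos_sq_add_sin_sq θ
    refine ⟨_, cond_of_SA hn h.ok h1 hq hq0 hq1 hσ0 hσ1 hX hs e1 e2 H, ?_, k1⟩
    have e : auxA n F (Real.cos θ) (Real.sin θ) σ t1 t2 ε3 ε4 x x'
        = auxA n F (Real.cos θ) (-Real.sin θ) σ t1 t2 ε3 ε4 x x' := by
      simp only [auxA, Fr.gb, neg_sq]
    rw [e]
    exact cond_of_SA hn h.ok (by rw [neg_sq]; exact h1) hq hq0 hq1 hσ0 hσ1 hX hs
      (by rw [abs_neg]; exact e1) (by rw [abs_neg]; exact e2) (by rw [neg_sq]; exact H)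
  · have hc : Continuous fun θ : ℝ => nphi n (√(1 - σ) * |Real.sin θ|) √σ :=
      ((continuous_phi n).comp (f := fun θ : ℝ => (√(1 - σ) * |Real.sin θ|, √σ))
        (by fun_prop)).div_const _
    have c1 := continuous_iff_continuousAt.2 fun θ => (asm_dt F h.ok n θ).continuousAt
    have i1 : IntervalIntegrable (fun θ : ℝ => |Real.cos θ| ^ n *
        nphi n (√(1 - σ) * |Real.sin θ|) √σ) volume (-Real.pi) Real.pi :=
      ((Real.continuous_cos.abs.pow n).mul hc).intervalIntegrable _ _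
    have hP : PhiI n F √(1 - σ) √σ ≤ 2 * kh n + ∫ θ in (-Real.pi)..Real.pi, B2 θ := by
      rw [← star_identity n hab, ← intervalIntegral.integral_add i1 hB2]
      refine intervalIntegral.integral_mono (by linarith [Real.pi_pos])
        ((c1.mul hc).intervalIntegrable _ _) (i1.add hB2) fun θ => ?_
      obtain ⟨t1, t2, ε3, ε4, x, x', η, α1, α2, α3, α4, -, -, -, -, k2⟩ := hθ' θ
      simp only
      linarith [k2]
    have h2 := mul_le_mul_of_nonneg_left hP (show 0 ≤ 2 - F.q1 by linarith)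
    rw [div_one]
    linarith

/-- The identity for the normalised main term in the form used by `modelE_sub`. -/
theorem nphi_eq (hn : 2 ≤ n) {a b t1 : ℝ} (hab : a ^ 2 + b ^ 2 ≤ 1)
    (h1 : (nmo n a b).e1 = a * b * t1) :
    nphi n a b = (1 - a ^ 2) * (nmo n a b).Wr + (1 - b ^ 2) * (nmo n a b).Be + n * (nmo n a b).Bl
      - 2 * a ^ 2 * (b ^ 2 * t1) := by
  have hU := (U0_pos n).ne'
  have h2 : (mo n a b).e1 = U0 n * (a * b * t1) := by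
    rw [← h1]; simp only [nmo]; field_simp
  rw [nphi, phi_eq hn hab, h2]
  simp only [nmo]
  field_simp

/-- The radius function. -/
noncomputable def rq (q θ : ℝ) : ℝ := Real.sqrt ((1 - q) * Real.cos θ ^ 2 + q * Real.sin θ ^ 2)

/-- First vertex integral. -/
noncomputable def VB1 (n : ℕ) (q : ℝ) : ℝ := ∫ θ in (-Real.pi)..Real.pi, rq q θ ^ n

/-- Second vertex integral, in the unit `1 / (2 n + 3)`. -/
noncomputable def VB2 (n : ℕ) (q : ℝ) : ℝ := ∫ θ in (-Real.pi)..Real.pi,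
  (rq q θ ^ n * ((n + 2) * Real.cos θ ^ 2 + 1) + n * Real.cos θ ^ 2 * rq q θ ^ (n - 2)
    + (n + 3) / n * (q * rq q θ ^ (n - 2)
      + (n - 1) * ((1 - q) * q) * Real.cos θ ^ 2 * rq q θ ^ (n - 3) / rq q θ))

/-- Third vertex integral, in the unit `1 / (2 n + 3)`. -/
noncomputable def VB3 (n : ℕ) (q : ℝ) : ℝ := ∫ θ in (-Real.pi)..Real.pi,
  (rq q θ ^ n * ((n + 2) * Real.sin θ ^ 2 + 1) + n * Real.sin θ ^ 2 * rq q θ ^ (n - 2)
    + (n + 3) / n * ((1 - q) * rq q θ ^ (n - 2)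
      + (n - 1) * ((1 - q) * q) * Real.sin θ ^ 2 * rq q θ ^ (n - 3) / rq q θ))

end Pool.Agent.Ped
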