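import Pool.Agent.P.MP_e09f5c_gt.Defs

/-! The rank two determinant formula and the equality case. -/

open MeasureTheory Metric Set Matrix Filter Topology
open scoped InnerProductSpace ENNReal

namespace Pool.Agent.Ped

variable {N : ℕ}

theorem st_det_ne (hN : 2 ≤ N) {s : ℝ} (hs : s ≠ 0) (p q : Fin N → ℝ) :
    (s • (1 : Matrix (Fin N) (Fin N) ℝ) + vecMulVec p p + vecMulVec q q).det =
      s ^ (N - 2) * ((s + p ⬝ᵥ p) * (s + q ⬝ᵥ q) - (p ⬝ᵥ q) ^ 2) := by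
  let B : Matrix (Fin N) (Fin 2) ℝ := Matrix.of fun i j => (![p, q] j) i
  have h1 : s • (1 : Matrix (Fin N) (Fin N) ℝ) + vecMulVec p p + vecMulVec q q
      = s • (1 + (s⁻¹ • B) * Bᵀ) := by
    ext i j
    simp only [B, Matrix.add_apply, Matrix.smul_apply, Matrix.mul_apply, Fin.sum_univ_two,
      vecMulVec_apply, Matrix.transpose_apply, Matrix.of_apply, smul_eq_mul, Matrix.cons_val_zero,
      Matrix.cons_val_one]
    field_simp
    ring
  rw [h1, Matrix.det_smul, Matrix.det_one_add_mul_comm, Matrix.det_fin_two]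
  have e00 : (Bᵀ * (s⁻¹ • B)) 0 0 = s⁻¹ * (p ⬝ᵥ p) := by
    simp only [B, Matrix.mul_apply, Matrix.transpose_apply, Matrix.smul_apply, Matrix.of_apply,
      smul_eq_mul, Matrix.cons_val_zero, dotProduct, Finset.mul_sum]
    exact Finset.sum_congr rfl fun i _ => by ring
  have e01 : (Bᵀ * (s⁻¹ • B)) 0 1 = s⁻¹ * (p ⬝ᵥ q) := by
    simp only [B, Matrix.mul_apply, Matrix.transpose_apply, Matrix.smul_apply, Matrix.of_apply,
      smul_eq_mul, Matrix.cons_val_zero, Matrix.cons_val_one, dotProduct, Finset.mul_sum]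
    exact Finset.sum_congr rfl fun i _ => by ring
  have e10 : (Bᵀ * (s⁻¹ • B)) 1 0 = s⁻¹ * (p ⬝ᵥ q) := by
    simp only [B, Matrix.mul_apply, Matrix.transpose_apply, Matrix.smul_apply, Matrix.of_apply,
      smul_eq_mul, Matrix.cons_val_zero, Matrix.cons_val_one, dotProduct, Finset.mul_sum]
    exact Finset.sum_congr rfl fun i _ => by ring
  have e11 : (Bᵀ * (s⁻¹ • B)) 1 1 = s⁻¹ * (q ⬝ᵥ q) := by
    simp only [B, Matrix.mul_apply, Matrix.transpose_apply, Matrix.smul_apply, Matrix.of_apply,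
      smul_eq_mul, Matrix.cons_val_zero, Matrix.cons_val_one, dotProduct, Finset.mul_sum]
    exact Finset.sum_congr rfl fun i _ => by ring
  simp only [Matrix.add_apply, e00, e01, e10, e11, Matrix.one_apply_eq, Fintype.card_fin]
  rw [Matrix.one_apply_ne (by decide), Matrix.one_apply_ne (by decide)]
  obtain ⟨M, rfl⟩ := Nat.exists_eq_add_of_le' hN
  rw [Nat.add_sub_cancel, pow_add]
  field_simp
  ring

theorem det_rank_two (hN : 2 ≤ N) (s : ℝ) (p q : Fin N → ℝ) :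
    (s • (1 : Matrix (Fin N) (Fin N) ℝ) + vecMulVec p p + vecMulVec q q).det =
      s ^ (N - 2) * ((s + p ⬝ᵥ p) * (s + q ⬝ᵥ q) - (p ⬝ᵥ q) ^ 2) := by
  have hc1 : Continuous fun s : ℝ =>
      (s • (1 : Matrix (Fin N) (Fin N) ℝ) + vecMulVec p p + vecMulVec q q).det :=
    Continuous.matrix_det
      (((continuous_id.smul continuous_const).add continuous_const).add continuous_const)
  have hc2 : Continuous fun s : ℝ =>
      s ^ (N - 2) * ((s + p ⬝ᵥ p) * (s + q ⬝ᵥ q) - (p ⬝ᵥ q) ^ 2) := by fun_prop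
  have := Continuous.ext_on (dense_compl_singleton (0 : ℝ)) hc1 hc2
    (fun s hs => st_det_ne hN hs p q)
  exact congrFun this s

theorem gauss_comp (e : E N ≃ₗᵢ[ℝ] E N) (f : E N → ℝ) : gauss (fun y => f (e y)) = gauss f := by
  unfold gauss
  have := e.measurePreserving.lintegral_comp_emb e.toHomeomorph.measurableEmbedding
    (fun y => ENNReal.ofReal (f y * Real.exp (-‖y‖ ^ 2 / 2)))
  rw [← this]
  simp only [LinearIsometryEquiv.norm_map]

theorem st_gauss_const_mul {k : ℝ} (hk : 0 ≤ k) (f : E N → ℝ) :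
    gauss (fun y => k * f y) = ENNReal.ofReal k * gauss f := by
  unfold gauss
  rw [← lintegral_const_mul' _ _ ENNReal.ofReal_ne_top]
  refine lintegral_congr fun y => ?_
  rw [← ENNReal.ofReal_mul hk, mul_assoc]

theorem exists_basis_star {x v : E N} (hx : ‖x‖ = 1) (hv : ‖v‖ = 1) (hxv : ⟪x, v⟫_ℝ = 0) :
    ∃ b : OrthonormalBasis (Fin (N + 2)) ℝ (E N), b 0 = x ∧ b 1 = v := by
  classical
  let w : Fin (N + 2) → E N := fun i => if i = 0 then x else v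
  have h01 : (1 : Fin (N + 2)) ≠ 0 := by simp
  have w0 : w 0 = x := by simp [w]
  have w1 : w 1 = v := by simp only [w, if_neg h01]
  have ho : Orthonormal ℝ (({0, 1} : Set (Fin (N + 2))).domRestrict w) := by
    constructor
    · rintro ⟨i, hi⟩
      show ‖w i‖ = 1
      rcases hi with hi | hi
      · rw [hi, w0, hx]
      · rw [Set.mem_singleton_iff] at hi; rw [hi, w1, hv]
    · rintro ⟨i, hi⟩ ⟨j, hj⟩ hij
      have hij' : i ≠ j := fun h => hij (Subtype.ext h)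
      show ⟪w i, w j⟫_ℝ = 0
      rcases hi with hi | hi <;> rcases hj with hj | hj
      · exact absurd (hi.trans hj.symm) hij'
      · rw [Set.mem_singleton_iff] at hj; rw [hi, hj, w0, w1, hxv]
      · rw [Set.mem_singleton_iff] at hi; rw [hi, hj, w0, w1, real_inner_comm, hxv]
      · rw [Set.mem_singleton_iff] at hi hj; exact absurd (hi.trans hj.symm) hij'
  obtain ⟨b, hb⟩ := Orthonormal.exists_orthonormalBasis_extension_of_card_eq
    (by simp) ho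
  exact ⟨b, by rw [hb 0 (by simp), w0], by rw [hb 1 (by simp), w1]⟩

/-- The vector with coordinates `s, t, β`. -/
noncomputable def stVec (s t : ℝ) (β : Fin N → ℝ) : E N :=
  WithLp.toLp 2 (Fin.cons s (Fin.cons t β : Fin (N + 1) → ℝ) : Fin (N + 2) → ℝ)

theorem st_inner_coord (x y : E N) :
    ⟪x, y⟫_ℝ = x 0 * y 0 + x 1 * y 1 + tail x ⬝ᵥ tail y := by
  rw [PiLp.inner_apply, Fin.sum_univ_succ, Fin.sum_univ_succ]
  simp only [tail, dotProduct, RCLike.inner_apply, conj_trivial, Fin.succ_zero_eq_one]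
  rw [← add_assoc, mul_comm (y 0), mul_comm (y 1)]
  congr 1
  exact Finset.sum_congr rfl fun i _ => mul_comm _ _

theorem st_vec_zero (s t : ℝ) (β : Fin N → ℝ) : stVec s t β 0 = s := rfl

theorem st_vec_one (s t : ℝ) (β : Fin N → ℝ) : stVec s t β 1 = t := rfl

theorem st_tail_vec (s t : ℝ) (β : Fin N → ℝ) : tail (stVec s t β) = β := by
  funext j
  simp [tail, stVec]

theorem st_inner_vec (s t : ℝ) (β : Fin N → ℝ) (y : E N) :
    ⟪stVec s t β, y⟫_ℝ = s * y 0 + t * y 1 + β ⬝ᵥ tail y := by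
  rw [st_inner_coord, st_vec_zero, st_vec_one, st_tail_vec]

theorem st_norm_sq (y : E N) : ‖y‖ ^ 2 = y 0 ^ 2 + y 1 ^ 2 + tail y ⬝ᵥ tail y := by
  rw [← real_inner_self_eq_norm_sq, st_inner_coord]; ring

theorem det_gram_star (hN : 2 ≤ N) (μ : ℝ) (β : Fin N → ℝ) (y : E N) :
    (gram (μ • (1 : Matrix (Fin N) (Fin N) ℝ)) 1 β y).det =
      (|μ * y 0 + y 1| ^ (N - 1)) ^ 2 *
        ((1 + μ ^ 2 + β ⬝ᵥ β) * ‖y‖ ^ 2 - (y 0 - μ * y 1 + β ⬝ᵥ tail y) ^ 2) := by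
  have h1 : gram (μ • (1 : Matrix (Fin N) (Fin N) ℝ)) 1 β y =
      ((μ * y 0 + y 1) ^ 2) • (1 : Matrix (Fin N) (Fin N) ℝ)
        + vecMulVec (μ • tail y + y 1 • β) (μ • tail y + y 1 • β)
        + vecMulVec (tail y - y 0 • β) (tail y - y 0 • β) := by
    have h2 : y 0 • μ • (1 : Matrix (Fin N) (Fin N) ℝ) + y 1 • (1 : Matrix (Fin N) (Fin N) ℝ)
        = (μ * y 0 + y 1) • (1 : Matrix (Fin N) (Fin N) ℝ) := by
      rw [smul_smul, ← add_smul, mul_comm]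
    unfold gram
    rw [h2]
    simp only [Matrix.transpose_smul, Matrix.transpose_one, Matrix.smul_mul, Matrix.mul_smul,
      Matrix.one_mul, smul_smul, Matrix.smul_mulVec, Matrix.one_mulVec, pow_two]
  rw [h1, det_rank_two hN, st_norm_sq]
  simp only [add_dotProduct, dotProduct_add, sub_dotProduct, dotProduct_sub, smul_dotProduct,
    dotProduct_smul, smul_eq_mul, dotProduct_comm (tail y) β]
  obtain ⟨M, rfl⟩ := Nat.exists_eq_add_of_le' hN
  have e1 : M + 2 - 1 = M + 1 := rfl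
  have e2 : (|μ * y 0 + y 1| ^ (M + 1)) ^ 2
      = ((μ * y 0 + y 1) ^ 2) ^ M * (μ * y 0 + y 1) ^ 2 := by
    rw [← pow_mul, mul_comm (M + 1) 2, pow_mul, sq_abs, pow_succ]
  rw [Nat.add_sub_cancel, e1, e2]
  generalize ((μ * y 0 + y 1) ^ 2) ^ M = z
  ring

theorem fvol_star (hN : 2 ≤ N) (μ : ℝ) (β : Fin N → ℝ) :
    fvol (μ • (1 : Matrix (Fin N) (Fin N) ℝ)) 1 β =
      Real.sqrt (μ ^ 2 + 1) ^ (N - 1) * Real.sqrt (1 + μ ^ 2 + β ⬝ᵥ β) := by
  have h1 : (μ • (1 : Matrix (Fin N) (Fin N) ℝ))ᵀ * (μ • (1 : Matrix (Fin N) (Fin N) ℝ))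
      + (1 : Matrix (Fin N) (Fin N) ℝ)ᵀ * 1 + vecMulVec β β
      = (μ ^ 2 + 1) • (1 : Matrix (Fin N) (Fin N) ℝ) + vecMulVec β β + vecMulVec 0 0 := by
    simp only [Matrix.transpose_smul, Matrix.transpose_one, Matrix.smul_mul, Matrix.mul_smul,
      Matrix.one_mul, smul_smul, add_smul, one_smul, pow_two, zero_vecMulVec, add_zero]
  unfold fvol
  rw [h1, det_rank_two hN]
  obtain ⟨M, rfl⟩ := Nat.exists_eq_add_of_le' hN
  have e1 : M + 2 - 1 = M + 1 := rfl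
  have hp : 0 ≤ μ ^ 2 + 1 := by positivity
  have h3 : (μ ^ 2 + 1) ^ (M + 2 - 2) * ((μ ^ 2 + 1 + β ⬝ᵥ β) *
      (μ ^ 2 + 1 + (0 : Fin (M + 2) → ℝ) ⬝ᵥ 0) - (β ⬝ᵥ 0) ^ 2)
      = (Real.sqrt (μ ^ 2 + 1) ^ (M + 1)) ^ 2 * (1 + μ ^ 2 + β ⬝ᵥ β) := by
    rw [← pow_mul, mul_comm (M + 1) 2, pow_mul, Real.sq_sqrt hp, Nat.add_sub_cancel, pow_succ]
    simp only [dotProduct_zero]
    ring
  rw [h3, e1, Real.sqrt_mul (sq_nonneg _), Real.sqrt_sq (by positivity)]

theorem gauss_star (hN : 2 ≤ N) (μ : ℝ) (β : Fin N → ℝ) :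
    gauss (crof (μ • (1 : Matrix (Fin N) (Fin N) ℝ)) 1 β) =
      kap N * ENNReal.ofReal (fvol (μ • (1 : Matrix (Fin N) (Fin N) ℝ)) 1 β) := by
  have hβ : 0 ≤ β ⬝ᵥ β := Finset.sum_nonneg fun i _ => mul_self_nonneg _
  set A : ℝ := Real.sqrt (μ ^ 2 + 1) with hA
  set U : ℝ := Real.sqrt (1 + μ ^ 2 + β ⬝ᵥ β) with hU
  have hA0 : 0 < A := Real.sqrt_pos.2 (by positivity)
  have hU0 : 0 < U := Real.sqrt_pos.2 (by positivity)
  have hA2 : A ^ 2 = μ ^ 2 + 1 := Real.sq_sqrt (by positivity)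
  have hU2 : U ^ 2 = 1 + μ ^ 2 + β ⬝ᵥ β := Real.sq_sqrt (by positivity)
  let c : E N := stVec μ 1 0
  let u : E N := stVec 1 (-μ) β
  have hc : ‖c‖ = A := by
    have : ‖c‖ ^ 2 = A ^ 2 := by
      rw [st_norm_sq, hA2]; simp only [c, st_vec_zero, st_vec_one, st_tail_vec, dotProduct_zero]; ring
    exact (pow_left_inj₀ (norm_nonneg _) hA0.le two_ne_zero).1 this
  have hu : ‖u‖ = U := by
    have : ‖u‖ ^ 2 = U ^ 2 := by
      rw [st_norm_sq, hU2]; simp only [u, st_vec_zero, st_vec_one, st_tail_vec]; ring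
    exact (pow_left_inj₀ (norm_nonneg _) hU0.le two_ne_zero).1 this
  have hcu : ⟪c, u⟫_ℝ = 0 := by
    simp only [c, u, st_inner_vec, st_vec_zero, st_vec_one, zero_dotProduct]; ring
  obtain ⟨b, hb0, hb1⟩ := exists_basis_star (x := A⁻¹ • c) (v := U⁻¹ • u)
    (by rw [norm_smul, hc, Real.norm_of_nonneg (by positivity), inv_mul_cancel₀ hA0.ne'])
    (by rw [norm_smul, hu, Real.norm_of_nonneg (by positivity), inv_mul_cancel₀ hU0.ne'])
    (by rw [real_inner_smul_left, real_inner_smul_right, hcu]; ring)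
  let f : E N → ℝ := fun y => |y 0| ^ (N - 1) * Real.sqrt (‖y‖ ^ 2 - y 1 ^ 2)
  have key : crof (μ • (1 : Matrix (Fin N) (Fin N) ℝ)) 1 β
      = fun y => (A ^ (N - 1) * U) * f (b.repr y) := by
    funext y
    have r0 : b.repr y 0 = A⁻¹ * (μ * y 0 + y 1) := by
      rw [b.repr_apply_apply, hb0, real_inner_smul_left]
      simp only [c, st_inner_vec, zero_dotProduct]; ring
    have r1 : b.repr y 1 = U⁻¹ * (y 0 - μ * y 1 + β ⬝ᵥ tail y) := by
      rw [b.repr_apply_apply, hb1, real_inner_smul_left]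
      simp only [u, st_inner_vec]; ring
    unfold crof
    rw [det_gram_star hN, Real.sqrt_mul (sq_nonneg _), Real.sqrt_sq (by positivity), ← hU2]
    simp only [f, LinearIsometryEquiv.norm_map]
    rw [r0, r1]
    have s1 : U ^ 2 * ‖y‖ ^ 2 - (y 0 - μ * y 1 + β ⬝ᵥ tail y) ^ 2
        = U ^ 2 * (‖y‖ ^ 2 - (U⁻¹ * (y 0 - μ * y 1 + β ⬝ᵥ tail y)) ^ 2) := by
      field_simp
    have s2 : |μ * y 0 + y 1| = A * |A⁻¹ * (μ * y 0 + y 1)| := by
      rw [abs_mul, abs_of_pos (inv_pos.2 hA0), ← mul_assoc, mul_inv_cancel₀ hA0.ne', one_mul]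
    rw [s1, Real.sqrt_mul (sq_nonneg _), Real.sqrt_sq hU0.le, s2, mul_pow]
    ring
  rw [key, st_gauss_const_mul (by positivity), gauss_comp b.repr f, fvol_star hN, mul_comm]
  rfl

theorem st_continuous_kap (N : ℕ) : Continuous fun y : E N =>
    |y 0| ^ (N - 1) * Real.sqrt (‖y‖ ^ 2 - y 1 ^ 2) * Real.exp (-‖y‖ ^ 2 / 2) := by
  fun_prop

theorem kap_ne_zero (N : ℕ) : kap N ≠ 0 := by
  unfold kap gauss
  refine ne_of_gt ?_
  have hc := st_continuous_kap N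
  refine (lintegral_pos_iff_support (ENNReal.measurable_ofReal.comp hc.measurable)).2 ?_
  have ho : IsOpen {y : E N | 0 <
      |y 0| ^ (N - 1) * Real.sqrt (‖y‖ ^ 2 - y 1 ^ 2) * Real.exp (-‖y‖ ^ 2 / 2)} :=
    isOpen_lt continuous_const hc
  refine lt_of_lt_of_le (ho.measure_pos volume ⟨stVec 1 0 0, ?_⟩) (measure_mono fun y hy => ?_)
  · simp only [Set.mem_ofPred_eq, st_norm_sq, st_vec_zero, st_vec_one, st_tail_vec, dotProduct_zero]
    positivity
  · simp only [Function.mem_support, Function.comp_apply, ne_eq, ENNReal.ofReal_eq_zero, not_le]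
    exact hy

theorem st_integrable_gauss (N : ℕ) :
    Integrable (fun y : E N => Real.exp (-‖y‖ ^ 2 / 4)) := by
  have h := (GaussianFourier.integrable_cexp_neg_mul_sq_norm_add (V := E N) (b := (1 / 4 : ℂ))
    (by norm_num) 0 0).norm
  refine h.congr (Filter.Eventually.of_forall fun y => ?_)
  simp only [Complex.norm_exp, zero_mul, add_zero]
  congr 1
  have : (-(1 / 4 : ℂ) * (‖y‖ : ℂ) ^ 2) = ((-‖y‖ ^ 2 / 4 : ℝ) : ℂ) := by push_cast; ring
  rw [this, Complex.ofReal_re]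

theorem kap_ne_top (N : ℕ) : kap N ≠ ∞ := by
  unfold kap gauss
  have hi := ((st_integrable_gauss N).const_mul
    (((N - 1 + 1).factorial : ℝ) * Real.exp 1)).lintegral_lt_top
  refine ne_of_lt (lt_of_le_of_lt (lintegral_mono fun y => ENNReal.ofReal_le_ofReal ?_) hi)
  have h0 : |y 0| ≤ ‖y‖ := by
    simpa using PiLp.norm_apply_le y 0
  have h1 : Real.sqrt (‖y‖ ^ 2 - y 1 ^ 2) ≤ ‖y‖ :=
    Real.sqrt_le_iff.2 ⟨norm_nonneg _, by nlinarith [sq_nonneg (y 1)]⟩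
  have h2 : |y 0| ^ (N - 1) * Real.sqrt (‖y‖ ^ 2 - y 1 ^ 2) ≤ ‖y‖ ^ (N - 1 + 1) := by
    rw [pow_succ ‖y‖]
    exact mul_le_mul (pow_le_pow_left₀ (abs_nonneg _) h0 _) h1 (Real.sqrt_nonneg _)
      (pow_nonneg (norm_nonneg _) _)
  have h3 : ‖y‖ ^ (N - 1 + 1) ≤ ((N - 1 + 1).factorial : ℝ) * Real.exp ‖y‖ := by
    have := Real.pow_div_factorial_le_exp ‖y‖ (norm_nonneg y) (N - 1 + 1)
    rw [div_le_iff₀ (by positivity)] at this
    linarith
  have h4 : Real.exp ‖y‖ * Real.exp (-‖y‖ ^ 2 / 2) ≤ Real.exp 1 * Real.exp (-‖y‖ ^ 2 / 4) := by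
    rw [← Real.exp_add, ← Real.exp_add]
    exact Real.exp_le_exp.2 (by nlinarith [sq_nonneg (‖y‖ - 2)])
  calc |y 0| ^ (N - 1) * Real.sqrt (‖y‖ ^ 2 - y 1 ^ 2) * Real.exp (-‖y‖ ^ 2 / 2)
      ≤ (((N - 1 + 1).factorial : ℝ) * Real.exp ‖y‖) * Real.exp (-‖y‖ ^ 2 / 2) :=
        mul_le_mul_of_nonneg_right (h2.trans h3) (Real.exp_pos _).le
    _ = ((N - 1 + 1).factorial : ℝ) * (Real.exp ‖y‖ * Real.exp (-‖y‖ ^ 2 / 2)) := by ring
    _ ≤ ((N - 1 + 1).factorial : ℝ) * (Real.exp 1 * Real.exp (-‖y‖ ^ 2 / 4)) := by gcongr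
    _ = _ := by ring

end Pool.Agent.Ped
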