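import Pool.Agent.P.MP_e09f5c_gt.Cover
import Pool.Agent.P.MP_e09f5c_gt.Inject
import Pool.Agent.P.MP_e09f5c_gt.Coord
import Pool.Agent.P.MP_e09f5c_gt.Avg
import Pool.Agent.P.MP_e09f5c_gt.Sph
import Pool.Agent.P.MP_e09f5c_gt.Star

/-! The lower bound for the volume of smooth fields from the core inequality. -/

open MeasureTheory Metric Set Matrix Filter Topology
open scoped InnerProductSpace ENNReal

namespace Pool.Agent.Ped

variable {N : ℕ}

/-- Restriction of Lebesgue measure to the unit ball. -/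
noncomputable abbrev bal (N : ℕ) : Measure (E N) := volume.restrict (ball (0 : E N) 1)

/-- The Jacobian with the indicator of the half space. -/
noncomputable def jh (W : E N → E N) (x g₁ g₂ y : E N) : ℝ≥0∞ :=
  {g : E N | 0 < ⟪y, g⟫_ℝ}.indicator (fun g => jac W x g₁ g y) g₂

theorem measurable_jh {W : E N → E N} (hW : Measurable W) :
    Measurable fun p : E N × E N × E N × E N => jh W p.1 p.2.1 p.2.2.1 p.2.2.2 := by
  have h : (fun p : E N × E N × E N × E N => jh W p.1 p.2.1 p.2.2.1 p.2.2.2) =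
      {p : E N × E N × E N × E N | 0 < ⟪p.2.2.2, p.2.2.1⟫_ℝ}.indicator
        fun p => jac W p.1 p.2.1 p.2.2.1 p.2.2.2 := by
    ext p
    simp only [jh, Set.indicator, mem_ofPred_eq]
  rw [h]
  refine (measurable_jac hW).indicator (measurableSet_lt measurable_const ?_)
  exact (by fun_prop : Continuous fun p : E N × E N × E N × E N =>
    ⟪p.2.2.2, p.2.2.1⟫_ℝ).measurable

theorem half_eq (W : E N → E N) (a g₁ g₂ : E N) :
    ∫⁻ y in half g₂, jac W (refl y a) g₁ g₂ y = ∫⁻ y, jh W (refl y a) g₁ g₂ y ∂bal N := by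
  have hm : MeasurableSet {y : E N | 0 < ⟪y, g₂⟫_ℝ} :=
    measurableSet_lt measurable_const (by fun_prop : Continuous fun y : E N => ⟪y, g₂⟫_ℝ).measurable
  have h1 : half g₂ = {y : E N | 0 < ⟪y, g₂⟫_ℝ} ∩ ball 0 1 := by
    ext y; simp [half, and_comm]
  rw [h1, ← Measure.restrict_restrict hm, ← lintegral_indicator hm]
  refine lintegral_congr fun y => ?_
  simp only [jh, Set.indicator, mem_ofPred_eq]

/-- Total Crofton integral. -/
noncomputable def tot (W : E N → E N) : ℝ≥0∞ :=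
  ∫⁻ a, ∫⁻ g₁, ∫⁻ g₂, ∫⁻ y, jh W (refl y a) g₁ g₂ y ∂bal N ∂bal N ∂bal N ∂sph N

theorem swap_key (f : E N × E N × E N → ℝ≥0∞) (hf : Measurable f) :
    ∫⁻ g₁, ∫⁻ g₂, ∫⁻ y, f (g₁, g₂, y) ∂bal N ∂bal N ∂bal N =
      ∫⁻ p, f p ∂(bal N).prod ((bal N).prod (bal N)) := by
  rw [lintegral_prod _ hf.aemeasurable]
  refine lintegral_congr fun g₁ => ?_
  exact (lintegral_prod (fun p => f (g₁, p))
    (hf.comp (measurable_prodMk_left (x := g₁))).aemeasurable).symm

theorem swap_key2 (f : E N × E N × E N → ℝ≥0∞) (hf : Measurable f) :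
    ∫⁻ y, ∫⁻ g₁, ∫⁻ g₂, f (g₁, g₂, y) ∂bal N ∂bal N ∂bal N =
      ∫⁻ p, f p ∂(bal N).prod ((bal N).prod (bal N)) := by
  rw [← swap_key f hf, lintegral_lintegral_swap]
  · refine lintegral_congr fun g₁ => ?_
    rw [lintegral_lintegral_swap]
    exact (hf.comp (f := fun p : E N × E N => (g₁, p.2, p.1)) (by fun_prop)).aemeasurable
  · exact (Measurable.lintegral_prod_right' (ν := bal N)
      (f := fun p : (E N × E N) × E N => f (p.1.2, p.2, p.1.1))
      (hf.comp (by fun_prop))).aemeasurable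

theorem swap_gen {α β : Type*} [MeasurableSpace α] [MeasurableSpace β] (μ : Measure α)
    (ν : Measure β) [SFinite μ] [SFinite ν] (r : β → α → α)
    (hr : Measurable fun p : α × β => r p.2 p.1) (hp : ∀ b, MeasurePreserving (r b) μ μ)
    (f : α × β → ℝ≥0∞) (hf : Measurable f) :
    ∫⁻ a, ∫⁻ b, f (r b a, b) ∂ν ∂μ = ∫⁻ a, ∫⁻ b, f (a, b) ∂ν ∂μ := by
  rw [lintegral_lintegral_swap (f := fun a b => f (r b a, b))
      (hf.comp (hr.prodMk measurable_snd)).aemeasurable,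
    lintegral_lintegral_swap (f := fun a b => f (a, b)) hf.aemeasurable]
  refine lintegral_congr fun b => ?_
  exact (hp b).lintegral_comp (f := fun x => f (x, b)) (hf.comp measurable_prodMk_right)

theorem preserving_refl (y : E N) : MeasurePreserving (refl y) (sph N) (sph N) := by
  obtain ⟨e, he⟩ := exists_refl_isometry y
  have : refl y = e := funext fun z => (he z).symm
  rw [this]
  exact sph_preserving e

theorem swap_refl (f : E N × E N × E N × E N → ℝ≥0∞) (hf : Measurable f) :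
    ∫⁻ a, ∫⁻ g₁, ∫⁻ g₂, ∫⁻ y, f (refl y a, g₁, g₂, y) ∂bal N ∂bal N ∂bal N ∂sph N =
      ∫⁻ x, ∫⁻ y, ∫⁻ g₁, ∫⁻ g₂, f (x, g₁, g₂, y) ∂bal N ∂bal N ∂bal N ∂sph N := by
  have h1 : Measurable fun p : E N × E N × E N × E N => (p.2.2.2, p.1) := by fun_prop
  have h0 : Measurable fun p : E N × E N × E N × E N => refl p.2.2.2 p.1 :=
    measurable_refl.comp h1
  have hr : Measurable fun p : E N × E N × E N × E N => f (refl p.2.2.2 p.1, p.2) :=
    hf.comp (h0.prodMk measurable_snd)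
  have e1 : ∀ a, ∫⁻ g₁, ∫⁻ g₂, ∫⁻ y, f (refl y a, g₁, g₂, y) ∂bal N ∂bal N ∂bal N =
      ∫⁻ p, f (refl p.2.2 a, p) ∂(bal N).prod ((bal N).prod (bal N)) := fun a =>
    swap_key (fun p => f (refl p.2.2 a, p)) (hr.comp (measurable_prodMk_left (x := a)))
  have e2 : ∀ x, ∫⁻ y, ∫⁻ g₁, ∫⁻ g₂, f (x, g₁, g₂, y) ∂bal N ∂bal N ∂bal N =
      ∫⁻ p, f (x, p) ∂(bal N).prod ((bal N).prod (bal N)) := fun x =>
    swap_key2 (fun p => f (x, p)) (hf.comp (measurable_prodMk_left (x := x)))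
  refine (lintegral_congr e1).trans (Eq.trans ?_ (lintegral_congr e2).symm)
  exact swap_gen (sph N) _ (fun p : E N × E N × E N => refl p.2.2) h0
    (fun p => preserving_refl p.2.2) f hf

theorem tot_eq {W : E N → E N} (hW : Measurable W) :
    tot W = ∫⁻ x, ∫⁻ y, ∫⁻ g₁, ∫⁻ g₂, jh W x g₁ g₂ y ∂bal N ∂bal N ∂bal N ∂sph N :=
  swap_refl _ (measurable_jh hW)

theorem measurable_inner3 (f : E N × E N × E N × E N → ℝ≥0∞) (hf : Measurable f) :
    Measurable fun x => ∫⁻ y, ∫⁻ g₁, ∫⁻ g₂, f (x, g₁, g₂, y) ∂bal N ∂bal N ∂bal N := by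
  refine Measurable.lintegral_prod_right' (ν := bal N)
    (f := fun p : E N × E N => ∫⁻ g₁, ∫⁻ g₂, f (p.1, g₁, g₂, p.2) ∂bal N ∂bal N) ?_
  refine Measurable.lintegral_prod_right' (ν := bal N)
    (f := fun p : (E N × E N) × E N => ∫⁻ g₂, f (p.1.1, p.2, g₂, p.1.2) ∂bal N) ?_
  exact Measurable.lintegral_prod_right' (ν := bal N)
    (f := fun p : ((E N × E N) × E N) × E N => f (p.1.1.1, p.1.2, p.2, p.1.1.2))
    (hf.comp (by fun_prop))

theorem inner_eq (N : ℕ) : ∃ c : ℝ≥0∞, c ≠ 0 ∧ c ≠ ∞ ∧ ∀ {W : E N → E N} {x : E N}, Good W x →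
    ∀ b : OrthonormalBasis (Fin (N + 2)) ℝ (E N), b 0 = x → b 1 = W x →
      c * ∫⁻ y, ∫⁻ g₁, ∫⁻ g₂, jh W x g₁ g₂ y ∂bal N ∂bal N ∂bal N =
        gauss (crof (cX b (cov W x)) 1 (cB b (cov W x))) := by
  obtain ⟨c, hc0, hc1, hc⟩ := avg_zeta N
  obtain ⟨d, hd0, hd1, hd⟩ := gauss_eq_ball N N
  refine ⟨d * c⁻¹, mul_ne_zero hd0 (ENNReal.inv_ne_zero.2 hc1),
    ENNReal.mul_ne_top hd1 (ENNReal.inv_ne_top.2 hc0), fun {W x} h b h0 h1 => ?_⟩
  set F := crof (cX b (cov W x)) 1 (cB b (cov W x)) with hF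
  have hFm : Measurable fun y => F (b.repr y) :=
    ((continuous_crof _ _ _).comp b.repr.continuous).measurable
  rw [← gauss_comp b.repr F, hd _ hFm fun y t ht => by
    simp only [map_smul]; exact crof_smul _ _ _ _ ht.le]
  have e : ∫⁻ y, ∫⁻ g₁, ∫⁻ g₂, jh W x g₁ g₂ y ∂bal N ∂bal N ∂bal N =
      ∫⁻ y, c * ENNReal.ofReal (F (b.repr y)) ∂bal N := by
    refine lintegral_congr_ae ?_
    have : ∀ᵐ y ∂bal N, y ≠ 0 := ae_restrict_of_ae
      (compl_mem_ae_iff.2 (measure_singleton (0 : E N)))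
    filter_upwards [this] with y hy
    obtain ⟨Ψ, h2, h3, h4⟩ := det_Kop h.frame b h0 h1 y
    have := hc y Ψ hy h2
    rw [h3, mul_div_cancel_left₀ _ (norm_ne_zero_iff.2 hy)] at this
    rw [← this]
    simp only [jh, jac, h4]
  rw [e, lintegral_const_mul _ hFm.ennreal_ofReal, ← mul_assoc, mul_assoc d,
    ENNReal.inv_mul_cancel hc0 hc1, mul_one]

theorem tot_le (hN : 2 ≤ N) {V : E N → E N} (hV : ContDiff ℝ (⊤ : ℕ∞) V)
    (hT : ∀ x ∈ sphere (0 : E N) 1, ⟪x, V x⟫_ℝ = 0 ∧ ‖V x‖ = 1)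
    {a v : E N} (ha : ‖a‖ = 1) (hv : ‖v‖ = 1) (hav : ⟪a, v⟫_ℝ = 0) :
    tot (par a v) ≤ tot V := by
  refine lintegral_mono_ae ?_
  filter_upwards [ae_sph (-a)] with x hx
  refine lintegral_mono_ae (ae_restrict_of_ae ?_)
  filter_upwards [ae_indep (x + a) fun h => hx.2 (eq_neg_of_add_eq_zero_left h)] with g₁ hg₁
  refine lintegral_mono_ae (ae_restrict_of_ae ?_)
  filter_upwards [hg₁.2] with g₂ hg₂
  rw [← half_eq, ← half_eq]
  exact (jac_le_cyl ha hv hav hx.1 hx.2 hg₂ hg₁.1).trans (cyl_le_jac hN hV hT hx.1 hg₂)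

theorem lower (hN : 2 ≤ N) (hC : CoreIneq N) {V : E N → E N} (hV : ContDiff ℝ (⊤ : ℕ∞) V)
    (hT : ∀ x ∈ sphere (0 : E N) 1, ⟪x, V x⟫_ℝ = 0 ∧ ‖V x‖ = 1)
    {a v : E N} (ha : ‖a‖ = 1) (hv : ‖v‖ = 1) (hav : ⟪a, v⟫_ℝ = 0) :
    ∫ x, dens (cov (par a v) x) ∂sph N ≤ ∫ x, dens (cov V x) ∂sph N := by
  obtain ⟨c, hc0, hc1, hc⟩ := inner_eq N
  have hmm : ∀ {W : E N → E N}, Measurable W → Measurable fun x =>
      ∫⁻ y, ∫⁻ g₁, ∫⁻ g₂, jh W x g₁ g₂ y ∂bal N ∂bal N ∂bal N :=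
    fun hW => measurable_inner3 _ (measurable_jh hW)
  have hP : c * tot (par a v) = kap N * ∫⁻ x, ENNReal.ofReal (dens (cov (par a v) x)) ∂sph N := by
    rw [tot_eq (measurable_par a v), ← lintegral_const_mul _ (hmm (measurable_par a v)),
      ← lintegral_const_mul _ (measurable_dens_cov _).ennreal_ofReal]
    refine lintegral_congr_ae ?_
    filter_upwards [ae_sph (-a)] with x hx
    have hG := good_par ha hv hav hx.1 hx.2
    obtain ⟨b, h0, h1⟩ := exists_basis hG.frame.nx hG.frame.nv hG.frame.xv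
    rw [hc hG b h0 h1, dens_eq hG.frame b h0 h1]
    have hX : cX b (cov (par a v) x) =
        (⟪v, x⟫_ℝ / (1 + ⟪x, a⟫_ℝ)) • (1 : Matrix (Fin N) (Fin N) ℝ) := by
      ext i j
      have e0 : ⟪x, b i.succ.succ⟫_ℝ = 0 := by
        rw [← h0]; exact b.orthonormal.2 (Fin.succ_ne_zero _).symm
      have e1 : ⟪par a v x, b i.succ.succ⟫_ℝ = 0 := by
        rw [← h1]
        exact b.orthonormal.2 fun h => by
          have := congrArg Fin.val h
          simp at this
      simp only [cX, cov_par ha hv hav hx.1 hx.2 _ e0 e1, neg_smul, inner_neg_left, neg_neg,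
        real_inner_smul_left, Matrix.smul_apply, smul_eq_mul]
      congr 1
      rw [orthonormal_iff_ite.1 b.orthonormal, Matrix.one_apply]
      simp [Fin.succ_inj]
    rw [hX, gauss_star hN]
  have hVm : Measurable V := hV.continuous.measurable
  have hQ : c * tot V ≤ kap N * ∫⁻ x, ENNReal.ofReal (dens (cov V x)) ∂sph N := by
    rw [tot_eq hVm, ← lintegral_const_mul _ (hmm hVm),
      ← lintegral_const_mul _ (measurable_dens_cov _).ennreal_ofReal]
    refine lintegral_mono_ae ?_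
    filter_upwards [ae_sph a] with x hx
    have hG := good_of_smooth hV hT hx.1
    obtain ⟨b, h0, h1⟩ := exists_basis hG.frame.nx hG.frame.nv hG.frame.xv
    rw [hc hG b h0 h1, dens_eq hG.frame b h0 h1]
    exact hC _ _
  have hle : ∫⁻ x, ENNReal.ofReal (dens (cov (par a v) x)) ∂sph N ≤
      ∫⁻ x, ENNReal.ofReal (dens (cov V x)) ∂sph N := by
    rw [← ENNReal.mul_le_mul_iff_right (kap_ne_zero N) (kap_ne_top N), ← hP]
    exact (mul_le_mul_right (tot_le hN hV hT ha hv hav) c).trans hQ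
  have hcont : Continuous fun x => dens (cov V x) := by
    refine continuous_dens.comp ?_
    have h1 : Continuous (fderiv ℝ V) := hV.continuous_fderiv (by simp)
    have h2 : Continuous fun x : E N => proj x := by
      unfold proj
      fun_prop
    exact (h2.mul h1).mul h2
  have hfin : ∫⁻ x, ENNReal.ofReal (dens (cov V x)) ∂sph N ≠ ∞ := by
    obtain ⟨M, hM⟩ := (isCompact_sphere (0 : E N) 1).exists_bound_of_continuousOn hcont.continuousOn
    refine ne_top_of_le_ne_top (b := ∫⁻ _, ENNReal.ofReal M ∂sph N) ?_ (lintegral_mono_ae ?_)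
    · rw [lintegral_const]
      exact ENNReal.mul_ne_top ENNReal.ofReal_ne_top (sph_univ_lt_top N).ne
    · filter_upwards [ae_sph a] with x hx
      exact ENNReal.ofReal_le_ofReal ((le_abs_self _).trans (hM x (by simpa using hx.1)))
  have hd : ∀ A : E N →L[ℝ] E N, 0 ≤ dens A := fun A => Real.sqrt_nonneg _
  rw [integral_eq_lintegral_of_nonneg_ae (.of_forall fun x => hd _)
      (measurable_dens_cov _).aestronglyMeasurable,
    integral_eq_lintegral_of_nonneg_ae (.of_forall fun x => hd _)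
      (measurable_dens_cov _).aestronglyMeasurable]
  exact ENNReal.toReal_mono hfin hle

end Pool.Agent.Ped
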