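import Pool.Agent.P.MP_e09f5c_gt.CDefs

/-! Integrability, symmetry and continuity of the moments. -/

open MeasureTheory Metric Set Matrix
open scoped InnerProductSpace ENNReal

namespace Pool.Agent.Ped

variable {n : ℕ}

theorem mb_poly {r : ℝ} (hr : 0 ≤ r) (k : ℕ) :
    (1 + r) ^ k * Real.exp (-r ^ 2 / 2) ≤ (k.factorial : ℝ) * Real.exp 2 * Real.exp (-r ^ 2 / 4) := by
  have h3 : (1 + r) ^ k ≤ (k.factorial : ℝ) * Real.exp (1 + r) := by
    have := Real.pow_div_factorial_le_exp (1 + r) (by linarith) k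
    rw [div_le_iff₀ (by positivity)] at this
    linarith
  have h4 : Real.exp (1 + r) * Real.exp (-r ^ 2 / 2) ≤ Real.exp 2 * Real.exp (-r ^ 2 / 4) := by
    rw [← Real.exp_add, ← Real.exp_add]
    exact Real.exp_le_exp.2 (by nlinarith [sq_nonneg (r - 2)])
  calc (1 + r) ^ k * Real.exp (-r ^ 2 / 2)
      ≤ ((k.factorial : ℝ) * Real.exp (1 + r)) * Real.exp (-r ^ 2 / 2) :=
        mul_le_mul_of_nonneg_right h3 (Real.exp_pos _).le
    _ = (k.factorial : ℝ) * (Real.exp (1 + r) * Real.exp (-r ^ 2 / 2)) := by ring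
    _ ≤ (k.factorial : ℝ) * (Real.exp 2 * Real.exp (-r ^ 2 / 4)) := by gcongr
    _ = _ := by ring

theorem mb_bound {x C r : ℝ} {k : ℕ} (hx : x ≤ C * (1 + r) ^ k) (hr : 0 ≤ r) :
    x * Real.exp (-r ^ 2 / 2) ≤
      |C| * ((k.factorial : ℝ) * Real.exp 2) * Real.exp (-r ^ 2 / 4) := by
  have h1 : x ≤ |C| * (1 + r) ^ k :=
    hx.trans (mul_le_mul_of_nonneg_right (le_abs_self C) (by positivity))
  calc x * Real.exp (-r ^ 2 / 2) ≤ |C| * (1 + r) ^ k * Real.exp (-r ^ 2 / 2) :=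
        mul_le_mul_of_nonneg_right h1 (Real.exp_pos _).le
    _ = |C| * ((1 + r) ^ k * Real.exp (-r ^ 2 / 2)) := by ring
    _ ≤ |C| * ((k.factorial : ℝ) * Real.exp 2 * Real.exp (-r ^ 2 / 4)) :=
        mul_le_mul_of_nonneg_left (mb_poly hr k) (abs_nonneg C)
    _ = _ := by ring

theorem mb_norm_sq (Y : E n) : ‖Y‖ ^ 2 = Y 0 ^ 2 + Y 1 ^ 2 + lam2 Y := by
  rw [st_norm_sq]
  simp only [lam2, dotProduct, sq]

theorem mb_lam2_nonneg (Y : E n) : 0 ≤ lam2 Y :=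
  Finset.sum_nonneg fun _ _ => sq_nonneg _

theorem mb_continuous_lam2 : Continuous fun Y : E n => lam2 Y := by
  unfold lam2 tail
  fun_prop

theorem mb_continuous_den (a b : ℝ) : Continuous fun Y : E n => den a b Y := by
  unfold den
  fun_prop

theorem mb_coord_le (Y : E n) (i : Fin (n + 2)) : |Y i| ≤ ‖Y‖ := by
  simpa using PiLp.norm_apply_le Y i

theorem mb_den_le (a b : ℝ) (Y : E n) : den a b Y ≤ ‖Y‖ :=
  Real.sqrt_le_iff.2 ⟨norm_nonneg _, by nlinarith [sq_nonneg (a * Y 0 + b * Y 1)]⟩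

theorem mb_ae_coord_ne (i : Fin (n + 2)) : ∀ᵐ Y : E n, Y i ≠ 0 := by
  let s : Submodule ℝ (E n) := LinearMap.ker (EuclideanSpace.proj (𝕜 := ℝ) i).toLinearMap
  have hs : s ≠ ⊤ := by
    intro h
    have : (EuclideanSpace.single i (1 : ℝ) : E n) ∈ s := h ▸ Submodule.mem_top
    simp [s] at this
  have h0 := Measure.addHaar_submodule (volume : Measure (E n)) s hs
  rw [ae_iff]
  refine measure_mono_null (fun Y hY => ?_) h0
  simpa [s] using hY

theorem integrable_poly_gauss {f : E n → ℝ} (hf : Measurable f) (C : ℝ) (k : ℕ)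
    (hb : ∀ Y, |f Y| ≤ C * (1 + ‖Y‖) ^ k) :
    Integrable fun Y : E n => f Y * Real.exp (-‖Y‖ ^ 2 / 2) := by
  refine Integrable.mono' ((st_integrable_gauss n).const_mul
    (|C| * ((k.factorial : ℝ) * Real.exp 2))) ?_ (Filter.Eventually.of_forall fun Y => ?_)
  · exact (hf.mul (by fun_prop)).aestronglyMeasurable
  · rw [Real.norm_eq_abs, abs_mul, abs_of_pos (Real.exp_pos _)]
    exact mb_bound (hb Y) (norm_nonneg Y)

theorem lam2_le_den_sq {a b : ℝ} (hab : a ^ 2 + b ^ 2 ≤ 1) (Y : E n) :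
    lam2 Y ≤ ‖Y‖ ^ 2 - (a * Y 0 + b * Y 1) ^ 2 := by
  rw [mb_norm_sq]
  nlinarith [sq_nonneg (a * Y 1 - b * Y 0), mul_nonneg (sub_nonneg.2 hab)
    (add_nonneg (sq_nonneg (Y 0)) (sq_nonneg (Y 1)))]

theorem ae_lam2_pos (hn : 1 ≤ n) : ∀ᵐ Y : E n, 0 < lam2 Y := by
  filter_upwards [mb_ae_coord_ne (n := n) (Fin.succ (Fin.succ ⟨0, hn⟩))] with Y hY
  have h1 : 0 < tail Y ⟨0, hn⟩ ^ 2 := by
    have : tail Y ⟨0, hn⟩ ≠ 0 := hY
    positivity
  exact lt_of_lt_of_le h1 (Finset.single_le_sum (f := fun j => tail Y j ^ 2)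
    (fun _ _ => sq_nonneg _) (Finset.mem_univ _))

theorem ae_coord_ne (i : Fin (n + 2)) : ∀ᵐ Y : E n, Y i ≠ 0 := by
  exact mb_ae_coord_ne i

theorem mb_integrable_one {s : ℝ} (hs : -1 < s) :
    Integrable fun x : ℝ => |x| ^ s * Real.exp (-(1 / 4) * x ^ 2) := by
  have h := integrableOn_rpow_mul_exp_neg_mul_sq (b := 1 / 4) (by norm_num) hs
  have h1 : IntegrableOn (fun x : ℝ => |x| ^ s * Real.exp (-(1 / 4) * x ^ 2)) (Ioi 0) := by
    refine h.congr_fun (fun x hx => ?_) measurableSet_Ioi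
    simp only [abs_of_pos (show 0 < x from hx)]
  rw [← integrableOn_univ, ← @Iio_union_Ici _ _ (0 : ℝ), integrableOn_union,
    integrableOn_Ici_iff_integrableOn_Ioi]
  refine ⟨?_, h1⟩
  rw [← (Measure.measurePreserving_neg (volume : Measure ℝ)).integrableOn_comp_preimage
      (Homeomorph.neg ℝ).measurableEmbedding]
  simpa only [Function.comp_def, neg_sq, neg_preimage, neg_Iio, neg_zero, abs_neg] using h1

theorem mb_integrable_prod (s : Fin (n + 2) → ℝ) (hs : ∀ i, -1 < s i) :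
    Integrable fun Y : E n => ∏ i, |Y i| ^ s i * Real.exp (-(1 / 4) * Y i ^ 2) := by
  have h : Integrable (fun x : Fin (n + 2) → ℝ =>
      ∏ i, |x i| ^ s i * Real.exp (-(1 / 4) * x i ^ 2)) :=
    Integrable.fintype_prod (f := fun i (x : ℝ) => |x| ^ s i * Real.exp (-(1 / 4) * x ^ 2))
      fun i => mb_integrable_one (hs i)
  exact (PiLp.volume_preserving_ofLp (Fin (n + 2))).integrable_comp_of_integrable h

/-- A negative power `lam2 ^ (-j / 2)` is locally integrable when `j < n`. -/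
theorem integrable_div_lam {j : ℕ} (hj : j < n) {f : E n → ℝ} (hf : Measurable f) (C : ℝ) (k : ℕ)
    (hb : ∀ Y, |f Y| ≤ C * (1 + ‖Y‖) ^ k) :
    Integrable fun Y : E n => f Y / Real.sqrt (lam2 Y) ^ j * Real.exp (-‖Y‖ ^ 2 / 2) := by
  have hn : (0 : ℝ) < n := by exact_mod_cast (Nat.zero_le j).trans_lt hj
  let s : Fin (n + 2) → ℝ :=
    Fin.cons 0 (Fin.cons 0 (fun _ : Fin n => -((j : ℝ) / n)) : Fin (n + 1) → ℝ)
  have hs : ∀ i, -1 < s i := by
    intro i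
    refine Fin.cases ?_ (fun i => Fin.cases ?_ (fun i => ?_) i) i
    · simp [s]
    · simp [s]
    · simp only [s, Fin.cons_succ, neg_lt_neg_iff]
      rw [div_lt_one hn]
      exact_mod_cast hj
  have hP := mb_integrable_prod s hs
  refine Integrable.mono' (hP.const_mul (|C| * ((k.factorial : ℝ) * Real.exp 2))) ?_ ?_
  · refine Measurable.aestronglyMeasurable ?_
    refine (hf.div ?_).mul (by fun_prop)
    exact ((Real.continuous_sqrt.comp mb_continuous_lam2).pow j).measurable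
  · have hall : ∀ᵐ Y : E n, ∀ i, Y i ≠ 0 := ae_all_iff.2 mb_ae_coord_ne
    filter_upwards [hall, ae_lam2_pos (n := n) (by omega)] with Y hY hl
    have hL : 0 < Real.sqrt (lam2 Y) := Real.sqrt_pos.2 hl
    have hexp : ∏ i, Real.exp (-(1 / 4) * Y i ^ 2) = Real.exp (-‖Y‖ ^ 2 / 4) := by
      rw [← Real.exp_sum, EuclideanSpace.real_norm_sq_eq, ← Finset.mul_sum]
      congr 1
      ring
    have hpow : (Real.sqrt (lam2 Y) ^ j)⁻¹ ≤ ∏ i, |Y i| ^ s i := by
      rw [Fin.prod_univ_succ, Fin.prod_univ_succ]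
      simp only [s, Fin.cons_zero, Fin.cons_succ, Real.rpow_zero, one_mul]
      have e1 : (Real.sqrt (lam2 Y) ^ j)⁻¹ =
          ∏ _i : Fin n, Real.sqrt (lam2 Y) ^ (-((j : ℝ) / n)) := by
        rw [Finset.prod_const, Finset.card_univ, Fintype.card_fin, ← Real.rpow_natCast _ n,
          ← Real.rpow_mul hL.le, ← Real.rpow_natCast, ← Real.rpow_neg hL.le]
        congr 1
        field_simp
      rw [e1]
      refine Finset.prod_le_prod (fun i _ => Real.rpow_nonneg hL.le _) fun i _ => ?_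
      refine Real.rpow_le_rpow_of_nonpos (abs_pos.2 (hY _)) ?_
        (neg_nonpos.2 (by positivity))
      refine Real.abs_le_sqrt ?_
      exact Finset.single_le_sum (f := fun j => tail Y j ^ 2)
        (fun _ _ => sq_nonneg _) (Finset.mem_univ i)
    rw [Finset.prod_mul_distrib, hexp, Real.norm_eq_abs, abs_mul, abs_of_pos (Real.exp_pos _),
      abs_div, abs_of_pos (pow_pos hL j)]
    have hb' := mb_bound (hb Y) (norm_nonneg Y)
    calc |f Y| / Real.sqrt (lam2 Y) ^ j * Real.exp (-‖Y‖ ^ 2 / 2)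
        = (|f Y| * Real.exp (-‖Y‖ ^ 2 / 2)) * (Real.sqrt (lam2 Y) ^ j)⁻¹ := by ring
      _ ≤ (|C| * ((k.factorial : ℝ) * Real.exp 2) * Real.exp (-‖Y‖ ^ 2 / 4))
            * ∏ i, |Y i| ^ s i :=
          mul_le_mul hb' hpow (by positivity) (by positivity)
      _ = _ := by ring

theorem integrable_mom (hn : 2 ≤ n) {a b : ℝ} (hab : a ^ 2 + b ^ 2 ≤ 1) {f : E n → ℝ}
    (hf : Measurable f) (C : ℝ) (k : ℕ) (hb : ∀ Y, |f Y| ≤ C * (1 + ‖Y‖) ^ k) :
    Integrable fun Y : E n =>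
      |Y 0| ^ (n - 1) * f Y / den a b Y * Real.exp (-‖Y‖ ^ 2 / 2) := by
  have hb' : ∀ Y : E n, |(|Y 0| ^ (n - 1) * f Y)| ≤ |C| * (1 + ‖Y‖) ^ (n - 1 + k) := by
    intro Y
    have h1 : |Y 0| ^ (n - 1) ≤ (1 + ‖Y‖) ^ (n - 1) :=
      pow_le_pow_left₀ (abs_nonneg _) (by linarith [mb_coord_le Y 0]) _
    have h2 : |f Y| ≤ |C| * (1 + ‖Y‖) ^ k :=
      (hb Y).trans (mul_le_mul_of_nonneg_right (le_abs_self C) (by positivity))
    rw [abs_mul, abs_of_nonneg (pow_nonneg (abs_nonneg _) _), pow_add]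
    calc |Y 0| ^ (n - 1) * |f Y| ≤ (1 + ‖Y‖) ^ (n - 1) * (|C| * (1 + ‖Y‖) ^ k) :=
          mul_le_mul h1 h2 (abs_nonneg _) (by positivity)
      _ = _ := by ring
  have hm : Measurable fun Y : E n => |Y 0| ^ (n - 1) * f Y :=
    Measurable.mul (by fun_prop) hf
  have h := integrable_div_lam (j := 1) (by omega) hm _ _ hb'
  refine h.mono ?_ ?_
  · exact ((hm.div (mb_continuous_den a b).measurable).mul (by fun_prop)).aestronglyMeasurable
  · filter_upwards [ae_lam2_pos (n := n) (by omega)] with Y hl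
    have hL : 0 < Real.sqrt (lam2 Y) := Real.sqrt_pos.2 hl
    have hd : Real.sqrt (lam2 Y) ≤ den a b Y := Real.sqrt_le_sqrt (lam2_le_den_sq hab Y)
    rw [norm_mul, norm_mul, norm_div, norm_div, pow_one, Real.norm_of_nonneg hL.le,
      Real.norm_of_nonneg (hL.le.trans hd)]
    gcongr

theorem mb_phi_bound (a b : ℝ) (Y : E n) :
    |(|Y 0| ^ (n + 1) * den a b Y)| ≤ (1 + ‖Y‖) ^ (n + 2) := by
  have hd : 0 ≤ den a b Y := Real.sqrt_nonneg _
  rw [abs_of_nonneg (mul_nonneg (pow_nonneg (abs_nonneg _) _) hd), pow_succ (1 + ‖Y‖)]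
  exact mul_le_mul (pow_le_pow_left₀ (abs_nonneg _) (by linarith [mb_coord_le Y 0]) _)
    (by linarith [mb_den_le a b Y]) hd (by positivity)

theorem integrable_phi (a b : ℝ) :
    Integrable fun Y : E n => |Y 0| ^ (n + 1) * den a b Y * Real.exp (-‖Y‖ ^ 2 / 2) := by
  refine integrable_poly_gauss (f := fun Y : E n => |Y 0| ^ (n + 1) * den a b Y)
    (Measurable.mul (by fun_prop) (mb_continuous_den a b).measurable) 1 (n + 2) fun Y => ?_
  rw [one_mul]
  exact mb_phi_bound a b Y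

theorem Gi_comp (e : E n ≃ₗᵢ[ℝ] E n) (f : E n → ℝ) : Gi (fun Y => f (e Y)) = Gi f := by
  unfold Gi
  have := e.measurePreserving.integral_comp e.toHomeomorph.measurableEmbedding
    (fun y => f y * Real.exp (-‖y‖ ^ 2 / 2))
  rw [← this]
  simp only [LinearIsometryEquiv.norm_map]

/-- The sign change of one coordinate. -/
theorem exists_flip (i : Fin (n + 2)) :
    ∃ e : E n ≃ₗᵢ[ℝ] E n, ∀ Y : E n, e Y i = -Y i ∧ ∀ j, j ≠ i → e Y j = Y j := by
  classical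
  refine ⟨LinearIsometryEquiv.piLpCongrRight 2 (fun j =>
    if j = i then LinearIsometryEquiv.neg ℝ (E := ℝ) else LinearIsometryEquiv.refl ℝ ℝ),
    fun Y => ⟨?_, fun j hj => ?_⟩⟩
  · simp [LinearIsometryEquiv.piLpCongrRight_apply]
  · simp [LinearIsometryEquiv.piLpCongrRight_apply, hj]

theorem phi_neg_left (n : ℕ) (a b : ℝ) : phi n (-a) b = phi n a b := by
  obtain ⟨e, he⟩ := exists_flip (n := n) 0
  unfold phi
  rw [← Gi_comp e fun Y : E n => |Y 0| ^ (n + 1) * den a b Y]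
  congr 1
  funext Y
  have h1 : e Y 1 = Y 1 := (he Y).2 1 (by simp)
  simp only [den, (he Y).1, h1, abs_neg, LinearIsometryEquiv.norm_map, neg_mul, mul_neg]

theorem phi_neg_right (n : ℕ) (a b : ℝ) : phi n a (-b) = phi n a b := by
  obtain ⟨e, he⟩ := exists_flip (n := n) 1
  unfold phi
  rw [← Gi_comp e fun Y : E n => |Y 0| ^ (n + 1) * den a b Y]
  congr 1
  funext Y
  have h1 : e Y 0 = Y 0 := (he Y).2 0 (by simp)
  simp only [den, (he Y).1, h1, LinearIsometryEquiv.norm_map, neg_mul, mul_neg]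

theorem phi_nonneg (n : ℕ) (a b : ℝ) : 0 ≤ phi n a b := by
  refine integral_nonneg fun Y => ?_
  have hd : 0 ≤ den a b Y := Real.sqrt_nonneg _
  show 0 ≤ |Y 0| ^ (n + 1) * den a b Y * Real.exp (-‖Y‖ ^ 2 / 2)
  positivity

theorem U0_pos (n : ℕ) : 0 < U0 n := by
  have hc : Continuous fun Y : E n =>
      |Y 0| ^ (n + 1) * den 0 0 Y * Real.exp (-‖Y‖ ^ 2 / 2) :=
    (Continuous.mul (by fun_prop) (mb_continuous_den 0 0)).mul (by fun_prop)
  refine integral_pos_of_integrable_nonneg_nonzero (x := stVec 1 0 0) hc (integrable_phi 0 0)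
    (fun Y => ?_) (ne_of_gt ?_)
  · have hd : 0 ≤ den 0 0 Y := Real.sqrt_nonneg _
    show 0 ≤ |Y 0| ^ (n + 1) * den 0 0 Y * Real.exp (-‖Y‖ ^ 2 / 2)
    positivity
  · have hd : 0 < den 0 0 (stVec 1 0 0 : E n) := by
      unfold den
      refine Real.sqrt_pos.2 ?_
      simp only [st_norm_sq, st_vec_zero, st_vec_one, st_tail_vec, dotProduct_zero]
      norm_num
    show 0 < |(1 : ℝ)| ^ (n + 1) * den 0 0 (stVec 1 0 0 : E n) * Real.exp _
    positivity

theorem phi_le_U0 (n : ℕ) (a b : ℝ) : phi n a b ≤ U0 n := by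
  refine integral_mono (integrable_phi a b) (integrable_phi 0 0) fun Y => ?_
  have hd : den a b Y ≤ den 0 0 Y := by
    unfold den
    exact Real.sqrt_le_sqrt (by nlinarith [sq_nonneg (a * Y 0 + b * Y 1)])
  show |Y 0| ^ (n + 1) * den a b Y * Real.exp (-‖Y‖ ^ 2 / 2) ≤
    |Y 0| ^ (n + 1) * den 0 0 Y * Real.exp (-‖Y‖ ^ 2 / 2)
  gcongr

theorem continuous_phi (n : ℕ) : Continuous fun p : ℝ × ℝ => phi n p.1 p.2 := by
  unfold phi Gi
  refine continuous_of_dominated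
    (bound := fun Y : E n => (1 + ‖Y‖) ^ (n + 2) * Real.exp (-‖Y‖ ^ 2 / 2))
    (fun p => (integrable_phi p.1 p.2).aestronglyMeasurable)
    (fun p => Filter.Eventually.of_forall fun Y => ?_) ?_
    (Filter.Eventually.of_forall fun Y => ?_)
  · rw [Real.norm_eq_abs, abs_mul, abs_of_pos (Real.exp_pos _)]
    exact mul_le_mul_of_nonneg_right (mb_phi_bound p.1 p.2 Y) (Real.exp_pos _).le
  · refine integrable_poly_gauss (f := fun Y : E n => (1 + ‖Y‖) ^ (n + 2)) (by fun_prop) 1 (n + 2)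
      fun Y => ?_
    rw [one_mul, abs_of_nonneg (by positivity)]
  · unfold den
    fun_prop

theorem mb_lin {f g h k : E n → ℝ} (hf : Integrable f) (hg : Integrable g) (hh : Integrable h)
    (hk : Integrable k) :
    ∫ Y, (f Y + g Y + h Y - k Y) = (∫ Y, f Y) + (∫ Y, g Y) + (∫ Y, h Y) - ∫ Y, k Y := by
  have h1 : Integrable fun Y => f Y + g Y := hf.add hg
  have h2 : Integrable fun Y => f Y + g Y + h Y := h1.add hh
  rw [integral_sub h2 hk, integral_add h1 hh, integral_add hf hg]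

theorem phi_eq (hn : 2 ≤ n) {a b : ℝ} (hab : a ^ 2 + b ^ 2 ≤ 1) :
    phi n a b = (1 - a ^ 2) * (mo n a b).Wr + (1 - b ^ 2) * (mo n a b).Be + n * (mo n a b).Bl
      - 2 * (a * b) * (mo n a b).e1 := by
  have hq : ∀ (Y : E n) (x y z w : ℝ), |x| ≤ ‖Y‖ → |y| ≤ ‖Y‖ → |z| ≤ ‖Y‖ → |w| ≤ ‖Y‖ →
      |x * y * z * w| ≤ 1 * (1 + ‖Y‖) ^ 4 := by
    intro Y x y z w hx hy hz hw
    have h0 := norm_nonneg Y
    rw [abs_mul, abs_mul, abs_mul]
    calc |x| * |y| * |z| * |w| ≤ (1 + ‖Y‖) * (1 + ‖Y‖) * (1 + ‖Y‖) * (1 + ‖Y‖) := by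
          gcongr <;> linarith
      _ = _ := by ring
  have hsq : ∀ Y : E n, |Real.sqrt (lam2 Y)| ≤ ‖Y‖ := by
    intro Y
    rw [abs_of_nonneg (Real.sqrt_nonneg _)]
    refine Real.sqrt_le_iff.2 ⟨norm_nonneg _, ?_⟩
    rw [mb_norm_sq]
    nlinarith [sq_nonneg (Y 0), sq_nonneg (Y 1)]
  have i1 := integrable_mom hn hab (f := fun Y : E n => Y 0 ^ 4) (by fun_prop) 1 4 fun Y => by
    have := hq Y _ _ _ _ (mb_coord_le Y 0) (mb_coord_le Y 0) (mb_coord_le Y 0) (mb_coord_le Y 0)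
    rwa [show Y 0 * Y 0 * Y 0 * Y 0 = Y 0 ^ 4 by ring] at this
  have i2 := integrable_mom hn hab (f := fun Y : E n => Y 0 ^ 2 * Y 1 ^ 2) (by fun_prop) 1 4
    fun Y => by
    have := hq Y _ _ _ _ (mb_coord_le Y 0) (mb_coord_le Y 0) (mb_coord_le Y 1) (mb_coord_le Y 1)
    rwa [show Y 0 * Y 0 * Y 1 * Y 1 = Y 0 ^ 2 * Y 1 ^ 2 by ring] at this
  have i3 := integrable_mom hn hab (f := fun Y : E n => Y 0 ^ 2 * lam2 Y)
    (Measurable.mul (by fun_prop) mb_continuous_lam2.measurable) 1 4 fun Y => by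
    have := hq Y _ _ _ _ (mb_coord_le Y 0) (mb_coord_le Y 0) (hsq Y) (hsq Y)
    rwa [mul_assoc, Real.mul_self_sqrt (mb_lam2_nonneg Y), ← sq] at this
  have i4 := integrable_mom hn hab (f := fun Y : E n => Y 0 ^ 3 * Y 1) (by fun_prop) 1 4
    fun Y => by
    have := hq Y _ _ _ _ (mb_coord_le Y 0) (mb_coord_le Y 0) (mb_coord_le Y 0) (mb_coord_le Y 1)
    rwa [show Y 0 * Y 0 * Y 0 * Y 1 = Y 0 ^ 3 * Y 1 by ring] at this
  have hn0 : (n : ℝ) ≠ 0 := by
    have : n ≠ 0 := by omega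
    exact_mod_cast this
  simp only [mo]
  rw [mul_div_cancel₀ _ hn0]
  unfold phi mom Gi
  have key := mb_lin (i1.const_mul (1 - a ^ 2)) (i2.const_mul (1 - b ^ 2)) i3
    (i4.const_mul (2 * (a * b)))
  rw [integral_const_mul, integral_const_mul, integral_const_mul] at key
  refine Eq.trans ?_ key
  refine integral_congr_ae ?_
  filter_upwards [ae_lam2_pos (n := n) (by omega)] with Y hl
  have hle := lam2_le_den_sq hab Y
  have hd : 0 < den a b Y := Real.sqrt_pos.2 (hl.trans_le hle)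
  have hd2 : den a b Y ^ 2 = Y 0 ^ 2 + Y 1 ^ 2 + lam2 Y - (a * Y 0 + b * Y 1) ^ 2 := by
    rw [← mb_norm_sq]
    exact Real.sq_sqrt (hl.le.trans hle)
  have hp : |Y 0| ^ (n + 1) = |Y 0| ^ (n - 1) * Y 0 ^ 2 := by
    rw [← sq_abs (Y 0), ← pow_add]
    congr 1
    omega
  have hdd : den a b Y = (Y 0 ^ 2 + Y 1 ^ 2 + lam2 Y - (a * Y 0 + b * Y 1) ^ 2) / den a b Y := by
    rw [← hd2]
    field_simp
  show |Y 0| ^ (n + 1) * den a b Y * Real.exp (-‖Y‖ ^ 2 / 2) = _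
  rw [hp]
  calc |Y 0| ^ (n - 1) * Y 0 ^ 2 * den a b Y * Real.exp (-‖Y‖ ^ 2 / 2)
      = |Y 0| ^ (n - 1) * Y 0 ^ 2 * ((Y 0 ^ 2 + Y 1 ^ 2 + lam2 Y - (a * Y 0 + b * Y 1) ^ 2)
          / den a b Y) * Real.exp (-‖Y‖ ^ 2 / 2) := by rw [← hdd]
    _ = _ := by ring

theorem gauss_eq_ofReal {f : E n → ℝ} (h0 : ∀ Y, 0 ≤ f Y)
    (hi : Integrable fun Y : E n => f Y * Real.exp (-‖Y‖ ^ 2 / 2)) :
    gauss f = ENNReal.ofReal (Gi f) := by
  unfold gauss Gi
  exact (ofReal_integral_eq_lintegral_ofReal hi (Filter.Eventually.of_forall fun Y =>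
    mul_nonneg (h0 Y) (Real.exp_pos _).le)).symm

end Pool.Agent.Ped
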