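import Pool.Agent.P.MP_e09f5c_gt.ANDefs
import Pool.Agent.P.MP_e09f5c_gt.WBound

/-! Bounds for the moments when `5 ≤ n`. -/

open MeasureTheory

namespace Pool.Agent.Ped

variable {n : ℕ}

/-- Closed form of the monomial integrals. -/
noncomputable def momNm (N : ℝ) (i j k : ℕ) : ℝ :=
  (2 * N + 1) / N * ((∏ t ∈ Finset.range i, (N + 2 * (t : ℝ)))
    * (∏ t ∈ Finset.range j, (1 + 2 * (t : ℝ))) * ∏ t ∈ Finset.range k, (N + 2 * (t : ℝ)))
    / ∏ t ∈ Finset.range (i + j + k), (2 * N + 1 + 2 * (t : ℝ))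

theorem momN_prod_ne (n m : ℕ) :
    (∏ t ∈ Finset.range m, (2 * (n : ℝ) + 1 + 2 * (t : ℝ))) ≠ 0 :=
  Finset.prod_ne_zero_iff.2 fun t _ => by positivity

theorem momN_mono (hn : 1 ≤ n) (i j k : ℕ) : mono n i j (k : ℤ) = momNm n i j k := by
  have hk : ∀ k : ℕ, 0 < (n : ℤ) + 2 * (k : ℤ) := fun k => by omega
  have h0 : (n : ℝ) ≠ 0 := Nat.cast_ne_zero.2 (by omega)
  induction i with
  | zero =>
    induction j with
    | zero =>
      induction k with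
      | zero =>
        rw [Nat.cast_zero, mono_zero hn]
        simp [momNm]
      | succ k ih =>
        rw [Nat.cast_succ, mono_succ3 hn 0 0 (hk k), ih]
        have := momN_prod_ne n k
        simp only [momNm, zero_add, Finset.prod_range_succ, Finset.range_zero, Finset.prod_empty]
        push_cast
        field_simp
        ring
    | succ j ih =>
      rw [mono_succ2 hn 0 j (hk k), ih]
      have := momN_prod_ne n (j + k)
      simp only [momNm, zero_add, show j + 1 + k = j + k + 1 by ring, Finset.prod_range_succ,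
        Finset.range_zero, Finset.prod_empty]
      push_cast
      field_simp
      ring
  | succ i ih =>
    rw [mono_succ1 hn i j (hk k), ih]
    have := momN_prod_ne n (i + j + k)
    simp only [momNm, show i + 1 + j + k = i + j + k + 1 by ring, Finset.prod_range_succ]
    push_cast
    field_simp

theorem momN_ne (hn : 5 ≤ n) : (n : ℝ) ≠ 0 ∧ (n : ℝ) - 2 ≠ 0 ∧ (n : ℝ) - 4 ≠ 0 := by
  have h : (5 : ℝ) ≤ n := by exact_mod_cast hn
  exact ⟨by linarith, by linarith, by linarith⟩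

theorem momN_m1 (hn : 5 ≤ n) (i j : ℕ) :
    mono n i j (-1) = momNm n i j 0 * (2 * n - 1 + 2 * (i + j)) / (n - 2) := by
  have h := mono_pred3 (n := n) (by omega) i j (k := 0) (by omega)
  have h1 : mono n i j 0 = momNm n i j 0 := momN_mono (by omega) i j 0
  rw [zero_sub, h1] at h
  rw [h]
  push_cast
  congr 1 <;> ring

theorem momN_m2 (hn : 5 ≤ n) (i j : ℕ) :
    mono n i j (-2) = momNm n i j 0 * (2 * n - 1 + 2 * (i + j)) / (n - 2)
      * (2 * n - 3 + 2 * (i + j)) / (n - 4) := by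
  have h := mono_pred3 (n := n) (by omega) i j (k := -1) (by omega)
  rw [show (-1 - 1 : ℤ) = -2 by norm_num, momN_m1 hn] at h
  rw [h]
  push_cast
  congr 1 <;> ring

theorem momN_v200 (hn : 5 ≤ n) : (2 * n + 3 : ℝ) * mono n 2 0 0
    = (n + 2) := by
  obtain ⟨h0, h2, h4⟩ := momN_ne hn
  rw [show mono n 2 0 0 = _ from momN_mono (by omega) 2 0 0]
  simp only [momNm, Finset.prod_range_succ, Finset.range_zero, Finset.prod_empty]
  push_cast
  field_simp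
  ring

theorem momN_v110 (hn : 5 ≤ n) : (2 * n + 3 : ℝ) * mono n 1 1 0
    = 1 := by
  obtain ⟨h0, h2, h4⟩ := momN_ne hn
  rw [show mono n 1 1 0 = _ from momN_mono (by omega) 1 1 0]
  simp only [momNm, Finset.prod_range_succ, Finset.range_zero, Finset.prod_empty]
  push_cast
  field_simp
  ring

theorem momN_v101 (hn : 5 ≤ n) : (2 * n + 3 : ℝ) * mono n 1 0 1
    = n := by
  obtain ⟨h0, h2, h4⟩ := momN_ne hn
  rw [show mono n 1 0 1 = _ from momN_mono (by omega) 1 0 1]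
  simp only [momNm, Finset.prod_range_succ, Finset.range_zero, Finset.prod_empty]
  push_cast
  field_simp
  ring

theorem momN_v002 (hn : 5 ≤ n) : (2 * n + 3 : ℝ) * mono n 0 0 2
    = (n + 2) := by
  obtain ⟨h0, h2, h4⟩ := momN_ne hn
  rw [show mono n 0 0 2 = _ from momN_mono (by omega) 0 0 2]
  simp only [momNm, Finset.prod_range_succ, Finset.range_zero, Finset.prod_empty]
  push_cast
  field_simp
  ring

theorem momN_v011 (hn : 5 ≤ n) : (2 * n + 3 : ℝ) * mono n 0 1 1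
    = 1 := by
  obtain ⟨h0, h2, h4⟩ := momN_ne hn
  rw [show mono n 0 1 1 = _ from momN_mono (by omega) 0 1 1]
  simp only [momNm, Finset.prod_range_succ, Finset.range_zero, Finset.prod_empty]
  push_cast
  field_simp
  ring

theorem momN_v020 (hn : 5 ≤ n) : (2 * n + 3 : ℝ) * mono n 0 2 0
    = 3 / n := by
  obtain ⟨h0, h2, h4⟩ := momN_ne hn
  rw [show mono n 0 2 0 = _ from momN_mono (by omega) 0 2 0]
  simp only [momNm, Finset.prod_range_succ, Finset.range_zero, Finset.prod_empty]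
  push_cast
  field_simp
  ring

theorem momN_v300 (hn : 5 ≤ n) : (2 * n + 3 : ℝ) * mono n 3 0 0
    = (n + 2) * (n + 4) / (2 * n + 5) := by
  obtain ⟨h0, h2, h4⟩ := momN_ne hn
  rw [show mono n 3 0 0 = _ from momN_mono (by omega) 3 0 0]
  simp only [momNm, Finset.prod_range_succ, Finset.range_zero, Finset.prod_empty]
  push_cast
  field_simp
  ring

theorem momN_v210 (hn : 5 ≤ n) : (2 * n + 3 : ℝ) * mono n 2 1 0
    = (n + 2) / (2 * n + 5) := by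
  obtain ⟨h0, h2, h4⟩ := momN_ne hn
  rw [show mono n 2 1 0 = _ from momN_mono (by omega) 2 1 0]
  simp only [momNm, Finset.prod_range_succ, Finset.range_zero, Finset.prod_empty]
  push_cast
  field_simp
  ring

theorem momN_v120 (hn : 5 ≤ n) : (2 * n + 3 : ℝ) * mono n 1 2 0
    = 3 / (2 * n + 5) := by
  obtain ⟨h0, h2, h4⟩ := momN_ne hn
  rw [show mono n 1 2 0 = _ from momN_mono (by omega) 1 2 0]
  simp only [momNm, Finset.prod_range_succ, Finset.range_zero, Finset.prod_empty]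
  push_cast
  field_simp
  ring

theorem momN_v030 (hn : 5 ≤ n) : (2 * n + 3 : ℝ) * mono n 0 3 0
    = 15 / (n * (2 * n + 5)) := by
  obtain ⟨h0, h2, h4⟩ := momN_ne hn
  rw [show mono n 0 3 0 = _ from momN_mono (by omega) 0 3 0]
  simp only [momNm, Finset.prod_range_succ, Finset.range_zero, Finset.prod_empty]
  push_cast
  field_simp
  ring

theorem momN_v201 (hn : 5 ≤ n) : (2 * n + 3 : ℝ) * mono n 2 0 1
    = (n + 2) * n / (2 * n + 5) := by
  obtain ⟨h0, h2, h4⟩ := momN_ne hn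
  rw [show mono n 2 0 1 = _ from momN_mono (by omega) 2 0 1]
  simp only [momNm, Finset.prod_range_succ, Finset.range_zero, Finset.prod_empty]
  push_cast
  field_simp
  ring

theorem momN_v111 (hn : 5 ≤ n) : (2 * n + 3 : ℝ) * mono n 1 1 1
    = n / (2 * n + 5) := by
  obtain ⟨h0, h2, h4⟩ := momN_ne hn
  rw [show mono n 1 1 1 = _ from momN_mono (by omega) 1 1 1]
  simp only [momNm, Finset.prod_range_succ, Finset.range_zero, Finset.prod_empty]
  push_cast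
  field_simp
  ring

theorem momN_v021 (hn : 5 ≤ n) : (2 * n + 3 : ℝ) * mono n 0 2 1
    = 3 / (2 * n + 5) := by
  obtain ⟨h0, h2, h4⟩ := momN_ne hn
  rw [show mono n 0 2 1 = _ from momN_mono (by omega) 0 2 1]
  simp only [momNm, Finset.prod_range_succ, Finset.range_zero, Finset.prod_empty]
  push_cast
  field_simp
  ring

theorem momN_v102 (hn : 5 ≤ n) : (2 * n + 3 : ℝ) * mono n 1 0 2
    = n * (n + 2) / (2 * n + 5) := by
  obtain ⟨h0, h2, h4⟩ := momN_ne hn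
  rw [show mono n 1 0 2 = _ from momN_mono (by omega) 1 0 2]
  simp only [momNm, Finset.prod_range_succ, Finset.range_zero, Finset.prod_empty]
  push_cast
  field_simp
  ring

theorem momN_v012 (hn : 5 ≤ n) : (2 * n + 3 : ℝ) * mono n 0 1 2
    = (n + 2) / (2 * n + 5) := by
  obtain ⟨h0, h2, h4⟩ := momN_ne hn
  rw [show mono n 0 1 2 = _ from momN_mono (by omega) 0 1 2]
  simp only [momNm, Finset.prod_range_succ, Finset.range_zero, Finset.prod_empty]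
  push_cast
  field_simp
  ring

theorem momN_v310 (hn : 5 ≤ n) : (2 * n + 3 : ℝ) * mono n 3 1 0
    = (n + 2) * (n + 4) / ((2 * n + 5) * (2 * n + 7)) := by
  obtain ⟨h0, h2, h4⟩ := momN_ne hn
  rw [show mono n 3 1 0 = _ from momN_mono (by omega) 3 1 0]
  simp only [momNm, Finset.prod_range_succ, Finset.range_zero, Finset.prod_empty]
  push_cast
  field_simp
  ring

theorem momN_v220 (hn : 5 ≤ n) : (2 * n + 3 : ℝ) * mono n 2 2 0
    = 3 * (n + 2) / ((2 * n + 5) * (2 * n + 7)) := by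
  obtain ⟨h0, h2, h4⟩ := momN_ne hn
  rw [show mono n 2 2 0 = _ from momN_mono (by omega) 2 2 0]
  simp only [momNm, Finset.prod_range_succ, Finset.range_zero, Finset.prod_empty]
  push_cast
  field_simp
  ring

theorem momN_v130 (hn : 5 ≤ n) : (2 * n + 3 : ℝ) * mono n 1 3 0
    = 15 / ((2 * n + 5) * (2 * n + 7)) := by
  obtain ⟨h0, h2, h4⟩ := momN_ne hn
  rw [show mono n 1 3 0 = _ from momN_mono (by omega) 1 3 0]
  simp only [momNm, Finset.prod_range_succ, Finset.range_zero, Finset.prod_empty]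
  push_cast
  field_simp
  ring

theorem momN_v40m (hn : 5 ≤ n) : (2 * n + 3 : ℝ) * mono n 4 0 (-1)
    = (n + 2) * (n + 4) * (n + 6) / ((n - 2) * (2 * n + 5)) := by
  obtain ⟨h0, h2, h4⟩ := momN_ne hn
  rw [momN_m1 hn]
  simp only [momNm, Finset.prod_range_succ, Finset.range_zero, Finset.prod_empty]
  push_cast
  field_simp
  ring

theorem momN_v31m (hn : 5 ≤ n) : (2 * n + 3 : ℝ) * mono n 3 1 (-1)
    = (n + 2) * (n + 4) / ((n - 2) * (2 * n + 5)) := by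
  obtain ⟨h0, h2, h4⟩ := momN_ne hn
  rw [momN_m1 hn]
  simp only [momNm, Finset.prod_range_succ, Finset.range_zero, Finset.prod_empty]
  push_cast
  field_simp
  ring

theorem momN_v22m (hn : 5 ≤ n) : (2 * n + 3 : ℝ) * mono n 2 2 (-1)
    = 3 * (n + 2) / ((n - 2) * (2 * n + 5)) := by
  obtain ⟨h0, h2, h4⟩ := momN_ne hn
  rw [momN_m1 hn]
  simp only [momNm, Finset.prod_range_succ, Finset.range_zero, Finset.prod_empty]
  push_cast
  field_simp
  ring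

theorem momN_v13m (hn : 5 ≤ n) : (2 * n + 3 : ℝ) * mono n 1 3 (-1)
    = 15 / ((n - 2) * (2 * n + 5)) := by
  obtain ⟨h0, h2, h4⟩ := momN_ne hn
  rw [momN_m1 hn]
  simp only [momNm, Finset.prod_range_succ, Finset.range_zero, Finset.prod_empty]
  push_cast
  field_simp
  ring

theorem momN_v04m (hn : 5 ≤ n) : (2 * n + 3 : ℝ) * mono n 0 4 (-1)
    = 105 / (n * (n - 2) * (2 * n + 5)) := by
  obtain ⟨h0, h2, h4⟩ := momN_ne hn
  rw [momN_m1 hn]
  simp only [momNm, Finset.prod_range_succ, Finset.range_zero, Finset.prod_empty]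
  push_cast
  field_simp
  ring

theorem momN_v41m (hn : 5 ≤ n) : (2 * n + 3 : ℝ) * mono n 4 1 (-1)
    = (n + 2) * (n + 4) * (n + 6) / ((n - 2) * (2 * n + 5) * (2 * n + 7)) := by
  obtain ⟨h0, h2, h4⟩ := momN_ne hn
  rw [momN_m1 hn]
  simp only [momNm, Finset.prod_range_succ, Finset.range_zero, Finset.prod_empty]
  push_cast
  field_simp
  ring

theorem momN_v32m (hn : 5 ≤ n) : (2 * n + 3 : ℝ) * mono n 3 2 (-1)
    = 3 * (n + 2) * (n + 4) / ((n - 2) * (2 * n + 5) * (2 * n + 7)) := by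
  obtain ⟨h0, h2, h4⟩ := momN_ne hn
  rw [momN_m1 hn]
  simp only [momNm, Finset.prod_range_succ, Finset.range_zero, Finset.prod_empty]
  push_cast
  field_simp
  ring

theorem momN_v23m (hn : 5 ≤ n) : (2 * n + 3 : ℝ) * mono n 2 3 (-1)
    = 15 * (n + 2) / ((n - 2) * (2 * n + 5) * (2 * n + 7)) := by
  obtain ⟨h0, h2, h4⟩ := momN_ne hn
  rw [momN_m1 hn]
  simp only [momNm, Finset.prod_range_succ, Finset.range_zero, Finset.prod_empty]
  push_cast
  field_simp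
  ring

theorem momN_v14m (hn : 5 ≤ n) : (2 * n + 3 : ℝ) * mono n 1 4 (-1)
    = 105 / ((n - 2) * (2 * n + 5) * (2 * n + 7)) := by
  obtain ⟨h0, h2, h4⟩ := momN_ne hn
  rw [momN_m1 hn]
  simp only [momNm, Finset.prod_range_succ, Finset.range_zero, Finset.prod_empty]
  push_cast
  field_simp
  ring

theorem momN_v41mm (hn : 5 ≤ n) : (2 * n + 3 : ℝ) * mono n 4 1 (-2)
    = (n + 2) * (n + 4) * (n + 6) / ((n - 2) * (n - 4) * (2 * n + 5)) := by
  obtain ⟨h0, h2, h4⟩ := momN_ne hn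
  rw [momN_m2 hn]
  simp only [momNm, Finset.prod_range_succ, Finset.range_zero, Finset.prod_empty]
  push_cast
  field_simp
  ring

theorem momN_v32mm (hn : 5 ≤ n) : (2 * n + 3 : ℝ) * mono n 3 2 (-2)
    = 3 * (n + 2) * (n + 4) / ((n - 2) * (n - 4) * (2 * n + 5)) := by
  obtain ⟨h0, h2, h4⟩ := momN_ne hn
  rw [momN_m2 hn]
  simp only [momNm, Finset.prod_range_succ, Finset.range_zero, Finset.prod_empty]
  push_cast
  field_simp
  ring

theorem momN_v23mm (hn : 5 ≤ n) : (2 * n + 3 : ℝ) * mono n 2 3 (-2)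
    = 15 * (n + 2) / ((n - 2) * (n - 4) * (2 * n + 5)) := by
  obtain ⟨h0, h2, h4⟩ := momN_ne hn
  rw [momN_m2 hn]
  simp only [momNm, Finset.prod_range_succ, Finset.range_zero, Finset.prod_empty]
  push_cast
  field_simp
  ring

theorem momN_v14mm (hn : 5 ≤ n) : (2 * n + 3 : ℝ) * mono n 1 4 (-2)
    = 105 / ((n - 2) * (n - 4) * (2 * n + 5)) := by
  obtain ⟨h0, h2, h4⟩ := momN_ne hn
  rw [momN_m2 hn]
  simp only [momNm, Finset.prod_range_succ, Finset.range_zero, Finset.prod_empty]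
  push_cast
  field_simp
  ring

theorem momN_pos (hn : 5 ≤ n) : (0 : ℝ) < n ∧ (0 : ℝ) < n - 2 ∧ (0 : ℝ) < n - 4 ∧
    (0 : ℝ) ≤ n - 5 ∧ (0 : ℝ) ≤ (n - 5) ^ 2 ∧ (0 : ℝ) ≤ (n - 5) ^ 3 := by
  have h : (0 : ℝ) ≤ n - 5 := by
    have : (5 : ℝ) ≤ n := by exact_mod_cast hn
    linarith
  exact ⟨by linarith, by linarith, by linarith, h, pow_nonneg h 2, pow_nonneg h 3⟩

theorem momN_a300 (hn : 5 ≤ n) : ((n + 2) / 2 : ℝ) ≤ (2 * n + 3 : ℝ) * mono n 3 0 0 := by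
  obtain ⟨h0, h2, h4, t1, t2, t3⟩ := momN_pos hn
  rw [momN_v300 hn, le_div_iff₀ (by positivity)]
  linarith

theorem momN_b300 (hn : 5 ≤ n) : (2 * n + 3 : ℝ) * mono n 3 0 0 ≤ (n + 2) * (3 / 5) := by
  obtain ⟨h0, h2, h4, t1, t2, t3⟩ := momN_pos hn
  rw [momN_v300 hn, div_le_iff₀ (by positivity)]
  linarith

theorem momN_c300 (hn : 5 ≤ n) : (2 * n + 3 : ℝ) * mono n 3 0 0 ≤ n * (21 / 25) := by
  obtain ⟨h0, h2, h4, t1, t2, t3⟩ := momN_pos hn
  rw [momN_v300 hn, div_le_iff₀ (by positivity)]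
  linarith

theorem momN_a210 (hn : 5 ≤ n) : (7 / 15 : ℝ) ≤ (2 * n + 3 : ℝ) * mono n 2 1 0 := by
  obtain ⟨h0, h2, h4, t1, t2, t3⟩ := momN_pos hn
  rw [momN_v210 hn, le_div_iff₀ (by positivity)]
  linarith

theorem momN_b210 (hn : 5 ≤ n) : (2 * n + 3 : ℝ) * mono n 2 1 0 ≤ 1 / 2 := by
  obtain ⟨h0, h2, h4, t1, t2, t3⟩ := momN_pos hn
  rw [momN_v210 hn, div_le_iff₀ (by positivity)]
  linarith

theorem momN_c210 (hn : 5 ≤ n) : (2 * n + 3 : ℝ) * mono n 2 1 0 ≤ (n + 2) / 15 := by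
  obtain ⟨h0, h2, h4, t1, t2, t3⟩ := momN_pos hn
  rw [momN_v210 hn, div_le_iff₀ (by positivity)]
  linarith

theorem momN_d210 (hn : 5 ≤ n) : (2 * n + 3 : ℝ) * mono n 2 1 0 ≤ n * (7 / 75) := by
  obtain ⟨h0, h2, h4, t1, t2, t3⟩ := momN_pos hn
  rw [momN_v210 hn, div_le_iff₀ (by positivity)]
  linarith

theorem momN_a120 (hn : 5 ≤ n) : (0 : ℝ) ≤ (2 * n + 3 : ℝ) * mono n 1 2 0 := by
  obtain ⟨h0, h2, h4, t1, t2, t3⟩ := momN_pos hn
  rw [momN_v120 hn, le_div_iff₀ (by positivity)]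
  linarith

theorem momN_b120 (hn : 5 ≤ n) : (2 * n + 3 : ℝ) * mono n 1 2 0 ≤ 1 / 5 := by
  obtain ⟨h0, h2, h4, t1, t2, t3⟩ := momN_pos hn
  rw [momN_v120 hn, div_le_iff₀ (by positivity)]
  linarith

theorem momN_b030 (hn : 5 ≤ n) : (2 * n + 3 : ℝ) * mono n 0 3 0 ≤ 1 / 5 := by
  obtain ⟨h0, h2, h4, t1, t2, t3⟩ := momN_pos hn
  rw [momN_v030 hn, div_le_iff₀ (by positivity)]
  linarith

theorem momN_b020 (hn : 5 ≤ n) : (2 * n + 3 : ℝ) * mono n 0 2 0 ≤ 3 / 5 := by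
  obtain ⟨h0, h2, h4, t1, t2, t3⟩ := momN_pos hn
  rw [momN_v020 hn, div_le_iff₀ (by positivity)]
  linarith

theorem momN_b111 (hn : 5 ≤ n) : (2 * n + 3 : ℝ) * mono n 1 1 1 ≤ 1 / 2 := by
  obtain ⟨h0, h2, h4, t1, t2, t3⟩ := momN_pos hn
  rw [momN_v111 hn, div_le_iff₀ (by positivity)]
  linarith

theorem momN_c111 (hn : 5 ≤ n) : (2 * n + 3 : ℝ) * mono n 1 1 1 ≤ n / 15 := by
  obtain ⟨h0, h2, h4, t1, t2, t3⟩ := momN_pos hn
  rw [momN_v111 hn, div_le_iff₀ (by positivity)]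
  linarith

theorem momN_b40m (hn : 5 ≤ n) : (2 * n + 3 : ℝ) * mono n 4 0 (-1) ≤ (n + 2) * (11 / 5) := by
  obtain ⟨h0, h2, h4, t1, t2, t3⟩ := momN_pos hn
  rw [momN_v40m hn, div_le_iff₀ (by positivity)]
  linarith

theorem momN_b31m (hn : 5 ≤ n) : (2 * n + 3 : ℝ) * mono n 3 1 (-1) ≤ (n + 2) / 5 := by
  obtain ⟨h0, h2, h4, t1, t2, t3⟩ := momN_pos hn
  rw [momN_v31m hn, div_le_iff₀ (by positivity)]
  linarith

theorem momN_c31m (hn : 5 ≤ n) : (2 * n + 3 : ℝ) * mono n 3 1 (-1) ≤ 7 / 5 := by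
  obtain ⟨h0, h2, h4, t1, t2, t3⟩ := momN_pos hn
  rw [momN_v31m hn, div_le_iff₀ (by positivity)]
  linarith

theorem momN_b22m (hn : 5 ≤ n) : (2 * n + 3 : ℝ) * mono n 2 2 (-1) ≤ 7 / 15 := by
  obtain ⟨h0, h2, h4, t1, t2, t3⟩ := momN_pos hn
  rw [momN_v22m hn, div_le_iff₀ (by positivity)]
  linarith

theorem momN_b13m (hn : 5 ≤ n) : (2 * n + 3 : ℝ) * mono n 1 3 (-1) ≤ 1 / 3 := by
  obtain ⟨h0, h2, h4, t1, t2, t3⟩ := momN_pos hn
  rw [momN_v13m hn, div_le_iff₀ (by positivity)]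
  linarith

theorem momN_b04m (hn : 5 ≤ n) : (2 * n + 3 : ℝ) * mono n 0 4 (-1) ≤ 7 / 15 := by
  obtain ⟨h0, h2, h4, t1, t2, t3⟩ := momN_pos hn
  rw [momN_v04m hn, div_le_iff₀ (by positivity)]
  linarith

theorem momN_b310 (hn : 5 ≤ n) : (2 * n + 3 : ℝ) * mono n 3 1 0 ≤ 1 / 4 := by
  obtain ⟨h0, h2, h4, t1, t2, t3⟩ := momN_pos hn
  rw [momN_v310 hn, div_le_iff₀ (by positivity)]
  linarith

theorem momN_b220 (hn : 5 ≤ n) : (2 * n + 3 : ℝ) * mono n 2 2 0 ≤ 7 / 85 := by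
  obtain ⟨h0, h2, h4, t1, t2, t3⟩ := momN_pos hn
  rw [momN_v220 hn, div_le_iff₀ (by positivity)]
  linarith

theorem momN_b130 (hn : 5 ≤ n) : (2 * n + 3 : ℝ) * mono n 1 3 0 ≤ 1 / 17 := by
  obtain ⟨h0, h2, h4, t1, t2, t3⟩ := momN_pos hn
  rw [momN_v130 hn, div_le_iff₀ (by positivity)]
  linarith

theorem momN_b41m (hn : 5 ≤ n) : (2 * n + 3 : ℝ) * mono n 4 1 (-1) ≤ 77 / 85 := by
  obtain ⟨h0, h2, h4, t1, t2, t3⟩ := momN_pos hn
  rw [momN_v41m hn, div_le_iff₀ (by positivity)]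
  linarith

theorem momN_b32m (hn : 5 ≤ n) : (2 * n + 3 : ℝ) * mono n 3 2 (-1) ≤ 21 / 85 := by
  obtain ⟨h0, h2, h4, t1, t2, t3⟩ := momN_pos hn
  rw [momN_v32m hn, div_le_iff₀ (by positivity)]
  linarith

theorem momN_b23m (hn : 5 ≤ n) : (2 * n + 3 : ℝ) * mono n 2 3 (-1) ≤ 7 / 51 := by
  obtain ⟨h0, h2, h4, t1, t2, t3⟩ := momN_pos hn
  rw [momN_v23m hn, div_le_iff₀ (by positivity)]
  linarith

theorem momN_b14m (hn : 5 ≤ n) : (2 * n + 3 : ℝ) * mono n 1 4 (-1) ≤ 7 / 51 := by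
  obtain ⟨h0, h2, h4, t1, t2, t3⟩ := momN_pos hn
  rw [momN_v14m hn, div_le_iff₀ (by positivity)]
  linarith

theorem momN_b41mm (hn : 5 ≤ n) : (2 * n + 3 : ℝ) * mono n 4 1 (-2) ≤ 77 / 5 := by
  obtain ⟨h0, h2, h4, t1, t2, t3⟩ := momN_pos hn
  rw [momN_v41mm hn, div_le_iff₀ (by positivity)]
  linarith

theorem momN_b32mm (hn : 5 ≤ n) : (2 * n + 3 : ℝ) * mono n 3 2 (-2) ≤ 21 / 5 := by
  obtain ⟨h0, h2, h4, t1, t2, t3⟩ := momN_pos hn
  rw [momN_v32mm hn, div_le_iff₀ (by positivity)]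
  linarith

theorem momN_b23mm (hn : 5 ≤ n) : (2 * n + 3 : ℝ) * mono n 2 3 (-2) ≤ 7 / 3 := by
  obtain ⟨h0, h2, h4, t1, t2, t3⟩ := momN_pos hn
  rw [momN_v23mm hn, div_le_iff₀ (by positivity)]
  linarith

theorem momN_b14mm (hn : 5 ≤ n) : (2 * n + 3 : ℝ) * mono n 1 4 (-2) ≤ 7 / 3 := by
  obtain ⟨h0, h2, h4, t1, t2, t3⟩ := momN_pos hn
  rw [momN_v14mm hn, div_le_iff₀ (by positivity)]
  linarith

/-- The even monomials. -/
noncomputable def momNf (i j k : ℕ) (p : ℝ × ℝ) : ℝ := (p.1 ^ 2) ^ i * (p.2 ^ 2) ^ j * lm p ^ k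

theorem momN_cont (i j k : ℕ) : Continuous (momNf i j k) := by
  have := mu_cont_lm
  unfold momNf
  fun_prop

theorem momN_nonneg (i j k : ℕ) {p : ℝ × ℝ} (hp : 0 < lm p) : 0 ≤ momNf i j k p := by
  unfold momNf
  positivity

theorem momN_lt {a b : ℝ} (hab : a ^ 2 + b ^ 2 ≤ 1) {p : ℝ × ℝ} (hp : 0 < lm p) :
    (a * p.1 + b * p.2) ^ 2 < 1 := by
  have := lin_sq_le hab p
  linarith

theorem momN_intE (hn : 1 ≤ n) (a b : ℝ) (i j r : ℕ) {k : ℤ} (hk : 0 < (n : ℤ) + 2 * k) :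
    Integrable (fun p : ℝ × ℝ => (p.1 ^ 2) ^ i * (p.2 ^ 2) ^ j * lm p ^ k
      * ((a * p.1 + b * p.2) ^ 2) ^ r) (mu n) := by
  have h := integrable_cont_lm hn hk
    (g := fun p => (p.1 ^ 2) ^ i * (p.2 ^ 2) ^ j * ((a * p.1 + b * p.2) ^ 2) ^ r) (by fun_prop)
  refine h.congr (Filter.Eventually.of_forall fun p => ?_)
  dsimp only
  ring

theorem momN_intO (hn : 1 ≤ n) (a b : ℝ) (r : ℕ) {k : ℤ} (hk : 0 < (n : ℤ) + 2 * k) :
    Integrable (fun p : ℝ × ℝ => p.1 * p.2 * ((p.1 ^ 2) ^ 0 * (p.2 ^ 2) ^ 0 * lm p ^ k)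
      * ((a * p.1 + b * p.2) ^ 2) ^ r) (mu n) := by
  have h := integrable_cont_lm hn hk
    (g := fun p => p.1 * p.2 * ((a * p.1 + b * p.2) ^ 2) ^ r) (by fun_prop)
  refine h.congr (Filter.Eventually.of_forall fun p => ?_)
  dsimp only
  ring

theorem momN_lin (hn : 1 ≤ n) (a b c : ℝ) (i j k : ℕ) :
    ∫ p, momNf i j k p * (1 + c * (a * p.1 + b * p.2) ^ 2) ∂mu n
      = mono n i j k + c * (a ^ 2 * mono n (i + 1) j k + b ^ 2 * mono n i (j + 1) k) := by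
  have hk : 0 < (n : ℤ) + 2 * (k : ℤ) := by omega
  have e0 := int_even hn a b i j 0 hk
  have e1 := int_even hn a b i j 1 hk
  have i0 := momN_intE hn a b i j 0 hk
  have i1 := (momN_intE hn a b i j 1 hk).const_mul c
  have e : ∫ p, momNf i j k p * (1 + c * (a * p.1 + b * p.2) ^ 2) ∂mu n
      = ∫ p, ((p.1 ^ 2) ^ i * (p.2 ^ 2) ^ j * lm p ^ (k : ℤ) * ((a * p.1 + b * p.2) ^ 2) ^ 0
        + c * ((p.1 ^ 2) ^ i * (p.2 ^ 2) ^ j * lm p ^ (k : ℤ)
          * ((a * p.1 + b * p.2) ^ 2) ^ 1)) ∂mu n := by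
    refine integral_congr_ae (Filter.Eventually.of_forall fun p => ?_)
    simp only [momNf, zpow_natCast]
    ring
  rw [e, integral_add i0 i1, integral_const_mul, e0, e1]
  simp only [Finset.sum_range_succ, Finset.range_zero, Finset.sum_empty]
  norm_num [Nat.choose]

theorem momN_lo (hn : 5 ≤ n) {a b : ℝ} (hab : a ^ 2 + b ^ 2 ≤ 1) (i j k : ℕ) :
    mono n i j k + 1 / 2 * (a ^ 2 * mono n (i + 1) j k + b ^ 2 * mono n i (j + 1) k)
      ≤ ∫ p, momNf i j k p * wt a b p ∂mu n := by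
  have hc := momN_cont i j k
  rw [← momN_lin (by omega)]
  refine integral_mono_ae (integrable_cont (by omega) (by fun_prop))
    (integrable_cont_wt (by omega) hab hc) ?_
  filter_upwards [mu_ae (n := n) (by omega)] with p hp
  refine mul_le_mul_of_nonneg_left ?_ (momN_nonneg i j k hp)
  have := ww_lo (sq_nonneg _) (momN_lt hab hp)
  have := sq_nonneg ((a * p.1 + b * p.2) ^ 2)
  rw [wt_eq]
  linarith

theorem momN_hi (hn : 5 ≤ n) {a b : ℝ} (hab : a ^ 2 + b ^ 2 ≤ 1) (i j k : ℕ) {l : ℤ}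
    (hl : l + 1 = k) :
    ∫ p, momNf i j k p * wt a b p ∂mu n
      ≤ mono n i j k + 1 / 2 * (a ^ 2 * mono n (i + 1) j k + b ^ 2 * mono n i (j + 1) k)
        + 3 / 8 * ((a ^ 2) ^ 2 * mono n (i + 2) j l + 6 * a ^ 2 * b ^ 2 * mono n (i + 1) (j + 1) l
          + (b ^ 2) ^ 2 * mono n i (j + 2) l) := by
  have hc := momN_cont i j k
  have hk : 0 < (n : ℤ) + 2 * l := by omega
  have e2 := int_even (n := n) (by omega) a b i j 2 hk
  have i2 := (momN_intE (n := n) (by omega) a b i j 2 hk).const_mul (3 / 8)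
  have i1 : Integrable (fun p : ℝ × ℝ => momNf i j k p * (1 + 1 / 2 * (a * p.1 + b * p.2) ^ 2))
      (mu n) := integrable_cont (by omega) (by fun_prop)
  have e3 : (a ^ 2) ^ 2 * mono n (i + 2) j l + 6 * a ^ 2 * b ^ 2 * mono n (i + 1) (j + 1) l
      + (b ^ 2) ^ 2 * mono n i (j + 2) l = ∫ p, (p.1 ^ 2) ^ i * (p.2 ^ 2) ^ j * lm p ^ l
        * ((a * p.1 + b * p.2) ^ 2) ^ 2 ∂mu n := by
    rw [e2]
    simp only [Finset.sum_range_succ, Finset.range_zero, Finset.sum_empty]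
    norm_num [Nat.choose]
  rw [← momN_lin (by omega), e3, ← integral_const_mul, ← integral_add i1 i2]
  refine integral_mono_ae (integrable_cont_wt (by omega) hab hc) (i1.add i2) ?_
  filter_upwards [mu_ae (n := n) (by omega)] with p hp
  have h1 := mul_le_mul_of_nonneg_left (ww_hi (sq_nonneg _) hp (lin_sq_le hab p))
    (momN_nonneg i j k hp)
  have h2 : lm p ^ l = lm p ^ k * (lm p)⁻¹ := by
    rw [← zpow_natCast, ← hl, zpow_add_one₀ hp.ne', mul_inv_cancel_right₀ hp.ne']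
  rw [wt_eq, h2]
  simp only [momNf] at h1 ⊢
  linarith

theorem momN_odd_lo (hn : 5 ≤ n) {a b : ℝ} (ha : 0 ≤ a) (hb : 0 ≤ b) (hab : a ^ 2 + b ^ 2 ≤ 1)
    (i j k : ℕ) : 0 ≤ ∫ p, p.1 * p.2 * momNf i j k p * wt a b p ∂mu n := by
  have hc := momN_cont i j k
  exact corr_nonneg (n := n) (by omega) ha hb hab (h := momNf i j k) (G := fun _ x => ww x)
    (fun p hp => momN_nonneg i j k hp) (fun p => by simp only [momNf, lm, neg_sq])
    (fun l hl _ => ww_mono.mono fun _ hx => ⟨hx.1, by linarith [hx.2]⟩)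
    (integrable_cont_wt (g := fun p => p.1 * p.2 * momNf i j k p) (by omega) hab (by fun_prop))

theorem momN_six {f1 f2 f3 f4 f5 g : ℝ × ℝ → ℝ} {μ : Measure (ℝ × ℝ)} (i1 : Integrable f1 μ)
    (i2 : Integrable f2 μ) (i3 : Integrable f3 μ) (i4 : Integrable f4 μ) (i5 : Integrable f5 μ)
    (i0 : Integrable g μ) :
    ∫ p, (f1 p + f2 p + f3 p + f4 p + f5 p - g p) ∂μ = ∫ p, f1 p ∂μ + ∫ p, f2 p ∂μ + ∫ p, f3 p ∂μ
      + ∫ p, f4 p ∂μ + ∫ p, f5 p ∂μ - ∫ p, g p ∂μ := by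
  have i12 : Integrable (fun p => f1 p + f2 p) μ := i1.add i2
  have i13 : Integrable (fun p => f1 p + f2 p + f3 p) μ := i12.add i3
  have i14 : Integrable (fun p => f1 p + f2 p + f3 p + f4 p) μ := i13.add i4
  have i15 : Integrable (fun p => f1 p + f2 p + f3 p + f4 p + f5 p) μ := i14.add i5
  rw [integral_sub i15 i0, integral_add i14 i5, integral_add i13 i4, integral_add i12 i3,
    integral_add i1 i2]

theorem momN_odd_hi (hn : 5 ≤ n) {a b : ℝ} (ha : 0 ≤ a) (hb : 0 ≤ b) (hab : a ^ 2 + b ^ 2 ≤ 1) :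
    ∫ p, p.1 * p.2 * wt a b p ∂mu n
      ≤ a * b * (mono n 1 1 0 + 3 / 2 * (a ^ 2 * mono n 2 1 0 + b ^ 2 * mono n 1 2 0)
        + 5 / 16 * (6 * (a ^ 2) ^ 2 * mono n 3 1 0 + 20 * (a ^ 2 * b ^ 2) * mono n 2 2 0
          + 6 * (b ^ 2) ^ 2 * mono n 1 3 0)
        + 35 / 64 * (8 * (a ^ 2) ^ 3 * mono n 4 1 (-1)
          + 56 * ((a ^ 2) ^ 2 * b ^ 2) * mono n 3 2 (-1)
          + 56 * (a ^ 2 * (b ^ 2) ^ 2) * mono n 2 3 (-1) + 8 * (b ^ 2) ^ 3 * mono n 1 4 (-1))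
        + 35 / 1024 * (8 * (a ^ 2) ^ 3 * mono n 4 1 (-2)
          + 56 * ((a ^ 2) ^ 2 * b ^ 2) * mono n 3 2 (-2)
          + 56 * (a ^ 2 * (b ^ 2) ^ 2) * mono n 2 3 (-2) + 8 * (b ^ 2) ^ 3 * mono n 1 4 (-2))) := by
  have h1 : 1 ≤ n := by omega
  have k0 : 0 < (n : ℤ) + 2 * 0 := by omega
  have k1 : 0 < (n : ℤ) + 2 * (-1) := by omega
  have k2 : 0 < (n : ℤ) + 2 * (-2) := by omega
  have i0 : Integrable (fun p : ℝ × ℝ => p.1 * p.2 * wt a b p) (mu n) :=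
    integrable_cont_wt (g := fun p => p.1 * p.2) (by omega) hab (by fun_prop)
  have i1 := (momN_intO h1 a b 1 k0).const_mul (1 / 2)
  have i2 := (momN_intO h1 a b 2 k0).const_mul (3 / 8)
  have i3 := (momN_intO h1 a b 3 k0).const_mul (5 / 16)
  have i4 := (momN_intO h1 a b 4 k1).const_mul (35 / 64)
  have i5 := (momN_intO h1 a b 4 k2).const_mul (35 / 1024)
  have e : (fun p : ℝ × ℝ => p.1 * p.2 * 1 * ((a * p.1 + b * p.2) ^ 2 / 2
      + 3 / 8 * ((a * p.1 + b * p.2) ^ 2) ^ 2 + 5 / 16 * ((a * p.1 + b * p.2) ^ 2) ^ 3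
      + 35 / 128 * ((a * p.1 + b * p.2) ^ 2) ^ 4 * (2 * (lm p)⁻¹ + (lm p)⁻¹ ^ 2 / 8)
      - ww ((a * p.1 + b * p.2) ^ 2)))
      = fun p : ℝ × ℝ =>
        1 / 2 * (p.1 * p.2 * ((p.1 ^ 2) ^ 0 * (p.2 ^ 2) ^ 0 * lm p ^ (0 : ℤ))
          * ((a * p.1 + b * p.2) ^ 2) ^ 1)
        + 3 / 8 * (p.1 * p.2 * ((p.1 ^ 2) ^ 0 * (p.2 ^ 2) ^ 0 * lm p ^ (0 : ℤ))
          * ((a * p.1 + b * p.2) ^ 2) ^ 2)
        + 5 / 16 * (p.1 * p.2 * ((p.1 ^ 2) ^ 0 * (p.2 ^ 2) ^ 0 * lm p ^ (0 : ℤ))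
          * ((a * p.1 + b * p.2) ^ 2) ^ 3)
        + 35 / 64 * (p.1 * p.2 * ((p.1 ^ 2) ^ 0 * (p.2 ^ 2) ^ 0 * lm p ^ (-1 : ℤ))
          * ((a * p.1 + b * p.2) ^ 2) ^ 4)
        + 35 / 1024 * (p.1 * p.2 * ((p.1 ^ 2) ^ 0 * (p.2 ^ 2) ^ 0 * lm p ^ (-2 : ℤ))
          * ((a * p.1 + b * p.2) ^ 2) ^ 4)
        - p.1 * p.2 * wt a b p := by
    funext p
    rw [wt_eq, zpow_zero, zpow_neg_one, zpow_neg, zpow_two, mul_inv]
    ring
  have h := corr_nonneg h1 ha hb hab (h := fun _ => 1)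
    (G := fun l x => x / 2 + 3 / 8 * x ^ 2 + 5 / 16 * x ^ 3
      + 35 / 128 * x ^ 4 * (2 * l⁻¹ + l⁻¹ ^ 2 / 8) - ww x)
    (fun _ _ => zero_le_one) (fun _ => rfl) (fun l hl hl1 => ww_hi_mono hl hl1)
    (by rw [e]; exact ((((i1.add i2).add i3).add i4).add i5).sub i0)
  rw [e, momN_six i1 i2 i3 i4 i5 i0] at h
  simp only [integral_const_mul] at h
  rw [int_odd h1 a b 0 0 1 k0, int_odd h1 a b 0 0 2 k0, int_odd h1 a b 0 0 3 k0,
    int_odd h1 a b 0 0 4 k1, int_odd h1 a b 0 0 4 k2] at h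
  simp only [Finset.sum_range_succ, Finset.range_zero, Finset.sum_empty] at h
  norm_num [Nat.choose] at h
  linarith

theorem momN_forms (hn : 5 ≤ n) (a b : ℝ) :
    (nmo n a b).Wr = ∫ p, momNf 2 0 0 p * wt a b p ∂mu n ∧
    (nmo n a b).Be = ∫ p, momNf 1 1 0 p * wt a b p ∂mu n ∧
    n * (nmo n a b).Bl = ∫ p, momNf 1 0 1 p * wt a b p ∂mu n ∧
    n * (nmo n a b).mup = ∫ p, momNf 0 0 2 p * wt a b p ∂mu n ∧
    n * (nmo n a b).m22 = ∫ p, momNf 0 1 1 p * wt a b p ∂mu n ∧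
    (nmo n a b).m40 = ∫ p, momNf 0 2 0 p * wt a b p ∂mu n ∧
    (nmo n a b).e1 = ∫ p, p.1 * p.2 * momNf 1 0 0 p * wt a b p ∂mu n ∧
    (nmo n a b).e2 = ∫ p, p.1 * p.2 * momNf 0 0 1 p * wt a b p ∂mu n := by
  obtain ⟨h1, h2, h3, h4, h5, h6, h7, h8⟩ := nmo_mu (n := n) (by omega) a b
  have h0 := (momN_ne hn).1
  rw [h1, h2, h3, h4, h5, h6, h7, h8, mul_div_cancel₀ _ h0, mul_div_cancel₀ _ h0,
    mul_div_cancel₀ _ h0]
  refine ⟨?_, ?_, ?_, ?_, ?_, ?_, ?_, ?_⟩ <;>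
  · refine integral_congr_ae (Filter.Eventually.of_forall fun p => ?_)
    simp only [momNf]
    ring

theorem momN_sum (hn : 5 ≤ n) {a b : ℝ} (ha : 0 ≤ a) (hb : 0 ≤ b) (hab : a ^ 2 + b ^ 2 ≤ 1) :
    (nmo n a b).e1 + (nmo n a b).e2 ≤ ∫ p, p.1 * p.2 * wt a b p ∂mu n := by
  obtain ⟨-, -, -, -, -, -, f1, f2⟩ := momN_forms hn a b
  have h3 := momN_odd_lo hn ha hb hab 0 1 0
  have hi : ∀ i j k : ℕ,
      Integrable (fun p : ℝ × ℝ => p.1 * p.2 * momNf i j k p * wt a b p) (mu n) := fun i j k => by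
    have hc := momN_cont i j k
    exact integrable_cont_wt (g := fun p => p.1 * p.2 * momNf i j k p) (by omega) hab (by fun_prop)
  have i12 : Integrable (fun p : ℝ × ℝ => p.1 * p.2 * momNf 1 0 0 p * wt a b p
      + p.1 * p.2 * momNf 0 0 1 p * wt a b p) (mu n) := (hi 1 0 0).add (hi 0 0 1)
  have e : ∫ p, p.1 * p.2 * wt a b p ∂mu n = ∫ p, (p.1 * p.2 * momNf 1 0 0 p * wt a b p
      + p.1 * p.2 * momNf 0 0 1 p * wt a b p + p.1 * p.2 * momNf 0 1 0 p * wt a b p) ∂mu n := by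
    refine integral_congr_ae (Filter.Eventually.of_forall fun p => ?_)
    simp only [momNf, lm]
    ring
  rw [e, integral_add i12 (hi 0 1 0), integral_add (hi 1 0 0) (hi 0 0 1), f1, f2]
  linarith

theorem momN_phi (hn : 5 ≤ n) {a b : ℝ} (hab : a ^ 2 + b ^ 2 ≤ 1) :
    1 - (7 * a ^ 2 + b ^ 2) / 13 ≤ nphi n a b ∧ nphi n a b ≤ 1 := by
  refine ⟨?_, (div_le_one (U0_pos n)).2 (phi_le_U0 n a b)⟩
  obtain ⟨h0, -, -, t1, -, -⟩ := momN_pos hn
  have hc := momN_cont 1 0 0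
  have e : nphi n a b
      = ∫ p, momNf 1 0 0 p * Real.sqrt (1 - (a * p.1 + b * p.2) ^ 2) ∂mu n := by
    rw [nphi_mu (by omega)]
    simp only [momNf, pow_zero, pow_one, mul_one]
  have h1 := momN_lin (n := n) (by omega) a b (-1) 1 0 0
  have h2 : ∫ p, momNf 1 0 0 p * (1 + -1 * (a * p.1 + b * p.2) ^ 2) ∂mu n ≤ nphi n a b := by
    rw [e]
    refine integral_mono_ae (integrable_cont (by omega) (by fun_prop))
      (integrable_cont (by omega) (by fun_prop)) ?_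
    filter_upwards [mu_ae (n := n) (by omega)] with p hp
    refine mul_le_mul_of_nonneg_left ?_ (momN_nonneg 1 0 0 hp)
    have u0 := sq_nonneg (a * p.1 + b * p.2)
    have u1 := momN_lt hab hp
    refine Real.le_sqrt_of_sq_le ?_
    have := mul_nonneg u0 (sub_nonneg.2 u1.le)
    linarith
  have v1 : mono n 2 0 0 ≤ 7 / 13 := by
    refine le_of_mul_le_mul_left ?_ (by positivity : (0 : ℝ) < 2 * n + 3)
    rw [momN_v200 hn]
    linarith
  have v2 : mono n 1 1 0 ≤ 1 / 13 := by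
    refine le_of_mul_le_mul_left ?_ (by positivity : (0 : ℝ) < 2 * n + 3)
    rw [momN_v110 hn]
    linarith
  have w1 := mul_le_mul_of_nonneg_left v1 (sq_nonneg a)
  have w2 := mul_le_mul_of_nonneg_left v2 (sq_nonneg b)
  simp only [Nat.cast_zero, zero_add, Nat.reduceAdd, mono_one (n := n) (by omega)] at h1
  linarith

theorem momN_c1 (hn : 5 ≤ n) :
    (2 * n + 3 : ℝ) * mono n 2 0 1 + (2 * n + 3 : ℝ) * mono n 2 1 0 ≤ n * (14 / 25) := by
  obtain ⟨h0, h2, h4, t1, t2, t3⟩ := momN_pos hn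
  rw [momN_v201 hn, momN_v210 hn, ← add_div, div_le_iff₀ (by positivity)]
  linarith

theorem momN_c2 (hn : 5 ≤ n) :
    (2 * n + 3 : ℝ) * mono n 1 0 2 + (2 * n + 3 : ℝ) * mono n 1 1 1 ≤ n * (8 / 15) := by
  obtain ⟨h0, h2, h4, t1, t2, t3⟩ := momN_pos hn
  rw [momN_v102 hn, momN_v111 hn, ← add_div, div_le_iff₀ (by positivity)]
  linarith

theorem momN_c3 (hn : 5 ≤ n) :
    (2 * n + 3 : ℝ) * mono n 0 1 2 + (2 * n + 3 : ℝ) * mono n 0 2 1 ≤ n * (7 / 50) := by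
  obtain ⟨h0, h2, h4, t1, t2, t3⟩ := momN_pos hn
  rw [momN_v012 hn, momN_v021 hn, ← add_div, div_le_iff₀ (by positivity)]
  linarith

theorem momN_eb (hn : 5 ≤ n) {a b : ℝ} (ha : 0 ≤ a) (hb : 0 ≤ b) (hab : a ^ 2 + b ^ 2 ≤ 1) :
    (2 * n + 3 : ℝ) * ((nmo n a b).e1 + (nmo n a b).e2) ≤ a * b * TN.eb (a ^ 2) (b ^ 2) := by
  have hD : (0 : ℝ) ≤ 2 * n + 3 := by positivity
  have h := mul_le_mul_of_nonneg_left ((momN_sum hn ha hb hab).trans (momN_odd_hi hn ha hb hab)) hD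
  refine h.trans ?_
  rw [mul_left_comm]
  refine mul_le_mul_of_nonneg_left ?_ (mul_nonneg ha hb)
  have hP := sq_nonneg a
  have hs := sq_nonneg b
  generalize a ^ 2 = P at hP ⊢
  generalize b ^ 2 = s at hs ⊢
  have q1 : 0 ≤ P ^ 2 := by positivity
  have q2 : 0 ≤ P * s := by positivity
  have q3 : 0 ≤ s ^ 2 := by positivity
  have c1 : 0 ≤ P ^ 3 := by positivity
  have c2 : 0 ≤ P ^ 2 * s := by positivity
  have c3 : 0 ≤ P * s ^ 2 := by positivity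
  have c4 : 0 ≤ s ^ 3 := by positivity
  have g0 := momN_v110 hn
  have g1 := mul_le_mul_of_nonneg_left (momN_b210 hn) hP
  have g2 := mul_le_mul_of_nonneg_left (momN_b120 hn) hs
  have g3 := mul_le_mul_of_nonneg_left (momN_b310 hn) q1
  have g4 := mul_le_mul_of_nonneg_left (momN_b220 hn) q2
  have g5 := mul_le_mul_of_nonneg_left (momN_b130 hn) q3
  have g6 := mul_le_mul_of_nonneg_left (momN_b41m hn) c1
  have g7 := mul_le_mul_of_nonneg_left (momN_b32m hn) c2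
  have g8 := mul_le_mul_of_nonneg_left (momN_b23m hn) c3
  have g9 := mul_le_mul_of_nonneg_left (momN_b14m hn) c4
  have g10 := mul_le_mul_of_nonneg_left (momN_b41mm hn) c1
  have g11 := mul_le_mul_of_nonneg_left (momN_b32mm hn) c2
  have g12 := mul_le_mul_of_nonneg_left (momN_b23mm hn) c3
  have g13 := mul_le_mul_of_nonneg_left (momN_b14mm hn) c4
  rw [TN.eb]
  linarith only [q1, q2, q3, c1, c2, c3, c4, g0, g1, g2, g3, g4, g5, g6, g7, g8, g9, g10, g11, g12,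
    g13]

theorem momN_exists {c D e1 e2 H : ℝ} (hc : 0 ≤ c) (hD : 0 < D) (hH : 0 ≤ H) (h1 : 0 ≤ e1)
    (h2 : 0 ≤ e2) (h : D * (e1 + e2) ≤ c * H) :
    ∃ t1 t2 : ℝ, e1 = c * t1 ∧ e2 = c * t2 ∧ 0 ≤ t1 ∧ 0 ≤ t2 ∧ D * (t1 + t2) ≤ H := by
  rcases eq_or_lt_of_le hc with h0 | h0
  · subst h0
    rw [zero_mul] at h
    have : e1 + e2 ≤ 0 := le_of_mul_le_mul_left (by rw [mul_zero]; exact h) hD
    exact ⟨0, 0, by linarith, by linarith, le_rfl, le_rfl, by linarith⟩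
  · refine ⟨e1 / c, e2 / c, by field_simp, by field_simp, by positivity, by positivity, ?_⟩
    rw [← add_div, ← mul_div_assoc, div_le_iff₀ h0]
    linarith

theorem boxN (hn : 5 ≤ n) {a b : ℝ} (ha : 0 ≤ a) (hb : 0 ≤ b) (hab : a ^ 2 + b ^ 2 ≤ 1) :
    ∃ t1 t2 : ℝ, (nmo n a b).e1 = a * b * t1 ∧ (nmo n a b).e2 = a * b * t2 ∧
      TN.Box n (a ^ 2) (b ^ 2) (nmo n a b) t1 t2 (nphi n a b) := by
  obtain ⟨h0, -, -, t1, -, -⟩ := momN_pos hn
  have hD : (0 : ℝ) < 2 * n + 3 := by positivity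
  have hph := momN_phi hn hab
  obtain ⟨fWr, fBe, fBl, fmup, fm22, fm40, fe1, fe2⟩ := momN_forms hn a b
  have n1 : 0 ≤ (nmo n a b).e1 := fe1 ▸ momN_odd_lo hn ha hb hab 1 0 0
  have n2 : 0 ≤ (nmo n a b).e2 := fe2 ▸ momN_odd_lo hn ha hb hab 0 0 1
  obtain ⟨s1, s2, k1, k2, k3, k4, k5⟩ := momN_exists (mul_nonneg ha hb) hD
    (by unfold TN.eb; positivity) n1 n2 (momN_eb hn ha hb hab)
  have n22 : 0 ≤ (nmo n a b).m22 := by
    refine le_of_mul_le_mul_left ?_ h0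
    rw [mul_zero, fm22]
    refine integral_nonneg_of_ae ?_
    filter_upwards [mu_ae (n := n) (by omega)] with p hp
    exact mul_nonneg (momN_nonneg 0 1 1 hp) (inv_nonneg.2 (Real.sqrt_nonneg _))
  have lWr := mul_le_mul_of_nonneg_left (momN_lo hn hab 2 0 0) hD.le
  have lBe := mul_le_mul_of_nonneg_left (momN_lo hn hab 1 1 0) hD.le
  have lBl := mul_le_mul_of_nonneg_left (momN_lo hn hab 1 0 1) hD.le
  have uWr := mul_le_mul_of_nonneg_left (momN_hi hn hab 2 0 0 (l := -1) (by norm_num)) hD.le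
  have uBe := mul_le_mul_of_nonneg_left (momN_hi hn hab 1 1 0 (l := -1) (by norm_num)) hD.le
  have uBl := mul_le_mul_of_nonneg_left (momN_hi hn hab 1 0 1 (l := 0) (by norm_num)) hD.le
  have umu := mul_le_mul_of_nonneg_left (momN_hi hn hab 0 0 2 (l := 1) (by norm_num)) hD.le
  have u22 := mul_le_mul_of_nonneg_left (momN_hi hn hab 0 1 1 (l := 0) (by norm_num)) hD.le
  have u40 := mul_le_mul_of_nonneg_left (momN_hi hn hab 0 2 0 (l := -1) (by norm_num)) hD.le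
  rw [← fWr] at lWr uWr
  rw [← fBe] at lBe uBe
  rw [← fBl] at lBl uBl
  rw [← fmup] at umu
  rw [← fm22] at u22
  rw [← fm40] at u40
  simp only [Nat.cast_zero, Nat.cast_one, Nat.cast_ofNat, zero_add, Nat.reduceAdd]
    at lWr lBe lBl uWr uBe uBl umu u22 u40
  have hP := sq_nonneg a
  have hs := sq_nonneg b
  generalize a ^ 2 = P at *
  generalize b ^ 2 = s at *
  have q1 : 0 ≤ P ^ 2 := by positivity
  have q2 : 0 ≤ P * s := by positivity
  have q3 : 0 ≤ s ^ 2 := by positivity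
  have r201 : (2 * n + 3 : ℝ) * mono n 2 0 1 = n * ((2 * n + 3 : ℝ) * mono n 2 1 0) := by
    rw [momN_v201 hn, momN_v210 hn]
    ring
  have r111 : (2 * n + 3 : ℝ) * mono n 1 1 1 = n * ((2 * n + 3 : ℝ) * mono n 1 2 0 / 3) := by
    rw [momN_v111 hn, momN_v120 hn]
    ring
  have r021 : (2 * n + 3 : ℝ) * mono n 0 2 1 = (2 * n + 3 : ℝ) * mono n 1 2 0 := by
    rw [momN_v021 hn, momN_v120 hn]
  have x0 := mul_le_mul_of_nonneg_left (momN_a210 hn) hP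
  have x1 := mul_le_mul_of_nonneg_left (momN_b210 hn) hP
  have y0 := mul_le_mul_of_nonneg_left (momN_a120 hn) hs
  have y1 := mul_le_mul_of_nonneg_left (momN_b120 hn) hs
  have z120 : (2 * n + 3 : ℝ) * mono n 1 2 0 ≤ n / 25 := by linarith only [momN_b120 hn, t1]
  have lBe' : 1 + (P * ((2 * n + 3 : ℝ) * mono n 2 1 0) + s * ((2 * n + 3 : ℝ) * mono n 1 2 0)) / 2
      ≤ (2 * n + 3) * (nmo n a b).Be := by linarith only [lBe, momN_v110 hn]
  have uBe' : (2 * n + 3) * (nmo n a b).Be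
      ≤ 1 + (P * ((2 * n + 3 : ℝ) * mono n 2 1 0) + s * ((2 * n + 3 : ℝ) * mono n 1 2 0)) / 2
        + (21 / 20 * (P * s) + 21 / 40 * P ^ 2 + 1 / 8 * s ^ 2) := by
    have g1 := mul_le_mul_of_nonneg_left (momN_c31m hn) q1
    have g2 := mul_le_mul_of_nonneg_left (momN_b22m hn) q2
    have g3 := mul_le_mul_of_nonneg_left (momN_b13m hn) q3
    linarith only [uBe, momN_v110 hn, g1, g2, g3]
  have e201 := congrArg (P * ·) r201
  have e111 := congrArg (s * ·) r111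
  have lBl' : 1 + (P * ((2 * n + 3 : ℝ) * mono n 2 1 0)
      + s * ((2 * n + 3 : ℝ) * mono n 1 2 0 / 3)) / 2 ≤ (2 * n + 3) * (nmo n a b).Bl := by
    refine le_of_mul_le_mul_left ?_ h0
    linarith only [lBl, momN_v101 hn, e201, e111]
  have uBl' : (2 * n + 3) * (nmo n a b).Bl ≤ 1 + (P * ((2 * n + 3 : ℝ) * mono n 2 1 0)
      + s * ((2 * n + 3 : ℝ) * mono n 1 2 0 / 3)) / 2
      + (21 / 100 * (P * s) + 63 / 200 * P ^ 2 + 3 / 200 * s ^ 2) := by
    refine le_of_mul_le_mul_left ?_ h0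
    have g1 := mul_le_mul_of_nonneg_left (momN_c300 hn) q1
    have g2 := mul_le_mul_of_nonneg_left (momN_d210 hn) q2
    have g3 := mul_le_mul_of_nonneg_left z120 q3
    linarith only [uBl, momN_v101 hn, e201, e111, g1, g2, g3]
  refine ⟨s1, s2, k1, k2, ?_, ?_, ?_, ?_, ?_, ?_, ?_, ?_, ?_, n22, ?_, ?_, k3, k4, k5, hph.1,
    hph.2⟩
  · have g1 := mul_le_mul_of_nonneg_left (momN_a300 hn) hP
    have g2 := mul_le_mul_of_nonneg_left (momN_a210 hn) hs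
    linarith only [lWr, momN_v200 hn, g1, g2, hs]
  · have g1 := mul_le_mul_of_nonneg_left (momN_b300 hn) hP
    have g2 := mul_le_mul_of_nonneg_left (momN_c210 hn) hs
    have g3 := mul_le_mul_of_nonneg_left (momN_b40m hn) q1
    have g4 := mul_le_mul_of_nonneg_left (momN_b31m hn) q2
    have g5 := mul_le_mul_of_nonneg_left (show (2 * n + 3 : ℝ) * mono n 2 2 (-1) ≤ (n + 2) / 15 by
      linarith only [momN_b22m hn, t1]) q3
    rw [TN.WH]
    linarith only [uWr, momN_v200 hn, g1, g2, g3, g4, g5]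
  · rw [TN.BL]
    linarith only [lBe', x0, y0]
  · rw [TN.BeH]
    linarith only [uBe', x1, y1]
  · rw [TN.BL]
    linarith only [lBl', x0, y0]
  · rw [TN.BlH]
    linarith only [uBl', x1, y1]
  · rw [TN.ep3]
    linarith only [uBe', lBl', y1]
  · rw [TN.ep4]
    linarith only [uBl', lBe', y0]
  · refine le_of_mul_le_mul_left ?_ h0
    have g1 := mul_le_mul_of_nonneg_left (momN_c2 hn) hP
    have g2 := mul_le_mul_of_nonneg_left (momN_c3 hn) hs
    have g3 := mul_le_mul_of_nonneg_left (momN_c1 hn) q1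
    have g4 := mul_le_mul_of_nonneg_left (add_le_add (momN_c111 hn) z120) q2
    have g5 := mul_le_mul_of_nonneg_left (show (2 * n + 3 : ℝ) * mono n 0 2 1
      + (2 * n + 3 : ℝ) * mono n 0 3 0 ≤ n * (2 / 25) by
        linarith only [r021, momN_b120 hn, momN_b030 hn, t1]) q3
    have g6 := mul_nonneg h0.le hP
    rw [TN.muH]
    linarith only [umu, u22, momN_v002 hn, momN_v011 hn, g1, g2, g3, g4, g5, g6, t1]
  · have g1 := mul_le_mul_of_nonneg_left (momN_b111 hn) hP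
    have g2 := congrArg (s * ·) r021
    have g3 := mul_le_mul_of_nonneg_left (momN_b210 hn) q1
    have g4 := mul_le_mul_of_nonneg_left (momN_b120 hn) q2
    have g5 := mul_le_mul_of_nonneg_left (momN_b030 hn) q3
    rw [TN.n22H]
    linarith only [u22, momN_v011 hn, g1, g2, y1, g3, g4, g5, q1]
  · have g1 := mul_le_mul_of_nonneg_left (momN_b120 hn) hP
    have g2 := mul_le_mul_of_nonneg_left (momN_b030 hn) hs
    have g3 := mul_le_mul_of_nonneg_left (momN_b22m hn) q1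
    have g4 := mul_le_mul_of_nonneg_left (momN_b13m hn) q2
    have g5 := mul_le_mul_of_nonneg_left (momN_b04m hn) q3
    rw [TN.m40H]
    linarith only [u40, momN_b020 hn, g1, g2, g3, g4, g5]

end Pool.Agent.Ped
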