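import Pool.Agent.P.MP_e09f5c_gt.MomBase

/-! The angular measure on the unit disc and its monomial integrals. -/

open MeasureTheory Metric Set Matrix
open scoped InnerProductSpace ENNReal

namespace Pool.Agent.Ped

variable {n : ℕ}

/-- The first two coordinates of the direction of `Y`. -/
noncomputable def dir (Y : E n) : ℝ × ℝ := (Y 0 / ‖Y‖, Y 1 / ‖Y‖)

/-- The angular measure. -/
noncomputable def mu (n : ℕ) : Measure (ℝ × ℝ) :=
  ((volume : Measure (E n)).withDensity fun Y => ENNReal.ofReal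
    (|Y 0| ^ (n - 1) * ‖Y‖ ^ 3 * Real.exp (-‖Y‖ ^ 2 / 2) / U0 n)).map dir

/-- The squared norm of the remaining coordinates of the direction. -/
def lm (p : ℝ × ℝ) : ℝ := 1 - p.1 ^ 2 - p.2 ^ 2

/-- The reference weight on the disc. -/
noncomputable def wt (a b : ℝ) (p : ℝ × ℝ) : ℝ := (Real.sqrt (1 - (a * p.1 + b * p.2) ^ 2))⁻¹

/-- Monomial integrals. -/
noncomputable def mono (n i j : ℕ) (k : ℤ) : ℝ :=
  ∫ p, (p.1 ^ 2) ^ i * (p.2 ^ 2) ^ j * lm p ^ k ∂mu n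

theorem mu_meas_dir : Measurable (dir : E n → ℝ × ℝ) := by
  unfold dir
  have h0 : Measurable fun Y : E n => Y 0 := by fun_prop
  have h1 : Measurable fun Y : E n => Y 1 := by fun_prop
  exact (h0.div measurable_norm).prodMk (h1.div measurable_norm)

theorem mu_meas_w : Measurable fun Y : E n =>
    |Y 0| ^ (n - 1) * ‖Y‖ ^ 3 * Real.exp (-‖Y‖ ^ 2 / 2) / U0 n := by
  have : Continuous fun Y : E n =>
      |Y 0| ^ (n - 1) * ‖Y‖ ^ 3 * Real.exp (-‖Y‖ ^ 2 / 2) / U0 n := by fun_prop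
  exact this.measurable

theorem mu_w_nonneg (Y : E n) :
    0 ≤ |Y 0| ^ (n - 1) * ‖Y‖ ^ 3 * Real.exp (-‖Y‖ ^ 2 / 2) / U0 n := by
  have := U0_pos n
  positivity

theorem mu_coord_le (Y : E n) (i : Fin (n + 2)) : |Y i| ≤ ‖Y‖ := by
  simpa using PiLp.norm_apply_le Y i

theorem mu_pow_le (Y : E n) (i j : ℕ) : |Y 0| ^ i * ‖Y‖ ^ j ≤ (1 + ‖Y‖) ^ (i + j) := by
  have h0 := mu_coord_le Y 0
  have h1 := norm_nonneg Y
  rw [pow_add]
  gcongr
  · linarith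
  · linarith

theorem mu_norm_mul_fst (Y : E n) : Y 0 = ‖Y‖ * (dir Y).1 := by
  by_cases h : Y = 0
  · simp [h]
  · have : ‖Y‖ ≠ 0 := norm_ne_zero_iff.2 h
    simp only [dir]
    field_simp

theorem mu_norm_mul_snd (Y : E n) : Y 1 = ‖Y‖ * (dir Y).2 := by
  by_cases h : Y = 0
  · simp [h]
  · have : ‖Y‖ ≠ 0 := norm_ne_zero_iff.2 h
    simp only [dir]
    field_simp

theorem mu_lam2_eq (Y : E n) : lam2 Y = ‖Y‖ ^ 2 * lm (dir Y) := by
  have h := st_norm_sq Y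
  have h2 : lam2 Y = tail Y ⬝ᵥ tail Y := by
    simp only [lam2, dotProduct, sq]
  have h0 := mu_norm_mul_fst Y
  have h1 := mu_norm_mul_snd Y
  rw [h2, lm]
  have e : ‖Y‖ ^ 2 * (1 - (dir Y).1 ^ 2 - (dir Y).2 ^ 2)
      = ‖Y‖ ^ 2 - (‖Y‖ * (dir Y).1) ^ 2 - (‖Y‖ * (dir Y).2) ^ 2 := by ring
  rw [e, ← h0, ← h1]
  linarith

theorem mu_den_eq (a b : ℝ) (Y : E n) :
    den a b Y = ‖Y‖ * Real.sqrt (1 - (a * (dir Y).1 + b * (dir Y).2) ^ 2) := by
  have h0 := mu_norm_mul_fst Y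
  have h1 := mu_norm_mul_snd Y
  have e : ‖Y‖ ^ 2 - (a * Y 0 + b * Y 1) ^ 2
      = ‖Y‖ ^ 2 * (1 - (a * (dir Y).1 + b * (dir Y).2) ^ 2) := by
    calc ‖Y‖ ^ 2 - (a * Y 0 + b * Y 1) ^ 2
        = ‖Y‖ ^ 2 - (a * (‖Y‖ * (dir Y).1) + b * (‖Y‖ * (dir Y).2)) ^ 2 := by rw [← h0, ← h1]
      _ = _ := by ring
  rw [den, e, Real.sqrt_mul (sq_nonneg _), Real.sqrt_sq (norm_nonneg _)]

theorem mu_cube_wt (a b : ℝ) (Y : E n) :
    ‖Y‖ ^ 3 * wt a b (dir Y) = ‖Y‖ ^ 4 / den a b Y := by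
  rw [mu_den_eq, wt]
  by_cases h : ‖Y‖ = 0
  · simp [h]
  · rw [div_mul_eq_div_div, div_eq_mul_inv (‖Y‖ ^ 4 / ‖Y‖)]
    congr 1
    field_simp

theorem mu_dir_mem (Y : E n) : dir Y ∈ Icc ((-1, -1) : ℝ × ℝ) (1, 1) := by
  have key : ∀ i : Fin (n + 2), |Y i / ‖Y‖| ≤ 1 := by
    intro i
    rw [abs_div, abs_norm]
    exact div_le_one_of_le₀ (mu_coord_le Y i) (norm_nonneg _)
  have h0 := abs_le.1 (key 0)
  have h1 := abs_le.1 (key 1)
  exact ⟨⟨h0.1, h1.1⟩, ⟨h0.2, h1.2⟩⟩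

theorem mu_bound {g : ℝ × ℝ → ℝ} (hg : Continuous g) :
    ∃ C : ℝ, 0 ≤ C ∧ ∀ Y : E n, |g (dir Y)| ≤ C := by
  obtain ⟨C, hC⟩ := (isCompact_Icc (a := ((-1, -1) : ℝ × ℝ)) (b := (1, 1))).exists_bound_of_continuousOn
    hg.continuousOn
  refine ⟨max C 0, le_max_right _ _, fun Y => ?_⟩
  exact (hC _ (mu_dir_mem Y)).trans (le_max_left _ _)

theorem mu_meas_wt (a b : ℝ) : Measurable (wt a b) := by
  unfold wt
  have : Continuous fun p : ℝ × ℝ => Real.sqrt (1 - (a * p.1 + b * p.2) ^ 2) := by fun_prop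
  exact this.measurable.inv

theorem mu_cont_lm : Continuous lm := by
  unfold lm
  fun_prop

theorem mu_lintegral {f : ℝ × ℝ → ℝ≥0∞} (hf : Measurable f) :
    ∫⁻ p, f p ∂mu n = ∫⁻ Y : E n, ENNReal.ofReal
      (|Y 0| ^ (n - 1) * ‖Y‖ ^ 3 * Real.exp (-‖Y‖ ^ 2 / 2) / U0 n) * f (dir Y) := by
  rw [mu, lintegral_map hf mu_meas_dir,
    lintegral_withDensity_eq_lintegral_mul _ mu_meas_w.ennreal_ofReal
      (g := fun Y : E n => f (dir Y)) (hf.comp mu_meas_dir)]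
  rfl

theorem mu_flip_gen {φ : ℝ × ℝ → ℝ × ℝ} (hφ : Measurable φ) (e : E n ≃ₗᵢ[ℝ] E n)
    (h0 : ∀ Y, |e Y 0| = |Y 0|) (h1 : ∀ Y, dir (e Y) = φ (dir Y)) :
    MeasurePreserving φ (mu n) (mu n) := by
  refine ⟨hφ, ?_⟩
  refine Measure.ext_of_lintegral _ fun f hf => ?_
  rw [lintegral_map hf hφ, mu_lintegral (f := fun p => f (φ p)) (hf.comp hφ), mu_lintegral hf]
  have := e.measurePreserving.lintegral_comp_emb e.toHomeomorph.measurableEmbedding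
    (fun Y : E n => ENNReal.ofReal
      (|Y 0| ^ (n - 1) * ‖Y‖ ^ 3 * Real.exp (-‖Y‖ ^ 2 / 2) / U0 n) * f (dir Y))
  rw [← this]
  simp only [LinearIsometryEquiv.norm_map, h0, h1]

instance mu_finite (n : ℕ) : IsFiniteMeasure (mu n) := by
  have hi : Integrable fun Y : E n =>
      |Y 0| ^ (n - 1) * ‖Y‖ ^ 3 * Real.exp (-‖Y‖ ^ 2 / 2) / U0 n := by
    refine Integrable.div_const ?_ _
    refine integrable_poly_gauss (f := fun Y : E n => |Y 0| ^ (n - 1) * ‖Y‖ ^ 3) ?_ 1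
      (n - 1 + 3) fun Y => ?_
    · have : Continuous fun Y : E n => |Y 0| ^ (n - 1) * ‖Y‖ ^ 3 := by fun_prop
      exact this.measurable
    · rw [one_mul, abs_of_nonneg (by positivity)]
      exact mu_pow_le Y _ _
  have := isFiniteMeasure_withDensity_ofReal hi.hasFiniteIntegral
  unfold mu
  infer_instance

theorem mu_ae (hn : 1 ≤ n) : ∀ᵐ p ∂mu n, 0 < lm p := by
  unfold mu
  rw [ae_map_iff mu_meas_dir.aemeasurable
    (measurableSet_lt measurable_const mu_cont_lm.measurable)]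
  refine (withDensity_absolutelyContinuous _ _).ae_le ?_
  filter_upwards [ae_lam2_pos hn] with Y hY
  rw [mu_lam2_eq] at hY
  exact pos_of_mul_pos_right hY (sq_nonneg _)

theorem mu_flip1 (n : ℕ) : MeasurePreserving (fun p : ℝ × ℝ => (-p.1, p.2)) (mu n) (mu n) := by
  obtain ⟨e, he⟩ := exists_flip (n := n) 0
  refine mu_flip_gen (by fun_prop) e (fun Y => by rw [(he Y).1, abs_neg]) fun Y => ?_
  simp only [dir, LinearIsometryEquiv.norm_map, (he Y).1, (he Y).2 1 (by simp), neg_div]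

theorem mu_flip2 (n : ℕ) : MeasurePreserving (fun p : ℝ × ℝ => (p.1, -p.2)) (mu n) (mu n) := by
  obtain ⟨e, he⟩ := exists_flip (n := n) 1
  refine mu_flip_gen (by fun_prop) e (fun Y => by rw [(he Y).2 0 (by simp)]) fun Y => ?_
  simp only [dir, LinearIsometryEquiv.norm_map, (he Y).1, (he Y).2 0 (by simp), neg_div]

theorem integral_mu {g : ℝ × ℝ → ℝ} (hg : Measurable g) :
    ∫ p, g p ∂mu n = Gi (fun Y : E n => |Y 0| ^ (n - 1) * ‖Y‖ ^ 3 * g (dir Y)) / U0 n := by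
  rw [mu, integral_map mu_meas_dir.aemeasurable hg.aestronglyMeasurable,
    integral_withDensity_eq_integral_toReal_smul mu_meas_w.ennreal_ofReal
      (Filter.Eventually.of_forall fun _ => ENNReal.ofReal_lt_top), Gi, ← integral_div]
  refine integral_congr_ae (Filter.Eventually.of_forall fun Y => ?_)
  simp only [ENNReal.toReal_ofReal (mu_w_nonneg Y), smul_eq_mul]
  ring

theorem integrable_mu_iff {g : ℝ × ℝ → ℝ} (hg : Measurable g) :
    Integrable g (mu n) ↔ Integrable fun Y : E n =>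
      |Y 0| ^ (n - 1) * ‖Y‖ ^ 3 * g (dir Y) * Real.exp (-‖Y‖ ^ 2 / 2) := by
  rw [mu, integrable_map_measure hg.aestronglyMeasurable mu_meas_dir.aemeasurable,
    integrable_withDensity_iff_integrable_smul' mu_meas_w.ennreal_ofReal
      (Filter.Eventually.of_forall fun _ => ENNReal.ofReal_lt_top)]
  have hU := (U0_pos n).ne'
  have e : (fun Y : E n => (ENNReal.ofReal
      (|Y 0| ^ (n - 1) * ‖Y‖ ^ 3 * Real.exp (-‖Y‖ ^ 2 / 2) / U0 n)).toReal • (g ∘ dir) Y)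
      = fun Y : E n => (U0 n)⁻¹ *
        (|Y 0| ^ (n - 1) * ‖Y‖ ^ 3 * g (dir Y) * Real.exp (-‖Y‖ ^ 2 / 2)) := by
    funext Y
    simp only [ENNReal.toReal_ofReal (mu_w_nonneg Y), smul_eq_mul, Function.comp]
    ring
  rw [e]
  exact integrable_const_mul_iff (IsUnit.mk0 _ (inv_ne_zero hU)) _

theorem integrable_cont (hn : 1 ≤ n) {g : ℝ × ℝ → ℝ} (hg : Continuous g) :
    Integrable g (mu n) := by
  rw [integrable_mu_iff hg.measurable]
  obtain ⟨C, hC0, hC⟩ := mu_bound (n := n) hg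
  refine integrable_poly_gauss (f := fun Y : E n => |Y 0| ^ (n - 1) * ‖Y‖ ^ 3 * g (dir Y)) ?_ C
    (n - 1 + 3) fun Y => ?_
  · have : Continuous fun Y : E n => |Y 0| ^ (n - 1) * ‖Y‖ ^ 3 := by fun_prop
    exact this.measurable.mul (hg.measurable.comp mu_meas_dir)
  · rw [abs_mul, abs_of_nonneg (by positivity : 0 ≤ |Y 0| ^ (n - 1) * ‖Y‖ ^ 3), mul_comm]
    exact mul_le_mul (hC Y) (mu_pow_le Y _ _) (by positivity) hC0

theorem integrable_cont_lm {k : ℤ} (hn : 1 ≤ n) (hk : 0 < (n : ℤ) + 2 * k) {g : ℝ × ℝ → ℝ}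
    (hg : Continuous g) : Integrable (fun p => g p * lm p ^ k) (mu n) := by
  obtain ⟨m, rfl | rfl⟩ := Int.eq_nat_or_neg k
  · simp only [zpow_natCast]
    exact integrable_cont hn (hg.mul (mu_cont_lm.pow m))
  · have hm : 2 * m < n := by omega
    have hmeas : Measurable fun p : ℝ × ℝ => g p * lm p ^ (-(m : ℤ)) :=
      hg.measurable.mul (mu_cont_lm.measurable.pow_const _)
    rw [integrable_mu_iff hmeas]
    obtain ⟨C, hC0, hC⟩ := mu_bound (n := n) hg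
    have hi := integrable_div_lam hm
      (f := fun Y : E n => |Y 0| ^ (n - 1) * ‖Y‖ ^ (3 + 2 * m) * g (dir Y)) ?_ C
      (n - 1 + (3 + 2 * m)) fun Y => ?_
    · refine hi.congr ?_
      filter_upwards [ae_lam2_pos hn] with Y hY
      have hl := mu_lam2_eq Y
      have hlm : 0 < lm (dir Y) := by
        rw [hl] at hY
        exact pos_of_mul_pos_right hY (sq_nonneg _)
      have hn0 : ‖Y‖ ≠ 0 := by
        intro h
        rw [hl, h] at hY
        simp at hY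
      rw [pow_mul (Real.sqrt (lam2 Y)), Real.sq_sqrt hY.le, hl, _root_.zpow_neg, zpow_natCast, mul_pow,
        pow_add, pow_mul]
      field_simp
    · have : Continuous fun Y : E n => |Y 0| ^ (n - 1) * ‖Y‖ ^ (3 + 2 * m) := by fun_prop
      exact this.measurable.mul (hg.measurable.comp mu_meas_dir)
    · rw [abs_mul, abs_of_nonneg (by positivity : 0 ≤ |Y 0| ^ (n - 1) * ‖Y‖ ^ (3 + 2 * m)),
        mul_comm]
      exact mul_le_mul (hC Y) (mu_pow_le Y _ _) (by positivity) hC0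

theorem mu_wt_eq (a b : ℝ) (g : ℝ × ℝ → ℝ) (Y : E n) :
    |Y 0| ^ (n - 1) * ‖Y‖ ^ 3 * (g (dir Y) * wt a b (dir Y))
      = |Y 0| ^ (n - 1) * (‖Y‖ ^ 4 * g (dir Y)) / den a b Y := by
  calc |Y 0| ^ (n - 1) * ‖Y‖ ^ 3 * (g (dir Y) * wt a b (dir Y))
      = |Y 0| ^ (n - 1) * g (dir Y) * (‖Y‖ ^ 3 * wt a b (dir Y)) := by ring
    _ = _ := by rw [mu_cube_wt]; ring

theorem integrable_cont_wt (hn : 2 ≤ n) {a b : ℝ} (hab : a ^ 2 + b ^ 2 ≤ 1) {g : ℝ × ℝ → ℝ}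
    (hg : Continuous g) : Integrable (fun p => g p * wt a b p) (mu n) := by
  rw [integrable_mu_iff (g := fun p => g p * wt a b p) (hg.measurable.mul (mu_meas_wt a b))]
  simp only [mu_wt_eq]
  obtain ⟨C, hC0, hC⟩ := mu_bound (n := n) hg
  refine integrable_mom hn hab (f := fun Y : E n => ‖Y‖ ^ 4 * g (dir Y)) ?_ C 4 fun Y => ?_
  · exact (measurable_norm.pow_const 4).mul (hg.measurable.comp mu_meas_dir)
  · rw [abs_mul, abs_of_nonneg (by positivity : 0 ≤ ‖Y‖ ^ 4), mul_comm]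
    refine mul_le_mul (hC Y) ?_ (by positivity) hC0
    gcongr
    linarith

theorem nphi_mu (hn : 1 ≤ n) (a b : ℝ) :
    nphi n a b = ∫ p, p.1 ^ 2 * Real.sqrt (1 - (a * p.1 + b * p.2) ^ 2) ∂mu n := by
  have hc : Continuous fun p : ℝ × ℝ => p.1 ^ 2 * Real.sqrt (1 - (a * p.1 + b * p.2) ^ 2) := by
    fun_prop
  rw [integral_mu hc.measurable, nphi, phi]
  congr 2
  funext Y
  obtain ⟨m, rfl⟩ := Nat.exists_eq_add_of_le' hn
  have h0 : |Y 0| ^ 2 = ‖Y‖ ^ 2 * (dir Y).1 ^ 2 := by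
    rw [sq_abs, ← mul_pow, ← mu_norm_mul_fst]
  rw [mu_den_eq, Nat.add_sub_cancel, show m + 1 + 1 = m + 2 from rfl, pow_add, h0]
  ring

theorem mu_mom_eq (a b : ℝ) {g : ℝ × ℝ → ℝ} (hg : Continuous g) {f : E n → ℝ}
    (hf : ∀ Y, f Y = ‖Y‖ ^ 4 * g (dir Y)) :
    mom a b f / U0 n = ∫ p, g p * wt a b p ∂mu n := by
  rw [integral_mu (g := fun p => g p * wt a b p) (hg.measurable.mul (mu_meas_wt a b)), mom]
  simp only [mu_wt_eq, hf]

theorem nmo_mu (hn : 1 ≤ n) (a b : ℝ) :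
    (nmo n a b).Wr = ∫ p, p.1 ^ 4 * wt a b p ∂mu n ∧
    (nmo n a b).Be = ∫ p, p.1 ^ 2 * p.2 ^ 2 * wt a b p ∂mu n ∧
    (nmo n a b).Bl = (∫ p, p.1 ^ 2 * lm p * wt a b p ∂mu n) / n ∧
    (nmo n a b).mup = (∫ p, lm p ^ 2 * wt a b p ∂mu n) / n ∧
    (nmo n a b).m22 = (∫ p, p.2 ^ 2 * lm p * wt a b p ∂mu n) / n ∧
    (nmo n a b).m40 = ∫ p, p.2 ^ 4 * wt a b p ∂mu n ∧
    (nmo n a b).e1 = ∫ p, p.1 ^ 3 * p.2 * wt a b p ∂mu n ∧
    (nmo n a b).e2 = ∫ p, p.1 * p.2 * lm p * wt a b p ∂mu n := by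
  have hl := mu_cont_lm
  simp only [nmo, mo]
  refine ⟨?_, ?_, ?_, ?_, ?_, ?_, ?_, ?_⟩
  · refine mu_mom_eq a b (g := fun p => p.1 ^ 4) (by fun_prop) fun Y => ?_
    conv_lhs => rw [mu_norm_mul_fst Y]
    ring
  · refine mu_mom_eq a b (g := fun p => p.1 ^ 2 * p.2 ^ 2) (by fun_prop) fun Y => ?_
    conv_lhs => rw [mu_norm_mul_fst Y, mu_norm_mul_snd Y]
    ring
  · rw [div_right_comm]
    congr 1
    refine mu_mom_eq a b (g := fun p => p.1 ^ 2 * lm p) (by fun_prop) fun Y => ?_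
    conv_lhs => rw [mu_norm_mul_fst Y, mu_lam2_eq Y]
    ring
  · rw [div_right_comm]
    congr 1
    refine mu_mom_eq a b (g := fun p => lm p ^ 2) (by fun_prop) fun Y => ?_
    conv_lhs => rw [mu_lam2_eq Y]
    ring
  · rw [div_right_comm]
    congr 1
    refine mu_mom_eq a b (g := fun p => p.2 ^ 2 * lm p) (by fun_prop) fun Y => ?_
    conv_lhs => rw [mu_norm_mul_snd Y, mu_lam2_eq Y]
    ring
  · refine mu_mom_eq a b (g := fun p => p.2 ^ 4) (by fun_prop) fun Y => ?_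
    conv_lhs => rw [mu_norm_mul_snd Y]
    ring
  · refine mu_mom_eq a b (g := fun p => p.1 ^ 3 * p.2) (by fun_prop) fun Y => ?_
    conv_lhs => rw [mu_norm_mul_fst Y, mu_norm_mul_snd Y]
    ring
  · refine mu_mom_eq a b (g := fun p => p.1 * p.2 * lm p) (by fun_prop) fun Y => ?_
    conv_lhs => rw [mu_norm_mul_fst Y, mu_norm_mul_snd Y, mu_lam2_eq Y]
    ring

end Pool.Agent.Ped
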