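import Pool.Agent.P.MP_e09f5c_gt.MomBase
import Pool.Agent.P.MP_e09f5c_gt.Coord

/-! Polar coordinates in the first two variables. -/

open MeasureTheory Metric Set Matrix
open scoped InnerProductSpace ENNReal

namespace Pool.Agent.Ped

variable {n : ℕ}

theorem pol_cons {m : ℕ} {F : (Fin (m + 1) → ℝ) → ℝ≥0∞} (hF : Measurable F) :
    ∫⁻ y, F y = ∫⁻ t : ℝ, ∫⁻ z : Fin m → ℝ, F (Fin.cons t z) := by
  have h := (volume_preserving_piFinSuccAbove (fun _ : Fin (m + 1) => ℝ) 0).symm
  rw [← h.lintegral_comp hF, Measure.volume_eq_prod, lintegral_prod]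
  · refine lintegral_congr fun t => lintegral_congr fun z => ?_
    congr 1
    simp [MeasurableEquiv.piFinSuccAbove_symm_apply, Fin.insertNthEquiv]
  · exact (hF.comp (MeasurableEquiv.measurable _)).aemeasurable

theorem pol_continuous_cons {m : ℕ} :
    Continuous fun p : ℝ × (Fin m → ℝ) => (Fin.cons p.1 p.2 : Fin (m + 1) → ℝ) := by
  refine continuous_pi fun i => ?_
  refine Fin.cases ?_ (fun j => ?_) i
  · simpa using continuous_fst
  · simp only [Fin.cons_succ]
    fun_prop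

theorem pol_continuous_stVec {m : ℕ} :
    Continuous fun p : (ℝ × ℝ) × (Fin m → ℝ) => stVec p.1.1 p.1.2 p.2 := by
  unfold stVec
  refine (PiLp.continuous_toLp 2 _).comp ?_
  exact pol_continuous_cons.comp ((continuous_fst.comp continuous_fst).prodMk
    (pol_continuous_cons.comp ((continuous_snd.comp continuous_fst).prodMk continuous_snd)))

theorem pol_one {m : ℕ} {G : E m → ℝ≥0∞} (hG : Measurable G) :
    ∫⁻ y, G y = ∫⁻ t : ℝ, ∫⁻ z : Fin (m + 1) → ℝ,
      G (WithLp.toLp 2 (Fin.cons t z : Fin (m + 2) → ℝ)) := by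
  rw [← (PiLp.volume_preserving_toLp (Fin (m + 2))).lintegral_comp hG]
  exact pol_cons (F := fun y => G (WithLp.toLp 2 y))
    (hG.comp (PiLp.continuous_toLp 2 _).measurable)

theorem pol_two {m : ℕ} {G : E m → ℝ≥0∞} (hG : Measurable G) :
    ∫⁻ y, G y = ∫⁻ p : ℝ × ℝ, ∫⁻ z : Fin m → ℝ, G (stVec p.1 p.2 z) := by
  have hm : Measurable fun p : (ℝ × ℝ) × (Fin m → ℝ) => G (stVec p.1.1 p.1.2 p.2) :=
    hG.comp pol_continuous_stVec.measurable
  rw [pol_one hG, Measure.volume_eq_prod, lintegral_prod _ hm.lintegral_prod_right'.aemeasurable]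
  refine lintegral_congr fun s => ?_
  exact pol_cons (F := fun z => G (WithLp.toLp 2 (Fin.cons s z : Fin (m + 2) → ℝ)))
    (hG.comp ((PiLp.continuous_toLp 2 _).comp
      (pol_continuous_cons.comp (continuous_const.prodMk continuous_id))).measurable)

theorem pol_neg_stVec {m : ℕ} (s t : ℝ) (z : Fin m → ℝ) :
    stVec (-s) (-t) (-z) = -stVec s t z := by
  ext i
  refine Fin.cases ?_ (fun j => ?_) i
  · simp [stVec]
  · refine Fin.cases ?_ (fun k => ?_) j
    · simp [stVec]
    · simp [stVec]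

theorem pol_even {h : ℝ → ℝ≥0∞} (he : ∀ r, h (-r) = h r) :
    ∫⁻ r, h r = 2 * ∫⁻ r in Ioi (0 : ℝ), h r := by
  have h1 : ∫⁻ r in Iic (0 : ℝ), h r = ∫⁻ r in Ioi (0 : ℝ), h r := by
    have h2 := (Measure.measurePreserving_neg (volume : Measure ℝ)).setLIntegral_comp_preimage_emb
      (MeasurableEquiv.neg ℝ).measurableEmbedding h (Ici (0 : ℝ))
    have h3 : (Neg.neg ⁻¹' Ici (0 : ℝ) : Set ℝ) = Iic 0 := by
      ext x; simp
    rw [h3] at h2
    simp only [he] at h2
    rw [h2, setLIntegral_congr Ioi_ae_eq_Ici]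
  rw [← lintegral_add_compl h (measurableSet_Iic (a := (0 : ℝ))), compl_Iic, h1, two_mul]

/-- The point with polar coordinates `Y 0`, `θ` in the first two variables. -/
noncomputable def polEmb (θ : ℝ) (Y : E n) : E (n + 1) :=
  stVec (Y 0 * Real.cos θ) (Y 0 * Real.sin θ) (eta Y)

theorem pol_continuous_emb : Continuous fun p : ℝ × E n => polEmb p.1 p.2 := by
  have h1 : Continuous fun p : ℝ × E n =>
      (((p.2 0 * Real.cos p.1, p.2 0 * Real.sin p.1), eta p.2) : (ℝ × ℝ) × (Fin (n + 1) → ℝ)) := by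
    refine Continuous.prodMk (by fun_prop) (continuous_pi fun i => ?_)
    simp only [eta]
    fun_prop
  exact pol_continuous_stVec.comp h1

theorem pol_lintegral {G : E (n + 1) → ℝ≥0∞} (hG : Measurable G) (he : ∀ y, G (-y) = G y) :
    2 * ∫⁻ y, G y = ∫⁻ θ in Ioc (-Real.pi) Real.pi,
      ∫⁻ Y : E n, ENNReal.ofReal |Y 0| * G (polEmb θ Y) := by
  have hm : Measurable fun p : (ℝ × ℝ) × (Fin (n + 1) → ℝ) => G (stVec p.1.1 p.1.2 p.2) :=
    hG.comp pol_continuous_stVec.measurable
  set H : ℝ × ℝ → ℝ≥0∞ := fun p => ∫⁻ z : Fin (n + 1) → ℝ, G (stVec p.1 p.2 z) with hH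
  have hHm : Measurable H := hm.lintegral_prod_right'
  have hHe : ∀ s t, H (-s, -t) = H (s, t) := by
    intro s t
    simp only [hH]
    rw [← lintegral_neg_eq_self]
    simp only [pol_neg_stVec, he]
  have hK : Measurable fun p : ℝ × ℝ =>
      ENNReal.ofReal p.1 * H (p.1 * Real.cos p.2, p.1 * Real.sin p.2) :=
    (ENNReal.measurable_ofReal.comp measurable_fst).mul (hHm.comp (by fun_prop))
  have h1 : ∫⁻ y, G y = ∫⁻ θ in Ioc (-Real.pi) Real.pi, ∫⁻ r in Ioi (0 : ℝ),
      ENNReal.ofReal r * H (r * Real.cos θ, r * Real.sin θ) := by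
    rw [pol_two hG]
    change ∫⁻ p, H p = _
    rw [← lintegral_comp_polarCoord_symm, polarCoord_target, Measure.volume_eq_prod,
      ← Measure.prod_restrict, ← setLIntegral_congr Ioo_ae_eq_Ioc]
    simp only [polarCoord_symm_apply, smul_eq_mul]
    rw [lintegral_prod_symm _ hK.aemeasurable]
  rw [h1, ← lintegral_const_mul' _ _ (by simp)]
  refine lintegral_congr fun θ => ?_
  have hm2 : Measurable fun Y : E n => ENNReal.ofReal |Y 0| * G (polEmb θ Y) :=
    (ENNReal.measurable_ofReal.comp (by fun_prop)).mul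
      (hG.comp (pol_continuous_emb.comp (continuous_const.prodMk continuous_id)).measurable)
  rw [pol_one hm2]
  have h2 : ∀ r : ℝ, ∫⁻ z : Fin (n + 1) → ℝ,
      ENNReal.ofReal |(WithLp.toLp 2 (Fin.cons r z : Fin (n + 2) → ℝ) : E n) 0| *
        G (polEmb θ (WithLp.toLp 2 (Fin.cons r z : Fin (n + 2) → ℝ)))
      = ENNReal.ofReal |r| * H (r * Real.cos θ, r * Real.sin θ) := by
    intro r
    simp only [hH]
    rw [← lintegral_const_mul' _ _ ENNReal.ofReal_ne_top]
    refine lintegral_congr fun z => ?_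
    rfl
  simp only [h2]
  rw [pol_even (h := fun r => ENNReal.ofReal |r| * H (r * Real.cos θ, r * Real.sin θ))
    (fun r => by simp only [abs_neg, neg_mul, hHe])]
  congr 1
  refine setLIntegral_congr_fun measurableSet_Ioi fun r hr => ?_
  simp only [abs_of_pos (show (0 : ℝ) < r from hr)]

theorem pol_norm_sq (Y : E n) : ‖Y‖ ^ 2 = Y 0 ^ 2 + eta Y ⬝ᵥ eta Y := by
  rw [EuclideanSpace.real_norm_sq_eq, Fin.sum_univ_succ]
  simp only [eta, dotProduct, pow_two]

theorem pol_norm_emb (θ : ℝ) (Y : E n) : ‖polEmb θ Y‖ ^ 2 = ‖Y‖ ^ 2 := by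
  rw [st_norm_sq, pol_norm_sq]
  simp only [polEmb, st_vec_zero, st_vec_one, st_tail_vec]
  linear_combination Y 0 ^ 2 * Real.cos_sq_add_sin_sq θ

theorem pol_gauss {f : E (n + 1) → ℝ} (hf : Measurable f) (he : ∀ y, f (-y) = f y) :
    2 * gauss f = ∫⁻ θ in Ioc (-Real.pi) Real.pi,
      gauss fun Y : E n => |Y 0| * f (polEmb θ Y) := by
  unfold gauss
  rw [pol_lintegral (G := fun y => ENNReal.ofReal (f y * Real.exp (-‖y‖ ^ 2 / 2)))
    (ENNReal.measurable_ofReal.comp (hf.mul (by fun_prop)))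
    (fun y => by simp only [he, norm_neg])]
  refine lintegral_congr fun θ => lintegral_congr fun Y => ?_
  rw [← ENNReal.ofReal_mul (abs_nonneg _), pol_norm_emb, mul_assoc]

theorem pol_gram (X V : Mat n) (β : Fin (n + 1) → ℝ) (θ : ℝ) (Y : E n) :
    gram X V β (polEmb θ Y) =
      Y 0 ^ 2 • ((Real.cos θ • X + Real.sin θ • V)ᵀ * (Real.cos θ • X + Real.sin θ • V))
      + vecMulVec ((Real.cos θ • X + Real.sin θ • V)ᵀ *ᵥ eta Y)
          ((Real.cos θ • X + Real.sin θ • V)ᵀ *ᵥ eta Y)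
      + vecMulVec ((-Real.sin θ • X + Real.cos θ • V)ᵀ *ᵥ eta Y - Y 0 • β)
          ((-Real.sin θ • X + Real.cos θ • V)ᵀ *ᵥ eta Y - Y 0 • β) := by
  unfold gram
  have e0 : polEmb θ Y 0 = Y 0 * Real.cos θ := rfl
  have e1 : polEmb θ Y 1 = Y 0 * Real.sin θ := rfl
  have e2 : tail (polEmb θ Y) = eta Y := st_tail_vec _ _ _
  have e3 : (Y 0 * Real.cos θ) • X + (Y 0 * Real.sin θ) • V
      = Y 0 • (Real.cos θ • X + Real.sin θ • V) := by
    rw [smul_add, smul_smul, smul_smul]
  rw [e0, e1, e2, e3, Matrix.transpose_smul, Matrix.smul_mul, Matrix.mul_smul, smul_smul,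
    ← pow_two, add_assoc, add_assoc (Y 0 ^ 2 • _)]
  congr 1
  simp only [Matrix.transpose_add, Matrix.transpose_smul, Matrix.add_mulVec, Matrix.smul_mulVec]
  generalize Xᵀ *ᵥ eta Y = a
  generalize Vᵀ *ᵥ eta Y = b
  ext i j
  simp only [Matrix.add_apply, vecMulVec_apply, Pi.add_apply, Pi.sub_apply, Pi.smul_apply,
    smul_eq_mul]
  linear_combination (Y 0 ^ 2 * β i * β j - a i * a j - b i * b j) * Real.cos_sq_add_sin_sq θ

theorem pol_Jst (X V : Mat n) (s θ : ℝ) :
    Jst (Real.cos θ • X + Real.sin θ • V) (-Real.sin θ • X + Real.cos θ • V) s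
      = gauss fun Y : E n => |Y 0| * crof X V (ez n s) (polEmb θ Y) := by
  unfold Jst crof
  simp only [pol_gram]

theorem measurable_Jst (X V : Mat n) (s : ℝ) : Measurable fun θ : ℝ =>
    Jst (Real.cos θ • X + Real.sin θ • V) (-Real.sin θ • X + Real.cos θ • V) s := by
  simp only [pol_Jst]
  unfold gauss
  have hc : Continuous fun p : ℝ × E n =>
      |p.2 0| * crof X V (ez n s) (polEmb p.1 p.2) * Real.exp (-‖p.2‖ ^ 2 / 2) :=
    ((by fun_prop : Continuous fun p : ℝ × E n => |p.2 0|).mul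
      ((continuous_crof X V _).comp pol_continuous_emb)).mul (by fun_prop)
  exact (ENNReal.measurable_ofReal.comp hc.measurable).lintegral_prod_right'

theorem two_mul_gauss_crof (X V : Mat n) (s : ℝ) :
    2 * gauss (crof X V (ez n s)) = ∫⁻ θ in Ioc (-Real.pi) Real.pi,
      Jst (Real.cos θ • X + Real.sin θ • V) (-Real.sin θ • X + Real.cos θ • V) s := by
  simp only [pol_Jst]
  refine pol_gauss (continuous_crof X V _).measurable fun y => ?_
  unfold crof
  rw [← neg_one_smul ℝ y, co_gram_smul]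
  simp

theorem star_identity (n : ℕ) {a b : ℝ} (hab : a ^ 2 + b ^ 2 = 1) :
    ∫ θ in (-Real.pi)..Real.pi, |Real.cos θ| ^ n * nphi n (a * |Real.sin θ|) b = 2 * kh n := by
  let w : E (n + 1) := stVec 0 a (ez n b)
  let e₀ : E (n + 1) := stVec 1 0 0
  have hez : ∀ z : Fin (n + 1) → ℝ, ez n b ⬝ᵥ z = b * z 0 := fun z => by
    simp only [ez, single_dotProduct]
  have hw : ‖w‖ = 1 := by
    have : ‖w‖ ^ 2 = 1 ^ 2 := by
      rw [st_norm_sq]
      simp only [w, st_vec_zero, st_vec_one, st_tail_vec, hez]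
      simp only [ez, Pi.single_eq_same]
      linear_combination hab
    exact (pow_left_inj₀ (norm_nonneg _) zero_le_one two_ne_zero).1 this
  have he₀ : ‖e₀‖ = 1 := by
    have : ‖e₀‖ ^ 2 = 1 ^ 2 := by
      rw [st_norm_sq]
      simp only [e₀, st_vec_zero, st_vec_one, st_tail_vec, dotProduct_zero]
      ring
    exact (pow_left_inj₀ (norm_nonneg _) zero_le_one two_ne_zero).1 this
  have hew : ⟪e₀, w⟫_ℝ = 0 := by
    simp only [e₀, w, st_inner_vec, st_vec_zero, st_vec_one, zero_dotProduct]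
    ring
  obtain ⟨B, hB0, hB1⟩ := exists_basis_star he₀ hw hew
  let g : E (n + 1) → ℝ := fun y => |y 0| ^ (n + 1 - 1) * Real.sqrt (‖y‖ ^ 2 - y 1 ^ 2)
  let f : E (n + 1) → ℝ := fun y => g (B.repr y)
  have hf : ∀ y : E (n + 1),
      f y = |y 0| ^ n * Real.sqrt (‖y‖ ^ 2 - (a * y 1 + b * tail y 0) ^ 2) := by
    intro y
    have r0 : B.repr y 0 = y 0 := by
      rw [B.repr_apply_apply, hB0]
      simp only [e₀, st_inner_vec, zero_dotProduct]; ring
    have r1 : B.repr y 1 = a * y 1 + b * tail y 0 := by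
      rw [B.repr_apply_apply, hB1]
      simp only [w, st_inner_vec, hez]; ring
    simp only [f, g, LinearIsometryEquiv.norm_map, r0, r1, Nat.add_sub_cancel]
  have hgc : Continuous g := by
    simp only [g]
    fun_prop
  have hkap : gauss f = kap (n + 1) := gauss_comp B.repr g
  have hmain := pol_gauss (n := n) (f := f) (hgc.comp B.repr.continuous).measurable
    (fun y => by simp only [f, g, map_neg, norm_neg, PiLp.neg_apply, abs_neg, neg_sq])
  have hslice : ∀ θ : ℝ, (gauss fun Y : E n => |Y 0| * f (polEmb θ Y))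
      = ENNReal.ofReal (|Real.cos θ| ^ n * phi n (a * |Real.sin θ|) b) := by
    intro θ
    have h1 : (fun Y : E n => |Y 0| * f (polEmb θ Y))
        = fun Y : E n => |Real.cos θ| ^ n * (|Y 0| ^ (n + 1) * den (a * Real.sin θ) b Y) := by
      funext Y
      have e0 : polEmb θ Y 0 = Y 0 * Real.cos θ := rfl
      have e1 : polEmb θ Y 1 = Y 0 * Real.sin θ := rfl
      have e2 : tail (polEmb θ Y) 0 = Y 1 := by
        rw [show tail (polEmb θ Y) = eta Y from st_tail_vec _ _ _]
        rfl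
      rw [hf, pol_norm_emb, e0, e1, e2, abs_mul, mul_pow, den,
        show a * (Y 0 * Real.sin θ) = a * Real.sin θ * Y 0 by ring]
      ring
    have h2 : phi n (a * |Real.sin θ|) b = phi n (a * Real.sin θ) b := by
      rcases abs_cases (Real.sin θ) with h | h
      · rw [h.1]
      · rw [h.1, mul_neg, phi_neg_left]
    rw [h1, st_gauss_const_mul (by positivity),
      gauss_eq_ofReal (f := fun Y : E n => |Y 0| ^ (n + 1) * den (a * Real.sin θ) b Y)
        (fun Y => mul_nonneg (by positivity) (Real.sqrt_nonneg _))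
        (integrable_phi _ _), ← ENNReal.ofReal_mul (by positivity), h2]
    rfl
  have hc : Continuous fun θ : ℝ => |Real.cos θ| ^ n * phi n (a * |Real.sin θ|) b :=
    (by fun_prop : Continuous fun θ : ℝ => |Real.cos θ| ^ n).mul
      ((continuous_phi n).comp
        (by fun_prop : Continuous fun θ : ℝ => ((a * |Real.sin θ|, b) : ℝ × ℝ)))
  have hnn : ∀ θ : ℝ, 0 ≤ |Real.cos θ| ^ n * phi n (a * |Real.sin θ|) b :=
    fun θ => mul_nonneg (by positivity) (phi_nonneg _ _ _)
  simp only [hslice] at hmain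
  rw [hkap, ← ofReal_integral_eq_lintegral_ofReal
    (hc.integrableOn_Icc.mono_set Ioc_subset_Icc_self) (Filter.Eventually.of_forall hnn)] at hmain
  have hle : -Real.pi ≤ Real.pi := by linarith [Real.pi_pos]
  have h3 := congrArg ENNReal.toReal hmain
  rw [ENNReal.toReal_ofReal (integral_nonneg hnn), ENNReal.toReal_mul,
    ← intervalIntegral.integral_of_le hle] at h3
  simp only [nphi, kh, ← mul_div_assoc]
  rw [intervalIntegral.integral_div, ← h3]
  simp

end Pool.Agent.Ped
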