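import Pool.Agent.P.MP_e09f5c_gt.CDefs
import Pool.Agent.P.MP_e09f5c_gt.Coord

/-! Reduction of the core inequality to normalised frames. -/

open MeasureTheory Metric Set Matrix Filter Topology
open scoped InnerProductSpace ENNReal

namespace Pool.Agent.Ped

variable {n : ℕ}

section General

variable {N : ℕ}

theorem red_vecMulVec_conj (L : Matrix (Fin N) (Fin N) ℝ) (u : Fin N → ℝ) :
    vecMulVec (Lᵀ *ᵥ u) (Lᵀ *ᵥ u) = Lᵀ * vecMulVec u u * L := by
  rw [Matrix.mul_vecMulVec, Matrix.vecMulVec_mul, Matrix.mulVec_transpose]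

theorem red_gram_conj (X V L : Matrix (Fin N) (Fin N) ℝ) (β : Fin N → ℝ) (y : E N) :
    gram (X * L) (V * L) (Lᵀ *ᵥ β) y = Lᵀ * gram X V β y * L := by
  have e0 : y 0 • (X * L) + y 1 • (V * L) = (y 0 • X + y 1 • V) * L := by
    rw [Matrix.add_mul, Matrix.smul_mul, Matrix.smul_mul]
  have e1 : (X * L)ᵀ *ᵥ tail y + y 1 • (Lᵀ *ᵥ β) = Lᵀ *ᵥ (Xᵀ *ᵥ tail y + y 1 • β) := by
    rw [Matrix.transpose_mul, Matrix.mulVec_add, Matrix.mulVec_smul, Matrix.mulVec_mulVec]
  have e2 : (V * L)ᵀ *ᵥ tail y - y 0 • (Lᵀ *ᵥ β) = Lᵀ *ᵥ (Vᵀ *ᵥ tail y - y 0 • β) := by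
    rw [Matrix.transpose_mul, Matrix.mulVec_sub, Matrix.mulVec_smul, Matrix.mulVec_mulVec]
  unfold gram
  rw [e0, e1, e2, red_vecMulVec_conj, red_vecMulVec_conj, Matrix.transpose_mul]
  simp only [Matrix.mul_add, Matrix.add_mul, Matrix.mul_assoc]

theorem red_sqrt_det_conj (G L : Matrix (Fin N) (Fin N) ℝ) :
    Real.sqrt (Lᵀ * G * L).det = |L.det| * Real.sqrt G.det := by
  rw [Matrix.det_mul, Matrix.det_mul, Matrix.det_transpose,
    show L.det * G.det * L.det = L.det ^ 2 * G.det by ring,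
    Real.sqrt_mul (sq_nonneg _), Real.sqrt_sq_eq_abs]

theorem red_crof_conj (X V L : Matrix (Fin N) (Fin N) ℝ) (β : Fin N → ℝ) (y : E N) :
    crof (X * L) (V * L) (Lᵀ *ᵥ β) y = |L.det| * crof X V β y := by
  unfold crof
  rw [red_gram_conj, red_sqrt_det_conj]

theorem red_gam_conj (X V L : Matrix (Fin N) (Fin N) ℝ) (β : Fin N → ℝ) :
    (X * L)ᵀ * (X * L) + (V * L)ᵀ * (V * L) + vecMulVec (Lᵀ *ᵥ β) (Lᵀ *ᵥ β)
      = Lᵀ * (Xᵀ * X + Vᵀ * V + vecMulVec β β) * L := by
  rw [red_vecMulVec_conj, Matrix.transpose_mul, Matrix.transpose_mul]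
  simp only [Matrix.mul_add, Matrix.add_mul, Matrix.mul_assoc]

open scoped MatrixOrder in
theorem red_exists_root (G : Matrix (Fin N) (Fin N) ℝ) (hG : G.PosDef) :
    ∃ L : Matrix (Fin N) (Fin N) ℝ, Lᵀ * G * L = 1 := by
  obtain ⟨y, hy, rfl⟩ := CStarAlgebra.isStrictlyPositive_iff_eq_star_mul_self.mp
    hG.isStrictlyPositive
  have hd : IsUnit y.det := (Matrix.isUnit_iff_isUnit_det y).mp hy
  refine ⟨y⁻¹, ?_⟩
  rw [star_eq_conjTranspose, conjTranspose_eq_transpose_of_trivial]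
  have : y⁻¹ᵀ * (yᵀ * y) * y⁻¹ = (y * y⁻¹)ᵀ * (y * y⁻¹) := by
    rw [Matrix.transpose_mul]; simp only [Matrix.mul_assoc]
  rw [this, Matrix.mul_nonsing_inv y hd]; simp

theorem red_posDef (X : Matrix (Fin N) (Fin N) ℝ) (β : Fin N → ℝ) :
    (Xᵀ * X + (1 : Matrix (Fin N) (Fin N) ℝ)ᵀ * 1 + vecMulVec β β).PosDef := by
  have h1 : (Xᵀ * X).PosSemidef := by
    have := Matrix.posSemidef_conjTranspose_mul_self X
    rwa [conjTranspose_eq_transpose_of_trivial] at this
  have h2 : (vecMulVec β β).PosSemidef := by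
    have := Matrix.posSemidef_vecMulVec_self_star β
    rwa [star_trivial] at this
  have h3 : ((1 : Matrix (Fin N) (Fin N) ℝ)ᵀ * 1).PosDef := by
    rw [Matrix.transpose_one, Matrix.mul_one]; exact Matrix.PosDef.one
  exact (Matrix.PosDef.posSemidef_add h1 h3).add_posSemidef h2

/-- Rotation of the first two coordinates. -/
noncomputable def redRotL (c s : ℝ) : E N →ₗ[ℝ] E N where
  toFun y := stVec (c * y 0 - s * y 1) (s * y 0 + c * y 1) (tail y)
  map_add' x y := by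
    ext i
    refine Fin.cases ?_ (fun i => Fin.cases ?_ (fun i => ?_) i) i
    · simp [stVec]; ring
    · simp [stVec]; ring
    · simp [stVec, tail]
  map_smul' t x := by
    ext i
    refine Fin.cases ?_ (fun i => Fin.cases ?_ (fun i => ?_) i) i
    · simp [stVec]; ring
    · simp [stVec]; ring
    · simp [stVec, tail]

theorem red_exists_rot {c s : ℝ} (h : c ^ 2 + s ^ 2 = 1) :
    ∃ e : E N ≃ₗᵢ[ℝ] E N, ∀ y, e y 0 = c * y 0 - s * y 1 ∧ e y 1 = s * y 0 + c * y 1 ∧
      tail (e y) = tail y := by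
  have hn : ∀ y : E N, ‖redRotL c s y‖ = ‖y‖ := by
    intro y
    have h1 : ‖redRotL c s y‖ ^ 2 = ‖y‖ ^ 2 := by
      rw [st_norm_sq, st_norm_sq]
      change (c * y 0 - s * y 1) ^ 2 + (s * y 0 + c * y 1) ^ 2 + tail y ⬝ᵥ tail y = _
      linear_combination (y 0 ^ 2 + y 1 ^ 2) * h
    exact (pow_left_inj₀ (norm_nonneg _) (norm_nonneg _) two_ne_zero).mp h1
  let f : E N →ₗᵢ[ℝ] E N := ⟨redRotL c s, hn⟩
  exact ⟨f.toLinearIsometryEquiv rfl, fun y => ⟨rfl, rfl, rfl⟩⟩

theorem red_gram_rot {c s : ℝ} (h : c ^ 2 + s ^ 2 = 1) (X V : Matrix (Fin N) (Fin N) ℝ)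
    (β : Fin N → ℝ) (y z : E N) (h0 : z 0 = c * y 0 - s * y 1) (h1 : z 1 = s * y 0 + c * y 1)
    (h2 : tail z = tail y) :
    gram (c • X + s • V) (-s • X + c • V) β y = gram X V β z := by
  have e0 : y 0 • (c • X + s • V) + y 1 • (-s • X + c • V) = z 0 • X + z 1 • V := by
    rw [h0, h1]; module
  have e1 : (c • X + s • V)ᵀ *ᵥ tail y + y 1 • β =
      c • (Xᵀ *ᵥ tail z + z 1 • β) + s • (Vᵀ *ᵥ tail z - z 0 • β) := by
    rw [h0, h1, h2, Matrix.transpose_add, Matrix.transpose_smul, Matrix.transpose_smul,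
      Matrix.add_mulVec, Matrix.smul_mulVec, Matrix.smul_mulVec]
    have : y 1 • β = (y 1 * (c ^ 2 + s ^ 2)) • β := by rw [h, mul_one]
    rw [this]; module
  have e2 : (-s • X + c • V)ᵀ *ᵥ tail y - y 0 • β =
      -s • (Xᵀ *ᵥ tail z + z 1 • β) + c • (Vᵀ *ᵥ tail z - z 0 • β) := by
    rw [h0, h1, h2, Matrix.transpose_add, Matrix.transpose_smul, Matrix.transpose_smul,
      Matrix.add_mulVec, Matrix.smul_mulVec, Matrix.smul_mulVec]
    have : y 0 • β = (y 0 * (c ^ 2 + s ^ 2)) • β := by rw [h, mul_one]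
    rw [this]; module
  unfold gram
  rw [e0, e1, e2, add_assoc, add_assoc]
  congr 1
  generalize Xᵀ *ᵥ tail z + z 1 • β = p
  generalize Vᵀ *ᵥ tail z - z 0 • β = r
  ext i j
  simp only [Matrix.add_apply, vecMulVec_apply, Pi.add_apply, Pi.smul_apply, smul_eq_mul]
  linear_combination (p i * p j + r i * r j) * h

theorem red_gauss_rot {c s : ℝ} (h : c ^ 2 + s ^ 2 = 1) (X V : Matrix (Fin N) (Fin N) ℝ)
    (β : Fin N → ℝ) :
    gauss (crof (c • X + s • V) (-s • X + c • V) β) = gauss (crof X V β) := by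
  obtain ⟨e, he⟩ := red_exists_rot (N := N) h
  rw [← gauss_comp e (crof X V β)]
  congr 1
  funext y
  unfold crof
  rw [red_gram_rot h X V β y (e y) (he y).1 (he y).2.1 (he y).2.2]

theorem red_sum_rot {c s : ℝ} (h : c ^ 2 + s ^ 2 = 1) (X V : Matrix (Fin N) (Fin N) ℝ) :
    (c • X + s • V)ᵀ * (c • X + s • V) + (-s • X + c • V)ᵀ * (-s • X + c • V)
      = Xᵀ * X + Vᵀ * V := by
  simp only [Matrix.transpose_add, Matrix.transpose_smul, Matrix.add_mul, Matrix.mul_add,
    Matrix.smul_mul, Matrix.mul_smul]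
  have : Xᵀ * X + Vᵀ * V = (c ^ 2 + s ^ 2) • (Xᵀ * X + Vᵀ * V) := by rw [h, one_smul]
  rw [this]; module

theorem red_ae_det (X V : Matrix (Fin N) (Fin N) ℝ) (θ₀ : ℝ)
    (h : (Real.cos θ₀ • X + Real.sin θ₀ • V).det ≠ 0) :
    ∀ᵐ θ : ℝ, (Real.cos θ • X + Real.sin θ • V).det ≠ 0 := by
  have ha : AnalyticOnNhd ℝ (fun θ : ℝ => (Real.cos θ • X + Real.sin θ • V).det) univ := by
    intro θ _
    simp only [Matrix.det_apply', Matrix.add_apply, Matrix.smul_apply, smul_eq_mul]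
    refine Finset.analyticAt_fun_sum _ fun σ _ => analyticAt_const.mul ?_
    refine Finset.analyticAt_fun_prod _ fun i _ => ?_
    exact (Real.analyticAt_cos.mul analyticAt_const).add
      (Real.analyticAt_sin.mul analyticAt_const)
  rcases ha.eqOn_zero_or_eventually_ne_zero_of_preconnected isPreconnected_univ with h0 | h0
  · exact absurd (h0 (mem_univ θ₀)) h
  · have := ae_restrict_le_codiscreteWithin (μ := (volume : Measure ℝ)) MeasurableSet.univ h0
    rwa [Measure.restrict_univ] at this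

theorem red_continuous_crof (X P : Matrix (Fin N) (Fin N) ℝ) (β : Fin N → ℝ) (y : E N) :
    Continuous fun t : ℝ => crof (X + t • P) 1 β y := by
  have hg : Continuous fun t : ℝ => gram (X + t • P) 1 β y := by
    refine continuous_matrix fun i j => ?_
    simp only [gram, Matrix.add_apply, Matrix.mul_apply, Matrix.transpose_apply,
      Matrix.smul_apply, smul_eq_mul, vecMulVec_apply, Pi.add_apply, Pi.sub_apply, Pi.smul_apply,
      mulVec, dotProduct, tail]
    fun_prop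
  exact Real.continuous_sqrt.comp hg.matrix_det

theorem red_continuous_fvol (X P : Matrix (Fin N) (Fin N) ℝ) (β : Fin N → ℝ) :
    Continuous fun t : ℝ => fvol (X + t • P) 1 β := by
  have hg : Continuous fun t : ℝ => (X + t • P)ᵀ * (X + t • P)
      + (1 : Matrix (Fin N) (Fin N) ℝ)ᵀ * 1 + vecMulVec β β := by
    refine continuous_matrix fun i j => ?_
    simp only [Matrix.add_apply, Matrix.mul_apply, Matrix.transpose_apply,
      Matrix.smul_apply, smul_eq_mul, vecMulVec_apply]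
    fun_prop
  exact Real.continuous_sqrt.comp hg.matrix_det

theorem red_fatou (X P : Matrix (Fin N) (Fin N) ℝ) (β : Fin N → ℝ)
    (h : ∀ᶠ t in 𝓝[≠] (0 : ℝ),
      gauss (crof (X + t • P) 1 β) ≤ kap N * ENNReal.ofReal (fvol (X + t • P) 1 β)) :
    gauss (crof X 1 β) ≤ kap N * ENNReal.ofReal (fvol X 1 β) := by
  have h1 : gauss (crof X 1 β) ≤
      liminf (fun t : ℝ => gauss (crof (X + t • P) 1 β)) (𝓝[≠] (0 : ℝ)) := by
    refine le_trans (le_of_eq ?_) (lintegral_liminf_le (μ := (volume : Measure (E N)))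
      (u := 𝓝[≠] (0 : ℝ))
      (f := fun (t : ℝ) (y : E N) =>
        ENNReal.ofReal (crof (X + t • P) 1 β y * Real.exp (-‖y‖ ^ 2 / 2))) fun t => ?_)
    · unfold gauss
      refine lintegral_congr fun y => (Tendsto.liminf_eq ?_).symm
      have hc : Continuous fun t : ℝ =>
          ENNReal.ofReal (crof (X + t • P) 1 β y * Real.exp (-‖y‖ ^ 2 / 2)) :=
        ENNReal.continuous_ofReal.comp ((red_continuous_crof X P β y).mul continuous_const)
      have := (hc.tendsto 0).mono_left (nhdsWithin_le_nhds (s := {0}ᶜ))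
      simpa using this
    · have hc : Continuous fun y : E N =>
          ENNReal.ofReal (crof (X + t • P) 1 β y * Real.exp (-‖y‖ ^ 2 / 2)) :=
        ENNReal.continuous_ofReal.comp ((continuous_crof _ _ _).mul (by fun_prop))
      exact hc.measurable
  have h3 : Tendsto (fun t : ℝ => kap N * ENNReal.ofReal (fvol (X + t • P) 1 β)) (𝓝[≠] (0 : ℝ))
      (𝓝 (kap N * ENNReal.ofReal (fvol X 1 β))) := by
    refine ENNReal.Tendsto.const_mul ?_ (Or.inr (kap_ne_top N))
    have hc : Continuous fun t : ℝ => ENNReal.ofReal (fvol (X + t • P) 1 β) :=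
      ENNReal.continuous_ofReal.comp (red_continuous_fvol X P β)
    have := (hc.tendsto 0).mono_left (nhdsWithin_le_nhds (s := {0}ᶜ))
    simpa using this
  exact h1.trans ((liminf_le_liminf h).trans h3.liminf_eq.le)

end General

theorem red_householder (u : Fin (n + 1) → ℝ) :
    ∃ (O : Mat n) (s : ℝ), 0 ≤ s ∧ Oᵀ * O = 1 ∧ Oᵀ *ᵥ u = ez n s := by
  set s := Real.sqrt (u ⬝ᵥ u) with hs
  have huu : 0 ≤ u ⬝ᵥ u := Finset.sum_nonneg fun i _ => mul_self_nonneg _
  have hs2 : s * s = u ⬝ᵥ u := Real.mul_self_sqrt huu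
  by_cases hw : u = ez n s
  · exact ⟨1, s, Real.sqrt_nonneg _, by simp, by rw [Matrix.transpose_one, one_mulVec, ← hw]⟩
  set w := u - ez n s with hwdef
  have hw0 : w ⬝ᵥ w ≠ 0 := fun h => hw (sub_eq_zero.mp (dotProduct_self_eq_zero.mp h))
  have hwu : w ⬝ᵥ w = 2 * (w ⬝ᵥ u) := by
    have h1 : ez n s ⬝ᵥ ez n s = s * s := by simp [ez]
    simp only [hwdef, sub_dotProduct, dotProduct_sub, h1, hs2, dotProduct_comm u (ez n s)]
    ring
  have hsym : (1 - (2 / (w ⬝ᵥ w)) • vecMulVec w w : Mat n)ᵀ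
      = 1 - (2 / (w ⬝ᵥ w)) • vecMulVec w w := by
    rw [Matrix.transpose_sub, Matrix.transpose_one, Matrix.transpose_smul,
      Matrix.transpose_vecMulVec]
  refine ⟨1 - (2 / (w ⬝ᵥ w)) • vecMulVec w w, s, Real.sqrt_nonneg _, ?_, ?_⟩
  · rw [hsym]
    have h2 : vecMulVec w w * vecMulVec w w = (w ⬝ᵥ w) • vecMulVec w w := by
      rw [Matrix.vecMulVec_mul_vecMulVec, Matrix.vecMulVec_smul]
    simp only [Matrix.sub_mul, Matrix.mul_sub, Matrix.one_mul, Matrix.mul_one, Matrix.smul_mul,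
      Matrix.mul_smul, h2, smul_smul, smul_sub]
    have h3 : 2 / (w ⬝ᵥ w) * (2 / (w ⬝ᵥ w) * (w ⬝ᵥ w)) = 2 / (w ⬝ᵥ w) + 2 / (w ⬝ᵥ w) := by
      field_simp; ring
    rw [h3, add_smul]; abel
  · rw [hsym, Matrix.sub_mulVec, one_mulVec, Matrix.smul_mulVec, Matrix.vecMulVec_mulVec]
    have h4 : (2 / (w ⬝ᵥ w)) • (MulOpposite.op (w ⬝ᵥ u) • w) = w := by
      rw [op_smul_eq_smul, smul_smul]
      have : 2 / (w ⬝ᵥ w) * (w ⬝ᵥ u) = 1 := by
        rw [div_mul_eq_mul_div, ← hwu, div_self hw0]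
      rw [this, one_smul]
    rw [h4, hwdef, sub_sub_cancel]

theorem red_exists_frame (X : Mat n) (β : Fin (n + 1) → ℝ) :
    ∃ (L : Mat n) (s : ℝ), 0 ≤ s ∧ Lᵀ *ᵥ β = ez n s ∧
      Lᵀ * (Xᵀ * X + (1 : Mat n)ᵀ * 1 + vecMulVec β β) * L = 1 := by
  obtain ⟨L, hL⟩ := red_exists_root _ (red_posDef X β)
  obtain ⟨O, s, hs, hO, hu⟩ := red_householder (Lᵀ *ᵥ β)
  refine ⟨L * O, s, hs, ?_, ?_⟩
  · rw [Matrix.transpose_mul, ← Matrix.mulVec_mulVec, hu]
  · rw [Matrix.transpose_mul]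
    calc Oᵀ * Lᵀ * (Xᵀ * X + (1 : Mat n)ᵀ * 1 + vecMulVec β β) * (L * O)
        = Oᵀ * (Lᵀ * (Xᵀ * X + (1 : Mat n)ᵀ * 1 + vecMulVec β β) * L) * O := by
          simp only [Matrix.mul_assoc]
      _ = 1 := by rw [hL, Matrix.mul_one, hO]

theorem red_exists_angle (A B C : ℝ) : ∃ α : ℝ,
    (B - A) * (Real.sin α * Real.cos α) + C * (Real.cos α ^ 2 - Real.sin α ^ 2) = 0 ∧
    Real.sin α ^ 2 * A - 2 * (Real.sin α * Real.cos α) * C + Real.cos α ^ 2 * B ≤
      Real.cos α ^ 2 * A + 2 * (Real.sin α * Real.cos α) * C + Real.sin α ^ 2 * B := by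
  set z : ℂ := ⟨A - B, 2 * C⟩ with hz
  have h1 : ‖z‖ * Real.cos (Complex.arg z) = A - B := Complex.norm_mul_cos_arg z
  have h2 : ‖z‖ * Real.sin (Complex.arg z) = 2 * C := Complex.norm_mul_sin_arg z
  refine ⟨Complex.arg z / 2, ?_⟩
  set α := Complex.arg z / 2 with hα
  have h3 : Complex.arg z = 2 * α := by rw [hα]; ring
  rw [h3, Real.cos_two_mul'] at h1
  rw [h3, Real.sin_two_mul] at h2
  have h4 := Real.cos_sq_add_sin_sq α
  have h5 := norm_nonneg z
  generalize Real.cos α = c at *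
  generalize Real.sin α = s at *
  generalize ‖z‖ = r at *
  have hA : A = B + r * (c ^ 2 - s ^ 2) := by linarith
  have hC : C = r * (s * c) := by linarith
  subst hA hC
  refine ⟨by ring, ?_⟩
  nlinarith [mul_nonneg h5 (sq_nonneg (c ^ 2 + s ^ 2))]

theorem red_unit_diag {S T : Mat n} {s : ℝ} (h : Unit1 S T s) (j : Fin (n + 1)) :
    ∑ i, S i j ^ 2 + ∑ i, T i j ^ 2 + ez n s j ^ 2 = 1 := by
  have := congrFun (congrFun h j) j
  simpa [Matrix.add_apply, Matrix.mul_apply, vecMulVec_apply, sq] using this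

theorem red_unit_rest {S T : Mat n} {s : ℝ} (h : Unit1 S T s) :
    ∑ i, ∑ j : Fin n, S i j.succ ^ 2 + ∑ i, ∑ j : Fin n, T i j.succ ^ 2 = n := by
  rw [Finset.sum_comm, Finset.sum_comm (f := fun i (j : Fin n) => T i j.succ ^ 2),
    ← Finset.sum_add_distrib]
  have : ∀ j : Fin n, ∑ i, S i j.succ ^ 2 + ∑ i, T i j.succ ^ 2 = 1 := by
    intro j
    have := red_unit_diag h j.succ
    simpa [ez, Fin.succ_ne_zero] using this
  simp [this]

theorem red_minor (M L : Mat n) (hL : L.det ≠ 0) (h : ∀ i (j : Fin n), (M * L) i j.succ = 0)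
    (a b c d : Fin (n + 1)) : M a c * M b d = M a d * M b c := by
  have h1 : ∀ i j, M i j = (M * L) i 0 * L⁻¹ 0 j := by
    intro i j
    have : M = M * L * L⁻¹ := by
      rw [Matrix.mul_assoc, Matrix.mul_nonsing_inv L (isUnit_iff_ne_zero.mpr hL), Matrix.mul_one]
    conv_lhs => rw [this]
    rw [Matrix.mul_apply, Fin.sum_univ_succ]
    simp [h]
  rw [h1 a c, h1 b d, h1 a d, h1 b c]; ring

theorem red_core_good (hn : 0 < n)
    (h : ∀ (X V : Mat n) (F : Fr), NF X V F → gauss (crof X V (ez n F.s)) ≤ kap (n + 1))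
    (X : Mat n) (β : Fin (n + 1) → ℝ) {a b c d : Fin (n + 1)} (hac : a ≠ c) (had : a ≠ d)
    (hbc : b ≠ c) (hbd : b ≠ d) (hX : X a c * X b d ≠ X a d * X b c) :
    gauss (crof X 1 β) ≤ kap (n + 1) * ENNReal.ofReal (fvol X 1 β) := by
  obtain ⟨L, s, hs, hβ, hL⟩ := red_exists_frame X β
  have hvol : |L.det| * fvol X 1 β = 1 := by
    unfold fvol
    rw [← red_sqrt_det_conj, hL, Matrix.det_one, Real.sqrt_one]
  have hdet : L.det ≠ 0 := by
    intro h0
    rw [h0] at hvol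
    simp at hvol
  obtain ⟨α, hax, hle⟩ := red_exists_angle (∑ i, ∑ j : Fin n, (X * L) i j.succ ^ 2)
    (∑ i, ∑ j : Fin n, (1 * L) i j.succ ^ 2)
    (∑ i, ∑ j : Fin n, (X * L) i j.succ * (1 * L) i j.succ)
  have hcs := Real.cos_sq_add_sin_sq α
  set S : Mat n := Real.cos α • (X * L) + Real.sin α • (1 * L) with hS
  set T : Mat n := -Real.sin α • (X * L) + Real.cos α • (1 * L) with hT
  have hU : Unit1 S T s := by
    unfold Unit1
    rw [hS, hT, red_sum_rot hcs, ← hβ, red_gam_conj, hL]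
  have hnR : (0 : ℝ) < n := Nat.cast_pos.mpr hn
  have hSS : ∑ i, ∑ j : Fin n, S i j.succ ^ 2 =
      Real.cos α ^ 2 * (∑ i, ∑ j : Fin n, (X * L) i j.succ ^ 2)
        + 2 * (Real.sin α * Real.cos α) * (∑ i, ∑ j : Fin n, (X * L) i j.succ * (1 * L) i j.succ)
        + Real.sin α ^ 2 * ∑ i, ∑ j : Fin n, (1 * L) i j.succ ^ 2 := by
    simp only [Finset.mul_sum, ← Finset.sum_add_distrib]
    refine Finset.sum_congr rfl fun i _ => Finset.sum_congr rfl fun j _ => ?_
    simp only [hS, Matrix.add_apply, Matrix.smul_apply, smul_eq_mul]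
    ring
  have hTT : ∑ i, ∑ j : Fin n, T i j.succ ^ 2 =
      Real.sin α ^ 2 * (∑ i, ∑ j : Fin n, (X * L) i j.succ ^ 2)
        - 2 * (Real.sin α * Real.cos α) * (∑ i, ∑ j : Fin n, (X * L) i j.succ * (1 * L) i j.succ)
        + Real.cos α ^ 2 * ∑ i, ∑ j : Fin n, (1 * L) i j.succ ^ 2 := by
    simp only [Finset.mul_sum, ← Finset.sum_add_distrib, ← Finset.sum_sub_distrib]
    refine Finset.sum_congr rfl fun i _ => Finset.sum_congr rfl fun j _ => ?_
    simp only [hT, Matrix.add_apply, Matrix.smul_apply, smul_eq_mul]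
    ring
  have hST : ∑ i, ∑ j : Fin n, S i j.succ * T i j.succ =
      ((∑ i, ∑ j : Fin n, (1 * L) i j.succ ^ 2) - ∑ i, ∑ j : Fin n, (X * L) i j.succ ^ 2)
          * (Real.sin α * Real.cos α)
        + (∑ i, ∑ j : Fin n, (X * L) i j.succ * (1 * L) i j.succ)
          * (Real.cos α ^ 2 - Real.sin α ^ 2) := by
    simp only [Finset.sum_mul, ← Finset.sum_add_distrib, ← Finset.sum_sub_distrib]
    refine Finset.sum_congr rfl fun i _ => Finset.sum_congr rfl fun j _ => ?_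
    simp only [hS, hT, Matrix.add_apply, Matrix.smul_apply, smul_eq_mul]
    ring
  have hsum := red_unit_rest hU
  have hle' : ∑ i, ∑ j : Fin n, T i j.succ ^ 2 ≤ ∑ i, ∑ j : Fin n, S i j.succ ^ 2 := by
    rw [hSS, hTT]; exact hle
  have hpos : 0 < ∑ i, ∑ j : Fin n, T i j.succ ^ 2 := by
    refine lt_of_le_of_ne (Finset.sum_nonneg fun i _ => Finset.sum_nonneg fun j _ => sq_nonneg _)
      fun h0 => ?_
    have hz : ∀ i (j : Fin n), T i j.succ = 0 := by
      intro i j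
      have h1 := (Finset.sum_eq_zero_iff_of_nonneg fun i _ =>
        Finset.sum_nonneg fun j _ => sq_nonneg (T i (Fin.succ j))).mp h0.symm i (Finset.mem_univ _)
      have h2 := (Finset.sum_eq_zero_iff_of_nonneg fun j _ =>
        sq_nonneg (T i (Fin.succ j))).mp h1 j (Finset.mem_univ _)
      exact pow_eq_zero_iff two_ne_zero |>.mp h2
    have hTM : T = (-Real.sin α • X + Real.cos α • (1 : Mat n)) * L := by
      rw [hT, Matrix.add_mul, Matrix.smul_mul, Matrix.smul_mul]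
    rw [hTM] at hz
    have m1 := red_minor _ L hdet hz a b c d
    have m2 := red_minor _ L hdet hz a c a c
    simp only [Matrix.add_apply, Matrix.smul_apply, smul_eq_mul, Matrix.one_apply_ne hac,
      Matrix.one_apply_ne had, Matrix.one_apply_ne hbc, Matrix.one_apply_ne hbd,
      Matrix.one_apply_ne hac.symm, Matrix.one_apply_eq, mul_zero, add_zero, mul_one] at m1 m2
    have hsin : Real.sin α = 0 := by
      by_contra hne
      apply hX
      have : Real.sin α ^ 2 * (X a c * X b d - X a d * X b c) = 0 := by linear_combination m1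
      rcases mul_eq_zero.mp this with h1 | h1
      · exact absurd (pow_eq_zero_iff two_ne_zero |>.mp h1) hne
      · linarith
    rw [hsin] at m2 hcs
    nlinarith
  have h0 := red_unit_diag hU 0
  let F : Fr := ⟨(∑ i, ∑ j : Fin n, T i j.succ ^ 2) / n, s, ∑ i, S i 0 ^ 2, ∑ i, T i 0 ^ 2,
    ∑ i, S i 0 * T i 0⟩
  have hNF : NF S T F := by
    refine ⟨⟨div_pos hpos hnR, ?_, hs,
      Finset.sum_nonneg (s := Finset.univ) fun i _ => sq_nonneg (S i 0),
      Finset.sum_nonneg (s := Finset.univ) fun i _ => sq_nonneg (T i 0), ?_,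
      Finset.sum_mul_sq_le_sq_mul_sq Finset.univ (fun i => S i 0) (fun i => T i 0)⟩,
      hU, hST.trans hax, ?_, rfl, rfl, rfl, ?_⟩
    · change (∑ i, ∑ j : Fin n, T i j.succ ^ 2) / n ≤ 1 / 2
      rw [div_le_iff₀ hnR]; linarith
    · change s ^ 2 + ∑ i, S i 0 ^ 2 + ∑ i, T i 0 ^ 2 = 1
      have : ez n s 0 = s := by simp [ez]
      rw [this] at h0; linarith
    · change _ = n * ((∑ i, ∑ j : Fin n, T i j.succ ^ 2) / n)
      field_simp
    · refine red_ae_det S T (Real.pi / 2 - α) ?_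
      rw [Real.cos_pi_div_two_sub, Real.sin_pi_div_two_sub]
      have : Real.sin α • S + Real.cos α • T = L := by
        have e : L = (Real.cos α ^ 2 + Real.sin α ^ 2) • (1 * L) := by
          rw [hcs, one_smul, Matrix.one_mul]
        rw [hS, hT]
        conv_rhs => rw [e]
        module
      rwa [this]
  have hmain := h S T F hNF
  change gauss (crof S T (ez n s)) ≤ _ at hmain
  rw [hS, hT, red_gauss_rot hcs, ← hβ] at hmain
  have hc : crof X 1 β = fun y => fvol X 1 β * crof (X * L) (1 * L) (Lᵀ *ᵥ β) y := by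
    funext y
    rw [red_crof_conj, ← mul_assoc, mul_comm (fvol X 1 β), hvol, one_mul]
  rw [hc, st_gauss_const_mul (k := fvol X 1 β) (Real.sqrt_nonneg _), mul_comm]
  exact mul_le_mul_left hmain _

theorem core_of_nf (hn : 3 ≤ n)
    (h : ∀ (X V : Mat n) (F : Fr), NF X V F → gauss (crof X V (ez n F.s)) ≤ kap (n + 1)) :
    CoreIneq (n + 1) := by
  intro X β
  let a : Fin (n + 1) := ⟨0, by omega⟩
  let b : Fin (n + 1) := ⟨1, by omega⟩
  let c : Fin (n + 1) := ⟨2, by omega⟩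
  let d : Fin (n + 1) := ⟨3, by omega⟩
  have hab : a ≠ b := by simp [a, b]
  have hac : a ≠ c := by simp [a, c]
  have had : a ≠ d := by simp [a, d]
  have hbc : b ≠ c := by simp [b, c]
  have hbd : b ≠ d := by simp [b, d]
  have hcd : c ≠ d := by simp [c, d]
  refine red_fatou X (Matrix.single a c 1 + Matrix.single b d 1) β ?_
  have hfin : {t : ℝ | (X a c + t) * (X b d + t) = X a d * X b c}.Finite := by
    have hp : ((Polynomial.X + Polynomial.C (X a c)) * (Polynomial.X + Polynomial.C (X b d))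
        - Polynomial.C (X a d * X b c) : Polynomial ℝ) ≠ 0 := by
      intro h0
      have h2 : ((Polynomial.X + Polynomial.C (X a c)) * (Polynomial.X + Polynomial.C (X b d))
        - Polynomial.C (X a d * X b c) : Polynomial ℝ).natDegree = 2 := by
        compute_degree!
      rw [h0] at h2
      simp at h2
    refine (Polynomial.finite_setOfPred_isRoot hp).subset fun t ht => ?_
    simp only [mem_ofPred_eq, Polynomial.IsRoot.def, Polynomial.eval_sub, Polynomial.eval_mul,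
      Polynomial.eval_add, Polynomial.eval_X, Polynomial.eval_C] at ht ⊢
    linear_combination ht
  filter_upwards [nhdsNE_le_cofinite (0 : ℝ) hfin.compl_mem_cofinite] with t ht
  refine red_core_good (by omega) h _ β hac had hbc hbd ?_
  simpa [Matrix.single_apply, hab, hab.symm, hcd, hcd.symm] using ht

end Pool.Agent.Ped
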