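import Pool.Agent.P.MP_e09f5c_gt.SingTop

/-! The lower bound for fields with one singular point (adapted from Cover and Lower). -/

open MeasureTheory Metric Set Matrix Filter Topology
open scoped InnerProductSpace ENNReal

namespace Pool.Agent.Ped

variable {N : ℕ}

/-- `V` is a differentiable unit tangent field on the sphere without the point `-a₀`. -/
def Sing (V : E N → E N) (a₀ : E N) : Prop :=
  ∀ x : E N, ‖x‖ = 1 → x ≠ -a₀ → DifferentiableAt ℝ V x ∧ ⟪x, V x⟫_ℝ = 0 ∧ ‖V x‖ = 1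

theorem Sing.unit {V : E N → E N} {a₀ : E N} (h : Sing V a₀) :
    ∀ x ∈ sphere (0 : E N) 1 \ {-a₀}, ⟪x, V x⟫_ℝ = 0 ∧ ‖V x‖ = 1 :=
  fun x hx => (h x (mem_sphere_zero_iff_norm.mp hx.1) hx.2).2

theorem Sing.cont {V : E N → E N} {a₀ : E N} (h : Sing V a₀) :
    ContinuousOn V (sphere (0 : E N) 1 \ {-a₀}) :=
  fun x hx => (h x (mem_sphere_zero_iff_norm.mp hx.1) hx.2).1.continuousAt.continuousWithinAt

theorem Sing.good {V : E N → E N} {a₀ x : E N} (h : Sing V a₀) (hx : ‖x‖ = 1) (hxa : x ≠ -a₀) :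
    Good V x := by
  refine ⟨hx, (h x hx hxa).1, ?_⟩
  filter_upwards [self_mem_nhdsWithin, mem_nhdsWithin_of_mem_nhds (isOpen_ne.mem_nhds hxa)]
    with z hz hza
  exact h.unit z ⟨hz, hza⟩

theorem not_span {y c q : E N} (hy : y ≠ 0) (h : ⟪y, q⟫_ℝ = 0) (hc : ⟪c, q⟫_ℝ ≠ 0) :
    y ∉ Submodule.span ℝ {c} := by
  intro hm
  obtain ⟨t, rfl⟩ := Submodule.mem_span_singleton.1 hm
  rw [real_inner_smul_left] at h
  exact hy (by rw [(mul_eq_zero.mp h).resolve_right hc, zero_smul])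

theorem cover_bad_null1 {V : E N → E N} {a₀ : E N} (hV : Sing V a₀)
    {a : E N} (ha : ‖a‖ = 1) (haa : a ≠ -a₀) {g₁ g₂ : E N} (hg : LinearIndependent ℝ ![g₁, g₂])
    (hg' : ⟪a + a₀, g₁⟫_ℝ ≠ 0) :
    volume (coverBad V a g₁ g₂) = 0 := by
  have hg2 : g₂ ≠ 0 := by simpa using hg.ne_zero 1
  have hn2 : ‖g₂‖ ^ 2 ≠ 0 := pow_ne_zero _ (norm_ne_zero_iff.mpr hg2)
  set P : E N → E N := fun z => z - (⟪g₂, z⟫_ℝ / ‖g₂‖ ^ 2) • g₂ with hP
  have hPd : Differentiable ℝ P := by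
    intro z
    have h1 : DifferentiableAt ℝ (fun z : E N => ⟪g₂, z⟫_ℝ / ‖g₂‖ ^ 2) z := by
      simp only [div_eq_mul_inv]
      exact ((differentiableAt_const g₂).inner ℝ differentiableAt_id).mul_const _
    exact differentiableAt_id.sub (h1.smul_const g₂)
  have hn : P g₁ ≠ 0 := by
    intro h
    have := LinearIndependent.pair_iff.mp hg 1 (-(⟪g₂, g₁⟫_ℝ / ‖g₂‖ ^ 2)) (by
      rw [one_smul, neg_smul, ← sub_eq_add_neg]; exact h)
    exact one_ne_zero this.1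
  have hM : volume (((ℝ ∙ P g₁)ᗮ : Submodule ℝ (E N)) : Set (E N)) = 0 := by
    refine Measure.addHaar_submodule _ _ fun h => hn ?_
    have : P g₁ ∈ (ℝ ∙ P g₁)ᗮ := by rw [h]; trivial
    exact inner_self_eq_zero.mp (Submodule.mem_orthogonal_singleton_iff_inner_right.mp this)
  set s : Set (E N) := ((ℝ ∙ P g₁)ᗮ : Submodule ℝ (E N)) ∩
    {z | P z ∉ Submodule.span ℝ {a + a₀}} with hs
  set F : E N → E N := fun z =>
    (‖P z‖ ^ 2 / 2) • refl (P z) (V (refl (P z) a)) + ⟪g₂, z⟫_ℝ • a with hF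
  have hFd : DifferentiableOn ℝ F s := by
    intro z hz
    have hz0 : P z ≠ 0 := fun h => hz.2 (by rw [h]; exact Submodule.zero_mem _)
    have h1 := cover_diff_refl (hPd z) (differentiableAt_const a) hz0
    have h2 : DifferentiableAt ℝ (fun w => V (refl (P w) a)) z :=
      (hV.good (by rw [norm_refl, ha]) (inj_refl_ne hz.2 haa)).2.1.comp z h1
    have h3 := cover_diff_refl (hPd z) h2 hz0
    have h4 : DifferentiableAt ℝ (fun z : E N => ‖P z‖ ^ 2 / 2) z := by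
      simp only [div_eq_mul_inv]
      exact ((hPd z).norm_sq ℝ).mul_const _
    exact ((h4.smul h3).add
      (((differentiableAt_const g₂).inner ℝ differentiableAt_id).smul_const a)).differentiableWithinAt
  have h0 : volume (F '' s) = 0 :=
    addHaar_image_eq_zero_of_differentiableOn_of_addHaar_eq_zero volume hFd
      (measure_mono_null inter_subset_left hM)
  refine measure_mono_null ?_ h0
  rintro z ⟨y, θ, hy, h1, h2, rfl⟩
  have h2' : ⟪g₂, y⟫_ℝ = 0 := by rw [real_inner_comm]; exact h2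
  have h1' : ⟪g₁, y⟫_ℝ = 0 := by rw [real_inner_comm]; exact h1
  have hi : ⟪g₂, y + (θ / ‖g₂‖ ^ 2) • g₂⟫_ℝ = θ := by
    rw [inner_add_right, h2', real_inner_smul_right, real_inner_self_eq_norm_sq]
    field_simp
    ring
  have hPy : P (y + (θ / ‖g₂‖ ^ 2) • g₂) = y := by
    simp only [hP, hi]
    abel
  refine ⟨y + (θ / ‖g₂‖ ^ 2) • g₂, ⟨?_, ?_⟩, ?_⟩
  · refine Submodule.mem_orthogonal_singleton_iff_inner_right.mpr ?_
    simp only [hP, inner_sub_left, inner_add_right, real_inner_smul_left, real_inner_smul_right,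
      h1', h2', real_inner_self_eq_norm_sq]
    rw [real_inner_comm g₁ g₂]
    field_simp
    ring
  · show P _ ∉ _
    rw [hPy]; exact not_span hy h1 hg'
  · simp only [hF, hPy, hi]

theorem cover_subset1 (hN : 2 ≤ N) {V : E N → E N} {a₀ : E N} (ha₀ : ‖a₀‖ = 1) (hV : Sing V a₀)
    {a : E N} (g₁ g₂ : E N) (ha : ‖a‖ = 1) (haa : a ≠ -a₀) (hg' : ⟪a + a₀, g₁⟫_ℝ ≠ 0) :
    cyl a \ {z | ⟪a, z⟫_ℝ = Real.arctan (⟪a + a₀, g₁⟫_ℝ / ⟪a + a₀, g₂⟫_ℝ)} ⊆
      Phi V a g₁ g₂ '' (half g₂ \ Submodule.span ℝ {a + a₀}) ∪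
      (((ℝ ∙ a : Submodule ℝ (E N)) : Set (E N)) ∪ coverBad V a g₁ g₂) := by
  rintro z ⟨⟨hz1, hz2⟩, hz3⟩
  have hcq : ⟪a + a₀, g₁ - Real.tan ⟪a, z⟫_ℝ • g₂⟫_ℝ ≠ 0 := by
    intro h
    rw [inner_sub_right, real_inner_smul_right, sub_eq_zero] at h
    have h2 : ⟪a + a₀, g₂⟫_ℝ ≠ 0 := fun h2 => hg' (by rw [h, h2, mul_zero])
    have hab := abs_lt.mp hz2
    refine hz3 ?_
    show _ = _
    rw [h, mul_div_assoc, div_self h2, mul_one, Real.arctan_tan hab.1 hab.2]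
  set θ := ⟪a, z⟫_ℝ with hθ
  have hw : proj a z = z - θ • a := by simp [proj, hθ]
  rw [hw] at hz1
  set w := z - θ • a with hwd
  have hzw : z = w + θ • a := by rw [hwd]; abel
  by_cases h0 : w = 0
  · refine Or.inr (Or.inl ?_)
    rw [hzw, h0, zero_add]
    exact Submodule.smul_mem _ _ (Submodule.mem_span_singleton_self a)
  have hρ : 0 < ‖w‖ := norm_pos_iff.mpr h0
  have haw : ⟪a, w⟫_ℝ = 0 := by
    rw [hwd, inner_sub_right, real_inner_smul_right, real_inner_self_eq_norm_sq, ha]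
    simp [hθ]
  obtain ⟨y₀, hy0, hq, hb⟩ := onto1 hN V a₀ ha₀ hV.cont hV.unit a (‖w‖⁻¹ • w)
    (g₁ - Real.tan θ • g₂) ha (by rw [norm_smul, norm_inv, norm_norm, inv_mul_cancel₀ hρ.ne'])
    (by rw [real_inner_smul_right, haw, mul_zero]) haa hcq
  have hy0' : 0 < ‖y₀‖ := norm_pos_iff.mpr hy0
  obtain ⟨t, ht, ht2, ht3⟩ : ∃ t : ℝ, t ≠ 0 ∧ t ^ 2 * ‖y₀‖ ^ 2 = 2 * ‖w‖ ∧ 0 ≤ t * ⟪y₀, g₂⟫_ℝ := by
    have hs : 0 < Real.sqrt (2 * ‖w‖) / ‖y₀‖ := div_pos (Real.sqrt_pos.mpr (by linarith)) hy0'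
    have hs2 : (Real.sqrt (2 * ‖w‖) / ‖y₀‖) ^ 2 * ‖y₀‖ ^ 2 = 2 * ‖w‖ := by
      rw [div_pow, Real.sq_sqrt (by linarith)]
      field_simp
    rcases le_total 0 ⟪y₀, g₂⟫_ℝ with h | h
    · exact ⟨_, hs.ne', hs2, mul_nonneg hs.le h⟩
    · exact ⟨-(Real.sqrt (2 * ‖w‖) / ‖y₀‖), neg_ne_zero.mpr hs.ne', by rw [neg_sq]; exact hs2,
        mul_nonneg_of_nonpos_of_nonpos (neg_nonpos.mpr hs.le) h⟩
  set y := t • y₀ with hy
  have hyn : ‖y‖ ^ 2 = 2 * ‖w‖ := by rw [hy, norm_smul, mul_pow, Real.norm_eq_abs, sq_abs, ht2]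
  have hG : (‖y‖ ^ 2 / 2) • refl y (V (refl y a)) = w := by
    rw [hyn, hy, refl_smul _ _ ht, refl_smul _ _ ht, hb, smul_smul]
    have : 2 * ‖w‖ / 2 * ‖w‖⁻¹ = 1 := by field_simp
    rw [this, one_smul]
  have h12 : ⟪y, g₁⟫_ℝ = Real.tan θ * ⟪y, g₂⟫_ℝ := by
    have hq' := hq
    rw [inner_sub_right, real_inner_smul_right] at hq'
    rw [hy, real_inner_smul_left, real_inner_smul_left]
    linear_combination t * hq'
  have h2 : 0 ≤ ⟪y, g₂⟫_ℝ := by rw [hy, real_inner_smul_left]; exact ht3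
  rcases h2.lt_or_eq with h2 | h2
  · refine Or.inl ⟨y, ⟨⟨?_, h2⟩, not_span (smul_ne_zero ht hy0)
      (by rw [real_inner_smul_left, hq, mul_zero]) hcq⟩, ?_⟩
    · have : ‖y‖ ^ 2 < 1 := by rw [hyn]; linarith
      exact (pow_lt_one_iff_of_nonneg (norm_nonneg _) two_ne_zero).mp this
    · have hab := abs_lt.mp hz2
      unfold Phi
      rw [hG, h12, mul_div_assoc, div_self h2.ne', mul_one, Real.arctan_tan hab.1 hab.2]
      exact hzw.symm
  · refine Or.inr (Or.inr ⟨y, θ, smul_ne_zero ht hy0, ?_, h2.symm, ?_⟩)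
    · rw [h12, ← h2, mul_zero]
    · rw [hG]; exact hzw

theorem cyl_le_jac1 (hN : 2 ≤ N) {V : E N → E N} {a₀ : E N} (ha₀ : ‖a₀‖ = 1) (hV : Sing V a₀)
    {a g₁ g₂ : E N} (ha : ‖a‖ = 1) (haa : a ≠ -a₀) (hg : LinearIndependent ℝ ![g₁, g₂])
    (hg' : ⟪a + a₀, g₁⟫_ℝ ≠ 0) :
    volume (cyl a) ≤ ∫⁻ y in half g₂, jac V (refl y a) g₁ g₂ y := by
  set S : Set (E N) := half g₂ \ Submodule.span ℝ {a + a₀} with hS
  have hm : MeasurableSet S := (cover_isOpen_half g₂).measurableSet.diff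
    (Submodule.closed_of_finiteDimensional _).measurableSet
  have hD : ∀ y ∈ S, HasFDerivAt (Phi V a g₁ g₂) (fderiv ℝ (Phi V a g₁ g₂) y) y ∧
      ENNReal.ofReal |(fderiv ℝ (Phi V a g₁ g₂) y).det| = jac V (refl y a) g₁ g₂ y := by
    intro y hy
    obtain ⟨D, h1, h2⟩ := hasFDerivAt_Phi (W := V) (g₁ := g₁) ha hy.1.2.ne'
      (hV.good (by rw [norm_refl, ha]) (inj_refl_ne hy.2 haa))
    rw [h1.fderiv]
    exact ⟨h1, h2⟩
  have h1 := addHaar_image_le_lintegral_abs_det_fderiv volume hm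
    (fun y hy => (hD y hy).1.hasFDerivWithinAt)
  rw [setLIntegral_congr_fun hm (fun y hy => (hD y hy).2)] at h1
  have h0 : ∀ θ : ℝ, volume {z : E N | ⟪a, z⟫_ℝ = θ} = 0 := by
    intro θ
    have ha0 : a ≠ 0 := by rintro rfl; simp at ha
    rw [← inj_hyper_null ha0, ← measure_preimage_add_right volume (θ • a)]
    congr 1
    ext z
    simp only [mem_preimage, mem_ofPred_eq, inner_add_right, real_inner_smul_right,
      real_inner_self_eq_norm_sq, ha, real_inner_comm a z]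
    constructor <;> intro h <;> linarith
  rw [← measure_sdiff_null (s := cyl a) (h0 _)]
  calc _ ≤ volume (Phi V a g₁ g₂ '' S ∪
      (((ℝ ∙ a : Submodule ℝ (E N)) : Set (E N)) ∪ coverBad V a g₁ g₂)) :=
        measure_mono (cover_subset1 hN ha₀ hV g₁ g₂ ha haa hg')
    _ ≤ volume (Phi V a g₁ g₂ '' S) +
        volume (((ℝ ∙ a : Submodule ℝ (E N)) : Set (E N)) ∪ coverBad V a g₁ g₂) :=
        measure_union_le _ _
    _ = volume (Phi V a g₁ g₂ '' S) := by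
        rw [measure_union_null (cover_line_null a) (cover_bad_null1 hV ha haa hg hg'), add_zero]
    _ ≤ _ := h1.trans (lintegral_mono_set sdiff_subset)

theorem tot_le1 (hN : 2 ≤ N) {V : E N → E N} {a₀ : E N} (ha₀ : ‖a₀‖ = 1) (hV : Sing V a₀)
    {a v : E N} (ha : ‖a‖ = 1) (hv : ‖v‖ = 1) (hav : ⟪a, v⟫_ℝ = 0) :
    tot (par a v) ≤ tot V := by
  refine lintegral_mono_ae ?_
  filter_upwards [ae_sph (-a), ae_sph (-a₀)] with x hx hx₀
  refine lintegral_mono_ae (ae_restrict_of_ae ?_)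
  filter_upwards [ae_indep (x + a) fun h => hx.2 (eq_neg_of_add_eq_zero_left h),
    ae_indep (x + a₀) fun h => hx₀.2 (eq_neg_of_add_eq_zero_left h)] with g₁ hg₁ hg₀
  refine lintegral_mono_ae (ae_restrict_of_ae ?_)
  filter_upwards [hg₁.2] with g₂ hg₂
  rw [← half_eq, ← half_eq]
  exact (jac_le_cyl ha hv hav hx.1 hx.2 hg₂ hg₁.1).trans
    (cyl_le_jac1 hN ha₀ hV hx.1 hx₀.2 hg₂ hg₀.1)

theorem lower1 (hN : 2 ≤ N) (hC : CoreIneq N) {V : E N → E N} {a₀ : E N} (ha₀ : ‖a₀‖ = 1)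
    (hV : Sing V a₀) (hVm : Measurable V)
    {a v : E N} (ha : ‖a‖ = 1) (hv : ‖v‖ = 1) (hav : ⟪a, v⟫_ℝ = 0) :
    ∫⁻ x, ENNReal.ofReal (dens (cov (par a v) x)) ∂sph N ≤
      ∫⁻ x, ENNReal.ofReal (dens (cov V x)) ∂sph N := by
  obtain ⟨c, hc0, hc1, hc⟩ := inner_eq N
  have hmm : ∀ {W : E N → E N}, Measurable W → Measurable fun x =>
      ∫⁻ y, ∫⁻ g₁, ∫⁻ g₂, jh W x g₁ g₂ y ∂bal N ∂bal N ∂bal N :=
    fun hW => measurable_inner3 _ (measurable_jh hW)
  have hP : c * tot (par a v) = kap N * ∫⁻ x, ENNReal.ofReal (dens (cov (par a v) x)) ∂sph N := by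
    rw [tot_eq (measurable_par a v), ← lintegral_const_mul _ (hmm (measurable_par a v)),
      ← lintegral_const_mul _ (measurable_dens_cov _).ennreal_ofReal]
    refine lintegral_congr_ae ?_
    filter_upwards [ae_sph (-a)] with x hx
    have hG := good_par ha hv hav hx.1 hx.2
    obtain ⟨b, h0, h1⟩ := exists_basis hG.frame.nx hG.frame.nv hG.frame.xv
    rw [hc hG b h0 h1, dens_eq hG.frame b h0 h1]
    have hX : cX b (cov (par a v) x) =
        (⟪v, x⟫_ℝ / (1 + ⟪x, a⟫_ℝ)) • (1 : Matrix (Fin N) (Fin N) ℝ) := by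
      ext i j
      have e0 : ⟪x, b i.succ.succ⟫_ℝ = 0 := by
        rw [← h0]; exact b.orthonormal.2 (Fin.succ_ne_zero _).symm
      have e1 : ⟪par a v x, b i.succ.succ⟫_ℝ = 0 := by
        rw [← h1]
        exact b.orthonormal.2 fun h => by
          have := congrArg Fin.val h
          simp at this
      simp only [cX, cov_par ha hv hav hx.1 hx.2 _ e0 e1, neg_smul, inner_neg_left, neg_neg,
        real_inner_smul_left, Matrix.smul_apply, smul_eq_mul]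
      congr 1
      rw [orthonormal_iff_ite.1 b.orthonormal, Matrix.one_apply]
      simp [Fin.succ_inj]
    rw [hX, gauss_star hN]
  have hQ : c * tot V ≤ kap N * ∫⁻ x, ENNReal.ofReal (dens (cov V x)) ∂sph N := by
    rw [tot_eq hVm, ← lintegral_const_mul _ (hmm hVm),
      ← lintegral_const_mul _ (measurable_dens_cov _).ennreal_ofReal]
    refine lintegral_mono_ae ?_
    filter_upwards [ae_sph (-a₀)] with x hx
    have hG := hV.good hx.1 hx.2
    obtain ⟨b, h0, h1⟩ := exists_basis hG.frame.nx hG.frame.nv hG.frame.xv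
    rw [hc hG b h0 h1, dens_eq hG.frame b h0 h1]
    exact hC _ _
  rw [← ENNReal.mul_le_mul_iff_right (kap_ne_zero N) (kap_ne_top N), ← hP]
  exact (mul_le_mul_right (tot_le1 hN ha₀ hV ha hv hav) c).trans hQ

theorem hasFDerivAt_normalize {x : E N} (hx : ‖x‖ = 1) :
    HasFDerivAt (fun y : E N => ‖y‖⁻¹ • y) (proj x) x := by
  have h1 : HasFDerivAt (fun y : E N => ‖y‖ ^ 2) (2 • innerSL ℝ x) x := by
    simpa using (hasStrictFDerivAt_norm_sq x).hasFDerivAt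
  have h2 := h1.sqrt (by rw [hx]; norm_num)
  simp only [Real.sqrt_sq (norm_nonneg _)] at h2
  have h3 := (hasDerivAt_inv (x := ‖x‖) (by rw [hx]; norm_num)).comp_hasFDerivAt x h2
  refine (h3.smul (hasFDerivAt_id x)).congr_fderiv ?_
  ext1 w
  simp [proj, hx, sub_eq_add_neg]

/-- Measurability is not needed: pass to the radial extension. -/
theorem lower2 (hN : 2 ≤ N) (hC : CoreIneq N) {V : E N → E N} {a₀ : E N} (ha₀ : ‖a₀‖ = 1)
    (hV : Sing V a₀) {a v : E N} (ha : ‖a‖ = 1) (hv : ‖v‖ = 1) (hav : ⟪a, v⟫_ℝ = 0) :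
    ∫⁻ x, ENNReal.ofReal (dens (cov (par a v) x)) ∂sph N ≤
      ∫⁻ x, ENNReal.ofReal (dens (cov V x)) ∂sph N := by
  classical
  set r : E N → E N := fun y => ‖y‖⁻¹ • y with hr
  have hrc : ContinuousOn r {0}ᶜ :=
    (continuous_norm.continuousOn.inv₀ fun y hy => norm_ne_zero_iff.mpr hy).smul continuousOn_id
  set O : Set (E N) := {0}ᶜ ∩ r ⁻¹' {-a₀}ᶜ with hO
  have hOo : IsOpen O := hrc.isOpen_inter_preimage isOpen_compl_singleton isOpen_compl_singleton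
  have hrn : ∀ y ∈ O, ‖r y‖ = 1 := fun y hy => by
    simp only [hr]
    rw [norm_smul, norm_inv, norm_norm, inv_mul_cancel₀ (norm_ne_zero_iff.mpr hy.1)]
  have hc : ContinuousOn (fun y => V (r y)) O :=
    hV.cont.comp (hrc.mono inter_subset_left) fun y hy =>
      ⟨mem_sphere_zero_iff_norm.mpr (hrn y hy), hy.2⟩
  set W : E N → E N := O.piecewise (fun y => V (r y)) fun _ => 0 with hW
  have hWm : Measurable W := hc.measurable_piecewise continuousOn_const hOo.measurableSet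
  have hd : ∀ x : E N, ‖x‖ = 1 → x ≠ -a₀ →
      W x = V x ∧ HasFDerivAt W (fderiv ℝ V x * proj x) x := by
    intro x hx hxa
    have hrx : r x = x := by simp [hr, hx]
    have hxO : x ∈ O := ⟨by rintro rfl; simp at hx, by rw [mem_preimage, hrx]; exact hxa⟩
    refine ⟨by simp only [hW, piecewise_eq_of_mem _ _ _ hxO, hrx], ?_⟩
    have h1 : HasFDerivAt V (fderiv ℝ V x) (r x) := by
      rw [hrx]; exact (hV x hx hxa).1.hasFDerivAt
    refine (h1.comp x (hasFDerivAt_normalize hx)).congr_of_eventuallyEq ?_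
    filter_upwards [hOo.mem_nhds hxO] with y hy
    simp only [hW, piecewise_eq_of_mem _ _ _ hy, Function.comp, hr]
  have hWs : Sing W a₀ := fun x hx hxa => by
    rw [(hd x hx hxa).1]
    exact ⟨(hd x hx hxa).2.differentiableAt, (hV x hx hxa).2⟩
  refine (lower1 hN hC ha₀ hWs hWm ha hv hav).trans_eq (lintegral_congr_ae ?_)
  filter_upwards [ae_sph (-a₀)] with x hx
  have hp : proj x * proj x = proj x := by
    ext1 w
    rw [mul_apply_eq_comp, jc_proj_apply x (proj x w), jc_inner_proj hx.1, zero_smul, sub_zero]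
  simp only [cov, (hd x hx.1 hx.2).2.fderiv, mul_assoc, hp]

end Pool.Agent.Ped
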