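import Pool.Agent.P.MP_e09f5c_gt.Lower

/-! The topological input for a field with one singular point (adapted from the file Topo: the
disc is filled so that it avoids the mirror that reflects the base point to the singular point). -/

open MeasureTheory Metric Set Matrix Filter Topology
open scoped InnerProductSpace ENNReal

namespace Pool.Agent.Ped

variable {N : ℕ}

open Topo in
theorem onto1 (hN : 2 ≤ N) (V : E N → E N) (a₀ : E N) (ha₀ : ‖a₀‖ = 1)
    (hV : ContinuousOn V (sphere 0 1 \ {-a₀}))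
    (hT : ∀ x ∈ sphere (0 : E N) 1 \ {-a₀}, ⟪x, V x⟫_ℝ = 0 ∧ ‖V x‖ = 1)
    (a b q : E N) (ha : ‖a‖ = 1) (hb : ‖b‖ = 1) (hab : ⟪a, b⟫_ℝ = 0) (haa₀ : a ≠ -a₀)
    (hcq : ⟪a + a₀, q⟫_ℝ ≠ 0) :
    ∃ y : E N, y ≠ 0 ∧ ⟪y, q⟫_ℝ = 0 ∧ refl y (V (refl y a)) = b := by
  by_contra hcon
  push Not at hcon
  let G : E N → E N := fun y => refl y (V (refl y a))
  obtain ⟨c, hc⟩ : ∃ c : E N, c = a + a₀ := ⟨_, rfl⟩
  have hsph : ∀ y, (∀ t : ℝ, y ≠ t • c) → refl y a ∈ sphere (0 : E N) 1 \ {-a₀} := fun y hy =>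
    ⟨by rw [mem_sphere_zero_iff_norm, Topo.norm_refl, ha], inj_refl_ne (fun h => by
      obtain ⟨t, ht⟩ := Submodule.mem_span_singleton.1 h
      exact hy t (by rw [hc]; exact ht.symm)) haa₀⟩
  have hGn : ∀ y, (∀ t : ℝ, y ≠ t • c) → ‖G y‖ = 1 := fun y hy => by
    simp only [G]
    rw [Topo.norm_refl, (hT _ (hsph y hy)).2]
  have hGa : ∀ y, (∀ t : ℝ, y ≠ t • c) → ⟪G y, a⟫_ℝ = 0 := fun y hy => by
    simp only [G]
    rw [Topo.inner_refl, real_inner_comm, (hT _ (hsph y hy)).1]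
  have hca : 0 < ⟪c, a⟫_ℝ := by
    have := inj_one_add_pos ha₀ ha haa₀
    rw [hc, inner_add_left, real_inner_self_eq_norm_sq, ha, real_inner_comm]
    linarith
  rw [← hc] at hcq
  have has : a ∈ sphere (0 : E N) 1 \ {-a₀} := ⟨mem_sphere_zero_iff_norm.mpr ha, haa₀⟩
  obtain ⟨hap, hp⟩ := hT a has
  have hGp : ∀ y, ⟪y, a⟫_ℝ = 0 → G y = refl y (V a) := fun y hy => by
    simp only [G]
    rw [refl_of_perp hy]
  generalize V a = p at hap hp hGp
  have hpa : ⟪p, a⟫_ℝ = 0 := by rw [real_inner_comm]; exact hap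
  have hba : ⟪b, a⟫_ℝ = 0 := by rw [real_inner_comm]; exact hab
  have haa : ⟪a, a⟫_ℝ = 1 := by rw [real_inner_self_eq_norm_sq, ha, one_pow]
  have hpp : ⟪p, p⟫_ℝ = 1 := by rw [real_inner_self_eq_norm_sq, hp, one_pow]
  have hbb : ⟪b, b⟫_ℝ = 1 := by rw [real_inner_self_eq_norm_sq, hb, one_pow]
  have hpb : p ≠ b := by
    intro h
    obtain ⟨y, hy0, hy1, hy2, hy3⟩ := exists_perp hN a q p
    refine hcon y hy0 hy2 ?_
    change G y = b
    rw [hGp y hy1, refl_of_perp hy3, h]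
  have hc1 : ⟪p, b⟫_ℝ < 1 := inner_lt_one hp hb hpb
  have hc0 : -1 ≤ ⟪p, b⟫_ℝ := by
    have := abs_real_inner_le_norm p b
    rw [hp, hb, mul_one] at this
    exact (abs_le.mp this).1
  obtain ⟨e, he⟩ : ∃ e : E N, e = p - b := ⟨_, rfl⟩
  have he0 : e ≠ 0 := by rw [he]; exact sub_ne_zero.mpr hpb
  have hea : ⟪e, a⟫_ℝ = 0 := by rw [he, inner_sub_left, hpa, hba, sub_zero]
  have hep : ⟪e, p⟫_ℝ = 1 - ⟪p, b⟫_ℝ := by rw [he, inner_sub_left, hpp, real_inner_comm]
  have heq : ⟪e, q⟫_ℝ ≠ 0 := by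
    intro h
    refine hcon e he0 h ?_
    change G e = b
    have hn : ‖e‖ ^ 2 = 2 * (1 - ⟪p, b⟫_ℝ) := by
      rw [he, norm_sub_sq_real, hp, hb]
      ring
    have h1 : (1 - ⟪p, b⟫_ℝ) ≠ 0 := by linarith
    rw [hGp e hea, refl, hep, hn, div_self (mul_ne_zero two_ne_zero h1), one_smul, he]
    abel
  let k : E N → ℝ := fun z => ⟪z, q⟫_ℝ / ⟪e, q⟫_ℝ
  have hk : ∀ z, ⟪z - k z • e, q⟫_ℝ = 0 := fun z => by
    simp only [k]
    rw [inner_sub_left, real_inner_smul_left, div_mul_cancel₀ _ heq, sub_self]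
  let s : E N → ℝ := fun x => max (-⟪x, p⟫_ℝ) 0
  let u : E N → E N := fun x => x + s x • p
  obtain ⟨σ, hσ⟩ : ∃ σ : ℝ, σ = -(⟪c, q⟫_ℝ * ⟪e, q⟫_ℝ) := ⟨_, rfl⟩
  let T : E N → E N := fun x =>
    u x - (min (2 * s x) 1 * k (u x)) • e + max (2 * s x - 1) 0 • (σ • (a - k a • e))
      + (1 - ‖x‖) • e
  have hs : Continuous s := (continuous_id.inner continuous_const).neg.max continuous_const
  have hu : Continuous u := continuous_id.add (hs.smul continuous_const)
  have hkc : Continuous k := (continuous_id.inner continuous_const).div_const _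
  have hTc : Continuous T :=
    ((hu.sub ((((continuous_const.mul hs).min continuous_const).mul (hkc.comp hu)).smul
      continuous_const)).add ((((continuous_const.mul hs).sub continuous_const).max
        continuous_const).smul continuous_const)).add
      ((continuous_const.sub continuous_norm).smul continuous_const)
  have hTa : ∀ x, ⟪x, a⟫_ℝ = 0 → ⟪T x, a⟫_ℝ = max (2 * s x - 1) 0 * σ := fun x hx => by
    simp only [T, u, inner_add_left, inner_sub_left, real_inner_smul_left, hx, hpa, hea, haa]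
    ring
  have hD0 : ∀ x, ‖x‖ = 1 → 0 ≤ ⟪x, p⟫_ℝ → T x = x := fun x hx hxp => by
    have h0 : s x = 0 := max_eq_right (by linarith)
    simp only [T, u, h0, hx]
    simp
  have hσ0 : σ ≠ 0 := by rw [hσ]; exact neg_ne_zero.mpr (mul_ne_zero hcq heq)
  have hTc' : ∀ x ∈ Bl a, ∀ t : ℝ, T x ≠ t • c := by
    intro x hx t hm
    have hs0 : 0 ≤ s x := le_max_right _ _
    have hx1 : 0 ≤ 1 - ‖x‖ := by linarith [hx.2]
    have h1 := hTa x hx.1
    rw [hm, real_inner_smul_left] at h1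
    rcases le_or_gt (2 * s x) 1 with h | h
    · rw [max_eq_right (sub_nonpos.mpr h), zero_mul] at h1
      have ht : t = 0 := (mul_eq_zero.mp h1).resolve_right hca.ne'
      rw [ht, zero_smul] at hm
      have hTx : T x = u x - (2 * s x * k (u x)) • e + (1 - ‖x‖) • e := by
        simp only [T, min_eq_left h, max_eq_right (sub_nonpos.mpr h)]
        simp
      have h2 : u x = (2 * s x * k (u x) - (1 - ‖x‖)) • e := by
        rw [sub_smul, ← sub_eq_zero, ← hm, hTx]
        abel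
      have h3 : ⟪u x, p⟫_ℝ = (2 * s x * k (u x) - (1 - ‖x‖)) * (1 - ⟪p, b⟫_ℝ) := by
        rw [← hep, ← real_inner_smul_left, ← h2]
      have h4 : ⟪u x, p⟫_ℝ = ⟪x, p⟫_ℝ + s x := by
        simp only [u]
        rw [inner_add_left, real_inner_smul_left, hpp]
        simp
      rcases le_total 0 ⟪x, p⟫_ℝ with h5 | h5
      · have h0 : s x = 0 := max_eq_right (by linarith)
        rw [h4, h0] at h3
        have h6 : 1 - ‖x‖ = 0 := by nlinarith
        rw [h0, h6] at h2
        simp only [u, h0, zero_smul, add_zero, mul_zero, zero_mul, sub_zero] at h2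
        rw [h2, norm_zero] at h6
        norm_num at h6
      · have h0 : s x = -⟪x, p⟫_ℝ := max_eq_left (by linarith)
        have h6 : 2 * s x * k (u x) - (1 - ‖x‖) = 0 :=
          (mul_eq_zero.mp (by rw [← h3, h4, h0]; ring)).resolve_right
            (show 1 - ⟪p, b⟫_ℝ ≠ 0 by linarith)
        rw [h6, zero_smul] at h2
        have h7 : k (u x) = 0 := by simp only [k, h2, inner_zero_left, zero_div]
        have h8 : x = -(s x • p) := eq_neg_of_add_eq_zero_left h2
        have h9 : ‖x‖ = s x := by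
          rw [congrArg norm h8, norm_neg, norm_smul, hp, mul_one, Real.norm_of_nonneg hs0]
        rw [h7] at h6
        linarith
    · have hTx : T x = (u x - k (u x) • e) + max (2 * s x - 1) 0 • (σ • (a - k a • e))
          + (1 - ‖x‖) • e := by
        simp only [T, min_eq_right h.le]
        simp
      have h2 : t * ⟪c, q⟫_ℝ = (1 - ‖x‖) * ⟪e, q⟫_ℝ := by
        rw [← real_inner_smul_left, ← hm, hTx, inner_add_left, inner_add_left,
          real_inner_smul_left, real_inner_smul_left, real_inner_smul_left, hk, hk]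
        ring
      rw [max_eq_left (by linarith), hσ] at h1
      have h3 : 0 < (⟪c, q⟫_ℝ * ⟪e, q⟫_ℝ) ^ 2 := by positivity
      have h4 : t * ⟪c, a⟫_ℝ * (⟪c, q⟫_ℝ * ⟪e, q⟫_ℝ) < 0 := by
        rw [h1]; nlinarith
      have h5 : t * ⟪c, a⟫_ℝ * (⟪c, q⟫_ℝ * ⟪e, q⟫_ℝ) =
          (1 - ‖x‖) * ⟪e, q⟫_ℝ ^ 2 * ⟪c, a⟫_ℝ := by linear_combination ⟪c, a⟫_ℝ * ⟪e, q⟫_ℝ * h2
      have h6 : 0 ≤ (1 - ‖x‖) * ⟪e, q⟫_ℝ ^ 2 * ⟪c, a⟫_ℝ := by positivity
      linarith
  have hD1 : ∀ x, ⟪x, a⟫_ℝ = 0 → ‖x‖ = 1 → ⟪x, p⟫_ℝ ≤ 0 → T x ≠ 0 ∧ G (T x) ≠ b := by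
    intro x hxa hx hxp
    have h0 : s x = -⟪x, p⟫_ℝ := max_eq_left (by linarith)
    have hs0 : 0 ≤ s x := le_max_right _ _
    rcases le_or_gt (2 * s x) 1 with h | h
    · have hTx : T x = u x - (2 * s x * k (u x)) • e := by
        simp only [T, hx, min_eq_left h, max_eq_right (sub_nonpos.mpr h)]
        simp
      have hup : ⟪u x, p⟫_ℝ = 0 := by
        simp only [u]
        rw [inner_add_left, real_inner_smul_left, hpp, h0]
        ring
      have hline : ∀ m : ℝ, T x ≠ m • e := by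
        intro m hm
        have h1 : u x = (m + 2 * s x * k (u x)) • e := by
          rw [add_smul, ← hm, hTx]
          abel
        have h2 : (m + 2 * s x * k (u x)) * (1 - ⟪p, b⟫_ℝ) = 0 := by
          rw [← hep, ← real_inner_smul_left, ← h1, hup]
        have h3 : m + 2 * s x * k (u x) = 0 :=
          (mul_eq_zero.mp h2).resolve_right (by linarith)
        rw [h3, zero_smul] at h1
        have h4 : x = -(s x • p) := eq_neg_of_add_eq_zero_left h1
        have h5 : ‖x‖ = s x := by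
          rw [congrArg norm h4, norm_neg, norm_smul, hp, mul_one, Real.norm_of_nonneg hs0]
        linarith
      have hTxa : ⟪T x, a⟫_ℝ = 0 := by
        rw [hTa x hxa, max_eq_right (sub_nonpos.mpr h)]
        ring
      refine ⟨fun h1 => hline 0 (by rw [h1, zero_smul]), fun h1 => ?_⟩
      rw [hGp _ hTxa, refl] at h1
      generalize 2 * ⟪T x, p⟫_ℝ / ‖T x‖ ^ 2 = r at h1
      have h2 : e = r • T x := by
        rw [he, ← h1]
        abel
      have h3 : r ≠ 0 := fun h4 => he0 (by rw [h2, h4, zero_smul])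
      exact hline r⁻¹ (by rw [h2, smul_smul, inv_mul_cancel₀ h3, one_smul])
    · have hT0 : T x ≠ 0 := fun h1 => hTc' x ⟨hxa, hx.le⟩ 0 (by rw [h1, zero_smul])
      refine ⟨hT0, hcon _ hT0 ?_⟩
      have hTx : T x = (u x - k (u x) • e) + max (2 * s x - 1) 0 • (σ • (a - k a • e)) := by
        simp only [T, hx, min_eq_right h.le]
        simp
      rw [hTx, inner_add_left, real_inner_smul_left, real_inner_smul_left, hk, hk]
      ring
  have hT0 : ∀ x ∈ Bl a, T x ≠ 0 := fun x hx h1 => hTc' x hx 0 (by rw [h1, zero_smul])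
  have hGT : ContinuousOn (fun x => G (T x)) (Bl a) :=
    continuousOn_refl hTc.continuousOn
      (hV.comp (continuousOn_refl hTc.continuousOn continuousOn_const hT0) fun x hx => hsph _ (hTc' x hx)) hT0
  have hKc : IsCompact (Bl a ∩ ({x | ‖x‖ = 1} ∩ {x | ⟪x, p⟫_ℝ ≤ 0})) :=
    (isCompact_Bl a).inter_right ((isClosed_eq continuous_norm continuous_const).inter
      (isClosed_le (continuous_id.inner continuous_const) continuous_const))
  obtain ⟨δ, hδ, hδK⟩ := hKc.exists_forall_le' (f := fun x => 1 - ⟪G (T x), b⟫_ℝ) (a := 0)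
    (continuousOn_const.sub ((hGT.mono inter_subset_left).inner continuousOn_const))
    (fun x hx => sub_pos.mpr (inner_lt_one (hGn _ (hTc' x hx.1)) hb (hD1 x hx.1.1 hx.2.1 hx.2.2).2))
  obtain ⟨l, hl0, hl1, hlc, hlδ⟩ : ∃ l : ℝ, 0 ≤ l ∧ l < 1 ∧ ⟪p, b⟫_ℝ < l ∧ 1 - δ < l :=
    ⟨max (1 - δ / 2) ((1 + ⟪p, b⟫_ℝ) / 2), le_max_of_le_right (by linarith),
      max_lt (by linarith) (by linarith), lt_max_of_lt_right (by linarith),
      lt_max_of_lt_left (by linarith)⟩
  have hsub : ∀ z : E N, ‖z‖ = 1 → ∀ r : ℝ, 0 ≤ r → r < 1 → z - r • b ≠ 0 := by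
    intro z hz r hr0 hr1 h
    have h1 := congrArg norm (sub_eq_zero.mp h)
    rw [hz, norm_smul, hb, mul_one, Real.norm_of_nonneg hr0] at h1
    linarith
  let g : E N → E N := fun y => p - (2 * max ⟪y, p⟫_ℝ 0) • y
  have hg : Continuous g := by
    have h1 : Continuous fun y : E N => 2 * max ⟪y, p⟫_ℝ 0 :=
      continuous_const.mul ((continuous_id.inner continuous_const).max continuous_const)
    exact continuous_const.sub (h1.smul continuous_id)
  have hga : ∀ x ∈ Bl a, ⟪g x, a⟫_ℝ = 0 := fun x hx => by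
    simp only [g]
    rw [inner_sub_left, real_inner_smul_left, hpa, hx.1]
    ring
  have hg0 : ∀ x ∈ Bl a, ‖x‖ = 1 → 0 ≤ ⟪x, p⟫_ℝ → g x = G (T x) := fun x hx hx1 hxp => by
    rw [hD0 x hx1 hxp, hGp x hx.1, refl, hx1, one_pow, div_one]
    simp only [g, max_eq_left hxp]
  have hg1 : ∀ x, ⟪x, p⟫_ℝ ≤ 0 → g x = p := fun x hxp => by
    simp only [g, max_eq_right hxp]
    simp
  have hgn : ∀ x ∈ Bl a, ‖x‖ = 1 → ‖g x‖ = 1 := fun x hx hx1 => by
    rcases le_total 0 ⟪x, p⟫_ℝ with h | h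
    · rw [hg0 x hx hx1 h, hGn _ (hTc' x hx)]
    · rw [hg1 x h, hp]
  have E0 : Ext a (fun x => G (T x) - l • b) :=
    ⟨fun x => G (T x) - l • b, hGT.sub continuousOn_const, fun x hx => ⟨hsub _ (hGn _ (hTc' x hx)) l hl0 hl1, by
      rw [inner_sub_left, real_inner_smul_left, hGa _ (hTc' x hx), hba]; ring⟩, fun _ _ _ => rfl⟩
  have E1 : Ext a (fun x => g x - l • b) := by
    refine E0.step (hg.continuousOn.sub continuousOn_const) (fun x hx => by
      rw [inner_sub_left, real_inner_smul_left, hga x hx, hba]; ring) ?_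
    intro x hx hx1 t ht0 ht1 h
    rcases le_total 0 ⟪x, p⟫_ℝ with h1 | h1
    · rw [hg0 x hx hx1 h1, ← add_smul, sub_add_cancel, one_smul] at h
      exact hsub _ (hGn _ (hTc' x hx)) l hl0 hl1 h
    · have h2 := congrArg (fun z => ⟪z, b⟫_ℝ) h
      simp only [hg1 x h1, inner_add_left, inner_sub_left, real_inner_smul_left, hbb,
        inner_zero_left, mul_one] at h2
      have h3 : δ ≤ 1 - ⟪G (T x), b⟫_ℝ := hδK x ⟨hx, hx1, h1⟩
      have h4 : ⟪G (T x), b⟫_ℝ - l < 0 := by linarith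
      have h5 : ⟪p, b⟫_ℝ - l < 0 := by linarith
      rcases ht0.eq_or_lt with h6 | h6
      · subst h6
        linarith
      · nlinarith [mul_nonneg (sub_nonneg.mpr ht1) (neg_nonneg.mpr h4.le),
          mul_pos h6 (neg_pos.mpr h5)]
  have E2 : Ext a g := by
    refine E1.step hg.continuousOn hga ?_
    intro x hx hx1 t ht0 ht1 h
    refine hsub _ (hgn x hx hx1) ((1 - t) * l) (mul_nonneg (by linarith) hl0) ?_ ?_
    · nlinarith [mul_nonneg ht0 hl0]
    · rw [← h]
      module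
  exact not_ext_fold a p hp E2

end Pool.Agent.Ped
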