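import Pool.Agent.P.MP_e09f5c_gt.ANDefs
import Pool.Agent.P.MP_e09f5c_gt.Theta

/-! Wallis type integrals. -/

open MeasureTheory Real

namespace Pool.Agent.Ped

theorem thn_deriv (n : ℕ) (x : ℝ) :
    HasDerivAt (fun x : ℝ => x * |x| ^ n) ((n + 1) * |x| ^ n) x := by
  rcases lt_trichotomy x 0 with hx | hx | hx
  · have h1 : HasDerivAt (fun x : ℝ => -((-x) ^ (n + 1))) ((n + 1) * |x| ^ n) x := by
      have := (((hasDerivAt_id' x).neg).pow (n + 1)).neg
      refine HasDerivAt.congr_deriv this ?_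
      rw [abs_of_neg hx]
      simp
    refine h1.congr_of_eventuallyEq ?_
    filter_upwards [gt_mem_nhds hx] with y hy
    rw [abs_of_neg hy]
    ring
  · subst hx
    rw [hasDerivAt_iff_tendsto_slope_zero]
    have hc : Continuous fun t : ℝ => |t| ^ n := by fun_prop
    have h0 : ((n : ℝ) + 1) * |(0 : ℝ)| ^ n = |(0 : ℝ)| ^ n := by
      rcases n with _ | n <;> simp
    rw [h0]
    refine ((hc.tendsto 0).mono_left nhdsWithin_le_nhds).congr' ?_
    filter_upwards [self_mem_nhdsWithin] with t ht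
    have ht' : t ≠ 0 := ht
    simp only [zero_add, zero_mul, sub_zero, smul_eq_mul]
    field_simp
  · have h1 : HasDerivAt (fun x : ℝ => x ^ (n + 1)) ((n + 1) * |x| ^ n) x := by
      have := hasDerivAt_pow (n + 1) x
      refine HasDerivAt.congr_deriv this ?_
      rw [abs_of_pos hx]
      simp
    refine h1.congr_of_eventuallyEq ?_
    filter_upwards [lt_mem_nhds hx] with y hy
    rw [abs_of_pos hy]
    ring

theorem thn_int (n k : ℕ) :
    IntervalIntegrable (fun θ : ℝ => |cos θ| ^ n * (sin θ ^ 2) ^ k) volume (-π) π :=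
  Continuous.intervalIntegrable (by fun_prop) _ _

theorem WZ_succ (n k : ℕ) : WZ n (k + 1) = WZ n k * (2 * k + 1) / (n + 2 * k + 2) := by
  have hd : ∀ θ : ℝ, HasDerivAt (fun θ => sin θ ^ (2 * k + 1) * (cos θ * |cos θ| ^ n))
      ((2 * k + 1) * (|cos θ| ^ n * (sin θ ^ 2) ^ k)
        - (n + 2 * k + 2) * (|cos θ| ^ n * (sin θ ^ 2) ^ (k + 1))) θ := fun θ => by
    have h1 := (hasDerivAt_sin θ).pow (2 * k + 1)
    have h2 := (thn_deriv n (cos θ)).comp θ (hasDerivAt_cos θ)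
    refine HasDerivAt.congr_deriv (h1.mul h2) ?_
    have hc : cos θ ^ 2 = 1 - sin θ ^ 2 := cos_sq' θ
    simp only [Nat.add_sub_cancel, Pi.pow_apply]
    push_cast
    rw [pow_succ (sin θ) (2 * k), pow_succ (sin θ ^ 2) k, pow_mul]
    linear_combination ((2 * k + 1) * (sin θ ^ 2) ^ k * |cos θ| ^ n) * hc
  have hI := intervalIntegral.integral_eq_sub_of_hasDerivAt (a := -π) (b := π)
    (fun x _ => hd x) (Continuous.intervalIntegrable (by fun_prop) _ _)
  rw [intervalIntegral.integral_sub ((thn_int n k).const_mul _) ((thn_int n (k + 1)).const_mul _),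
    intervalIntegral.integral_const_mul, intervalIntegral.integral_const_mul] at hI
  simp only [sin_neg, sin_pi, neg_zero, ne_eq, Nat.add_eq_zero_iff, one_ne_zero, and_false,
    not_false_eq_true, zero_pow, zero_mul, sub_self] at hI
  have hp : ((n : ℝ) + 2 * k + 2) ≠ 0 := by positivity
  rw [eq_div_iff hp]
  unfold WZ
  linear_combination -hI

theorem WZ_add_two (n : ℕ) : WZ (n + 2) 0 = WZ n 0 * (n + 1) / (n + 2) := by
  have h1 : WZ (n + 2) 0 = WZ n 0 - WZ n 1 := by
    unfold WZ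
    rw [← intervalIntegral.integral_sub (thn_int n 0) (thn_int n 1)]
    congr 1
    funext θ
    rw [pow_add, sq_abs, cos_sq']
    ring
  have h2 := WZ_succ n 0
  rw [zero_add] at h2
  rw [h1, h2]
  have hp : ((n : ℝ) + 2) ≠ 0 := by positivity
  push_cast
  field_simp
  ring

theorem WZ_zero : WZ 0 0 = 2 * π := by
  unfold WZ
  simp
  ring

theorem thn_one : WZ 1 0 = 4 := by
  have := int_cos_sin 0
  unfold WZ
  simpa using this

theorem WZ_pos (n : ℕ) : 0 < WZ n 0 := by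
  induction n using Nat.twoStepInduction with
  | zero => rw [WZ_zero]; positivity
  | one => rw [thn_one]; norm_num
  | more n h _ => rw [WZ_add_two]; positivity

theorem thn_five : WZ 5 0 = 32 / 15 := by
  have h3 := WZ_add_two 1
  have h5 := WZ_add_two 3
  rw [thn_one] at h3
  norm_num at h3 h5
  rw [h5, h3]
  norm_num

theorem thn_six : WZ 6 0 = 5 * π / 8 := by
  have h2 := WZ_add_two 0
  have h4 := WZ_add_two 2
  have h6 := WZ_add_two 4
  rw [WZ_zero] at h2
  norm_num at h2 h4 h6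
  rw [h6, h4, h2]
  ring

theorem WZ_lower {n : ℕ} (hn : 5 ≤ n) : 10 ≤ n * WZ n 0 := by
  obtain ⟨m, rfl⟩ := Nat.exists_eq_add_of_le' hn
  clear hn
  induction m using Nat.twoStepInduction with
  | zero => rw [zero_add, thn_five]; norm_num
  | one =>
    rw [show 1 + 5 = 6 from rfl, thn_six]
    have := pi_gt_three
    push_cast
    linarith
  | more m h _ =>
    rw [show m + 2 + 5 = (m + 5) + 2 by ring, WZ_add_two]
    have hp := WZ_pos (m + 5)
    have e : (((m + 5 + 2 : ℕ) : ℝ)) * (WZ (m + 5) 0 * (((m + 5 : ℕ) : ℝ) + 1)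
        / (((m + 5 : ℕ) : ℝ) + 2)) = ((m + 5 : ℕ) : ℝ) * WZ (m + 5) 0 + WZ (m + 5) 0 := by
      push_cast
      field_simp
    rw [e]
    linarith

theorem WZ_half {n : ℕ} (hn : 5 ≤ n) : 2 * π * √(1 / 2) ^ n ≤ 53 / 100 * WZ n 0 := by
  obtain ⟨m, rfl⟩ := Nat.exists_eq_add_of_le' hn
  clear hn
  have hs : √(1 / 2 : ℝ) ^ 2 = 1 / 2 := Real.sq_sqrt (by norm_num)
  have hs1 : √(1 / 2 : ℝ) ≤ 70711 / 100000 := by
    rw [Real.sqrt_le_left (by norm_num)]
    norm_num
  have hs0 : 0 ≤ √(1 / 2 : ℝ) := Real.sqrt_nonneg _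
  induction m using Nat.twoStepInduction with
  | zero =>
    rw [zero_add, thn_five]
    have e : √(1 / 2 : ℝ) ^ 5 = (√(1 / 2 : ℝ) ^ 2) ^ 2 * √(1 / 2 : ℝ) := by ring
    rw [e, hs]
    have h1 : π * √(1 / 2 : ℝ) ≤ 3.15 * (70711 / 100000) :=
      mul_le_mul pi_lt_d2.le hs1 hs0 (by norm_num)
    linarith
  | one =>
    rw [show 1 + 5 = 6 from rfl, thn_six]
    have e : √(1 / 2 : ℝ) ^ 6 = (√(1 / 2 : ℝ) ^ 2) ^ 3 := by ring
    rw [e, hs]
    have := pi_pos
    linarith
  | more m h _ =>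
    rw [show m + 2 + 5 = (m + 5) + 2 by ring, WZ_add_two, pow_add, hs]
    have hp := WZ_pos (m + 5)
    have hm : (0 : ℝ) ≤ ((m + 5 : ℕ) : ℝ) := Nat.cast_nonneg _
    have e : WZ (m + 5) 0 * (1 / 2)
        ≤ WZ (m + 5) 0 * (((m + 5 : ℕ) : ℝ) + 1) / (((m + 5 : ℕ) : ℝ) + 2) := by
      rw [mul_div_assoc]
      refine mul_le_mul_of_nonneg_left ?_ hp.le
      rw [le_div_iff₀ (by positivity)]
      linarith
    linarith

/-- Integral of a power of `|cos|` times a polynomial of degree two in `sin ^ 2`. -/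
theorem int_pow_poly (n : ℕ) (a0 a1 a2 : ℝ) :
    ∫ θ in (-π)..π, |cos θ| ^ n * (a0 + a1 * sin θ ^ 2 + a2 * (sin θ ^ 2) ^ 2)
      = WZ n 0 * (a0 + a1 / (n + 2) + 3 * a2 / ((n + 2) * (n + 4))) := by
  have h : ∫ θ in (-π)..π, |cos θ| ^ n * (a0 + a1 * sin θ ^ 2 + a2 * (sin θ ^ 2) ^ 2)
      = a0 * WZ n 0 + a1 * WZ n 1 + a2 * WZ n 2 := by
    unfold WZ
    rw [← intervalIntegral.integral_const_mul, ← intervalIntegral.integral_const_mul,
      ← intervalIntegral.integral_const_mul,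
      ← intervalIntegral.integral_add ((thn_int n 0).const_mul _) ((thn_int n 1).const_mul _),
      ← intervalIntegral.integral_add
        (((thn_int n 0).const_mul _).add ((thn_int n 1).const_mul _)) ((thn_int n 2).const_mul _)]
    congr 1
    funext θ
    ring
  have h1 := WZ_succ n 0
  have h2 := WZ_succ n 1
  rw [zero_add] at h1
  rw [show 1 + 1 = 2 from rfl] at h2
  rw [h, h2, h1]
  have hp : ((n : ℝ) + 2) ≠ 0 := by positivity
  have hq : ((n : ℝ) + 4) ≠ 0 := by positivity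
  have e : ((n : ℝ) + 2 * ((1 : ℕ) : ℝ) + 2) = n + 4 := by push_cast; ring
  rw [e]
  push_cast
  field_simp
  ring

end Pool.Agent.Ped
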