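import Pool.Agent.P.MP_e09f5c_gt.Defs
import Pool.Agent.Lib.Brouwer.Basic

/-! The topological input: the reflected field is onto on every hyperplane. -/

open MeasureTheory Metric Set Matrix Filter Topology
open scoped InnerProductSpace ENNReal

namespace Pool.Agent.Ped

variable {N : ℕ}

namespace Topo

/-- The unit ball of the hyperplane orthogonal to `a`. -/
def Bl (a : E N) : Set (E N) := {x | ⟪x, a⟫_ℝ = 0 ∧ ‖x‖ ≤ 1}

/-- The boundary values `f` extend to a field on the ball without zeros. -/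
def Ext (a : E N) (f : E N → E N) : Prop :=
  ∃ Z : E N → E N, ContinuousOn Z (Bl a) ∧ (∀ x ∈ Bl a, Z x ≠ 0 ∧ ⟪Z x, a⟫_ℝ = 0) ∧
    ∀ x ∈ Bl a, ‖x‖ = 1 → Z x = f x

theorem isClosed_perp (a : E N) : IsClosed {x : E N | ⟪x, a⟫_ℝ = 0} :=
  isClosed_eq (continuous_id.inner continuous_const) continuous_const

theorem isCompact_Bl (a : E N) : IsCompact (Bl a) := by
  have : Bl a = closedBall (0 : E N) 1 ∩ {x : E N | ⟪x, a⟫_ℝ = 0} := by
    ext x
    simp [Bl, and_comm]
  rw [this]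
  exact (isCompact_closedBall _ _).inter_right (isClosed_perp a)

theorem convex_Bl (a : E N) : Convex ℝ (Bl a) := by
  intro x hx y hy s t hs ht hst
  refine ⟨?_, ?_⟩
  · rw [inner_add_left, real_inner_smul_left, real_inner_smul_left, hx.1, hy.1]
    ring
  · have h1 : x ∈ closedBall (0 : E N) 1 := by simpa using hx.2
    have h2 : y ∈ closedBall (0 : E N) 1 := by simpa using hy.2
    simpa using convex_closedBall (0 : E N) 1 h1 h2 hs ht hst

theorem not_ext_neg (a : E N) : ¬ Ext a (fun x => -x) := by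
  rintro ⟨Z, hZ, h0, h1⟩
  have hn : ∀ x ∈ Bl a, ‖(‖Z x‖⁻¹ • Z x : E N)‖ = 1 := fun x hx => by
    rw [norm_smul, norm_inv, norm_norm, inv_mul_cancel₀ (norm_ne_zero_iff.mpr (h0 x hx).1)]
  obtain ⟨x, hx, hfx⟩ := Pool.Agent.Lib.Brouwer.brouwer (Bl a) (isCompact_Bl a) (convex_Bl a)
    ⟨0, by simp [Bl]⟩ (fun x => ‖Z x‖⁻¹ • Z x)
    ((hZ.norm.inv₀ fun x hx => norm_ne_zero_iff.mpr (h0 x hx).1).smul hZ)
    (fun x hx => ⟨by rw [real_inner_smul_left, (h0 x hx).2, mul_zero], (hn x hx).le⟩)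
  have hx1 : ‖x‖ = 1 := by rw [← hfx]; exact hn x hx
  have hz : Z x = -x := h1 x hx hx1
  simp only [hz, norm_neg, hx1, inv_one, one_smul] at hfx
  have h2 : (2 : ℝ) • x = 0 := by
    rw [two_smul]
    nth_rewrite 1 [← hfx]
    exact neg_add_cancel x
  have : x = 0 := by simpa using h2
  rw [this, norm_zero] at hx1
  exact zero_ne_one hx1

theorem Ext.step {a : E N} {f f' : E N → E N} (h : Ext a f) (hf' : ContinuousOn f' (Bl a))
    (hfa : ∀ x ∈ Bl a, ⟪f' x, a⟫_ℝ = 0)
    (hne : ∀ x ∈ Bl a, ‖x‖ = 1 → ∀ t : ℝ, 0 ≤ t → t ≤ 1 → (1 - t) • f x + t • f' x ≠ 0) :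
    Ext a f' := by
  obtain ⟨Z, hZ, h0, h1⟩ := h
  let R : E N → E N := fun x => (max (1 / 2) ‖x‖)⁻¹ • x
  have hpos : ∀ x : E N, 0 < max (1 / 2) ‖x‖ := fun x =>
    lt_of_lt_of_le (by norm_num) (le_max_left _ _)
  have hR : Continuous R :=
    ((continuous_const.max continuous_norm).inv₀ fun x => (hpos x).ne').smul continuous_id
  have hRn : ∀ x, ‖R x‖ = (max (1 / 2) ‖x‖)⁻¹ * ‖x‖ := fun x => by
    simp only [R]
    rw [norm_smul, norm_inv, Real.norm_of_nonneg (hpos x).le]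
  have hRm : MapsTo R (Bl a) (Bl a) := fun x hx => by
    refine ⟨?_, ?_⟩
    · simp only [R]
      rw [real_inner_smul_left, hx.1, mul_zero]
    · rw [hRn, inv_mul_le_iff₀ (hpos x), mul_one]
      exact le_max_right _ _
  let c : E N → ℝ := fun x => max 0 (2 * ‖x‖ - 1)
  have hc : Continuous c :=
    continuous_const.max ((continuous_const.mul continuous_norm).sub continuous_const)
  have hZR : ContinuousOn (fun x => Z (R x)) (Bl a) := hZ.comp hR.continuousOn hRm
  have hfR : ContinuousOn (fun x => f' (R x)) (Bl a) := hf'.comp hR.continuousOn hRm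
  refine ⟨fun x => (1 - c x) • Z (R x) + c x • f' (R x),
    ((continuous_const.sub hc).continuousOn.smul hZR).add (hc.continuousOn.smul hfR), ?_, ?_⟩
  · intro x hx
    refine ⟨?_, ?_⟩
    · rcases le_total ‖x‖ (1 / 2) with hle | hle
      · have : c x = 0 := max_eq_left (by linarith)
        simp only [this, sub_zero, one_smul, zero_smul, add_zero]
        exact (h0 _ (hRm hx)).1
      · have hn1 : ‖R x‖ = 1 := by
          rw [hRn, max_eq_right hle, inv_mul_cancel₀ (by linarith)]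
        simp only [h1 _ (hRm hx) hn1]
        refine hne _ (hRm hx) hn1 _ (le_max_left _ _) (max_le zero_le_one ?_)
        have := hx.2
        linarith
    · rw [inner_add_left, real_inner_smul_left, real_inner_smul_left, (h0 _ (hRm hx)).2,
        hfa _ (hRm hx)]
      ring
  · intro x _ hx1
    have e1 : c x = 1 := by
      simp only [c, hx1]
      norm_num
    have e2 : R x = x := by
      simp only [R, hx1]
      rw [max_eq_right (by norm_num), inv_one, one_smul]
    simp only [e1, e2, sub_self, zero_smul, one_smul, zero_add]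

theorem inner_refl (y z w : E N) : ⟪refl y z, w⟫_ℝ = ⟪z, refl y w⟫_ℝ := by
  simp only [refl, inner_sub_left, inner_sub_right, real_inner_smul_left, real_inner_smul_right,
    real_inner_comm y z]
  ring

theorem norm_refl (y z : E N) : ‖refl y z‖ = ‖z‖ := by
  by_cases hy : y = 0
  · simp [refl, hy]
  have hn : ‖y‖ ≠ 0 := norm_ne_zero_iff.mpr hy
  have : ‖refl y z‖ ^ 2 = ‖z‖ ^ 2 := by
    rw [refl, norm_sub_sq_real, real_inner_smul_right, norm_smul, mul_pow, Real.norm_eq_abs,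
      sq_abs, real_inner_comm y z]
    field_simp
    ring
  exact (pow_left_inj₀ (norm_nonneg _) (norm_nonneg _) two_ne_zero).mp this

theorem refl_of_perp {y z : E N} (h : ⟪y, z⟫_ℝ = 0) : refl y z = z := by
  simp [refl, h]

theorem continuousOn_refl {f g : E N → E N} {s : Set (E N)} (hf : ContinuousOn f s)
    (hg : ContinuousOn g s) (h0 : ∀ x ∈ s, f x ≠ 0) :
    ContinuousOn (fun x => refl (f x) (g x)) s := by
  have h1 : ContinuousOn (fun x => 2 * ⟪f x, g x⟫_ℝ / ‖f x‖ ^ 2) s :=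
    (continuousOn_const.mul (hf.inner hg)).div (hf.norm.pow 2)
      fun x hx => pow_ne_zero 2 (norm_ne_zero_iff.mpr (h0 x hx))
  exact hg.sub (h1.smul hf)

theorem exists_perp (hN : 2 ≤ N) (a b c : E N) :
    ∃ y : E N, y ≠ 0 ∧ ⟪y, a⟫_ℝ = 0 ∧ ⟪y, b⟫_ℝ = 0 ∧ ⟪y, c⟫_ℝ = 0 := by
  let L : E N →ₗ[ℝ] ℝ × ℝ × ℝ :=
    (innerSL ℝ a).toLinearMap.prod
      ((innerSL ℝ b).toLinearMap.prod (innerSL ℝ c).toLinearMap)
  have hk : LinearMap.ker L ≠ ⊥ := by
    apply LinearMap.ker_ne_bot_of_finrank_lt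
    simp only [Module.finrank_prod, Module.finrank_self, finrank_euclideanSpace, Fintype.card_fin]
    omega
  obtain ⟨y, hy, hy0⟩ := Submodule.exists_mem_ne_zero_of_ne_bot hk
  have h : (⟪a, y⟫_ℝ, ⟪b, y⟫_ℝ, ⟪c, y⟫_ℝ) = (0 : ℝ × ℝ × ℝ) := hy
  simp only [Prod.mk_eq_zero] at h
  exact ⟨y, hy0, by rw [real_inner_comm]; exact h.1, by rw [real_inner_comm]; exact h.2.1,
    by rw [real_inner_comm]; exact h.2.2⟩

theorem inner_lt_one {u v : E N} (hu : ‖u‖ = 1) (hv : ‖v‖ = 1) (h : u ≠ v) : ⟪u, v⟫_ℝ < 1 :=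
  (inner_lt_one_iff_real_of_norm_eq_one hu hv).mpr h

/-- The boundary map of degree one is not extendable. -/
theorem not_ext_fold (a p : E N) (hp : ‖p‖ = 1) :
    ¬ Ext a (fun y => p - (2 * max ⟪y, p⟫_ℝ 0) • y) := by
  intro h
  refine not_ext_neg a (h.step continuous_neg.continuousOn
    (fun x hx => by rw [inner_neg_left, hx.1, neg_zero]) ?_)
  intro x _ hx1 t ht0 ht1 he
  have hm : 0 ≤ max ⟪x, p⟫_ℝ 0 := le_max_right _ _
  set m := max ⟪x, p⟫_ℝ 0 with hmdef
  have e : (1 - t) • p = ((1 - t) * (2 * m) + t) • x := by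
    rw [← sub_eq_zero, ← he]
    module
  have e1 := congrArg (fun z => ⟪z, p⟫_ℝ) e
  have e2 := congrArg (fun z => ⟪z, x⟫_ℝ) e
  simp only [real_inner_smul_left, real_inner_self_eq_norm_sq, hp, hx1, one_pow, mul_one,
    real_inner_comm x p] at e1 e2
  have hle : ⟪x, p⟫_ℝ ≤ m := le_max_left _ _
  have h1t : 0 ≤ 1 - t := by linarith
  have h3 : (1 - t) * ⟪x, p⟫_ℝ ≤ (1 - t) * m := mul_le_mul_of_nonneg_left hle h1t
  have h4 : 0 ≤ (1 - t) * m := mul_nonneg h1t hm
  have h5 : t = 0 := by nlinarith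
  subst h5
  have h6 : m = 0 := by nlinarith
  rw [h6] at e1
  norm_num at e1

end Topo

open Topo in
theorem onto (hN : 2 ≤ N) (V : E N → E N) (hV : ContinuousOn V (sphere 0 1))
    (hT : ∀ x ∈ sphere (0 : E N) 1, ⟪x, V x⟫_ℝ = 0 ∧ ‖V x‖ = 1)
    (a b q : E N) (ha : ‖a‖ = 1) (hb : ‖b‖ = 1) (hab : ⟪a, b⟫_ℝ = 0) :
    ∃ y : E N, y ≠ 0 ∧ ⟪y, q⟫_ℝ = 0 ∧ refl y (V (refl y a)) = b := by
  by_contra hcon
  push Not at hcon
  let G : E N → E N := fun y => refl y (V (refl y a))
  have hsph : ∀ y, refl y a ∈ sphere (0 : E N) 1 := fun y => by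
    rw [mem_sphere_zero_iff_norm, norm_refl, ha]
  have hGn : ∀ y, ‖G y‖ = 1 := fun y => by
    simp only [G]
    rw [norm_refl, (hT _ (hsph y)).2]
  have hGa : ∀ y, ⟪G y, a⟫_ℝ = 0 := fun y => by
    simp only [G]
    rw [inner_refl, real_inner_comm, (hT _ (hsph y)).1]
  have has : a ∈ sphere (0 : E N) 1 := mem_sphere_zero_iff_norm.mpr ha
  obtain ⟨hap, hp⟩ := hT a has
  have hGp : ∀ y, ⟪y, a⟫_ℝ = 0 → G y = refl y (V a) := fun y hy => by
    simp only [G]
    rw [refl_of_perp hy]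
  generalize V a = p at hap hp hGp
  have hpa : ⟪p, a⟫_ℝ = 0 := by rw [real_inner_comm]; exact hap
  have hba : ⟪b, a⟫_ℝ = 0 := by rw [real_inner_comm]; exact hab
  have haa : ⟪a, a⟫_ℝ = 1 := by rw [real_inner_self_eq_norm_sq, ha, one_pow]
  have hpp : ⟪p, p⟫_ℝ = 1 := by rw [real_inner_self_eq_norm_sq, hp, one_pow]
  have hbb : ⟪b, b⟫_ℝ = 1 := by rw [real_inner_self_eq_norm_sq, hb, one_pow]
  have hpb : p ≠ b := by
    intro h
    obtain ⟨y, hy0, hy1, hy2, hy3⟩ := exists_perp hN a q p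
    refine hcon y hy0 hy2 ?_
    change G y = b
    rw [hGp y hy1, refl_of_perp hy3, h]
  have hc1 : ⟪p, b⟫_ℝ < 1 := inner_lt_one hp hb hpb
  have hc0 : -1 ≤ ⟪p, b⟫_ℝ := by
    have := abs_real_inner_le_norm p b
    rw [hp, hb, mul_one] at this
    exact (abs_le.mp this).1
  obtain ⟨e, he⟩ : ∃ e : E N, e = p - b := ⟨_, rfl⟩
  have he0 : e ≠ 0 := by rw [he]; exact sub_ne_zero.mpr hpb
  have hea : ⟪e, a⟫_ℝ = 0 := by rw [he, inner_sub_left, hpa, hba, sub_zero]
  have hep : ⟪e, p⟫_ℝ = 1 - ⟪p, b⟫_ℝ := by rw [he, inner_sub_left, hpp, real_inner_comm]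
  have heq : ⟪e, q⟫_ℝ ≠ 0 := by
    intro h
    refine hcon e he0 h ?_
    change G e = b
    have hn : ‖e‖ ^ 2 = 2 * (1 - ⟪p, b⟫_ℝ) := by
      rw [he, norm_sub_sq_real, hp, hb]
      ring
    have h1 : (1 - ⟪p, b⟫_ℝ) ≠ 0 := by linarith
    rw [hGp e hea, refl, hep, hn, div_self (mul_ne_zero two_ne_zero h1), one_smul, he]
    abel
  let k : E N → ℝ := fun z => ⟪z, q⟫_ℝ / ⟪e, q⟫_ℝ
  have hk : ∀ z, ⟪z - k z • e, q⟫_ℝ = 0 := fun z => by
    simp only [k]
    rw [inner_sub_left, real_inner_smul_left, div_mul_cancel₀ _ heq, sub_self]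
  let s : E N → ℝ := fun x => max (-⟪x, p⟫_ℝ) 0
  let u : E N → E N := fun x => x + s x • p
  let T : E N → E N := fun x =>
    u x - (min (2 * s x) 1 * k (u x)) • e + max (2 * s x - 1) 0 • (a - k a • e) + (1 - ‖x‖) • a
  have hs : Continuous s := (continuous_id.inner continuous_const).neg.max continuous_const
  have hu : Continuous u := continuous_id.add (hs.smul continuous_const)
  have hkc : Continuous k := (continuous_id.inner continuous_const).div_const _
  have hTc : Continuous T :=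
    ((hu.sub ((((continuous_const.mul hs).min continuous_const).mul (hkc.comp hu)).smul
      continuous_const)).add ((((continuous_const.mul hs).sub continuous_const).max
        continuous_const).smul continuous_const)).add
      ((continuous_const.sub continuous_norm).smul continuous_const)
  have hTa : ∀ x, ⟪x, a⟫_ℝ = 0 → ⟪T x, a⟫_ℝ = max (2 * s x - 1) 0 + (1 - ‖x‖) := fun x hx => by
    simp only [T, u, inner_add_left, inner_sub_left, real_inner_smul_left, hx, hpa, hea, haa]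
    ring
  have hD0 : ∀ x, ‖x‖ = 1 → 0 ≤ ⟪x, p⟫_ℝ → T x = x := fun x hx hxp => by
    have h0 : s x = 0 := max_eq_right (by linarith)
    simp only [T, u, h0, hx]
    simp
  have hD1 : ∀ x, ⟪x, a⟫_ℝ = 0 → ‖x‖ = 1 → ⟪x, p⟫_ℝ ≤ 0 → T x ≠ 0 ∧ G (T x) ≠ b := by
    intro x hxa hx hxp
    have h0 : s x = -⟪x, p⟫_ℝ := max_eq_left (by linarith)
    have hs0 : 0 ≤ s x := le_max_right _ _
    rcases le_or_gt (2 * s x) 1 with h | h
    · have hTx : T x = u x - (2 * s x * k (u x)) • e := by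
        simp only [T, hx, min_eq_left h, max_eq_right (sub_nonpos.mpr h)]
        simp
      have hup : ⟪u x, p⟫_ℝ = 0 := by
        simp only [u]
        rw [inner_add_left, real_inner_smul_left, hpp, h0]
        ring
      have hline : ∀ m : ℝ, T x ≠ m • e := by
        intro m hm
        have h1 : u x = (m + 2 * s x * k (u x)) • e := by
          rw [add_smul, ← hm, hTx]
          abel
        have h2 : (m + 2 * s x * k (u x)) * (1 - ⟪p, b⟫_ℝ) = 0 := by
          rw [← hep, ← real_inner_smul_left, ← h1, hup]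
        have h3 : m + 2 * s x * k (u x) = 0 :=
          (mul_eq_zero.mp h2).resolve_right (by linarith)
        rw [h3, zero_smul] at h1
        have h4 : x = -(s x • p) := eq_neg_of_add_eq_zero_left h1
        have h5 : ‖x‖ = s x := by
          rw [congrArg norm h4, norm_neg, norm_smul, hp, mul_one, Real.norm_of_nonneg hs0]
        linarith
      have hTxa : ⟪T x, a⟫_ℝ = 0 := by
        rw [hTa x hxa, hx, max_eq_right (sub_nonpos.mpr h)]
        ring
      refine ⟨fun h1 => hline 0 (by rw [h1, zero_smul]), fun h1 => ?_⟩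
      rw [hGp _ hTxa, refl] at h1
      generalize 2 * ⟪T x, p⟫_ℝ / ‖T x‖ ^ 2 = r at h1
      have h2 : e = r • T x := by
        rw [he, ← h1]
        abel
      have h3 : r ≠ 0 := fun h4 => he0 (by rw [h2, h4, zero_smul])
      exact hline r⁻¹ (by rw [h2, smul_smul, inv_mul_cancel₀ h3, one_smul])
    · have hT0 : T x ≠ 0 := by
        intro h1
        have h2 := hTa x hxa
        rw [h1, inner_zero_left, hx, max_eq_left (by linarith)] at h2
        linarith
      refine ⟨hT0, hcon _ hT0 ?_⟩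
      have hTx : T x = (u x - k (u x) • e) + max (2 * s x - 1) 0 • (a - k a • e) := by
        simp only [T, hx, min_eq_right h.le]
        simp
      rw [hTx, inner_add_left, real_inner_smul_left, hk, hk]
      ring
  have hT0 : ∀ x ∈ Bl a, T x ≠ 0 := by
    intro x hx
    rcases hx.2.eq_or_lt with h1 | h1
    · rcases le_total 0 ⟪x, p⟫_ℝ with h2 | h2
      · rw [hD0 x h1 h2]
        intro h3
        rw [h3, norm_zero] at h1
        exact zero_ne_one h1
      · exact (hD1 x hx.1 h1 h2).1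
    · intro h3
      have h2 := hTa x hx.1
      rw [h3, inner_zero_left] at h2
      have := le_max_right (2 * s x - 1) 0
      linarith
  have hGT : ContinuousOn (fun x => G (T x)) (Bl a) :=
    continuousOn_refl hTc.continuousOn
      (hV.comp (continuousOn_refl hTc.continuousOn continuousOn_const hT0) fun x _ => hsph _) hT0
  have hKc : IsCompact (Bl a ∩ ({x | ‖x‖ = 1} ∩ {x | ⟪x, p⟫_ℝ ≤ 0})) :=
    (isCompact_Bl a).inter_right ((isClosed_eq continuous_norm continuous_const).inter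
      (isClosed_le (continuous_id.inner continuous_const) continuous_const))
  obtain ⟨δ, hδ, hδK⟩ := hKc.exists_forall_le' (f := fun x => 1 - ⟪G (T x), b⟫_ℝ) (a := 0)
    (continuousOn_const.sub ((hGT.mono inter_subset_left).inner continuousOn_const))
    (fun x hx => sub_pos.mpr (inner_lt_one (hGn _) hb (hD1 x hx.1.1 hx.2.1 hx.2.2).2))
  obtain ⟨l, hl0, hl1, hlc, hlδ⟩ : ∃ l : ℝ, 0 ≤ l ∧ l < 1 ∧ ⟪p, b⟫_ℝ < l ∧ 1 - δ < l :=
    ⟨max (1 - δ / 2) ((1 + ⟪p, b⟫_ℝ) / 2), le_max_of_le_right (by linarith),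
      max_lt (by linarith) (by linarith), lt_max_of_lt_right (by linarith),
      lt_max_of_lt_left (by linarith)⟩
  have hsub : ∀ z : E N, ‖z‖ = 1 → ∀ r : ℝ, 0 ≤ r → r < 1 → z - r • b ≠ 0 := by
    intro z hz r hr0 hr1 h
    have h1 := congrArg norm (sub_eq_zero.mp h)
    rw [hz, norm_smul, hb, mul_one, Real.norm_of_nonneg hr0] at h1
    linarith
  let g : E N → E N := fun y => p - (2 * max ⟪y, p⟫_ℝ 0) • y
  have hg : Continuous g := by
    have h1 : Continuous fun y : E N => 2 * max ⟪y, p⟫_ℝ 0 :=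
      continuous_const.mul ((continuous_id.inner continuous_const).max continuous_const)
    exact continuous_const.sub (h1.smul continuous_id)
  have hga : ∀ x ∈ Bl a, ⟪g x, a⟫_ℝ = 0 := fun x hx => by
    simp only [g]
    rw [inner_sub_left, real_inner_smul_left, hpa, hx.1]
    ring
  have hg0 : ∀ x ∈ Bl a, ‖x‖ = 1 → 0 ≤ ⟪x, p⟫_ℝ → g x = G (T x) := fun x hx hx1 hxp => by
    rw [hD0 x hx1 hxp, hGp x hx.1, refl, hx1, one_pow, div_one]
    simp only [g, max_eq_left hxp]
  have hg1 : ∀ x, ⟪x, p⟫_ℝ ≤ 0 → g x = p := fun x hxp => by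
    simp only [g, max_eq_right hxp]
    simp
  have hgn : ∀ x ∈ Bl a, ‖x‖ = 1 → ‖g x‖ = 1 := fun x hx hx1 => by
    rcases le_total 0 ⟪x, p⟫_ℝ with h | h
    · rw [hg0 x hx hx1 h, hGn]
    · rw [hg1 x h, hp]
  have E0 : Ext a (fun x => G (T x) - l • b) :=
    ⟨fun x => G (T x) - l • b, hGT.sub continuousOn_const, fun x _ => ⟨hsub _ (hGn _) l hl0 hl1, by
      rw [inner_sub_left, real_inner_smul_left, hGa, hba]; ring⟩, fun _ _ _ => rfl⟩
  have E1 : Ext a (fun x => g x - l • b) := by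
    refine E0.step (hg.continuousOn.sub continuousOn_const) (fun x hx => by
      rw [inner_sub_left, real_inner_smul_left, hga x hx, hba]; ring) ?_
    intro x hx hx1 t ht0 ht1 h
    rcases le_total 0 ⟪x, p⟫_ℝ with h1 | h1
    · rw [hg0 x hx hx1 h1, ← add_smul, sub_add_cancel, one_smul] at h
      exact hsub _ (hGn _) l hl0 hl1 h
    · have h2 := congrArg (fun z => ⟪z, b⟫_ℝ) h
      simp only [hg1 x h1, inner_add_left, inner_sub_left, real_inner_smul_left, hbb,
        inner_zero_left, mul_one] at h2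
      have h3 : δ ≤ 1 - ⟪G (T x), b⟫_ℝ := hδK x ⟨hx, hx1, h1⟩
      have h4 : ⟪G (T x), b⟫_ℝ - l < 0 := by linarith
      have h5 : ⟪p, b⟫_ℝ - l < 0 := by linarith
      rcases ht0.eq_or_lt with h6 | h6
      · subst h6
        linarith
      · nlinarith [mul_nonneg (sub_nonneg.mpr ht1) (neg_nonneg.mpr h4.le),
          mul_pos h6 (neg_pos.mpr h5)]
  have E2 : Ext a g := by
    refine E1.step hg.continuousOn hga ?_
    intro x hx hx1 t ht0 ht1 h
    refine hsub _ (hgn x hx hx1) ((1 - t) * l) (mul_nonneg (by linarith) hl0) ?_ ?_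
    · nlinarith [mul_nonneg ht0 hl0]
    · rw [← h]
      module
  exact not_ext_fold a p hp E2

end Pool.Agent.Ped
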